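import Mathlib

/-!
# Cauchy-Schwarz and `L²` convergence helpers (real integrals)
-/

open MeasureTheory Set Filter Topology
open scoped ENNReal NNReal

namespace H13CD

variable {Ω : Type*} [MeasurableSpace Ω] {μ : Measure Ω}

theorem memLp_two_of_sq {f : Ω → ℝ} (hf : AEStronglyMeasurable f μ)
    (h2 : Integrable (fun x => f x ^ 2) μ) : MemLp f 2 μ :=
  (memLp_two_iff_integrable_sq hf).mpr h2

theorem integrable_mul_of_sq {f g : Ω → ℝ} (hf : AEStronglyMeasurable f μ)
    (hg : AEStronglyMeasurable g μ) (hf2 : Integrable (fun x => f x ^ 2) μ)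
    (hg2 : Integrable (fun x => g x ^ 2) μ) : Integrable (fun x => f x * g x) μ :=
  (memLp_two_of_sq hf hf2).integrable_mul (memLp_two_of_sq hg hg2)

/-- Cauchy-Schwarz -/
theorem cauchy_schwarz_abs {f g : Ω → ℝ} (hf : AEStronglyMeasurable f μ)
    (hg : AEStronglyMeasurable g μ) (hf2 : Integrable (fun x => f x ^ 2) μ)
    (hg2 : Integrable (fun x => g x ^ 2) μ) :
    ∫ x, |f x * g x| ∂μ ≤ √(∫ x, f x ^ 2 ∂μ) * √(∫ x, g x ^ 2 ∂μ) := by
  have h1 : MemLp (fun x => |f x|) (ENNReal.ofReal 2) μ := by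
    rw [show ENNReal.ofReal 2 = 2 by norm_num]
    exact (memLp_two_of_sq hf hf2).abs
  have h2 : MemLp (fun x => |g x|) (ENNReal.ofReal 2) μ := by
    rw [show ENNReal.ofReal 2 = 2 by norm_num]
    exact (memLp_two_of_sq hg hg2).abs
  have h := integral_mul_le_Lp_mul_Lq_of_nonneg (p := 2) (q := 2)
    (by constructor <;> norm_num) (Eventually.of_forall fun x => abs_nonneg (f x))
    (Eventually.of_forall fun x => abs_nonneg (g x)) h1 h2
  simp only [abs_mul]
  refine h.trans (le_of_eq ?_)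
  rw [Real.sqrt_eq_rpow, Real.sqrt_eq_rpow]
  simp

theorem cauchy_schwarz {f g : Ω → ℝ} (hf : AEStronglyMeasurable f μ)
    (hg : AEStronglyMeasurable g μ) (hf2 : Integrable (fun x => f x ^ 2) μ)
    (hg2 : Integrable (fun x => g x ^ 2) μ) :
    |∫ x, f x * g x ∂μ| ≤ √(∫ x, f x ^ 2 ∂μ) * √(∫ x, g x ^ 2 ∂μ) :=
  (abs_integral_le_integral_abs).trans (cauchy_schwarz_abs hf hg hf2 hg2)

/-- on a probability space `∫|f| ≤ √∫f²` -/
theorem integral_abs_le_sqrt [IsProbabilityMeasure μ] {f : Ω → ℝ}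
    (hf : AEStronglyMeasurable f μ) (hf2 : Integrable (fun x => f x ^ 2) μ) :
    ∫ x, |f x| ∂μ ≤ √(∫ x, f x ^ 2 ∂μ) := by
  have := cauchy_schwarz_abs hf (aestronglyMeasurable_const (b := (1 : ℝ))) hf2
    (by simp)
  simpa using this

/-- `L²` convergence implies convergence of products -/
theorem tendsto_mul_of_sq {fn : ℕ → Ω → ℝ} {g : Ω → ℝ}
    (hf : ∀ n, AEStronglyMeasurable (fn n) μ) (hg : AEStronglyMeasurable g μ)
    (hf2 : ∀ n, Integrable (fun x => fn n x ^ 2) μ) (hg2 : Integrable (fun x => g x ^ 2) μ)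
    (h : Tendsto (fun n => ∫ x, fn n x ^ 2 ∂μ) atTop (𝓝 0)) :
    Tendsto (fun n => ∫ x, |fn n x * g x| ∂μ) atTop (𝓝 0) := by
  have h1 : Tendsto (fun n => √(∫ x, fn n x ^ 2 ∂μ) * √(∫ x, g x ^ 2 ∂μ)) atTop (𝓝 0) := by
    have := (h.sqrt).mul_const (√(∫ x, g x ^ 2 ∂μ))
    simpa using this
  exact squeeze_zero (fun n => integral_nonneg fun x => abs_nonneg _)
    (fun n => cauchy_schwarz_abs (hf n) hg (hf2 n) hg2) h1

/-- if `∫ (fn-f)² → 0` and `∫ (gn-g)² → 0` (all square integrable) then `∫ |fn gn - f g| → 0` -/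
theorem tendsto_mul_mul_of_sq {fn gn : ℕ → Ω → ℝ} {f g : Ω → ℝ}
    (hfn : ∀ n, MemLp (fn n) 2 μ) (hgn : ∀ n, MemLp (gn n) 2 μ) (hf : MemLp f 2 μ)
    (hg : MemLp g 2 μ)
    (h1 : Tendsto (fun n => ∫ x, (fn n x - f x) ^ 2 ∂μ) atTop (𝓝 0))
    (h2 : Tendsto (fun n => ∫ x, (gn n x - g x) ^ 2 ∂μ) atTop (𝓝 0)) :
    Tendsto (fun n => ∫ x, |fn n x * gn n x - f x * g x| ∂μ) atTop (𝓝 0) := by
  have hd1 : ∀ n, MemLp (fun x => fn n x - f x) 2 μ := fun n => (hfn n).sub hf
  have hd2 : ∀ n, MemLp (fun x => gn n x - g x) 2 μ := fun n => (hgn n).sub hg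
  -- `fn gn - f g = (fn-f)(gn-g) + (fn-f) g + f (gn-g)`
  have b1 : Tendsto (fun n => √(∫ x, (fn n x - f x) ^ 2 ∂μ) * √(∫ x, (gn n x - g x) ^ 2 ∂μ))
      atTop (𝓝 0) := by simpa using h1.sqrt.mul h2.sqrt
  have b2 := tendsto_mul_of_sq (fun n => (hd1 n).aestronglyMeasurable) hg.aestronglyMeasurable
    (fun n => (hd1 n).integrable_sq) hg.integrable_sq h1
  have b3 := tendsto_mul_of_sq (fun n => (hd2 n).aestronglyMeasurable) hf.aestronglyMeasurable
    (fun n => (hd2 n).integrable_sq) hf.integrable_sq h2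
  have b := (b1.add b2).add b3
  simp only [add_zero] at b
  refine squeeze_zero (fun n => integral_nonneg fun x => abs_nonneg _) (fun n => ?_) b
  have i1 : Integrable (fun x => (fn n x - f x) * (gn n x - g x)) μ := (hd1 n).integrable_mul (hd2 n)
  have i2 : Integrable (fun x => (fn n x - f x) * g x) μ := (hd1 n).integrable_mul hg
  have i3 : Integrable (fun x => (gn n x - g x) * f x) μ := (hd2 n).integrable_mul hf
  calc ∫ x, |fn n x * gn n x - f x * g x| ∂μ
      ≤ ∫ x, (|(fn n x - f x) * (gn n x - g x)| + |(fn n x - f x) * g x| +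
          |(gn n x - g x) * f x|) ∂μ := by
        refine integral_mono_of_nonneg (Eventually.of_forall fun x => abs_nonneg _)
          ((i1.abs.add i2.abs).add i3.abs) (Eventually.of_forall fun x => ?_)
        simp only
        have : fn n x * gn n x - f x * g x = (fn n x - f x) * (gn n x - g x) +
            (fn n x - f x) * g x + (gn n x - g x) * f x := by ring
        rw [this]
        exact (abs_add_le _ _).trans (add_le_add (abs_add_le _ _) le_rfl)
    _ = ∫ x, |(fn n x - f x) * (gn n x - g x)| ∂μ + ∫ x, |(fn n x - f x) * g x| ∂μ +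
          ∫ x, |(gn n x - g x) * f x| ∂μ := by
        have e1 : Integrable (fun x => |(fn n x - f x) * (gn n x - g x)| +
          |(fn n x - f x) * g x|) μ := i1.abs.add i2.abs
        rw [integral_add e1 i3.abs, integral_add i1.abs i2.abs]
    _ ≤ _ := by
        gcongr
        exact cauchy_schwarz_abs (hd1 n).aestronglyMeasurable (hd2 n).aestronglyMeasurable
          (hd1 n).integrable_sq (hd2 n).integrable_sq

end H13CD
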