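import Pool.Agent.Helper13.CD.Aux13

/-!
# Completeness of `L²` in terms of real integrals
-/

open MeasureTheory Set Filter Topology
open scoped ENNReal NNReal

namespace H13CD

variable {Ω : Type*} [MeasurableSpace Ω] {μ : Measure Ω}

theorem norm_toLp_sq {h : Ω → ℝ} (hh : MemLp h 2 μ) : ‖hh.toLp h‖ ^ 2 = ∫ x, h x ^ 2 ∂μ := by
  rw [← real_inner_self_eq_norm_sq, MeasureTheory.L2.inner_def]
  refine integral_congr_ae ?_
  filter_upwards [hh.coeFn_toLp] with x hx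
  rw [hx]
  simp [sq]

theorem exists_L2_limit {hn : ℕ → Ω → ℝ} (hm : ∀ n, MemLp (hn n) 2 μ)
    (hc : ∀ ε > 0, ∃ n0 : ℕ, ∀ n ≥ n0, ∀ k ≥ n0, ∫ x, (hn n x - hn k x) ^ 2 ∂μ ≤ ε) :
    ∃ g : Ω → ℝ, Measurable g ∧ MemLp g 2 μ ∧
      Tendsto (fun n => ∫ x, (hn n x - g x) ^ 2 ∂μ) atTop (𝓝 0) := by
  set F : ℕ → Lp ℝ 2 μ := fun n => (hm n).toLp (hn n) with hF
  have hcauchy : CauchySeq F := by
    rw [Metric.cauchySeq_iff]
    intro ε hε
    obtain ⟨n0, h0⟩ := hc (ε ^ 2 / 4) (by positivity)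
    refine ⟨n0, fun n hn' k hk => ?_⟩
    rw [dist_eq_norm, hF]
    simp only
    rw [← MemLp.toLp_sub]
    have h1 := norm_toLp_sq ((hm n).sub (hm k))
    have h2 := h0 n hn' k hk
    have h3 : ‖MemLp.toLp (hn n - hn k) ((hm n).sub (hm k))‖ ^ 2 ≤ ε ^ 2 / 4 := by
      rw [h1]; exact h2
    have h4 : ‖MemLp.toLp (hn n - hn k) ((hm n).sub (hm k))‖ ^ 2 < ε ^ 2 := by
      have : ε ^ 2 / 4 < ε ^ 2 := by
        have := pow_pos hε 2
        linarith
      linarith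
    exact lt_of_pow_lt_pow_left₀ 2 hε.le h4
  obtain ⟨G, hG⟩ := cauchySeq_tendsto_of_complete hcauchy
  have hGm : MemLp G 2 μ := Lp.memLp G
  refine ⟨G, (Lp.stronglyMeasurable G).measurable, hGm, ?_⟩
  have h1 : Tendsto (fun n => ‖F n - G‖ ^ 2) atTop (𝓝 0) := by
    have := (tendsto_iff_norm_sub_tendsto_zero.mp hG).pow 2
    simpa using this
  refine h1.congr fun n => ?_
  have h2 : F n - G = ((hm n).sub hGm).toLp (hn n - (G : Ω → ℝ)) := by
    rw [MemLp.toLp_sub (hm n) hGm, hF, Lp.toLp_coeFn]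
  rw [h2, norm_toLp_sq]
  rfl

/-- one sided first variation -/
theorem first_var_le {a b e0 : ℝ} (he : 0 < e0) (h : ∀ ε ∈ Ioo (0 : ℝ) e0, 2 * ε * a ≤ ε ^ 2 * b) :
    a ≤ 0 := by
  have h1 : ∀ᶠ ε in 𝓝[>] (0 : ℝ), a ≤ ε * b / 2 := by
    filter_upwards [Ioo_mem_nhdsGT he] with ε hε
    have h2 := h ε hε
    have h3 : 2 * ε * a ≤ 2 * ε * (ε * b / 2) := by nlinarith
    exact le_of_mul_le_mul_left h3 (by linarith [hε.1])
  have h2 : Tendsto (fun ε : ℝ => ε * b / 2) (𝓝[>] 0) (𝓝 0) := by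
    have hc : Continuous fun ε : ℝ => ε * b / 2 := by fun_prop
    have := (hc.tendsto 0).mono_left (nhdsWithin_le_nhds (s := Ioi (0 : ℝ)))
    simpa using this
  exact ge_of_tendsto h2 h1

/-- two sided first variation -/
theorem first_var_eq {a b e0 : ℝ} (he : 0 < e0)
    (h : ∀ ε ∈ Ioo (-e0) e0, 2 * ε * a ≤ ε ^ 2 * b) : a = 0 := by
  refine le_antisymm (first_var_le (b := b) he fun ε hε => h ε ⟨by linarith [hε.1], hε.2⟩) ?_
  have := first_var_le (a := -a) (b := b) he fun ε hε => by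
    have := h (-ε) ⟨by linarith [hε.2], by linarith [hε.1]⟩
    nlinarith
  linarith

/-- convergence of integrals of squares -/
theorem tendsto_integral_sq {fn : ℕ → Ω → ℝ} {f : Ω → ℝ} (hfn : ∀ n, MemLp (fn n) 2 μ)
    (hf : MemLp f 2 μ) (h1 : Tendsto (fun n => ∫ x, (fn n x - f x) ^ 2 ∂μ) atTop (𝓝 0)) :
    Tendsto (fun n => ∫ x, fn n x ^ 2 ∂μ) atTop (𝓝 (∫ x, f x ^ 2 ∂μ)) := by
  rw [tendsto_iff_norm_sub_tendsto_zero]
  refine squeeze_zero (fun n => norm_nonneg _) (fun n => ?_)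
    (tendsto_mul_mul_of_sq hfn hfn hf hf h1 h1)
  rw [← integral_sub (hfn n).integrable_sq hf.integrable_sq]
  refine (norm_integral_le_integral_norm _).trans (le_of_eq ?_)
  congr 1; funext x
  rw [Real.norm_eq_abs]; congr 1; ring

/-- convergence of integrals of products -/
theorem tendsto_integral_mul {fn gn : ℕ → Ω → ℝ} {f g : Ω → ℝ} (hfn : ∀ n, MemLp (fn n) 2 μ)
    (hgn : ∀ n, MemLp (gn n) 2 μ) (hf : MemLp f 2 μ) (hg : MemLp g 2 μ)
    (h1 : Tendsto (fun n => ∫ x, (fn n x - f x) ^ 2 ∂μ) atTop (𝓝 0))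
    (h2 : Tendsto (fun n => ∫ x, (gn n x - g x) ^ 2 ∂μ) atTop (𝓝 0)) :
    Tendsto (fun n => ∫ x, fn n x * gn n x ∂μ) atTop (𝓝 (∫ x, f x * g x ∂μ)) := by
  rw [tendsto_iff_norm_sub_tendsto_zero]
  refine squeeze_zero (fun n => norm_nonneg _) (fun n => ?_)
    (tendsto_mul_mul_of_sq hfn hgn hf hg h1 h2)
  have e1 : Integrable (fun x => fn n x * gn n x) μ := (hfn n).integrable_mul (hgn n)
  have e2 : Integrable (fun x => f x * g x) μ := hf.integrable_mul hg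
  rw [← integral_sub e1 e2]
  exact norm_integral_le_integral_norm _

/-- convergence of integrals on a probability space -/
theorem tendsto_integral_of_sq [IsProbabilityMeasure μ] {fn : ℕ → Ω → ℝ} {f : Ω → ℝ}
    (hfn : ∀ n, MemLp (fn n) 2 μ) (hf : MemLp f 2 μ)
    (h1 : Tendsto (fun n => ∫ x, (fn n x - f x) ^ 2 ∂μ) atTop (𝓝 0)) :
    Tendsto (fun n => ∫ x, fn n x ∂μ) atTop (𝓝 (∫ x, f x ∂μ)) := by
  have h := tendsto_integral_mul hfn (fun _ => memLp_const (1 : ℝ)) hf (memLp_const (1 : ℝ)) h1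
    (by simp)
  simpa using h

/-- an a.e. convergent subsequence -/
theorem exists_subseq_ae {fn : ℕ → Ω → ℝ} {f : Ω → ℝ} (hfn : ∀ n, MemLp (fn n) 2 μ)
    (hf : MemLp f 2 μ) (h1 : Tendsto (fun n => ∫ x, (fn n x - f x) ^ 2 ∂μ) atTop (𝓝 0)) :
    ∃ φ : ℕ → ℕ, StrictMono φ ∧ ∀ᵐ x ∂μ, Tendsto (fun n => fn (φ n) x) atTop (𝓝 (f x)) := by
  have h2 : Tendsto (fun n => eLpNorm (fn n - f) 2 μ) atTop (𝓝 0) := by
    have h3 : ∀ n, eLpNorm (fn n - f) 2 μ = ENNReal.ofReal (√(∫ x, (fn n x - f x) ^ 2 ∂μ)) := by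
      intro n
      have hd := (hfn n).sub hf
      have h4 : √(∫ x, (fn n x - f x) ^ 2 ∂μ) = ‖hd.toLp (fn n - f)‖ := by
        have := norm_toLp_sq hd
        simp only [Pi.sub_apply] at this
        rw [← this, Real.sqrt_sq (norm_nonneg _)]
      rw [h4, Lp.norm_toLp, ENNReal.ofReal_toReal hd.eLpNorm_ne_top]
    simp only [h3]
    have := ENNReal.tendsto_ofReal h1.sqrt
    simpa using this
  have h3 : TendstoInMeasure μ fn atTop f :=
    tendstoInMeasure_of_tendsto_eLpNorm (by norm_num) (fun n => (hfn n).aestronglyMeasurable)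
      hf.aestronglyMeasurable h2
  exact h3.exists_seq_tendsto_ae

end H13CD
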