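import Pool.Agent.Helper13.CD.Slope

/-!
# Module B: gluing of plans and geometry of Wasserstein geodesics

`glue`: disintegrate both plans over the middle marginal (`Measure.condKernel`, after `Prod.swap`
for `P0`) and take the product kernel.

`glue_geod`: with `A = d(x0,xt)`, `B = d(xt,x1)`, for `t ∈ (0,1)`
`A^2/t + B^2/(1-t) - (A+B)^2 = ((1-t)A - tB)^2/(t(1-t)) ≥ 0`.  Integrating over `σ`:
`∫A^2/t ≤ t W`, `∫B^2/(1-t) ≤ (1-t) W` (`W = cost P`), so
`W ≤ ∫ d(x0,x1)^2 dσ ≤ ∫ (A+B)^2 dσ ≤ ∫ (A^2/t+B^2/(1-t)) dσ ≤ W` (first inequality: optimality of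
`P`).  Hence all are a.e. equalities: `A + B = d(x0,x1)` and `(1-t)A = tB`, i.e.
`A = t d(x0,x1)`, `B = (1-t) d(x0,x1)`; and the `(x0,x1)`-marginal of `σ` has cost `W = cost P`,
so it is optimal.
-/

open MeasureTheory Set Filter Topology
open scoped ENNReal NNReal

namespace H13CD

open ProbabilityTheory in
theorem glue {X : Type*} [MeasurableSpace X] [StandardBorelSpace X]
    (P0 P1 : Measure (X × X)) [IsFiniteMeasure P0] [IsFiniteMeasure P1]
    (h : P0.map Prod.snd = P1.map Prod.fst) :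
    ∃ σ : Measure (X × X × X), σ.map (fun z => (z.1, z.2.1)) = P0 ∧ σ.map (fun z => z.2) = P1 := by
  rcases isEmpty_or_nonempty X with hX | hX
  · refine ⟨0, ?_, ?_⟩
    · exact Subsingleton.elim _ _
    · exact Subsingleton.elim _ _
  set Q0 : Measure (X × X) := P0.map Prod.swap with hQ0
  have hfin : IsFiniteMeasure Q0 := by rw [hQ0]; infer_instance
  have hQ0f : Q0.fst = P1.fst := by
    rw [Measure.fst, Measure.fst, hQ0, Measure.map_map measurable_fst measurable_swap, ← h]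
    rfl
  set κ0 := Q0.condKernel with hκ0
  set κ1 := P1.condKernel with hκ1
  refine ⟨(P1.fst.compProd (κ0 ×ₖ κ1)).map (fun w => (w.2.1, w.1, w.2.2)), ?_, ?_⟩
  · rw [Measure.map_map (by fun_prop) (by fun_prop)]
    have h1 : ((fun z : X × X × X => (z.1, z.2.1)) ∘ fun w : X × X × X => (w.2.1, w.1, w.2.2)) =
        Prod.swap ∘ Prod.map id Prod.fst := rfl
    rw [h1, ← Measure.map_map measurable_swap (by fun_prop), ← Measure.compProd_map measurable_fst,
      ← Kernel.fst_eq, Kernel.fst_prod, ← hQ0f, hκ0, Q0.disintegrate, hQ0,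
      Measure.map_map measurable_swap measurable_swap, Prod.swap_swap_eq, Measure.map_id]
  · rw [Measure.map_map (by fun_prop) (by fun_prop)]
    have h1 : ((fun z : X × X × X => z.2) ∘ fun w : X × X × X => (w.2.1, w.1, w.2.2)) =
        Prod.map id Prod.snd := rfl
    rw [h1, ← Measure.compProd_map measurable_snd, ← Kernel.snd_eq, Kernel.snd_prod, hκ1,
      P1.disintegrate]

variable {X : Type*} [MetricSpace X] [CompactSpace X] [MeasurableSpace X] [BorelSpace X]

theorem glue_geod {μ0 μt μ1 : Measure X} [IsFiniteMeasure μ0] {t : ℝ} (ht : t ∈ Ioo (0 : ℝ) 1)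
    {P P0 P1 : Measure (X × X)} (hP : Cpl P μ0 μ1) (hPo : IsOpt P) (hP0 : Cpl P0 μ0 μt)
    (hP1 : Cpl P1 μt μ1) (h0 : cost P0 ≤ t ^ 2 * cost P) (h1 : cost P1 ≤ (1 - t) ^ 2 * cost P) :
    ∃ σ : Measure (X × X × X), σ.map (fun z => (z.1, z.2.1)) = P0 ∧ σ.map (fun z => z.2) = P1 ∧
      Cpl (σ.map fun z => (z.1, z.2.2)) μ0 μ1 ∧ IsOpt (σ.map fun z => (z.1, z.2.2)) ∧
      cost (σ.map fun z => (z.1, z.2.2)) = cost P ∧
      ∀ᵐ z ∂σ, dist z.1 z.2.1 = t * dist z.1 z.2.2 ∧ dist z.2.1 z.2.2 = (1 - t) * dist z.1 z.2.2 := by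
  obtain ⟨ht0, ht1⟩ := ht
  have hmass : ∀ (Q : Measure (X × X)) (f : X × X → X), Measurable f → Q.map f univ = Q univ := by
    intro Q f hf
    rw [Measure.map_apply hf MeasurableSet.univ, preimage_univ]
  have hP0f : IsFiniteMeasure P0 := by
    constructor
    rw [← hmass P0 _ measurable_fst, hP0.1]
    exact measure_lt_top _ _
  have hμtf : IsFiniteMeasure μt := by
    rw [← hP0.2]; infer_instance
  have hP1f : IsFiniteMeasure P1 := by
    constructor
    rw [← hmass P1 _ measurable_fst, hP1.1]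
    exact measure_lt_top _ _
  obtain ⟨σ, hσ0, hσ1⟩ := glue P0 P1 (by rw [hP0.2, hP1.1])
  have hσf : IsFiniteMeasure σ := by
    constructor
    have h2 : σ.map (fun z => (z.1, z.2.1)) univ = σ univ := by
      rw [Measure.map_apply (by fun_prop) MeasurableSet.univ, preimage_univ]
    rw [← h2, hσ0]
    exact measure_lt_top _ _
  have hcpl : Cpl (σ.map fun z => (z.1, z.2.2)) μ0 μ1 := by
    constructor
    · rw [Measure.map_map (by fun_prop) (by fun_prop), ← hP0.1, ← hσ0,
        Measure.map_map (by fun_prop) (by fun_prop)]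
      rfl
    · rw [Measure.map_map (by fun_prop) (by fun_prop), ← hP1.2, ← hσ1,
        Measure.map_map (by fun_prop) (by fun_prop)]
      rfl
  have hcost : cost P ≤ cost (σ.map fun z => (z.1, z.2.2)) :=
    hPo _ (by rw [hcpl.1, hP.1]) (by rw [hcpl.2, hP.2])
  have hc2 : cost (σ.map fun z => (z.1, z.2.2)) = ∫ z, dist z.1 z.2.2 ^ 2 ∂σ := by
    unfold cost
    rw [integral_map (by fun_prop)]
    exact (by fun_prop : Continuous fun z : X × X => dist z.1 z.2 ^ 2).aestronglyMeasurable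
  have hc0 : cost P0 = ∫ z, dist z.1 z.2.1 ^ 2 ∂σ := by
    unfold cost
    rw [← hσ0, integral_map (by fun_prop)]
    exact (by fun_prop : Continuous fun z : X × X => dist z.1 z.2 ^ 2).aestronglyMeasurable
  have hc1 : cost P1 = ∫ z, dist z.2.1 z.2.2 ^ 2 ∂σ := by
    unfold cost
    rw [← hσ1, integral_map (by fun_prop)]
    exact (by fun_prop : Continuous fun z : X × X => dist z.1 z.2 ^ 2).aestronglyMeasurable
  have hint : ∀ g : X × X × X → ℝ, Continuous g → Integrable g σ := fun g hg =>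
    hg.integrable_of_hasCompactSupport (HasCompactSupport.of_compactSpace _)
  set F : X × X × X → ℝ := fun z =>
    dist z.1 z.2.1 ^ 2 / t + dist z.2.1 z.2.2 ^ 2 / (1 - t) - dist z.1 z.2.2 ^ 2 with hF
  have ht2 : 0 < 1 - t := by linarith
  have hFeq : ∀ z : X × X × X, F z =
      ((1 - t) * dist z.1 z.2.1 - t * dist z.2.1 z.2.2) ^ 2 / (t * (1 - t)) +
        ((dist z.1 z.2.1 + dist z.2.1 z.2.2) ^ 2 - dist z.1 z.2.2 ^ 2) := by
    intro z
    simp only [hF]
    field_simp
    ring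
  have htri : ∀ z : X × X × X, 0 ≤ (dist z.1 z.2.1 + dist z.2.1 z.2.2) ^ 2 - dist z.1 z.2.2 ^ 2 := by
    intro z
    have h3 := dist_triangle z.1 z.2.1 z.2.2
    have h4 : (0 : ℝ) ≤ dist z.1 z.2.2 := dist_nonneg
    nlinarith
  have hF0 : ∀ z, 0 ≤ F z := by
    intro z
    rw [hFeq z]
    have := htri z
    positivity
  have hFc : Continuous F := by
    simp only [hF]
    fun_prop
  have hFint : ∫ z, F z ∂σ = cost P0 / t + cost P1 / (1 - t) - cost (σ.map fun z => (z.1, z.2.2)) := by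
    rw [hc0, hc1, hc2, ← integral_div, ← integral_div, ← integral_add (hint _ (by fun_prop))
      (hint _ (by fun_prop)), ← integral_sub (hint _ (by fun_prop)) (hint _ (by fun_prop))]
  have hle : ∫ z, F z ∂σ ≤ cost P - cost (σ.map fun z => (z.1, z.2.2)) := by
    rw [hFint]
    have h3 : cost P0 / t ≤ t * cost P := by
      rw [div_le_iff₀ ht0]; linarith
    have h4 : cost P1 / (1 - t) ≤ (1 - t) * cost P := by
      rw [div_le_iff₀ ht2]; linarith
    linarith
  have hge : 0 ≤ ∫ z, F z ∂σ := integral_nonneg hF0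
  have hF00 : ∫ z, F z ∂σ = 0 := by linarith
  have hceq : cost (σ.map fun z => (z.1, z.2.2)) = cost P := by linarith
  refine ⟨σ, hσ0, hσ1, hcpl, ?_, hceq, ?_⟩
  · intro Q hQ1 hQ2
    rw [hceq]
    exact hPo Q (by rw [hQ1, hcpl.1, hP.1]) (by rw [hQ2, hcpl.2, hP.2])
  · have h3 := (integral_eq_zero_iff_of_nonneg (μ := σ) hF0 (hint _ hFc)).mp hF00
    filter_upwards [h3] with z hz
    have hz' : F z = 0 := hz
    rw [hFeq z] at hz'
    have h5 : 0 ≤ ((1 - t) * dist z.1 z.2.1 - t * dist z.2.1 z.2.2) ^ 2 / (t * (1 - t)) := by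
      positivity
    have h6 := htri z
    have h7 : ((1 - t) * dist z.1 z.2.1 - t * dist z.2.1 z.2.2) ^ 2 / (t * (1 - t)) = 0 := by
      linarith
    have h8 : (dist z.1 z.2.1 + dist z.2.1 z.2.2) ^ 2 = dist z.1 z.2.2 ^ 2 := by linarith
    have h9 : dist z.1 z.2.1 + dist z.2.1 z.2.2 = dist z.1 z.2.2 := by
      rwa [sq_eq_sq₀ (by positivity) dist_nonneg] at h8
    have h10 : (1 - t) * dist z.1 z.2.1 - t * dist z.2.1 z.2.2 = 0 := by
      rw [div_eq_zero_iff] at h7
      rcases h7 with h7 | h7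
      · exact pow_eq_zero_iff (two_ne_zero) |>.mp h7
      · exfalso
        have : 0 < t * (1 - t) := by positivity
        linarith
    constructor
    · rw [← h9]; linarith
    · rw [← h9]; linarith

end H13CD
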