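import Pool.Agent.Helper13.CD.Util

/-!
# Module C: convergence in total variation from convergence of the Renyi entropy

Let `p = 1-1/N`.  For `v > 0`, `r ≥ 0`:
`Gap v r = v^(1-N)/N + p v r - r^p ≥ c_p v (√r - v^(-N/2))^2`, `c_p = min p (1/N)`.
(With `r = v^(-N) x` this is `v^(1-N) (1/N + p x - x^p)` and
`(1-λ)a + λ b - a^(1-λ) b^λ ≥ min(λ,1-λ) (√a-√b)^2`, which follows from weighted AM-GM:
for `λ ≤ 1/2`, `(1-λ)a+λb-λ(√a-√b)^2 = (1-2λ)a + 2λ√(ab) ≥ a^(1-λ) b^λ`.)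
Put `u0 = ρ0^(-1/N)`, `Gap u0 ρ0 = 0`.  Given `δ`, choose a continuous `v`, `c ≤ v ≤ C`, close to
`u0` in `L¹(m)` (`c,C` the bounds of `u0`).  `∫ Gap v ρn = ∫ v^(1-N)/N + p ∫ v ρn - Ent ρn`, and
limsup of the right side is at most `∫ v^(1-N)/N + p∫ v ρ0 - Ent ρ0 = ∫ Gap v ρ0 =: η(v)`, small.
So `limsup ∫ (√ρn - v^(-N/2))^2 ≤ η/(c_p c)`, also `∫ (√ρ0 - v^(-N/2))^2` is small; the triangle
inequality in `L²` gives `∫ (√ρn-√ρ0)^2 → 0`, and
`∫ |ρn-ρ0| ≤ (∫(√ρn-√ρ0)^2)^(1/2) (∫(√ρn+√ρ0)^2)^(1/2)` with bounded second factor.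
-/

open MeasureTheory Set Filter Topology
open scoped ENNReal NNReal

namespace H13CD

/-- Young's inequality with remainder, lower bound -/
theorem tv_young_lower {p q κ a b : ℝ} (hp : 0 < p) (hq : 0 < q) (hpq : p + q = 1) (hκ : 0 < κ)
    (hκp : κ ≤ p) (hκq : κ ≤ q) (ha : 0 ≤ a) (hb : 0 ≤ b) :
    κ * (a - b) ^ 2 ≤ q * a ^ 2 + p * b ^ 2 - a ^ (2 * q) * b ^ (2 * p) := by
  have h := Real.geom_mean_le_arith_mean3_weighted (w₁ := q - κ) (w₂ := p - κ) (w₃ := 2 * κ)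
    (p₁ := a ^ 2) (p₂ := b ^ 2) (p₃ := a * b) (by linarith) (by linarith) (by linarith)
    (by positivity) (by positivity) (by positivity) (by linarith)
  have e : (a ^ 2) ^ (q - κ) * (b ^ 2) ^ (p - κ) * (a * b) ^ (2 * κ) =
      a ^ (2 * q) * b ^ (2 * p) := by
    rw [← Real.rpow_natCast a 2, ← Real.rpow_natCast b 2, ← Real.rpow_mul ha, ← Real.rpow_mul hb,
      Real.mul_rpow ha hb]
    have e1 : a ^ (2 * q) = a ^ (((2 : ℕ) : ℝ) * (q - κ)) * a ^ (2 * κ) := by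
      rw [← Real.rpow_add_of_nonneg ha (by push_cast; linarith) (by linarith)]
      congr 1
      push_cast; ring
    have e2 : b ^ (2 * p) = b ^ (((2 : ℕ) : ℝ) * (p - κ)) * b ^ (2 * κ) := by
      rw [← Real.rpow_add_of_nonneg hb (by push_cast; linarith) (by linarith)]
      congr 1
      push_cast; ring
    rw [e1, e2]; ring
  rw [e] at h
  nlinarith

/-- Young's inequality with remainder, upper bound -/
theorem tv_young_upper {p q a b : ℝ} (hp : 0 < p) (hq : 0 < q) (hpq : p + q = 1)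
    (ha : 0 ≤ a) (hb : 0 ≤ b) :
    q * a ^ 2 + p * b ^ 2 - a ^ (2 * q) * b ^ (2 * p) ≤ (a - b) ^ 2 := by
  have h := Real.geom_mean_le_arith_mean3_weighted (w₁ := p / 2) (w₂ := q / 2) (w₃ := 1 / 2)
    (p₁ := a ^ 2) (p₂ := b ^ 2) (p₃ := a ^ (2 * q) * b ^ (2 * p)) (by linarith) (by linarith)
    (by norm_num) (by positivity) (by positivity) (by positivity) (by linarith)
  have e : (a ^ 2) ^ (p / 2) * (b ^ 2) ^ (q / 2) * (a ^ (2 * q) * b ^ (2 * p)) ^ ((1 : ℝ) / 2) =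
      a * b := by
    rw [← Real.rpow_natCast a 2, ← Real.rpow_natCast b 2, ← Real.rpow_mul ha, ← Real.rpow_mul hb,
      Real.mul_rpow (by positivity) (by positivity), ← Real.rpow_mul ha, ← Real.rpow_mul hb]
    have e1 : a = a ^ (((2 : ℕ) : ℝ) * (p / 2)) * a ^ (2 * q * (1 / 2)) := by
      rw [← Real.rpow_add_of_nonneg ha (by positivity) (by positivity)]
      have : ((2 : ℕ) : ℝ) * (p / 2) + 2 * q * (1 / 2) = 1 := by push_cast; linarith
      rw [this, Real.rpow_one]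
    have e2 : b = b ^ (((2 : ℕ) : ℝ) * (q / 2)) * b ^ (2 * p * (1 / 2)) := by
      rw [← Real.rpow_add_of_nonneg hb (by positivity) (by positivity)]
      have : ((2 : ℕ) : ℝ) * (q / 2) + 2 * p * (1 / 2) = 1 := by push_cast; linarith
      rw [this, Real.rpow_one]
    calc _ = (a ^ (((2 : ℕ) : ℝ) * (p / 2)) * a ^ (2 * q * (1 / 2))) *
          (b ^ (((2 : ℕ) : ℝ) * (q / 2)) * b ^ (2 * p * (1 / 2))) := by ring
      _ = a * b := by rw [← e1, ← e2]
  rw [e] at h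
  nlinarith

theorem tv_subst {p q s w : ℝ} (hp : 0 < p) (hq : 0 < q) (hpq : p + q = 1)
    (hs : 0 < s) (hw : 0 ≤ w) :
    q * (s ^ p) ^ 2 + p * (s ^ (-q) * w) ^ 2 - (s ^ p) ^ (2 * q) * (s ^ (-q) * w) ^ (2 * p) =
      q * s ^ (2 * p) + p * (s ^ (-(2 * q)) * w ^ 2) - w ^ (2 * p) ∧
    (s ^ p - s ^ (-q) * w) ^ 2 = s ^ (-(2 * q)) * (w - s) ^ 2 := by
  have e1 : (s ^ p) ^ 2 = s ^ (2 * p) := by
    rw [← Real.rpow_natCast (s ^ p) 2, ← Real.rpow_mul hs.le]; congr 1; push_cast; ring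
  have e2 : (s ^ (-q)) ^ 2 = s ^ (-(2 * q)) := by
    rw [← Real.rpow_natCast (s ^ (-q)) 2, ← Real.rpow_mul hs.le]; congr 1; push_cast; ring
  have e3 : (s ^ p) ^ (2 * q) * (s ^ (-q) * w) ^ (2 * p) = w ^ (2 * p) := by
    rw [Real.mul_rpow (by positivity) hw, ← Real.rpow_mul hs.le, ← Real.rpow_mul hs.le,
      ← mul_assoc, ← Real.rpow_add hs]
    have : p * (2 * q) + -q * (2 * p) = 0 := by ring
    rw [this, Real.rpow_zero, one_mul]
  refine ⟨by rw [e1, mul_pow, e2, e3], ?_⟩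
  have e4 : s ^ p = s ^ (-q) * s := by
    nth_rewrite 3 [← Real.rpow_one s]
    rw [← Real.rpow_add hs]; congr 1; linarith
  rw [e4, ← e2]; ring

theorem tv_sqrt_rpow {r p : ℝ} (hr : 0 ≤ r) : Real.sqrt r ^ (2 * p) = r ^ p := by
  rw [Real.sqrt_eq_rpow, ← Real.rpow_mul hr]; congr 1; ring

variable {X : Type*} [MetricSpace X] [CompactSpace X] [MeasurableSpace X] [BorelSpace X]
  {m : Measure X} [IsFiniteMeasure m]

theorem tv_lemma {N : ℝ} (hN : 1 < N) {ρ0 : X → ℝ} (hρ0 : Measurable ρ0) {c C : ℝ} (hc : 0 < c)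
    (h0 : ∀ x, c ≤ ρ0 x ∧ ρ0 x ≤ C) {ρn : ℕ → X → ℝ} (hm : ∀ n, Measurable (ρn n))
    (hpos : ∀ n x, 0 ≤ ρn n x) (hi : ∀ n, Integrable (ρn n) m)
    (hweak : ∀ g : X → ℝ, Continuous g →
      Tendsto (fun n => ∫ x, g x * ρn n x ∂m) atTop (𝓝 (∫ x, g x * ρ0 x ∂m)))
    (hE : ∀ δ > 0, ∀ᶠ n in atTop, Ent N m ρ0 - δ ≤ Ent N m (ρn n)) :
    Tendsto (fun n => ∫ x, |ρn n x - ρ0 x| ∂m) atTop (𝓝 0) := by
  rcases isEmpty_or_nonempty X with hX | hX
  · have : ∀ n, ∫ x, |ρn n x - ρ0 x| ∂m = 0 := fun n => by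
      rw [Measure.eq_zero_of_isEmpty m, integral_zero_measure]
    simp only [this]; exact tendsto_const_nhds
  have hcC : c ≤ C := by obtain ⟨x⟩ := hX; exact (h0 x).1.trans (h0 x).2
  have hC : 0 < C := hc.trans_le hcC
  set q : ℝ := 1 / N with hq
  set p : ℝ := 1 - 1 / N with hp
  have hq0 : 0 < q := by positivity
  have hp0 : 0 < p := by
    rw [hp, sub_pos, div_lt_one (by linarith)]; exact hN
  have hpq : p + q = 1 := by rw [hp, hq]; ring
  have hp1 : p ≤ 1 := by linarith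
  set κ := min p q with hκd
  have hκ : 0 < κ := lt_min hp0 hq0
  set w0 : X → ℝ := fun x => Real.sqrt (ρ0 x) with hw0
  have hw0m : Measurable w0 := hρ0.sqrt
  have hw0b : ∀ x, Real.sqrt c ≤ w0 x ∧ w0 x ≤ Real.sqrt C := fun x =>
    ⟨Real.sqrt_le_sqrt (h0 x).1, Real.sqrt_le_sqrt (h0 x).2⟩
  have hsc : 0 < Real.sqrt c := Real.sqrt_pos.mpr hc
  have hsC : 0 < Real.sqrt C := Real.sqrt_pos.mpr hC
  have ρ0i : Integrable ρ0 m := by
    refine Integrable.of_bound hρ0.aestronglyMeasurable C (ae_of_all _ fun x => ?_)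
    rw [Real.norm_eq_abs, abs_of_nonneg (hc.le.trans (h0 x).1)]; exact (h0 x).2
  have entI : ∀ ρ : X → ℝ, Measurable ρ → (∀ x, 0 ≤ ρ x) → Integrable ρ m →
      Integrable (fun x => ρ x ^ p) m := by
    intro ρ hρ hρ0' hρi
    refine Integrable.mono' ((integrable_const (1 : ℝ)).add hρi)
      (hρ.pow_const p).aestronglyMeasurable (ae_of_all _ fun x => ?_)
    rw [Real.norm_eq_abs, abs_of_nonneg (Real.rpow_nonneg (hρ0' x) _)]
    simp only [Pi.add_apply]
    rcases le_total (ρ x) 1 with h | h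
    · have := Real.rpow_le_one (hρ0' x) h hp0.le
      linarith [hρ0' x]
    · have : ρ x ^ p ≤ ρ x ^ (1 : ℝ) := Real.rpow_le_rpow_of_exponent_le h hp1
      rw [Real.rpow_one] at this
      linarith
  -- main estimate: `D_n := ∫ (√ρn - √ρ0)^2 → 0`
  have sqI : ∀ (n : ℕ) (g : X → ℝ) (B : ℝ), Measurable g → (∀ x, 0 ≤ g x ∧ g x ≤ B) →
      Integrable (fun x => (Real.sqrt (ρn n x) - g x) ^ 2) m := by
    intro n g B hg hgB
    refine Integrable.mono' (((hi n).const_mul 2).add (integrable_const (2 * B ^ 2)))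
      (((hm n).sqrt.sub hg).pow_const 2).aestronglyMeasurable (ae_of_all _ fun x => ?_)
    rw [Real.norm_eq_abs, abs_of_nonneg (sq_nonneg _)]
    simp only [Pi.add_apply]
    have h1 := Real.sq_sqrt (hpos n x)
    have h2 : g x ^ 2 ≤ B ^ 2 := pow_le_pow_left₀ (hgB x).1 (hgB x).2 2
    nlinarith [sq_nonneg (Real.sqrt (ρn n x) + g x)]
  have key : Tendsto (fun n => ∫ x, (Real.sqrt (ρn n x) - w0 x) ^ 2 ∂m) atTop (𝓝 0) := by
    have hnn : ∀ n, 0 ≤ ∫ x, (Real.sqrt (ρn n x) - w0 x) ^ 2 ∂m := fun n =>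
      integral_nonneg fun x => sq_nonneg _
    rw [Metric.tendsto_atTop]
    intro ε hε
    set α : ℝ := Real.sqrt C ^ (-(2 * q)) with hα
    set β : ℝ := Real.sqrt c ^ (-(2 * q)) with hβ
    have hα0 : 0 < α := by positivity
    have hβ0 : 0 < β := by positivity
    -- choose parameters
    set η : ℝ := min (ε / 8) (κ * α * ε / (16 * β)) with hη
    have hη0 : 0 < η := by positivity
    set δ : ℝ := κ * α * ε / 32 with hδ
    have hδ0 : 0 < δ := by positivity
    obtain ⟨s, Ks, hsL, hsη, hsb⟩ := exists_lipschitz_approx_bdd (m := m) hw0m hw0b hη0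
    have hs0 : ∀ x, 0 < s x := fun x => hsc.trans_le (hsb x).1
    have hscont : Continuous s := hsL.continuous
    set v : X → ℝ := fun x => s x ^ (-(2 * q)) with hv
    have hvcont : Continuous v := hscont.rpow_const fun x => Or.inl (hs0 x).ne'
    have hvb : ∀ x, α ≤ v x ∧ v x ≤ β := fun x => by
      constructor
      · exact Real.rpow_le_rpow_of_nonpos (hs0 x) (hsb x).2 (by linarith)
      · exact Real.rpow_le_rpow_of_nonpos hsc (hsb x).1 (by linarith)
    have hs2p : Continuous fun x => s x ^ (2 * p) := hscont.rpow_const fun x => Or.inl (hs0 x).ne'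
    have i1 : Integrable (fun x => s x ^ (2 * p)) m :=
      hs2p.integrable_of_hasCompactSupport (HasCompactSupport.of_compactSpace _)
    have vb : ∀ x, ‖v x‖ ≤ β := fun x => by
      rw [Real.norm_eq_abs, abs_of_nonneg (hα0.le.trans (hvb x).1)]; exact (hvb x).2
    have i2 : ∀ ρ : X → ℝ, Integrable ρ m → Integrable (fun x => v x * ρ x) m := fun ρ hρ =>
      hρ.bdd_mul (c := β) hvcont.aestronglyMeasurable (ae_of_all _ vb)
    -- the functional
    have gapint : ∀ ρ : X → ℝ, Measurable ρ → (∀ x, 0 ≤ ρ x) → Integrable ρ m →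
        ∫ x, (q * s x ^ (2 * p) + p * (v x * ρ x) - ρ x ^ p) ∂m =
          q * ∫ x, s x ^ (2 * p) ∂m + p * ∫ x, v x * ρ x ∂m - Ent N m ρ := by
      intro ρ hρ hρ0' hρi
      have j1 : Integrable (fun x => q * s x ^ (2 * p)) m := i1.const_mul q
      have j2 : Integrable (fun x => p * (v x * ρ x)) m := (i2 ρ hρi).const_mul p
      have j3 : Integrable (fun x => ρ x ^ p) m := entI ρ hρ hρ0' hρi
      have j12 : Integrable (fun x => q * s x ^ (2 * p) + p * (v x * ρ x)) m := j1.add j2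
      rw [integral_sub j12 j3, integral_add j1 j2, integral_const_mul, integral_const_mul]
      rfl
    have gapI : ∀ ρ : X → ℝ, Measurable ρ → (∀ x, 0 ≤ ρ x) → Integrable ρ m →
        Integrable (fun x => q * s x ^ (2 * p) + p * (v x * ρ x) - ρ x ^ p) m := by
      intro ρ hρ hρ0' hρi
      have j1 : Integrable (fun x => q * s x ^ (2 * p)) m := i1.const_mul q
      have j2 : Integrable (fun x => p * (v x * ρ x)) m := (i2 ρ hρi).const_mul p
      exact (j1.add j2).sub (entI ρ hρ hρ0' hρi)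
    have pt : ∀ (r x : _), 0 ≤ r → κ * (v x * (Real.sqrt r - s x) ^ 2) ≤
          q * s x ^ (2 * p) + p * (v x * r) - r ^ p ∧
        q * s x ^ (2 * p) + p * (v x * r) - r ^ p ≤ v x * (Real.sqrt r - s x) ^ 2 := by
      intro r x hr
      have hsq := Real.sqrt_nonneg r
      have h1 := tv_young_lower (a := s x ^ p) (b := s x ^ (-q) * Real.sqrt r) hp0 hq0 hpq hκ
        (min_le_left _ _) (min_le_right _ _) (Real.rpow_nonneg (hs0 x).le _)
        (mul_nonneg (Real.rpow_nonneg (hs0 x).le _) hsq)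
      have h2 := tv_young_upper (a := s x ^ p) (b := s x ^ (-q) * Real.sqrt r) hp0 hq0 hpq
        (Real.rpow_nonneg (hs0 x).le _) (mul_nonneg (Real.rpow_nonneg (hs0 x).le _) hsq)
      obtain ⟨e1, e2⟩ := tv_subst hp0 hq0 hpq (hs0 x) hsq
      rw [e1, e2, Real.sq_sqrt hr, tv_sqrt_rpow hr] at h1 h2
      exact ⟨h1, h2⟩
    -- value at ρ0
    have G0 : q * ∫ x, s x ^ (2 * p) ∂m + p * ∫ x, v x * ρ0 x ∂m - Ent N m ρ0 ≤ β * η := by
      rw [← gapint ρ0 hρ0 (fun x => hc.le.trans (h0 x).1) ρ0i]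
      calc _ ≤ ∫ x, β * (w0 x - s x) ^ 2 ∂m := by
            refine integral_mono (gapI ρ0 hρ0 (fun x => hc.le.trans (h0 x).1) ρ0i) ?_ fun x => ?_
            · have hw0M : MemLp w0 2 m := MemLp.of_bound hw0m.aestronglyMeasurable (Real.sqrt C)
                (ae_of_all _ fun x => by
                  rw [Real.norm_eq_abs, abs_of_nonneg (Real.sqrt_nonneg _)]; exact (hw0b x).2)
              have hsM : MemLp s 2 m := MemLp.of_bound hscont.aestronglyMeasurable (Real.sqrt C)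
                (ae_of_all _ fun x => by
                  rw [Real.norm_eq_abs, abs_of_nonneg (hs0 x).le]; exact (hsb x).2)
              exact (hw0M.sub hsM).integrable_sq.const_mul β
            · exact (pt (ρ0 x) x (hc.le.trans (h0 x).1)).2.trans
                (mul_le_mul_of_nonneg_right (hvb x).2 (sq_nonneg _))
        _ = β * ∫ x, (w0 x - s x) ^ 2 ∂m := integral_const_mul _ _
        _ ≤ β * η := mul_le_mul_of_nonneg_left hsη hβ0.le
    have lv := hweak v hvcont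
    have ev1 : ∀ᶠ n in atTop, ∫ x, v x * ρn n x ∂m ≤ ∫ x, v x * ρ0 x ∂m + δ :=
      (lv.eventually (gt_mem_nhds (by linarith : ∫ x, v x * ρ0 x ∂m < ∫ x, v x * ρ0 x ∂m + δ))).mono
        fun n hn => hn.le
    obtain ⟨n0, hn0⟩ := (ev1.and (hE δ hδ0)).exists_forall_of_atTop
    refine ⟨n0, fun n hn => ?_⟩
    obtain ⟨hn1, hn2⟩ := hn0 n hn
    have sI := sqI n s (Real.sqrt C) hscont.measurable fun x => ⟨(hs0 x).le, (hsb x).2⟩
    have E1 : κ * α * ∫ x, (Real.sqrt (ρn n x) - s x) ^ 2 ∂m ≤ β * η + 2 * δ := by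
      calc κ * α * ∫ x, (Real.sqrt (ρn n x) - s x) ^ 2 ∂m
          = ∫ x, κ * α * (Real.sqrt (ρn n x) - s x) ^ 2 ∂m := (integral_const_mul _ _).symm
        _ ≤ ∫ x, (q * s x ^ (2 * p) + p * (v x * ρn n x) - ρn n x ^ p) ∂m := by
            refine integral_mono (sI.const_mul _) (gapI _ (hm n) (hpos n) (hi n)) fun x => ?_
            refine le_trans ?_ (pt (ρn n x) x (hpos n x)).1
            simp only
            rw [mul_assoc]
            exact mul_le_mul_of_nonneg_left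
              (mul_le_mul_of_nonneg_right (hvb x).1 (sq_nonneg _)) hκ.le
        _ = q * ∫ x, s x ^ (2 * p) ∂m + p * ∫ x, v x * ρn n x ∂m - Ent N m (ρn n) :=
            gapint _ (hm n) (hpos n) (hi n)
        _ ≤ β * η + 2 * δ := by nlinarith
    have E2 : ∫ x, (Real.sqrt (ρn n x) - s x) ^ 2 ∂m ≤ ε / 8 := by
      have h1 : β * η ≤ κ * α * ε / 16 := by
        have : η ≤ κ * α * ε / (16 * β) := min_le_right _ _
        calc β * η ≤ β * (κ * α * ε / (16 * β)) := mul_le_mul_of_nonneg_left this hβ0.le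
          _ = κ * α * ε / 16 := by field_simp
      have h2 : κ * α * ∫ x, (Real.sqrt (ρn n x) - s x) ^ 2 ∂m ≤ κ * α * (ε / 8) := by
        calc _ ≤ β * η + 2 * δ := E1
          _ ≤ κ * α * (ε / 8) := by rw [hδ]; linarith
      exact le_of_mul_le_mul_left h2 (by positivity)
    have E3 : ∫ x, (Real.sqrt (ρn n x) - w0 x) ^ 2 ∂m ≤
        2 * ∫ x, (Real.sqrt (ρn n x) - s x) ^ 2 ∂m + 2 * ∫ x, (w0 x - s x) ^ 2 ∂m := by
      have hw0M : MemLp w0 2 m := MemLp.of_bound hw0m.aestronglyMeasurable (Real.sqrt C)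
        (ae_of_all _ fun x => by
          rw [Real.norm_eq_abs, abs_of_nonneg (Real.sqrt_nonneg _)]; exact (hw0b x).2)
      have hsM : MemLp s 2 m := MemLp.of_bound hscont.aestronglyMeasurable (Real.sqrt C)
        (ae_of_all _ fun x => by
          rw [Real.norm_eq_abs, abs_of_nonneg (hs0 x).le]; exact (hsb x).2)
      have wI : Integrable (fun x => (w0 x - s x) ^ 2) m := (hw0M.sub hsM).integrable_sq
      rw [← integral_const_mul, ← integral_const_mul, ← integral_add (sI.const_mul _)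
        (wI.const_mul _)]
      refine integral_mono (sqI n w0 (Real.sqrt C) hw0m fun x =>
        ⟨Real.sqrt_nonneg _, (hw0b x).2⟩) ((sI.const_mul _).add (wI.const_mul _)) fun x => ?_
      simp only
      nlinarith [sq_nonneg (Real.sqrt (ρn n x) - s x + (w0 x - s x))]
    rw [Real.dist_eq, sub_zero, abs_of_nonneg (hnn n)]
    have : η ≤ ε / 8 := min_le_left _ _
    have h4 : ∫ x, (w0 x - s x) ^ 2 ∂m ≤ ε / 8 := hsη.trans this
    linarith
  -- conclusion
  have mass : Tendsto (fun n => ∫ x, ρn n x ∂m) atTop (𝓝 (∫ x, ρ0 x ∂m)) := by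
    have := hweak (fun _ => 1) continuous_const
    simpa using this
  set M : ℝ := 2 * ∫ x, ρ0 x ∂m + 1 with hM
  have hM0 : 0 < M := by
    have : 0 ≤ ∫ x, ρ0 x ∂m := integral_nonneg fun x => hc.le.trans (h0 x).1
    linarith
  rw [Metric.tendsto_atTop]
  intro ε hε
  have hε' : 0 < ε / (4 * M) := by positivity
  set e := ε / (4 * M) with he
  have evm : ∀ᶠ n in atTop, ∫ x, ρn n x ∂m < ∫ x, ρ0 x ∂m + 1 :=
    mass.eventually (gt_mem_nhds (by linarith))
  have evk : ∀ᶠ n in atTop, ∫ x, (Real.sqrt (ρn n x) - w0 x) ^ 2 ∂m < e * ε :=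
    key.eventually (gt_mem_nhds (by positivity))
  obtain ⟨n0, hn0⟩ := (evm.and evk).exists_forall_of_atTop
  refine ⟨n0, fun n hn => ?_⟩
  obtain ⟨hn1, hn2⟩ := hn0 n hn
  have kI := sqI n w0 (Real.sqrt C) hw0m fun x => ⟨Real.sqrt_nonneg _, (hw0b x).2⟩
  have F : ∫ x, |ρn n x - ρ0 x| ∂m ≤
      1 / (2 * e) * ∫ x, (Real.sqrt (ρn n x) - w0 x) ^ 2 ∂m +
        e * (∫ x, ρn n x ∂m + ∫ x, ρ0 x ∂m) := by
    have rI : Integrable (fun x => e * (ρn n x + ρ0 x)) m := ((hi n).add ρ0i).const_mul e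
    have kI' : Integrable (fun x => 1 / (2 * e) * (Real.sqrt (ρn n x) - w0 x) ^ 2) m :=
      kI.const_mul _
    rw [← integral_add (hi n) ρ0i, ← integral_const_mul, ← integral_const_mul,
      ← integral_add kI' rI]
    refine integral_mono_of_nonneg (ae_of_all _ fun x => abs_nonneg _)
      (kI'.add rI) (ae_of_all _ fun x => ?_)
    simp only
    have a2 := Real.sq_sqrt (hpos n x)
    have b2 := Real.sq_sqrt (hc.le.trans (h0 x).1 : (0 : ℝ) ≤ ρ0 x)
    set a := Real.sqrt (ρn n x) with ha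
    have hb : w0 x = Real.sqrt (ρ0 x) := rfl
    rw [← hb] at b2
    set b := w0 x with hb'
    rw [← a2, ← b2]
    have h1 : |a ^ 2 - b ^ 2| = |a - b| * |a + b| := by
      rw [← abs_mul]; congr 1; ring
    rw [h1]
    have h2 : |a - b| * |a + b| ≤ 1 / (2 * e) * |a - b| ^ 2 + e / 2 * |a + b| ^ 2 := by
      have : 0 ≤ (|a - b| - e * |a + b|) ^ 2 / (2 * e) := by positivity
      have e5 : (|a - b| - e * |a + b|) ^ 2 / (2 * e) =
          1 / (2 * e) * |a - b| ^ 2 + e / 2 * |a + b| ^ 2 - |a - b| * |a + b| := by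
        field_simp
        ring
      linarith
    rw [sq_abs, sq_abs] at h2
    have h3 : (a + b) ^ 2 ≤ 2 * (a ^ 2 + b ^ 2) := by nlinarith [sq_nonneg (a - b)]
    have h4 : e / 2 * (a + b) ^ 2 ≤ e * (a ^ 2 + b ^ 2) := by nlinarith
    linarith
  rw [Real.dist_eq, sub_zero, abs_of_nonneg (integral_nonneg fun x => abs_nonneg _)]
  have g1 : 1 / (2 * e) * ∫ x, (Real.sqrt (ρn n x) - w0 x) ^ 2 ∂m ≤ ε / 2 := by
    calc 1 / (2 * e) * ∫ x, (Real.sqrt (ρn n x) - w0 x) ^ 2 ∂m ≤ 1 / (2 * e) * (e * ε) :=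
          mul_le_mul_of_nonneg_left hn2.le (by positivity)
      _ = ε / 2 := by field_simp
  have g2 : e * (∫ x, ρn n x ∂m + ∫ x, ρ0 x ∂m) ≤ ε / 4 := by
    calc e * (∫ x, ρn n x ∂m + ∫ x, ρ0 x ∂m) ≤ e * M :=
          mul_le_mul_of_nonneg_left (by rw [hM]; linarith) hε'.le
      _ = ε / 4 := by rw [he]; field_simp
  linarith

end H13CD
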