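import Pool.Agent.Helper13.CD.Defs

/-!
# Module T: trigonometric lower bounds for the distortion coefficients

Let `p = 1-1/N`.
* `cot_le`: `a cos a ≤ (1 - a^2/3 - a^4/45) sin a` on `[0,π]`.  Proof:
  `k a = (1-a²/3-a⁴/45) sin a - a cos a`, `k 0 = 0`, `k' a = (a/45) l a`,
  `l a = (15-4a²) sin a - (15a+a³) cos a`, `l 0 = 0`, `l' a = a ((7+a²) sin a - 7 a cos a)`, and
  `(7+a²) sin a - 7 a cos a ≥ 0`: clear for `a ≥ π/2`; for `a ≤ π/2` it vanishes at `0` and has
  derivative `a (9 sin a + a cos a) ≥ 0`.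
* `g a = log (a / sin a) - a^2/6 - a^4/180` is monotone on `(0,π)` and tends to `0` at `0`.
* Consequences (for `0 < a < π`, `0 < t < 1`):
  `(a/sin a)^p ≥ exp (p (a²/6+a⁴/180)) ≥ R1 N a`;
  `sin ((1-t)a)/sin a ≥ (1-t) exp ((a²/6)(1-(1-t)²) + (a⁴/180)(1-(1-t)⁴))`;
  `sin (ta)/(t a) ≥ 1 - t²a²/6`.
* Therefore
  `tau N t a = t^(1/N) (sin(ta)/sin a)^p = t * (sin(ta)/(ta))^p * (a/sin a)^p
     ≥ t (1 - t² a²/6) R1 N a`   (if `t a ≤ 2`, say, so that `0 ≤ 1 - t²a²/6`; `y^p ≥ y` on `[0,1]`),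
  `tau N (1-t) a ≥ (1-t) (1 + p ((a²/6)(1-(1-t)²) + (a⁴/180)(1-(1-t)⁴)))
     ≥ (1-t) (1 + t (1-2t) R2 N a)`.
-/

open Set Filter Topology

namespace H13CD

/-- a function vanishing at `0` with nonnegative derivative on `(0,b)` is nonnegative at `b` -/
theorem trig_nonneg_aux {f f' : ℝ → ℝ} {b : ℝ} (hb : 0 ≤ b) (hf : ∀ x, HasDerivAt f (f' x) x)
    (h0 : f 0 = 0) (h : ∀ x ∈ Ioo (0 : ℝ) b, 0 ≤ f' x) : 0 ≤ f b := by
  have hm : MonotoneOn f (Icc 0 b) := by
    apply monotoneOn_of_deriv_nonneg (convex_Icc 0 b)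
    · exact fun x _ => (hf x).continuousAt.continuousWithinAt
    · exact fun x _ => (hf x).differentiableAt.differentiableWithinAt
    · intro x hx
      rw [interior_Icc] at hx
      rw [(hf x).deriv]
      exact h x hx
  have := hm (left_mem_Icc.2 hb) (right_mem_Icc.2 hb) hb
  rwa [h0] at this

theorem trig_m_nonneg {a : ℝ} (h0 : 0 ≤ a) (h1 : a ≤ Real.pi) :
    0 ≤ (7 + a ^ 2) * Real.sin a - 7 * a * Real.cos a := by
  rcases le_total a (Real.pi / 2) with h | h
  · apply trig_nonneg_aux (f := fun a => (7 + a ^ 2) * Real.sin a - 7 * a * Real.cos a)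
      (f' := fun a => a * (9 * Real.sin a + a * Real.cos a)) h0
    · intro x
      have h1 : HasDerivAt (fun a : ℝ => (7 + a ^ 2)) (2 * x) x := by
        simpa using ((hasDerivAt_pow 2 x).const_add 7)
      have h2 := h1.mul (Real.hasDerivAt_sin x)
      have h3 : HasDerivAt (fun a : ℝ => 7 * a) 7 x := by
        simpa using (hasDerivAt_id x).const_mul (7 : ℝ)
      have h4 := h3.mul (Real.hasDerivAt_cos x)
      refine (h2.sub h4).congr_deriv ?_
      ring
    · simp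
    · intro x hx
      have hx0 : 0 ≤ x := hx.1.le
      have hxp : x ≤ Real.pi / 2 := (hx.2.le).trans h
      have hs : 0 ≤ Real.sin x := Real.sin_nonneg_of_nonneg_of_le_pi hx0 (by linarith [Real.pi_pos])
      have hc : 0 ≤ Real.cos x := Real.cos_nonneg_of_neg_pi_div_two_le_of_le
        (by linarith [Real.pi_pos]) hxp
      positivity
  · have hs : 0 ≤ Real.sin a := Real.sin_nonneg_of_nonneg_of_le_pi h0 h1
    have hc : Real.cos a ≤ 0 := Real.cos_nonpos_of_pi_div_two_le_of_le h (by linarith)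
    have h2 : 0 ≤ (7 + a ^ 2) * Real.sin a := by positivity
    have h3 : 7 * a * Real.cos a ≤ 0 := mul_nonpos_of_nonneg_of_nonpos (by positivity) hc
    linarith

theorem trig_l_nonneg {a : ℝ} (h0 : 0 ≤ a) (h1 : a ≤ Real.pi) :
    0 ≤ (15 - 4 * a ^ 2) * Real.sin a - (15 * a + a ^ 3) * Real.cos a := by
  apply trig_nonneg_aux
    (f := fun a => (15 - 4 * a ^ 2) * Real.sin a - (15 * a + a ^ 3) * Real.cos a)
    (f' := fun a => a * ((7 + a ^ 2) * Real.sin a - 7 * a * Real.cos a)) h0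
  · intro x
    have h1 : HasDerivAt (fun a : ℝ => (15 - 4 * a ^ 2)) (-(8 * x)) x := by
      have := ((hasDerivAt_pow 2 x).const_mul (4 : ℝ)).const_sub 15
      refine this.congr_deriv ?_
      norm_num
      ring
    have h2 := h1.mul (Real.hasDerivAt_sin x)
    have h3 : HasDerivAt (fun a : ℝ => 15 * a + a ^ 3) (15 + 3 * x ^ 2) x := by
      have := ((hasDerivAt_id x).const_mul (15 : ℝ)).add (hasDerivAt_pow 3 x)
      refine this.congr_deriv ?_
      norm_num
    have h4 := h3.mul (Real.hasDerivAt_cos x)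
    refine (h2.sub h4).congr_deriv ?_
    ring
  · simp
  · intro x hx
    exact mul_nonneg hx.1.le (trig_m_nonneg hx.1.le (hx.2.le.trans h1))

theorem cot_le {a : ℝ} (h0 : 0 ≤ a) (h1 : a ≤ Real.pi) :
    a * Real.cos a ≤ (1 - a ^ 2 / 3 - a ^ 4 / 45) * Real.sin a := by
  have key : 0 ≤ (1 - a ^ 2 / 3 - a ^ 4 / 45) * Real.sin a - a * Real.cos a := by
    apply trig_nonneg_aux
      (f := fun a => (1 - a ^ 2 / 3 - a ^ 4 / 45) * Real.sin a - a * Real.cos a)
      (f' := fun a => a / 45 * ((15 - 4 * a ^ 2) * Real.sin a - (15 * a + a ^ 3) * Real.cos a)) h0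
    · intro x
      have h1 : HasDerivAt (fun a : ℝ => (1 - a ^ 2 / 3 - a ^ 4 / 45))
          (-(2 * x / 3) - 4 * x ^ 3 / 45) x := by
        have := (((hasDerivAt_pow 2 x).div_const 3).const_sub 1).sub
          ((hasDerivAt_pow 4 x).div_const 45)
        refine this.congr_deriv ?_
        norm_num
      have h2 := h1.mul (Real.hasDerivAt_sin x)
      have h4 := (hasDerivAt_id x).mul (Real.hasDerivAt_cos x)
      refine (h2.sub h4).congr_deriv ?_
      simp only [id]
      ring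
    · simp
    · intro x hx
      exact mul_nonneg (div_nonneg hx.1.le (by norm_num)) (trig_l_nonneg hx.1.le (hx.2.le.trans h1))
  linarith

/-- monotonicity of `log (a / sin a) - a^2/6 - a^4/180` on `(0,π)` -/
theorem trig_g_mono {s a : ℝ} (hs : 0 < s) (hsa : s ≤ a) (ha : a < Real.pi) :
    Real.log (s / Real.sin s) - s ^ 2 / 6 - s ^ 4 / 180 ≤
      Real.log (a / Real.sin a) - a ^ 2 / 6 - a ^ 4 / 180 := by
  have hd : ∀ x ∈ Ioo (0 : ℝ) Real.pi, HasDerivAt
      (fun a : ℝ => Real.log (a / Real.sin a) - a ^ 2 / 6 - a ^ 4 / 180)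
      ((1 * Real.sin x - x * Real.cos x) / Real.sin x ^ 2 / (x / Real.sin x) -
        2 * x / 6 - 4 * x ^ 3 / 180) x := by
    intro x hx
    have hsx : 0 < Real.sin x := Real.sin_pos_of_pos_of_lt_pi hx.1 hx.2
    have h1 := (hasDerivAt_id x).div (Real.hasDerivAt_sin x) hsx.ne'
    have hne : x / Real.sin x ≠ 0 := (div_pos hx.1 hsx).ne'
    have h2 := h1.log hne
    have h3 := (h2.sub ((hasDerivAt_pow 2 x).div_const 6)).sub
      ((hasDerivAt_pow 4 x).div_const 180)
    refine h3.congr_deriv ?_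
    norm_num
  have hm : MonotoneOn (fun a : ℝ => Real.log (a / Real.sin a) - a ^ 2 / 6 - a ^ 4 / 180)
      (Ioo 0 Real.pi) := by
    apply monotoneOn_of_deriv_nonneg (convex_Ioo 0 Real.pi)
    · exact fun x hx => (hd x hx).continuousAt.continuousWithinAt
    · intro x hx
      rw [interior_Ioo] at hx
      exact (hd x hx).differentiableAt.differentiableWithinAt
    · intro x hx
      rw [interior_Ioo] at hx
      rw [(hd x hx).deriv]
      have hsx : 0 < Real.sin x := Real.sin_pos_of_pos_of_lt_pi hx.1 hx.2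
      have hc := cot_le hx.1.le hx.2.le
      have hx0 : 0 < x := hx.1
      have e : (1 * Real.sin x - x * Real.cos x) / Real.sin x ^ 2 / (x / Real.sin x) -
        2 * x / 6 - 4 * x ^ 3 / 180 =
        ((1 - x ^ 2 / 3 - x ^ 4 / 45) * Real.sin x - x * Real.cos x) / (x * Real.sin x) := by
        field_simp
        ring
      rw [e]
      exact div_nonneg (by linarith) (by positivity)
  exact hm ⟨hs, lt_of_le_of_lt hsa ha⟩ ⟨lt_of_lt_of_le hs hsa, ha⟩ hsa

theorem trig_g_nonneg {a : ℝ} (h0 : 0 < a) (ha : a < Real.pi) :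
    a ^ 2 / 6 + a ^ 4 / 180 ≤ Real.log (a / Real.sin a) := by
  have h : ∀ s ∈ Ioo (0 : ℝ) a, -(s ^ 2 / 6 + s ^ 4 / 180) ≤
      Real.log (a / Real.sin a) - a ^ 2 / 6 - a ^ 4 / 180 := by
    intro s hs
    have h1 := trig_g_mono hs.1 hs.2.le ha
    have hsp : 0 < Real.sin s := Real.sin_pos_of_pos_of_lt_pi hs.1 (hs.2.trans ha)
    have h2 : 0 ≤ Real.log (s / Real.sin s) := by
      apply Real.log_nonneg
      rw [le_div_iff₀ hsp, one_mul]
      exact Real.sin_le hs.1.le
    linarith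
  have ht : Tendsto (fun s : ℝ => -(s ^ 2 / 6 + s ^ 4 / 180)) (𝓝[>] 0) (𝓝 0) := by
    have : Continuous (fun s : ℝ => -(s ^ 2 / 6 + s ^ 4 / 180)) := by fun_prop
    have h2 := (this.tendsto 0).mono_left (nhdsWithin_le_nhds (s := Ioi (0 : ℝ)))
    simpa using h2
  have h3 := le_of_tendsto ht (eventually_of_mem (Ioo_mem_nhdsGT h0) h)
  linarith

theorem trig_sin_ge {x : ℝ} (hx : 0 ≤ x) : x - x ^ 3 / 6 ≤ Real.sin x := by
  have key : 0 ≤ Real.sin x - x + x ^ 3 / 6 := by
    apply trig_nonneg_aux (f := fun x => Real.sin x - x + x ^ 3 / 6)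
      (f' := fun x => Real.cos x - 1 + x ^ 2 / 2) hx
    · intro y
      have := ((Real.hasDerivAt_sin y).sub (hasDerivAt_id y)).add
        ((hasDerivAt_pow 3 y).div_const 6)
      refine this.congr_deriv ?_
      norm_num
      ring
    · simp
    · intro y _
      have := Real.one_sub_sq_div_two_le_cos (x := y)
      linarith
  linarith

theorem trig_exp_le_rpow {p u y : ℝ} (hp : 0 ≤ p) (hy : 0 < y) (h : u ≤ Real.log y) :
    Real.exp (p * u) ≤ y ^ p := by
  rw [Real.rpow_def_of_pos hy]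
  apply Real.exp_le_exp.2
  rw [mul_comm (Real.log y) p]
  exact mul_le_mul_of_nonneg_left h hp

theorem trig_p_mem {N : ℝ} (hN : 1 < N) : 0 < 1 - 1 / N ∧ 1 - 1 / N < 1 := by
  have : 0 < 1 / N := by positivity
  have h2 : 1 / N < 1 := by
    rw [div_lt_one (by linarith)]
    exact hN
  exact ⟨by linarith, by linarith⟩

/-- `σ^{(t)}(a) ≥ t` -/
theorem le_tau {N t a : ℝ} (hN : 1 < N) (ht : t ∈ Ioo (0 : ℝ) 1) (h0 : 0 ≤ a) (h1 : a < Real.pi) :
    t ≤ tau N t a := by
  unfold tau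
  split_ifs with ha
  · exact le_rfl
  · have ha0 : 0 < a := lt_of_le_of_ne h0 (Ne.symm ha)
    have hsa : 0 < Real.sin a := Real.sin_pos_of_pos_of_lt_pi ha0 h1
    obtain ⟨hp0, hp1⟩ := trig_p_mem hN
    have hs : t * Real.sin a ≤ Real.sin (t * a) := by
      have hc := strictConcaveOn_sin_Icc.concaveOn
      have := hc.2 (left_mem_Icc.2 Real.pi_pos.le) (show a ∈ Icc 0 Real.pi from ⟨h0, h1.le⟩)
        (show 0 ≤ 1 - t by linarith [ht.2]) ht.1.le (by ring)
      simpa using this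
    have h2 : t ≤ Real.sin (t * a) / Real.sin a := by
      rwa [le_div_iff₀ hsa]
    have h3 : t ^ (1 - 1 / N) ≤ (Real.sin (t * a) / Real.sin a) ^ (1 - 1 / N) :=
      Real.rpow_le_rpow ht.1.le h2 hp0.le
    calc t = t ^ (1 / N) * t ^ (1 - 1 / N) := by
          rw [← Real.rpow_add ht.1]
          simp
      _ ≤ _ := mul_le_mul_of_nonneg_left h3 (Real.rpow_nonneg ht.1.le _)

theorem tau_ge {N t a : ℝ} (hN : 1 < N) (ht : t ∈ Ioo (0 : ℝ) (1 / 2)) (h0 : 0 ≤ a)
    (h1 : a < Real.pi) : t * (1 - t ^ 2 * a ^ 2 / 6) * R1 N a ≤ tau N t a := by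
  unfold tau
  split_ifs with ha
  · subst ha
    simp [R1]
  · have ha0 : 0 < a := lt_of_le_of_ne h0 (Ne.symm ha)
    have hsa : 0 < Real.sin a := Real.sin_pos_of_pos_of_lt_pi ha0 h1
    obtain ⟨hp0, hp1⟩ := trig_p_mem hN
    have ht0 : 0 < t := ht.1
    have hta : 0 < t * a := mul_pos ht.1 ha0
    have hta2 : t * a < Real.pi := by nlinarith [ht.2, Real.pi_pos]
    have hsta : 0 < Real.sin (t * a) := Real.sin_pos_of_pos_of_lt_pi hta hta2
    have hta3 : t * a ≤ 2 := by nlinarith [ht.2, Real.pi_lt_four]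
    have hy1 : 1 - t ^ 2 * a ^ 2 / 6 ≤ Real.sin (t * a) / (t * a) := by
      rw [le_div_iff₀ hta]
      have := trig_sin_ge hta.le
      nlinarith
    have hy0 : 0 ≤ 1 - t ^ 2 * a ^ 2 / 6 := by nlinarith
    have hy2 : Real.sin (t * a) / (t * a) ≤ 1 := by
      rw [div_le_one hta]
      exact Real.sin_le hta.le
    have hypos : 0 < Real.sin (t * a) / (t * a) := div_pos hsta hta
    have hyp : 1 - t ^ 2 * a ^ 2 / 6 ≤ (Real.sin (t * a) / (t * a)) ^ (1 - 1 / N) := by
      refine hy1.trans ?_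
      calc Real.sin (t * a) / (t * a) = (Real.sin (t * a) / (t * a)) ^ (1 : ℝ) := by simp
        _ ≤ _ := Real.rpow_le_rpow_of_exponent_ge hypos hy2 hp1.le
    have hz : R1 N a ≤ (a / Real.sin a) ^ (1 - 1 / N) := by
      refine le_trans ?_ (trig_exp_le_rpow hp0.le (div_pos ha0 hsa) (trig_g_nonneg ha0 h1))
      have hu : 0 ≤ (1 - 1 / N) * (a ^ 2 / 6 + a ^ 4 / 180) := by positivity
      refine le_trans ?_ (Real.quadratic_le_exp_of_nonneg hu)
      unfold R1
      have e : 1 + (1 - 1 / N) * (a ^ 2 / 6 + a ^ 4 / 180) +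
          ((1 - 1 / N) * (a ^ 2 / 6 + a ^ 4 / 180)) ^ 2 / 2 -
          (1 + (1 - 1 / N) / 6 * a ^ 2 + ((1 - 1 / N) / 180 + (1 - 1 / N) ^ 2 / 72) * a ^ 4) =
          (1 - 1 / N) ^ 2 * (a ^ 6 / 1080 + a ^ 8 / 64800) := by ring
      have : 0 ≤ (1 - 1 / N) ^ 2 * (a ^ 6 / 1080 + a ^ 8 / 64800) := by positivity
      linarith
    have hR : 0 ≤ R1 N a := by unfold R1; positivity
    have e : t ^ (1 / N) * (Real.sin (t * a) / Real.sin a) ^ (1 - 1 / N) =
        t * (Real.sin (t * a) / (t * a)) ^ (1 - 1 / N) * (a / Real.sin a) ^ (1 - 1 / N) := by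
      have e1 : Real.sin (t * a) / Real.sin a =
          t * ((Real.sin (t * a) / (t * a)) * (a / Real.sin a)) := by
        field_simp
      rw [e1, Real.mul_rpow ht0.le (by positivity), Real.mul_rpow hypos.le (by positivity),
        ← mul_assoc, ← Real.rpow_add ht0]
      simp [mul_assoc]
    rw [e]
    gcongr

theorem tau_one_sub_ge {N t a : ℝ} (hN : 1 < N) (ht : t ∈ Ioo (0 : ℝ) (1 / 2)) (h0 : 0 ≤ a)
    (h1 : a < Real.pi) : (1 - t) * (1 + t * (1 - 2 * t) * R2 N a) ≤ tau N (1 - t) a := by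
  unfold tau
  split_ifs with ha
  · subst ha
    simp [R2]
  · have ha0 : 0 < a := lt_of_le_of_ne h0 (Ne.symm ha)
    have hsa : 0 < Real.sin a := Real.sin_pos_of_pos_of_lt_pi ha0 h1
    obtain ⟨hp0, hp1⟩ := trig_p_mem hN
    have ht0 : 0 < t := ht.1
    have ht1 : 0 < 1 - t := by linarith [ht.2]
    have hta : 0 < (1 - t) * a := mul_pos ht1 ha0
    have hta1 : (1 - t) * a ≤ a := by nlinarith
    have hta2 : (1 - t) * a < Real.pi := by linarith
    have hsta : 0 < Real.sin ((1 - t) * a) := Real.sin_pos_of_pos_of_lt_pi hta hta2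
    set y := Real.sin ((1 - t) * a) / Real.sin a / (1 - t) with hy
    have hypos : 0 < y := by rw [hy]; positivity
    have hlog : (a ^ 2 / 6) * (1 - (1 - t) ^ 2) + (a ^ 4 / 180) * (1 - (1 - t) ^ 4) ≤
        Real.log y := by
      have hm := trig_g_mono hta hta1 h1
      have e : y = (a / Real.sin a) / ((1 - t) * a / Real.sin ((1 - t) * a)) := by
        rw [hy]
        field_simp
      have e2 : Real.log y = Real.log (a / Real.sin a) -
          Real.log ((1 - t) * a / Real.sin ((1 - t) * a)) := by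
        rw [e, Real.log_div (div_pos ha0 hsa).ne' (div_pos hta hsta).ne']
      rw [e2]
      nlinarith
    have hexp := trig_exp_le_rpow hp0.le hypos hlog
    have e : (1 - t) ^ (1 / N) * (Real.sin ((1 - t) * a) / Real.sin a) ^ (1 - 1 / N) =
        (1 - t) * y ^ (1 - 1 / N) := by
      have e1 : Real.sin ((1 - t) * a) / Real.sin a = (1 - t) * y := by
        rw [hy]
        field_simp
      rw [e1, Real.mul_rpow ht1.le hypos.le, ← mul_assoc, ← Real.rpow_add ht1]
      simp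
    rw [e]
    apply mul_le_mul_of_nonneg_left _ ht1.le
    refine le_trans ?_ hexp
    refine le_trans ?_ (Real.add_one_le_exp _)
    unfold R2
    have e3 : (1 - 1 / N) * ((a ^ 2 / 6) * (1 - (1 - t) ^ 2) + (a ^ 4 / 180) * (1 - (1 - t) ^ 4)) + 1
        - (1 + t * (1 - 2 * t) * ((1 - 1 / N) * (a ^ 2 / 3 + a ^ 4 / 45))) =
        (1 - 1 / N) * t ^ 2 * (a ^ 2 / 2 + (a ^ 4 / 180) * (2 + t * (4 - t))) := by ring
    have h4 : 0 ≤ 4 - t := by linarith [ht.2]
    have : 0 ≤ (1 - 1 / N) * t ^ 2 * (a ^ 2 / 2 + (a ^ 4 / 180) * (2 + t * (4 - t))) := by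
      positivity
    linarith

end H13CD
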