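import Pool.Agent.Helper13.CD.Slope

/-!
# Module U: integrals against plans whose marginals have bounded densities
-/

open MeasureTheory Set Filter Topology
open scoped ENNReal NNReal

namespace H13CD

variable {X : Type*} [MetricSpace X] [CompactSpace X] [MeasurableSpace X] [BorelSpace X]
  {m : Measure X} [IsFiniteMeasure m]

/-- `∫ g d(ρ m) = ∫ ρ g dm` -/
theorem integral_dens {ρ : X → ℝ} (hρ : Measurable ρ) (h0 : ∀ x, 0 ≤ ρ x) (g : X → ℝ) :
    ∫ x, g x ∂(dens m ρ) = ∫ x, ρ x * g x ∂m := by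
  unfold dens
  rw [integral_withDensity_eq_integral_toReal_smul hρ.ennreal_ofReal
    (ae_of_all _ fun x => ENNReal.ofReal_lt_top)]
  refine integral_congr_ae (ae_of_all _ fun x => ?_)
  simp only [smul_eq_mul]
  rw [ENNReal.toReal_ofReal (h0 x)]

theorem integrable_dens {ρ : X → ℝ} (hρ : Measurable ρ) (h0 : ∀ x, 0 ≤ ρ x) (g : X → ℝ) :
    Integrable g (dens m ρ) ↔ Integrable (fun x => ρ x * g x) m := by
  unfold dens
  rw [integrable_withDensity_iff_integrable_smul' hρ.ennreal_ofReal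
    (ae_of_all _ fun x => ENNReal.ofReal_lt_top)]
  apply integrable_congr
  refine ae_of_all _ fun x => ?_
  simp only [smul_eq_mul]
  rw [ENNReal.toReal_ofReal (h0 x)]

/-- integral of a function of the first coordinate -/
theorem Cpl.integral_fst {P : Measure (X × X)} {μ ν : Measure X} (h : Cpl P μ ν) {g : X → ℝ}
    (hg : AEStronglyMeasurable g μ) : ∫ z, g z.1 ∂P = ∫ x, g x ∂μ := by
  have h1 := h.1
  subst h1
  rw [integral_map measurable_fst.aemeasurable hg]

theorem Cpl.integral_snd {P : Measure (X × X)} {μ ν : Measure X} (h : Cpl P μ ν) {g : X → ℝ}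
    (hg : AEStronglyMeasurable g ν) : ∫ z, g z.2 ∂P = ∫ x, g x ∂ν := by
  have h1 := h.2
  subst h1
  rw [integral_map measurable_snd.aemeasurable hg]

theorem Cpl.isFiniteMeasure {P : Measure (X × X)} {μ ν : Measure X} [IsFiniteMeasure μ]
    (h : Cpl P μ ν) : IsFiniteMeasure P := by
  constructor
  have h1 : P.map Prod.fst univ = P univ := by
    rw [Measure.map_apply measurable_fst MeasurableSet.univ, preimage_univ]
  rw [← h1, h.1]
  exact measure_lt_top _ _

theorem isFiniteMeasure_dens {ρ : X → ℝ} (hi : Integrable ρ m) : IsFiniteMeasure (dens m ρ) := by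
  exact isFiniteMeasure_withDensity_ofReal hi.2

theorem dens_univ {ρ : X → ℝ} (hi : Integrable ρ m) (h0 : ∀ x, 0 ≤ ρ x) :
    dens m ρ univ = ENNReal.ofReal (∫ x, ρ x ∂m) := by
  unfold dens
  rw [withDensity_apply _ MeasurableSet.univ, Measure.restrict_univ,
    ofReal_integral_eq_lintegral_ofReal hi (ae_of_all _ h0)]

/-- `dens` is bounded by a multiple of `m` -/
theorem dens_le {ρ : X → ℝ} {C : ℝ} (hC : ∀ x, ρ x ≤ C) : dens m ρ ≤ ENNReal.ofReal C • m := by
  unfold dens
  rw [← withDensity_const]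
  exact withDensity_mono (ae_of_all _ fun x => ENNReal.ofReal_le_ofReal (hC x))

/-- a measure between two multiples of `m` has a density between the two constants -/
theorem exists_dens_of_le_le {μ : Measure X} {c C : ℝ} (hc : 0 ≤ c) (hcC : c ≤ C)
    (h : μ ≤ ENNReal.ofReal C • m) (h' : ENNReal.ofReal c • m ≤ μ) :
    ∃ ρ : X → ℝ, Measurable ρ ∧ (∀ x, c ≤ ρ x) ∧ (∀ x, ρ x ≤ C) ∧ μ = dens m ρ := by
  have hfin : IsFiniteMeasure μ := by
    constructor
    refine lt_of_le_of_lt (h univ) ?_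
    rw [Measure.smul_apply, smul_eq_mul]
    exact ENNReal.mul_lt_top ENNReal.ofReal_lt_top (measure_lt_top _ _)
  have hac : μ ≪ m := (Measure.absolutelyContinuous_of_le h).trans
    (Measure.smul_absolutelyContinuous)
  have hm : Measurable (μ.rnDeriv m) := Measure.measurable_rnDeriv μ m
  have hint : ∀ s, MeasurableSet s → ∫⁻ x in s, μ.rnDeriv m x ∂m = μ s := by
    intro s hs
    rw [← withDensity_apply _ hs, Measure.withDensity_rnDeriv_eq μ m hac]
  have hle : μ.rnDeriv m ≤ᵐ[m] fun _ => ENNReal.ofReal C := by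
    refine ae_le_of_forall_setLIntegral_le_of_sigmaFinite hm fun s hs _ => ?_
    rw [hint s hs, setLIntegral_const]
    exact h s
  have hge : (fun _ => ENNReal.ofReal c) ≤ᵐ[m] μ.rnDeriv m := by
    refine ae_le_of_forall_setLIntegral_le_of_sigmaFinite measurable_const fun s hs _ => ?_
    rw [hint s hs, setLIntegral_const]
    exact h' s
  refine ⟨fun x => max c (min (μ.rnDeriv m x).toReal C), ?_, ?_, ?_, ?_⟩
  · exact measurable_const.max (hm.ennreal_toReal.min measurable_const)
  · intro x; exact le_max_left _ _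
  · intro x; exact max_le hcC (min_le_right _ _)
  · conv_lhs => rw [← Measure.withDensity_rnDeriv_eq μ m hac]
    unfold dens
    apply withDensity_congr_ae
    filter_upwards [hle, hge] with x h1 h2
    have hne : μ.rnDeriv m x ≠ ⊤ := ne_top_of_le_ne_top ENNReal.ofReal_ne_top h1
    have e1 : (μ.rnDeriv m x).toReal ≤ C := by
      rw [← ENNReal.toReal_ofReal (hc.trans hcC)]
      exact ENNReal.toReal_mono ENNReal.ofReal_ne_top h1
    have e2 : c ≤ (μ.rnDeriv m x).toReal := by
      rw [← ENNReal.toReal_ofReal hc]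
      exact ENNReal.toReal_mono hne h2
    rw [min_eq_left e1, max_eq_right e2, ENNReal.ofReal_toReal hne]

/-- a measure below a multiple of `m` has a bounded density -/
theorem exists_dens_of_le {μ : Measure X} {C : ℝ} (hC : 0 ≤ C) (h : μ ≤ ENNReal.ofReal C • m) :
    ∃ ρ : X → ℝ, Measurable ρ ∧ (∀ x, 0 ≤ ρ x) ∧ (∀ x, ρ x ≤ C) ∧ μ = dens m ρ := by
  obtain ⟨ρ, h1, h2, h3, h4⟩ := exists_dens_of_le_le (le_refl (0 : ℝ)) hC h (by
    rw [ENNReal.ofReal_zero, zero_smul]; exact Measure.zero_le _)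
  exact ⟨ρ, h1, h2, h3, h4⟩

/-- domination of a nonnegative integral of a function of the first coordinate -/
theorem integral_fst_le {P : Measure (X × X)} {C : ℝ} (hC : 0 ≤ C)
    (h : P.map Prod.fst ≤ ENNReal.ofReal C • m) {g : X → ℝ} (hg : Integrable g m)
    (h0 : ∀ x, 0 ≤ g x) : Integrable (fun z : X × X => g z.1) P ∧ ∫ z, g z.1 ∂P ≤ C * ∫ x, g x ∂m := by
  have hgi : Integrable g (ENNReal.ofReal C • m) := hg.smul_measure ENNReal.ofReal_ne_top
  have hgm : Integrable g (P.map Prod.fst) := hgi.mono_measure h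
  refine ⟨hgm.comp_measurable measurable_fst, ?_⟩
  have e1 : ∫ z, g z.1 ∂P = ∫ x, g x ∂(P.map Prod.fst) := by
    rw [integral_map measurable_fst.aemeasurable hgm.1]
  rw [e1]
  refine (integral_mono_measure h (ae_of_all _ h0) hgi).trans ?_
  rw [integral_smul_measure, ENNReal.toReal_ofReal hC, smul_eq_mul]

theorem integral_snd_le {P : Measure (X × X)} {C : ℝ} (hC : 0 ≤ C)
    (h : P.map Prod.snd ≤ ENNReal.ofReal C • m) {g : X → ℝ} (hg : Integrable g m)
    (h0 : ∀ x, 0 ≤ g x) : Integrable (fun z : X × X => g z.2) P ∧ ∫ z, g z.2 ∂P ≤ C * ∫ x, g x ∂m := by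
  have hgi : Integrable g (ENNReal.ofReal C • m) := hg.smul_measure ENNReal.ofReal_ne_top
  have hgm : Integrable g (P.map Prod.snd) := hgi.mono_measure h
  refine ⟨hgm.comp_measurable measurable_snd, ?_⟩
  have e1 : ∫ z, g z.2 ∂P = ∫ x, g x ∂(P.map Prod.snd) := by
    rw [integral_map measurable_snd.aemeasurable hgm.1]
  rw [e1]
  refine (integral_mono_measure h (ae_of_all _ h0) hgi).trans ?_
  rw [integral_smul_measure, ENNReal.toReal_ofReal hC, smul_eq_mul]

/-- Passing to the limit in `∫ h_n(x) F(x,y) dP_n` : approximate `h` in `L¹(m)` by a continuous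
function; all marginals are `≤ C m`. -/
theorem plan_tendsto_fst {Pn : ℕ → ProbabilityMeasure (X × X)} {P : ProbabilityMeasure (X × X)}
    (ht : Tendsto Pn atTop (𝓝 P)) {C : ℝ} (hC : 0 ≤ C)
    (hn : ∀ n, (Pn n : Measure (X × X)).map Prod.fst ≤ ENNReal.ofReal C • m)
    (hP : (P : Measure (X × X)).map Prod.fst ≤ ENNReal.ofReal C • m)
    {hs : ℕ → X → ℝ} {h : X → ℝ} (hi : ∀ n, Integrable (hs n) m) (hh : Integrable h m)
    (hconv : Tendsto (fun n => ∫ x, |hs n x - h x| ∂m) atTop (𝓝 0))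
    {F : X × X → ℝ} (hF : Continuous F) :
    Tendsto (fun n => ∫ z, hs n z.1 * F z ∂(Pn n : Measure (X × X))) atTop
      (𝓝 (∫ z, h z.1 * F z ∂(P : Measure (X × X)))) := by
  classical
  -- bound for `F`
  obtain ⟨B, hB⟩ : ∃ B : ℝ, ∀ z, |F z| ≤ B := by
    obtain ⟨B, hB⟩ := (isCompact_univ (X := X × X)).exists_bound_of_continuousOn hF.continuousOn
    exact ⟨B, fun z => hB z (mem_univ _)⟩
  set B' := max B 0 with hB'
  have hB'0 : 0 ≤ B' := le_max_right _ _
  have hFB : ∀ z, |F z| ≤ B' := fun z => (hB z).trans (le_max_left _ _)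
  have hFm : ∀ Q : Measure (X × X), AEStronglyMeasurable F Q := fun Q =>
    hF.stronglyMeasurable.aestronglyMeasurable
  -- key estimate
  have key : ∀ (Q : Measure (X × X)), Q.map Prod.fst ≤ ENNReal.ofReal C • m → ∀ u : X → ℝ,
      Integrable u m → Integrable (fun z : X × X => u z.1 * F z) Q ∧
        |∫ z, u z.1 * F z ∂Q| ≤ B' * C * ∫ x, |u x| ∂m := by
    intro Q hQ u hu
    have hum : Integrable u (Q.map Prod.fst) :=
      (hu.smul_measure ENNReal.ofReal_ne_top).mono_measure hQ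
    have hu1 : Integrable (fun z : X × X => u z.1) Q := hum.comp_measurable measurable_fst
    have hint : Integrable (fun z : X × X => u z.1 * F z) Q := by
      refine hu1.mul_bdd (c := B') (hFm Q) (ae_of_all _ fun z => ?_)
      rw [Real.norm_eq_abs]; exact hFB z
    refine ⟨hint, ?_⟩
    obtain ⟨h1, h2⟩ := integral_fst_le hC hQ hu.abs (fun x => abs_nonneg _)
    calc |∫ z, u z.1 * F z ∂Q| ≤ ∫ z, |u z.1 * F z| ∂Q := abs_integral_le_integral_abs
      _ ≤ ∫ z, |u z.1| * B' ∂Q := by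
          refine integral_mono_of_nonneg (ae_of_all _ fun z => abs_nonneg _)
            (h1.mul_const _) (ae_of_all _ fun z => ?_)
          simp only []
          rw [abs_mul]
          exact mul_le_mul_of_nonneg_left (hFB z) (abs_nonneg _)
      _ = B' * ∫ z, |u z.1| ∂Q := by rw [integral_mul_const, mul_comm]
      _ ≤ B' * (C * ∫ x, |u x| ∂m) := mul_le_mul_of_nonneg_left h2 hB'0
      _ = _ := by ring
  rw [Metric.tendsto_atTop]
  intro ε hε
  set η := ε / (4 * (B' * C + 1)) with hη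
  have hBC : 0 ≤ B' * C := mul_nonneg hB'0 hC
  have hη0 : 0 < η := by positivity
  have hηb : B' * C * η < ε / 4 := by
    rw [hη]
    rw [mul_div_assoc', div_lt_iff₀ (by positivity)]
    nlinarith
  obtain ⟨g, hg, hgi⟩ := hh.exists_boundedContinuous_integral_sub_le hη0
  have hgF : Continuous (fun z : X × X => g z.1 * F z) :=
    (g.continuous.comp continuous_fst).mul hF
  have hw := (ProbabilityMeasure.tendsto_iff_forall_integral_tendsto.mp ht)
    (BoundedContinuousFunction.mkOfCompact ⟨_, hgF⟩)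
  simp only [BoundedContinuousFunction.mkOfCompact_apply, ContinuousMap.coe_mk] at hw
  rw [Metric.tendsto_atTop] at hw hconv
  obtain ⟨N1, hN1⟩ := hw (ε / 4) (by positivity)
  obtain ⟨N2, hN2⟩ := hconv η hη0
  refine ⟨max N1 N2, fun n hn' => ?_⟩
  have a1 := hN1 n ((le_max_left _ _).trans hn')
  have a2 := hN2 n ((le_max_right _ _).trans hn')
  rw [Real.dist_eq] at a1 a2 ⊢
  rw [sub_zero, abs_of_nonneg (integral_nonneg fun x => abs_nonneg _)] at a2
  obtain ⟨b1, b2⟩ := key (Pn n) (hn n) (fun x => hs n x - h x) ((hi n).sub hh)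
  obtain ⟨c1, c2⟩ := key (Pn n) (hn n) (fun x => h x - g x) (hh.sub hgi)
  obtain ⟨d1, d2⟩ := key P hP (fun x => h x - g x) (hh.sub hgi)
  obtain ⟨e1, -⟩ := key (Pn n) (hn n) g hgi
  obtain ⟨f1, -⟩ := key P hP g hgi
  have hg' : ∫ x, |h x - g x| ∂m ≤ η := by
    simpa [Real.norm_eq_abs] using hg
  have c3 : |∫ z, (h z.1 - g z.1) * F z ∂(Pn n : Measure (X × X))| ≤ B' * C * η :=
    c2.trans (mul_le_mul_of_nonneg_left hg' hBC)
  have d3 : |∫ z, (h z.1 - g z.1) * F z ∂(P : Measure (X × X))| ≤ B' * C * η :=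
    d2.trans (mul_le_mul_of_nonneg_left hg' hBC)
  have b3 : |∫ z, (hs n z.1 - h z.1) * F z ∂(Pn n : Measure (X × X))| ≤ B' * C * η :=
    b2.trans (mul_le_mul_of_nonneg_left a2.le hBC)
  have s1 : ∫ z, hs n z.1 * F z ∂(Pn n : Measure (X × X)) =
      ∫ z, (hs n z.1 - h z.1) * F z ∂(Pn n : Measure (X × X)) +
      ∫ z, (h z.1 - g z.1) * F z ∂(Pn n : Measure (X × X)) +
      ∫ z, g z.1 * F z ∂(Pn n : Measure (X × X)) := by
    have bc : Integrable (fun z : X × X => (hs n z.1 - h z.1) * F z + (h z.1 - g z.1) * F z)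
      (Pn n : Measure (X × X)) := b1.add c1
    rw [← integral_add b1 c1, ← integral_add bc e1]
    refine integral_congr_ae (ae_of_all _ fun z => ?_)
    simp only []
    ring
  have s2 : ∫ z, h z.1 * F z ∂(P : Measure (X × X)) =
      ∫ z, (h z.1 - g z.1) * F z ∂(P : Measure (X × X)) +
      ∫ z, g z.1 * F z ∂(P : Measure (X × X)) := by
    rw [← integral_add d1 f1]
    refine integral_congr_ae (ae_of_all _ fun z => ?_)
    simp only []
    ring
  rw [s1, s2]
  rw [abs_lt] at a1 ⊢
  rw [abs_le] at b3 c3 d3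
  constructor <;> linarith [b3.1, b3.2, c3.1, c3.2, d3.1, d3.2, a1.1, a1.2]

theorem plan_tendsto_snd {Pn : ℕ → ProbabilityMeasure (X × X)} {P : ProbabilityMeasure (X × X)}
    (ht : Tendsto Pn atTop (𝓝 P)) {C : ℝ} (hC : 0 ≤ C)
    (hn : ∀ n, (Pn n : Measure (X × X)).map Prod.snd ≤ ENNReal.ofReal C • m)
    (hP : (P : Measure (X × X)).map Prod.snd ≤ ENNReal.ofReal C • m)
    {hs : ℕ → X → ℝ} {h : X → ℝ} (hi : ∀ n, Integrable (hs n) m) (hh : Integrable h m)
    (hconv : Tendsto (fun n => ∫ x, |hs n x - h x| ∂m) atTop (𝓝 0))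
    {F : X × X → ℝ} (hF : Continuous F) :
    Tendsto (fun n => ∫ z, hs n z.2 * F z ∂(Pn n : Measure (X × X))) atTop
      (𝓝 (∫ z, h z.2 * F z ∂(P : Measure (X × X)))) := by
  classical
  -- bound for `F`
  obtain ⟨B, hB⟩ : ∃ B : ℝ, ∀ z, |F z| ≤ B := by
    obtain ⟨B, hB⟩ := (isCompact_univ (X := X × X)).exists_bound_of_continuousOn hF.continuousOn
    exact ⟨B, fun z => hB z (mem_univ _)⟩
  set B' := max B 0 with hB'
  have hB'0 : 0 ≤ B' := le_max_right _ _
  have hFB : ∀ z, |F z| ≤ B' := fun z => (hB z).trans (le_max_left _ _)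
  have hFm : ∀ Q : Measure (X × X), AEStronglyMeasurable F Q := fun Q =>
    hF.stronglyMeasurable.aestronglyMeasurable
  -- key estimate
  have key : ∀ (Q : Measure (X × X)), Q.map Prod.snd ≤ ENNReal.ofReal C • m → ∀ u : X → ℝ,
      Integrable u m → Integrable (fun z : X × X => u z.2 * F z) Q ∧
        |∫ z, u z.2 * F z ∂Q| ≤ B' * C * ∫ x, |u x| ∂m := by
    intro Q hQ u hu
    have hum : Integrable u (Q.map Prod.snd) :=
      (hu.smul_measure ENNReal.ofReal_ne_top).mono_measure hQ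
    have hu1 : Integrable (fun z : X × X => u z.2) Q := hum.comp_measurable measurable_snd
    have hint : Integrable (fun z : X × X => u z.2 * F z) Q := by
      refine hu1.mul_bdd (c := B') (hFm Q) (ae_of_all _ fun z => ?_)
      rw [Real.norm_eq_abs]; exact hFB z
    refine ⟨hint, ?_⟩
    obtain ⟨h1, h2⟩ := integral_snd_le hC hQ hu.abs (fun x => abs_nonneg _)
    calc |∫ z, u z.2 * F z ∂Q| ≤ ∫ z, |u z.2 * F z| ∂Q := abs_integral_le_integral_abs
      _ ≤ ∫ z, |u z.2| * B' ∂Q := by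
          refine integral_mono_of_nonneg (ae_of_all _ fun z => abs_nonneg _)
            (h1.mul_const _) (ae_of_all _ fun z => ?_)
          simp only []
          rw [abs_mul]
          exact mul_le_mul_of_nonneg_left (hFB z) (abs_nonneg _)
      _ = B' * ∫ z, |u z.2| ∂Q := by rw [integral_mul_const, mul_comm]
      _ ≤ B' * (C * ∫ x, |u x| ∂m) := mul_le_mul_of_nonneg_left h2 hB'0
      _ = _ := by ring
  rw [Metric.tendsto_atTop]
  intro ε hε
  set η := ε / (4 * (B' * C + 1)) with hη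
  have hBC : 0 ≤ B' * C := mul_nonneg hB'0 hC
  have hη0 : 0 < η := by positivity
  have hηb : B' * C * η < ε / 4 := by
    rw [hη]
    rw [mul_div_assoc', div_lt_iff₀ (by positivity)]
    nlinarith
  obtain ⟨g, hg, hgi⟩ := hh.exists_boundedContinuous_integral_sub_le hη0
  have hgF : Continuous (fun z : X × X => g z.2 * F z) :=
    (g.continuous.comp continuous_snd).mul hF
  have hw := (ProbabilityMeasure.tendsto_iff_forall_integral_tendsto.mp ht)
    (BoundedContinuousFunction.mkOfCompact ⟨_, hgF⟩)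
  simp only [BoundedContinuousFunction.mkOfCompact_apply, ContinuousMap.coe_mk] at hw
  rw [Metric.tendsto_atTop] at hw hconv
  obtain ⟨N1, hN1⟩ := hw (ε / 4) (by positivity)
  obtain ⟨N2, hN2⟩ := hconv η hη0
  refine ⟨max N1 N2, fun n hn' => ?_⟩
  have a1 := hN1 n ((le_max_left _ _).trans hn')
  have a2 := hN2 n ((le_max_right _ _).trans hn')
  rw [Real.dist_eq] at a1 a2 ⊢
  rw [sub_zero, abs_of_nonneg (integral_nonneg fun x => abs_nonneg _)] at a2
  obtain ⟨b1, b2⟩ := key (Pn n) (hn n) (fun x => hs n x - h x) ((hi n).sub hh)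
  obtain ⟨c1, c2⟩ := key (Pn n) (hn n) (fun x => h x - g x) (hh.sub hgi)
  obtain ⟨d1, d2⟩ := key P hP (fun x => h x - g x) (hh.sub hgi)
  obtain ⟨e1, -⟩ := key (Pn n) (hn n) g hgi
  obtain ⟨f1, -⟩ := key P hP g hgi
  have hg' : ∫ x, |h x - g x| ∂m ≤ η := by
    simpa [Real.norm_eq_abs] using hg
  have c3 : |∫ z, (h z.2 - g z.2) * F z ∂(Pn n : Measure (X × X))| ≤ B' * C * η :=
    c2.trans (mul_le_mul_of_nonneg_left hg' hBC)
  have d3 : |∫ z, (h z.2 - g z.2) * F z ∂(P : Measure (X × X))| ≤ B' * C * η :=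
    d2.trans (mul_le_mul_of_nonneg_left hg' hBC)
  have b3 : |∫ z, (hs n z.2 - h z.2) * F z ∂(Pn n : Measure (X × X))| ≤ B' * C * η :=
    b2.trans (mul_le_mul_of_nonneg_left a2.le hBC)
  have s1 : ∫ z, hs n z.2 * F z ∂(Pn n : Measure (X × X)) =
      ∫ z, (hs n z.2 - h z.2) * F z ∂(Pn n : Measure (X × X)) +
      ∫ z, (h z.2 - g z.2) * F z ∂(Pn n : Measure (X × X)) +
      ∫ z, g z.2 * F z ∂(Pn n : Measure (X × X)) := by
    have bc : Integrable (fun z : X × X => (hs n z.2 - h z.2) * F z + (h z.2 - g z.2) * F z)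
      (Pn n : Measure (X × X)) := b1.add c1
    rw [← integral_add b1 c1, ← integral_add bc e1]
    refine integral_congr_ae (ae_of_all _ fun z => ?_)
    simp only []
    ring
  have s2 : ∫ z, h z.2 * F z ∂(P : Measure (X × X)) =
      ∫ z, (h z.2 - g z.2) * F z ∂(P : Measure (X × X)) +
      ∫ z, g z.2 * F z ∂(P : Measure (X × X)) := by
    rw [← integral_add d1 f1]
    refine integral_congr_ae (ae_of_all _ fun z => ?_)
    simp only []
    ring
  rw [s1, s2]
  rw [abs_lt] at a1 ⊢
  rw [abs_le] at b3 c3 d3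
  constructor <;> linarith [b3.1, b3.2, c3.1, c3.2, d3.1, d3.2, a1.1, a1.2]

/-- differences of real continuous functions: for each `η > 0` there is `C` with
`|g x - g y| ≤ η + C d(x,y)^n`. -/
theorem exists_modulus_pow {g : X → ℝ} (hg : Continuous g) {η : ℝ} (hη : 0 < η) (n : ℕ) :
    ∃ C : ℝ, 0 ≤ C ∧ ∀ x y, |g x - g y| ≤ η + C * dist x y ^ n := by
  obtain ⟨B, hB⟩ : ∃ B : ℝ, ∀ z, |g z| ≤ B := by
    obtain ⟨B, hB⟩ := (isCompact_univ (X := X)).exists_bound_of_continuousOn hg.continuousOn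
    exact ⟨B, fun z => hB z (mem_univ _)⟩
  have hu : UniformContinuous g := CompactSpace.uniformContinuous_of_continuous hg
  obtain ⟨δ, hδ, hδ'⟩ := Metric.uniformContinuous_iff.mp hu η hη
  have hpos : 0 < δ ^ n := by positivity
  refine ⟨2 * max B 0 / δ ^ n, by positivity, fun x y => ?_⟩
  by_cases hxy : dist x y < δ
  · have h1 := hδ' hxy
    rw [Real.dist_eq] at h1
    have h2 : 0 ≤ 2 * max B 0 / δ ^ n * dist x y ^ n := by positivity
    linarith
  · push Not at hxy
    have h1 : |g x - g y| ≤ 2 * max B 0 := by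
      have h2 := abs_sub (g x) (g y)
      have h3 := (hB x).trans (le_max_left B 0)
      have h4 := (hB y).trans (le_max_left B 0)
      linarith
    have h5 : δ ^ n ≤ dist x y ^ n := pow_le_pow_left₀ hδ.le hxy n
    have h6 : 2 * max B 0 ≤ 2 * max B 0 / δ ^ n * dist x y ^ n := by
      rw [div_mul_eq_mul_div, le_div_iff₀ hpos]
      exact mul_le_mul_of_nonneg_left h5 (by positivity)
    linarith

/-- uniform approximation of continuous functions by Lipschitz ones -/
theorem exists_lipschitz_unif {g : X → ℝ} (hg : Continuous g) {η : ℝ} (hη : 0 < η) :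
    ∃ (u : X → ℝ) (K : ℝ≥0), LipschitzWith K u ∧ ∀ x, |g x - u x| ≤ η := by
  obtain ⟨C, hC, h⟩ := exists_modulus_pow hg hη 1
  simp only [pow_one] at h
  rcases isEmpty_or_nonempty X with hX | hX
  · exact ⟨g, 0, fun x => (hX.false x).elim, fun x => (hX.false x).elim⟩
  have hlow : ∀ x y, g x - η ≤ g y + C * dist x y := by
    intro x y
    have h1 := (abs_le.mp (h x y)).2
    linarith
  have hbdd : ∀ x, BddBelow (range fun y => g y + C * dist x y) := by
    intro x
    refine ⟨g x - η, ?_⟩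
    rintro _ ⟨y, rfl⟩
    exact hlow x y
  refine ⟨fun x => ⨅ y, (g y + C * dist x y), C.toNNReal, ?_, ?_⟩
  · refine LipschitzWith.of_le_add_mul _ fun x y => ?_
    rw [Real.coe_toNNReal _ hC]
    rw [← sub_le_iff_le_add]
    refine le_ciInf fun z => ?_
    have h1 := ciInf_le (hbdd x) z
    have h2 := dist_triangle x y z
    have h3 : C * dist x z ≤ C * (dist x y + dist y z) := mul_le_mul_of_nonneg_left h2 hC
    linarith
  · intro x
    have h1 : (⨅ y, (g y + C * dist x y)) ≤ g x := by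
      have h2 := ciInf_le (hbdd x) x
      simp only [dist_self, mul_zero, add_zero] at h2
      exact h2
    have h3 : g x - η ≤ ⨅ y, (g y + C * dist x y) := le_ciInf fun y => hlow x y
    rw [abs_le]
    constructor <;> linarith

/-- Lipschitz functions are dense in `L²(m)` -/
theorem exists_lipschitz_approx {k : X → ℝ} (hk : MemLp k 2 m) {η : ℝ} (hη : 0 < η) :
    ∃ (g : X → ℝ) (K : ℝ≥0), LipschitzWith K g ∧ ∫ x, (k x - g x) ^ 2 ∂m ≤ η := by
  have hk' : MemLp k (ENNReal.ofReal 2) m := by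
    rw [ENNReal.ofReal_ofNat]; exact hk
  obtain ⟨g, hg, hgm⟩ := hk'.exists_boundedContinuous_integral_rpow_sub_le (by norm_num)
    (show (0 : ℝ) < η / 4 by positivity)
  set M := m.real univ with hM
  have hM0 : 0 ≤ M := measureReal_nonneg
  have hδ : 0 < Real.sqrt (η / (4 * (M + 1))) := Real.sqrt_pos.mpr (by positivity)
  obtain ⟨u, K, hu, hgu⟩ := exists_lipschitz_unif g.continuous hδ
  refine ⟨u, K, hu, ?_⟩
  have hg2 : ∫ x, (k x - g x) ^ 2 ∂m ≤ η / 4 := by
    refine le_trans (le_of_eq ?_) hg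
    refine integral_congr_ae (ae_of_all _ fun x => ?_)
    simp only [Real.rpow_two, Real.norm_eq_abs, sq_abs]
  have hgm' : MemLp g 2 m := by
    rw [ENNReal.ofReal_ofNat] at hgm; exact hgm
  have hi : Integrable (fun x => (k x - g x) ^ 2) m := (hk.sub hgm').integrable_sq
  have hi2 : Integrable (fun x => 2 * (k x - g x) ^ 2 + 2 * (η / (4 * (M + 1)))) m :=
    (hi.const_mul 2).add (integrable_const _)
  calc ∫ x, (k x - u x) ^ 2 ∂m ≤ ∫ x, (2 * (k x - g x) ^ 2 + 2 * (η / (4 * (M + 1)))) ∂m := by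
        refine integral_mono_of_nonneg (ae_of_all _ fun x => sq_nonneg _) hi2
          (ae_of_all _ fun x => ?_)
        simp only []
        have h1 : (g x - u x) ^ 2 ≤ η / (4 * (M + 1)) := by
          rw [← sq_abs, ← Real.sq_sqrt (show 0 ≤ η / (4 * (M + 1)) by positivity)]
          exact pow_le_pow_left₀ (abs_nonneg _) (hgu x) 2
        nlinarith [sq_nonneg ((k x - g x) - (g x - u x))]
    _ = 2 * ∫ x, (k x - g x) ^ 2 ∂m + M * (2 * (η / (4 * (M + 1)))) := by
        rw [integral_add (hi.const_mul 2) (integrable_const _), integral_const_mul, integral_const,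
          smul_eq_mul]
    _ ≤ 2 * (η / 4) + η / 2 := by
        have h2 : M * (2 * (η / (4 * (M + 1)))) ≤ η / 2 := by
          rw [show M * (2 * (η / (4 * (M + 1)))) = (M * η) / (2 * (M + 1)) by field_simp; ring]
          rw [div_le_div_iff₀ (by positivity) (by positivity)]
          nlinarith
        linarith
    _ = η := by ring

/-- near-diagonal plans: `∫ (k x - k y)^2 dP` is small when `cost P` is small, uniformly over plans
with marginals `≤ C m` (approximate `k` in `L²(m)` by a Lipschitz function; for the latter the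
integral is at most `L^2 cost P`). -/
theorem near_diag {k : X → ℝ} (hk : MemLp k 2 m) {C η : ℝ} (hC : 0 ≤ C) (hη : 0 < η) :
    ∃ C' : ℝ, 0 ≤ C' ∧ ∀ P : Measure (X × X),
      P.map Prod.fst ≤ ENNReal.ofReal C • m → P.map Prod.snd ≤ ENNReal.ofReal C • m →
      ∫ z, (k z.1 - k z.2) ^ 2 ∂P ≤ η + C' * cost P := by
  have hC1 : 0 < C + 1 := by linarith
  obtain ⟨g, K, hg, hgi⟩ := exists_lipschitz_approx hk (show 0 < η / (6 * (C + 1)) by positivity)
  refine ⟨3 * (K : ℝ) ^ 2, by positivity, fun P h1 h2 => ?_⟩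
  have hfin : IsFiniteMeasure P := by
    constructor
    have e1 : P.map Prod.fst univ = P univ := by
      rw [Measure.map_apply measurable_fst MeasurableSet.univ, preimage_univ]
    rw [← e1]
    refine lt_of_le_of_lt (h1 univ) ?_
    rw [Measure.smul_apply, smul_eq_mul]
    exact ENNReal.mul_lt_top ENNReal.ofReal_lt_top (measure_lt_top _ _)
  have hgm : MemLp g 2 m := by
    obtain ⟨B, hB⟩ := (isCompact_univ (X := X)).exists_bound_of_continuousOn
      hg.continuous.continuousOn
    exact MemLp.of_bound hg.continuous.stronglyMeasurable.aestronglyMeasurable B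
      (ae_of_all _ fun x => hB x (mem_univ _))
  have hi : Integrable (fun x => (k x - g x) ^ 2) m := (hk.sub hgm).integrable_sq
  obtain ⟨i1, j1⟩ := integral_fst_le hC h1 hi (fun x => sq_nonneg _)
  obtain ⟨i2, j2⟩ := integral_snd_le hC h2 hi (fun x => sq_nonneg _)
  have hdc : Continuous (fun z : X × X => dist z.1 z.2 ^ 2) := by fun_prop
  have hd : Integrable (fun z : X × X => dist z.1 z.2 ^ 2) P := by
    obtain ⟨B, hB⟩ := (isCompact_univ (X := X × X)).exists_bound_of_continuousOn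
      hdc.continuousOn
    exact Integrable.of_bound hdc.stronglyMeasurable.aestronglyMeasurable B
      (ae_of_all _ fun x => hB x (mem_univ _))
  have hs1 : Integrable (fun z : X × X => 3 * (k z.1 - g z.1) ^ 2 + 3 * (k z.2 - g z.2) ^ 2) P :=
    (i1.const_mul 3).add (i2.const_mul 3)
  have hs2 : Integrable (fun z : X × X => 3 * (K : ℝ) ^ 2 * dist z.1 z.2 ^ 2) P :=
    hd.const_mul _
  calc ∫ z, (k z.1 - k z.2) ^ 2 ∂P
      ≤ ∫ z, ((3 * (k z.1 - g z.1) ^ 2 + 3 * (k z.2 - g z.2) ^ 2) +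
          3 * (K : ℝ) ^ 2 * dist z.1 z.2 ^ 2) ∂P := by
        refine integral_mono_of_nonneg (ae_of_all _ fun x => sq_nonneg _) (hs1.add hs2)
          (ae_of_all _ fun z => ?_)
        simp only []
        have h3 : (g z.1 - g z.2) ^ 2 ≤ (K : ℝ) ^ 2 * dist z.1 z.2 ^ 2 := by
          have h4 := hg.dist_le_mul z.1 z.2
          rw [Real.dist_eq] at h4
          rw [← sq_abs, ← mul_pow]
          exact pow_le_pow_left₀ (abs_nonneg _) h4 2
        nlinarith [sq_nonneg ((k z.1 - g z.1) - (g z.1 - g z.2)),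
          sq_nonneg ((k z.1 - g z.1) + (k z.2 - g z.2)),
          sq_nonneg ((g z.1 - g z.2) + (k z.2 - g z.2))]
    _ = (3 * ∫ z, (k z.1 - g z.1) ^ 2 ∂P + 3 * ∫ z, (k z.2 - g z.2) ^ 2 ∂P) +
          3 * (K : ℝ) ^ 2 * cost P := by
        rw [integral_add hs1 hs2, integral_add (i1.const_mul 3) (i2.const_mul 3),
          integral_const_mul, integral_const_mul, integral_const_mul, cost]
    _ ≤ η + 3 * (K : ℝ) ^ 2 * cost P := by
        have h5 : C * ∫ x, (k x - g x) ^ 2 ∂m ≤ η / 6 := by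
          have h6 : C * ∫ x, (k x - g x) ^ 2 ∂m ≤ C * (η / (6 * (C + 1))) :=
            mul_le_mul_of_nonneg_left hgi hC
          refine h6.trans ?_
          rw [mul_div_assoc', div_le_div_iff₀ (by positivity) (by norm_num)]
          nlinarith
        linarith

theorem exists_lipschitz_approx_nonneg {k : X → ℝ} (hk : MemLp k 2 m) (h0 : ∀ x, 0 ≤ k x)
    {η : ℝ} (hη : 0 < η) :
    ∃ (g : X → ℝ) (K : ℝ≥0), LipschitzWith K g ∧ ∫ x, (k x - g x) ^ 2 ∂m ≤ η ∧
      ∀ x, 0 ≤ g x := by
  obtain ⟨g, K, hg, hgi⟩ := exists_lipschitz_approx hk hη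
  refine ⟨fun x => max (g x) 0, K, hg.max_const 0, ?_, fun x => le_max_right _ _⟩
  have hgm : MemLp g 2 m := by
    obtain ⟨B, hB⟩ := (isCompact_univ (X := X)).exists_bound_of_continuousOn
      hg.continuous.continuousOn
    exact MemLp.of_bound hg.continuous.stronglyMeasurable.aestronglyMeasurable B
      (ae_of_all _ fun x => hB x (mem_univ _))
  have hi : Integrable (fun x => (k x - g x) ^ 2) m := (hk.sub hgm).integrable_sq
  refine le_trans (integral_mono_of_nonneg (ae_of_all _ fun x => sq_nonneg _) hi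
    (ae_of_all _ fun x => ?_)) hgi
  simp only []
  rcases le_total 0 (g x) with h | h
  · rw [max_eq_left h]
  · rw [max_eq_right h]
    nlinarith [h0 x]

/-- bounded functions are approximated within the same bounds -/
theorem exists_lipschitz_approx_bdd {k : X → ℝ} (hk : Measurable k) {a b : ℝ}
    (hab : ∀ x, a ≤ k x ∧ k x ≤ b) {η : ℝ} (hη : 0 < η) :
    ∃ (g : X → ℝ) (K : ℝ≥0), LipschitzWith K g ∧ ∫ x, (k x - g x) ^ 2 ∂m ≤ η ∧
      ∀ x, a ≤ g x ∧ g x ≤ b := by
  have hkm : MemLp k 2 m := by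
    refine MemLp.of_bound hk.aestronglyMeasurable (max |a| |b|) (ae_of_all _ fun x => ?_)
    rw [Real.norm_eq_abs]
    exact abs_le_max_abs_abs (hab x).1 (hab x).2
  obtain ⟨g, K, hg, hgi⟩ := exists_lipschitz_approx hkm hη
  rcases isEmpty_or_nonempty X with hX | hX
  · exact ⟨g, K, hg, hgi, fun x => (hX.false x).elim⟩
  have hab' : a ≤ b := by
    obtain ⟨x⟩ := hX
    exact (hab x).1.trans (hab x).2
  refine ⟨fun x => min (max (g x) a) b, K, (hg.max_const a).min_const b, ?_, fun x =>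
    ⟨le_min (le_max_right _ _) hab', min_le_right _ _⟩⟩
  have hgm : MemLp g 2 m := by
    obtain ⟨B, hB⟩ := (isCompact_univ (X := X)).exists_bound_of_continuousOn
      hg.continuous.continuousOn
    exact MemLp.of_bound hg.continuous.stronglyMeasurable.aestronglyMeasurable B
      (ae_of_all _ fun x => hB x (mem_univ _))
  have hi : Integrable (fun x => (k x - g x) ^ 2) m := (hkm.sub hgm).integrable_sq
  refine le_trans (integral_mono_of_nonneg (ae_of_all _ fun x => sq_nonneg _) hi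
    (ae_of_all _ fun x => ?_)) hgi
  simp only []
  obtain ⟨h1, h2⟩ := hab x
  rcases le_total a (g x) with h | h
  · rw [max_eq_left h]
    rcases le_total (g x) b with h' | h'
    · rw [min_eq_left h']
    · rw [min_eq_right h']
      nlinarith
  · rw [max_eq_right h, min_eq_left hab']
    nlinarith

/-- differences of real continuous functions along a plan: for each `η > 0` there is `C` with
`|g x - g y| ≤ η + C d(x,y)^2`. -/
theorem exists_modulus {g : X → ℝ} (hg : Continuous g) {η : ℝ} (hη : 0 < η) :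
    ∃ C : ℝ, 0 ≤ C ∧ ∀ x y, |g x - g y| ≤ η + C * dist x y ^ 2 := by
  obtain ⟨C, hC, h⟩ := exists_modulus_pow hg hη 2
  exact ⟨C, hC, h⟩

end H13CD
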