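import Pool.Agent.Helper13.CD.OT
import Pool.Agent.Helper13.CD.Glue
import Pool.Agent.Helper13.CD.Util
import Pool.Agent.Helper13.CD.TV
import Pool.Agent.Helper13.CD.Trig

/-!
# Module D: metric Brenier theorem

`metric_brenier`: for `0 < c ≤ ρ0 ≤ C` there is `α` with `d(x,y) = α x` a.e. for every optimal plan.

Proof (mass one).  Take potentials `φ ψ` (Lipschitz) of some optimal plan (A2); every optimal plan
of the two measures has the same potentials (`Pot.of_le`).  Let `Sp r φ` be the ascending slope at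
scale `r`.
* (upper) on the contact set `φ z - φ x ≤ d(z,y)²/2 - d(x,y)²/2 ≤ d(z,x)(d(x,y)+d(z,x)/2)`, so
  `Sp r φ x ≤ d(x,y) + r/2`.
* (lower) let `t ∈ (0,1)`, `ρt` from `CDr`, `σ` from `glue_geod` (`(x0,x1)`-marginal optimal, hence in
  the contact set), `a = d(x0,x1)`, `d(x0,xt)=ta`, `d(xt,x1)=(1-t)a`.  `φ x0 = a²/2-ψ x1`,
  `φ xt ≤ (1-t)²a²/2 - ψ x1`, so `φ x0 - φ xt ≥ a² t (1-t/2)`, and if `t D < r` (`D` the diameter)
  `Sp r φ xt ≥ (1-t/2) a`.  So `∫ (Sp r φ)² ρt dm ≥ (1-t/2)² W`, `W = cost`.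
* `Ent ρt ≥ (1-t) Ent ρ0` (`CDr` and `le_tau`), `ρt m → ρ0 m` weakly (cost `≤ t² W`,
  `exists_modulus`), so `∫ |ρt-ρ0| → 0` by `tv_lemma` (along `t = 1/(n+2)`), hence
  `∫ (Sp r φ)² ρ0 dm ≥ W` for all `r > 0`.
* Let `r = 1/(n+1) → 0`: `Sp r φ` decreases to `α := ⨅ n, Sp (1/(n+1)) φ`, bounded by the Lipschitz
  constant, so `∫ α² ρ0 dm ≥ W = ∫ d² dP` for every optimal plan `P`, while `α x ≤ d(x,y)` `P`-a.e.
  by (upper).  Therefore `α x = d(x,y)` `P`-a.e.
General mass `M`: divide everything by `M` (`M > 0` since `ρ0 ≥ c`, `m ≠ 0`).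
-/

open MeasureTheory Set Filter Topology
open scoped ENNReal NNReal

namespace H13CD

variable {X : Type*} [MetricSpace X] [CompactSpace X] [MeasurableSpace X] [BorelSpace X]
  {m : Measure X} [IsProbabilityMeasure m]

/-- weak convergence helper: small cost means close integrals of continuous functions -/
theorem tendsto_of_cost {ρ0 : X → ℝ} (h0m : Measurable ρ0) (h0p : ∀ x, 0 ≤ ρ0 x)
    (h0i : Integrable ρ0 m) {ρn : ℕ → X → ℝ} (hm : ∀ n, Measurable (ρn n))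
    (hpos : ∀ n x, 0 ≤ ρn n x) (hi : ∀ n, Integrable (ρn n) m) {Pn : ℕ → Measure (X × X)}
    (hc : ∀ n, Cpl (Pn n) (dens m ρ0) (dens m (ρn n)))
    (ht : Tendsto (fun n => cost (Pn n)) atTop (𝓝 0)) {g : X → ℝ} (hg : Continuous g) :
    Tendsto (fun n => ∫ x, g x * ρn n x ∂m) atTop (𝓝 (∫ x, g x * ρ0 x ∂m)) := by
  have hfin0 : IsFiniteMeasure (dens m ρ0) := isFiniteMeasure_dens h0i
  have hfin : ∀ n, IsFiniteMeasure (Pn n) := fun n => (hc n).isFiniteMeasure
  obtain ⟨B, hB⟩ : ∃ B : ℝ, ∀ z, |g z| ≤ B := by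
    obtain ⟨B, hB⟩ := (isCompact_univ (X := X)).exists_bound_of_continuousOn hg.continuousOn
    exact ⟨B, fun z => hB z (mem_univ _)⟩
  set M : ℝ := ∫ x, ρ0 x ∂m with hM
  have hM0 : 0 ≤ M := integral_nonneg h0p
  have hmass : ∀ n, (Pn n).real univ = M := by
    intro n
    have e1 : (Pn n).map Prod.fst univ = Pn n univ := by
      rw [Measure.map_apply measurable_fst MeasurableSet.univ, preimage_univ]
    rw [measureReal_def, ← e1, (hc n).1, dens_univ h0i h0p, ENNReal.toReal_ofReal hM0]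
  have hdist : ∀ n, Integrable (fun z : X × X => dist z.1 z.2 ^ 2) (Pn n) := by
    intro n
    have hcont : Continuous fun z : X × X => dist z.1 z.2 ^ 2 := by fun_prop
    obtain ⟨D, hD⟩ := (isCompact_univ (X := X × X)).exists_bound_of_continuousOn hcont.continuousOn
    exact Integrable.of_bound hcont.measurable.aestronglyMeasurable D
      (ae_of_all _ fun x => hD x (mem_univ _))
  have hgi : ∀ n, Integrable (fun z : X × X => g z.1) (Pn n) := fun n =>
    Integrable.of_bound (hg.comp continuous_fst).measurable.aestronglyMeasurable B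
      (ae_of_all _ fun x => hB x.1)
  have hgi2 : ∀ n, Integrable (fun z : X × X => g z.2) (Pn n) := fun n =>
    Integrable.of_bound (hg.comp continuous_snd).measurable.aestronglyMeasurable B
      (ae_of_all _ fun x => hB x.2)
  rw [Metric.tendsto_atTop]
  intro ε hε
  obtain ⟨C, hC, hmod⟩ := exists_modulus hg (show 0 < ε / (2 * (M + 1)) by positivity)
  have h1 : ∀ᶠ n in atTop, C * cost (Pn n) < ε / 2 := by
    have h2 : Tendsto (fun n => C * cost (Pn n)) atTop (𝓝 (C * 0)) := ht.const_mul C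
    rw [mul_zero] at h2
    exact h2.eventually_lt_const (by positivity)
  obtain ⟨n0, hn0⟩ := eventually_atTop.mp h1
  refine ⟨n0, fun n hn => ?_⟩
  have e1 : ∫ x, g x * ρn n x ∂m = ∫ z, g z.2 ∂(Pn n) := by
    rw [(hc n).integral_snd hg.measurable.aestronglyMeasurable, integral_dens (hm n) (hpos n)]
    exact integral_congr_ae (ae_of_all _ fun x => mul_comm _ _)
  have e2 : ∫ x, g x * ρ0 x ∂m = ∫ z, g z.1 ∂(Pn n) := by
    rw [(hc n).integral_fst hg.measurable.aestronglyMeasurable, integral_dens h0m h0p]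
    exact integral_congr_ae (ae_of_all _ fun x => mul_comm _ _)
  rw [Real.dist_eq, e1, e2, ← integral_sub (hgi2 n) (hgi n)]
  have e3 : |∫ z, (g z.2 - g z.1) ∂(Pn n)| ≤ ∫ z, (ε / (2 * (M + 1)) + C * dist z.1 z.2 ^ 2) ∂(Pn n) := by
    refine (abs_integral_le_integral_abs).trans ?_
    refine integral_mono_ae ((hgi2 n).sub (hgi n)).abs ((integrable_const _).add ((hdist n).const_mul C))
      (ae_of_all _ fun z => ?_)
    have := hmod z.1 z.2
    rw [abs_sub_comm] at this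
    exact this
  rw [integral_add (integrable_const _) ((hdist n).const_mul C), integral_const,
    integral_const_mul, hmass n, smul_eq_mul] at e3
  have e4 : M * (ε / (2 * (M + 1))) ≤ ε / 2 := by
    rw [mul_div_assoc', div_le_div_iff₀ (by positivity) (by positivity)]
    nlinarith
  have e5 := hn0 n hn
  unfold cost at e5
  linarith

omit [CompactSpace X] [MeasurableSpace X] [BorelSpace X] in
/-- the slope of a potential at the first point of an optimal pair is at most the distance -/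
theorem Sp_le_dist {φ ψ : X → ℝ} (hle : ∀ x y, φ x + ψ y ≤ dist x y ^ 2 / 2) {x y : X}
    (heq : φ x + ψ y = dist x y ^ 2 / 2) {r : ℝ} (hr : 0 < r) : Sp r φ x ≤ dist x y + r / 2 := by
  refine Sp_le_of (by positivity) fun z _ hz => ?_
  have h1 := hle z y
  have h2 : dist z y ≤ dist z x + dist x y := dist_triangle _ _ _
  have h3 : 0 ≤ dist z y := dist_nonneg
  have h4 : 0 ≤ dist z x := dist_nonneg
  have h5 : 0 ≤ dist x y := dist_nonneg
  nlinarith [mul_nonneg h4 (sub_nonneg.mpr hz.le)]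

omit [MeasurableSpace X] [BorelSpace X] in
theorem exists_diam : ∃ D : ℝ, 0 < D ∧ ∀ x y : X, dist x y ≤ D := by
  have hcont : Continuous fun z : X × X => dist z.1 z.2 := continuous_dist
  obtain ⟨D, hD⟩ := (isCompact_univ (X := X × X)).exists_bound_of_continuousOn hcont.continuousOn
  refine ⟨max D 1, by positivity, fun x y => ?_⟩
  have := hD (x, y) (mem_univ _)
  rw [Real.norm_eq_abs, abs_of_nonneg dist_nonneg] at this
  exact this.trans (le_max_left _ _)

omit [CompactSpace X] [BorelSpace X] [MeasurableSpace X] in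
/-- the slope at an intermediate point -/
theorem le_Sp_mid {φ ψ : X → ℝ} {K : ℝ≥0} (hK : LipschitzWith K φ)
    (hle : ∀ x y, φ x + ψ y ≤ dist x y ^ 2 / 2) {x w y : X} (heq : φ x + ψ y = dist x y ^ 2 / 2)
    {t : ℝ} (ht : t ∈ Ioo (0 : ℝ) 1) (h0 : dist x w = t * dist x y)
    (h1 : dist w y = (1 - t) * dist x y) {r D : ℝ} (hD : dist x y ≤ D) (hr : t * D < r) :
    (1 - t / 2) * dist x y ≤ Sp r φ w := by
  obtain ⟨ht0, ht1⟩ := ht
  have h5 : 0 ≤ dist x y := dist_nonneg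
  rcases h5.eq_or_lt with h6 | h6
  · rw [← h6, mul_zero]
    exact Sp_nonneg _ _ _
  have h2 := hle w y
  have h3 : φ x - φ w ≤ Sp r φ w * dist x w := by
    refine sub_le_Sp hK ?_
    rw [h0]
    exact lt_of_le_of_lt (mul_le_mul_of_nonneg_left hD ht0.le) hr
  rw [h1] at h2
  rw [h0] at h3
  have h4 : (1 - t / 2) * dist x y * (t * dist x y) ≤ Sp r φ w * (t * dist x y) := by
    refine le_trans ?_ h3
    nlinarith
  exact le_of_mul_le_mul_right h4 (by positivity)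

theorem integrable_dist_sq {P : Measure (X × X)} [IsFiniteMeasure P] :
    Integrable (fun z : X × X => dist z.1 z.2 ^ 2) P := by
  have hcont : Continuous fun z : X × X => dist z.1 z.2 ^ 2 := by fun_prop
  obtain ⟨D, hD⟩ := (isCompact_univ (X := X × X)).exists_bound_of_continuousOn hcont.continuousOn
  exact Integrable.of_bound hcont.measurable.aestronglyMeasurable D
    (ae_of_all _ fun x => hD x (mem_univ _))

/-- lower bound for the slope at the intermediate time -/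
theorem slope_mid {ρ0 ρ1 ρt : X → ℝ} (h0i : Integrable ρ0 m) (htm : Measurable ρt) (htp : ∀ x, 0 ≤ ρt x)
    {φ ψ : X → ℝ} {K : ℝ≥0} (hK : LipschitzWith K φ)
    {P P0 P1 : Measure (X × X)} (hP : Cpl P (dens m ρ0) (dens m ρ1)) (hPo : IsOpt P)
    (hpot : Pot φ ψ P) {t : ℝ} (ht : t ∈ Ioo (0 : ℝ) 1)
    (hP0 : Cpl P0 (dens m ρ0) (dens m ρt)) (hP1 : Cpl P1 (dens m ρt) (dens m ρ1))
    (hc0 : cost P0 = t ^ 2 * cost P) (hc1 : cost P1 = (1 - t) ^ 2 * cost P)
    {r D : ℝ} (hD : ∀ x y : X, dist x y ≤ D) (hr : t * D < r) :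
    (1 - t / 2) ^ 2 * cost P ≤ ∫ x, Sp r φ x ^ 2 * ρt x ∂m := by
  have hfin0 : IsFiniteMeasure (dens m ρ0) := isFiniteMeasure_dens h0i
  have hfinP : IsFiniteMeasure P := hP.isFiniteMeasure
  obtain ⟨σ, s1, s2, s3, s4, s5, s6⟩ := glue_geod ht hP hPo hP0 hP1 hc0.le hc1.le
  have hpot2 : Pot φ ψ (σ.map fun z => (z.1, z.2.2)) :=
    hpot.of_le (s3.1.trans hP.1.symm) (s3.2.trans hP.2.symm) s5.le
  have hfm : Measurable (fun z : X × X × X => (z.1, z.2.2)) := by fun_prop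
  have hfinσ : IsFiniteMeasure σ := by
    constructor
    have e1 : (σ.map fun z => (z.1, z.2.2)) univ = σ univ := by
      rw [Measure.map_apply hfm MeasurableSet.univ, preimage_univ]
    have : IsFiniteMeasure (σ.map fun z => (z.1, z.2.2)) := s3.isFiniteMeasure
    rw [← e1]
    exact measure_lt_top _ _
  have hSm : Measurable (Sp r φ) := measurable_Sp hK r
  -- the integral of the squared slope as an integral over `σ`
  have e1 : ∫ x, Sp r φ x ^ 2 * ρt x ∂m = ∫ z, Sp r φ z.2.1 ^ 2 ∂σ := by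
    have a1 : ∫ x, Sp r φ x ^ 2 ∂(dens m ρt) = ∫ x, Sp r φ x ^ 2 * ρt x ∂m := by
      rw [integral_dens htm htp]
      exact integral_congr_ae (ae_of_all _ fun x => mul_comm _ _)
    have a2 : ∫ z, Sp r φ z.1 ^ 2 ∂P1 = ∫ x, Sp r φ x ^ 2 ∂(dens m ρt) :=
      hP1.integral_fst (g := fun x => Sp r φ x ^ 2) (hSm.pow_const 2).aestronglyMeasurable
    rw [← a1, ← a2, ← s2]
    have hm2 : Measurable (fun z : X × X × X => z.2) := measurable_snd
    exact integral_map (f := fun z : X × X => Sp r φ z.1 ^ 2) hm2.aemeasurable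
      ((hSm.comp measurable_fst).pow_const 2).aestronglyMeasurable
  have e2 : cost P = ∫ z, dist z.1 z.2.2 ^ 2 ∂σ := by
    rw [← s5, cost, integral_map hfm.aemeasurable
      ((Continuous.measurable (by fun_prop)).aestronglyMeasurable)]
  rw [e1, e2, ← integral_const_mul]
  have hpσ : ∀ᵐ z ∂σ, φ z.1 + ψ z.2.2 = dist z.1 z.2.2 ^ 2 / 2 :=
    ae_of_ae_map hfm.aemeasurable hpot2.2.2.2
  refine integral_mono_ae ?_ ?_ ?_
  · refine Integrable.const_mul ?_ _
    have hcont : Continuous fun z : X × X × X => dist z.1 z.2.2 ^ 2 := by fun_prop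
    obtain ⟨B, hB⟩ := (isCompact_univ (X := X × X × X)).exists_bound_of_continuousOn hcont.continuousOn
    exact Integrable.of_bound hcont.measurable.aestronglyMeasurable B
      (ae_of_all _ fun x => hB x (mem_univ _))
  · refine Integrable.of_bound (((hSm.comp (measurable_fst.comp measurable_snd)).pow_const
      2).aestronglyMeasurable) ((K : ℝ) ^ 2) (ae_of_all _ fun z => ?_)
    rw [Real.norm_eq_abs, abs_of_nonneg (by positivity)]
    exact pow_le_pow_left₀ (Sp_nonneg _ _ _) (Sp_le hK r z.2.1) 2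
  · filter_upwards [hpσ, s6] with z hz1 hz2
    have h1 := le_Sp_mid hK hpot2.2.2.1 hz1 ht hz2.1 hz2.2 (hD _ _) hr
    have h2 : 0 ≤ (1 - t / 2) * dist z.1 z.2.2 :=
      mul_nonneg (by have := ht.2; linarith) dist_nonneg
    have h3 := pow_le_pow_left₀ h2 h1 2
    rw [mul_pow] at h3
    exact h3

/-- the entropy at the intermediate time -/
theorem ent_mid {N : ℝ} (hN : 1 < N) {ρ0 ρ1 : X → ℝ} (h0m : Measurable ρ0)
    {c C : ℝ} (hc : 0 < c) (h0 : ∀ x, c ≤ ρ0 x ∧ ρ0 x ≤ C) (h1 : ∀ x, 0 ≤ ρ1 x)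
    {P : Measure (X × X)} (hP : Cpl P (dens m ρ0) (dens m ρ1))
    (hπ : ∀ᵐ z ∂P, dist z.1 z.2 < Real.pi) {t : ℝ} (ht : t ∈ Ioo (0 : ℝ) 1) {E : ℝ}
    (hi : Integrable (fun z => tau N (1 - t) (dist z.1 z.2) * ρ0 z.1 ^ (-(1 / N)) +
          tau N t (dist z.1 z.2) * ρ1 z.2 ^ (-(1 / N))) P)
    (hE : ∫ z, (tau N (1 - t) (dist z.1 z.2) * ρ0 z.1 ^ (-(1 / N)) +
          tau N t (dist z.1 z.2) * ρ1 z.2 ^ (-(1 / N))) ∂P ≤ E) :
    (1 - t) * Ent N m ρ0 ≤ E := by
  have h0p : ∀ x, 0 ≤ ρ0 x := fun x => hc.le.trans (h0 x).1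
  have h0i : Integrable ρ0 m := Integrable.of_bound h0m.aestronglyMeasurable C
    (ae_of_all _ fun x => by rw [Real.norm_eq_abs, abs_of_nonneg (h0p x)]; exact (h0 x).2)
  have hfin0 : IsFiniteMeasure (dens m ρ0) := isFiniteMeasure_dens h0i
  have hfinP : IsFiniteMeasure P := hP.isFiniteMeasure
  have hum : Measurable fun x => ρ0 x ^ (-(1 / N)) := h0m.pow_const _
  have hub : ∀ x, ρ0 x ^ (-(1 / N)) ≤ c ^ (-(1 / N)) := fun x =>
    Real.rpow_le_rpow_of_nonpos hc (h0 x).1 (by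
      have : (0 : ℝ) < 1 / N := by positivity
      linarith)
  have hup : ∀ x, 0 ≤ ρ0 x ^ (-(1 / N)) := fun x => Real.rpow_nonneg (h0p x) _
  have e1 : ∫ z, ρ0 z.1 ^ (-(1 / N)) ∂P = Ent N m ρ0 := by
    rw [hP.integral_fst (g := fun x => ρ0 x ^ (-(1 / N))) hum.aestronglyMeasurable,
      integral_dens h0m h0p]
    unfold Ent
    refine integral_congr_ae (ae_of_all _ fun x => ?_)
    have hx : 0 < ρ0 x := hc.trans_le (h0 x).1
    beta_reduce
    rw [show (1 : ℝ) - 1 / N = 1 + -(1 / N) by ring, Real.rpow_add hx, Real.rpow_one]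
  rw [← e1, ← integral_const_mul]
  refine le_trans (integral_mono_ae ?_ hi ?_) hE
  · refine Integrable.const_mul ?_ _
    refine Integrable.of_bound (hum.comp measurable_fst).aestronglyMeasurable (c ^ (-(1 / N)))
      (ae_of_all _ fun z => ?_)
    rw [Real.norm_eq_abs, abs_of_nonneg (hup _)]
    exact hub _
  · filter_upwards [hπ] with z hz
    have a1 := le_tau hN (t := 1 - t) ⟨by linarith [ht.2], by linarith [ht.1]⟩
      (dist_nonneg (x := z.1) (y := z.2)) hz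
    have a2 := le_tau hN ht (dist_nonneg (x := z.1) (y := z.2)) hz
    have a3 : 0 ≤ tau N t (dist z.1 z.2) * ρ1 z.2 ^ (-(1 / N)) :=
      mul_nonneg (ht.1.le.trans a2) (Real.rpow_nonneg (h1 _) _)
    have a4 := mul_le_mul_of_nonneg_right a1 (hup z.1)
    linarith

/-- the case of mass one -/
theorem metric_brenier_one {N : ℝ} (hN : 1 < N) (hcd : CDr m N) {ρ0 ρ1 : X → ℝ}
    (h0m : Measurable ρ0) (h1m : Measurable ρ1) {c C : ℝ} (hc : 0 < c)
    (h0 : ∀ x, c ≤ ρ0 x ∧ ρ0 x ≤ C) (h1 : ∀ x, 0 ≤ ρ1 x ∧ ρ1 x ≤ C)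
    (hm0 : ∫ x, ρ0 x ∂m = 1) (hm1 : ∫ x, ρ1 x ∂m = 1) :
    ∃ α : X → ℝ, Measurable α ∧ (∀ x, 0 ≤ α x) ∧ (∃ D, ∀ x, α x ≤ D) ∧
      ∀ P : Measure (X × X), Cpl P (dens m ρ0) (dens m ρ1) → IsOpt P →
        ∀ᵐ z ∂P, dist z.1 z.2 = α z.1 := by
  have h0p : ∀ x, 0 ≤ ρ0 x := fun x => hc.le.trans (h0 x).1
  have h1p : ∀ x, 0 ≤ ρ1 x := fun x => (h1 x).1
  have h0i : Integrable ρ0 m := Integrable.of_bound h0m.aestronglyMeasurable C
    (ae_of_all _ fun x => by rw [Real.norm_eq_abs, abs_of_nonneg (h0p x)]; exact (h0 x).2)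
  have hfin0 : IsFiniteMeasure (dens m ρ0) := isFiniteMeasure_dens h0i
  obtain ⟨P, hP, hPo, hPπ, hPt⟩ := hcd.cd ρ0 ρ1 h0m h1m h0p h1p ⟨C, fun x => (h0 x).2⟩
    ⟨C, fun x => (h1 x).2⟩ hm0 hm1
  have hfinP : IsFiniteMeasure P := hP.isFiniteMeasure
  obtain ⟨φ, ψ, K, hpot, hK, -⟩ := hPo.exists_pot
  obtain ⟨D, hD0, hD⟩ := exists_diam (X := X)
  set W : ℝ := cost P with hW
  have hW0 : 0 ≤ W := integral_nonneg fun z => by positivity
  have hSm : ∀ r, Measurable (Sp r φ) := fun r => measurable_Sp hK r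
  have hSb : ∀ r x, Sp r φ x ^ 2 ≤ (K : ℝ) ^ 2 := fun r x =>
    pow_le_pow_left₀ (Sp_nonneg _ _ _) (Sp_le hK r x) 2
  have hSi : ∀ (r : ℝ) (ρ : X → ℝ), Measurable ρ → Integrable ρ m →
      Integrable (fun x => Sp r φ x ^ 2 * ρ x) m := by
    intro r ρ _ hρi
    refine Integrable.bdd_mul (c := (K : ℝ) ^ 2) hρi ((hSm r).pow_const 2).aestronglyMeasurable
      (ae_of_all _ fun x => ?_)
    rw [Real.norm_eq_abs, abs_of_nonneg (by positivity)]
    exact hSb r x
  -- the sequence of intermediate times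
  have htn : ∀ n : ℕ, (1 : ℝ) / ((n : ℝ) + 2) ∈ Ioo (0 : ℝ) 1 := by
    intro n
    refine ⟨by positivity, ?_⟩
    rw [div_lt_one (by positivity)]
    have : (0 : ℝ) ≤ n := Nat.cast_nonneg n
    linarith
  have htlim : Tendsto (fun n : ℕ => (1 : ℝ) / ((n : ℝ) + 2)) atTop (𝓝 0) := by
    have := (tendsto_const_div_atTop_nhds_zero_nat (1 : ℝ)).comp (tendsto_add_atTop_nat 2)
    refine this.congr fun n => ?_
    simp
  choose ρn hρm hρp hρi hρ1 hex hρint hρE using fun n : ℕ => hPt _ (htn n)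
  choose P0 P1 hP0 hP1 hcP0 hcP1 using hex
  -- convergence in total variation
  have htv : Tendsto (fun n => ∫ x, |ρn n x - ρ0 x| ∂m) atTop (𝓝 0) := by
    refine tv_lemma hN h0m hc h0 hρm hρp hρi (fun g hg => ?_) (fun δ hδ => ?_)
    · refine tendsto_of_cost h0m h0p h0i hρm hρp hρi hP0 ?_ hg
      have h2 : Tendsto (fun n : ℕ => ((1 : ℝ) / ((n : ℝ) + 2)) ^ 2 * W) atTop (𝓝 (0 ^ 2 * W)) :=
        (htlim.pow 2).mul_const W
      rw [show (0 : ℝ) ^ 2 * W = 0 by ring] at h2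
      exact h2.congr fun n => (hcP0 n).symm
    · have h2 : Tendsto (fun n : ℕ => (1 - (1 : ℝ) / ((n : ℝ) + 2)) * Ent N m ρ0) atTop
          (𝓝 ((1 - 0) * Ent N m ρ0)) := (htlim.const_sub 1).mul_const _
      have h3 : Ent N m ρ0 - δ < (1 - 0) * Ent N m ρ0 := by linarith
      filter_upwards [h2.eventually_const_lt h3] with n hn
      exact hn.le.trans (ent_mid hN h0m hc h0 h1p hP hPπ (htn n) (hρint n) (hρE n))
  -- lower bound for every scale
  have hlow : ∀ r : ℝ, 0 < r → W ≤ ∫ x, Sp r φ x ^ 2 * ρ0 x ∂m := by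
    intro r hr
    have c1 : Tendsto (fun n => ∫ x, Sp r φ x ^ 2 * ρn n x ∂m) atTop
        (𝓝 (∫ x, Sp r φ x ^ 2 * ρ0 x ∂m)) := by
      rw [tendsto_iff_norm_sub_tendsto_zero]
      refine squeeze_zero (fun n => norm_nonneg _) (g := fun n => (K : ℝ) ^ 2 * ∫ x, |ρn n x - ρ0 x| ∂m)
        (fun n => ?_) (by simpa using htv.const_mul ((K : ℝ) ^ 2))
      rw [← integral_sub (hSi r _ (hρm n) (hρi n)) (hSi r _ h0m h0i), ← integral_const_mul,
        Real.norm_eq_abs]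
      refine abs_integral_le_integral_abs.trans (integral_mono_ae
        ((hSi r _ (hρm n) (hρi n)).sub (hSi r _ h0m h0i)).abs
        (((hρi n).sub h0i).abs.const_mul _) (ae_of_all _ fun x => ?_))
      simp only
      rw [← mul_sub, abs_mul, abs_of_nonneg (sq_nonneg _)]
      exact mul_le_mul_of_nonneg_right (hSb r x) (abs_nonneg _)
    have c2 : Tendsto (fun n : ℕ => (1 - (1 : ℝ) / ((n : ℝ) + 2) / 2) ^ 2 * W) atTop
        (𝓝 ((1 - 0 / 2) ^ 2 * W)) := (((htlim.div_const 2).const_sub 1).pow 2).mul_const W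
    rw [show (1 - (0 : ℝ) / 2) ^ 2 * W = W by ring] at c2
    have c3 : ∀ᶠ n : ℕ in atTop, (1 : ℝ) / ((n : ℝ) + 2) * D < r := by
      have : Tendsto (fun n : ℕ => (1 : ℝ) / ((n : ℝ) + 2) * D) atTop (𝓝 (0 * D)) :=
        htlim.mul_const D
      rw [zero_mul] at this
      exact this.eventually_lt_const hr
    refine le_of_tendsto_of_tendsto c2 c1 ?_
    filter_upwards [c3] with n hn
    exact slope_mid h0i (hρm n) (hρp n) hK hP hPo hpot (htn n) (hP0 n) (hP1 n) (hcP0 n)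
      (hcP1 n) hD hn
  -- the limit
  set α : X → ℝ := fun x => ⨅ n : ℕ, Sp (1 / ((n : ℝ) + 1)) φ x with hα
  have hbdd : ∀ x, BddBelow (range fun n : ℕ => Sp (1 / ((n : ℝ) + 1)) φ x) := fun x =>
    ⟨0, by rintro _ ⟨n, rfl⟩; exact Sp_nonneg _ _ _⟩
  have hα0 : ∀ x, 0 ≤ α x := fun x => Real.iInf_nonneg fun _ => Sp_nonneg _ _ _
  have hαm : Measurable α := Measurable.iInf fun n => hSm _
  have hαle : ∀ (x : X) (n : ℕ), α x ≤ Sp (1 / ((n : ℝ) + 1)) φ x := fun x n => ciInf_le (hbdd x) n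
  have hαK : ∀ x, α x ≤ K := fun x => (hαle x 0).trans (Sp_le hK _ _)
  have hαlim : ∀ x, Tendsto (fun n : ℕ => Sp (1 / ((n : ℝ) + 1)) φ x) atTop (𝓝 (α x)) := by
    intro x
    refine tendsto_atTop_ciInf (fun n k hnk => ?_) (hbdd x)
    refine Sp_mono hK ?_ x
    have h3 : (n : ℝ) ≤ k := Nat.cast_le.mpr hnk
    exact one_div_le_one_div_of_le (by positivity) (by linarith)
  have hαW : W ≤ ∫ x, α x ^ 2 * ρ0 x ∂m := by
    have c1 : Tendsto (fun n : ℕ => ∫ x, Sp (1 / ((n : ℝ) + 1)) φ x ^ 2 * ρ0 x ∂m) atTop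
        (𝓝 (∫ x, α x ^ 2 * ρ0 x ∂m)) := by
      refine tendsto_integral_of_dominated_convergence (fun x => (K : ℝ) ^ 2 * ρ0 x)
        (fun n => (hSi _ _ h0m h0i).1) (h0i.const_mul _) (fun n => ae_of_all _ fun x => ?_)
        (ae_of_all _ fun x => ((hαlim x).pow 2).mul_const _)
      rw [Real.norm_eq_abs, abs_mul, abs_of_nonneg (sq_nonneg _), abs_of_nonneg (h0p x)]
      exact mul_le_mul_of_nonneg_right (hSb _ _) (h0p x)
    exact ge_of_tendsto' c1 fun n => hlow _ (by positivity)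
  refine ⟨α, hαm, hα0, ⟨K, hαK⟩, fun Q hQ hQo => ?_⟩
  have hfinQ : IsFiniteMeasure Q := hQ.isFiniteMeasure
  have hQP : cost Q ≤ cost P := hQo P (hP.1.trans hQ.1.symm) (hP.2.trans hQ.2.symm)
  have hpotQ : Pot φ ψ Q := hpot.of_le (hQ.1.trans hP.1.symm) (hQ.2.trans hP.2.symm) hQP
  have hup : ∀ᵐ z ∂Q, α z.1 ≤ dist z.1 z.2 := by
    filter_upwards [hpotQ.2.2.2] with z hz
    have c1 : Tendsto (fun n : ℕ => dist z.1 z.2 + (1 / ((n : ℝ) + 1)) / 2) atTop
        (𝓝 (dist z.1 z.2 + 0 / 2)) :=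
      (tendsto_one_div_add_atTop_nhds_zero_nat.div_const 2).const_add _
    rw [show dist z.1 z.2 + 0 / 2 = dist z.1 z.2 by ring] at c1
    exact ge_of_tendsto' c1 fun n => (hαle _ n).trans (Sp_le_dist hpotQ.2.2.1 hz (by positivity))
  have hdi : Integrable (fun z : X × X => dist z.1 z.2 ^ 2) Q := integrable_dist_sq
  have hαi : Integrable (fun z : X × X => α z.1 ^ 2) Q := by
    refine Integrable.of_bound ((hαm.comp measurable_fst).pow_const 2).aestronglyMeasurable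
      ((K : ℝ) ^ 2) (ae_of_all _ fun z => ?_)
    rw [Real.norm_eq_abs, abs_of_nonneg (by positivity)]
    exact pow_le_pow_left₀ (hα0 _) (hαK _) 2
  have hαQ : ∫ z, α z.1 ^ 2 ∂Q = ∫ x, α x ^ 2 * ρ0 x ∂m := by
    rw [hQ.integral_fst (g := fun x => α x ^ 2) (hαm.pow_const 2).aestronglyMeasurable,
      integral_dens h0m h0p]
    exact integral_congr_ae (ae_of_all _ fun x => mul_comm _ _)
  have hz : ∫ z, (dist z.1 z.2 ^ 2 - α z.1 ^ 2) ∂Q = 0 := by
    refine le_antisymm ?_ (integral_nonneg_of_ae ?_)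
    · rw [integral_sub hdi hαi, hαQ]
      have : ∫ z, dist z.1 z.2 ^ 2 ∂Q = cost Q := rfl
      rw [this]
      linarith
    · filter_upwards [hup] with z hz
      have := pow_le_pow_left₀ (hα0 z.1) hz 2
      simp only [Pi.zero_apply]
      linarith
  have hnn : 0 ≤ᵐ[Q] fun z : X × X => dist z.1 z.2 ^ 2 - α z.1 ^ 2 := by
    filter_upwards [hup] with z hz
    have := pow_le_pow_left₀ (hα0 z.1) hz 2
    simp only [Pi.zero_apply]
    linarith
  have hz2 := (integral_eq_zero_iff_of_nonneg_ae hnn (hdi.sub hαi)).mp hz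
  filter_upwards [hz2] with z hz
  simp only [Pi.zero_apply] at hz
  exact (pow_left_inj₀ dist_nonneg (hα0 _) two_ne_zero).mp (by linarith)

theorem metric_brenier {N : ℝ} (hN : 1 < N) (hcd : CDr m N) {ρ0 ρ1 : X → ℝ}
    (h0m : Measurable ρ0) (h1m : Measurable ρ1) {c C : ℝ} (hc : 0 < c)
    (h0 : ∀ x, c ≤ ρ0 x ∧ ρ0 x ≤ C) (h1 : ∀ x, 0 ≤ ρ1 x ∧ ρ1 x ≤ C)
    (hmass : ∫ x, ρ0 x ∂m = ∫ x, ρ1 x ∂m) :
    ∃ α : X → ℝ, Measurable α ∧ (∀ x, 0 ≤ α x) ∧ (∃ D, ∀ x, α x ≤ D) ∧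
      ∀ P : Measure (X × X), Cpl P (dens m ρ0) (dens m ρ1) → IsOpt P →
        ∀ᵐ z ∂P, dist z.1 z.2 = α z.1 := by
  have h0p : ∀ x, 0 ≤ ρ0 x := fun x => hc.le.trans (h0 x).1
  have h0i : Integrable ρ0 m := Integrable.of_bound h0m.aestronglyMeasurable C
    (ae_of_all _ fun x => by rw [Real.norm_eq_abs, abs_of_nonneg (h0p x)]; exact (h0 x).2)
  set M : ℝ := ∫ x, ρ0 x ∂m with hM
  have hMc : c ≤ M := by
    have : ∫ _, c ∂m ≤ ∫ x, ρ0 x ∂m := integral_mono (integrable_const _) h0i fun x => (h0 x).1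
    simpa using this
  have hM0 : 0 < M := hc.trans_le hMc
  have hMi : 0 < M⁻¹ := inv_pos.mpr hM0
  have hdens : ∀ ρ : X → ℝ, Measurable ρ →
      dens m (fun x => M⁻¹ * ρ x) = ENNReal.ofReal M⁻¹ • dens m ρ := by
    intro ρ hρ
    unfold dens
    rw [← withDensity_smul _ hρ.ennreal_ofReal]
    congr 1
    funext x
    rw [Pi.smul_apply, smul_eq_mul, ENNReal.ofReal_mul hMi.le]
  obtain ⟨α, a1, a2, a3, a4⟩ := metric_brenier_one hN hcd (ρ0 := fun x => M⁻¹ * ρ0 x)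
    (ρ1 := fun x => M⁻¹ * ρ1 x) (h0m.const_mul _) (h1m.const_mul _) (c := M⁻¹ * c) (C := M⁻¹ * C)
    (by positivity) (fun x => ⟨mul_le_mul_of_nonneg_left (h0 x).1 hMi.le,
      mul_le_mul_of_nonneg_left (h0 x).2 hMi.le⟩)
    (fun x => ⟨mul_nonneg hMi.le (h1 x).1, mul_le_mul_of_nonneg_left (h1 x).2 hMi.le⟩)
    (by rw [integral_const_mul, ← hM]; exact inv_mul_cancel₀ hM0.ne')
    (by rw [integral_const_mul, ← hmass]; exact inv_mul_cancel₀ hM0.ne')
  refine ⟨α, a1, a2, a3, fun P hP hPo => ?_⟩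
  have hkey := a4 (ENNReal.ofReal M⁻¹ • P) ?_ ?_
  · rwa [Measure.ae_ennreal_smul_measure_eq (by rw [Ne, ENNReal.ofReal_eq_zero]; linarith)] at hkey
  · rw [hdens _ h0m, hdens _ h1m]
    exact ⟨by rw [Measure.map_smul, hP.1], by rw [Measure.map_smul, hP.2]⟩
  · intro Q hQ1 hQ2
    have b1 : cost (ENNReal.ofReal M⁻¹ • P) = M⁻¹ * cost P := by
      unfold cost
      rw [integral_smul_measure, ENNReal.toReal_ofReal hMi.le, smul_eq_mul]
    have b2 : cost (ENNReal.ofReal M • Q) = M * cost Q := by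
      unfold cost
      rw [integral_smul_measure, ENNReal.toReal_ofReal hM0.le, smul_eq_mul]
    have b3 : ENNReal.ofReal M * ENNReal.ofReal M⁻¹ = 1 := by
      rw [← ENNReal.ofReal_mul hM0.le, mul_inv_cancel₀ hM0.ne', ENNReal.ofReal_one]
    have b4 := hPo (ENNReal.ofReal M • Q)
      (by rw [Measure.map_smul, hQ1, Measure.map_smul, smul_smul, b3, one_smul])
      (by rw [Measure.map_smul, hQ2, Measure.map_smul, smul_smul, b3, one_smul])
    rw [b2] at b4
    rw [b1, inv_mul_le_iff₀ hM0]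
    exact b4

end H13CD
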