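import Pool.Agent.Helper13.CD.Rajala

/-!
# Module K: the chain lemma

Induction on `k` with `D < 2^k r`.  `k = 0` (`D < r`): take any optimal plan `P`; a.e. `d ≤ D < r`,
`g x - g y ≤ Sr r g x · d(x,y) ≤ D Sr r g x`; take `ρ = ρ0`.
Step: let `P` be optimal, `ρh, P0, P1` from `rajala`.  For every optimal plan `Q` of `(ρ0,ρh)`,
`cost Q ≤ cost P0 ≤ cost P/4`, so `glue_geod` (with `Q, P1`) gives `d(x0,xh) = d(x0,x1)/2 ≤ D/2`
(the `(x0,x1)`-marginal is optimal, so the hypothesis on optimal plans applies), hence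
`d ≤ D/2` `Q`-a.e.  Same for `(ρh,ρ1)`.  Apply the induction hypothesis to both halves with `D/2` and
average the two densities.
-/

open MeasureTheory Set Filter Topology
open scoped ENNReal NNReal

namespace H13CD

variable {X : Type*} [MetricSpace X] [CompactSpace X] [MeasurableSpace X] [BorelSpace X]
  {m : Measure X} [IsProbabilityMeasure m]

theorem chain_int {ρ : X → ℝ} (hm : Measurable ρ) {C0 : ℝ} (h : ∀ x, 0 ≤ ρ x ∧ ρ x ≤ C0) :
    Integrable ρ m := by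
  refine Integrable.of_bound hm.aestronglyMeasurable C0 (ae_of_all _ fun x => ?_)
  rw [Real.norm_eq_abs, abs_of_nonneg (h x).1]
  exact (h x).2

theorem chain_plan {C0 : ℝ} {ρ0 ρ1 : X → ℝ}
    (h0m : Measurable ρ0) (h1m : Measurable ρ1)
    (h0 : ∀ x, 0 ≤ ρ0 x ∧ ρ0 x ≤ C0) (h1 : ∀ x, 0 ≤ ρ1 x ∧ ρ1 x ≤ C0)
    (hi0 : ∫ x, ρ0 x ∂m = 1) (hi1 : ∫ x, ρ1 x ∂m = 1) :
    ∃ P : Measure (X × X), IsFiniteMeasure P ∧ Cpl P (dens m ρ0) (dens m ρ1) ∧ IsOpt P := by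
  have hf0 : IsFiniteMeasure (dens m ρ0) := isFiniteMeasure_dens (chain_int h0m h0)
  have hf1 : IsFiniteMeasure (dens m ρ1) := isFiniteMeasure_dens (chain_int h1m h1)
  obtain ⟨P, φ, ψ, K', hP, hPot, _, _⟩ := exists_plan (dens m ρ0) (dens m ρ1) (by
    rw [dens_univ (chain_int h0m h0) fun x => (h0 x).1, dens_univ (chain_int h1m h1) fun x => (h1 x).1,
      hi0, hi1])
  have hfP : IsFiniteMeasure P := hP.isFiniteMeasure
  exact ⟨P, hfP, hP, hPot.isOpt⟩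

/-- half plans have half distances -/
theorem chain_half {μ0 μt μ1 : Measure X} [IsFiniteMeasure μ0] {P P0 P1 Q : Measure (X × X)}
    (hP : Cpl P μ0 μ1) (hPo : IsOpt P) (hP0 : Cpl P0 μ0 μt) (hP1 : Cpl P1 μt μ1)
    (h0 : cost P0 = (1 / 2) ^ 2 * cost P) (h1 : cost P1 = (1 / 2) ^ 2 * cost P) {D : ℝ}
    (hD : ∀ P : Measure (X × X), Cpl P μ0 μ1 → IsOpt P → ∀ᵐ z ∂P, dist z.1 z.2 ≤ D) :
    (Cpl Q μ0 μt → IsOpt Q → ∀ᵐ z ∂Q, dist z.1 z.2 ≤ D / 2) ∧
    (Cpl Q μt μ1 → IsOpt Q → ∀ᵐ z ∂Q, dist z.1 z.2 ≤ D / 2) := by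
  have ht : (1 / 2 : ℝ) ∈ Ioo (0 : ℝ) 1 := ⟨by norm_num, by norm_num⟩
  have hms : MeasurableSet {z : X × X | dist z.1 z.2 ≤ D / 2} :=
    (isClosed_le (continuous_fst.dist continuous_snd) continuous_const).measurableSet
  constructor
  · intro hQ hQo
    have hc : cost Q ≤ (1 / 2) ^ 2 * cost P := by
      rw [← h0]
      exact hQo P0 (by rw [hP0.1, hQ.1]) (by rw [hP0.2, hQ.2])
    obtain ⟨σ, e1, _, e3, e4, _, e6⟩ := glue_geod ht hP hPo hQ hP1 hc (by rw [h1]; norm_num)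
    have m1 : Measurable fun z : X × X × X => (z.1, z.2.2) :=
      measurable_fst.prodMk (measurable_snd.comp measurable_snd)
    have m2 : Measurable fun z : X × X × X => (z.1, z.2.1) :=
      measurable_fst.prodMk (measurable_fst.comp measurable_snd)
    have h5 := ae_of_ae_map m1.aemeasurable (hD _ e3 e4)
    rw [← e1, ae_map_iff m2.aemeasurable hms]
    filter_upwards [h5, e6] with z hz hz'
    rw [hz'.1]
    linarith
  · intro hQ hQo
    have hc : cost Q ≤ (1 - 1 / 2) ^ 2 * cost P := by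
      have : cost Q ≤ cost P1 := hQo P1 (by rw [hP1.1, hQ.1]) (by rw [hP1.2, hQ.2])
      rw [h1] at this
      refine this.trans (le_of_eq ?_)
      norm_num
    obtain ⟨σ, _, e2, e3, e4, _, e6⟩ := glue_geod ht hP hPo hP0 hQ (by rw [h0]) hc
    have m1 : Measurable fun z : X × X × X => (z.1, z.2.2) :=
      measurable_fst.prodMk (measurable_snd.comp measurable_snd)
    have h5 := ae_of_ae_map m1.aemeasurable (hD _ e3 e4)
    rw [← e2, ae_map_iff measurable_snd.aemeasurable hms]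
    filter_upwards [h5, e6] with z hz hz'
    rw [hz'.2]
    linarith

theorem chain_mul_int {ρ : X → ℝ} (hm : Measurable ρ) {C0 : ℝ} (h : ∀ x, 0 ≤ ρ x ∧ ρ x ≤ C0)
    {g : X → ℝ} {K : ℝ≥0} (hg : LipschitzWith K g) (r : ℝ) :
    Integrable (fun x => Sr r g x * ρ x) m := by
  refine (chain_int hm h).bdd_mul (c := (K : ℝ)) (measurable_Sr hg r).aestronglyMeasurable
    (ae_of_all _ fun x => ?_)
  rw [Real.norm_eq_abs, abs_of_nonneg (Sr_nonneg _ _ _)]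
  exact Sr_le hg r x

theorem chain_aux {N : ℝ} (hN : 1 < N) (hcd : CDr m N) {C0 : ℝ} {g : X → ℝ} {K : ℝ≥0}
    (hg : LipschitzWith K g) {r : ℝ} (k : ℕ) : ∀ {ρ0 ρ1 : X → ℝ},
    Measurable ρ0 → Measurable ρ1 →
    (∀ x, 0 ≤ ρ0 x ∧ ρ0 x ≤ C0) → (∀ x, 0 ≤ ρ1 x ∧ ρ1 x ≤ C0) →
    (∫ x, ρ0 x ∂m = 1) → (∫ x, ρ1 x ∂m = 1) → ∀ {D : ℝ}, 0 ≤ D → D < 2 ^ k * r →
    (∀ P : Measure (X × X), Cpl P (dens m ρ0) (dens m ρ1) → IsOpt P →
      ∀ᵐ z ∂P, dist z.1 z.2 ≤ D) →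
    ∃ ρ : X → ℝ, Measurable ρ ∧ (∀ x, 0 ≤ ρ x ∧ ρ x ≤ C0) ∧ ∫ x, ρ x ∂m = 1 ∧
      ∫ x, g x * ρ0 x ∂m - ∫ x, g x * ρ1 x ∂m ≤ D * ∫ x, Sr r g x * ρ x ∂m := by
  induction k with
  | zero =>
    intro ρ0 ρ1 h0m h1m h0 h1 hi0 hi1 D hD0 hDr hD
    rw [pow_zero, one_mul] at hDr
    obtain ⟨P, hfP, hP, hPo⟩ := chain_plan h0m h1m h0 h1 hi0 hi1
    have hae := hD P hP hPo
    refine ⟨ρ0, h0m, h0, hi0, ?_⟩
    obtain ⟨B, hB⟩ := (isCompact_univ (X := X)).exists_bound_of_continuousOn hg.continuous.continuousOn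
    have gi1 : Integrable (fun z : X × X => g z.1) P :=
      Integrable.of_bound (hg.continuous.comp continuous_fst).aestronglyMeasurable B
        (ae_of_all _ fun z => hB z.1 (mem_univ _))
    have gi2 : Integrable (fun z : X × X => g z.2) P :=
      Integrable.of_bound (hg.continuous.comp continuous_snd).aestronglyMeasurable B
        (ae_of_all _ fun z => hB z.2 (mem_univ _))
    have si : Integrable (fun z : X × X => Sr r g z.1) P := by
      refine Integrable.of_bound ((measurable_Sr hg r).comp measurable_fst).aestronglyMeasurable K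
        (ae_of_all _ fun z => ?_)
      rw [Real.norm_eq_abs, abs_of_nonneg (Sr_nonneg _ _ _)]
      exact Sr_le hg r z.1
    have e1 : ∫ x, g x * ρ0 x ∂m = ∫ z, g z.1 ∂P := by
      rw [hP.integral_fst hg.continuous.aestronglyMeasurable, integral_dens h0m fun x => (h0 x).1]
      exact integral_congr_ae (ae_of_all _ fun x => mul_comm _ _)
    have e2 : ∫ x, g x * ρ1 x ∂m = ∫ z, g z.2 ∂P := by
      rw [hP.integral_snd hg.continuous.aestronglyMeasurable, integral_dens h1m fun x => (h1 x).1]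
      exact integral_congr_ae (ae_of_all _ fun x => mul_comm _ _)
    have e3 : ∫ x, Sr r g x * ρ0 x ∂m = ∫ z, Sr r g z.1 ∂P := by
      rw [hP.integral_fst (measurable_Sr hg r).aestronglyMeasurable, integral_dens h0m fun x => (h0 x).1]
      exact integral_congr_ae (ae_of_all _ fun x => mul_comm _ _)
    rw [e1, e2, e3, ← integral_sub gi1 gi2, ← integral_const_mul]
    refine integral_mono_ae (gi1.sub gi2) (si.const_mul D) ?_
    filter_upwards [hae] with z hz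
    have hz' : dist z.2 z.1 < r := by rw [dist_comm]; exact hz.trans_lt hDr
    have h5 := abs_sub_le_Sr hg hz'
    have h6 : Sr r g z.1 * dist z.2 z.1 ≤ Sr r g z.1 * D :=
      mul_le_mul_of_nonneg_left (by rw [dist_comm]; exact hz) (Sr_nonneg _ _ _)
    have h7 := neg_abs_le (g z.2 - g z.1)

    linarith
  | succ k ih =>
    intro ρ0 ρ1 h0m h1m h0 h1 hi0 hi1 D hD0 hDr hD
    obtain ⟨P, hfP, hP, hPo⟩ := chain_plan h0m h1m h0 h1 hi0 hi1
    obtain ⟨ρh, hhm, hh, hih, P0, P1, hP0, hP1, hc0, hc1⟩ :=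
      rajala hN hcd h0m h1m h0 h1 hi0 hi1 hP hPo
    have hf0 : IsFiniteMeasure (dens m ρ0) := isFiniteMeasure_dens (chain_int h0m h0)
    have hDr' : D / 2 < 2 ^ k * r := by
      rw [pow_succ] at hDr
      linarith
    obtain ⟨ρa, ham, ha, hia, ea⟩ := ih h0m hhm h0 hh hi0 hih (D := D / 2) (by linarith) hDr'
      (fun Q hQ hQo => (chain_half hP hPo hP0 hP1 hc0 hc1 hD).1 hQ hQo)
    obtain ⟨ρb, hbm, hb, hib, eb⟩ := ih hhm h1m hh h1 hih hi1 (D := D / 2) (by linarith) hDr'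
      (fun Q hQ hQo => (chain_half hP hPo hP0 hP1 hc0 hc1 hD).2 hQ hQo)
    refine ⟨fun x => (ρa x + ρb x) / 2, (ham.add hbm).div_const 2, fun x => ⟨?_, ?_⟩, ?_, ?_⟩
    · have := (ha x).1
      have := (hb x).1
      linarith
    · have := (ha x).2
      have := (hb x).2
      linarith
    · rw [integral_div, integral_add (chain_int ham ha) (chain_int hbm hb), hia, hib]
      norm_num
    · have e1 : ∫ x, Sr r g x * ((ρa x + ρb x) / 2) ∂m =
          (∫ x, Sr r g x * ρa x ∂m + ∫ x, Sr r g x * ρb x ∂m) / 2 := by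
        rw [← integral_add (chain_mul_int ham ha hg r) (chain_mul_int hbm hb hg r), ← integral_div]
        exact integral_congr_ae (ae_of_all _ fun x => by ring)
      rw [e1]
      linarith

theorem chain {N : ℝ} (hN : 1 < N) (hcd : CDr m N) {C0 : ℝ} {g : X → ℝ} {K : ℝ≥0}
    (hg : LipschitzWith K g) {r : ℝ} (hr : 0 < r) {ρ0 ρ1 : X → ℝ}
    (h0m : Measurable ρ0) (h1m : Measurable ρ1)
    (h0 : ∀ x, 0 ≤ ρ0 x ∧ ρ0 x ≤ C0) (h1 : ∀ x, 0 ≤ ρ1 x ∧ ρ1 x ≤ C0)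
    (hi0 : ∫ x, ρ0 x ∂m = 1) (hi1 : ∫ x, ρ1 x ∂m = 1) {D : ℝ} (hD0 : 0 ≤ D)
    (hD : ∀ P : Measure (X × X), Cpl P (dens m ρ0) (dens m ρ1) → IsOpt P →
      ∀ᵐ z ∂P, dist z.1 z.2 ≤ D) :
    ∃ ρ : X → ℝ, Measurable ρ ∧ (∀ x, 0 ≤ ρ x ∧ ρ x ≤ C0) ∧ ∫ x, ρ x ∂m = 1 ∧
      ∫ x, g x * ρ0 x ∂m - ∫ x, g x * ρ1 x ∂m ≤ D * ∫ x, Sr r g x * ρ x ∂m := by
  obtain ⟨k, hk⟩ := pow_unbounded_of_one_lt (D / r) (show (1 : ℝ) < 2 by norm_num)
  rw [div_lt_iff₀ hr] at hk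
  exact chain_aux hN hcd hg k h0m h1m h0 h1 hi0 hi1 hD0 hk hD

end H13CD
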