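import Pool.Agent.Helper13.CD.OTdual

/-!
# Module A: optimal transport on a compact metric space (quadratic cost), via potentials

`Pot φ ψ P`: continuous `φ ψ` with `φ x + ψ y ≤ d(x,y)^2/2` everywhere and equality `P`-a.e.

* A1 `Pot.isOpt`, `Pot.of_le` are in `OTbase.lean`.
* A2 `exists_plan` is in `OTdual.lean`.
* A3 `isOpt_of_tendsto`: potentials of `Pn` can be taken `D`-Lipschitz and normalised; a
  subsequence converges uniformly; the limit is a pair of potentials for `P`.
* A4 `cost_tendsto_zero`: `cost Pn = 2 (∫ φn dμn + ∫ ψn dμ) ≤ 2 (∫ φn dμn - ∫ φn dμ)` for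
  normalised `D`-Lipschitz potentials, and the right side tends to zero (Arzela-Ascoli).
-/

open MeasureTheory Set Filter Topology
open scoped ENNReal NNReal

namespace H13CD

variable {X : Type*} [MetricSpace X] [CompactSpace X] [MeasurableSpace X] [BorelSpace X]

theorem IsOpt.exists_pot {P : Measure (X × X)} [IsFiniteMeasure P] (h : IsOpt P) :
    ∃ (φ ψ : X → ℝ) (K : ℝ≥0), Pot φ ψ P ∧ LipschitzWith K φ ∧ LipschitzWith K ψ := by
  obtain ⟨P', φ, ψ, K, hP', hpot, h1, h2⟩ := exists_plan (P.map Prod.fst) (P.map Prod.snd) (by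
    rw [Measure.map_apply measurable_fst MeasurableSet.univ,
      Measure.map_apply measurable_snd MeasurableSet.univ, preimage_univ, preimage_univ])
  have hf : IsFiniteMeasure P' := by
    constructor
    have e1 : P'.map Prod.fst univ = P' univ := by
      rw [Measure.map_apply measurable_fst MeasurableSet.univ, preimage_univ]
    rw [← e1, hP'.1]
    exact measure_lt_top _ _
  exact ⟨φ, ψ, K, hpot.of_le hP'.1.symm hP'.2.symm (h P' hP'.1 hP'.2), h1, h2⟩

theorem isOpt_of_tendsto {Pn : ℕ → ProbabilityMeasure (X × X)} {P : ProbabilityMeasure (X × X)}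
    (ho : ∀ n, IsOpt (Pn n : Measure (X × X))) (ht : Tendsto Pn atTop (𝓝 P)) :
    IsOpt (P : Measure (X × X)) := by
  have hne : Nonempty (X × X) := (P : Measure (X × X)).nonempty_of_neZero
  have hneX : Nonempty X := ⟨hne.some.1⟩
  obtain ⟨D, hD⟩ := ot_exists_diam (X := X)
  have hex : ∀ n, ∃ φ' ψ' : X → ℝ, Pot φ' ψ' (Pn n : Measure (X × X)) ∧ LipschitzWith D φ' ∧
      LipschitzWith D ψ' ∧ (∀ x, |φ' x| ≤ (D : ℝ) ^ 2) ∧ ∀ x, |ψ' x| ≤ (D : ℝ) ^ 2 := fun n => by
    obtain ⟨φ, ψ, K, h, -, -⟩ := (ho n).exists_pot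
    exact h.normalise hD
  choose φn ψn hpot l1 l2 b1 b2 using hex
  obtain ⟨φ, k1, hk1, hφ, hu1⟩ := ot_subseq l1 b1
  obtain ⟨ψ, k2, hk2, hψ, hu2⟩ := ot_subseq (fun n => l2 (k1 n)) (fun n => b2 (k1 n))
  have hu1' : TendstoUniformly (fun n => φn (k1 (k2 n))) φ atTop := fun u hu =>
    hk2.tendsto_atTop.eventually (hu1 u hu)
  have hsub : Tendsto (fun n => Pn (k1 (k2 n))) atTop (𝓝 P) :=
    ht.comp (hk1.comp hk2).tendsto_atTop
  -- the inequality
  have hle : ∀ x y, φ x + ψ y ≤ dist x y ^ 2 / 2 := fun x y => by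
    refine le_of_tendsto' ((hu1'.tendsto_at x).add (hu2.tendsto_at y)) fun n => ?_
    exact (hpot (k1 (k2 n))).2.2.1 x y
  have hpotP : Pot φ ψ (P : Measure (X × X)) := by
    refine ot_ae_of_eq hφ hψ hle (le_of_eq ?_)
    have hcont : ∀ n, Continuous fun z : X × X => φn (k1 (k2 n)) z.1 + ψn (k1 (k2 n)) z.2 :=
      fun n => ((hpot _).1.comp continuous_fst).add ((hpot _).2.1.comp continuous_snd)
    have hcont' : Continuous fun z : X × X => φ z.1 + ψ z.2 :=
      (hφ.comp continuous_fst).add (hψ.comp continuous_snd)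
    have e1 := ot_int_unif hsub hcont hcont' (by
      rw [Metric.tendstoUniformly_iff]
      intro ε hε
      have f1 := Metric.tendstoUniformly_iff.mp hu1' (ε / 2) (half_pos hε)
      have f2 := Metric.tendstoUniformly_iff.mp hu2 (ε / 2) (half_pos hε)
      filter_upwards [f1, f2] with n g1 g2 z
      refine (dist_add_add_le _ _ _ _).trans_lt ?_
      have := g1 z.1
      have := g2 z.2
      linarith)
    have e2 := ot_int_unif hsub (fun _ => ot_continuous_cost) (ot_continuous_cost (X := X))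
      (by
        rw [Metric.tendstoUniformly_iff]
        intro ε hε
        exact Eventually.of_forall fun n z => by rw [dist_self]; exact hε)
    have e3 : ∀ n, ∫ z, dist z.1 z.2 ^ 2 / 2 ∂(Pn (k1 (k2 n)) : Measure (X × X)) =
        ∫ z, (φn (k1 (k2 n)) z.1 + ψn (k1 (k2 n)) z.2) ∂(Pn (k1 (k2 n)) : Measure (X × X)) := by
      intro n
      refine integral_congr_ae ?_
      filter_upwards [(hpot (k1 (k2 n))).2.2.2] with z hz
      exact hz.symm
    simp only [e3] at e2
    exact tendsto_nhds_unique e2 e1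
  exact hpotP.isOpt

/-- uniform weak convergence on equi-Lipschitz sequences -/
theorem ot_unif_weak {μn : ℕ → ProbabilityMeasure X} {μ : ProbabilityMeasure X}
    (ht : Tendsto μn atTop (𝓝 μ)) {K : ℝ≥0} {B : ℝ} {φn : ℕ → X → ℝ}
    (hL : ∀ n, LipschitzWith K (φn n)) (hB : ∀ n x, |φn n x| ≤ B) :
    Tendsto (fun n => ∫ x, φn n x ∂(μn n : Measure X) - ∫ x, φn n x ∂(μ : Measure X)) atTop
      (𝓝 0) := by
  refine tendsto_of_subseq_tendsto fun ns hns => ?_
  obtain ⟨φ, k, hk, hφ, hu⟩ := ot_subseq (fun n => hL (ns n)) (fun n => hB (ns n))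
  refine ⟨k, ?_⟩
  have h1 := ot_int_unif (ht.comp (hns.comp hk.tendsto_atTop))
    (fun n => (hL (ns (k n))).continuous) hφ hu
  have h2 := ot_int_unif (tendsto_const_nhds (x := μ) (f := atTop))
    (fun n => (hL (ns (k n))).continuous) hφ hu
  have h3 := h1.sub h2
  rw [sub_self] at h3
  exact h3

theorem cost_tendsto_zero {μn : ℕ → ProbabilityMeasure X} {μ : ProbabilityMeasure X}
    (ht : Tendsto μn atTop (𝓝 μ)) {Pn : ℕ → Measure (X × X)}
    (hc : ∀ n, Cpl (Pn n) (μn n : Measure X) (μ : Measure X)) (ho : ∀ n, IsOpt (Pn n)) :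
    Tendsto (fun n => cost (Pn n)) atTop (𝓝 0) := by
  have hneX : Nonempty X := (μ : Measure X).nonempty_of_neZero
  obtain ⟨D, hD⟩ := ot_exists_diam (X := X)
  have hfin : ∀ n, IsFiniteMeasure (Pn n) := fun n => by
    constructor
    have e1 : (Pn n).map Prod.fst univ = Pn n univ := by
      rw [Measure.map_apply measurable_fst MeasurableSet.univ, preimage_univ]
    rw [← e1, (hc n).1]
    exact measure_lt_top _ _
  have hex : ∀ n, ∃ φ' ψ' : X → ℝ, Pot φ' ψ' (Pn n) ∧ LipschitzWith D φ' ∧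
      LipschitzWith D ψ' ∧ (∀ x, |φ' x| ≤ (D : ℝ) ^ 2) ∧ ∀ x, |ψ' x| ≤ (D : ℝ) ^ 2 := fun n => by
    have := hfin n
    obtain ⟨φ, ψ, K, h, -, -⟩ := (ho n).exists_pot
    exact h.normalise hD
  choose φn ψn hpot l1 l2 b1 b2 using hex
  have h1 := (ot_unif_weak ht l1 b1).const_mul 2
  rw [mul_zero] at h1
  refine squeeze_zero (fun n => integral_nonneg fun z => sq_nonneg _) (fun n => ?_) h1
  have := hfin n
  rw [(hpot n).cost_eq, (hc n).1, (hc n).2]
  have h2 : ∫ y, ψn n y ∂(μ : Measure X) ≤ ∫ y, -φn n y ∂(μ : Measure X) := by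
    refine integral_mono (ot_integrable _ (hpot n).2.1) (ot_integrable _ (hpot n).1.neg) fun y => ?_
    have := (hpot n).2.2.1 y y
    rw [dist_self] at this
    simp only
    linarith
  rw [integral_neg] at h2
  linarith

end H13CD
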