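import Pool.Agent.Helper13.CD.Sobolev
import Pool.Agent.Helper13.CD.Aux13b
import Pool.Agent.Helper13.CD.TV
import Pool.Agent.Helper13.CD.OT

/-!
# Module S2: `L²`-compactness of functions of bounded energy (from `DI` and `tv_lemma`)

Proof.  `T t = t/(1+|t|)` is `1`-Lipschitz, `vn = T ∘ fn ∈ (-1,1)`, `lip vn ≤ lip fn`,
`un = 2+vn ∈ (1,3)`, `Zn = ∫ un^(-N) ∈ [3^(-N),1]`, `ρn = un^(-N)/Zn`, bounded above and below.
Subsequence: `Zn → Z`, `ρn m → μ` weakly, `μ = ρ m` with `ρ` between the same bounds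
(`exists_dens_of_le_le`; the inequalities pass to the weak limit).  `DI_crude` (mass one,
`u0 = Zn^(1/N) un`, `ρ1 = ρ`): optimal `Pn`,
`Ent ρ - Ent ρn ≤ p C ∫ lip fn (x) d dPn ≤ C' (∫ (lip fn)² dm)^(1/2) (cost Pn)^(1/2) → 0` by
`cost_tendsto_zero`.  `tv_lemma` gives `ρn → ρ` in `L¹(m)`; a further subsequence converges a.e.,
so `vn = (Zn ρn)^(-1/N) - 2 → v` a.e., `|v| ≤ 1`.  `fn = vn/(1-|vn|)`, Fatou for `1+|fn|`
shows `|v| < 1` a.e., so `fn → f = v/(1-|v|)` a.e. and `∫ f² ≤ C`.  `sobolev` for `fn²`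
(`lip (fn²) ≤ 2|fn| lip fn`) bounds `∫ (fn²)^(N/(N-1))`, hence uniform integrability.
-/

open MeasureTheory Set Filter Topology
open scoped ENNReal NNReal

namespace H13CD

section weaklimit
variable {Y : Type*} [MetricSpace Y] [MeasurableSpace Y] [BorelSpace Y]

/-- bounds between multiples of `m` pass to weak limits -/
theorem cs_weak_le {m : Measure Y} [IsFiniteMeasure m] {μn : ℕ → ProbabilityMeasure Y}
    {μ : ProbabilityMeasure Y} (ht : Tendsto μn atTop (𝓝 μ)) {C : ℝ}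
    (h : ∀ n, (μn n : Measure Y) ≤ ENNReal.ofReal C • m) :
    (μ : Measure Y) ≤ ENNReal.ofReal C • m := by
  refine Measure.le_iff.mpr fun A _ => ?_
  have hfin : IsFiniteMeasure (ENNReal.ofReal C • m) :=
    Measure.smul_finite m ENNReal.ofReal_ne_top
  rw [A.measure_eq_iInf_isOpen (ENNReal.ofReal C • m)]
  refine le_iInf₂ fun U hU => le_iInf fun hUo => ?_
  refine (measure_mono hU).trans ?_
  refine (ProbabilityMeasure.le_liminf_measure_open_of_tendsto ht hUo).trans ?_
  refine liminf_le_of_le (by isBoundedDefault) fun b hb => ?_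
  obtain ⟨n, hn⟩ := hb.exists
  exact hn.trans (h n U)

theorem cs_weak_ge {m : Measure Y} [IsFiniteMeasure m] {μn : ℕ → ProbabilityMeasure Y}
    {μ : ProbabilityMeasure Y} (ht : Tendsto μn atTop (𝓝 μ)) {c : ℝ}
    (h : ∀ n, ENNReal.ofReal c • m ≤ (μn n : Measure Y)) :
    ENNReal.ofReal c • m ≤ (μ : Measure Y) := by
  refine Measure.le_iff.mpr fun A hA => ?_
  have hfin : IsFiniteMeasure (ENNReal.ofReal c • m) :=
    Measure.smul_finite m ENNReal.ofReal_ne_top
  rw [hA.measure_eq_iSup_isClosed_of_ne_top (measure_ne_top (ENNReal.ofReal c • m) A)]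
  refine iSup₂_le fun F hF => iSup_le fun hFc => ?_
  refine le_trans ?_ (measure_mono hF)
  refine le_trans ?_ (ProbabilityMeasure.limsup_measure_closed_le_of_tendsto ht hFc)
  refine le_limsup_of_le (by isBoundedDefault) fun b hb => ?_
  obtain ⟨n, hn⟩ := hb.exists
  exact (h n F).trans hn

end weaklimit

section real
variable {Ω : Type*} [MeasurableSpace Ω] {μ : Measure Ω}

/-- Fatou for real integrals -/
theorem cs_fatou {gn : ℕ → Ω → ℝ} {g : Ω → ℝ} (hgm : Measurable g)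
    (hn0 : ∀ n x, 0 ≤ gn n x) (hni : ∀ n, Integrable (gn n) μ) {A : ℝ}
    (hA : ∀ n, ∫ x, gn n x ∂μ ≤ A) (hae : ∀ᵐ x ∂μ, Tendsto (fun n => gn n x) atTop (𝓝 (g x))) :
    Integrable g μ ∧ ∫ x, g x ∂μ ≤ A := by
  have hg0 : ∀ᵐ x ∂μ, 0 ≤ g x := by
    filter_upwards [hae] with x hx
    exact ge_of_tendsto' hx fun n => hn0 n x
  have hA0 : 0 ≤ A := (integral_nonneg (hn0 0)).trans (hA 0)
  have h1 : ∫⁻ x, ENNReal.ofReal (g x) ∂μ ≤ ENNReal.ofReal A := by
    have e1 : ∫⁻ x, ENNReal.ofReal (g x) ∂μ =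
        ∫⁻ x, liminf (fun n => ENNReal.ofReal (gn n x)) atTop ∂μ := by
      refine lintegral_congr_ae ?_
      filter_upwards [hae] with x hx
      exact ((ENNReal.tendsto_ofReal hx).liminf_eq).symm
    rw [e1]
    refine (lintegral_liminf_le' fun n =>
      (hni n).aestronglyMeasurable.aemeasurable.ennreal_ofReal).trans ?_
    refine liminf_le_of_le (by isBoundedDefault) fun b hb => ?_
    obtain ⟨n, hn⟩ := hb.exists
    refine hn.trans ?_
    rw [← ofReal_integral_eq_lintegral_ofReal (hni n) (ae_of_all _ (hn0 n))]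
    exact ENNReal.ofReal_le_ofReal (hA n)
  have hi : Integrable g μ := by
    refine ⟨hgm.aestronglyMeasurable, ?_⟩
    rw [hasFiniteIntegral_iff_ofReal hg0]
    exact h1.trans_lt ENNReal.ofReal_lt_top
  refine ⟨hi, ?_⟩
  rw [← ofReal_integral_eq_lintegral_ofReal hi hg0] at h1
  exact (ENNReal.ofReal_le_ofReal_iff hA0).mp h1

/-- a.e. convergence to zero and a bound for a higher moment give convergence of the integrals -/
theorem cs_vitali [IsFiniteMeasure μ] {hn : ℕ → Ω → ℝ} (hm : ∀ n, Measurable (hn n))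
    (h0 : ∀ n x, 0 ≤ hn n x) {q : ℝ} (hq : 1 < q) (hqi : ∀ n, Integrable (fun x => hn n x ^ q) μ)
    {A : ℝ} (hA : ∀ n, ∫ x, hn n x ^ q ∂μ ≤ A)
    (hae : ∀ᵐ x ∂μ, Tendsto (fun n => hn n x) atTop (𝓝 0)) :
    Tendsto (fun n => ∫ x, hn n x ∂μ) atTop (𝓝 0) := by
  rw [Metric.tendsto_atTop]
  intro ε hε
  have hA0 : 0 ≤ A := (integral_nonneg fun x => Real.rpow_nonneg (h0 0 x) q).trans (hA 0)
  -- choose R
  obtain ⟨R, hR0, hR⟩ : ∃ R : ℝ, 0 < R ∧ A / R ^ (q - 1) < ε / 2 := by
    have h1 : Tendsto (fun R : ℝ => A / R ^ (q - 1)) atTop (𝓝 0) :=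
      Tendsto.div_atTop tendsto_const_nhds (tendsto_rpow_atTop (by linarith))
    have h2 := (h1.eventually_lt_const (half_pos hε)).and (eventually_gt_atTop 0)
    obtain ⟨R, h3, h4⟩ := h2.exists
    exact ⟨R, h4, h3⟩
  -- truncated integrals
  have hmin : Tendsto (fun n => ∫ x, min (hn n x) R ∂μ) atTop (𝓝 (∫ _x, (0 : ℝ) ∂μ)) := by
    refine tendsto_integral_of_dominated_convergence (fun _ => R)
      (fun n => ((hm n).min measurable_const).aestronglyMeasurable) (integrable_const _)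
      (fun n => ae_of_all _ fun x => ?_) ?_
    · rw [Real.norm_eq_abs, abs_of_nonneg (le_min (h0 n x) hR0.le)]
      exact min_le_right _ _
    · filter_upwards [hae] with x hx
      have := hx.min (tendsto_const_nhds (x := R))
      rwa [min_eq_left hR0.le] at this
  rw [integral_zero] at hmin
  obtain ⟨n0, hn0⟩ := eventually_atTop.mp (hmin.eventually_lt_const (half_pos hε))
  refine ⟨n0, fun n hnn => ?_⟩
  have h1 := hn0 n hnn
  rw [Real.dist_eq, sub_zero, abs_of_nonneg (integral_nonneg (h0 n))]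
  have hi1 : Integrable (fun x => min (hn n x) R) μ := by
    refine Integrable.of_bound ((hm n).min measurable_const).aestronglyMeasurable R
      (ae_of_all _ fun x => ?_)
    rw [Real.norm_eq_abs, abs_of_nonneg (le_min (h0 n x) hR0.le)]
    exact min_le_right _ _
  have hRq : 0 < R ^ (q - 1) := Real.rpow_pos_of_pos hR0 _
  have hpt : ∀ x, hn n x ≤ min (hn n x) R + hn n x ^ q / R ^ (q - 1) := fun x => by
    have h2 : 0 ≤ hn n x ^ q / R ^ (q - 1) := div_nonneg (Real.rpow_nonneg (h0 n x) _) hRq.le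
    rcases le_total (hn n x) R with h | h
    · rw [min_eq_left h]
      linarith
    · have hpos : 0 < hn n x := hR0.trans_le h
      have h3 : hn n x ≤ hn n x ^ q / R ^ (q - 1) := by
        rw [le_div_iff₀ hRq]
        have h4 : R ^ (q - 1) ≤ hn n x ^ (q - 1) := Real.rpow_le_rpow hR0.le h (by linarith)
        have h5 : hn n x * hn n x ^ (q - 1) = hn n x ^ q := by
          have := Real.rpow_add hpos 1 (q - 1)
          rw [Real.rpow_one] at this
          rw [← this]
          congr 1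
          ring
        rw [← h5]
        exact mul_le_mul_of_nonneg_left h4 hpos.le
      have h6 : 0 ≤ min (hn n x) R := le_min hpos.le hR0.le
      linarith
  have h7 : ∫ x, hn n x ∂μ ≤ ∫ x, min (hn n x) R ∂μ + A / R ^ (q - 1) := by
    calc ∫ x, hn n x ∂μ ≤ ∫ x, (min (hn n x) R + hn n x ^ q / R ^ (q - 1)) ∂μ := by
          refine integral_mono_of_nonneg (ae_of_all _ (h0 n)) (hi1.add ((hqi n).div_const _))
            (ae_of_all _ hpt)
      _ = ∫ x, min (hn n x) R ∂μ + (∫ x, hn n x ^ q ∂μ) / R ^ (q - 1) := by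
          rw [integral_add hi1 ((hqi n).div_const _), integral_div]
      _ ≤ _ := by
          have := hA n
          gcongr
  linarith

end real

/-- the truncation `t/(1+|t|)` -/
noncomputable def csT (t : ℝ) : ℝ := t / (1 + |t|)

theorem csT_lip : LipschitzWith 1 csT := by
  refine LipschitzWith.of_dist_le_mul fun s t => ?_
  rw [NNReal.coe_one, one_mul, Real.dist_eq, Real.dist_eq]
  unfold csT
  have hs : 0 < 1 + |s| := by positivity
  have ht : 0 < 1 + |t| := by positivity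
  rw [div_sub_div _ _ hs.ne' ht.ne', abs_div, abs_of_pos (mul_pos hs ht),
    div_le_iff₀ (mul_pos hs ht)]
  rcases le_total 0 s with h1 | h1 <;> rcases le_total 0 t with h2 | h2
  · rw [abs_of_nonneg h1, abs_of_nonneg h2]
    have e : s * (1 + t) - (1 + s) * t = s - t := by ring
    rw [e]
    have : 1 ≤ (1 + s) * (1 + t) := by nlinarith [mul_nonneg h1 h2]
    nlinarith [abs_nonneg (s - t)]
  · rw [abs_of_nonneg h1, abs_of_nonpos h2, abs_of_nonneg (by linarith : 0 ≤ s - t)]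
    have e : s * (1 + -t) - (1 + s) * t = s - t - 2 * (s * t) := by ring
    have h3 : s * t ≤ 0 := mul_nonpos_of_nonneg_of_nonpos h1 h2
    rw [e, abs_of_nonneg (by linarith)]
    nlinarith [mul_nonneg h1 (neg_nonneg.mpr h2), sq_nonneg (s + t),
      mul_nonneg (mul_nonneg h1 (neg_nonneg.mpr h2)) (by linarith : 0 ≤ s - t), sq_nonneg (s - t)]
  · rw [abs_of_nonpos h1, abs_of_nonneg h2, abs_of_nonpos (by linarith : s - t ≤ 0)]
    have e : s * (1 + t) - (1 + -s) * t = s - t + 2 * (s * t) := by ring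
    have h3 : s * t ≤ 0 := mul_nonpos_of_nonpos_of_nonneg h1 h2
    rw [e, abs_of_nonpos (by linarith)]
    nlinarith [mul_nonneg (neg_nonneg.mpr h1) h2, sq_nonneg (s + t),
      mul_nonneg (mul_nonneg (neg_nonneg.mpr h1) h2) (by linarith : 0 ≤ -(s - t)),
      sq_nonneg (s - t)]
  · rw [abs_of_nonpos h1, abs_of_nonpos h2]
    have e : s * (1 + -t) - (1 + -s) * t = s - t := by ring
    rw [e]
    have : 1 ≤ (1 + -s) * (1 + -t) := by nlinarith [mul_nonneg (neg_nonneg.mpr h1) (neg_nonneg.mpr h2)]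
    nlinarith [abs_nonneg (s - t)]

theorem csT_abs (t : ℝ) : 1 - |csT t| = (1 + |t|)⁻¹ := by
  unfold csT
  have ht : 0 < 1 + |t| := by positivity
  rw [abs_div, abs_of_pos ht]
  field_simp
  ring

theorem csT_abs_lt (t : ℝ) : |csT t| < 1 := by
  have h1 := csT_abs t
  have h2 : 0 < (1 + |t|)⁻¹ := by positivity
  linarith

theorem csT_inv (t : ℝ) : csT t / (1 - |csT t|) = t := by
  rw [csT_abs]
  unfold csT
  have ht : 0 < 1 + |t| := by positivity
  field_simp

variable {X : Type*} [MetricSpace X] [CompactSpace X] [MeasurableSpace X] [BorelSpace X]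
  {m : Measure X} [IsProbabilityMeasure m]

/-- a.e. convergent subsequences for functions with values in `[1,3]` -/
theorem cs_unif {N : ℝ} (hN : 1 < N) (hcd : CDr m N) {un : ℕ → X → ℝ} {Kn : ℕ → ℝ≥0}
    (hL : ∀ n, LipschitzWith (Kn n) (un n)) (h1 : ∀ n x, 1 ≤ un n x) (h3 : ∀ n x, un n x ≤ 3)
    {C : ℝ} (he : ∀ n, ∫ x, lip (un n) x ^ 2 ∂m ≤ C) :
    ∃ (k : ℕ → ℕ) (u : X → ℝ), StrictMono k ∧ Measurable u ∧
      ∀ᵐ x ∂m, Tendsto (fun n => un (k n) x) atTop (𝓝 (u x)) := by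
  have hN0 : (0 : ℝ) < N := by linarith
  have hp := di_p_pos hN
  set c0 : ℝ := 3 ^ (-N) with hc0
  have hc00 : 0 < c0 := by positivity
  have hc01 : c0 ≤ 1 := Real.rpow_le_one_of_one_le_of_nonpos (by norm_num) (by linarith)
  have hupos : ∀ n x, 0 < un n x := fun n x => by linarith [h1 n x]
  have hpow_lo : ∀ n x, c0 ≤ un n x ^ (-N) := fun n x =>
    Real.rpow_le_rpow_of_nonpos (hupos n x) (h3 n x) (by linarith)
  have hpow_hi : ∀ n x, un n x ^ (-N) ≤ 1 := fun n x =>
    Real.rpow_le_one_of_one_le_of_nonpos (h1 n x) (by linarith)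
  have hpc : ∀ n, Continuous fun x => un n x ^ (-N) := fun n =>
    (hL n).continuous.rpow_const fun x => Or.inl (hupos n x).ne'
  have hpi : ∀ n, Integrable (fun x => un n x ^ (-N)) m := fun n => ot_integrable m (hpc n)
  obtain ⟨Z, hZ⟩ : ∃ Z : ℕ → ℝ, ∀ n, Z n = ∫ x, un n x ^ (-N) ∂m := ⟨_, fun _ => rfl⟩
  have hZlo : ∀ n, c0 ≤ Z n := fun n => by
    have := integral_mono (μ := m) (integrable_const c0) (hpi n) (hpow_lo n)
    rw [hZ]
    simpa using this
  have hZhi : ∀ n, Z n ≤ 1 := fun n => by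
    have := integral_mono (μ := m) (hpi n) (integrable_const 1) (hpow_hi n)
    rw [hZ]
    simpa using this
  have hZpos : ∀ n, 0 < Z n := fun n => hc00.trans_le (hZlo n)
  set C0 := c0⁻¹ with hC0
  have hC01 : 1 ≤ C0 := (one_le_inv₀ hc00).mpr hc01
  have hC00 : 0 < C0 := by linarith
  obtain ⟨ρn, hρn⟩ : ∃ ρn : ℕ → X → ℝ, ∀ n x, ρn n x = (Z n)⁻¹ * un n x ^ (-N) :=
    ⟨_, fun _ _ => rfl⟩
  have hρnm : ∀ n, Measurable (ρn n) := fun n => by
    rw [funext (hρn n)]
    exact ((hpc n).measurable).const_mul _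
  have hρlo : ∀ n x, c0 ≤ ρn n x := fun n x => by
    rw [hρn]
    have h4 : 1 ≤ (Z n)⁻¹ := (one_le_inv₀ (hZpos n)).mpr (hZhi n)
    nlinarith [hpow_lo n x]
  have hρhi : ∀ n x, ρn n x ≤ C0 := fun n x => by
    rw [hρn]
    have h4 : (Z n)⁻¹ ≤ C0 := inv_anti₀ hc00 (hZlo n)
    have h5 := hpow_hi n x
    have h6 : 0 ≤ un n x ^ (-N) := hc00.le.trans (hpow_lo n x)
    calc (Z n)⁻¹ * un n x ^ (-N) ≤ C0 * 1 := mul_le_mul h4 h5 h6 hC00.le
      _ = C0 := mul_one _
  have hρ0 : ∀ n x, 0 ≤ ρn n x := fun n x => hc00.le.trans (hρlo n x)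
  have hρi : ∀ n, Integrable (ρn n) m := fun n =>
    di_int (hρnm n) fun x => by rw [abs_of_nonneg (hρ0 n x)]; exact hρhi n x
  have hρ1 : ∀ n, ∫ x, ρn n x ∂m = 1 := fun n => by
    simp only [hρn]
    rw [integral_const_mul, ← hZ, inv_mul_cancel₀ (hZpos n).ne']
  have hprob : ∀ n, IsProbabilityMeasure (dens m (ρn n)) := fun n => by
    constructor
    rw [dens_univ (hρi n) (hρ0 n), hρ1, ENNReal.ofReal_one]
  -- first subsequence
  obtain ⟨μs, hμs⟩ : ∃ μs : ℕ → ProbabilityMeasure X, ∀ n, (μs n : Measure X) = dens m (ρn n) :=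
    ⟨fun n => ⟨dens m (ρn n), hprob n⟩, fun n => rfl⟩
  obtain ⟨μ, k1, hk1, hμ⟩ : ∃ (μ : ProbabilityMeasure X) (k1 : ℕ → ℕ), StrictMono k1 ∧
      Tendsto (μs ∘ k1) atTop (𝓝 μ) := CompactSpace.tendsto_subseq _
  obtain ⟨Z0, hZ0, k2, hk2, hZlim⟩ := (isCompact_Icc (a := c0) (b := (1 : ℝ))).tendsto_subseq
    (x := fun n => Z (k1 n)) fun n => ⟨hZlo _, hZhi _⟩
  have hZ0pos : 0 < Z0 := hc00.trans_le hZ0.1
  obtain ⟨k, hkdef⟩ : ∃ k : ℕ → ℕ, ∀ n, k n = k1 (k2 n) := ⟨_, fun _ => rfl⟩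
  have hk : StrictMono k := by
    rw [funext hkdef]
    exact hk1.comp hk2
  have hμ' : Tendsto (fun n => μs (k n)) atTop (𝓝 μ) := by
    have := hμ.comp hk2.tendsto_atTop
    refine this.congr fun n => ?_
    simp only [Function.comp_apply, hkdef]
  have hZ' : Tendsto (fun n => Z (k n)) atTop (𝓝 Z0) := by
    refine hZlim.congr fun n => ?_
    simp only [Function.comp_apply, hkdef]
  -- the limit density
  obtain ⟨ρ, hρm, hρc, hρC, hρμ⟩ := exists_dens_of_le_le (m := m) (μ := (μ : Measure X))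
    hc00.le (hc01.trans hC01)
    (cs_weak_le hμ' fun n => by rw [hμs]; exact dens_le (hρhi (k n)))
    (cs_weak_ge hμ' fun n => by
      rw [hμs]
      unfold dens
      rw [← withDensity_const]
      exact withDensity_mono (ae_of_all _ fun x => ENNReal.ofReal_le_ofReal (hρlo (k n) x)))
  have hρpos : ∀ x, 0 ≤ ρ x := fun x => hc00.le.trans (hρc x)
  have hρint : Integrable ρ m :=
    di_int hρm fun x => by rw [abs_of_nonneg (hρpos x)]; exact hρC x
  have hρone : ∫ x, ρ x ∂m = 1 := by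
    have e1 : (μ : Measure X) univ = 1 := measure_univ
    rw [hρμ, dens_univ hρint hρpos] at e1
    have := ENNReal.ofReal_eq_one.mp e1
    exact this
  -- the plans
  have hex : ∀ n, ∃ P : Measure (X × X), Cpl P (dens m (ρn (k n))) (dens m ρ) ∧ IsOpt P ∧
      Ent N m ρ - Ent N m (ρn (k n)) ≤
        (1 - 1 / N) * (√(C0 * C) * √(cost P)) := by
    intro n
    set j := k n with hj
    set s := (Z j) ^ (1 / N) with hs
    have hs0 : 0 < s := Real.rpow_pos_of_pos (hZpos j) _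
    have hs1 : s ≤ 1 := Real.rpow_le_one (hZpos j).le (hZhi j) (by positivity)
    have hsN : s ^ (-N) = (Z j)⁻¹ := by
      rw [hs, ← Real.rpow_mul (hZpos j).le]
      have : 1 / N * -N = -1 := by field_simp
      rw [this, Real.rpow_neg_one]
    have hu0 : LipschitzWith (‖s‖₊ * Kn j) fun x => s * un j x := by
      have := (lipschitzWith_smul s).comp (hL j)
      simpa [Function.comp_def, smul_eq_mul] using this
    have hpw : ∀ x, (s * un j x) ^ (-N) = ρn j x := fun x => by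
      rw [Real.mul_rpow hs0.le (hupos j x).le, hsN, hρn]
    obtain ⟨P, hP, hPo, hle⟩ := DI_crude hN hcd (u0 := fun x => s * un j x) (ρ1 := ρ) hu0 hρm
      (c := min s c0) (C := C0) (lt_min hs0 hc00)
      (fun x => (min_le_left _ _).trans (by nlinarith [h1 j x]))
      (fun x => ⟨(min_le_right _ _).trans (hρc x), hρC x⟩)
      (by simp only [hpw, hρ1, hρone])
    have e1 : (fun x => (s * un j x) ^ (-N)) = ρn j := funext hpw
    rw [e1] at hP hle
    refine ⟨P, hP, hPo, hle.trans ?_⟩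
    refine mul_le_mul_of_nonneg_left ?_ hp.le
    have hfd : IsFiniteMeasure (dens m (ρn j)) := isFiniteMeasure_dens (hρi j)
    have hfP : IsFiniteMeasure P := hP.isFiniteMeasure
    have hlm := measurable_lip (hL j)
    have hlb : ∀ x, |lip (un j) x| ≤ Kn j := fun x => by
      rw [abs_of_nonneg (lip_nonneg _ x)]; exact lip_le_const (hL j) x
    have hl2 : Integrable (fun x => lip (un j) x ^ 2) m :=
      di_int (B := (Kn j : ℝ) ^ 2) (hlm.pow_const 2) fun x => by
        rw [abs_pow]; exact pow_le_pow_left₀ (abs_nonneg _) (hlb x) 2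
    have hfst : P.map Prod.fst ≤ ENNReal.ofReal C0 • m := by
      rw [hP.1]; exact dens_le (hρhi j)
    obtain ⟨i1, i2⟩ := integral_fst_le hC00.le hfst hl2 fun x => sq_nonneg _
    have hdc : Continuous fun z : X × X => dist z.1 z.2 := continuous_fst.dist continuous_snd
    have hcs := cauchy_schwarz_abs (μ := P) (f := fun z : X × X => lip (un j) z.1)
      (g := fun z : X × X => dist z.1 z.2) (hlm.comp measurable_fst).aestronglyMeasurable
      hdc.aestronglyMeasurable i1 (ot_integrable P (hdc.pow 2))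
    have hlip1 : ∀ z : X × X, lip (fun x => s * un j x) z.1 * dist z.1 z.2 ≤
        |lip (un j) z.1 * dist z.1 z.2| := fun z => by
      rw [lip_const_mul (hL j), abs_of_pos hs0, abs_mul, abs_of_nonneg (lip_nonneg _ _),
        abs_of_nonneg (dist_nonneg (x := z.1) (y := z.2))]
      have h4 := lip_nonneg (un j) z.1
      have h5 : (0 : ℝ) ≤ dist z.1 z.2 := dist_nonneg
      have h6 : s * lip (un j) z.1 ≤ lip (un j) z.1 := by nlinarith
      exact mul_le_mul_of_nonneg_right h6 h5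
    obtain ⟨D, hD0, hD⟩ := di_exists_diam (X := X)
    have hii : Integrable (fun z : X × X => |lip (un j) z.1 * dist z.1 z.2|) P := by
      refine di_int (B := Kn j * D) ((hlm.comp measurable_fst).mul hdc.measurable).abs fun z => ?_
      rw [abs_abs, abs_mul, abs_of_nonneg (dist_nonneg (x := z.1) (y := z.2))]
      exact mul_le_mul (hlb _) (hD _ _) dist_nonneg (Kn j).2
    calc ∫ z, lip (fun x => s * un j x) z.1 * dist z.1 z.2 ∂P
        ≤ ∫ z, |lip (un j) z.1 * dist z.1 z.2| ∂P := by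
          refine integral_mono_of_nonneg (ae_of_all _ fun z =>
            mul_nonneg (lip_nonneg _ _) dist_nonneg) hii (ae_of_all _ hlip1)
      _ ≤ √(∫ z, lip (un j) z.1 ^ 2 ∂P) * √(∫ z, dist z.1 z.2 ^ 2 ∂P) := hcs
      _ ≤ √(C0 * C) * √(cost P) := by
          refine mul_le_mul (Real.sqrt_le_sqrt ?_) le_rfl (Real.sqrt_nonneg _) (Real.sqrt_nonneg _)
          exact i2.trans (mul_le_mul_of_nonneg_left (he j) hC00.le)
  choose P hPc hPo hPe using hex
  have hcost : Tendsto (fun n => cost (P n)) atTop (𝓝 0) := by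
    refine cost_tendsto_zero hμ' (fun n => ?_) hPo
    rw [hρμ, hμs]
    exact hPc n
  have herr : Tendsto (fun n => (1 - 1 / N) * (√(C0 * C) * √(cost (P n)))) atTop (𝓝 0) := by
    have := (hcost.sqrt.const_mul (√(C0 * C))).const_mul (1 - 1 / N)
    simpa using this
  -- total variation convergence
  have hweak : ∀ g : X → ℝ, Continuous g →
      Tendsto (fun n => ∫ x, g x * ρn (k n) x ∂m) atTop (𝓝 (∫ x, g x * ρ x ∂m)) := by
    intro g hg
    have h4 := (ProbabilityMeasure.tendsto_iff_forall_integral_tendsto.mp hμ')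
      (BoundedContinuousFunction.mkOfCompact ⟨_, hg⟩)
    simp only [BoundedContinuousFunction.mkOfCompact_apply, ContinuousMap.coe_mk, hμs] at h4
    rw [hρμ, integral_dens hρm hρpos] at h4
    have e1 : ∀ r : X → ℝ, ∫ x, r x * g x ∂m = ∫ x, g x * r x ∂m := fun r =>
      integral_congr_ae (ae_of_all _ fun x => mul_comm _ _)
    have e0 : ∀ n, ∫ x, g x ∂(dens m (ρn (k n))) = ∫ x, g x * ρn (k n) x ∂m := fun n => by
      rw [integral_dens (hρnm (k n)) (hρ0 (k n)), e1]
    rw [e1] at h4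
    exact h4.congr e0
  have htv := tv_lemma (m := m) hN hρm hc00 (fun x => ⟨hρc x, hρC x⟩) (fun n => hρnm (k n))
    (fun n => hρ0 (k n)) (fun n => hρi (k n)) hweak (by
      intro δ hδ
      filter_upwards [herr.eventually_lt_const hδ] with n hn
      have := hPe n
      linarith)
  -- a.e. convergent subsequence
  have hL2 : Tendsto (fun n => ∫ x, (ρn (k n) x - ρ x) ^ 2 ∂m) atTop (𝓝 0) := by
    have h4 : Tendsto (fun n => C0 * ∫ x, |ρn (k n) x - ρ x| ∂m) atTop (𝓝 0) := by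
      simpa using htv.const_mul C0
    refine squeeze_zero (fun n => integral_nonneg fun x => sq_nonneg _) (fun n => ?_) h4
    rw [← integral_const_mul]
    refine integral_mono_of_nonneg (ae_of_all _ fun x => sq_nonneg _)
      (((hρi (k n)).sub hρint).abs.const_mul _) (ae_of_all _ fun x => ?_)
    simp only
    rw [← sq_abs, sq]
    refine mul_le_mul_of_nonneg_right ?_ (abs_nonneg _)
    rw [abs_le]
    constructor
    · linarith [hρ0 (k n) x, hρC x]
    · linarith [hρhi (k n) x, hρpos x]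
  have hmem : ∀ r : X → ℝ, Measurable r → (∀ x, |r x| ≤ C0) → MemLp r 2 m := fun r hr hb =>
    memLp_two_of_sq hr.aestronglyMeasurable (di_int (B := C0 ^ 2) (hr.pow_const 2) fun x => by
      rw [abs_pow]; exact pow_le_pow_left₀ (abs_nonneg _) (hb x) 2)
  obtain ⟨k3, hk3, hae⟩ := exists_subseq_ae
    (fun n => hmem (ρn (k n)) (hρnm _) fun x => by rw [abs_of_nonneg (hρ0 _ x)]; exact hρhi _ x)
    (hmem ρ hρm fun x => by rw [abs_of_nonneg (hρpos x)]; exact hρC x) hL2
  refine ⟨fun n => k (k3 n), fun x => (Z0 * ρ x) ^ (-(1 / N)), hk.comp hk3,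
    (hρm.const_mul _).pow_const _, ?_⟩
  filter_upwards [hae] with x hx
  have h4 : ∀ n, un (k (k3 n)) x = (Z (k (k3 n)) * ρn (k (k3 n)) x) ^ (-(1 / N)) := fun n => by
    rw [hρn, ← mul_assoc, mul_inv_cancel₀ (hZpos _).ne', one_mul, di_pow_inv hN (hupos _ x)]
  simp only [h4]
  have h5 : Tendsto (fun n => Z (k (k3 n)) * ρn (k (k3 n)) x) atTop (𝓝 (Z0 * ρ x)) :=
    (hZ'.comp hk3.tendsto_atTop).mul hx
  exact h5.rpow_const (Or.inl (mul_pos hZ0pos (hc00.trans_le (hρc x))).ne')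

theorem cs_sq_lip {f : X → ℝ} {K : ℝ≥0} (hf : LipschitzWith K f) :
    ∃ K' : ℝ≥0, LipschitzWith K' fun x => f x ^ 2 := by
  obtain ⟨B, hB0, hB⟩ := di_exists_bound hf.continuous
  refine ⟨⟨2 * B, by positivity⟩ * K, LipschitzWith.of_dist_le_mul fun x y => ?_⟩
  have h1 := hf.dist_le_mul x y
  rw [Real.dist_eq] at h1 ⊢
  have e : f x ^ 2 - f y ^ 2 = (f x + f y) * (f x - f y) := by ring
  have h2 : |f x + f y| ≤ 2 * B := (abs_add_le _ _).trans (by linarith [hB x, hB y])
  rw [e, abs_mul]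
  calc |f x + f y| * |f x - f y| ≤ 2 * B * (K * dist x y) :=
        mul_le_mul h2 h1 (abs_nonneg _) (by positivity)
    _ = 2 * B * K * dist x y := by ring

theorem cs_moment {N : ℝ} (hN : 1 < N) (hcd : CDr m N) {f : X → ℝ} {K : ℝ≥0}
    (hf : LipschitzWith K f) {C D : ℝ} (hD0 : 0 ≤ D) (hD : ∀ x y : X, dist x y ≤ D)
    (h2 : ∫ x, f x ^ 2 ∂m ≤ C) (he : ∫ x, lip f x ^ 2 ∂m ≤ C) :
    ∫ x, (f x ^ 2) ^ (N / (N - 1)) ∂m ≤ (C + D / N * (2 * C)) ^ (N / (N - 1)) := by
  have hN0 : (0 : ℝ) < N := by linarith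
  have hN1 : (0 : ℝ) < N - 1 := by linarith
  obtain ⟨K', hK'⟩ := cs_sq_lip hf
  have hs := sobolev hN hcd hK' (fun x => sq_nonneg _) hD
  have hlm := measurable_lip hf
  have hl2 : Integrable (fun x => lip f x ^ 2) m :=
    di_int (B := (K : ℝ) ^ 2) (hlm.pow_const 2) fun x => by
      rw [abs_pow, abs_of_nonneg (lip_nonneg f x)]
      exact pow_le_pow_left₀ (lip_nonneg f x) (lip_le_const hf x) 2
  have hf2 : Integrable (fun x => f x ^ 2) m := ot_integrable m (hf.continuous.pow 2)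
  have h3 : ∫ x, lip (fun y => f y ^ 2) x ∂m ≤ 2 * C := by
    have h4 : ∀ x, lip (fun y => f y ^ 2) x ≤ f x ^ 2 + lip f x ^ 2 := fun x => by
      have h5 := lip_mul_le hf hf x
      have e : (fun y => f y ^ 2) = fun y => f y * f y := by
        funext y
        ring
      rw [e]
      have h6 : f x ^ 2 = |f x| ^ 2 := (sq_abs _).symm
      rw [h6]
      nlinarith [sq_nonneg (|f x| - lip f x)]
    have h5 := integral_mono_of_nonneg (μ := m) (ae_of_all _ fun x => lip_nonneg (fun y => f y ^ 2) x)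
      (hf2.add hl2) (ae_of_all _ h4)
    have e5 : ∫ x, (f x ^ 2 + lip f x ^ 2) ∂m = ∫ x, f x ^ 2 ∂m + ∫ x, lip f x ^ 2 ∂m :=
      integral_add hf2 hl2
    have h6 : ∫ x, lip (fun y => f y ^ 2) x ∂m ≤ ∫ x, (f x ^ 2 + lip f x ^ 2) ∂m := h5
    linarith
  have h4 : D / N * ∫ x, lip (fun y => f y ^ 2) x ∂m ≤ D / N * (2 * C) := by
    have : 0 ≤ D / N := by positivity
    gcongr
  have h5 : (∫ x, (f x ^ 2) ^ (N / (N - 1)) ∂m) ^ (1 - 1 / N) ≤ C + D / N * (2 * C) := by
    linarith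
  have h6 : 0 ≤ ∫ x, (f x ^ 2) ^ (N / (N - 1)) ∂m := integral_nonneg fun x => by positivity
  have h7 := Real.rpow_le_rpow (Real.rpow_nonneg h6 _) h5 (by positivity : 0 ≤ N / (N - 1))
  rw [← Real.rpow_mul h6] at h7
  have h8 : (1 - 1 / N) * (N / (N - 1)) = 1 := by field_simp
  rwa [h8, Real.rpow_one] at h7

theorem compact_seq {N : ℝ} (hN : 1 < N) (hcd : CDr m N) {fn : ℕ → X → ℝ}
    (hL : ∀ n, ∃ K, LipschitzWith K (fn n)) {C : ℝ} (h2 : ∀ n, ∫ x, fn n x ^ 2 ∂m ≤ C)
    (he : ∀ n, ∫ x, lip (fn n) x ^ 2 ∂m ≤ C) :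
    ∃ (φ : ℕ → ℕ) (f : X → ℝ), StrictMono φ ∧ Measurable f ∧ MemLp f 2 m ∧
      Tendsto (fun n => ∫ x, (fn (φ n) x - f x) ^ 2 ∂m) atTop (𝓝 0) := by
  have hN0 : (0 : ℝ) < N := by linarith
  have hN1 : (0 : ℝ) < N - 1 := by linarith
  choose K hK using hL
  have hfc : ∀ n, Continuous (fn n) := fun n => (hK n).continuous
  -- bounded functions
  have hLu : ∀ n, LipschitzWith (K n) fun x => csT (fn n x) + 2 := fun n => by
    refine LipschitzWith.of_dist_le_mul fun x y => ?_
    have h3 := csT_lip.dist_le_mul (fn n x) (fn n y)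
    have h4 := (hK n).dist_le_mul x y
    rw [NNReal.coe_one, one_mul] at h3
    rw [Real.dist_eq] at h3 ⊢
    have e : csT (fn n x) + 2 - (csT (fn n y) + 2) = csT (fn n x) - csT (fn n y) := by ring
    rw [e]
    exact h3.trans h4
  have hlu : ∀ n x, lip (fun y => csT (fn n y) + 2) x ≤ lip (fn n) x := fun n x => by
    rw [lip_add_const]
    exact lip_comp_one (hK n) csT_lip x
  have hl2 : ∀ n, Integrable (fun x => lip (fn n) x ^ 2) m := fun n =>
    di_int (B := (K n : ℝ) ^ 2) ((measurable_lip (hK n)).pow_const 2) fun x => by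
      rw [abs_pow, abs_of_nonneg (lip_nonneg _ x)]
      exact pow_le_pow_left₀ (lip_nonneg _ x) (lip_le_const (hK n) x) 2
  have hf2 : ∀ n, Integrable (fun x => fn n x ^ 2) m := fun n =>
    ot_integrable m ((hfc n).pow 2)
  obtain ⟨k, u, hk, hum, hae⟩ := cs_unif (m := m) hN hcd hLu
    (fun n x => by linarith [(abs_lt.mp (csT_abs_lt (fn n x))).1])
    (fun n x => by linarith [(abs_lt.mp (csT_abs_lt (fn n x))).2]) (C := C)
    (fun n => by
      refine le_trans (integral_mono_of_nonneg (ae_of_all _ fun x => sq_nonneg _) (hl2 n)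
        (ae_of_all _ fun x => ?_)) (he n)
      exact pow_le_pow_left₀ (lip_nonneg _ x) (hlu n x) 2)
  -- the limit of `csT (fn x)`
  set v : X → ℝ := fun x => u x - 2 with hv
  have hvm : Measurable v := hum.sub_const 2
  have hvae : ∀ᵐ x ∂m, Tendsto (fun n => csT (fn (k n) x)) atTop (𝓝 (v x)) := by
    filter_upwards [hae] with x hx
    have := hx.sub_const 2
    simpa using this
  -- `|v| < 1` a.e.
  have hv1 : ∀ᵐ x ∂m, |v x| < 1 := by
    have hgi : ∀ n, Integrable (fun x => 1 + |fn (k n) x|) m := fun n =>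
      ot_integrable m (continuous_const.add (hfc (k n)).abs)
    have hgb : ∀ n, ∫ x, (1 + |fn (k n) x|) ∂m ≤ 2 + C := fun n => by
      have h3 : ∀ x, 1 + |fn (k n) x| ≤ 2 + fn (k n) x ^ 2 := fun x => by
        rw [← sq_abs]
        nlinarith [sq_nonneg (|fn (k n) x| - 1), abs_nonneg (fn (k n) x)]
      have h4 := integral_mono (hgi n) ((integrable_const (2 : ℝ)).add (hf2 (k n))) h3
      have e4 : ∫ x, ((2 : ℝ) + fn (k n) x ^ 2) ∂m = 2 + ∫ x, fn (k n) x ^ 2 ∂m := by
        rw [integral_add (integrable_const _) (hf2 (k n))]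
        simp
      have h5 : ∫ x, (1 + |fn (k n) x|) ∂m ≤ ∫ x, ((2 : ℝ) + fn (k n) x ^ 2) ∂m := h4
      linarith [h2 (k n)]
    have hfat : ∫⁻ x, (ENNReal.ofReal (1 - |v x|))⁻¹ ∂m ≤ ENNReal.ofReal (2 + C) := by
      have e1 : ∫⁻ x, (ENNReal.ofReal (1 - |v x|))⁻¹ ∂m =
          ∫⁻ x, liminf (fun n => ENNReal.ofReal (1 + |fn (k n) x|)) atTop ∂m := by
        refine lintegral_congr_ae ?_
        filter_upwards [hvae] with x hx
        have h3 : Tendsto (fun n => (ENNReal.ofReal (1 - |csT (fn (k n) x)|))⁻¹) atTop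
            (𝓝 (ENNReal.ofReal (1 - |v x|))⁻¹) := by
          refine tendsto_inv_iff.mpr ?_
          exact ENNReal.tendsto_ofReal (hx.abs.const_sub 1)
        have h4 : ∀ n, (ENNReal.ofReal (1 - |csT (fn (k n) x)|))⁻¹ =
            ENNReal.ofReal (1 + |fn (k n) x|) := fun n => by
          rw [csT_abs, ENNReal.ofReal_inv_of_pos (by positivity), inv_inv]
        simp only [h4] at h3
        exact h3.liminf_eq.symm
      rw [e1]
      refine (lintegral_liminf_le' fun n =>
        (hgi n).aestronglyMeasurable.aemeasurable.ennreal_ofReal).trans ?_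
      refine liminf_le_of_le (by isBoundedDefault) fun b hb => ?_
      obtain ⟨n, hn⟩ := hb.exists
      refine hn.trans ?_
      rw [← ofReal_integral_eq_lintegral_ofReal (hgi n) (ae_of_all _ fun x => by positivity)]
      exact ENNReal.ofReal_le_ofReal (hgb n)
    have hmeas : Measurable fun x => (ENNReal.ofReal (1 - |v x|))⁻¹ :=
      ((measurable_const.sub (hvm.abs)).ennreal_ofReal).inv
    filter_upwards [ae_lt_top hmeas (hfat.trans_lt ENNReal.ofReal_lt_top).ne] with x hx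
    have h3 : ENNReal.ofReal (1 - |v x|) ≠ 0 := fun h => by
      rw [h, ENNReal.inv_zero] at hx
      exact lt_irrefl _ hx
    have h4 : 0 < 1 - |v x| := by
      by_contra h
      exact h3 (ENNReal.ofReal_eq_zero.mpr (not_lt.mp h))
    linarith
  -- the limit function
  set f : X → ℝ := fun x => v x / (1 - |v x|) with hf
  have hfm : Measurable f := hvm.div (measurable_const.sub hvm.abs)
  have hfae : ∀ᵐ x ∂m, Tendsto (fun n => fn (k n) x) atTop (𝓝 (f x)) := by
    filter_upwards [hvae, hv1] with x hx hx1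
    have h3 : Tendsto (fun n => csT (fn (k n) x) / (1 - |csT (fn (k n) x)|)) atTop
        (𝓝 (v x / (1 - |v x|))) := hx.div (hx.abs.const_sub 1) (by linarith)
    simpa only [csT_inv] using h3
  -- square integrability of the limit
  have hfsq := cs_fatou (μ := m) (gn := fun n x => fn (k n) x ^ 2) (g := fun x => f x ^ 2)
    (hfm.pow_const 2) (fun n x => sq_nonneg _) (fun n => hf2 (k n)) (fun n => h2 (k n)) (by
      filter_upwards [hfae] with x hx
      exact hx.pow 2)
  have hfmem : MemLp f 2 m := memLp_two_of_sq hfm.aestronglyMeasurable hfsq.1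
  -- higher moments
  obtain ⟨D, hD0, hD⟩ := di_exists_diam (X := X)
  set q := N / (N - 1) with hq
  have hq1 : 1 < q := by
    rw [hq, one_lt_div hN1]
    linarith
  have hq0 : 0 < q := by linarith
  set A := (C + D / N * (2 * C)) ^ q with hA
  have hmom : ∀ n, ∫ x, (fn n x ^ 2) ^ q ∂m ≤ A := fun n =>
    cs_moment hN hcd (hK n) hD0.le hD (h2 n) (he n)
  have hmi : ∀ n, Integrable (fun x => (fn n x ^ 2) ^ q) m := fun n =>
    ot_integrable m (((hfc n).pow 2).rpow_const fun x => Or.inr hq0.le)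
  have hfq := cs_fatou (μ := m) (gn := fun n x => (fn (k n) x ^ 2) ^ q)
    (g := fun x => (f x ^ 2) ^ q) ((hfm.pow_const 2).pow_const q)
    (fun n x => by positivity) (fun n => hmi (k n)) (fun n => hmom (k n)) (by
      filter_upwards [hfae] with x hx
      exact (hx.pow 2).rpow_const (Or.inr hq0.le))
  have hpt : ∀ a b : ℝ, ((a - b) ^ 2) ^ q ≤ 4 ^ q * ((a ^ 2) ^ q + (b ^ 2) ^ q) := fun a b => by
    have h3 : 0 ≤ (a ^ 2) ^ q := by positivity
    have h4 : 0 ≤ (b ^ 2) ^ q := by positivity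
    have h5 : (0 : ℝ) ≤ 4 ^ q := by positivity
    rcases le_total (a ^ 2) (b ^ 2) with h | h
    · have h6 : (a - b) ^ 2 ≤ 4 * b ^ 2 := by nlinarith [sq_nonneg (a + b)]
      calc ((a - b) ^ 2) ^ q ≤ (4 * b ^ 2) ^ q := Real.rpow_le_rpow (sq_nonneg _) h6 hq0.le
        _ = 4 ^ q * (b ^ 2) ^ q := Real.mul_rpow (by norm_num) (sq_nonneg _)
        _ ≤ _ := by nlinarith
    · have h6 : (a - b) ^ 2 ≤ 4 * a ^ 2 := by nlinarith [sq_nonneg (a + b)]
      calc ((a - b) ^ 2) ^ q ≤ (4 * a ^ 2) ^ q := Real.rpow_le_rpow (sq_nonneg _) h6 hq0.le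
        _ = 4 ^ q * (a ^ 2) ^ q := Real.mul_rpow (by norm_num) (sq_nonneg _)
        _ ≤ _ := by nlinarith
  have hdm : ∀ n, Measurable fun x => (fn (k n) x - f x) ^ 2 := fun n =>
    ((hfc (k n)).measurable.sub hfm).pow_const 2
  have hsumi : ∀ n, Integrable (fun x => 4 ^ q * ((fn (k n) x ^ 2) ^ q + (f x ^ 2) ^ q)) m :=
    fun n => ((hmi (k n)).add hfq.1).const_mul _
  have hdq : ∀ n, Integrable (fun x => ((fn (k n) x - f x) ^ 2) ^ q) m := fun n => by
    refine (hsumi n).mono' ((hdm n).pow_const q).aestronglyMeasurable (ae_of_all _ fun x => ?_)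
    rw [Real.norm_eq_abs, abs_of_nonneg (by positivity)]
    exact hpt _ _
  refine ⟨k, f, hk, hfm, hfmem, ?_⟩
  refine cs_vitali (hn := fun n x => (fn (k n) x - f x) ^ 2) (A := 4 ^ q * (A + A)) hdm
    (fun n x => sq_nonneg _) hq1 hdq (fun n => ?_) ?_
  · have h3 := integral_mono (hdq n) (hsumi n) fun x => hpt (fn (k n) x) (f x)
    have h4 : ∫ x, 4 ^ q * ((fn (k n) x ^ 2) ^ q + (f x ^ 2) ^ q) ∂m ≤ 4 ^ q * (A + A) := by
      rw [integral_const_mul, integral_add (hmi (k n)) hfq.1]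
      have h5 : (0 : ℝ) ≤ 4 ^ q := by positivity
      have h6 := hmom (k n)
      have h7 := hfq.2
      gcongr
    exact h3.trans h4
  · filter_upwards [hfae] with x hx
    have := (hx.sub_const (f x)).pow 2
    simpa using this

end H13CD
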