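import Pool.Agent.Helper13.CD.Brenier

/-!
# Module E: infinitesimal displacement inequality, Lipschitz case

`p = 1-1/N`, `u0` Lipschitz, `ρ0 = u0^(-N)`, `u1 = ρ1^(-1/N)`.

Proof of `DI_lip` (first for mass one).  Let `P` be the plan of `CDr`, `a = d(x,y) < π` a.e., and
`α` from `metric_brenier`.  For `t ∈ (0,1/2)` small:
* `Ent ρt ≥ ∫ (τ_{1-t}(a) u0(x) + τ_t(a) u1(y)) dP
     ≥ ∫ [(1-t)(1+t(1-2t)R2 a) u0(x) + t(1-t²a²/6) R1 a u1(y)] dP` (`tau_ge`, `tau_one_sub_ge`).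
* concavity `r^p ≤ ρ0^p + p ρ0^(p-1)(r-ρ0)`, `ρ0^(p-1) = u0`:
  `Ent ρt - Ent ρ0 ≤ p (∫ u0 ρt - ∫ u0 ρ0) = p ∫ (u0(xt)-u0(x0)) dσ`, `σ` from `glue_geod`; if
  `t D < r`: `≤ p ∫ Sr r u0 (x0) · t d(x0,x1) dσ = p t ∫ (Sr r u0)·α·ρ0 dm
    = p t ∫ Sr r u0 (x) d(x,y) dP` (`metric_brenier` for both optimal plans).
* `Ent ρ0 = ∫ u0(x) dP`.  Subtract, divide by `t`, let `t → 0` (everything bounded):
  `∫ [R1 a u1(y) + (R2 a - 1) u0(x)] dP ≤ p ∫ Sr r u0 (x) d dP`, then `r → 0` (dominated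
  convergence, `tendsto_Sr`).
General mass `M = ∫ρ0 = ∫ρ1`: apply to `ρi/M`, `u0 M^(1/N)`, and multiply by `M^(1-1/N)`.
-/

open MeasureTheory Set Filter Topology
open scoped ENNReal NNReal

namespace H13CD

theorem di_continuous_R1 (N : ℝ) : Continuous (R1 N) := by
  unfold R1
  fun_prop

theorem di_continuous_R2 (N : ℝ) : Continuous (R2 N) := by
  unfold R2
  fun_prop

theorem di_p_pos {N : ℝ} (hN : 1 < N) : 0 < 1 - 1 / N := by
  have : 1 / N < 1 := by
    rw [div_lt_one (by linarith)]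
    exact hN
  linarith

theorem di_one_le_R1 {N : ℝ} (hN : 1 < N) (a : ℝ) : 1 ≤ R1 N a := by
  have hp := di_p_pos hN
  unfold R1
  have h1 : 0 ≤ (1 - 1 / N) / 6 * a ^ 2 := by positivity
  have h2 : 0 ≤ ((1 - 1 / N) / 180 + (1 - 1 / N) ^ 2 / 72) * a ^ 4 := by positivity
  linarith

theorem di_R2_nonneg {N : ℝ} (hN : 1 < N) (a : ℝ) : 0 ≤ R2 N a := by
  have hp := di_p_pos hN
  unfold R2
  positivity

/-- concavity of the power function, in terms of `u = ρ0^(-1/N)` -/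
theorem di_concave {N : ℝ} (hN : 1 < N) {u r : ℝ} (hu : 0 < u) (hr : 0 ≤ r) :
    r ^ (1 - 1 / N) ≤ u ^ (1 - N) + (1 - 1 / N) * (u * (r - u ^ (-N))) := by
  have hp := di_p_pos hN
  have hN0 : (0 : ℝ) < N := by linarith
  have hp1 : 1 - 1 / N ≤ 1 := by
    have : 0 < 1 / N := by positivity
    linarith
  have h1 : (1 + (r * u ^ N - 1)) ^ (1 - 1 / N) ≤ 1 + (1 - 1 / N) * (r * u ^ N - 1) := by
    refine rpow_one_add_le_one_add_mul_self ?_ hp.le hp1
    have : 0 ≤ r * u ^ N := by positivity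
    linarith
  have h2 : (1 + (r * u ^ N - 1)) ^ (1 - 1 / N) = r ^ (1 - 1 / N) * u ^ (N - 1) := by
    have e : 1 + (r * u ^ N - 1) = r * u ^ N := by ring
    rw [e, Real.mul_rpow hr (by positivity), ← Real.rpow_mul hu.le]
    congr 2
    field_simp
  rw [h2] at h1
  have h3 : u ^ (N - 1) * u ^ (1 - N) = 1 := by
    rw [← Real.rpow_add hu]
    have : N - 1 + (1 - N) = 0 := by ring
    rw [this, Real.rpow_zero]
  have h4 : u ^ N * u ^ (1 - N) = u := by
    rw [← Real.rpow_add hu]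
    have : N + (1 - N) = 1 := by ring
    rw [this, Real.rpow_one]
  have h5 : u * u ^ (-N) = u ^ (1 - N) := by
    have := Real.rpow_add hu 1 (-N)
    rw [Real.rpow_one] at this
    rw [← this]
    congr 1
  have h6 : 0 < u ^ (1 - N) := by positivity
  have h7 := mul_le_mul_of_nonneg_right h1 h6.le
  calc r ^ (1 - 1 / N) = r ^ (1 - 1 / N) * u ^ (N - 1) * u ^ (1 - N) := by
        rw [mul_assoc, h3, mul_one]
    _ ≤ (1 + (1 - 1 / N) * (r * u ^ N - 1)) * u ^ (1 - N) := h7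
    _ = u ^ (1 - N) + (1 - 1 / N) * (r * (u ^ N * u ^ (1 - N)) - u ^ (1 - N)) := by ring
    _ = u ^ (1 - N) + (1 - 1 / N) * (r * u - u * u ^ (-N)) := by rw [h4, h5]
    _ = u ^ (1 - N) + (1 - 1 / N) * (u * (r - u ^ (-N))) := by ring

theorem di_pow_p {N u : ℝ} (hN : 1 < N) (hu : 0 < u) :
    (u ^ (-N)) ^ (1 - 1 / N) = u ^ (1 - N) := by
  have hN0 : (0 : ℝ) < N := by linarith
  rw [← Real.rpow_mul hu.le]
  congr 1
  field_simp
  ring

theorem di_pow_mul {N u : ℝ} (hu : 0 < u) : u ^ (-N) * u = u ^ (1 - N) := by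
  have := Real.rpow_add hu (-N) 1
  rw [Real.rpow_one] at this
  rw [← this]
  congr 1
  ring

theorem di_pow_inv {N u : ℝ} (hN : 1 < N) (hu : 0 < u) : (u ^ (-N)) ^ (-(1 / N)) = u := by
  have hN0 : (0 : ℝ) < N := by linarith
  rw [← Real.rpow_mul hu.le]
  have : -N * -(1 / N) = 1 := by field_simp
  rw [this, Real.rpow_one]

variable {X : Type*} [MetricSpace X] [CompactSpace X] [MeasurableSpace X] [BorelSpace X]

theorem di_exists_bound {u : X → ℝ} (hu : Continuous u) : ∃ B : ℝ, 0 < B ∧ ∀ x, |u x| ≤ B := by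
  obtain ⟨B, hB⟩ := (isCompact_univ (X := X)).exists_bound_of_continuousOn hu.continuousOn
  refine ⟨max B 1, by positivity, fun x => ?_⟩
  have := hB x (mem_univ _)
  rw [Real.norm_eq_abs] at this
  exact this.trans (le_max_left _ _)

theorem di_exists_diam : ∃ D : ℝ, 0 < D ∧ ∀ x y : X, dist x y ≤ D := by
  obtain ⟨D, hD⟩ := Metric.isBounded_iff.mp (isCompact_univ (X := X)).isBounded
  exact ⟨max D 1, by positivity, fun x y => (hD (mem_univ x) (mem_univ y)).trans (le_max_left _ _)⟩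

theorem di_int {Y : Type*} [MeasurableSpace Y] {P : Measure Y} [IsFiniteMeasure P] {F : Y → ℝ}
    (hF : Measurable F) {B : ℝ} (hB : ∀ z, |F z| ≤ B) : Integrable F P :=
  Integrable.of_bound hF.aestronglyMeasurable B
    (ae_of_all _ fun z => by rw [Real.norm_eq_abs]; exact hB z)

theorem di_finite_of_map {Y Z : Type*} [MeasurableSpace Y] [MeasurableSpace Z] {P : Measure Y}
    {f : Y → Z} (hf : Measurable f) [IsFiniteMeasure (P.map f)] : IsFiniteMeasure P := by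
  constructor
  have h1 : P.map f univ = P univ := by
    rw [Measure.map_apply hf MeasurableSet.univ, preimage_univ]
  rw [← h1]
  exact measure_lt_top _ _

variable {m : Measure X} [IsProbabilityMeasure m]

/-- upper bound for the entropy of the intermediate measure -/
theorem di_upper {N : ℝ} (hN : 1 < N) {u0 : X → ℝ} {K : ℝ≥0}
    (hu0 : LipschitzWith K u0) {c : ℝ} (hc : 0 < c)
    (h0 : ∀ x, c ≤ u0 x) {ρ1 : X → ℝ} {P : Measure (X × X)}
    (hP : Cpl P (dens m fun x => u0 x ^ (-N)) (dens m ρ1)) (hPo : IsOpt P)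
    {α : X → ℝ} (hα : Measurable α)
    (hbr : ∀ P : Measure (X × X), Cpl P (dens m fun x => u0 x ^ (-N)) (dens m ρ1) → IsOpt P →
        ∀ᵐ z ∂P, dist z.1 z.2 = α z.1)
    {t : ℝ} (ht : t ∈ Ioo (0 : ℝ) 1) {D r : ℝ} (hD : ∀ x y : X, dist x y ≤ D) (hr : t * D < r)
    {ρt : X → ℝ} (htm : Measurable ρt) (ht0 : ∀ x, 0 ≤ ρt x) (hti : Integrable ρt m)
    {P0 P1 : Measure (X × X)} (hP0 : Cpl P0 (dens m fun x => u0 x ^ (-N)) (dens m ρt))
    (hP1 : Cpl P1 (dens m ρt) (dens m ρ1)) (hc0 : cost P0 = t ^ 2 * cost P)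
    (hc1 : cost P1 = (1 - t) ^ 2 * cost P) :
    Ent N m ρt ≤ Ent N m (fun x => u0 x ^ (-N)) +
      (1 - 1 / N) * (t * ∫ z, Sr r u0 z.1 * dist z.1 z.2 ∂P) := by
  have hp := di_p_pos hN
  have hupos : ∀ x, 0 < u0 x := fun x => hc.trans_le (h0 x)
  obtain ⟨B, hB0, hB⟩ := di_exists_bound hu0.continuous
  have hum : Measurable u0 := hu0.continuous.measurable
  have hρ0m : Measurable fun x => u0 x ^ (-N) := hum.pow_const _
  have hρ0p : ∀ x, 0 ≤ u0 x ^ (-N) := fun x => by have := hupos x; positivity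
  have hρ0c : Continuous fun x => u0 x ^ (-N) :=
    hu0.continuous.rpow_const fun x => Or.inl (hupos x).ne'
  obtain ⟨B0, hB00, hB0'⟩ := di_exists_bound hρ0c
  have hρ1c : Continuous fun x => u0 x ^ (1 - N) :=
    hu0.continuous.rpow_const fun x => Or.inl (hupos x).ne'
  obtain ⟨B1, hB10, hB1'⟩ := di_exists_bound hρ1c
  have hi0 : Integrable (fun x => u0 x ^ (-N)) m := di_int hρ0m hB0'
  have hi1 : Integrable (fun x => u0 x ^ (1 - N)) m := di_int (hum.pow_const _) hB1'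
  have hut : Integrable (fun x => u0 x * ρt x) m := by
    refine hti.bdd_mul (c := B) hum.aestronglyMeasurable (ae_of_all _ fun x => ?_)
    rw [Real.norm_eq_abs]
    exact hB x
  have hu00 : Integrable (fun x => u0 x * u0 x ^ (-N)) m := by
    refine hi0.bdd_mul (c := B) hum.aestronglyMeasurable (ae_of_all _ fun x => ?_)
    rw [Real.norm_eq_abs]
    exact hB x
  -- entropy comparison
  have s1 : Ent N m ρt ≤ Ent N m (fun x => u0 x ^ (-N)) +
      (1 - 1 / N) * (∫ x, u0 x * ρt x ∂m - ∫ x, u0 x * u0 x ^ (-N) ∂m) := by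
    have e1 : Ent N m (fun x => u0 x ^ (-N)) = ∫ x, u0 x ^ (1 - N) ∂m := by
      unfold Ent
      exact integral_congr_ae (ae_of_all _ fun x => di_pow_p hN (hupos x))
    have e2 : ∫ x, u0 x ^ (1 - N) ∂m +
        (1 - 1 / N) * (∫ x, u0 x * ρt x ∂m - ∫ x, u0 x * u0 x ^ (-N) ∂m) =
        ∫ x, (u0 x ^ (1 - N) + (1 - 1 / N) * (u0 x * ρt x - u0 x * u0 x ^ (-N))) ∂m := by
      rw [← integral_sub hut hu00, ← integral_const_mul]
      exact (integral_add hi1 ((hut.sub hu00).const_mul _)).symm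
    rw [e1, e2]
    unfold Ent
    refine integral_mono_of_nonneg (ae_of_all _ fun x => ?_)
      (hi1.add ((hut.sub hu00).const_mul _)) (ae_of_all _ fun x => ?_)
    · exact Real.rpow_nonneg (ht0 x) _
    · have := di_concave hN (hupos x) (ht0 x)
      simp only
      rw [mul_sub] at this
      exact this
  -- glue
  have hf0 : IsFiniteMeasure (dens m fun x => u0 x ^ (-N)) := isFiniteMeasure_dens hi0
  have hft : IsFiniteMeasure (dens m ρt) := isFiniteMeasure_dens hti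
  obtain ⟨σ, g1, g2, g3, g4, g5, g6⟩ := glue_geod ht hP hPo hP0 hP1 hc0.le hc1.le
  have m1 : Measurable fun z : X × X × X => (z.1, z.2.2) :=
    measurable_fst.prodMk (measurable_snd.comp measurable_snd)
  have m2 : Measurable fun z : X × X × X => (z.1, z.2.1) :=
    measurable_fst.prodMk (measurable_fst.comp measurable_snd)
  have hfP : IsFiniteMeasure P := hP.isFiniteMeasure
  have hfP0 : IsFiniteMeasure P0 := hP0.isFiniteMeasure
  have hfσ : IsFiniteMeasure σ := by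
    have : IsFiniteMeasure (σ.map fun z => (z.1, z.2.1)) := by rw [g1]; exact hfP0
    exact di_finite_of_map m2
  have hD0 : ∀ x y : X, |dist x y| ≤ D := fun x y => by
    rw [abs_of_nonneg dist_nonneg]; exact hD x y
  have hSm := measurable_Sr hu0 r
  have hSb : ∀ x, |Sr r u0 x| ≤ K := fun x => by
    rw [abs_of_nonneg (Sr_nonneg _ _ _)]; exact Sr_le hu0 r x
  have hDnn : ∀ _x : X, 0 ≤ D := fun x => dist_nonneg.trans (hD x x)
  have hdm : Measurable fun z : X × X => dist z.1 z.2 :=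
    (continuous_fst.dist continuous_snd).measurable
  -- the difference of integrals
  have d1 : ∫ x, u0 x * ρt x ∂m = ∫ z, u0 z.2.1 ∂σ := by
    have a1 : ∫ z, u0 z.2 ∂P0 = ∫ x, ρt x * u0 x ∂m := by
      rw [hP0.integral_snd hum.aestronglyMeasurable, integral_dens htm ht0]
    have a2 : ∫ z, u0 z.2 ∂P0 = ∫ z, u0 z.2.1 ∂σ := by
      rw [← g1, integral_map m2.aemeasurable]
      exact (hum.comp measurable_snd).aestronglyMeasurable
    rw [← a2, a1]
    exact integral_congr_ae (ae_of_all _ fun x => mul_comm _ _)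
  have d2 : ∫ x, u0 x * u0 x ^ (-N) ∂m = ∫ z, u0 z.1 ∂σ := by
    have a1 : ∫ z, u0 z.1 ∂P0 = ∫ x, u0 x ^ (-N) * u0 x ∂m := by
      rw [hP0.integral_fst hum.aestronglyMeasurable, integral_dens hρ0m hρ0p]
    have a2 : ∫ z, u0 z.1 ∂P0 = ∫ z, u0 z.1 ∂σ := by
      rw [← g1, integral_map m2.aemeasurable]
      exact (hum.comp measurable_fst).aestronglyMeasurable
    rw [← a2, a1]
    exact integral_congr_ae (ae_of_all _ fun x => mul_comm _ _)
  have i1 : Integrable (fun z : X × X × X => u0 z.2.1) σ :=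
    di_int (hum.comp (measurable_fst.comp measurable_snd)) fun z => hB _
  have i2 : Integrable (fun z : X × X × X => u0 z.1) σ :=
    di_int (hum.comp measurable_fst) fun z => hB _
  have hSdm : Measurable fun z : X × X => Sr r u0 z.1 * dist z.1 z.2 :=
    (hSm.comp measurable_fst).mul hdm
  have hSdb : ∀ z : X × X, |Sr r u0 z.1 * dist z.1 z.2| ≤ K * D := fun z => by
    rw [abs_mul]
    exact mul_le_mul (hSb _) (hD0 _ _) (abs_nonneg _) K.2
  have i3 : Integrable (fun z : X × X × X => Sr r u0 z.1 * dist z.1 z.2.2) σ :=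
    di_int (hSdm.comp m1) fun z => hSdb (z.1, z.2.2)
  have d3 : ∫ z, u0 z.2.1 ∂σ - ∫ z, u0 z.1 ∂σ ≤
      t * ∫ z, Sr r u0 z.1 * dist z.1 z.2.2 ∂σ := by
    rw [← integral_sub i1 i2, ← integral_const_mul]
    refine integral_mono_ae (i1.sub i2) (i3.const_mul _) ?_
    filter_upwards [g6] with z hz
    have h1 : dist z.2.1 z.1 < r := by
      rw [dist_comm, hz.1]
      exact (mul_le_mul_of_nonneg_left (hD _ _) ht.1.le).trans_lt hr
    have h2 := (le_abs_self _).trans (abs_sub_le_Sr hu0 h1)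
    rw [dist_comm z.2.1 z.1, hz.1] at h2
    linarith
  -- transfer
  have hae : ∀ Q : Measure (X × X), Cpl Q (dens m fun x => u0 x ^ (-N)) (dens m ρ1) → IsOpt Q →
      ∫ z, Sr r u0 z.1 * dist z.1 z.2 ∂Q = ∫ x, Sr r u0 x * α x ∂(dens m fun x => u0 x ^ (-N)) := by
    intro Q hQ hQo
    rw [← hQ.integral_fst (g := fun x => Sr r u0 x * α x) (hSm.mul hα).aestronglyMeasurable]
    refine integral_congr_ae ?_
    filter_upwards [hbr Q hQ hQo] with z hz
    rw [hz]
  have d4 : ∫ z, Sr r u0 z.1 * dist z.1 z.2.2 ∂σ = ∫ z, Sr r u0 z.1 * dist z.1 z.2 ∂P := by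
    rw [hae P hP hPo, ← hae _ g3 g4, integral_map m1.aemeasurable]
    exact hSdm.aestronglyMeasurable
  rw [d1, d2] at s1
  rw [d4] at d3
  refine s1.trans ?_
  gcongr

/-- mass one, fixed `r` -/
theorem di_one_r {N : ℝ} (hN : 1 < N) (hcd : CDr m N) {u0 ρ1 : X → ℝ} {K : ℝ≥0}
    (hu0 : LipschitzWith K u0) (h1m : Measurable ρ1) {c C : ℝ} (hc : 0 < c)
    (h0 : ∀ x, c ≤ u0 x) (h1 : ∀ x, c ≤ ρ1 x ∧ ρ1 x ≤ C)
    (hm0 : ∫ x, u0 x ^ (-N) ∂m = 1) (hm1 : ∫ x, ρ1 x ∂m = 1) :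
    ∃ P : Measure (X × X), Cpl P (dens m fun x => u0 x ^ (-N)) (dens m ρ1) ∧ IsOpt P ∧
      ∀ r > 0,
      ∫ z, (R1 N (dist z.1 z.2) * ρ1 z.2 ^ (-(1 / N)) + (R2 N (dist z.1 z.2) - 1) * u0 z.1) ∂P
        ≤ (1 - 1 / N) * ∫ z, Sr r u0 z.1 * dist z.1 z.2 ∂P := by
  have hp := di_p_pos hN
  have hN0 : (0 : ℝ) < N := by linarith
  have hupos : ∀ x, 0 < u0 x := fun x => hc.trans_le (h0 x)
  obtain ⟨B, hB0, hB⟩ := di_exists_bound hu0.continuous
  obtain ⟨D, hD0, hD⟩ := di_exists_diam (X := X)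
  have hum : Measurable u0 := hu0.continuous.measurable
  have hρ0m : Measurable fun x => u0 x ^ (-N) := hum.pow_const _
  have hρ0p : ∀ x, 0 ≤ u0 x ^ (-N) := fun x => by have := hupos x; positivity
  have hρ0c : Continuous fun x => u0 x ^ (-N) :=
    hu0.continuous.rpow_const fun x => Or.inl (hupos x).ne'
  obtain ⟨B0, hB00, hB0'⟩ := di_exists_bound hρ0c
  have hi0 : Integrable (fun x => u0 x ^ (-N)) m := di_int hρ0m hB0'
  have h1p : ∀ x, 0 < ρ1 x := fun x => hc.trans_le (h1 x).1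
  have hu1m : Measurable fun x => ρ1 x ^ (-(1 / N)) := h1m.pow_const _
  have hu1p : ∀ x, 0 ≤ ρ1 x ^ (-(1 / N)) := fun x => by have := h1p x; positivity
  have hu1b : ∀ x, ρ1 x ^ (-(1 / N)) ≤ c ^ (-(1 / N)) := fun x => by
    refine Real.rpow_le_rpow_of_nonpos hc (h1 x).1 ?_
    have : 0 < 1 / N := by positivity
    linarith
  obtain ⟨P, hP, hPo, hpi, ht⟩ := hcd.cd (fun x => u0 x ^ (-N)) ρ1 hρ0m h1m hρ0p
    (fun x => (h1p x).le) ⟨B0, fun x => (le_abs_self _).trans (hB0' x)⟩ ⟨C, fun x => (h1 x).2⟩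
    hm0 hm1
  refine ⟨P, hP, hPo, fun r hr => ?_⟩
  have hf0 : IsFiniteMeasure (dens m fun x => u0 x ^ (-N)) := isFiniteMeasure_dens hi0
  have hfP : IsFiniteMeasure P := hP.isFiniteMeasure
  -- Brenier
  obtain ⟨α, hα, -, -, hbr⟩ := metric_brenier hN hcd hρ0m h1m (c := B ^ (-N)) (C := max B0 C)
    (by positivity) (fun x => ⟨by
      refine Real.rpow_le_rpow_of_nonpos (hupos x) ?_ (by linarith)
      exact (le_abs_self _).trans (hB x), (le_abs_self _).trans ((hB0' x).trans (le_max_left _ _))⟩)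
    (fun x => ⟨(h1p x).le, (h1 x).2.trans (le_max_right _ _)⟩) (by rw [hm0, hm1])
  -- measurability and bounds
  have hdm : Measurable fun z : X × X => dist z.1 z.2 :=
    (continuous_fst.dist continuous_snd).measurable
  have hR1m : Measurable fun z : X × X => R1 N (dist z.1 z.2) :=
    (di_continuous_R1 N).measurable.comp hdm
  have hR2m : Measurable fun z : X × X => R2 N (dist z.1 z.2) :=
    (di_continuous_R2 N).measurable.comp hdm
  obtain ⟨C1, hC10, hC1⟩ := di_exists_bound (X := X × X) (u := fun z => R1 N (dist z.1 z.2))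
    ((di_continuous_R1 N).comp (continuous_fst.dist continuous_snd))
  obtain ⟨C2, hC20, hC2⟩ := di_exists_bound (X := X × X) (u := fun z => R2 N (dist z.1 z.2))
    ((di_continuous_R2 N).comp (continuous_fst.dist continuous_snd))
  have hu1b' : ∀ x, |ρ1 x ^ (-(1 / N))| ≤ c ^ (-(1 / N)) := fun x => by
    rw [abs_of_nonneg (hu1p x)]; exact hu1b x
  have j1 : Integrable (fun z : X × X => R1 N (dist z.1 z.2) * ρ1 z.2 ^ (-(1 / N))) P := by
    refine di_int (B := C1 * c ^ (-(1 / N))) (hR1m.mul (hu1m.comp measurable_snd)) fun z => ?_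
    rw [abs_mul]
    exact mul_le_mul (hC1 z) (hu1b' _) (abs_nonneg _) hC10.le
  have j2 : Integrable (fun z : X × X => R2 N (dist z.1 z.2) * u0 z.1) P := by
    refine di_int (B := C2 * B) (hR2m.mul (hum.comp measurable_fst)) fun z => ?_
    rw [abs_mul]
    exact mul_le_mul (hC2 z) (hB _) (abs_nonneg _) hC20.le
  have j3 : Integrable (fun z : X × X => u0 z.1) P :=
    di_int (hum.comp measurable_fst) fun z => hB _
  have j4 : Integrable (fun z : X × X => dist z.1 z.2 ^ 2 / 6 *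
      (R1 N (dist z.1 z.2) * ρ1 z.2 ^ (-(1 / N)))) P := by
    refine di_int (B := D ^ 2 / 6 * (C1 * c ^ (-(1 / N))))
      (((hdm.pow_const 2).div_const 6).mul (hR1m.mul (hu1m.comp measurable_snd))) fun z => ?_
    rw [abs_mul, abs_mul]
    have : |dist z.1 z.2 ^ 2 / 6| ≤ D ^ 2 / 6 := by
      rw [abs_of_nonneg (by positivity)]
      have := hD z.1 z.2
      gcongr
    exact mul_le_mul this (mul_le_mul (hC1 z) (hu1b' _) (abs_nonneg _) hC10.le) (by positivity)
      (by positivity)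
  set A := ∫ z, (R1 N (dist z.1 z.2) * ρ1 z.2 ^ (-(1 / N)) + (R2 N (dist z.1 z.2) - 1) * u0 z.1) ∂P
    with hA
  set Bq := ∫ z, R2 N (dist z.1 z.2) * u0 z.1 ∂P with hBq
  set E := ∫ z, dist z.1 z.2 ^ 2 / 6 * (R1 N (dist z.1 z.2) * ρ1 z.2 ^ (-(1 / N))) ∂P with hE
  set U := ∫ z, u0 z.1 ∂P with hU
  set S := ∫ z, Sr r u0 z.1 * dist z.1 z.2 ∂P with hS
  have jA : Integrable (fun z : X × X => R1 N (dist z.1 z.2) * ρ1 z.2 ^ (-(1 / N)) +
      (R2 N (dist z.1 z.2) - 1) * u0 z.1) P := by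
    have : (fun z : X × X => R1 N (dist z.1 z.2) * ρ1 z.2 ^ (-(1 / N)) +
      (R2 N (dist z.1 z.2) - 1) * u0 z.1) = fun z : X × X =>
      R1 N (dist z.1 z.2) * ρ1 z.2 ^ (-(1 / N)) + (R2 N (dist z.1 z.2) * u0 z.1 - u0 z.1) := by
      funext z; ring
    rw [this]
    exact j1.add (j2.sub j3)
  have hUE : Ent N m (fun x => u0 x ^ (-N)) = U := by
    rw [hU, hP.integral_fst hum.aestronglyMeasurable, integral_dens hρ0m hρ0p]
    unfold Ent
    refine integral_congr_ae (ae_of_all _ fun x => ?_)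
    simp only
    rw [di_pow_p hN (hupos x), di_pow_mul (hupos x)]
  -- the inequality for small `t`
  have key : ∀ t ∈ Ioo (0 : ℝ) (1 / 2), t * D < r →
      A - 3 * t * Bq + 2 * t ^ 2 * Bq - t ^ 2 * E ≤ (1 - 1 / N) * S := by
    intro t htt htr
    have ht1 : t ∈ Ioo (0 : ℝ) 1 := ⟨htt.1, by linarith [htt.2]⟩
    obtain ⟨ρt, htm, ht0, hti, -, ⟨P0, P1, hP0, hP1, hc0, hc1⟩, hint, hle⟩ := ht t ht1
    have hup := di_upper hN hu0 hc h0 hP hPo hα hbr ht1 hD htr htm ht0 hti hP0 hP1 hc0 hc1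
    rw [hUE] at hup
    have e1 : U + t * (A - 3 * t * Bq + 2 * t ^ 2 * Bq - t ^ 2 * E) =
        ∫ z, (u0 z.1 + t * ((R1 N (dist z.1 z.2) * ρ1 z.2 ^ (-(1 / N)) +
          (R2 N (dist z.1 z.2) - 1) * u0 z.1) + (2 * t ^ 2 - 3 * t) *
          (R2 N (dist z.1 z.2) * u0 z.1) - t ^ 2 * (dist z.1 z.2 ^ 2 / 6 *
          (R1 N (dist z.1 z.2) * ρ1 z.2 ^ (-(1 / N)))))) ∂P := by
      have k1 := j2.const_mul (2 * t ^ 2 - 3 * t)
      have k2 := j4.const_mul (t ^ 2)
      have k3 := (jA.add k1)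
      have k4 := k3.sub k2
      have l1 : ∫ z, (R1 N (dist z.1 z.2) * ρ1 z.2 ^ (-(1 / N)) +
          (R2 N (dist z.1 z.2) - 1) * u0 z.1 + (2 * t ^ 2 - 3 * t) *
          (R2 N (dist z.1 z.2) * u0 z.1)) ∂P = A + (2 * t ^ 2 - 3 * t) * Bq := by
        rw [integral_add jA k1, integral_const_mul]
      have l2 : ∫ z, (R1 N (dist z.1 z.2) * ρ1 z.2 ^ (-(1 / N)) +
          (R2 N (dist z.1 z.2) - 1) * u0 z.1 + (2 * t ^ 2 - 3 * t) *
          (R2 N (dist z.1 z.2) * u0 z.1) - t ^ 2 * (dist z.1 z.2 ^ 2 / 6 *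
          (R1 N (dist z.1 z.2) * ρ1 z.2 ^ (-(1 / N))))) ∂P =
          A + (2 * t ^ 2 - 3 * t) * Bq - t ^ 2 * E := by
        rw [← l1, hE, ← integral_const_mul]
        exact integral_sub k3 k2
      have l3 : ∫ z, (u0 z.1 + t * ((R1 N (dist z.1 z.2) * ρ1 z.2 ^ (-(1 / N)) +
          (R2 N (dist z.1 z.2) - 1) * u0 z.1) + (2 * t ^ 2 - 3 * t) *
          (R2 N (dist z.1 z.2) * u0 z.1) - t ^ 2 * (dist z.1 z.2 ^ 2 / 6 *
          (R1 N (dist z.1 z.2) * ρ1 z.2 ^ (-(1 / N)))))) ∂P =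
          U + t * (A + (2 * t ^ 2 - 3 * t) * Bq - t ^ 2 * E) := by
        rw [← l2, ← integral_const_mul]
        exact integral_add j3 (k4.const_mul t)
      rw [l3]
      ring
    have low : U + t * (A - 3 * t * Bq + 2 * t ^ 2 * Bq - t ^ 2 * E) ≤ Ent N m ρt := by
      rw [e1]
      refine le_trans (integral_mono_ae ?_ hint ?_) hle
      · exact j3.add ((((jA.add (j2.const_mul (2 * t ^ 2 - 3 * t))).sub
          (j4.const_mul (t ^ 2)))).const_mul t)
      · filter_upwards [hpi] with z hz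
        have q1 := tau_ge hN htt dist_nonneg hz
        have q2 := tau_one_sub_ge hN htt dist_nonneg hz
        rw [di_pow_inv hN (hupos _)]
        have q3 := mul_le_mul_of_nonneg_right q1 (hu1p z.2)
        have q4 := mul_le_mul_of_nonneg_right q2 (hupos z.1).le
        nlinarith [q3, q4]
    have hfin := low.trans hup
    have h3 : t * (A - 3 * t * Bq + 2 * t ^ 2 * Bq - t ^ 2 * E) ≤ t * ((1 - 1 / N) * S) := by
      rw [hS]
      linarith
    exact le_of_mul_le_mul_left h3 htt.1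
  -- let `t → 0`
  have hlim : Tendsto (fun t : ℝ => A - 3 * t * Bq + 2 * t ^ 2 * Bq - t ^ 2 * E) (𝓝[>] 0)
      (𝓝 A) := by
    have hcont : Continuous fun t : ℝ => A - 3 * t * Bq + 2 * t ^ 2 * Bq - t ^ 2 * E := by
      fun_prop
    have := hcont.tendsto 0
    simp only [mul_zero, zero_mul, ne_eq, OfNat.ofNat_ne_zero, not_false_eq_true, zero_pow,
      sub_zero, add_zero] at this
    exact this.mono_left nhdsWithin_le_nhds
  refine le_of_tendsto hlim ?_
  have f1 : ∀ᶠ t in 𝓝[>] (0 : ℝ), t ∈ Ioo (0 : ℝ) (1 / 2) := Ioo_mem_nhdsGT (by norm_num)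
  have f2 : ∀ᶠ t in 𝓝[>] (0 : ℝ), t * D < r := by
    have : Tendsto (fun t : ℝ => t * D) (𝓝 0) (𝓝 (0 * D)) := (continuous_mul_const D).tendsto 0
    rw [zero_mul] at this
    exact (this.mono_left nhdsWithin_le_nhds).eventually_lt_const hr
  filter_upwards [f1, f2] with t h1 h2
  exact key t h1 h2

/-- mass one -/
theorem di_one {N : ℝ} (hN : 1 < N) (hcd : CDr m N) {u0 ρ1 : X → ℝ} {K : ℝ≥0}
    (hu0 : LipschitzWith K u0) (h1m : Measurable ρ1) {c C : ℝ} (hc : 0 < c)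
    (h0 : ∀ x, c ≤ u0 x) (h1 : ∀ x, c ≤ ρ1 x ∧ ρ1 x ≤ C)
    (hm0 : ∫ x, u0 x ^ (-N) ∂m = 1) (hm1 : ∫ x, ρ1 x ∂m = 1) :
    ∃ P : Measure (X × X), Cpl P (dens m fun x => u0 x ^ (-N)) (dens m ρ1) ∧ IsOpt P ∧
      ∫ z, (R1 N (dist z.1 z.2) * ρ1 z.2 ^ (-(1 / N)) + (R2 N (dist z.1 z.2) - 1) * u0 z.1) ∂P
        ≤ (1 - 1 / N) * ∫ z, lip u0 z.1 * dist z.1 z.2 ∂P := by
  obtain ⟨P, hP, hPo, hr⟩ := di_one_r hN hcd hu0 h1m hc h0 h1 hm0 hm1
  refine ⟨P, hP, hPo, ?_⟩
  obtain ⟨D, hD0, hD⟩ := di_exists_diam (X := X)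
  have hupos : ∀ x, 0 < u0 x := fun x => hc.trans_le (h0 x)
  have hρ0c : Continuous fun x => u0 x ^ (-N) :=
    hu0.continuous.rpow_const fun x => Or.inl (hupos x).ne'
  obtain ⟨B0, hB00, hB0'⟩ := di_exists_bound hρ0c
  have hi0 : Integrable (fun x => u0 x ^ (-N)) m := di_int hρ0c.measurable hB0'
  have hf0 : IsFiniteMeasure (dens m fun x => u0 x ^ (-N)) := isFiniteMeasure_dens hi0
  have hfP : IsFiniteMeasure P := hP.isFiniteMeasure
  have hdm : Measurable fun z : X × X => dist z.1 z.2 :=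
    (continuous_fst.dist continuous_snd).measurable
  have hlim : Tendsto (fun n : ℕ => ∫ z, Sr (1 / ((n : ℝ) + 1)) u0 z.1 * dist z.1 z.2 ∂P) atTop
      (𝓝 (∫ z, lip u0 z.1 * dist z.1 z.2 ∂P)) := by
    refine tendsto_integral_of_dominated_convergence (fun _ => (K : ℝ) * D) (fun n => ?_)
      (integrable_const _) (fun n => ae_of_all _ fun z => ?_) (ae_of_all _ fun z => ?_)
    · exact (((measurable_Sr hu0 _).comp measurable_fst).mul hdm).aestronglyMeasurable
    · rw [Real.norm_eq_abs, abs_mul, abs_of_nonneg (Sr_nonneg _ _ _), abs_of_nonneg dist_nonneg]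
      exact mul_le_mul (Sr_le hu0 _ _) (hD _ _) dist_nonneg K.2
    · exact (tendsto_Sr hu0 (fun n => by positivity) tendsto_one_div_add_atTop_nhds_zero_nat
        z.1).mul_const _
  refine ge_of_tendsto' (hlim.const_mul (1 - 1 / N)) fun n => ?_
  exact hr _ (by positivity)

theorem di_cost_smul {P : Measure (X × X)} {M : ℝ} (hM : 0 ≤ M) :
    cost (ENNReal.ofReal M • P) = M * cost P := by
  unfold cost
  rw [integral_smul_measure, ENNReal.toReal_ofReal hM, smul_eq_mul]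

theorem di_smul_smul {Y : Type*} [MeasurableSpace Y] {P : Measure Y} {M : ℝ} (hM : 0 < M) :
    ENNReal.ofReal M⁻¹ • (ENNReal.ofReal M • P) = P := by
  rw [smul_smul, ← ENNReal.ofReal_mul (by positivity), inv_mul_cancel₀ hM.ne', ENNReal.ofReal_one,
    one_smul]

theorem di_isOpt_smul {P : Measure (X × X)} (hP : IsOpt P) {M : ℝ} (hM : 0 < M) :
    IsOpt (ENNReal.ofReal M • P) := by
  intro Q h1 h2
  have a1 : (ENNReal.ofReal M⁻¹ • Q).map Prod.fst = P.map Prod.fst := by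
    rw [Measure.map_smul, h1, Measure.map_smul, di_smul_smul hM]
  have a2 : (ENNReal.ofReal M⁻¹ • Q).map Prod.snd = P.map Prod.snd := by
    rw [Measure.map_smul, h2, Measure.map_smul, di_smul_smul hM]
  have h3 := hP _ a1 a2
  rw [di_cost_smul (by positivity)] at h3
  rw [di_cost_smul hM.le]
  calc M * cost P ≤ M * (M⁻¹ * cost Q) := mul_le_mul_of_nonneg_left h3 hM.le
    _ = cost Q := by rw [← mul_assoc, mul_inv_cancel₀ hM.ne', one_mul]

theorem di_dens_smul {ρ : X → ℝ} {M : ℝ} (hM : 0 ≤ M) :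
    dens m (fun x => M * ρ x) = ENNReal.ofReal M • dens m ρ := by
  unfold dens
  rw [← withDensity_smul']
  · congr 1
    funext x
    simp only [Pi.smul_apply, smul_eq_mul]
    rw [ENNReal.ofReal_mul hM]
  · exact ENNReal.ofReal_ne_top

theorem DI_lip {N : ℝ} (hN : 1 < N) (hcd : CDr m N) {u0 ρ1 : X → ℝ} {K : ℝ≥0}
    (hu0 : LipschitzWith K u0) (h1m : Measurable ρ1) {c C : ℝ} (hc : 0 < c)
    (h0 : ∀ x, c ≤ u0 x) (h1 : ∀ x, c ≤ ρ1 x ∧ ρ1 x ≤ C)
    (hmass : ∫ x, u0 x ^ (-N) ∂m = ∫ x, ρ1 x ∂m) :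
    ∃ P : Measure (X × X), Cpl P (dens m fun x => u0 x ^ (-N)) (dens m ρ1) ∧ IsOpt P ∧
      ∫ z, (R1 N (dist z.1 z.2) * ρ1 z.2 ^ (-(1 / N)) + (R2 N (dist z.1 z.2) - 1) * u0 z.1) ∂P
        ≤ (1 - 1 / N) * ∫ z, lip u0 z.1 * dist z.1 z.2 ∂P := by
  have hN0 : (0 : ℝ) < N := by linarith
  have hupos : ∀ x, 0 < u0 x := fun x => hc.trans_le (h0 x)
  have h1p : ∀ x, 0 < ρ1 x := fun x => hc.trans_le (h1 x).1
  set M := ∫ x, ρ1 x ∂m with hMdef
  have h1i : Integrable ρ1 m := di_int (B := C) h1m fun x => by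
    rw [abs_of_pos (h1p x)]; exact (h1 x).2
  have hM : 0 < M := by
    have : c ≤ M := by
      have := integral_mono (μ := m) (integrable_const c) h1i fun x => (h1 x).1
      simpa using this
    linarith
  set s := M ^ (1 / N) with hs
  have hs0 : 0 < s := by positivity
  have hsN : s ^ (-N) = M⁻¹ := by
    rw [hs, ← Real.rpow_mul hM.le]
    have : 1 / N * -N = -1 := by field_simp
    rw [this, Real.rpow_neg_one]
  -- rescaled data
  have hu0' : LipschitzWith (‖s‖₊ * K) fun x => s * u0 x := by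
    have := (lipschitzWith_smul s).comp hu0
    simpa [Function.comp_def, smul_eq_mul] using this
  have hpow : ∀ x, (s * u0 x) ^ (-N) = M⁻¹ * u0 x ^ (-N) := fun x => by
    rw [Real.mul_rpow hs0.le (hupos x).le, hsN]
  have hρ1 : ∀ x, (M⁻¹ * ρ1 x) ^ (-(1 / N)) = s * ρ1 x ^ (-(1 / N)) := fun x => by
    rw [Real.mul_rpow (by positivity) (h1p x).le, hs, ← Real.rpow_neg_one,
      ← Real.rpow_mul hM.le]
    congr 2
    ring
  obtain ⟨Q, hQ, hQo, hle⟩ := di_one (m := m) hN hcd (u0 := fun x => s * u0 x)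
    (ρ1 := fun x => M⁻¹ * ρ1 x) (c := min (s * c) (M⁻¹ * c)) (C := M⁻¹ * C) hu0'
    (h1m.const_mul _) (by positivity)
    (fun x => (min_le_left _ _).trans (mul_le_mul_of_nonneg_left (h0 x) hs0.le))
    (fun x => ⟨(min_le_right _ _).trans (mul_le_mul_of_nonneg_left (h1 x).1 (by positivity)),
      mul_le_mul_of_nonneg_left (h1 x).2 (by positivity)⟩)
    (by
      simp only [hpow]
      rw [integral_const_mul, hmass, inv_mul_cancel₀ hM.ne'])
    (by
      rw [integral_const_mul, ← hMdef, inv_mul_cancel₀ hM.ne'])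
  have hid : ∀ ρ : X → ℝ, ENNReal.ofReal M • dens m (fun x => M⁻¹ * ρ x) = dens m ρ := by
    intro ρ
    rw [← di_dens_smul hM.le]
    congr 1
    funext x
    rw [← mul_assoc, mul_inv_cancel₀ hM.ne', one_mul]
  have e1 : (fun x => (s * u0 x) ^ (-N)) = fun x => M⁻¹ * u0 x ^ (-N) := funext hpow
  rw [e1] at hQ
  refine ⟨ENNReal.ofReal M • Q, ⟨?_, ?_⟩, di_isOpt_smul hQo hM, ?_⟩
  · rw [Measure.map_smul, hQ.1, hid]
  · rw [Measure.map_smul, hQ.2, hid]
  · rw [integral_smul_measure, integral_smul_measure, ENNReal.toReal_ofReal hM.le, smul_eq_mul,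
      smul_eq_mul]
    have e2 : ∫ z, (R1 N (dist z.1 z.2) * (M⁻¹ * ρ1 z.2) ^ (-(1 / N)) +
        (R2 N (dist z.1 z.2) - 1) * (s * u0 z.1)) ∂Q =
        s * ∫ z, (R1 N (dist z.1 z.2) * ρ1 z.2 ^ (-(1 / N)) +
          (R2 N (dist z.1 z.2) - 1) * u0 z.1) ∂Q := by
      rw [← integral_const_mul]
      refine integral_congr_ae (ae_of_all _ fun z => ?_)
      simp only
      rw [hρ1]
      ring
    have e3 : ∫ z, lip (fun x => s * u0 x) z.1 * dist z.1 z.2 ∂Q =
        s * ∫ z, lip u0 z.1 * dist z.1 z.2 ∂Q := by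
      rw [← integral_const_mul]
      refine integral_congr_ae (ae_of_all _ fun z => ?_)
      simp only
      rw [lip_const_mul hu0, abs_of_pos hs0]
      ring
    rw [e2, e3] at hle
    have h3 : ∫ z, (R1 N (dist z.1 z.2) * ρ1 z.2 ^ (-(1 / N)) +
          (R2 N (dist z.1 z.2) - 1) * u0 z.1) ∂Q ≤
        (1 - 1 / N) * ∫ z, lip u0 z.1 * dist z.1 z.2 ∂Q := by
      refine le_of_mul_le_mul_left ?_ hs0
      linarith
    have := mul_le_mul_of_nonneg_left h3 hM.le
    linarith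

/-- The crude form: `Ent ρ1 - Ent ρ0 ≤ p ∫ lip u0 d dP` -/
theorem DI_crude {N : ℝ} (hN : 1 < N) (hcd : CDr m N) {u0 ρ1 : X → ℝ} {K : ℝ≥0}
    (hu0 : LipschitzWith K u0) (h1m : Measurable ρ1) {c C : ℝ} (hc : 0 < c)
    (h0 : ∀ x, c ≤ u0 x) (h1 : ∀ x, c ≤ ρ1 x ∧ ρ1 x ≤ C)
    (hmass : ∫ x, u0 x ^ (-N) ∂m = ∫ x, ρ1 x ∂m) :
    ∃ P : Measure (X × X), Cpl P (dens m fun x => u0 x ^ (-N)) (dens m ρ1) ∧ IsOpt P ∧
      Ent N m ρ1 - Ent N m (fun x => u0 x ^ (-N))
        ≤ (1 - 1 / N) * ∫ z, lip u0 z.1 * dist z.1 z.2 ∂P := by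
  obtain ⟨P, hP, hPo, hle⟩ := DI_lip hN hcd hu0 h1m hc h0 h1 hmass
  refine ⟨P, hP, hPo, le_trans ?_ hle⟩
  have hN0 : (0 : ℝ) < N := by linarith
  have hupos : ∀ x, 0 < u0 x := fun x => hc.trans_le (h0 x)
  have h1p : ∀ x, 0 < ρ1 x := fun x => hc.trans_le (h1 x).1
  obtain ⟨B, hB0, hB⟩ := di_exists_bound hu0.continuous
  have hum : Measurable u0 := hu0.continuous.measurable
  have hρ0m : Measurable fun x => u0 x ^ (-N) := hum.pow_const _
  have hρ0p : ∀ x, 0 ≤ u0 x ^ (-N) := fun x => by have := hupos x; positivity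
  have hρ0c : Continuous fun x => u0 x ^ (-N) :=
    hu0.continuous.rpow_const fun x => Or.inl (hupos x).ne'
  obtain ⟨B0, hB00, hB0'⟩ := di_exists_bound hρ0c
  have hi0 : Integrable (fun x => u0 x ^ (-N)) m := di_int hρ0m hB0'
  have hf0 : IsFiniteMeasure (dens m fun x => u0 x ^ (-N)) := isFiniteMeasure_dens hi0
  have hfP : IsFiniteMeasure P := hP.isFiniteMeasure
  have hu1m : Measurable fun x => ρ1 x ^ (-(1 / N)) := h1m.pow_const _
  have hu1p : ∀ x, 0 ≤ ρ1 x ^ (-(1 / N)) := fun x => by have := h1p x; positivity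
  have hu1b : ∀ x, |ρ1 x ^ (-(1 / N))| ≤ c ^ (-(1 / N)) := fun x => by
    rw [abs_of_nonneg (hu1p x)]
    refine Real.rpow_le_rpow_of_nonpos hc (h1 x).1 ?_
    have : 0 < 1 / N := by positivity
    linarith
  have hdm : Measurable fun z : X × X => dist z.1 z.2 :=
    (continuous_fst.dist continuous_snd).measurable
  have hR1m : Measurable fun z : X × X => R1 N (dist z.1 z.2) :=
    (di_continuous_R1 N).measurable.comp hdm
  have hR2m : Measurable fun z : X × X => R2 N (dist z.1 z.2) :=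
    (di_continuous_R2 N).measurable.comp hdm
  obtain ⟨C1, hC10, hC1⟩ := di_exists_bound (X := X × X) (u := fun z => R1 N (dist z.1 z.2))
    ((di_continuous_R1 N).comp (continuous_fst.dist continuous_snd))
  obtain ⟨C2, hC20, hC2⟩ := di_exists_bound (X := X × X) (u := fun z => R2 N (dist z.1 z.2) - 1)
    (((di_continuous_R2 N).comp (continuous_fst.dist continuous_snd)).sub continuous_const)
  have j1 : Integrable (fun z : X × X => R1 N (dist z.1 z.2) * ρ1 z.2 ^ (-(1 / N))) P := by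
    refine di_int (B := C1 * c ^ (-(1 / N))) (hR1m.mul (hu1m.comp measurable_snd)) fun z => ?_
    rw [abs_mul]
    exact mul_le_mul (hC1 z) (hu1b _) (abs_nonneg _) hC10.le
  have j2 : Integrable (fun z : X × X => (R2 N (dist z.1 z.2) - 1) * u0 z.1) P := by
    refine di_int (B := C2 * B) ((hR2m.sub_const 1).mul (hum.comp measurable_fst)) fun z => ?_
    rw [abs_mul]
    exact mul_le_mul (hC2 z) (hB _) (abs_nonneg _) hC20.le
  have j3 : Integrable (fun z : X × X => u0 z.1) P :=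
    di_int (hum.comp measurable_fst) fun z => hB _
  have j4 : Integrable (fun z : X × X => ρ1 z.2 ^ (-(1 / N))) P :=
    di_int (hu1m.comp measurable_snd) fun z => hu1b _
  have e0 : Ent N m (fun x => u0 x ^ (-N)) = ∫ z, u0 z.1 ∂P := by
    rw [hP.integral_fst hum.aestronglyMeasurable, integral_dens hρ0m hρ0p]
    unfold Ent
    refine integral_congr_ae (ae_of_all _ fun x => ?_)
    simp only
    rw [di_pow_p hN (hupos x), di_pow_mul (hupos x)]
  have e1 : Ent N m ρ1 = ∫ z, ρ1 z.2 ^ (-(1 / N)) ∂P := by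
    rw [hP.integral_snd (g := fun x => ρ1 x ^ (-(1 / N))) hu1m.aestronglyMeasurable,
      integral_dens h1m fun x => (h1p x).le]
    unfold Ent
    refine integral_congr_ae (ae_of_all _ fun x => ?_)
    simp only
    have := Real.rpow_add (h1p x) 1 (-(1 / N))
    rw [Real.rpow_one] at this
    rw [← this]
    congr 1
  rw [e0, e1, ← integral_sub j4 j3]
  refine integral_mono (j4.sub j3) (j1.add j2) fun z => ?_
  simp only
  have q1 := di_one_le_R1 hN (dist z.1 z.2)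
  have q2 := di_R2_nonneg hN (dist z.1 z.2)
  have q3 := mul_le_mul_of_nonneg_right q1 (hu1p z.2)
  have q4 := mul_nonneg q2 (hupos z.1).le
  nlinarith [q3, q4]

end H13CD
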