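import Pool.Agent.Helper13.CD.DI
import Pool.Agent.Helper13.CD.Aux13
import Pool.Agent.Helper13.CD.Util
import Pool.Agent.Helper13.CD.OT

/-!
# Module F: infinitesimal displacement inequality for `u0 = U ∘ f`, `f` a limit of Lipschitz
functions in the sense of `Lim`

Proof.  Let `fn` be the approximants, `u0n = U ∘ fn` (Lipschitz: `U` is `C¹` on `[-B,B]`),
`ρ0n = u0n^(-N)`, `Mn = ∫ρ0n → M = ∫ρ0` (bounded functions, `fn → f` in `L²`, `t ↦ U(t)^(-N)` is
Lipschitz on `[-B,B]`), `ρ1n = (Mn/M) ρ1`.  `DI_lip` gives optimal plans `Pn` of mass `Mn`,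
`∫ [R1 d · ρ1n(y)^(-1/N) + (R2 d - 1) U(fn x)] dPn ≤ p ∫ lip (U∘fn)(x) d dPn
   ≤ p ∫ |U'(fn x)| lip fn x · d dPn` (`lip_comp_le`).
`Pn/Mn` are probability measures on the compact space `X×X`; pass to a subsequence converging to
`Q`; put `P = M Q`.  Marginals converge (`ρ0n → ρ0` in `L¹`), so `Cpl P (ρ0 m) (ρ1 m)`; `P` is
optimal by `isOpt_of_tendsto`.  The three terms converge by `plan_tendsto_fst/snd`
(`|U'(fn)| lip fn → |U'(f)| g0` in `L¹(m)`; all marginal densities are uniformly bounded).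
-/

open MeasureTheory Set Filter Topology
open scoped ENNReal NNReal

namespace H13CD

namespace DL

theorem exists_cont_ext {B : ℝ} (hB : 0 ≤ B) {φ : ℝ → ℝ} (hφ : ContinuousOn φ (Icc (-B) B)) :
    ∃ φ' : ℝ → ℝ, Continuous φ' ∧ ∀ t ∈ Icc (-B) B, φ' t = φ t := by
  have h : -B ≤ B := by linarith
  refine ⟨IccExtend h (fun t => φ t), ?_, fun t ht => ?_⟩
  · exact (continuousOn_iff_continuous_domRestrict.mp hφ).Icc_extend'
  · rw [IccExtend_of_mem h _ ht]

variable {X : Type*} [MetricSpace X] [CompactSpace X] [MeasurableSpace X] [BorelSpace X]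
  {m : Measure X}

theorem measurable_comp_of_continuousOn {B : ℝ} (hB : 0 ≤ B) {φ : ℝ → ℝ}
    (hφ : ContinuousOn φ (Icc (-B) B)) {f : X → ℝ} (hf : Measurable f) (b : ∀ x, |f x| ≤ B) :
    Measurable fun x => φ (f x) := by
  obtain ⟨φ', hc, he⟩ := exists_cont_ext hB hφ
  have : (fun x => φ (f x)) = fun x => φ' (f x) := by
    funext x
    rw [he _ (abs_le.mp (b x))]
  rw [this]
  exact hc.measurable.comp hf

theorem tendsto_comp_sq [IsProbabilityMeasure m] {B : ℝ} (hB : 0 ≤ B) {φ : ℝ → ℝ}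
    (hφ : ContinuousOn φ (Icc (-B) B))
    {fn : ℕ → X → ℝ} {f : X → ℝ} (hfn : ∀ n, Measurable (fn n)) (hf : Measurable f)
    (bn : ∀ n x, |fn n x| ≤ B) (b : ∀ x, |f x| ≤ B)
    (h : Tendsto (fun n => ∫ x, (fn n x - f x) ^ 2 ∂m) atTop (𝓝 0)) :
    Tendsto (fun n => ∫ x, (φ (fn n x) - φ (f x)) ^ 2 ∂m) atTop (𝓝 0) := by
  rw [Metric.tendsto_atTop]
  intro ε hε
  obtain ⟨η, hη, hη2⟩ : ∃ η > 0, 2 * η ^ 2 < ε / 2 := by
    refine ⟨√(ε / 8), by positivity, ?_⟩
    rw [Real.sq_sqrt (by positivity)]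
    linarith
  obtain ⟨C, hC0, hC⟩ := exists_modulus_pow (X := Icc (-B) B)
    (continuousOn_iff_continuous_domRestrict.mp hφ) hη 1
  have hpt : ∀ s ∈ Icc (-B) B, ∀ t ∈ Icc (-B) B,
      (φ s - φ t) ^ 2 ≤ 2 * η ^ 2 + 2 * C ^ 2 * (s - t) ^ 2 := by
    intro s hs t ht
    have h1 := hC ⟨s, hs⟩ ⟨t, ht⟩
    simp only [domRestrict_apply, pow_one, Subtype.dist_eq, Real.dist_eq] at h1
    have h2 : (φ s - φ t) ^ 2 ≤ (η + C * |s - t|) ^ 2 := by
      rw [← sq_abs (φ s - φ t)]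
      exact pow_le_pow_left₀ (abs_nonneg _) h1 2
    have h3 : |s - t| ^ 2 = (s - t) ^ 2 := sq_abs _
    nlinarith [sq_nonneg (η - C * |s - t|)]
  have hlim : Tendsto (fun n => 2 * C ^ 2 * ∫ x, (fn n x - f x) ^ 2 ∂m) atTop (𝓝 0) := by
    simpa using h.const_mul (2 * C ^ 2)
  obtain ⟨n0, hn0⟩ := (Metric.tendsto_atTop.mp hlim) (ε / 2) (by positivity)
  refine ⟨n0, fun n hn => ?_⟩
  have h4 := hn0 n hn
  have h5 : 0 ≤ ∫ x, (φ (fn n x) - φ (f x)) ^ 2 ∂m := integral_nonneg fun x => sq_nonneg _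
  have h6 : 0 ≤ 2 * C ^ 2 * ∫ x, (fn n x - f x) ^ 2 ∂m := by
    have : 0 ≤ ∫ x, (fn n x - f x) ^ 2 ∂m := integral_nonneg fun x => sq_nonneg _
    positivity
  rw [Real.dist_eq, sub_zero, abs_of_nonneg h6] at h4
  rw [Real.dist_eq, sub_zero, abs_of_nonneg h5]
  have hint : Integrable (fun x => (fn n x - f x) ^ 2) m := by
    refine Integrable.of_bound (((hfn n).sub hf).pow_const 2).aestronglyMeasurable ((2 * B) ^ 2)
      (ae_of_all _ fun x => ?_)
    rw [Real.norm_eq_abs, abs_pow]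
    refine pow_le_pow_left₀ (abs_nonneg _) ?_ 2
    have := abs_sub (fn n x) (f x)
    linarith [bn n x, b x]
  calc ∫ x, (φ (fn n x) - φ (f x)) ^ 2 ∂m
      ≤ ∫ x, (2 * η ^ 2 + 2 * C ^ 2 * (fn n x - f x) ^ 2) ∂m := by
        refine integral_mono_of_nonneg (ae_of_all _ fun x => sq_nonneg _)
          ((integrable_const _).add (hint.const_mul _)) (ae_of_all _ fun x => ?_)
        exact hpt _ (abs_le.mp (bn n x)) _ (abs_le.mp (b x))
    _ = 2 * η ^ 2 + 2 * C ^ 2 * ∫ x, (fn n x - f x) ^ 2 ∂m := by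
        rw [integral_add (integrable_const _) (hint.const_mul _), integral_const,
          integral_const_mul]
        simp
    _ < ε := by linarith

theorem tendsto_comp_abs [IsProbabilityMeasure m] {B : ℝ} (hB : 0 ≤ B) {φ : ℝ → ℝ}
    (hφ : ContinuousOn φ (Icc (-B) B))
    {fn : ℕ → X → ℝ} {f : X → ℝ} (hfn : ∀ n, Measurable (fn n)) (hf : Measurable f)
    (bn : ∀ n x, |fn n x| ≤ B) (b : ∀ x, |f x| ≤ B)
    (h : Tendsto (fun n => ∫ x, (fn n x - f x) ^ 2 ∂m) atTop (𝓝 0)) :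
    Tendsto (fun n => ∫ x, |φ (fn n x) - φ (f x)| ∂m) atTop (𝓝 0) := by
  have h1 := tendsto_comp_sq hB hφ hfn hf bn b h
  obtain ⟨D, hD⟩ := isCompact_Icc.exists_bound_of_continuousOn hφ
  have h2 : Tendsto (fun n => √(∫ x, (φ (fn n x) - φ (f x)) ^ 2 ∂m)) atTop (𝓝 0) := by
    simpa using h1.sqrt
  refine squeeze_zero (fun n => integral_nonneg fun x => abs_nonneg _) (fun n => ?_) h2
  have hm : Measurable fun x => φ (fn n x) - φ (f x) :=
    (measurable_comp_of_continuousOn hB hφ (hfn n) (bn n)).sub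
      (measurable_comp_of_continuousOn hB hφ hf b)
  refine integral_abs_le_sqrt hm.aestronglyMeasurable ?_
  refine Integrable.of_bound (hm.pow_const 2).aestronglyMeasurable ((D + D) ^ 2)
      (ae_of_all _ fun x => ?_)
  rw [Real.norm_eq_abs, abs_pow]
  refine pow_le_pow_left₀ (abs_nonneg _) ?_ 2
  have h3 := abs_sub (φ (fn n x)) (φ (f x))
  have h4 := hD _ (abs_le.mp (bn n x))
  have h5 := hD _ (abs_le.mp (b x))
  rw [Real.norm_eq_abs] at h4 h5
  linarith

theorem cost_smul (c : ℝ≥0∞) (P : Measure (X × X)) : cost (c • P) = c.toReal * cost P := by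
  unfold cost
  rw [integral_smul_measure, smul_eq_mul]

theorem isOpt_smul {P : Measure (X × X)} (h : IsOpt P) {c : ℝ≥0∞} (hc : c ≠ 0) (hc' : c ≠ ⊤) :
    IsOpt (c • P) := by
  intro Q h1 h2
  have h3 := h (c⁻¹ • Q)
    (by rw [Measure.map_smul, h1, Measure.map_smul, smul_smul, ENNReal.inv_mul_cancel hc hc',
      one_smul])
    (by rw [Measure.map_smul, h2, Measure.map_smul, smul_smul, ENNReal.inv_mul_cancel hc hc',
      one_smul])
  rw [cost_smul] at h3 ⊢
  rw [ENNReal.toReal_inv] at h3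
  have h4 : 0 < c.toReal := ENNReal.toReal_pos hc hc'
  rw [inv_mul_eq_div, le_div_iff₀ h4] at h3
  linarith

theorem cpl_smul {P : Measure (X × X)} {μ ν : Measure X} (h : Cpl P μ ν) (c : ℝ≥0∞) :
    Cpl (c • P) (c • μ) (c • ν) := by
  refine ⟨?_, ?_⟩
  · rw [Measure.map_smul, h.1]
  · rw [Measure.map_smul, h.2]

theorem dens_const_mul {c : ℝ} (hc : 0 ≤ c) {ρ : X → ℝ} (hρ : Measurable ρ) :
    dens m (fun x => c * ρ x) = ENNReal.ofReal c • dens m ρ := by
  unfold dens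
  rw [← withDensity_smul _ hρ.ennreal_ofReal]
  congr 1
  funext x
  rw [Pi.smul_apply, smul_eq_mul, ENNReal.ofReal_mul hc]

/-- identification of a marginal of a weak limit -/
theorem map_of_tendsto {Qn : ℕ → ProbabilityMeasure (X × X)} {Q : ProbabilityMeasure (X × X)}
    (ht : Tendsto Qn atTop (𝓝 Q)) {π : X × X → X} (hπ : Continuous π) {ρn : ℕ → X → ℝ} {ρ : X → ℝ}
    (hρn : ∀ n, Measurable (ρn n)) (hρ : Measurable ρ) (h0n : ∀ n x, 0 ≤ ρn n x)
    (h0 : ∀ x, 0 ≤ ρ x) (hin : ∀ n, Integrable (ρn n) m) (hi : Integrable ρ m)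
    (hmap : ∀ n, (Qn n : Measure (X × X)).map π = dens m (ρn n))
    (hc : Tendsto (fun n => ∫ x, |ρn n x - ρ x| ∂m) atTop (𝓝 0)) :
    (Q : Measure (X × X)).map π = dens m ρ := by
  have : IsFiniteMeasure (dens m ρ) := isFiniteMeasure_withDensity_ofReal hi.2
  refine ext_of_forall_integral_eq_of_IsFiniteMeasure fun g => ?_
  have hg : Continuous fun z => g (π z) := g.continuous.comp hπ
  have h1 : Tendsto (fun n => ∫ z, g (π z) ∂(Qn n : Measure (X × X))) atTop
      (𝓝 (∫ z, g (π z) ∂(Q : Measure (X × X)))) := by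
    have := (ProbabilityMeasure.tendsto_iff_forall_integral_tendsto.mp ht)
      (g.compContinuous ⟨π, hπ⟩)
    simpa using this
  have e1 : ∀ S : Measure (X × X), ∫ x, g x ∂(S.map π) = ∫ z, g (π z) ∂S := fun S => by
    rw [integral_map hπ.measurable.aemeasurable g.continuous.aestronglyMeasurable]
  have e2 : ∀ n, ∫ z, g (π z) ∂(Qn n : Measure (X × X)) = ∫ x, ρn n x * g x ∂m := fun n => by
    rw [← e1, hmap n]
    unfold dens
    rw [integral_withDensity_eq_integral_toReal_smul (hρn n).ennreal_ofReal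
      (ae_of_all _ fun x => ENNReal.ofReal_lt_top)]
    refine integral_congr_ae (ae_of_all _ fun x => ?_)
    simp only [smul_eq_mul]
    rw [ENNReal.toReal_ofReal (h0n n x)]
  have e3 : ∫ x, g x ∂(dens m ρ) = ∫ x, ρ x * g x ∂m := by
    unfold dens
    rw [integral_withDensity_eq_integral_toReal_smul hρ.ennreal_ofReal
      (ae_of_all _ fun x => ENNReal.ofReal_lt_top)]
    refine integral_congr_ae (ae_of_all _ fun x => ?_)
    simp only [smul_eq_mul]
    rw [ENNReal.toReal_ofReal (h0 x)]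
  rw [e1, e3]
  have hgb : ∀ x, |g x| ≤ ‖g‖ := fun x => g.norm_coe_le_norm x
  have hig : ∀ r : X → ℝ, Integrable r m → Integrable (fun x => r x * g x) m := fun r hr => by
    exact hr.mul_bdd g.continuous.aestronglyMeasurable (ae_of_all _ fun x => g.norm_coe_le_norm x)
  have h2 : Tendsto (fun n => ∫ x, ρn n x * g x ∂m) atTop (𝓝 (∫ x, ρ x * g x ∂m)) := by
    rw [tendsto_iff_norm_sub_tendsto_zero]
    have h3 : Tendsto (fun n => ‖g‖ * ∫ x, |ρn n x - ρ x| ∂m) atTop (𝓝 0) := by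
      simpa using hc.const_mul ‖g‖
    refine squeeze_zero (fun n => norm_nonneg _) (fun n => ?_) h3
    rw [← integral_sub (hig _ (hin n)) (hig _ hi)]
    refine (norm_integral_le_integral_norm _).trans ?_
    rw [← integral_const_mul]
    refine integral_mono_of_nonneg (ae_of_all _ fun x => norm_nonneg _)
      (((hin n).sub hi).abs.const_mul _) (ae_of_all _ fun x => ?_)
    simp only [Real.norm_eq_abs]
    rw [← sub_mul, abs_mul, mul_comm]
    exact mul_le_mul_of_nonneg_right (hgb x) (abs_nonneg _)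
  refine tendsto_nhds_unique h1 ?_
  simp only [e2]
  exact h2

end DL

open DL

variable {X : Type*} [MetricSpace X] [CompactSpace X] [MeasurableSpace X] [BorelSpace X]
  {m : Measure X} [IsProbabilityMeasure m]

theorem DI_lim {N : ℝ} (hN : 1 < N) (hcd : CDr m N) {B : ℝ} {f g0 : X → ℝ} (hf : Lim m B f g0)
    {U U' : ℝ → ℝ} (hU : ∀ t ∈ Icc (-B) B, HasDerivAt U (U' t) t)
    (hU' : ContinuousOn U' (Icc (-B) B)) (hUpos : ∀ t ∈ Icc (-B) B, 0 < U t)
    {ρ1 : X → ℝ} (h1m : Measurable ρ1) {c C : ℝ} (hc : 0 < c) (h1 : ∀ x, c ≤ ρ1 x ∧ ρ1 x ≤ C)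
    (hmass : ∫ x, U (f x) ^ (-N) ∂m = ∫ x, ρ1 x ∂m) :
    ∃ P : Measure (X × X), Cpl P (dens m fun x => U (f x) ^ (-N)) (dens m ρ1) ∧ IsOpt P ∧
      ∫ z, (R1 N (dist z.1 z.2) * ρ1 z.2 ^ (-(1 / N)) + (R2 N (dist z.1 z.2) - 1) * U (f z.1)) ∂P
        ≤ (1 - 1 / N) * ∫ z, |U' (f z.1)| * g0 z.1 * dist z.1 z.2 ∂P := by
  have hN0 : 0 < N := by linarith
  obtain ⟨x0⟩ : Nonempty X := nonempty_of_isProbabilityMeasure m
  have hB : 0 ≤ B := (abs_nonneg _).trans (hf.bound x0)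
  have hIcc : (Icc (-B) B).Nonempty := ⟨0, by constructor <;> linarith⟩
  have hUc : ContinuousOn U (Icc (-B) B) := fun t ht => (hU t ht).continuousAt.continuousWithinAt
  obtain ⟨ta, hta, hamin⟩ := isCompact_Icc.exists_isMinOn hIcc hUc
  obtain ⟨tb, htb, hbmax⟩ := isCompact_Icc.exists_isMaxOn hIcc hUc
  obtain ⟨D, hD⟩ := isCompact_Icc.exists_bound_of_continuousOn hU'
  obtain ⟨a, ha, haU⟩ : ∃ a > 0, ∀ t ∈ Icc (-B) B, a ≤ U t :=
    ⟨U ta, hUpos ta hta, fun t ht => hamin ht⟩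
  obtain ⟨A, hAU⟩ : ∃ A, ∀ t ∈ Icc (-B) B, U t ≤ A := ⟨U tb, fun t ht => hbmax ht⟩
  have hA : 0 < A := ha.trans_le ((haU _ hta).trans (hAU _ hta))
  have hD0 : 0 ≤ D := (norm_nonneg _).trans (hD ta hta)
  have hUL : LipschitzOnWith (Real.toNNReal D) U (Icc (-B) B) := by
    refine (convex_Icc _ _).lipschitzOnWith_of_nnnorm_hasDerivWithin_le
      (fun t ht => (hU t ht).hasDerivWithinAt) (fun t ht => ?_)
    rw [← NNReal.coe_le_coe, coe_nnnorm, Real.coe_toNNReal _ hD0]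
    exact hD t ht
  obtain ⟨fn, hfnL, hfnB, hfn2, hlip2⟩ := hf.approx
  choose K hK using hfnL
  have hmem : ∀ n x, fn n x ∈ Icc (-B) B := fun n x => abs_le.mp (hfnB n x)
  have hmemf : ∀ x, f x ∈ Icc (-B) B := fun x => abs_le.mp (hf.bound x)
  have hfnm : ∀ n, Measurable (fn n) := fun n => (hK n).continuous.measurable
  have hu0L : ∀ n, LipschitzWith (Real.toNNReal D * K n) (fun x => U (fn n x)) := fun n => by
    rw [← lipschitzOnWith_univ]
    exact hUL.comp ((hK n).lipschitzOnWith) (fun x _ => hmem n x)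
  -- masses
  have hpow : ContinuousOn (fun t => U t ^ (-N)) (Icc (-B) B) := fun t ht =>
    (hUc t ht).rpow_const (Or.inl (hUpos t ht).ne')
  have hlo : ∀ t ∈ Icc (-B) B, A ^ (-N) ≤ U t ^ (-N) := fun t ht =>
    Real.rpow_le_rpow_of_nonpos (hUpos t ht) (hAU t ht) (by linarith)
  have hhi : ∀ t ∈ Icc (-B) B, U t ^ (-N) ≤ a ^ (-N) := fun t ht =>
    Real.rpow_le_rpow_of_nonpos ha (haU t ht) (by linarith)
  have hApos : 0 < A ^ (-N) := Real.rpow_pos_of_pos hA _
  have hapos : 0 < a ^ (-N) := Real.rpow_pos_of_pos ha _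
  have hρ0m : Measurable fun x => U (f x) ^ (-N) :=
    measurable_comp_of_continuousOn hB hpow hf.meas hf.bound
  have hρ0nm : ∀ n, Measurable fun x => U (fn n x) ^ (-N) := fun n =>
    measurable_comp_of_continuousOn hB hpow (hfnm n) (hfnB n)
  have hint0 : Integrable (fun x => U (f x) ^ (-N)) m :=
    Integrable.of_bound hρ0m.aestronglyMeasurable (a ^ (-N)) (ae_of_all _ fun x => by
      rw [Real.norm_eq_abs, abs_of_pos (hApos.trans_le (hlo _ (hmemf x)))]
      exact hhi _ (hmemf x))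
  have hint0n : ∀ n, Integrable (fun x => U (fn n x) ^ (-N)) m := fun n =>
    Integrable.of_bound (hρ0nm n).aestronglyMeasurable (a ^ (-N)) (ae_of_all _ fun x => by
      rw [Real.norm_eq_abs, abs_of_pos (hApos.trans_le (hlo _ (hmem n x)))]
      exact hhi _ (hmem n x))
  have hconv0 : Tendsto (fun n => ∫ x, |U (fn n x) ^ (-N) - U (f x) ^ (-N)| ∂m) atTop (𝓝 0) :=
    tendsto_comp_abs hB hpow hfnm hf.meas hfnB hf.bound hfn2
  obtain ⟨M, hMdef⟩ : ∃ M, M = ∫ x, ρ1 x ∂m := ⟨_, rfl⟩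
  obtain ⟨Mn, hMndef⟩ : ∃ Mn : ℕ → ℝ, ∀ n, Mn n = ∫ x, U (fn n x) ^ (-N) ∂m := ⟨_, fun _ => rfl⟩
  have hMM : M = ∫ x, U (f x) ^ (-N) ∂m := by rw [hmass, hMdef]
  have hMlim : Tendsto Mn atTop (𝓝 M) := by
    rw [tendsto_iff_norm_sub_tendsto_zero]
    refine squeeze_zero (fun n => norm_nonneg _) (fun n => ?_) hconv0
    rw [hMndef n, hMM, ← integral_sub (hint0n n) hint0]
    exact norm_integral_le_integral_norm _
  have hconst : ∀ (κ : ℝ), ∫ _ : X, κ ∂m = κ := fun κ => by simp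
  have hMlo : A ^ (-N) ≤ M := by
    rw [hMM, ← hconst (A ^ (-N))]
    exact integral_mono (integrable_const _) hint0 fun x => hlo _ (hmemf x)
  have hMhi : M ≤ a ^ (-N) := by
    rw [hMM, ← hconst (a ^ (-N))]
    exact integral_mono hint0 (integrable_const _) fun x => hhi _ (hmemf x)
  have hMnlo : ∀ n, A ^ (-N) ≤ Mn n := fun n => by
    rw [hMndef n, ← hconst (A ^ (-N))]
    exact integral_mono (integrable_const _) (hint0n n) fun x => hlo _ (hmem n x)
  have hMnhi : ∀ n, Mn n ≤ a ^ (-N) := fun n => by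
    rw [hMndef n, ← hconst (a ^ (-N))]
    exact integral_mono (hint0n n) (integrable_const _) fun x => hhi _ (hmem n x)
  have hMpos : 0 < M := hApos.trans_le hMlo
  have hMnpos : ∀ n, 0 < Mn n := fun n => hApos.trans_le (hMnlo n)
  have hcC : c ≤ C := (h1 x0).1.trans (h1 x0).2
  have hC : 0 < C := hc.trans_le hcC
  obtain ⟨r, hr⟩ : ∃ r : ℕ → ℝ, ∀ n, r n = Mn n / M := ⟨_, fun _ => rfl⟩
  have hrpos : ∀ n, 0 < r n := fun n => by rw [hr n]; exact div_pos (hMnpos n) hMpos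
  have hrlo : ∀ n, A ^ (-N) / a ^ (-N) ≤ r n := fun n => by
    rw [hr n]
    exact div_le_div₀ (hMnpos n).le (hMnlo n) hMpos hMhi
  have hrhi : ∀ n, r n ≤ a ^ (-N) / A ^ (-N) := fun n => by
    rw [hr n]
    exact div_le_div₀ hapos.le (hMnhi n) hApos hMlo
  have hrlim : Tendsto r atTop (𝓝 1) := by
    have h2 : Tendsto (fun n => Mn n / M) atTop (𝓝 (M / M)) := hMlim.div_const M
    rw [div_self hMpos.ne'] at h2
    exact h2.congr fun n => (hr n).symm
  -- the plans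
  have key : ∀ n, ∃ P : Measure (X × X), Cpl P (dens m fun x => U (fn n x) ^ (-N))
      (dens m fun x => r n * ρ1 x) ∧ IsOpt P ∧
      ∫ z, (R1 N (dist z.1 z.2) * (r n * ρ1 z.2) ^ (-(1 / N)) +
        (R2 N (dist z.1 z.2) - 1) * U (fn n z.1)) ∂P
        ≤ (1 - 1 / N) * ∫ z, lip (fun x => U (fn n x)) z.1 * dist z.1 z.2 ∂P := by
    intro n
    refine DI_lip hN hcd (hu0L n) (h1m.const_mul _) (c := min a (A ^ (-N) / a ^ (-N) * c))
      (C := a ^ (-N) / A ^ (-N) * C) (lt_min ha (by positivity))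
      (fun x => (min_le_left _ _).trans (haU _ (hmem n x)))
      (fun x => ⟨(min_le_right _ _).trans ?_, ?_⟩) ?_
    · exact mul_le_mul (hrlo n) (h1 x).1 hc.le (hrpos n).le
    · exact mul_le_mul (hrhi n) (h1 x).2 (hc.le.trans (h1 x).1) (by positivity)
    · rw [integral_const_mul, ← hMdef, hr n, ← hMndef n]
      field_simp
  choose P hPc hPo hPi using key
  have hPuniv : ∀ n, P n univ = ENNReal.ofReal (Mn n) := fun n => by
    have h2 : (P n).map Prod.fst univ = P n univ := by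
      rw [Measure.map_apply measurable_fst MeasurableSet.univ, preimage_univ]
    rw [← h2, (hPc n).1, dens_univ (hint0n n) fun x => (hApos.trans_le (hlo _ (hmem n x))).le,
      ← hMndef n]
  have hprob : ∀ n, IsProbabilityMeasure (ENNReal.ofReal (Mn n)⁻¹ • P n) := fun n => by
    refine ⟨?_⟩
    rw [Measure.smul_apply, hPuniv n, smul_eq_mul, ← ENNReal.ofReal_mul (inv_nonneg.mpr (hMnpos n).le),
      inv_mul_cancel₀ (hMnpos n).ne', ENNReal.ofReal_one]
  obtain ⟨Qn, hQn⟩ : ∃ Qn : ℕ → ProbabilityMeasure (X × X), ∀ n,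
      (Qn n : Measure (X × X)) = ENNReal.ofReal (Mn n)⁻¹ • P n :=
    ⟨fun n => ⟨_, hprob n⟩, fun n => rfl⟩
  have hinvpos : ∀ n, 0 < (Mn n)⁻¹ := fun n => inv_pos.mpr (hMnpos n)
  have hQ1 : ∀ n, (Qn n : Measure (X × X)).map Prod.fst =
      dens m fun x => (Mn n)⁻¹ * U (fn n x) ^ (-N) := fun n => by
    rw [hQn n, (cpl_smul (hPc n) _).1, dens_const_mul (hinvpos n).le (hρ0nm n)]
  have hQ2 : ∀ n, (Qn n : Measure (X × X)).map Prod.snd = dens m fun x => M⁻¹ * ρ1 x := fun n => by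
    rw [hQn n, (cpl_smul (hPc n) _).2, ← dens_const_mul (hinvpos n).le (h1m.const_mul _)]
    congr 1
    funext x
    rw [hr n, ← mul_assoc]
    congr 1
    have := (hMnpos n).ne'
    field_simp
  have hQopt : ∀ n, IsOpt (Qn n : Measure (X × X)) := fun n => by
    rw [hQn n]
    exact isOpt_smul (hPo n) (by simpa using hMnpos n) ENNReal.ofReal_ne_top
  -- convergent subsequence
  obtain ⟨Q, φ, hφ, hlim⟩ : ∃ (Q : ProbabilityMeasure (X × X)) (φ : ℕ → ℕ), StrictMono φ ∧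
      Tendsto (Qn ∘ φ) atTop (𝓝 Q) := CompactSpace.tendsto_subseq Qn
  have hφt : Tendsto φ atTop atTop := hφ.tendsto_atTop
  have hconv1 : Tendsto (fun n => ∫ x, |(Mn n)⁻¹ * U (fn n x) ^ (-N) - M⁻¹ * U (f x) ^ (-N)| ∂m)
      atTop (𝓝 0) := by
    have h2 : Tendsto (fun n => (A ^ (-N))⁻¹ * (∫ x, |U (fn n x) ^ (-N) - U (f x) ^ (-N)| ∂m) +
        |(Mn n)⁻¹ - M⁻¹| * M) atTop (𝓝 0) := by
      have h3 : Tendsto (fun n => |(Mn n)⁻¹ - M⁻¹|) atTop (𝓝 0) := by
        have h4 := ((hMlim.inv₀ hMpos.ne').sub_const M⁻¹).abs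
        simpa using h4
      simpa using (hconv0.const_mul (A ^ (-N))⁻¹).add (h3.mul_const M)
    refine squeeze_zero (fun n => integral_nonneg fun x => abs_nonneg _) (fun n => ?_) h2
    have h5 : (A ^ (-N))⁻¹ * (∫ x, |U (fn n x) ^ (-N) - U (f x) ^ (-N)| ∂m) +
        |(Mn n)⁻¹ - M⁻¹| * M = ∫ x, ((A ^ (-N))⁻¹ * |U (fn n x) ^ (-N) - U (f x) ^ (-N)| +
          |(Mn n)⁻¹ - M⁻¹| * U (f x) ^ (-N)) ∂m := by
      have i1 : Integrable (fun x => (A ^ (-N))⁻¹ * |U (fn n x) ^ (-N) - U (f x) ^ (-N)|) m :=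
        ((hint0n n).sub hint0).abs.const_mul _
      rw [integral_add i1 (hint0.const_mul _), integral_const_mul, integral_const_mul, ← hMM]
    rw [h5]
    refine integral_mono_of_nonneg (ae_of_all _ fun x => abs_nonneg _)
      ((((hint0n n).sub hint0).abs.const_mul _).add (hint0.const_mul _)) (ae_of_all _ fun x => ?_)
    simp only
    have h6 : (Mn n)⁻¹ * U (fn n x) ^ (-N) - M⁻¹ * U (f x) ^ (-N) =
        (Mn n)⁻¹ * (U (fn n x) ^ (-N) - U (f x) ^ (-N)) + ((Mn n)⁻¹ - M⁻¹) * U (f x) ^ (-N) := by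
      ring
    rw [h6]
    refine (abs_add_le _ _).trans (add_le_add ?_ (le_of_eq ?_))
    · rw [abs_mul, abs_of_pos (hinvpos n)]
      exact mul_le_mul_of_nonneg_right (inv_anti₀ hApos (hMnlo n)) (abs_nonneg _)
    · rw [abs_mul, abs_of_pos (hApos.trans_le (hlo _ (hmemf x)))]
  have hQf : (Q : Measure (X × X)).map Prod.fst = dens m fun x => M⁻¹ * U (f x) ^ (-N) := by
    refine map_of_tendsto hlim continuous_fst (fun n => (hρ0nm (φ n)).const_mul _)
      (hρ0m.const_mul _) (fun n x => ?_) (fun x => ?_) (fun n => (hint0n (φ n)).const_mul _)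
      (hint0.const_mul _) (fun n => hQ1 (φ n)) (hconv1.comp hφt)
    · exact mul_nonneg (hinvpos _).le (hApos.le.trans (hlo _ (hmem _ x)))
    · exact mul_nonneg (inv_nonneg.mpr hMpos.le) (hApos.le.trans (hlo _ (hmemf x)))
  have hint1 : Integrable ρ1 m :=
    Integrable.of_bound h1m.aestronglyMeasurable C (ae_of_all _ fun x => by
      rw [Real.norm_eq_abs, abs_of_pos (hc.trans_le (h1 x).1)]
      exact (h1 x).2)
  have hQs : (Q : Measure (X × X)).map Prod.snd = dens m fun x => M⁻¹ * ρ1 x := by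
    have h10 : ∀ x, 0 ≤ M⁻¹ * ρ1 x := fun x =>
      mul_nonneg (inv_nonneg.mpr hMpos.le) (hc.le.trans (h1 x).1)
    refine map_of_tendsto hlim continuous_snd (fun n => h1m.const_mul _)
      (h1m.const_mul _) (fun n x => h10 x) h10 (fun n => hint1.const_mul _)
      (hint1.const_mul _) (fun n => hQ2 (φ n)) ?_
    simp
  have hQo : IsOpt (Q : Measure (X × X)) := isOpt_of_tendsto (fun n => hQopt (φ n)) hlim
  refine ⟨ENNReal.ofReal M • (Q : Measure (X × X)), ⟨?_, ?_⟩, isOpt_smul hQo (by simpa using hMpos)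
    ENNReal.ofReal_ne_top, ?_⟩
  · rw [Measure.map_smul, hQf, ← dens_const_mul hMpos.le (hρ0m.const_mul _)]
    congr 1
    funext x
    field_simp
  · rw [Measure.map_smul, hQs, ← dens_const_mul hMpos.le (h1m.const_mul _)]
    congr 1
    funext x
    field_simp
  rw [integral_smul_measure, integral_smul_measure, ENNReal.toReal_ofReal hMpos.le, smul_eq_mul,
    smul_eq_mul, mul_left_comm]
  refine mul_le_mul_of_nonneg_left ?_ hMpos.le
  -- density bounds
  have hAi : 0 < (A ^ (-N))⁻¹ := inv_pos.mpr hApos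
  have hMi : 0 < M⁻¹ := inv_pos.mpr hMpos
  have hb1 : ∀ n, (Qn n : Measure (X × X)).map Prod.fst ≤
      ENNReal.ofReal ((A ^ (-N))⁻¹ * a ^ (-N)) • m := fun n => by
    rw [hQ1 n]
    exact dens_le fun x => mul_le_mul (inv_anti₀ hApos (hMnlo n)) (hhi _ (hmem n x))
      (hApos.le.trans (hlo _ (hmem n x))) hAi.le
  have hb1Q : (Q : Measure (X × X)).map Prod.fst ≤
      ENNReal.ofReal ((A ^ (-N))⁻¹ * a ^ (-N)) • m := by
    rw [hQf]
    exact dens_le fun x => mul_le_mul (inv_anti₀ hApos hMlo) (hhi _ (hmemf x))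
      (hApos.le.trans (hlo _ (hmemf x))) hAi.le
  have hb2 : ∀ n, (Qn n : Measure (X × X)).map Prod.snd ≤
      ENNReal.ofReal (M⁻¹ * C) • m := fun n => by
    rw [hQ2 n]
    exact dens_le fun x => mul_le_mul_of_nonneg_left (h1 x).2 hMi.le
  have hb2Q : (Q : Measure (X × X)).map Prod.snd ≤ ENNReal.ofReal (M⁻¹ * C) • m := by
    rw [hQs]
    exact dens_le fun x => mul_le_mul_of_nonneg_left (h1 x).2 hMi.le
  have hR1c : Continuous fun z : X × X => R1 N (dist z.1 z.2) := by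
    unfold R1; fun_prop
  have hR2c : Continuous fun z : X × X => R2 N (dist z.1 z.2) - 1 := by
    unfold R2; fun_prop
  have hdc : Continuous fun z : X × X => dist z.1 z.2 := by fun_prop
  -- the function `ρ1^(-1/N)`
  have hum : Measurable fun x => ρ1 x ^ (-(1 / N)) := h1m.pow_const _
  have hub : ∀ x, |ρ1 x ^ (-(1 / N))| ≤ c ^ (-(1 / N)) := fun x => by
    rw [abs_of_pos (Real.rpow_pos_of_pos (hc.trans_le (h1 x).1) _)]
    refine Real.rpow_le_rpow_of_nonpos hc (h1 x).1 ?_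
    rw [neg_nonpos]; positivity
  have hui : Integrable (fun x => ρ1 x ^ (-(1 / N))) m :=
    Integrable.of_bound hum.aestronglyMeasurable (c ^ (-(1 / N)))
      (ae_of_all _ fun x => by rw [Real.norm_eq_abs]; exact hub x)
  have hsplit : ∀ n x, (r n * ρ1 x) ^ (-(1 / N)) = r n ^ (-(1 / N)) * ρ1 x ^ (-(1 / N)) := fun n x =>
    Real.mul_rpow (hrpos n).le (hc.le.trans (h1 x).1)
  have hrlim2 : Tendsto (fun n => r n ^ (-(1 / N))) atTop (𝓝 1) := by
    have h2 := hrlim.rpow_const (p := -(1 / N)) (Or.inl one_ne_zero)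
    rwa [Real.one_rpow] at h2
  have T1 : Tendsto (fun n => ∫ z, (r (φ n) * ρ1 z.2) ^ (-(1 / N)) * R1 N (dist z.1 z.2)
      ∂(Qn (φ n) : Measure (X × X))) atTop
      (𝓝 (∫ z, ρ1 z.2 ^ (-(1 / N)) * R1 N (dist z.1 z.2) ∂(Q : Measure (X × X)))) := by
    refine plan_tendsto_snd (m := m) hlim (C := M⁻¹ * C) (by positivity) (fun n => hb2 (φ n)) hb2Q
      (hs := fun n x => (r (φ n) * ρ1 x) ^ (-(1 / N))) (h := fun x => ρ1 x ^ (-(1 / N)))
      (fun n => ?_) hui ?_ hR1c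
    · simp only [hsplit]
      exact hui.const_mul _
    · have h2 : Tendsto (fun n => |r n ^ (-(1 / N)) - 1| * ∫ x, |ρ1 x ^ (-(1 / N))| ∂m) atTop
          (𝓝 0) := by
        have h3 := ((hrlim2.sub_const 1).abs).mul_const (∫ x, |ρ1 x ^ (-(1 / N))| ∂m)
        simpa using h3
      refine (h2.comp hφt).congr fun n => ?_
      simp only [Function.comp]
      rw [← integral_const_mul]
      refine integral_congr_ae (ae_of_all _ fun x => ?_)
      simp only
      rw [← abs_mul, hsplit]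
      congr 1
      ring
  have hUm : Measurable fun x => U (f x) := measurable_comp_of_continuousOn hB hUc hf.meas hf.bound
  have hUnm : ∀ n, Measurable fun x => U (fn n x) := fun n =>
    measurable_comp_of_continuousOn hB hUc (hfnm n) (hfnB n)
  have hUi : Integrable (fun x => U (f x)) m :=
    Integrable.of_bound hUm.aestronglyMeasurable A (ae_of_all _ fun x => by
      rw [Real.norm_eq_abs, abs_of_pos (hUpos _ (hmemf x))]
      exact hAU _ (hmemf x))
  have hUni : ∀ n, Integrable (fun x => U (fn n x)) m := fun n =>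
    Integrable.of_bound (hUnm n).aestronglyMeasurable A (ae_of_all _ fun x => by
      rw [Real.norm_eq_abs, abs_of_pos (hUpos _ (hmem n x))]
      exact hAU _ (hmem n x))
  have T2 : Tendsto (fun n => ∫ z, U (fn (φ n) z.1) * (R2 N (dist z.1 z.2) - 1)
      ∂(Qn (φ n) : Measure (X × X))) atTop
      (𝓝 (∫ z, U (f z.1) * (R2 N (dist z.1 z.2) - 1) ∂(Q : Measure (X × X)))) :=
    plan_tendsto_fst (m := m) hlim (C := (A ^ (-N))⁻¹ * a ^ (-N)) (by positivity)
      (fun n => hb1 (φ n)) hb1Q (hs := fun n x => U (fn (φ n) x)) (h := fun x => U (f x))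
      (fun n => hUni (φ n)) hUi
      ((tendsto_comp_abs hB hUc hfnm hf.meas hfnB hf.bound hfn2).comp hφt) hR2c
  -- the right side
  have hU'a : ContinuousOn (fun t => |U' t|) (Icc (-B) B) := hU'.abs
  have hvm : Measurable fun x => |U' (f x)| :=
    measurable_comp_of_continuousOn hB hU'a hf.meas hf.bound
  have hvnm : ∀ n, Measurable fun x => |U' (fn n x)| := fun n =>
    measurable_comp_of_continuousOn hB hU'a (hfnm n) (hfnB n)
  have hD' : ∀ t ∈ Icc (-B) B, |U' t| ≤ D := fun t ht => by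
    have := hD t ht
    rwa [Real.norm_eq_abs] at this
  have hv2 : MemLp (fun x => |U' (f x)|) 2 m :=
    MemLp.of_bound hvm.aestronglyMeasurable D (ae_of_all _ fun x => by
      rw [Real.norm_eq_abs, abs_abs]
      exact hD' _ (hmemf x))
  have hvn2 : ∀ n, MemLp (fun x => |U' (fn n x)|) 2 m := fun n =>
    MemLp.of_bound (hvnm n).aestronglyMeasurable D (ae_of_all _ fun x => by
      rw [Real.norm_eq_abs, abs_abs]
      exact hD' _ (hmem n x))
  have hlm : ∀ n, Measurable (lip (fn n)) := fun n => measurable_lip (hK n)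
  have hlb : ∀ n x, |lip (fn n) x| ≤ K n := fun n x => by
    rw [abs_of_nonneg (lip_nonneg _ _)]
    exact lip_le_const (hK n) x
  have hln2 : ∀ n, MemLp (lip (fn n)) 2 m := fun n =>
    MemLp.of_bound (hlm n).aestronglyMeasurable (K n) (ae_of_all _ fun x => by
      rw [Real.norm_eq_abs]; exact hlb n x)
  have hg2 : MemLp g0 2 m := memLp_two_of_sq hf.gmeas.aestronglyMeasurable hf.gL2
  have hconv3 : Tendsto (fun n => ∫ x, |(|U' (fn n x)| * lip (fn n) x) - |U' (f x)| * g0 x| ∂m)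
      atTop (𝓝 0) :=
    tendsto_mul_mul_of_sq hvn2 hln2 hv2 hg2
      (tendsto_comp_sq hB hU'a hfnm hf.meas hfnB hf.bound hfn2) hlip2
  have T3 : Tendsto (fun n => ∫ z, (|U' (fn (φ n) z.1)| * lip (fn (φ n)) z.1) * dist z.1 z.2
      ∂(Qn (φ n) : Measure (X × X))) atTop
      (𝓝 (∫ z, (|U' (f z.1)| * g0 z.1) * dist z.1 z.2 ∂(Q : Measure (X × X)))) :=
    plan_tendsto_fst (m := m) hlim (C := (A ^ (-N))⁻¹ * a ^ (-N)) (by positivity)
      (fun n => hb1 (φ n)) hb1Q (hs := fun n x => |U' (fn (φ n) x)| * lip (fn (φ n)) x)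
      (h := fun x => |U' (f x)| * g0 x) (fun n => (hvn2 (φ n)).integrable_mul (hln2 (φ n)))
      (hv2.integrable_mul hg2) (hconv3.comp hφt) hdc
  -- boundedness of continuous functions
  have hbd : ∀ F : X × X → ℝ, Continuous F → ∃ T, ∀ z, |F z| ≤ T := fun F hF => by
    obtain ⟨T, hT⟩ := (isCompact_univ (X := X × X)).exists_bound_of_continuousOn hF.continuousOn
    exact ⟨T, fun z => by have := hT z (mem_univ _); rwa [Real.norm_eq_abs] at this⟩
  have hibd : ∀ (S : Measure (X × X)) [IsFiniteMeasure S] (G F : X × X → ℝ) (T : ℝ), Measurable G →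
      (∀ z, |G z| ≤ T) → Continuous F → Integrable (fun z => G z * F z) S :=
    fun S _ G F T hG hT hF => by
      obtain ⟨T', hT'⟩ := hbd F hF
      exact (Integrable.of_bound hG.aestronglyMeasurable T (ae_of_all _ fun z => by
        rw [Real.norm_eq_abs]; exact hT z)).mul_bdd hF.aestronglyMeasurable
        (ae_of_all _ fun z => by rw [Real.norm_eq_abs]; exact hT' z)
  have hsplit2 : ∀ (S : Measure (X × X)) [IsFiniteMeasure S] (v w : X → ℝ) (T : ℝ), Measurable v →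
      Measurable w → (∀ x, |v x| ≤ T) → (∀ x, |w x| ≤ T) →
      ∫ z, (R1 N (dist z.1 z.2) * v z.2 + (R2 N (dist z.1 z.2) - 1) * w z.1) ∂S =
        ∫ z, v z.2 * R1 N (dist z.1 z.2) ∂S + ∫ z, w z.1 * (R2 N (dist z.1 z.2) - 1) ∂S :=
    fun S _ v w T hv hw hvT hwT => by
      rw [← integral_add (hibd S (fun z => v z.2) _ T (hv.comp measurable_snd) (fun z => hvT _) hR1c)
        (hibd S (fun z => w z.1) _ T (hw.comp measurable_fst) (fun z => hwT _) hR2c)]
      refine integral_congr_ae (ae_of_all _ fun z => ?_)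
      simp only
      ring
  have hUab : ∀ x, |U (f x)| ≤ A := fun x => by
    rw [abs_of_pos (hUpos _ (hmemf x))]
    exact hAU _ (hmemf x)
  have hUnab : ∀ n x, |U (fn n x)| ≤ A := fun n x => by
    rw [abs_of_pos (hUpos _ (hmem n x))]
    exact hAU _ (hmem n x)
  rw [hsplit2 _ _ _ (max (c ^ (-(1 / N))) A) hum hUm (fun x => (hub x).trans (le_max_left _ _))
    (fun x => (hUab x).trans (le_max_right _ _))]
  refine le_of_tendsto_of_tendsto' (T1.add T2) (T3.const_mul (1 - 1 / N)) fun n => ?_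
  have hn := hPi (φ n)
  have hr' : ∀ x, |(r (φ n) * ρ1 x) ^ (-(1 / N))| ≤ r (φ n) ^ (-(1 / N)) * c ^ (-(1 / N)) := fun x => by
    rw [hsplit, abs_mul, abs_of_pos (Real.rpow_pos_of_pos (hrpos _) _)]
    exact mul_le_mul_of_nonneg_left (hub x) (Real.rpow_pos_of_pos (hrpos _) _).le
  rw [← hsplit2 _ (fun x => (r (φ n) * ρ1 x) ^ (-(1 / N))) _
    (max (r (φ n) ^ (-(1 / N)) * c ^ (-(1 / N))) A) ((h1m.const_mul _).pow_const _) (hUnm _)
    (fun x => (hr' x).trans (le_max_left _ _)) (fun x => (hUnab _ x).trans (le_max_right _ _))]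
  have hp : 0 ≤ 1 - 1 / N := by
    rw [sub_nonneg, div_le_one hN0]
    exact hN.le
  have e1 : ∀ G : X × X → ℝ, ∫ z, G z ∂(Qn (φ n) : Measure (X × X)) =
      (Mn (φ n))⁻¹ * ∫ z, G z ∂(P (φ n)) := fun G => by
    rw [hQn, integral_smul_measure, ENNReal.toReal_ofReal (hinvpos _).le, smul_eq_mul]
  refine le_trans (b := (1 - 1 / N) * ∫ z, lip (fun x => U (fn (φ n) x)) z.1 * dist z.1 z.2
    ∂(Qn (φ n) : Measure (X × X))) ?_ (mul_le_mul_of_nonneg_left ?_ hp)
  · rw [e1, e1, mul_left_comm]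
    exact mul_le_mul_of_nonneg_left hn (hinvpos _).le
  · refine integral_mono (hibd _ (fun z => lip (fun x => U (fn (φ n) x)) z.1) _
      ((Real.toNNReal D * K (φ n) : ℝ≥0) : ℝ)
      ((measurable_lip (hu0L _)).comp measurable_fst) (fun z => ?_) hdc)
      (hibd _ (fun z => |U' (fn (φ n) z.1)| * lip (fn (φ n)) z.1) _ (D * K (φ n))
      (((hvnm _).mul (hlm _)).comp measurable_fst) (fun z => ?_) hdc) (fun z => ?_)
    · rw [abs_of_nonneg (lip_nonneg _ _)]
      exact lip_le_const (hu0L _) _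
    · rw [abs_mul, abs_abs]
      exact mul_le_mul (hD' _ (hmem _ _)) (hlb _ _) (abs_nonneg _) hD0
    · exact mul_le_mul_of_nonneg_right (lip_comp_le (hK _) (hU _ (hmem _ _))) dist_nonneg

end H13CD
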