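import Mathlib

open MeasureTheory Set Filter Topology
open scoped ENNReal NNReal

namespace H13CD

/-! ### slopes -/

section slopes
variable {X : Type*} [MetricSpace X]

/-- `sup` of `h z x / dist z x` over `0 < dist z x < r` -/
noncomputable def supq (r : ℝ) (h : X → X → ℝ) (x : X) : ℝ :=
  ⨆ z : {z : X // z ≠ x ∧ dist z x < r}, h z x / dist (z : X) x

/-- `|g z - g x|` -/
noncomputable def habs (g : X → ℝ) : X → X → ℝ := fun z x => |g z - g x|

/-- `(g z - g x)_+` -/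
noncomputable def hpos (g : X → ℝ) : X → X → ℝ := fun z x => max (g z - g x) 0

/-- full slope at scale `r` -/
noncomputable def Sr (r : ℝ) (g : X → ℝ) (x : X) : ℝ := supq r (habs g) x

/-- ascending slope at scale `r` -/
noncomputable def Sp (r : ℝ) (g : X → ℝ) (x : X) : ℝ := supq r (hpos g) x

/-- pointwise Lipschitz constant -/
noncomputable def lip (g : X → ℝ) (x : X) : ℝ := ⨅ n : ℕ, Sr (1 / ((n : ℝ) + 1)) g x

/-- descending slope (the generalized gradient norm of the problem) -/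
noncomputable def slm (g : X → ℝ) (x : X) : ℝ :=
  ⨅ n : ℕ, Sp (1 / ((n : ℝ) + 1)) (fun y => - g y) x

end slopes

/-! ### optimal transport -/

section transport
variable {X : Type*} [MetricSpace X] [MeasurableSpace X]

/-- measure with real density -/
noncomputable def dens (m : Measure X) (ρ : X → ℝ) : Measure X :=
  m.withDensity fun x => ENNReal.ofReal (ρ x)

/-- quadratic cost -/
noncomputable def cost (P : Measure (X × X)) : ℝ := ∫ z, dist z.1 z.2 ^ 2 ∂P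

/-- coupling -/
def Cpl (P : Measure (X × X)) (μ ν : Measure X) : Prop :=
  P.map Prod.fst = μ ∧ P.map Prod.snd = ν

/-- optimal plan (between its own marginals) -/
def IsOpt (P : Measure (X × X)) : Prop :=
  ∀ Q : Measure (X × X), Q.map Prod.fst = P.map Prod.fst → Q.map Prod.snd = P.map Prod.snd →
    cost P ≤ cost Q

/-- a pair of continuous potentials for `P` -/
def Pot (φ ψ : X → ℝ) (P : Measure (X × X)) : Prop :=
  Continuous φ ∧ Continuous ψ ∧ (∀ x y, φ x + ψ y ≤ dist x y ^ 2 / 2) ∧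
    ∀ᵐ z ∂P, φ z.1 + ψ z.2 = dist z.1 z.2 ^ 2 / 2

/-- Renyi entropy `∫ ρ^(1-1/N) dm` -/
noncomputable def Ent (N : ℝ) (m : Measure X) (ρ : X → ℝ) : ℝ := ∫ x, ρ x ^ (1 - 1 / N) ∂m

end transport

/-- distortion coefficient for `K = N - 1` (real valued, relevant for `0 ≤ a < π`) -/
noncomputable def tau (N t a : ℝ) : ℝ :=
  if a = 0 then t else t ^ (1 / N) * (Real.sin (t * a) / Real.sin a) ^ (1 - 1 / N)

/-- The reduced curvature-dimension condition `CD(N-1,N)` on a compact space with a probability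
measure, for bounded densities. -/
structure CDr {X : Type*} [MetricSpace X] [MeasurableSpace X] (m : Measure X) (N : ℝ) : Prop where
  cd : ∀ ρ0 ρ1 : X → ℝ, Measurable ρ0 → Measurable ρ1 → (∀ x, 0 ≤ ρ0 x) → (∀ x, 0 ≤ ρ1 x) →
    (∃ C, ∀ x, ρ0 x ≤ C) → (∃ C, ∀ x, ρ1 x ≤ C) → ∫ x, ρ0 x ∂m = 1 → ∫ x, ρ1 x ∂m = 1 →
    ∃ P : Measure (X × X), Cpl P (dens m ρ0) (dens m ρ1) ∧ IsOpt P ∧
      (∀ᵐ z ∂P, dist z.1 z.2 < Real.pi) ∧
      ∀ t ∈ Ioo (0 : ℝ) 1, ∃ ρt : X → ℝ, Measurable ρt ∧ (∀ x, 0 ≤ ρt x) ∧ Integrable ρt m ∧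
        ∫ x, ρt x ∂m = 1 ∧
        (∃ P0 P1 : Measure (X × X), Cpl P0 (dens m ρ0) (dens m ρt) ∧
          Cpl P1 (dens m ρt) (dens m ρ1) ∧
          cost P0 = t ^ 2 * cost P ∧ cost P1 = (1 - t) ^ 2 * cost P) ∧
        Integrable (fun z => tau N (1 - t) (dist z.1 z.2) * ρ0 z.1 ^ (-(1 / N)) +
          tau N t (dist z.1 z.2) * ρ1 z.2 ^ (-(1 / N))) P ∧
        ∫ z, (tau N (1 - t) (dist z.1 z.2) * ρ0 z.1 ^ (-(1 / N)) +
          tau N t (dist z.1 z.2) * ρ1 z.2 ^ (-(1 / N))) ∂P ≤ Ent N m ρt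

/-- coefficient functions in the infinitesimal inequality -/
noncomputable def R1 (N a : ℝ) : ℝ :=
  1 + (1 - 1 / N) / 6 * a ^ 2 + ((1 - 1 / N) / 180 + (1 - 1 / N) ^ 2 / 72) * a ^ 4

/-- coefficient functions in the infinitesimal inequality -/
noncomputable def R2 (N a : ℝ) : ℝ := (1 - 1 / N) * (a ^ 2 / 3 + a ^ 4 / 45)

/-- `f` is bounded by `B` and is an `L²` limit of Lipschitz functions bounded by `B` whose
pointwise Lipschitz constants converge in `L²` to `g0`. -/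
structure Lim {X : Type*} [MetricSpace X] [MeasurableSpace X] (m : Measure X)
    (B : ℝ) (f g0 : X → ℝ) : Prop where
  meas : Measurable f
  bound : ∀ x, |f x| ≤ B
  gmeas : Measurable g0
  gnonneg : ∀ x, 0 ≤ g0 x
  gL2 : Integrable (fun x => g0 x ^ 2) m
  approx : ∃ fn : ℕ → X → ℝ, (∀ n, ∃ K, LipschitzWith K (fn n)) ∧ (∀ n x, |fn n x| ≤ B) ∧
    Tendsto (fun n => ∫ x, (fn n x - f x) ^ 2 ∂m) atTop (𝓝 0) ∧
    Tendsto (fun n => ∫ x, (lip (fn n) x - g0 x) ^ 2 ∂m) atTop (𝓝 0)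

/-- extremal function package (output of module M) -/
structure Extremal {X : Type*} [MetricSpace X] [MeasurableSpace X] (m : Measure X)
    (N B : ℝ) (f g0 : X → ℝ) : Prop where
  lim : Lim m B f g0
  mean : ∫ x, f x ∂m = 0
  var : ∫ x, f x ^ 2 ∂m = 1
  el1 : ∀ g : X → ℝ, (∃ K, LipschitzWith K g) →
    N * ∫ x, f x * g x ∂m ≤ ∫ x, g0 x * lip g x ∂m
  el2 : ∀ Φ Φ' : ℝ → ℝ, (∀ t, HasDerivAt Φ (Φ' t) t) → Continuous Φ' →
    N * ∫ x, f x * Φ (f x) ∂m = ∫ x, g0 x ^ 2 * Φ' (f x) ∂m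

end H13CD
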