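import Pool.Agent.Helper13.CD.OT
import Pool.Agent.Helper13.CD.Util

/-!
# Module G/H: Hopf-Lax semigroup, relaxation, Kuwada type cost bound

`HL t f x = inf_y (f y + d(x,y)²/(2t))`.

* `HL_ineq`: for `0 < s < t`, `f` Lipschitz (continuous suffices),
  `HL t f x ≤ HL s f x - ((t-s)s/(2t)) (lip (HL s f) x)²`.
  Proof: let `L < lip (HL s f) x`; there are `z → x`, `z ≠ x` with
  `|HL s f z - HL s f x| ≥ L d(z,x)`.  Let `y_z` be a minimiser for `z`, `y_x` for `x`.
  `HL s f z - HL s f x ≤ (d(z,y_x)²-d(x,y_x)²)/(2s) ≤ d(z,x)(d(x,y_x)+d(z,x)/2)/s` and symmetrically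
  `HL s f x - HL s f z ≤ d(z,x)(d(z,y_z)+d(z,x)/2)/s`.  So one of `D' = d(x,y_x)`,
  `D'' = d(z,y_z)` is `≥ sL - d(z,x)/2`.  Moreover `HL t f x ≤ f y_x + d(x,y_x)²/(2t)
  = HL s f x - D'²(t-s)/(2st)` and `HL t f x ≤ f y_z + d(x,y_z)²/(2t)
  = HL s f z - D''²/(2s) + d(x,y_z)²/(2t) ≤ HL s f x - D''²(t-s)/(2st) + O(d(z,x))`.
  Let `z → x`, then `L → lip`.
* `relax`: for Lipschitz `f` and `δ > 0` there is a Lipschitz `f'` with `|f-f'| ≤ δ` and
  `∫ (lip f')² ≤ ∫ (slm f)² + δ`.  Proof: let `G_r = Sp r (-f)` (descending slope at scale `r`).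
  For small `s` (`2 s Lip f < r`), `f x - HL s f x = sup_y (f x - f y - d²/(2s)) ≤ s G_r(x)²/2`
  (only `d ≤ 2 s Lip f` matter).  With `s_i = s i/n`, `i = k..n-1`, `n = k²`, `HL_ineq` summed:
  `∫ (f - HL s f) ≥ Σ_i (s/n)(i/(i+1))/2 ∫ (lip HL_{s_i} f)²`, so some `i` has
  `∫ (lip HL_{s_i} f)² ≤ (n/(n-k)) ((k+1)/k) ∫ G_r²`.  `k → ∞`, `r → 0` (dominated convergence).
  `HL_{s_i} f` is Lipschitz and `0 ≤ f - HL_{s_i} f ≤ s Lip²/2`.
* `kuwada` is in `Kuwada.lean`.
-/

open MeasureTheory Set Filter Topology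
open scoped ENNReal NNReal

namespace H13CD

variable {X : Type*} [MetricSpace X]

/-- Hopf-Lax semigroup -/
noncomputable def HL (t : ℝ) (f : X → ℝ) (x : X) : ℝ := ⨅ y, (f y + dist x y ^ 2 / (2 * t))

variable [CompactSpace X]

theorem HL_bdd {f : X → ℝ} {K : ℝ≥0} (hf : LipschitzWith K f) {t : ℝ} (ht : 0 < t) (x : X) :
    BddBelow (range fun y => f y + dist x y ^ 2 / (2 * t)) := by
  obtain ⟨B, hB⟩ := (isCompact_univ (X := X)).exists_bound_of_continuousOn hf.continuous.continuousOn
  refine ⟨-B, ?_⟩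
  rintro _ ⟨y, rfl⟩
  have h1 := hB y (mem_univ _)
  rw [Real.norm_eq_abs, abs_le] at h1
  have h2 : 0 ≤ dist x y ^ 2 / (2 * t) := by positivity
  simp only
  linarith [h1.1]

theorem HL_le {f : X → ℝ} {K : ℝ≥0} (hf : LipschitzWith K f) {t : ℝ} (ht : 0 < t) (x y : X) :
    HL t f x ≤ f y + dist x y ^ 2 / (2 * t) := ciInf_le (HL_bdd hf ht x) y

theorem HL_le_self {f : X → ℝ} {K : ℝ≥0} (hf : LipschitzWith K f) {t : ℝ} (ht : 0 < t) (x : X) :
    HL t f x ≤ f x := by
  have h := HL_le hf ht x x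
  rw [dist_self] at h
  simpa using h

theorem HL_min [Nonempty X] {f : X → ℝ} {K : ℝ≥0} (hf : LipschitzWith K f) {t : ℝ} (_ht : 0 < t) (x : X) :
    ∃ y, HL t f x = f y + dist x y ^ 2 / (2 * t) := by
  have hc : Continuous fun y => f y + dist x y ^ 2 / (2 * t) :=
    hf.continuous.add (((continuous_const.dist continuous_id).pow 2).div_const _)
  obtain ⟨y, -, hy⟩ := isCompact_univ.exists_isMinOn univ_nonempty hc.continuousOn
  refine ⟨y, le_antisymm (ciInf_le (HL_bdd hf _ht x) y) ?_⟩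
  exact le_ciInf fun z => hy (mem_univ z)

theorem HL_dist_le (x y : X) : dist x y ≤ Metric.diam (univ : Set X) :=
  Metric.dist_le_diam_of_mem isCompact_univ.isBounded (mem_univ _) (mem_univ _)

theorem HL_lipschitz {f : X → ℝ} {K : ℝ≥0} (hf : LipschitzWith K f) {t : ℝ} (ht : 0 < t) :
    ∃ K', LipschitzWith K' (HL t f) := by
  have hD : 0 ≤ Metric.diam (univ : Set X) := Metric.diam_nonneg
  refine ⟨⟨Metric.diam (univ : Set X) / t, by positivity⟩, LipschitzWith.of_le_add_mul _ fun x z => ?_⟩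
  haveI : Nonempty X := ⟨x⟩
  obtain ⟨y, hy⟩ := HL_min hf ht z
  have h1 := HL_le hf ht x y
  have h2 := dist_triangle x z y
  have h3 := HL_dist_le x y
  have h4 := HL_dist_le z y
  have h5 : dist x y ^ 2 / (2 * t) - dist z y ^ 2 / (2 * t) ≤
      Metric.diam (univ : Set X) / t * dist x z := by
    rw [← sub_div, div_mul_eq_mul_div, div_le_div_iff₀ (by positivity) ht]
    have h6 : dist x y ^ 2 - dist z y ^ 2 ≤ dist x z * (2 * Metric.diam (univ : Set X)) := by
      nlinarith [dist_nonneg (x := x) (y := y), dist_nonneg (x := z) (y := y), dist_nonneg (x := x) (y := z)]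
    nlinarith
  change HL t f x ≤ HL t f z + Metric.diam (univ : Set X) / t * dist x z
  linarith

theorem HL_ineq [Nonempty X] {f : X → ℝ} {K : ℝ≥0} (hf : LipschitzWith K f) {s t : ℝ}
    (hs : 0 < s) (hst : s < t) (x : X) :
    HL t f x ≤ HL s f x - (t - s) * s / (2 * t) * lip (HL s f) x ^ 2 := by
  have ht : 0 < t := hs.trans hst
  have hts : 0 < t - s := sub_pos.2 hst
  set c := (t - s) * s / (2 * t) with hc
  have hc0 : 0 < c := by positivity
  set E := HL s f x - HL t f x with hE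
  -- the minimiser at `x`
  obtain ⟨y, hy⟩ := HL_min hf hs x
  have hE1 : dist x y ^ 2 * ((t - s) / (2 * s * t)) ≤ E := by
    have h1 := HL_le hf ht x y
    have h2 : dist x y ^ 2 / (2 * s) - dist x y ^ 2 / (2 * t) = dist x y ^ 2 * ((t - s) / (2 * s * t)) := by
      field_simp
    rw [hE, hy]
    linarith
  have hE0 : 0 ≤ E := le_trans (by positivity) hE1
  set L := Real.sqrt (E / c) with hL
  have hL0 : 0 ≤ L := Real.sqrt_nonneg _
  have hL2 : L ^ 2 = E / c := Real.sq_sqrt (by positivity)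
  have hEL : E = c * L ^ 2 := by
    rw [hL2]
    field_simp
  have hcs : c = s ^ 2 * ((t - s) / (2 * s * t)) := by
    rw [hc]
    field_simp
  have hk0 : 0 < (t - s) / (2 * s * t) := by positivity
  set k := (t - s) / (2 * s * t) with hk
  have hD' : dist x y ≤ s * L := by
    have h1 : dist x y ^ 2 ≤ (s * L) ^ 2 := by
      rw [mul_pow]
      have h2 : dist x y ^ 2 * k ≤ s ^ 2 * L ^ 2 * k := by
        rw [hEL, hcs] at hE1
        linarith
      exact le_of_mul_le_mul_right h2 hk0
    exact (abs_le_of_sq_le_sq' h1 (by positivity)).2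
  obtain ⟨K1, hK1⟩ := HL_lipschitz hf hs
  set D := Metric.diam (univ : Set X) with hDdef
  have hD0 : 0 ≤ D := Metric.diam_nonneg
  -- the slope
  have hlip : lip (HL s f) x ≤ L := by
    refine lip_le_of hL0 fun ε hε => ?_
    set M := (K1 : ℝ) + D / t + 1 / (2 * t) with hM
    have hM0 : 0 < M := by
      have : (0 : ℝ) ≤ K1 := K1.2
      positivity
    refine ⟨min 1 (min (s * ε) ((s * ε / 2) ^ 2 * k / M)), by positivity, fun z hz => ?_⟩
    have hz1 : dist z x < 1 := hz.trans_le (min_le_left _ _)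
    have hz2 : dist z x < s * ε := hz.trans_le ((min_le_right _ _).trans (min_le_left _ _))
    have hz3 : dist z x < (s * ε / 2) ^ 2 * k / M := hz.trans_le ((min_le_right _ _).trans (min_le_right _ _))
    have hd0 : 0 ≤ dist z x := dist_nonneg
    obtain ⟨w, hw⟩ := HL_min hf hs z
    -- bound for `D''`
    have hw1 : dist z w ^ 2 * k ≤ E + M * dist z x := by
      have h1 := HL_le hf ht x w
      have h2 : HL s f z ≤ HL s f x + K1 * dist z x := by
        have := hK1.dist_le_mul z x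
        rw [Real.dist_eq] at this
        linarith [le_abs_self (HL s f z - HL s f x)]
      have h3 : dist x w ≤ dist z x + dist z w := by
        have := dist_triangle x z w
        rwa [dist_comm x z] at this
      have h4 : dist x w ^ 2 ≤ dist z w ^ 2 + (2 * D + 1) * dist z x := by
        have h5 := HL_dist_le z w
        nlinarith [dist_nonneg (x := x) (y := w), dist_nonneg (x := z) (y := w)]
      have h5 : dist x w ^ 2 / (2 * t) ≤ dist z w ^ 2 / (2 * t) + (D / t + 1 / (2 * t)) * dist z x := by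
        rw [div_le_iff₀ (by positivity)]
        have h6 : (dist z w ^ 2 / (2 * t) + (D / t + 1 / (2 * t)) * dist z x) * (2 * t) =
            dist z w ^ 2 + (2 * D + 1) * dist z x := by
          field_simp
        rw [h6]
        exact h4
      have h6 : dist z w ^ 2 * k = dist z w ^ 2 / (2 * s) - dist z w ^ 2 / (2 * t) := by
        rw [hk]
        field_simp
      rw [h6, hE, hM]
      rw [hw] at h2
      nlinarith
    have hw2 : dist z w ≤ s * (L + ε / 2) := by
      have h1 : dist z w ^ 2 * k ≤ (s * (L + ε / 2)) ^ 2 * k := by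
        have h2 : M * dist z x ≤ (s * ε / 2) ^ 2 * k := by
          rw [lt_div_iff₀ hM0] at hz3
          linarith
        have h3 : E = s ^ 2 * L ^ 2 * k := by
          rw [hEL, hcs]
          ring
        have h4 : 0 ≤ s ^ 2 * L * ε * k := by positivity
        nlinarith
      have h2 := le_of_mul_le_mul_right h1 hk0
      exact (abs_le_of_sq_le_sq' h2 (by positivity)).2
    rw [abs_le]
    have hsum : dist z x * (2 * (s * (L + ε / 2)) + dist z x) / (2 * s) ≤ (L + ε) * dist z x := by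
      rw [div_le_iff₀ (by positivity)]
      nlinarith
    constructor
    · -- `HL s f x - HL s f z`
      have h1 := HL_le hf hs x w
      have h3 : dist x w ≤ dist z x + dist z w := by
        have := dist_triangle x z w
        rwa [dist_comm x z] at this
      have h4 : dist x w ^ 2 - dist z w ^ 2 ≤ dist z x * (2 * (s * (L + ε / 2)) + dist z x) := by
        nlinarith [dist_nonneg (x := x) (y := w), dist_nonneg (x := z) (y := w)]
      have h5 : dist x w ^ 2 / (2 * s) - dist z w ^ 2 / (2 * s) ≤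
          dist z x * (2 * (s * (L + ε / 2)) + dist z x) / (2 * s) := by
        rw [← sub_div]
        exact div_le_div_of_nonneg_right h4 (by positivity)
      linarith
    · have h1 := HL_le hf hs z y
      have h3 := dist_triangle z x y
      have h4 : dist z y ^ 2 - dist x y ^ 2 ≤ dist z x * (2 * (s * (L + ε / 2)) + dist z x) := by
        have h6 : 0 ≤ s * ε := by positivity
        nlinarith [dist_nonneg (x := z) (y := y), dist_nonneg (x := x) (y := y)]
      have h5 : dist z y ^ 2 / (2 * s) - dist x y ^ 2 / (2 * s) ≤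
          dist z x * (2 * (s * (L + ε / 2)) + dist z x) / (2 * s) := by
        rw [← sub_div]
        exact div_le_div_of_nonneg_right h4 (by positivity)
      linarith
  have h1 : lip (HL s f) x ^ 2 ≤ L ^ 2 := pow_le_pow_left₀ (lip_nonneg _ _) hlip 2
  have h2 : c * lip (HL s f) x ^ 2 ≤ E := by
    rw [hEL]
    exact mul_le_mul_of_nonneg_left h1 hc0.le
  rw [hE] at h2
  linarith

/-- `f - HL s f` is controlled by the descending slope -/
theorem HL_defect [Nonempty X] {f : X → ℝ} {K : ℝ≥0} (hf : LipschitzWith K f) {s r : ℝ} (hs : 0 < s)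
    (hr : 2 * s * K < r) (x : X) : f x - HL s f x ≤ s / 2 * Sp r (fun y => -f y) x ^ 2 := by
  obtain ⟨y, hy⟩ := HL_min hf hs x
  have h1 := HL_le_self hf hs x
  have h2 := hf.dist_le_mul x y
  rw [Real.dist_eq] at h2
  have h3 := le_abs_self (f x - f y)
  have hd : dist x y ≤ 2 * s * K := by
    by_contra hd
    rw [not_le] at hd
    have h4 : dist x y ^ 2 / (2 * s) ≤ K * dist x y := by linarith
    rw [div_le_iff₀ (by positivity)] at h4
    have h5 : (0 : ℝ) ≤ K := K.2
    have h6 : 0 < dist x y := lt_of_le_of_lt (by positivity) hd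
    nlinarith
  have h4 := sub_le_Sp hf.neg (r := r) (z := y) (x := x) (by rw [dist_comm]; linarith)
  rw [dist_comm] at h4
  have h5 : f x - HL s f x ≤ Sp r (fun y => -f y) x * dist x y - dist x y ^ 2 / (2 * s) := by
    have h6 : f x - f y ≤ Sp r (fun y => -f y) x * dist x y := by
      refine le_trans (le_of_eq ?_) h4
      simp only [Pi.neg_apply]
      ring
    linarith
  have h6 : Sp r (fun y => -f y) x * dist x y - dist x y ^ 2 / (2 * s) ≤
      s / 2 * Sp r (fun y => -f y) x ^ 2 := by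
    have h7 : 0 ≤ (dist x y - s * Sp r (fun y => -f y) x) ^ 2 / (2 * s) := by positivity
    have h8 : (dist x y - s * Sp r (fun y => -f y) x) ^ 2 / (2 * s) =
        dist x y ^ 2 / (2 * s) - Sp r (fun y => -f y) x * dist x y +
          s / 2 * Sp r (fun y => -f y) x ^ 2 := by
      field_simp
      ring
    linarith
  linarith

theorem HL_tendsto_Sp (f : X → ℝ) {K : ℝ≥0} (hf : LipschitzWith K f) (x : X) :
    Tendsto (fun n : ℕ => Sp (1 / ((n : ℝ) + 1)) (fun y => -f y) x) atTop (𝓝 (slm f x)) := by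
  have hanti : Antitone fun n : ℕ => Sp (1 / ((n : ℝ) + 1)) (fun y => -f y) x := by
    intro a b hab
    refine Sp_mono hf.neg ?_ x
    exact one_div_le_one_div_of_le (by positivity) (by exact_mod_cast Nat.add_le_add_right hab 1)
  exact tendsto_atTop_ciInf hanti ⟨0, by rintro _ ⟨n, rfl⟩; exact Sp_nonneg _ _ _⟩

variable [MeasurableSpace X] [BorelSpace X] {m : Measure X} [IsProbabilityMeasure m]

theorem HL_integrable_sq {g : X → ℝ} (hg : Measurable g) {C : ℝ} (h0 : ∀ x, 0 ≤ g x) (hC : ∀ x, g x ≤ C) :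
    Integrable (fun x => g x ^ 2) m := by
  refine Integrable.of_bound (hg.pow_const 2).aestronglyMeasurable (C ^ 2) (ae_of_all _ fun x => ?_)
  rw [Real.norm_eq_abs, abs_of_nonneg (sq_nonneg _)]
  exact pow_le_pow_left₀ (h0 x) (hC x) 2

theorem HL_integrable {g : X → ℝ} {K : ℝ≥0} (hg : LipschitzWith K g) : Integrable g m := by
  obtain ⟨B, hB⟩ := (isCompact_univ (X := X)).exists_bound_of_continuousOn hg.continuous.continuousOn
  exact Integrable.of_bound hg.continuous.measurable.aestronglyMeasurable B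
    (ae_of_all _ fun x => hB x (mem_univ _))

/-- telescoping -/
theorem HL_telescope {f : X → ℝ} {K : ℝ≥0} (hf : LipschitzWith K f) {s : ℝ} (hs : 0 < s) {n k : ℕ}
    (hk : 1 ≤ k) (hkn : k ≤ n) :
    ∑ i ∈ Finset.Ico k n, s / (2 * n) * (k / (k + 1)) * ∫ x, lip (HL (s * i / n) f) x ^ 2 ∂m ≤
      ∫ x, (f x - HL s f x) ∂m := by
  haveI : Nonempty X := by
    by_contra h
    rw [not_nonempty_iff] at h
    have h1 : m univ = 1 := measure_univ
    rw [univ_eq_empty_iff.2 h, measure_empty] at h1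
    exact zero_ne_one h1
  have hn : 0 < n := by omega
  have hnR : (0 : ℝ) < n := by exact_mod_cast hn
  have hkR : (0 : ℝ) < k := by exact_mod_cast hk
  -- pointwise / integrated step
  have hstep : ∀ i ∈ Finset.Ico k n, s / (2 * n) * (k / (k + 1)) * ∫ x, lip (HL (s * i / n) f) x ^ 2 ∂m ≤
      ∫ x, HL (s * i / n) f x ∂m - ∫ x, HL (s * (i + 1 : ℕ) / n) f x ∂m := by
    intro i hi
    rw [Finset.mem_Ico] at hi
    have hiR : (k : ℝ) ≤ i := by exact_mod_cast hi.1
    have hi0 : (0 : ℝ) < i := hkR.trans_le hiR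
    have hsi : 0 < s * i / n := by positivity
    have hsi' : 0 < s * (i + 1 : ℕ) / n := by positivity
    have hlt : s * i / n < s * (i + 1 : ℕ) / n := by
      refine div_lt_div_of_pos_right ?_ hnR
      push_cast
      nlinarith
    obtain ⟨K1, hK1⟩ := HL_lipschitz hf hsi
    obtain ⟨K2, hK2⟩ := HL_lipschitz hf hsi'
    have hI : Integrable (fun x => lip (HL (s * i / n) f) x ^ 2) m :=
      HL_integrable_sq (measurable_lip hK1) (fun x => lip_nonneg _ _) (fun x => lip_le_const hK1 x)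
    rw [← integral_sub (HL_integrable hK1) (HL_integrable hK2), ← integral_const_mul]
    refine integral_mono (hI.const_mul _) ((HL_integrable hK1).sub (HL_integrable hK2)) fun x => ?_
    have h1 := HL_ineq hf hsi hlt x
    have h2 : s / (2 * n) * (k / (k + 1)) ≤
        (s * (i + 1 : ℕ) / n - s * i / n) * (s * i / n) / (2 * (s * (i + 1 : ℕ) / n)) := by
      have h3 : (s * (i + 1 : ℕ) / n - s * i / n) * (s * i / n) / (2 * (s * (i + 1 : ℕ) / n)) =
          s / (2 * n) * (i / (i + 1)) := by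
        push_cast
        field_simp
        ring
      rw [h3]
      refine mul_le_mul_of_nonneg_left ?_ (by positivity)
      rw [div_le_div_iff₀ (by positivity) (by positivity)]
      nlinarith
    have h3 := mul_le_mul_of_nonneg_right h2 (sq_nonneg (lip (HL (s * i / n) f) x))
    simp only
    linarith
  refine (Finset.sum_le_sum hstep).trans ?_
  have htel : ∑ i ∈ Finset.Ico k n, (∫ x, HL (s * i / n) f x ∂m - ∫ x, HL (s * (i + 1 : ℕ) / n) f x ∂m) =
      ∫ x, HL (s * k / n) f x ∂m - ∫ x, HL (s * n / n) f x ∂m := by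
    have hF : ∀ (F : ℕ → ℝ) (N : ℕ), k ≤ N →
        ∑ i ∈ Finset.Ico k N, (F i - F (i + 1)) = F k - F N := by
      intro F N hN
      induction N, hN using Nat.le_induction with
      | base => simp
      | succ N hN ih =>
        rw [Finset.sum_Ico_succ_top hN, ih]
        ring
    exact hF (fun i : ℕ => ∫ x, HL (s * i / n) f x ∂m) n hkn
  rw [htel]
  have hsn : s * n / n = s := by field_simp
  rw [hsn]
  have hsk : 0 < s * k / n := by positivity
  obtain ⟨K1, hK1⟩ := HL_lipschitz hf hsk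
  obtain ⟨K2, hK2⟩ := HL_lipschitz hf hs
  rw [integral_sub (HL_integrable hf) (HL_integrable hK2)]
  have h1 : ∫ x, HL (s * k / n) f x ∂m ≤ ∫ x, f x ∂m :=
    integral_mono (HL_integrable hK1) (HL_integrable hf) fun x => HL_le_self hf hsk x
  linarith

theorem relax {f : X → ℝ} {K : ℝ≥0} (hf : LipschitzWith K f) {δ : ℝ} (hδ : 0 < δ) :
    ∃ (f' : X → ℝ) (K' : ℝ≥0), LipschitzWith K' f' ∧ (∀ x, |f x - f' x| ≤ δ) ∧
      ∫ x, lip f' x ^ 2 ∂m ≤ ∫ x, slm f x ^ 2 ∂m + δ := by
  haveI : Nonempty X := by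
    by_contra h
    rw [not_nonempty_iff] at h
    have h1 : m univ = 1 := measure_univ
    rw [univ_eq_empty_iff.2 h, measure_empty] at h1
    exact zero_ne_one h1
  have hK0 : (0 : ℝ) ≤ K := K.2
  -- the scale `r`
  have hlim : Tendsto (fun n : ℕ => ∫ x, Sp (1 / ((n : ℝ) + 1)) (fun y => -f y) x ^ 2 ∂m) atTop
      (𝓝 (∫ x, slm f x ^ 2 ∂m)) := by
    refine tendsto_integral_of_dominated_convergence (fun _ => (K : ℝ) ^ 2) (fun n => ?_)
      (integrable_const _) (fun n => ae_of_all _ fun x => ?_) (ae_of_all _ fun x => ?_)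
    · exact ((measurable_Sp hf.neg _).pow_const 2).aestronglyMeasurable
    · rw [Real.norm_eq_abs, abs_of_nonneg (sq_nonneg _)]
      exact pow_le_pow_left₀ (Sp_nonneg _ _ _) (Sp_le hf.neg _ _) 2
    · exact (HL_tendsto_Sp f hf x).pow 2
  have hev : ∀ᶠ n : ℕ in atTop, ∫ x, Sp (1 / ((n : ℝ) + 1)) (fun y => -f y) x ^ 2 ∂m <
      ∫ x, slm f x ^ 2 ∂m + δ / 2 := hlim.eventually_lt_const (by linarith)
  obtain ⟨n0, hn0⟩ := hev.exists
  set r : ℝ := 1 / ((n0 : ℝ) + 1) with hr
  have hr0 : 0 < r := by positivity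
  set A := ∫ x, Sp r (fun y => -f y) x ^ 2 ∂m with hA
  have hA0 : 0 ≤ A := integral_nonneg fun x => sq_nonneg _
  -- the time `s`
  set s : ℝ := min (r / (2 * K + 1) / 2) (δ / (K ^ 2 + 1)) with hs
  have hs0 : 0 < s := by positivity
  have hsr : 2 * s * K < r := by
    have h1 : s ≤ r / (2 * K + 1) / 2 := min_le_left _ _
    have h2 : s * (2 * K) ≤ r / 2 := by
      have h3 : s * (2 * K) ≤ r / (2 * K + 1) / 2 * (2 * K) :=
        mul_le_mul_of_nonneg_right h1 (by positivity)
      refine h3.trans ?_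
      rw [div_div, div_mul_eq_mul_div, div_le_div_iff₀ (by positivity) (by positivity)]
      nlinarith
    linarith
  have hsδ : s * K ^ 2 ≤ δ := by
    have h1 : s ≤ δ / (K ^ 2 + 1) := min_le_right _ _
    have h3 : s * K ^ 2 ≤ δ / (K ^ 2 + 1) * K ^ 2 := mul_le_mul_of_nonneg_right h1 (by positivity)
    refine h3.trans ?_
    rw [div_mul_eq_mul_div, div_le_iff₀ (by positivity)]
    nlinarith
  -- the number of steps
  obtain ⟨k, hk⟩ := exists_nat_gt (4 * A / δ + 1)
  have hk1 : (1 : ℝ) < k := lt_of_le_of_lt (by linarith [show 0 ≤ 4 * A / δ by positivity]) hk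
  have hkN : 1 < k := by exact_mod_cast hk1
  have hkδ : 2 * A < (δ / 2) * (k - 1) := by
    have h1 : 4 * A / δ < k - 1 := by linarith
    rw [div_lt_iff₀ hδ] at h1
    linarith
  set n := k * k with hn
  have hkn : k ≤ n := by nlinarith
  have htele := HL_telescope (m := m) hf hs0 (n := n) (k := k) (by omega) hkn
  have hdef : ∫ x, (f x - HL s f x) ∂m ≤ s / 2 * A := by
    rw [hA, ← integral_const_mul]
    obtain ⟨K2, hK2⟩ := HL_lipschitz hf hs0
    refine integral_mono ((HL_integrable hf).sub (HL_integrable hK2))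
      ((HL_integrable_sq (measurable_Sp hf.neg _) (fun x => Sp_nonneg _ _ _)
        (fun x => Sp_le hf.neg _ _)).const_mul _) fun x => ?_
    exact HL_defect hf hs0 hsr x
  -- pigeonhole
  obtain ⟨i, hi, hi2⟩ : ∃ i ∈ Finset.Ico k n, ∫ x, lip (HL (s * i / n) f) x ^ 2 ∂m ≤ A + δ / 2 := by
    by_contra hcon
    push Not at hcon
    have h1 : ∑ i ∈ Finset.Ico k n, s / (2 * n) * (k / (k + 1)) * (A + δ / 2) ≤
        ∑ i ∈ Finset.Ico k n, s / (2 * n) * (k / (k + 1)) * ∫ x, lip (HL (s * i / n) f) x ^ 2 ∂m :=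
      Finset.sum_le_sum fun i hi => mul_le_mul_of_nonneg_left (hcon i hi).le (by positivity)
    rw [Finset.sum_const, Nat.card_Ico, nsmul_eq_mul, Nat.cast_sub hkn] at h1
    have h2 : ((n : ℝ) - k) * (s / (2 * n) * (k / (k + 1)) * (A + δ / 2)) ≤ s / 2 * A :=
      h1.trans (htele.trans hdef)
    have hnR : (n : ℝ) = k * k := by rw [hn]; push_cast; ring
    rw [hnR] at h2
    have h3 : ((k : ℝ) * k - k) * (s / (2 * (k * k)) * (k / (k + 1)) * (A + δ / 2)) =
        s / 2 * ((k - 1) / (k + 1) * (A + δ / 2)) := by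
      field_simp
    rw [h3] at h2
    have h4 : (k - 1) / (k + 1) * (A + δ / 2) ≤ A := le_of_mul_le_mul_left h2 (by positivity)
    rw [div_mul_eq_mul_div, div_le_iff₀ (by positivity)] at h4
    nlinarith
  rw [Finset.mem_Ico] at hi
  have hiR : (k : ℝ) ≤ i := by exact_mod_cast hi.1
  have hiR2 : (i : ℝ) ≤ n := by exact_mod_cast hi.2.le
  have hi0 : (0 : ℝ) < i := by linarith
  have hnR0 : (0 : ℝ) < n := by linarith
  have hsi : 0 < s * i / n := by positivity
  have hsi' : s * i / n ≤ s := by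
    rw [div_le_iff₀ hnR0]
    nlinarith
  obtain ⟨K', hK'⟩ := HL_lipschitz hf hsi
  refine ⟨HL (s * i / n) f, K', hK', fun x => ?_, by linarith⟩
  have h1 := HL_le_self hf hsi x
  have h2 := HL_defect hf hsi (r := r) (by nlinarith) x
  have h3 : Sp r (fun y => -f y) x ^ 2 ≤ K ^ 2 := pow_le_pow_left₀ (Sp_nonneg _ _ _) (Sp_le hf.neg _ _) 2
  rw [abs_of_nonneg (by linarith)]
  have h4 : s * i / n / 2 * Sp r (fun y => -f y) x ^ 2 ≤ s * K ^ 2 := by
    have h5 : s * i / n / 2 ≤ s := by linarith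
    exact mul_le_mul h5 h3 (sq_nonneg _) hs0.le
  linarith

end H13CD
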