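import Pool.Agent.Helper13.CD.DILim
import Pool.Agent.Helper84.CD.Expand

/-!
# Module S3: Lichnerowicz inequality

* `lichnerowicz`: `f` Lipschitz, `∫ f = 0`.  For small `ε > 0`, `u0 = (1-(N-1)ε f)^(-1/(N-1))`,
  `ρ0 = u0^(-N) = (1-(N-1)εf)^q`, `Ent ρ0 = ∫ (1-(N-1)εf) = 1`, `M = ∫ρ0 ≥ 1 + (N/2)ε²∫f² - Cε³`,
  `ρ1 = M` constant, `Ent ρ1 = M^(1-1/N) ≥ 1 + ((N-1)/2) ε² ∫f² - Cε³`.  `DI_lim` with
  `R1 ≥ 1 + (p/6)a²`, `R2 ≥ p a²/3`, and `lip u0 · ρ0 ≤ ε lip f`:
  `((N-1)/2) ε² ∫f² - Cε³ + (p/2)(1-Cε) ∫ a² dP ≤ p ε ∫ lip f (x) a / ρ0(x) dP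
     ≤ (p/2)(1-Cε) ∫ a² dP + (p/2)(1+C'ε) ε² ∫ (lip f)² dm`.  Divide by `ε²`, `ε → 0`:
  `(N-1) ∫f² ≤ p ∫ (lip f)²`, i.e. `N ∫ f² ≤ ∫ (lip f)²`.
-/

open MeasureTheory Set Filter Topology
open scoped ENNReal NNReal

namespace H13CD

theorem lich_R1 {N : ℝ} (hN : 1 < N) (a : ℝ) : 1 + (1 - 1 / N) / 6 * a ^ 2 ≤ R1 N a := by
  have hp := di_p_pos hN
  unfold R1
  have h2 : 0 ≤ ((1 - 1 / N) / 180 + (1 - 1 / N) ^ 2 / 72) * a ^ 4 := by positivity
  linarith

theorem lich_R2 {N : ℝ} (hN : 1 < N) (a : ℝ) : (1 - 1 / N) / 3 * a ^ 2 ≤ R2 N a := by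
  have hp := di_p_pos hN
  unfold R2
  have h2 : 0 ≤ (1 - 1 / N) * (a ^ 4 / 45) := by positivity
  nlinarith

variable {X : Type*} [MetricSpace X] [CompactSpace X] [MeasurableSpace X] [BorelSpace X]
  {m : Measure X} [IsProbabilityMeasure m]

theorem lich_lim {f : X → ℝ} {K : ℝ≥0} (hf : LipschitzWith K f) {B : ℝ} (hB : ∀ x, |f x| ≤ B) :
    Lim m B f (lip f) := by
  refine ⟨hf.continuous.measurable, hB, measurable_lip hf, lip_nonneg f, ?_, fun _ => f,
    fun _ => ⟨K, hf⟩, fun _ x => hB x, ?_, ?_⟩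
  · refine di_int (B := (K : ℝ) ^ 2) ((measurable_lip hf).pow_const 2) fun x => ?_
    rw [abs_pow, abs_of_nonneg (lip_nonneg f x)]
    exact pow_le_pow_left₀ (lip_nonneg f x) (lip_le_const hf x) 2
  · simp
  · simp

theorem lich_step {N : ℝ} (hN : 1 < N) (hcd : CDr m N) {f : X → ℝ} {K : ℝ≥0}
    (hf : LipschitzWith K f) (h0 : ∫ x, f x ∂m = 0) {B : ℝ} (hB : ∀ x, |f x| ≤ B) {ε : ℝ}
    (hε : 0 < ε) (hδ : (N - 1) * ε * B < 1) :
    (∫ x, (1 - (N - 1) * ε * f x) ^ (N / (N - 1)) ∂m) ^ (1 - 1 / N) - 1 ≤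
      (1 - 1 / N) / 2 * ε ^ 2 * ((1 + (N - 1) * ε * B) ^ (1 / (N - 1)) *
        (1 - (N - 1) * ε * B) ^ (-(N / (N - 1)))) * ∫ x, lip f x ^ 2 ∂m := by
  have hp := di_p_pos hN
  have hN0 : (0 : ℝ) < N := by linarith
  have hN1 : (0 : ℝ) < N - 1 := by linarith
  set δ := (N - 1) * ε * B with hδdef
  set q := N / (N - 1) with hq
  have hq0 : 0 < q := by positivity
  have hwt : ∀ t ∈ Icc (-B) B, 1 - δ ≤ 1 - (N - 1) * ε * t ∧ 1 - (N - 1) * ε * t ≤ 1 + δ := by
    intro t ht
    have h1 : 0 < (N - 1) * ε := by positivity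
    have h2 := mul_le_mul_of_nonneg_left ht.1 h1.le
    have h3 := mul_le_mul_of_nonneg_left ht.2 h1.le
    constructor
    · linarith
    · rw [hδdef]; linarith
  have hft : ∀ x, f x ∈ Icc (-B) B := fun x => abs_le.mp (hB x)
  have hw := fun x => hwt (f x) (hft x)
  have hwpos : ∀ x, 0 < 1 - (N - 1) * ε * f x := fun x => by linarith [(hw x).1]
  obtain ⟨x0⟩ : Nonempty X := m.nonempty_of_neZero
  have hB0 : 0 ≤ B := (abs_nonneg _).trans (hB x0)
  have hδ0 : 0 ≤ δ := by positivity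
  -- the data
  set U : ℝ → ℝ := fun t => (1 - (N - 1) * ε * t) ^ (-(1 / (N - 1))) with hU
  set U' : ℝ → ℝ := fun t => ε * (1 - (N - 1) * ε * t) ^ (-q) with hU'
  have hUN : ∀ x, U (f x) ^ (-N) = (1 - (N - 1) * ε * f x) ^ q := fun x => by
    simp only [hU]
    rw [← Real.rpow_mul (hwpos x).le]
    congr 1
    rw [hq]
    field_simp
  set M := ∫ x, (1 - (N - 1) * ε * f x) ^ q ∂m with hM
  have hwc : Continuous fun x => 1 - (N - 1) * ε * f x :=
    continuous_const.sub (continuous_const.mul hf.continuous)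
  have hwqc : ∀ r : ℝ, Continuous fun x => (1 - (N - 1) * ε * f x) ^ r := fun r =>
    hwc.rpow_const fun x => Or.inl (hwpos x).ne'
  have hwqi : ∀ r : ℝ, Integrable (fun x => (1 - (N - 1) * ε * f x) ^ r) m := fun r =>
    ot_integrable m (hwqc r)
  have hMlow : (1 - δ) ^ q ≤ M := by
    have := integral_mono (μ := m) (integrable_const _) (hwqi q) fun x =>
      Real.rpow_le_rpow (by linarith) (hw x).1 hq0.le
    simpa using this
  have hMup : M ≤ (1 + δ) ^ q := by
    have := integral_mono (μ := m) (hwqi q) (integrable_const _) fun x =>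
      Real.rpow_le_rpow (hwpos x).le (hw x).2 hq0.le
    simpa using this
  have hMlow0 : 0 < (1 - δ) ^ q := Real.rpow_pos_of_pos (by linarith) _
  have hM0 : 0 < M := hMlow0.trans_le hMlow
  obtain ⟨P, hP, hPo, hle⟩ := DI_lim hN hcd (lich_lim (m := m) hf hB) (U := U) (U' := U')
    (fun t ht => by
      have h1 : 0 < 1 - (N - 1) * ε * t := by linarith [(hwt t ht).1]
      have h2 : HasDerivAt (fun t : ℝ => 1 - (N - 1) * ε * t) (-((N - 1) * ε)) t := by
        simpa using ((hasDerivAt_id t).const_mul ((N - 1) * ε)).const_sub 1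
      have h3 := h2.rpow_const (p := -(1 / (N - 1))) (Or.inl h1.ne')
      refine h3.congr_deriv ?_
      simp only [hU']
      have e : -(1 / (N - 1)) - 1 = -q := by
        rw [hq]
        field_simp
        ring
      rw [e]
      field_simp)
    (by
      refine ContinuousOn.mul continuousOn_const (ContinuousOn.rpow_const (by fun_prop) ?_)
      intro t ht
      exact Or.inl (by linarith [(hwt t ht).1]))
    (fun t ht => Real.rpow_pos_of_pos (by linarith [(hwt t ht).1]) _)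
    (ρ1 := fun _ => M) measurable_const (c := (1 - δ) ^ q) (C := (1 + δ) ^ q) hMlow0
    (fun _ => ⟨hMlow, hMup⟩) (by
      simp only [hUN, integral_const, smul_eq_mul, probReal_univ, one_mul]
      exact hM.symm)
  have hρ0 : (fun x => U (f x) ^ (-N)) = fun x => (1 - (N - 1) * ε * f x) ^ q := funext hUN
  rw [hρ0] at hP
  have hρ0m : Measurable fun x => (1 - (N - 1) * ε * f x) ^ q := (hwqc q).measurable
  have hρ0p : ∀ x, 0 ≤ (1 - (N - 1) * ε * f x) ^ q := fun x => Real.rpow_nonneg (hwpos x).le _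
  have hf0 : IsFiniteMeasure (dens m fun x => (1 - (N - 1) * ε * f x) ^ q) :=
    isFiniteMeasure_dens (hwqi q)
  have hfP : IsFiniteMeasure P := hP.isFiniteMeasure
  set u1 := M ^ (-(1 / N)) with hu1
  set lam := (1 + δ) ^ (-(1 / (N - 1))) with hlam
  have hlam0 : 0 < lam := Real.rpow_pos_of_pos (by linarith) _
  have hu1lam : lam ≤ u1 := by
    have h1 : ((1 + δ) ^ q) ^ (-(1 / N)) ≤ M ^ (-(1 / N)) := by
      refine Real.rpow_le_rpow_of_nonpos hM0 hMup ?_
      have : 0 < 1 / N := by positivity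
      linarith
    have h2 : ((1 + δ) ^ q) ^ (-(1 / N)) = lam := by
      rw [← Real.rpow_mul (by linarith), hlam]
      congr 1
      rw [hq]
      field_simp
    rw [h2] at h1
    exact h1
  have hUlam : ∀ x, lam ≤ U (f x) := fun x => by
    refine Real.rpow_le_rpow_of_nonpos (hwpos x) (hw x).2 ?_
    have : 0 < 1 / (N - 1) := by positivity
    linarith
  have hUc : Continuous fun x => U (f x) := hwqc _
  have hU'c : Continuous fun x => U' (f x) := continuous_const.mul (hwqc _)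
  have hU'p : ∀ x, 0 < U' (f x) := fun x => mul_pos hε (Real.rpow_pos_of_pos (hwpos x) _)
  -- integrability
  have hlm := measurable_lip hf
  have hlb : ∀ x, |lip f x| ≤ K := fun x => by
    rw [abs_of_nonneg (lip_nonneg f x)]; exact lip_le_const hf x
  obtain ⟨D, hD0, hD⟩ := di_exists_diam (X := X)
  have hdc : Continuous fun z : X × X => dist z.1 z.2 := continuous_fst.dist continuous_snd
  obtain ⟨C', hC'0, hC'⟩ := di_exists_bound hU'c
  have i1 : Integrable (fun z : X × X => R1 N (dist z.1 z.2) * u1 +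
      (R2 N (dist z.1 z.2) - 1) * U (f z.1)) P := by
    refine ot_integrable P ?_
    exact (((di_continuous_R1 N).comp hdc).mul continuous_const).add
      ((((di_continuous_R2 N).comp hdc).sub continuous_const).mul (hUc.comp continuous_fst))
  have i2 : Integrable (fun z : X × X => |U' (f z.1)| * lip f z.1 * dist z.1 z.2) P := by
    refine di_int (B := C' * K * D) (((hU'c.abs.measurable.comp measurable_fst).mul
      (hlm.comp measurable_fst)).mul hdc.measurable) fun z => ?_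
    rw [abs_mul, abs_mul, abs_abs, abs_of_nonneg (dist_nonneg (x := z.1) (y := z.2))]
    have := K.2
    exact mul_le_mul (mul_le_mul (hC' _) (hlb _) (abs_nonneg _) hC'0.le) (hD _ _) dist_nonneg
      (by positivity)
  set G : X → ℝ := fun x => (1 - 1 / N) / (2 * lam) * (U' (f x) ^ 2 * lip f x ^ 2) with hG
  have hGm : Measurable G := ((hU'c.measurable.pow_const 2).mul (hlm.pow_const 2)).const_mul _
  have hGb : ∀ x, |G x| ≤ (1 - 1 / N) / (2 * lam) * (C' ^ 2 * (K : ℝ) ^ 2) := fun x => by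
    rw [hG, abs_of_nonneg (by positivity)]
    have a1 : U' (f x) ^ 2 ≤ C' ^ 2 := sq_le_sq' (abs_le.mp (hC' x)).1 (abs_le.mp (hC' x)).2
    have a2 : lip f x ^ 2 ≤ (K : ℝ) ^ 2 := pow_le_pow_left₀ (lip_nonneg f x) (lip_le_const hf x) 2
    exact mul_le_mul_of_nonneg_left (mul_le_mul a1 a2 (by positivity) (by positivity))
      (by positivity)
  have i3 : Integrable (fun z : X × X => G z.1) P :=
    di_int (hGm.comp measurable_fst) fun z => hGb _
  have i4 : Integrable (fun z : X × X => u1 - U (f z.1)) P :=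
    ot_integrable P (continuous_const.sub (hUc.comp continuous_fst))
  -- pointwise inequality
  have hpt : ∀ z : X × X, u1 - U (f z.1) ≤ (R1 N (dist z.1 z.2) * u1 +
      (R2 N (dist z.1 z.2) - 1) * U (f z.1)) -
      (1 - 1 / N) * (|U' (f z.1)| * lip f z.1 * dist z.1 z.2) + G z.1 := by
    intro z
    set a := dist z.1 z.2 with ha
    have b1 := mul_le_mul_of_nonneg_right (lich_R1 hN a) (hlam0.le.trans hu1lam)
    have b2 := mul_le_mul_of_nonneg_right (lich_R2 hN a) (hlam0.le.trans (hUlam z.1))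
    have b3 : (1 - 1 / N) / 6 * a ^ 2 * lam ≤ (1 - 1 / N) / 6 * a ^ 2 * u1 := by gcongr
    have b4 : (1 - 1 / N) / 3 * a ^ 2 * lam ≤ (1 - 1 / N) / 3 * a ^ 2 * U (f z.1) := by
      have := hUlam z.1
      gcongr
    rw [abs_of_pos (hU'p z.1)]
    have b5 : (1 - 1 / N) * (U' (f z.1) * lip f z.1 * a) ≤
        (1 - 1 / N) / 2 * lam * a ^ 2 + G z.1 := by
      have e1 : (1 - 1 / N) / 2 * lam * a ^ 2 + G z.1 -
          (1 - 1 / N) * (U' (f z.1) * lip f z.1 * a) =
          (1 - 1 / N) / (2 * lam) * (lam * a - U' (f z.1) * lip f z.1) ^ 2 := by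
        simp only [hG]
        field_simp
        ring
      have e2 : 0 ≤ (1 - 1 / N) / (2 * lam) * (lam * a - U' (f z.1) * lip f z.1) ^ 2 := by
        positivity
      linarith
    nlinarith [b1, b2, b3, b4, b5]
  have hkey : ∫ z, (u1 - U (f z.1)) ∂P ≤ ∫ z, G z.1 ∂P := by
    have c1 := integral_mono i4 ((i1.sub (i2.const_mul (1 - 1 / N))).add i3) hpt
    have c2 : ∫ z, ((R1 N (dist z.1 z.2) * u1 +
      (R2 N (dist z.1 z.2) - 1) * U (f z.1)) -
      (1 - 1 / N) * (|U' (f z.1)| * lip f z.1 * dist z.1 z.2) + G z.1) ∂P =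
      ∫ z, (R1 N (dist z.1 z.2) * u1 + (R2 N (dist z.1 z.2) - 1) * U (f z.1)) ∂P -
      (1 - 1 / N) * ∫ z, |U' (f z.1)| * lip f z.1 * dist z.1 z.2 ∂P + ∫ z, G z.1 ∂P := by
      rw [← integral_const_mul, ← integral_sub i1 (i2.const_mul (1 - 1 / N))]
      exact integral_add (i1.sub (i2.const_mul (1 - 1 / N))) i3
    have c3 : ∫ z, (u1 - U (f z.1)) ∂P ≤ ∫ z, (R1 N (dist z.1 z.2) * u1 +
      (R2 N (dist z.1 z.2) - 1) * U (f z.1)) ∂P -
      (1 - 1 / N) * ∫ z, |U' (f z.1)| * lip f z.1 * dist z.1 z.2 ∂P + ∫ z, G z.1 ∂P := by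
      rw [← c2]
      exact c1
    linarith
  -- evaluate
  have hleft : ∫ z, (u1 - U (f z.1)) ∂P = M ^ (1 - 1 / N) - 1 := by
    have i5 : Integrable (fun z : X × X => U (f z.1)) P :=
      ot_integrable P (hUc.comp continuous_fst)
    rw [integral_sub (integrable_const _) i5]
    have d1 : ∫ _z : X × X, u1 ∂P = M ^ (1 - 1 / N) := by
      have e1 := hP.integral_snd (g := fun _ => u1) aestronglyMeasurable_const
      rw [e1, integral_dens measurable_const fun _ => hM0.le]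
      simp only [integral_const, smul_eq_mul, probReal_univ, one_mul]
      have := Real.rpow_add hM0 1 (-(1 / N))
      rw [Real.rpow_one] at this
      rw [hu1, ← this]
      congr 1
    have d2 : ∫ z, U (f z.1) ∂P = 1 := by
      rw [hP.integral_fst (g := fun x => U (f x)) hUc.aestronglyMeasurable,
        integral_dens hρ0m hρ0p]
      have e1 : ∀ x, (1 - (N - 1) * ε * f x) ^ q * U (f x) = 1 - (N - 1) * ε * f x := fun x => by
        simp only [hU]
        rw [← Real.rpow_add (hwpos x)]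
        have : q + -(1 / (N - 1)) = 1 := by
          rw [hq]
          field_simp
          ring
        rw [this, Real.rpow_one]
      simp only [e1]
      have hfi : Integrable f m := ot_integrable m hf.continuous
      rw [integral_sub (integrable_const _) (hfi.const_mul _), integral_const_mul, h0]
      simp
    rw [d1]
    congr 1
  have hright : ∫ z, G z.1 ∂P ≤ (1 - 1 / N) / (2 * lam) * (ε ^ 2 * ((1 - δ) ^ (-q) *
      ∫ x, lip f x ^ 2 ∂m)) := by
    rw [hP.integral_fst (g := G) hGm.aestronglyMeasurable, integral_dens hρ0m hρ0p]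
    have e1 : ∀ x, (1 - (N - 1) * ε * f x) ^ q * G x ≤
        (1 - 1 / N) / (2 * lam) * (ε ^ 2 * ((1 - δ) ^ (-q) * lip f x ^ 2)) := fun x => by
      have e2 : (1 - (N - 1) * ε * f x) ^ q * ((1 - (N - 1) * ε * f x) ^ (-q)) ^ 2 =
          (1 - (N - 1) * ε * f x) ^ (-q) := by
        rw [sq, ← mul_assoc, ← Real.rpow_add (hwpos x)]
        have : q + -q = 0 := by ring
        rw [this, Real.rpow_zero, one_mul]
      have e3 : (1 - (N - 1) * ε * f x) ^ (-q) ≤ (1 - δ) ^ (-q) :=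
        Real.rpow_le_rpow_of_nonpos (by linarith) (hw x).1 (by linarith)
      calc (1 - (N - 1) * ε * f x) ^ q * G x = (1 - 1 / N) / (2 * lam) * (ε ^ 2 *
            (((1 - (N - 1) * ε * f x) ^ q * ((1 - (N - 1) * ε * f x) ^ (-q)) ^ 2) *
              lip f x ^ 2)) := by
            simp only [hG, hU']
            ring
        _ = (1 - 1 / N) / (2 * lam) * (ε ^ 2 * ((1 - (N - 1) * ε * f x) ^ (-q) *
              lip f x ^ 2)) := by rw [e2]
        _ ≤ _ := by gcongr
    have hl2 : Integrable (fun x => lip f x ^ 2) m := (lich_lim (m := m) hf hB).gL2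
    have hle2 := integral_mono_of_nonneg (μ := m) (f := fun x => (1 - (N - 1) * ε * f x) ^ q * G x)
      (g := fun x => (1 - 1 / N) / (2 * lam) * (ε ^ 2 * ((1 - δ) ^ (-q) * lip f x ^ 2)))
      (ae_of_all _ fun x => by
        have := hρ0p x
        have h2 : 0 ≤ G x := by simp only [hG]; positivity
        exact mul_nonneg this h2)
      (((hl2.const_mul _).const_mul _).const_mul _) (ae_of_all _ e1)
    simp only [integral_const_mul] at hle2
    exact hle2
  rw [hleft] at hkey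
  refine (hkey.trans hright).trans (le_of_eq ?_)
  have hinv : 1 / lam = (1 + δ) ^ (1 / (N - 1)) := by
    rw [hlam, Real.rpow_neg (by linarith)]
    simp
  rw [← hinv]
  field_simp

theorem lich_t2 (q : ℝ) : ∃ C r : ℝ, 0 ≤ C ∧ 0 < r ∧ ∀ y, |y| < r →
    |(1 + y) ^ q - (1 + q * y + q * (q - 1) / 2 * y ^ 2)| ≤ C * |y| ^ 3 := by
  obtain ⟨C, hC0, hC⟩ := (H84FC.rpow_t2 q).exists_nonneg
  rw [Asymptotics.isBigOWith_iff] at hC
  obtain ⟨r, hr, h⟩ := Metric.eventually_nhds_iff.1 hC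
  refine ⟨C, r, hC0, hr, fun y hy => ?_⟩
  have := h (y := y) (by simpa using hy)
  rwa [Real.norm_eq_abs, norm_pow, Real.norm_eq_abs] at this

theorem lich_t1 (q : ℝ) : ∃ C r : ℝ, 0 ≤ C ∧ 0 < r ∧ ∀ y, |y| < r →
    |(1 + y) ^ q - (1 + q * y)| ≤ C * |y| ^ 2 := by
  obtain ⟨C, hC0, hC⟩ := (H84FC.rpow_t1 q).exists_nonneg
  rw [Asymptotics.isBigOWith_iff] at hC
  obtain ⟨r, hr, h⟩ := Metric.eventually_nhds_iff.1 hC
  refine ⟨C, r, hC0, hr, fun y hy => ?_⟩
  have := h (y := y) (by simpa using hy)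
  rwa [Real.norm_eq_abs, norm_pow, Real.norm_eq_abs] at this

theorem lichnerowicz {N : ℝ} (hN : 1 < N) (hcd : CDr m N) {f : X → ℝ} {K : ℝ≥0}
    (hf : LipschitzWith K f) (h0 : ∫ x, f x ∂m = 0) :
    N * ∫ x, f x ^ 2 ∂m ≤ ∫ x, lip f x ^ 2 ∂m := by
  have hp := di_p_pos hN
  have hN0 : (0 : ℝ) < N := by linarith
  have hN1 : (0 : ℝ) < N - 1 := by linarith
  obtain ⟨B, hB0, hB⟩ := di_exists_bound hf.continuous
  set q := N / (N - 1) with hq
  have hq0 : 0 < q := by positivity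
  obtain ⟨C1, r1, hC1, hr1, ht1⟩ := lich_t2 q
  obtain ⟨C2, r2, hC2, hr2, ht2⟩ := lich_t1 (1 - 1 / N)
  set V := ∫ x, f x ^ 2 ∂m with hV
  set E := ∫ x, lip f x ^ 2 ∂m with hE
  have hV0 : 0 ≤ V := integral_nonneg fun x => sq_nonneg _
  have hfi : Integrable f m := ot_integrable m hf.continuous
  have hf2i : Integrable (fun x => f x ^ 2) m := ot_integrable m (hf.continuous.pow 2)
  set A := C1 * ((N - 1) * B) ^ 3 with hA
  have hA0 : 0 ≤ A := by positivity
  set A' := N / 2 * V + A with hA'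
  have hA'0 : 0 ≤ A' := by positivity
  set A2 := (1 - 1 / N) * A + C2 * A' ^ 2 with hA2
  have hA20 : 0 ≤ A2 := by positivity
  -- the inequality for small ε
  have key : ∀ ε : ℝ, 0 < ε → ε < 1 → (N - 1) * ε * B < 1 → (N - 1) * ε * B < r1 →
      A' * ε ^ 2 < r2 →
      (N - 1) / 2 * V - A2 * ε ≤ (1 - 1 / N) / 2 * ((1 + (N - 1) * ε * B) ^ (1 / (N - 1)) *
        (1 - (N - 1) * ε * B) ^ (-(N / (N - 1)))) * E := by
    intro ε hε hε1 hδ hδ1 hδ2
    have hstep := lich_step hN hcd hf h0 hB hε hδ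
    rw [← hq] at hstep
    set M := ∫ x, (1 - (N - 1) * ε * f x) ^ q ∂m with hM
    have hy : ∀ x, |-((N - 1) * ε * f x)| ≤ (N - 1) * ε * B := fun x => by
      rw [abs_neg, abs_mul, abs_of_pos (by positivity : 0 < (N - 1) * ε)]
      exact mul_le_mul_of_nonneg_left (hB x) (by positivity)
    have hwpos : ∀ x, 0 < 1 - (N - 1) * ε * f x := fun x => by
      have := (abs_le.mp (hy x)).1
      linarith
    have hwc : Continuous fun x => (1 - (N - 1) * ε * f x) ^ q :=
      (continuous_const.sub (continuous_const.mul hf.continuous)).rpow_const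
        fun x => Or.inl (hwpos x).ne'
    have hwi : Integrable (fun x => (1 - (N - 1) * ε * f x) ^ q) m := ot_integrable m hwc
    -- expansion of M
    have hMexp : |M - (1 + N / 2 * ε ^ 2 * V)| ≤ A * ε ^ 3 := by
      have e1 : 1 + N / 2 * ε ^ 2 * V = ∫ x, (1 + q * (-((N - 1) * ε * f x)) +
          q * (q - 1) / 2 * (-((N - 1) * ε * f x)) ^ 2) ∂m := by
        have e2 : ∀ x, 1 + q * (-((N - 1) * ε * f x)) +
          q * (q - 1) / 2 * (-((N - 1) * ε * f x)) ^ 2 =
          1 + (-(N * ε)) * f x + N / 2 * ε ^ 2 * f x ^ 2 := fun x => by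
          rw [hq]
          field_simp
          ring
        simp only [e2]
        have i1 : Integrable (fun x => 1 + (-(N * ε)) * f x) m :=
          (integrable_const _).add (hfi.const_mul _)
        rw [integral_add i1 (hf2i.const_mul _), integral_add (integrable_const _)
          (hfi.const_mul _), integral_const_mul, integral_const_mul, h0, ← hV]
        simp
      have i2 : Integrable (fun x => 1 + q * (-((N - 1) * ε * f x)) +
          q * (q - 1) / 2 * (-((N - 1) * ε * f x)) ^ 2) m := by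
        refine ot_integrable m ?_
        have := hf.continuous
        fun_prop
      rw [e1, hM, ← integral_sub hwi i2]
      have h3 : ‖∫ x, ((1 - (N - 1) * ε * f x) ^ q - (1 + q * (-((N - 1) * ε * f x)) +
          q * (q - 1) / 2 * (-((N - 1) * ε * f x)) ^ 2)) ∂m‖ ≤
          C1 * ((N - 1) * ε * B) ^ 3 * m.real univ := by
        refine norm_integral_le_of_norm_le_const (ae_of_all _ fun x => ?_)
        have h4 := ht1 (-((N - 1) * ε * f x)) ((hy x).trans_lt hδ1)
        rw [← sub_eq_add_neg] at h4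
        rw [Real.norm_eq_abs]
        refine h4.trans ?_
        have := hy x
        gcongr
      rw [probReal_univ, mul_one, Real.norm_eq_abs] at h3
      refine h3.trans (le_of_eq ?_)
      rw [hA]
      ring
    have hε3 : ε ^ 3 ≤ ε ^ 2 := pow_le_pow_of_le_one hε.le hε1.le (by norm_num)
    have hM1 := abs_le.mp hMexp
    have hs : |M - 1| ≤ A' * ε ^ 2 := by
      rw [abs_le]
      have h5 : A * ε ^ 3 ≤ A * ε ^ 2 := mul_le_mul_of_nonneg_left hε3 hA0
      have h6 : 0 ≤ N / 2 * ε ^ 2 * V := by positivity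
      have h6' : A' * ε ^ 2 = N / 2 * ε ^ 2 * V + A * ε ^ 2 := by
        rw [hA']
        ring
      have h6'' : 0 ≤ A * ε ^ 2 := by positivity
      constructor
      · linarith [hM1.1]
      · linarith [hM1.2]
    have h7 := ht2 (M - 1) (hs.trans_lt hδ2)
    have e7 : 1 + (M - 1) = M := by ring
    rw [e7] at h7
    have h8 := (abs_le.mp h7).1
    have h9 : C2 * |M - 1| ^ 2 ≤ C2 * (A' * ε ^ 2) ^ 2 := by
      have := abs_nonneg (M - 1)
      gcongr
    have h10 : (1 - 1 / N) * (N / 2 * ε ^ 2 * V - A * ε ^ 3) ≤ (1 - 1 / N) * (M - 1) := by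
      refine mul_le_mul_of_nonneg_left ?_ hp.le
      linarith [hM1.1]
    have h11 : C2 * (A' * ε ^ 2) ^ 2 ≤ C2 * A' ^ 2 * ε ^ 3 := by
      have h12 : ε ^ 4 ≤ ε ^ 3 := pow_le_pow_of_le_one hε.le hε1.le (by norm_num)
      have h13 : C2 * (A' * ε ^ 2) ^ 2 = C2 * A' ^ 2 * ε ^ 4 := by ring
      rw [h13]
      gcongr
    have h14 : (1 - 1 / N) * (N / 2) = (N - 1) / 2 := by field_simp
    have h15 : ε ^ 2 * ((N - 1) / 2 * V - A2 * ε) ≤ M ^ (1 - 1 / N) - 1 := by
      have h18 : (1 - 1 / N) * (N / 2 * ε ^ 2 * V - A * ε ^ 3) =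
        ε ^ 2 * ((1 - 1 / N) * (N / 2) * V) - (1 - 1 / N) * A * ε ^ 3 := by ring
      rw [h18, h14] at h10
      have h19 : ε ^ 2 * ((N - 1) / 2 * V - A2 * ε) =
          ε ^ 2 * ((N - 1) / 2 * V) - (1 - 1 / N) * A * ε ^ 3 - C2 * A' ^ 2 * ε ^ 3 := by
        rw [hA2]; ring
      rw [h19]
      clear_value M
      generalize (1 - 1 / N) * A * ε ^ 3 = z1 at h10 ⊢
      generalize C2 * A' ^ 2 * ε ^ 3 = z2 at h11 ⊢
      generalize ε ^ 2 * ((N - 1) / 2 * V) = z3 at h10 ⊢
      generalize (1 - 1 / N) * (M - 1) = z4 at h8 h10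
      generalize C2 * |M - 1| ^ 2 = z5 at h8 h9
      generalize C2 * (A' * ε ^ 2) ^ 2 = z6 at h9 h11
      generalize M ^ (1 - 1 / N) = z7 at h8 ⊢
      clear hstep hMexp h7
      linarith only [h8, h9, h10, h11]
    have h16 := h15.trans hstep
    have h17 : (1 - 1 / N) / 2 * ε ^ 2 * ((1 + (N - 1) * ε * B) ^ (1 / (N - 1)) *
        (1 - (N - 1) * ε * B) ^ (-q)) * E = ε ^ 2 * ((1 - 1 / N) / 2 *
        ((1 + (N - 1) * ε * B) ^ (1 / (N - 1)) * (1 - (N - 1) * ε * B) ^ (-q)) * E) := by ring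
    rw [h17] at h16
    exact le_of_mul_le_mul_left h16 (by positivity)
  -- limit
  have l1 : Tendsto (fun ε : ℝ => (N - 1) / 2 * V - A2 * ε) (𝓝[>] 0) (𝓝 ((N - 1) / 2 * V)) := by
    have hc : Continuous fun ε : ℝ => (N - 1) / 2 * V - A2 * ε := by fun_prop
    have := hc.tendsto 0
    rw [mul_zero, sub_zero] at this
    exact this.mono_left nhdsWithin_le_nhds
  have l2 : Tendsto (fun ε : ℝ => (1 - 1 / N) / 2 * ((1 + (N - 1) * ε * B) ^ (1 / (N - 1)) *
        (1 - (N - 1) * ε * B) ^ (-(N / (N - 1)))) * E) (𝓝[>] 0) (𝓝 ((1 - 1 / N) / 2 * E)) := by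
    have hc : ContinuousAt (fun ε : ℝ => (1 - 1 / N) / 2 *
        ((1 + (N - 1) * ε * B) ^ (1 / (N - 1)) *
        (1 - (N - 1) * ε * B) ^ (-(N / (N - 1)))) * E) 0 := by
      refine ContinuousAt.mul (continuousAt_const.mul (ContinuousAt.mul ?_ ?_)) continuousAt_const
      · exact ContinuousAt.rpow_const (by fun_prop) (Or.inl (by norm_num))
      · exact ContinuousAt.rpow_const (by fun_prop) (Or.inl (by norm_num))
    have := hc.tendsto
    simp only [mul_zero, zero_mul, add_zero, sub_zero, Real.one_rpow, mul_one] at this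
    exact this.mono_left nhdsWithin_le_nhds
  have hev : ∀ᶠ ε in 𝓝[>] (0 : ℝ), (N - 1) / 2 * V - A2 * ε ≤
      (1 - 1 / N) / 2 * ((1 + (N - 1) * ε * B) ^ (1 / (N - 1)) *
        (1 - (N - 1) * ε * B) ^ (-(N / (N - 1)))) * E := by
    have f1 : ∀ᶠ ε in 𝓝[>] (0 : ℝ), ε ∈ Ioo (0 : ℝ) 1 := Ioo_mem_nhdsGT one_pos
    have t1 : Tendsto (fun ε : ℝ => (N - 1) * ε * B) (𝓝[>] 0) (𝓝 0) := by
      have hc : Continuous fun ε : ℝ => (N - 1) * ε * B := by fun_prop
      have := hc.tendsto 0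
      rw [mul_zero, zero_mul] at this
      exact this.mono_left nhdsWithin_le_nhds
    have t2 : Tendsto (fun ε : ℝ => A' * ε ^ 2) (𝓝[>] 0) (𝓝 0) := by
      have hc : Continuous fun ε : ℝ => A' * ε ^ 2 := by fun_prop
      have := hc.tendsto 0
      simp only [ne_eq, OfNat.ofNat_ne_zero, not_false_eq_true, zero_pow, mul_zero] at this
      exact this.mono_left nhdsWithin_le_nhds
    filter_upwards [f1, t1.eventually_lt_const one_pos, t1.eventually_lt_const hr1,
      t2.eventually_lt_const hr2] with ε g1 g2 g3 g4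
    exact key ε g1.1 g1.2 g2 g3 g4
  have hfin := le_of_tendsto_of_tendsto l1 l2 hev
  have h20 : (1 - 1 / N) / 2 * E = (N - 1) / 2 * (E / N) := by field_simp
  rw [h20] at hfin
  have h21 : V ≤ E / N := le_of_mul_le_mul_left hfin (by positivity)
  rw [le_div_iff₀ hN0] at h21
  linarith

end H13CD
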