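import Pool.Agent.Helper13.CD.Compact
import Pool.Agent.Helper13.CD.HopfLax
import Pool.Agent.Helper13.CD.Lich
import Pool.Agent.Helper13.CD.Aux13b

/-!
# Module M1: existence of an extremal function, Euler-Lagrange relations

Proof.  By `relax` (then subtract the mean and normalise) there are Lipschitz `fn`, `∫fn = 0`,
`∫fn² = 1`, `∫ (lip fn)² → N`.  By `compact_seq` a subsequence converges to `f` in `L²`.
Parallelogram: `N ∫ ((fn+fk)/2)² ≤ ∫ lip((fn+fk)/2)² ≤ ∫ ((lip fn+lip fk)/2)²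
  = ½∫(lip fn)²+½∫(lip fk)² - ∫((lip fn-lip fk)/2)²`, left side `→ N`, so `lip fn` is Cauchy in `L²`;
limit `g0` (measurable, `≥ 0`), `∫ g0² = N`.

`el1`: `N ∫ (fn+εg-mean)² ≤ ∫ (lip fn + |ε| lip g)²`; `n → ∞`, expand, divide by `ε → 0`.
`el2`: `Φ` is `C¹` with `|Φ'| ≤ L`; for `|ε| L < 1`, `(id+εΦ)∘fn` is Lipschitz with
`lip ≤ (1+εΦ'(fn)) lip fn`; `N ∫ (fn+εΦ(fn)-mean)² ≤ ∫ (1+εΦ'(fn))² (lip fn)²`; `n → ∞` (subsequence
a.e.), divide by `ε → 0±`: `N ∫ f Φ(f) = ∫ g0² Φ'(f)`.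
-/

open MeasureTheory Set Filter Topology
open scoped ENNReal NNReal

namespace H13CD

/-- extremal function before boundedness is known -/
structure PreExt {X : Type*} [MetricSpace X] [MeasurableSpace X] (m : Measure X)
    (N : ℝ) (f g0 : X → ℝ) : Prop where
  meas : Measurable f
  memL2 : MemLp f 2 m
  gmeas : Measurable g0
  gnonneg : ∀ x, 0 ≤ g0 x
  gL2 : Integrable (fun x => g0 x ^ 2) m
  energy : ∫ x, g0 x ^ 2 ∂m = N
  mean : ∫ x, f x ∂m = 0
  var : ∫ x, f x ^ 2 ∂m = 1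
  approx : ∃ fn : ℕ → X → ℝ, (∀ n, ∃ K, LipschitzWith K (fn n)) ∧
    Tendsto (fun n => ∫ x, (fn n x - f x) ^ 2 ∂m) atTop (𝓝 0) ∧
    Tendsto (fun n => ∫ x, (lip (fn n) x - g0 x) ^ 2 ∂m) atTop (𝓝 0)
  el1 : ∀ g : X → ℝ, (∃ K, LipschitzWith K g) →
    N * ∫ x, f x * g x ∂m ≤ ∫ x, g0 x * lip g x ∂m
  el2 : ∀ Φ Φ' : ℝ → ℝ, (∀ t, HasDerivAt Φ (Φ' t) t) → Continuous Φ' → (∃ L, ∀ t, |Φ' t| ≤ L) →
    N * ∫ x, f x * Φ (f x) ∂m = ∫ x, g0 x ^ 2 * Φ' (f x) ∂m

variable {X : Type*} [MetricSpace X] [CompactSpace X] [MeasurableSpace X] [BorelSpace X]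
  {m : Measure X} [IsProbabilityMeasure m]

theorem lipschitz_memLp {f : X → ℝ} {K : ℝ≥0} (hf : LipschitzWith K f) : MemLp f 2 m := by
  obtain ⟨C, hC⟩ := isCompact_univ.exists_bound_of_continuousOn hf.continuous.continuousOn
  exact MemLp.of_bound hf.continuous.aestronglyMeasurable C
    (Eventually.of_forall fun x => hC x (mem_univ _))

theorem lipschitz_integrable {f : X → ℝ} {K : ℝ≥0} (hf : LipschitzWith K f) : Integrable f m :=
  (lipschitz_memLp hf).integrable (by norm_num)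

theorem lip_memLp {f : X → ℝ} {K : ℝ≥0} (hf : LipschitzWith K f) : MemLp (lip f) 2 m :=
  MemLp.of_bound (measurable_lip hf).aestronglyMeasurable (K : ℝ)
    (Eventually.of_forall fun x => by
      rw [Real.norm_eq_abs, abs_of_nonneg (lip_nonneg _ _)]
      exact lip_le_const hf x)

/-- Lichnerowicz for non centred functions -/
theorem lich_var {N : ℝ} (hN : 1 < N) (hcd : CDr m N) {f : X → ℝ} {K : ℝ≥0}
    (hf : LipschitzWith K f) :
    N * (∫ x, f x ^ 2 ∂m - (∫ x, f x ∂m) ^ 2) ≤ ∫ x, lip f x ^ 2 ∂m := by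
  set c := ∫ x, f x ∂m with hc
  have h1 : LipschitzWith K (fun x => f x + (-c)) := by
    intro x y
    simpa using hf x y
  have h2 : ∫ x, (f x + (-c)) ∂m = 0 := by
    rw [integral_add (lipschitz_integrable hf) (integrable_const _)]
    simp [hc]
  have h3 := lichnerowicz hN hcd h1 h2
  simp only [lip_add_const] at h3
  have h4 : ∫ x, (f x + (-c)) ^ 2 ∂m = ∫ x, f x ^ 2 ∂m - c ^ 2 := by
    have e : ∀ x, (f x + (-c)) ^ 2 = f x ^ 2 + (-2 * c * f x + c ^ 2) := fun x => by ring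
    simp only [e]
    have i1 : Integrable (fun x => -2 * c * f x + c ^ 2) m :=
      ((lipschitz_integrable hf).const_mul _).add (integrable_const _)
    rw [integral_add (lipschitz_memLp hf).integrable_sq i1,
      integral_add ((lipschitz_integrable hf).const_mul _) (integrable_const _),
      integral_const_mul]
    simp
    rw [← hc]; ring
  rwa [h4] at h3

theorem exists_min_seq {N : ℝ} (hN : 1 < N)
    (hseq : ∀ δ > 0, ∃ (f : X → ℝ) (K : ℝ≥0), LipschitzWith K f ∧ ∫ x, f x ∂m = 0 ∧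
      ∫ x, f x ^ 2 ∂m = 1 ∧ ∫ x, slm f x ^ 2 ∂m ≤ N + δ) {ε : ℝ} (hε : 0 < ε) :
    ∃ (f : X → ℝ) (K : ℝ≥0), LipschitzWith K f ∧ ∫ x, f x ∂m = 0 ∧
      ∫ x, f x ^ 2 ∂m = 1 ∧ ∫ x, lip f x ^ 2 ∂m ≤ N + ε := by
  set δ := ε / (2 + 3 * N + 3 * ε) with hδ
  have hden : 0 < 2 + 3 * N + 3 * ε := by linarith
  have hδpos : 0 < δ := div_pos hε hden
  have hδε : δ * (2 + 3 * N + 3 * ε) = ε := by rw [hδ]; field_simp
  have hδ3 : δ < 1 / 3 := by
    rw [hδ, div_lt_iff₀ hden]; linarith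
  obtain ⟨f, K, hf, h1, h2, h3⟩ := hseq δ hδpos
  obtain ⟨f', K', hf', h4, h5⟩ := relax (m := m) hf hδpos
  have if1 := lipschitz_integrable (m := m) hf
  have if2 := lipschitz_integrable (m := m) hf'
  have sf1 := (lipschitz_memLp (m := m) hf).integrable_sq
  have sf2 := (lipschitz_memLp (m := m) hf').integrable_sq
  set c := ∫ x, f' x ∂m with hc
  have hc1 : |c| ≤ δ := by
    have : c = ∫ x, (f' x - f x) ∂m := by rw [integral_sub if2 if1, h1, sub_zero]
    rw [this]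
    have := norm_integral_le_of_norm_le_const (μ := m) (f := fun x => f' x - f x) (C := δ)
      (Eventually.of_forall fun x => by
        rw [Real.norm_eq_abs, abs_sub_comm]; exact h4 x)
    simpa using this
  have hf1 : ∫ x, |f x| ∂m ≤ 1 := by
    have := integral_abs_le_sqrt (lipschitz_memLp (m := m) hf).aestronglyMeasurable sf1
    rwa [h2, Real.sqrt_one] at this
  have hV : 1 - 2 * δ ≤ ∫ x, f' x ^ 2 ∂m := by
    have e1 : 1 - 2 * δ ≤ ∫ x, (f x ^ 2 + (- (2 * δ)) * |f x|) ∂m := by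
      rw [integral_add sf1 (if1.abs.const_mul _), integral_const_mul, h2]
      nlinarith
    refine e1.trans (integral_mono (sf1.add (if1.abs.const_mul _)) sf2 fun x => ?_)
    simp only
    have h6 := h4 x
    have h7 : f' x ^ 2 = f x ^ 2 - 2 * f x * (f x - f' x) + (f x - f' x) ^ 2 := by ring
    have h8 : f x * (f x - f' x) ≤ |f x| * δ := by
      refine (le_abs_self _).trans ?_
      rw [abs_mul]
      exact mul_le_mul_of_nonneg_left h6 (abs_nonneg _)
    nlinarith [sq_nonneg (f x - f' x)]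
  set V := ∫ x, f' x ^ 2 ∂m - c ^ 2 with hVdef
  have hV3 : 1 - 3 * δ ≤ V := by
    have : c ^ 2 ≤ δ := by
      have h8 : c ^ 2 ≤ δ ^ 2 := sq_le_sq' (abs_le.mp hc1).1 (abs_le.mp hc1).2
      nlinarith
    rw [hVdef]; linarith
  have hVpos : 0 < V := by linarith
  have hsV : 0 < √V := Real.sqrt_pos.mpr hVpos
  have hsV2 : √V ^ 2 = V := Real.sq_sqrt hVpos.le
  have L1 : LipschitzWith K' (fun x => f' x + (-c)) := by
    intro x y
    simpa using hf' x y
  have L2 : LipschitzWith (‖(√V)⁻¹‖₊ * K') fun x => (√V)⁻¹ * (f' x + (-c)) := by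
    have := (lipschitzWith_smul ((√V)⁻¹)).comp L1
    simpa [Function.comp_def, smul_eq_mul] using this
  refine ⟨_, _, L2, ?_, ?_, ?_⟩
  · rw [integral_const_mul, integral_add if2 (integrable_const _)]
    simp [hc]
  · have e : ∀ x, ((√V)⁻¹ * (f' x + (-c))) ^ 2 =
        V⁻¹ * (f' x ^ 2 + (-2 * c * f' x + c ^ 2)) := fun x => by
      rw [mul_pow, inv_pow, hsV2]; ring
    simp only [e]
    have i1 : Integrable (fun x => -2 * c * f' x + c ^ 2) m :=
      (if2.const_mul _).add (integrable_const _)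
    rw [integral_const_mul, integral_add sf2 i1,
      integral_add (if2.const_mul _) (integrable_const _), integral_const_mul]
    simp only [integral_const, smul_eq_mul]
    rw [← hc]
    simp only [probReal_univ, one_mul]
    have : ∫ x, f' x ^ 2 ∂m + (-2 * c * c + c ^ 2) = V := by rw [hVdef]; ring
    rw [this, inv_mul_cancel₀ hVpos.ne']
  · have e : ∀ x, lip (fun x => (√V)⁻¹ * (f' x + (-c))) x ^ 2 = V⁻¹ * lip f' x ^ 2 := fun x => by
      rw [lip_const_mul L1, lip_add_const, mul_pow, sq_abs, inv_pow, hsV2]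
    simp only [e]
    rw [integral_const_mul, inv_mul_le_iff₀ hVpos]
    have h9 : ∫ x, lip f' x ^ 2 ∂m ≤ N + 2 * δ := by linarith
    refine h9.trans ?_
    have h10 : (1 - 3 * δ) * (N + ε) ≤ V * (N + ε) := mul_le_mul_of_nonneg_right hV3 (by linarith)
    nlinarith


/-- the sequence with all limits -/
theorem exists_seq {N : ℝ} (hN : 1 < N) (hcd : CDr m N)
    (hseq : ∀ δ > 0, ∃ (f : X → ℝ) (K : ℝ≥0), LipschitzWith K f ∧ ∫ x, f x ∂m = 0 ∧
      ∫ x, f x ^ 2 ∂m = 1 ∧ ∫ x, slm f x ^ 2 ∂m ≤ N + δ) :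
    ∃ (fn : ℕ → X → ℝ) (f g0 : X → ℝ), (∀ n, ∃ K, LipschitzWith K (fn n)) ∧
      (∀ n, ∫ x, fn n x ∂m = 0) ∧ (∀ n, ∫ x, fn n x ^ 2 ∂m = 1) ∧
      Tendsto (fun n => ∫ x, lip (fn n) x ^ 2 ∂m) atTop (𝓝 N) ∧
      Measurable f ∧ MemLp f 2 m ∧ Measurable g0 ∧ MemLp g0 2 m ∧ (∀ x, 0 ≤ g0 x) ∧
      Tendsto (fun n => ∫ x, (fn n x - f x) ^ 2 ∂m) atTop (𝓝 0) ∧
      Tendsto (fun n => ∫ x, (lip (fn n) x - g0 x) ^ 2 ∂m) atTop (𝓝 0) ∧
      ∀ᵐ x ∂m, Tendsto (fun n => fn n x) atTop (𝓝 (f x)) := by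
  choose an Kn hL h1 h2 h3 using fun n : ℕ =>
    exists_min_seq hN hseq (m := m) (ε := 1 / ((n : ℝ) + 1)) (by positivity)
  obtain ⟨φ, f, hφ, hfm, hf2, hconv⟩ := compact_seq hN hcd (fn := an) (fun n => ⟨_, hL n⟩)
    (C := N + 1) (fun n => by rw [h2]; linarith) (fun n => by
      refine (h3 n).trans ?_
      have : 1 / ((n : ℝ) + 1) ≤ 1 := by
        rw [div_le_one (by positivity)]; linarith [(Nat.cast_nonneg n : (0 : ℝ) ≤ n)]
      linarith)
  obtain ⟨ψ, hψ, hae⟩ := exists_subseq_ae (fun n => lipschitz_memLp (hL (φ n))) hf2 hconv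
  set fn : ℕ → X → ℝ := fun n => an (φ (ψ n)) with hfn
  have hmono : StrictMono (φ ∘ ψ) := hφ.comp hψ
  have hLn : ∀ n, LipschitzWith (Kn (φ (ψ n))) (fn n) := fun n => hL _
  have hE : ∀ n, ∫ x, lip (fn n) x ^ 2 ∂m ≤ N + 1 / ((n : ℝ) + 1) := by
    intro n
    refine (h3 (φ (ψ n))).trans ?_
    have h4 : n ≤ φ (ψ n) := hmono.id_le n
    have h5 : (n : ℝ) ≤ (φ (ψ n) : ℝ) := by exact_mod_cast h4
    have : 1 / (((φ (ψ n) : ℕ) : ℝ) + 1) ≤ 1 / ((n : ℝ) + 1) := by
      apply one_div_le_one_div_of_le (by positivity); linarith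
    linarith
  have hElow : ∀ n, N ≤ ∫ x, lip (fn n) x ^ 2 ∂m := by
    intro n
    have := lich_var hN hcd (hLn n)
    rw [show (∫ x, fn n x ^ 2 ∂m) = 1 from h2 _, show (∫ x, fn n x ∂m) = 0 from h1 _] at this
    linarith
  have hEt : Tendsto (fun n => ∫ x, lip (fn n) x ^ 2 ∂m) atTop (𝓝 N) := by
    have t1 : Tendsto (fun n : ℕ => N + 1 / ((n : ℝ) + 1)) atTop (𝓝 N) := by
      simpa using (tendsto_one_div_add_atTop_nhds_zero_nat (𝕜 := ℝ)).const_add N
    exact tendsto_of_tendsto_of_tendsto_of_le_of_le tendsto_const_nhds t1 hElow hE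
  have hc2 : Tendsto (fun n => ∫ x, (fn n x - f x) ^ 2 ∂m) atTop (𝓝 0) :=
    hconv.comp hψ.tendsto_atTop
  -- parallelogram
  have key : ∀ n k, ∫ x, (lip (fn n) x - lip (fn k) x) ^ 2 ∂m ≤
      2 * (∫ x, lip (fn n) x ^ 2 ∂m + ∫ x, lip (fn k) x ^ 2 ∂m - 2 * N) +
        N * ∫ x, (fn n x - fn k x) ^ 2 ∂m := by
    intro n k
    have hs : LipschitzWith (Kn (φ (ψ n)) + Kn (φ (ψ k))) (fun x => fn n x + fn k x) :=
      (hLn n).add (hLn k)
    have h4 := lich_var hN hcd hs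
    have mn := lipschitz_memLp (m := m) (hLn n)
    have mk := lipschitz_memLp (m := m) (hLn k)
    have ln := lip_memLp (m := m) (hLn n)
    have lk := lip_memLp (m := m) (hLn k)
    have e1 : ∫ x, (fn n x + fn k x) ∂m = 0 := by
      rw [integral_add (lipschitz_integrable (hLn n)) (lipschitz_integrable (hLn k))]
      rw [show (∫ x, fn n x ∂m) = 0 from h1 _, show (∫ x, fn k x ∂m) = 0 from h1 _, add_zero]
    have e2 : ∫ x, (fn n x + fn k x) ^ 2 ∂m = 4 - ∫ x, (fn n x - fn k x) ^ 2 ∂m := by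
      have j1 : Integrable (fun x => 2 * fn n x ^ 2 + 2 * fn k x ^ 2) m :=
        (mn.integrable_sq.const_mul 2).add (mk.integrable_sq.const_mul 2)
      have e : ∀ x, (fn n x + fn k x) ^ 2 =
          (2 * fn n x ^ 2 + 2 * fn k x ^ 2) - (fn n x - fn k x) ^ 2 := fun x => by ring
      simp only [e]
      have j2 : Integrable (fun x => (fn n x - fn k x) ^ 2) m := (mn.sub mk).integrable_sq
      rw [integral_sub j1 j2, integral_add (mn.integrable_sq.const_mul 2)
        (mk.integrable_sq.const_mul 2), integral_const_mul, integral_const_mul]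
      rw [show (∫ x, fn n x ^ 2 ∂m) = 1 from h2 _, show (∫ x, fn k x ^ 2 ∂m) = 1 from h2 _]
      ring
    have e3 : ∫ x, lip (fun x => fn n x + fn k x) x ^ 2 ∂m ≤
        ∫ x, (lip (fn n) x + lip (fn k) x) ^ 2 ∂m := by
      refine integral_mono (lip_memLp hs).integrable_sq (ln.add lk).integrable_sq fun x => ?_
      exact pow_le_pow_left₀ (lip_nonneg _ _) (lip_add_le (hLn n) (hLn k) x) 2
    have e4 : ∫ x, (lip (fn n) x + lip (fn k) x) ^ 2 ∂m = 2 * ∫ x, lip (fn n) x ^ 2 ∂m +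
        2 * ∫ x, lip (fn k) x ^ 2 ∂m - ∫ x, (lip (fn n) x - lip (fn k) x) ^ 2 ∂m := by
      have j1 : Integrable (fun x => 2 * lip (fn n) x ^ 2 + 2 * lip (fn k) x ^ 2) m :=
        (ln.integrable_sq.const_mul 2).add (lk.integrable_sq.const_mul 2)
      have e : ∀ x, (lip (fn n) x + lip (fn k) x) ^ 2 =
          (2 * lip (fn n) x ^ 2 + 2 * lip (fn k) x ^ 2) - (lip (fn n) x - lip (fn k) x) ^ 2 :=
        fun x => by ring
      simp only [e]
      have j2 : Integrable (fun x => (lip (fn n) x - lip (fn k) x) ^ 2) m :=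
        (ln.sub lk).integrable_sq
      rw [integral_sub j1 j2, integral_add (ln.integrable_sq.const_mul 2)
        (lk.integrable_sq.const_mul 2), integral_const_mul, integral_const_mul]
    rw [e1, e2] at h4
    have h5 := h4.trans e3
    rw [e4] at h5
    nlinarith
  -- Cauchy property
  have hcauchy : ∀ ε > 0, ∃ n0 : ℕ, ∀ n ≥ n0, ∀ k ≥ n0,
      ∫ x, (lip (fn n) x - lip (fn k) x) ^ 2 ∂m ≤ ε := by
    intro ε hε
    have t1 : ∀ᶠ n in atTop, ∫ x, lip (fn n) x ^ 2 ∂m < N + ε / 8 :=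
      hEt.eventually_lt_const (by linarith)
    have t2 : ∀ᶠ n in atTop, ∫ x, (fn n x - f x) ^ 2 ∂m < ε / (8 * N) :=
      hc2.eventually_lt_const (by positivity)
    obtain ⟨n0, h0⟩ := eventually_atTop.mp (t1.and t2)
    refine ⟨n0, fun n hn k hk => ?_⟩
    obtain ⟨a1, a2⟩ := h0 n hn
    obtain ⟨b1, b2⟩ := h0 k hk
    have mn := lipschitz_memLp (m := m) (hLn n)
    have mk := lipschitz_memLp (m := m) (hLn k)
    have h6 : ∫ x, (fn n x - fn k x) ^ 2 ∂m ≤
        2 * ∫ x, (fn n x - f x) ^ 2 ∂m + 2 * ∫ x, (fn k x - f x) ^ 2 ∂m := by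
      have j1 : Integrable (fun x => (fn n x - f x) ^ 2) m := (mn.sub hf2).integrable_sq
      have j2 : Integrable (fun x => (fn k x - f x) ^ 2) m := (mk.sub hf2).integrable_sq
      rw [← integral_const_mul, ← integral_const_mul,
        ← integral_add (j1.const_mul 2) (j2.const_mul 2)]
      refine integral_mono (mn.sub mk).integrable_sq ((j1.const_mul 2).add (j2.const_mul 2))
        fun x => ?_
      simp only
      show (fn n x - fn k x) ^ 2 ≤ _
      nlinarith [sq_nonneg ((fn n x - f x) + (fn k x - f x))]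
    have h7 : N * ∫ x, (fn n x - fn k x) ^ 2 ∂m ≤ ε / 2 := by
      have h8 : ∫ x, (fn n x - fn k x) ^ 2 ∂m ≤ ε / (2 * N) := by
        have : ε / (2 * N) = 2 * (ε / (8 * N)) + 2 * (ε / (8 * N)) := by
          field_simp; norm_num
        rw [this]; linarith
      calc N * ∫ x, (fn n x - fn k x) ^ 2 ∂m ≤ N * (ε / (2 * N)) :=
            mul_le_mul_of_nonneg_left h8 (by linarith)
        _ = ε / 2 := by field_simp
    have := key n k
    linarith
  obtain ⟨G, hGm, hG2, hGc⟩ := exists_L2_limit (fun n => lip_memLp (m := m) (hLn n)) hcauchy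
  refine ⟨fn, f, fun x => max (G x) 0, fun n => ⟨_, hLn n⟩, fun n => h1 _, fun n => h2 _, hEt,
    hfm, hf2, hGm.max measurable_const, ?_, fun x => le_max_right _ _, hc2, ?_, hae⟩
  · refine hG2.mono (hGm.max measurable_const).aestronglyMeasurable
      (Eventually.of_forall fun x => ?_)
    rw [Real.norm_eq_abs, Real.norm_eq_abs, abs_of_nonneg (le_max_right _ _)]
    exact max_le (le_abs_self _) (abs_nonneg _)
  · refine squeeze_zero (fun n => integral_nonneg fun x => sq_nonneg _) (fun n => ?_) hGc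
    have ln := lip_memLp (m := m) (hLn n)
    refine integral_mono_of_nonneg (Eventually.of_forall fun x => sq_nonneg _)
      (ln.sub hG2).integrable_sq (Eventually.of_forall fun x => ?_)
    simp only
    show (lip (fn n) x - max (G x) 0) ^ 2 ≤ (lip (fn n) x - G x) ^ 2
    have hl := lip_nonneg (fn n) x
    rcases le_total (G x) 0 with h | h
    · rw [max_eq_right h]; nlinarith
    · rw [max_eq_left h]

/-- `N ∫ f g ≤ ∫ g0 lip g` -/
theorem el1_of_seq {N : ℝ} (hN : 1 < N) (hcd : CDr m N) {fn : ℕ → X → ℝ} {f g0 : X → ℝ}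
    (hL : ∀ n, ∃ K, LipschitzWith K (fn n)) (hmean : ∀ n, ∫ x, fn n x ∂m = 0)
    (hvar : ∀ n, ∫ x, fn n x ^ 2 ∂m = 1)
    (hE : Tendsto (fun n => ∫ x, lip (fn n) x ^ 2 ∂m) atTop (𝓝 N))
    (hf2 : MemLp f 2 m) (hg2 : MemLp g0 2 m)
    (hc1 : Tendsto (fun n => ∫ x, (fn n x - f x) ^ 2 ∂m) atTop (𝓝 0))
    (hc2 : Tendsto (fun n => ∫ x, (lip (fn n) x - g0 x) ^ 2 ∂m) atTop (𝓝 0))
    {g : X → ℝ} {K : ℝ≥0} (hg : LipschitzWith K g) :
    N * ∫ x, f x * g x ∂m ≤ ∫ x, g0 x * lip g x ∂m := by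
  have mg := lipschitz_memLp (m := m) hg
  have lg := lip_memLp (m := m) hg
  have mn : ∀ n, MemLp (fn n) 2 m := fun n => lipschitz_memLp (hL n).choose_spec
  have ln : ∀ n, MemLp (lip (fn n)) 2 m := fun n => lip_memLp (hL n).choose_spec
  have t1 := tendsto_integral_mul mn (fun _ => mg) hf2 mg hc1 (by simp)
  have t2 := tendsto_integral_mul ln (fun _ => lg) hg2 lg hc2 (by simp)
  have hlim : ∀ ε ∈ Ioo (0 : ℝ) 1, 2 * ε * (N * ∫ x, f x * g x ∂m - ∫ x, g0 x * lip g x ∂m) ≤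
      ε ^ 2 * (∫ x, lip g x ^ 2 ∂m - N * (∫ x, g x ^ 2 ∂m - (∫ x, g x ∂m) ^ 2)) := by
    intro ε hε
    have step : ∀ n, N * (1 + 2 * ε * ∫ x, fn n x * g x ∂m +
        ε ^ 2 * (∫ x, g x ^ 2 ∂m - (∫ x, g x ∂m) ^ 2)) ≤
        ∫ x, lip (fn n) x ^ 2 ∂m + 2 * ε * ∫ x, lip (fn n) x * lip g x ∂m +
          ε ^ 2 * ∫ x, lip g x ^ 2 ∂m := by
      intro n
      obtain ⟨Kn, hKn⟩ := hL n
      have hgε : LipschitzWith (‖ε‖₊ * K) fun y => ε * g y := by
        have := (lipschitzWith_smul ε).comp hg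
        simpa [Function.comp_def, smul_eq_mul] using this
      have hs : LipschitzWith (Kn + ‖ε‖₊ * K) (fun x => fn n x + ε * g x) := hKn.add hgε
      have h4 := lich_var hN hcd hs
      have ig := lipschitz_integrable (m := m) hg
      have ifn := lipschitz_integrable (m := m) hKn
      have e1 : ∫ x, (fn n x + ε * g x) ∂m = ε * ∫ x, g x ∂m := by
        rw [integral_add ifn (ig.const_mul ε), integral_const_mul, hmean, zero_add]
      have im : Integrable (fun x => fn n x * g x) m := (mn n).integrable_mul mg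
      have e2 : ∫ x, (fn n x + ε * g x) ^ 2 ∂m = 1 + (2 * ε * ∫ x, fn n x * g x ∂m +
          ε ^ 2 * ∫ x, g x ^ 2 ∂m) := by
        have e : ∀ x, (fn n x + ε * g x) ^ 2 = fn n x ^ 2 +
            (2 * ε * (fn n x * g x) + ε ^ 2 * g x ^ 2) := fun x => by ring
        simp only [e]
        have j : Integrable (fun x => 2 * ε * (fn n x * g x) + ε ^ 2 * g x ^ 2) m :=
          (im.const_mul _).add (mg.integrable_sq.const_mul _)
        rw [integral_add (mn n).integrable_sq j, integral_add (im.const_mul _)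
          (mg.integrable_sq.const_mul _), integral_const_mul, integral_const_mul, hvar]
      have il : Integrable (fun x => lip (fn n) x * lip g x) m := (ln n).integrable_mul lg
      have e3 : ∫ x, lip (fun x => fn n x + ε * g x) x ^ 2 ∂m ≤
          ∫ x, lip (fn n) x ^ 2 ∂m + (2 * ε * ∫ x, lip (fn n) x * lip g x ∂m +
          ε ^ 2 * ∫ x, lip g x ^ 2 ∂m) := by
        have j : Integrable (fun x => 2 * ε * (lip (fn n) x * lip g x) + ε ^ 2 * lip g x ^ 2) m :=
          (il.const_mul _).add (lg.integrable_sq.const_mul _)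
        rw [← integral_const_mul, ← integral_const_mul, ← integral_add (il.const_mul _)
          (lg.integrable_sq.const_mul _), ← integral_add (ln n).integrable_sq j]
        refine integral_mono (lip_memLp hs).integrable_sq ((ln n).integrable_sq.add j) fun x => ?_
        have h5 : lip (fun x => fn n x + ε * g x) x ≤ lip (fn n) x + ε * lip g x := by
          refine (lip_add_le hKn hgε x).trans ?_
          rw [lip_const_mul hg, abs_of_pos hε.1]
        calc lip (fun x => fn n x + ε * g x) x ^ 2 ≤ (lip (fn n) x + ε * lip g x) ^ 2 :=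
              pow_le_pow_left₀ (lip_nonneg _ _) h5 2
          _ = _ := by ring
      rw [e1, e2] at h4
      have h6 := h4.trans e3
      nlinarith
    have l1 : Tendsto (fun n => N * (1 + 2 * ε * ∫ x, fn n x * g x ∂m +
        ε ^ 2 * (∫ x, g x ^ 2 ∂m - (∫ x, g x ∂m) ^ 2))) atTop
        (𝓝 (N * (1 + 2 * ε * ∫ x, f x * g x ∂m +
        ε ^ 2 * (∫ x, g x ^ 2 ∂m - (∫ x, g x ∂m) ^ 2)))) :=
      (((t1.const_mul (2 * ε)).const_add 1).add_const _).const_mul N
    have l2 : Tendsto (fun n => ∫ x, lip (fn n) x ^ 2 ∂m + 2 * ε * ∫ x, lip (fn n) x * lip g x ∂m +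
          ε ^ 2 * ∫ x, lip g x ^ 2 ∂m) atTop (𝓝 (N + 2 * ε * ∫ x, g0 x * lip g x ∂m +
          ε ^ 2 * ∫ x, lip g x ^ 2 ∂m)) :=
      (hE.add (t2.const_mul (2 * ε))).add_const _
    have h7 := le_of_tendsto_of_tendsto' l1 l2 step
    nlinarith
  have := first_var_le one_pos hlim
  linarith

/-- the law identity -/
theorem el2_of_seq {N : ℝ} (hN : 1 < N) (hcd : CDr m N) {fn : ℕ → X → ℝ} {f g0 : X → ℝ}
    (hL : ∀ n, ∃ K, LipschitzWith K (fn n)) (hmean : ∀ n, ∫ x, fn n x ∂m = 0)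
    (hvar : ∀ n, ∫ x, fn n x ^ 2 ∂m = 1)
    (hE : Tendsto (fun n => ∫ x, lip (fn n) x ^ 2 ∂m) atTop (𝓝 N))
    (hfm : Measurable f) (hf2 : MemLp f 2 m) (hgm : Measurable g0) (hg2 : MemLp g0 2 m)
    (hg0 : ∀ x, 0 ≤ g0 x)
    (hc1 : Tendsto (fun n => ∫ x, (fn n x - f x) ^ 2 ∂m) atTop (𝓝 0))
    (hc2 : Tendsto (fun n => ∫ x, (lip (fn n) x - g0 x) ^ 2 ∂m) atTop (𝓝 0))
    (hae : ∀ᵐ x ∂m, Tendsto (fun n => fn n x) atTop (𝓝 (f x)))
    {Φ Φ' : ℝ → ℝ} (hΦ : ∀ t, HasDerivAt Φ (Φ' t) t) (hΦ'c : Continuous Φ') {L : ℝ}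
    (hΦL : ∀ t, |Φ' t| ≤ L) :
    N * ∫ x, f x * Φ (f x) ∂m = ∫ x, g0 x ^ 2 * Φ' (f x) ∂m := by
  have hL0 : 0 ≤ L := (abs_nonneg _).trans (hΦL 0)
  have hΦc : Continuous Φ := continuous_iff_continuousAt.mpr fun t => (hΦ t).continuousAt
  have hΦlip : LipschitzWith (Real.toNNReal L) Φ := by
    refine lipschitzWith_of_nnnorm_deriv_le (fun t => (hΦ t).differentiableAt) fun t => ?_
    rw [(hΦ t).deriv, ← NNReal.coe_le_coe, Real.coe_toNNReal _ hL0]
    exact hΦL t
  have hΦdiff : ∀ s t, |Φ s - Φ t| ≤ L * |s - t| := by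
    intro s t
    have := hΦlip.dist_le_mul s t
    rwa [Real.dist_eq, Real.dist_eq, Real.coe_toNNReal _ hL0] at this
  have mn : ∀ n, MemLp (fn n) 2 m := fun n => lipschitz_memLp (hL n).choose_spec
  have ln : ∀ n, MemLp (lip (fn n)) 2 m := fun n => lip_memLp (hL n).choose_spec
  have hcont : ∀ n, Continuous (fn n) := fun n => (hL n).choose_spec.continuous
  have mΦ : ∀ u : X → ℝ, Measurable u → MemLp u 2 m → MemLp (fun x => Φ (u x)) 2 m := by
    intro u hum hu
    have h0 : MemLp (fun _ : X => |Φ 0|) 2 m := memLp_const _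
    have h1 : MemLp (fun x => L * ‖u x‖) 2 m := hu.norm.const_mul L
    have h2 : MemLp (fun x => |Φ 0| + L * ‖u x‖) 2 m := h0.add h1
    refine MemLp.mono h2 (hΦc.measurable.comp hum).aestronglyMeasurable
      (Eventually.of_forall fun x => ?_)
    have h4 : (0 : ℝ) ≤ |Φ 0| + L * ‖u x‖ := by positivity
    have h5 := hΦdiff (u x) 0
    rw [sub_zero] at h5
    have h6 : |Φ (u x)| ≤ |Φ 0| + |Φ (u x) - Φ 0| := by
      have := abs_add_le (Φ 0) (Φ (u x) - Φ 0)
      rwa [add_sub_cancel] at this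
    rw [Real.norm_eq_abs, Real.norm_eq_abs, abs_of_nonneg h4, Real.norm_eq_abs]
    linarith
  have pn : ∀ n, MemLp (fun x => Φ (fn n x)) 2 m := fun n => mΦ _ (hcont n).measurable (mn n)
  have pf : MemLp (fun x => Φ (f x)) 2 m := mΦ _ hfm hf2
  have hcΦ : Tendsto (fun n => ∫ x, (Φ (fn n x) - Φ (f x)) ^ 2 ∂m) atTop (𝓝 0) := by
    have t : Tendsto (fun n => L ^ 2 * ∫ x, (fn n x - f x) ^ 2 ∂m) atTop (𝓝 0) := by
      simpa using hc1.const_mul (L ^ 2)
    refine squeeze_zero (fun n => integral_nonneg fun x => sq_nonneg _) (fun n => ?_) t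
    rw [← integral_const_mul]
    have j : Integrable (fun x => (fn n x - f x) ^ 2) m := ((mn n).sub hf2).integrable_sq
    refine integral_mono_of_nonneg (Eventually.of_forall fun x => sq_nonneg _) (j.const_mul _)
      (Eventually.of_forall fun x => ?_)
    simp only
    rw [← sq_abs, ← sq_abs (fn n x - f x), ← mul_pow]
    exact pow_le_pow_left₀ (abs_nonneg _) (hΦdiff _ _) 2
  have t1 := tendsto_integral_mul mn pn hf2 pf hc1 hcΦ
  have t2 := tendsto_integral_sq pn pf hcΦ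
  have t3 := tendsto_integral_of_sq pn pf hcΦ
  -- gradient terms
  have bddmul : ∀ (b : ℝ → ℝ), Continuous b → (∃ C, ∀ t, |b t| ≤ C) →
      Tendsto (fun n => ∫ x, lip (fn n) x ^ 2 * b (fn n x) ∂m) atTop
        (𝓝 (∫ x, g0 x ^ 2 * b (f x) ∂m)) := by
    rintro b hb ⟨C, hC⟩
    have hC0 : 0 ≤ C := (abs_nonneg _).trans (hC 0)
    have bm : ∀ n, Measurable fun x => b (fn n x) := fun n => hb.measurable.comp (hcont n).measurable
    have bf : Measurable fun x => b (f x) := hb.measurable.comp hfm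
    have i1 : ∀ n, Integrable (fun x => lip (fn n) x ^ 2 * b (fn n x)) m := fun n =>
      (ln n).integrable_sq.mul_bdd (c := C) (bm n).aestronglyMeasurable
        (Eventually.of_forall fun x => hC _)
    have i2 : ∀ n, Integrable (fun x => g0 x ^ 2 * b (fn n x)) m := fun n =>
      hg2.integrable_sq.mul_bdd (c := C) (bm n).aestronglyMeasurable
        (Eventually.of_forall fun x => hC _)
    have s1 : Tendsto (fun n => ∫ x, g0 x ^ 2 * b (fn n x) ∂m) atTop
        (𝓝 (∫ x, g0 x ^ 2 * b (f x) ∂m)) := by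
      refine tendsto_integral_of_dominated_convergence (fun x => g0 x ^ 2 * C)
        (fun n => (i2 n).aestronglyMeasurable) (hg2.integrable_sq.mul_const C)
        (fun n => Eventually.of_forall fun x => ?_) ?_
      · rw [norm_mul, Real.norm_eq_abs, abs_of_nonneg (sq_nonneg _)]
        exact mul_le_mul_of_nonneg_left (hC _) (sq_nonneg _)
      · filter_upwards [hae] with x hx
        exact ((hb.tendsto _).comp hx).const_mul _
    have s2 : Tendsto (fun n => ∫ x, lip (fn n) x ^ 2 * b (fn n x) ∂m -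
        ∫ x, g0 x ^ 2 * b (fn n x) ∂m) atTop (𝓝 0) := by
      have s3 := tendsto_mul_mul_of_sq ln ln hg2 hg2 hc2 hc2
      have s4 : Tendsto (fun n => C * ∫ x, |lip (fn n) x * lip (fn n) x - g0 x * g0 x| ∂m)
          atTop (𝓝 0) := by simpa using s3.const_mul C
      refine squeeze_zero_norm (fun n => ?_) s4
      rw [← integral_sub (i1 n) (i2 n), ← integral_const_mul]
      refine (norm_integral_le_integral_norm _).trans ?_
      refine integral_mono_of_nonneg (Eventually.of_forall fun x => norm_nonneg _) ?_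
        (Eventually.of_forall fun x => ?_)
      · exact ((((ln n).integrable_mul (ln n)).sub (hg2.integrable_mul hg2)).abs).const_mul _
      · simp only
        have : lip (fn n) x ^ 2 * b (fn n x) - g0 x ^ 2 * b (fn n x) =
            b (fn n x) * (lip (fn n) x * lip (fn n) x - g0 x * g0 x) := by ring
        rw [this, norm_mul]
        exact mul_le_mul_of_nonneg_right (hC _) (norm_nonneg _)
    have := s2.add s1
    simpa using this
  have t4 := bddmul Φ' hΦ'c ⟨L, hΦL⟩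
  have t5 := bddmul (fun t => Φ' t ^ 2) (hΦ'c.pow 2) ⟨L ^ 2, fun t => by
    rw [abs_pow]; exact pow_le_pow_left₀ (abs_nonneg _) (hΦL t) 2⟩
  set A := ∫ x, Φ (f x) ^ 2 ∂m - (∫ x, Φ (f x) ∂m) ^ 2 with hA
  set Bq := ∫ x, g0 x ^ 2 * Φ' (f x) ^ 2 ∂m with hBq
  have e0pos : 0 < 1 / (L + 1) := by positivity
  have hlim : ∀ ε ∈ Ioo (-(1 / (L + 1))) (1 / (L + 1)),
      2 * ε * (N * ∫ x, f x * Φ (f x) ∂m - ∫ x, g0 x ^ 2 * Φ' (f x) ∂m) ≤
        ε ^ 2 * (Bq - N * A) := by
    intro ε hε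
    have hεL : |ε| * L ≤ 1 := by
      have h1 : |ε| ≤ 1 / (L + 1) := (abs_lt.mpr hε).le
      calc |ε| * L ≤ 1 / (L + 1) * L := mul_le_mul_of_nonneg_right h1 hL0
        _ ≤ 1 := by rw [one_div_mul_eq_div, div_le_one (by positivity)]; linarith
    have step : ∀ n, N * (1 + 2 * ε * ∫ x, fn n x * Φ (fn n x) ∂m +
        ε ^ 2 * (∫ x, Φ (fn n x) ^ 2 ∂m - (∫ x, Φ (fn n x) ∂m) ^ 2)) ≤
        ∫ x, lip (fn n) x ^ 2 ∂m + 2 * ε * ∫ x, lip (fn n) x ^ 2 * Φ' (fn n x) ∂m +
          ε ^ 2 * ∫ x, lip (fn n) x ^ 2 * Φ' (fn n x) ^ 2 ∂m := by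
      intro n
      obtain ⟨Kn, hKn⟩ := hL n
      have hpL : LipschitzWith (‖ε‖₊ * (Real.toNNReal L * Kn)) fun y => ε * Φ (fn n y) := by
        have := (lipschitzWith_smul ε).comp (hΦlip.comp hKn)
        simpa [Function.comp_def, smul_eq_mul] using this
      have hs := hKn.add hpL
      have h4 := lich_var (m := m) hN hcd hs
      have ifn := lipschitz_integrable (m := m) hKn
      have iΦ : Integrable (fun x => Φ (fn n x)) m := (pn n).integrable (by norm_num)
      have e1 : ∫ x, (fn n x + ε * Φ (fn n x)) ∂m = ε * ∫ x, Φ (fn n x) ∂m := by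
        rw [integral_add ifn (iΦ.const_mul ε), integral_const_mul, hmean, zero_add]
      have im : Integrable (fun x => fn n x * Φ (fn n x)) m := (mn n).integrable_mul (pn n)
      have e2 : ∫ x, (fn n x + ε * Φ (fn n x)) ^ 2 ∂m = 1 +
          (2 * ε * ∫ x, fn n x * Φ (fn n x) ∂m + ε ^ 2 * ∫ x, Φ (fn n x) ^ 2 ∂m) := by
        have e : ∀ x, (fn n x + ε * Φ (fn n x)) ^ 2 = fn n x ^ 2 +
            (2 * ε * (fn n x * Φ (fn n x)) + ε ^ 2 * Φ (fn n x) ^ 2) := fun x => by ring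
        simp only [e]
        have j : Integrable (fun x => 2 * ε * (fn n x * Φ (fn n x)) +
            ε ^ 2 * Φ (fn n x) ^ 2) m :=
          (im.const_mul _).add ((pn n).integrable_sq.const_mul _)
        rw [integral_add (mn n).integrable_sq j, integral_add (im.const_mul _)
          ((pn n).integrable_sq.const_mul _), integral_const_mul, integral_const_mul, hvar]
      have j1 : Integrable (fun x => lip (fn n) x ^ 2 * Φ' (fn n x)) m :=
        (ln n).integrable_sq.mul_bdd (c := L)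
          (hΦ'c.measurable.comp (hcont n).measurable).aestronglyMeasurable
          (Eventually.of_forall fun x => hΦL _)
      have j2 : Integrable (fun x => lip (fn n) x ^ 2 * Φ' (fn n x) ^ 2) m :=
        (ln n).integrable_sq.mul_bdd (c := L ^ 2)
          ((hΦ'c.pow 2).measurable.comp (hcont n).measurable).aestronglyMeasurable
          (Eventually.of_forall fun x => by
            rw [norm_pow]; exact pow_le_pow_left₀ (abs_nonneg _) (hΦL _) 2)
      have e3 : ∫ x, lip (fun x => fn n x + ε * Φ (fn n x)) x ^ 2 ∂m ≤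
          ∫ x, lip (fn n) x ^ 2 ∂m + (2 * ε * ∫ x, lip (fn n) x ^ 2 * Φ' (fn n x) ∂m +
          ε ^ 2 * ∫ x, lip (fn n) x ^ 2 * Φ' (fn n x) ^ 2 ∂m) := by
        have j : Integrable (fun x => 2 * ε * (lip (fn n) x ^ 2 * Φ' (fn n x)) +
            ε ^ 2 * (lip (fn n) x ^ 2 * Φ' (fn n x) ^ 2)) m :=
          (j1.const_mul _).add (j2.const_mul _)
        rw [← integral_const_mul, ← integral_const_mul, ← integral_add (j1.const_mul _)
          (j2.const_mul _), ← integral_add (ln n).integrable_sq j]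
        refine integral_mono (lip_memLp hs).integrable_sq ((ln n).integrable_sq.add j) fun x => ?_
        have hd : HasDerivAt (fun t => t + ε * Φ t) (1 + ε * Φ' (fn n x)) (fn n x) :=
          (hasDerivAt_id' _).add ((hΦ _).const_mul ε)
        have h5 : lip (fun x => fn n x + ε * Φ (fn n x)) x ≤
            (1 + ε * Φ' (fn n x)) * lip (fn n) x := by
          refine (lip_comp_le hKn hd).trans (le_of_eq ?_)
          rw [abs_of_nonneg]
          have h6 : |ε * Φ' (fn n x)| ≤ 1 := by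
            rw [abs_mul]
            exact (mul_le_mul_of_nonneg_left (hΦL _) (abs_nonneg _)).trans hεL
          linarith [(abs_le.mp h6).1]
        calc lip (fun x => fn n x + ε * Φ (fn n x)) x ^ 2 ≤
              ((1 + ε * Φ' (fn n x)) * lip (fn n) x) ^ 2 :=
              pow_le_pow_left₀ (lip_nonneg _ _) h5 2
          _ = _ := by ring
      have h4' : N * (∫ x, (fn n x + ε * Φ (fn n x)) ^ 2 ∂m -
          (∫ x, (fn n x + ε * Φ (fn n x)) ∂m) ^ 2) ≤
          ∫ x, lip (fun x => fn n x + ε * Φ (fn n x)) x ^ 2 ∂m := h4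
      rw [e1, e2] at h4'
      have h6 := h4'.trans e3
      nlinarith
    have l1 : Tendsto (fun n => N * (1 + 2 * ε * ∫ x, fn n x * Φ (fn n x) ∂m +
        ε ^ 2 * (∫ x, Φ (fn n x) ^ 2 ∂m - (∫ x, Φ (fn n x) ∂m) ^ 2))) atTop
        (𝓝 (N * (1 + 2 * ε * ∫ x, f x * Φ (f x) ∂m + ε ^ 2 * A))) :=
      (((t1.const_mul (2 * ε)).const_add 1).add ((t2.sub (t3.pow 2)).const_mul (ε ^ 2))).const_mul N
    have l2 : Tendsto (fun n => ∫ x, lip (fn n) x ^ 2 ∂m +
        2 * ε * ∫ x, lip (fn n) x ^ 2 * Φ' (fn n x) ∂m +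
          ε ^ 2 * ∫ x, lip (fn n) x ^ 2 * Φ' (fn n x) ^ 2 ∂m) atTop
        (𝓝 (N + 2 * ε * ∫ x, g0 x ^ 2 * Φ' (f x) ∂m + ε ^ 2 * Bq)) :=
      (hE.add (t4.const_mul (2 * ε))).add (t5.const_mul (ε ^ 2))
    have h7 := le_of_tendsto_of_tendsto' l1 l2 step
    nlinarith
  have := first_var_eq e0pos hlim
  linarith

theorem exists_preExt {N : ℝ} (hN : 1 < N) (hcd : CDr m N)
    (hseq : ∀ δ > 0, ∃ (f : X → ℝ) (K : ℝ≥0), LipschitzWith K f ∧ ∫ x, f x ∂m = 0 ∧
      ∫ x, f x ^ 2 ∂m = 1 ∧ ∫ x, slm f x ^ 2 ∂m ≤ N + δ) :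
    ∃ f g0 : X → ℝ, PreExt m N f g0 := by
  obtain ⟨fn, f, g0, hL, hmean, hvar, hE, hfm, hf2, hgm, hg2, hg0, hc1, hc2, hae⟩ :=
    exists_seq hN hcd hseq
  have mn : ∀ n, MemLp (fn n) 2 m := fun n => lipschitz_memLp (hL n).choose_spec
  have ln : ∀ n, MemLp (lip (fn n)) 2 m := fun n => lip_memLp (hL n).choose_spec
  refine ⟨f, g0, hfm, hf2, hgm, hg0, hg2.integrable_sq, ?_, ?_, ?_, ⟨fn, hL, hc1, hc2⟩, ?_, ?_⟩
  · exact tendsto_nhds_unique (tendsto_integral_sq ln hg2 hc2) hE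
  · have := tendsto_integral_of_sq mn hf2 hc1
    simp only [hmean] at this
    exact (tendsto_nhds_unique this tendsto_const_nhds)
  · have := tendsto_integral_sq mn hf2 hc1
    simp only [hvar] at this
    exact (tendsto_nhds_unique this tendsto_const_nhds)
  · rintro g ⟨K, hK⟩
    exact el1_of_seq hN hcd hL hmean hvar hE hf2 hg2 hc1 hc2 hK
  · rintro Φ Φ' hΦ hΦ' ⟨L, hL'⟩
    exact el2_of_seq hN hcd hL hmean hvar hE hfm hf2 hgm hg2 hg0 hc1 hc2 hae hΦ hΦ' hL'

end H13CD
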