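import Pool.Agent.Helper13.CD.Extremal1

/-!
# Module M2: boundedness of the extremal function (De Giorgi), truncation

* `PreExt.bounded`.  Passing to the limit in `sobolev` for `vn² = ((fn-k)_+)²`:
  with `v = (f-k)_+`, `D` the diameter, `μ(k) = m{f>k}`, Hölder on `{f>k}`:
  `y := ∫v² ≤ μ^(1/N) (y + (2D/N) ∫ v g0)`.
  `el2` with `C¹` functions increasing to `(t-k)_+` gives `∫_{f>k} g0² ≤ N ∫ f v = N (y + k w)`,
  `w = ∫ v` (`k ≥ 0`).  For `k ≥ k0` (`μ(k)` small): `y ≤ C μ^(2/N) k w`, and `w² ≤ μ y`, hence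
  `w(k) ≤ C k μ(k)^(1+2/N)`.  Since `μ(h) ≤ w(k)/(h-k)` for `h > k`:
  `w(h) ≤ C h (w(k)/(h-k))^(1+2/N)`.  With `k_j = κ(2-2^{-j})`, `w_j = w(k_j)`:
  `w_{j+1} ≤ 2Cκ (2^{j+1} w_j/κ)^(1+2/N)`, and `w_0/κ` is small for `κ` large, so `w_j → 0`, i.e.
  `f ≤ 2κ` a.e.  Same for `-f`.
* `PreExt.extremal`: if `|f| ≤ B` a.e. then replace `f` by its truncation `T_B f` (equal a.e.) and
  `fn` by `T_B fn`: `lip (T_B fn) ≤ lip fn`, and `∫ (lip T_B fn)² ≥ N Var(T_B fn) → N` by
  `lichnerowicz`, `∫ (lip fn)² → N`; `(a-b)² ≤ a²-b²` for `0 ≤ b ≤ a` gives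
  `lip T_B fn → g0` in `L²`.  `el2` for all `C¹` functions: change `Φ` outside `[-B,B]`.
-/

open MeasureTheory Set Filter Topology
open scoped ENNReal NNReal

namespace H13CD

variable {X : Type*} [MetricSpace X] [CompactSpace X] [MeasurableSpace X] [BorelSpace X]
  {m : Measure X} [IsProbabilityMeasure m]

namespace Ex2

/-! ### `L²` lemmas -/

omit [MetricSpace X] [CompactSpace X] [BorelSpace X] [IsProbabilityMeasure m] in
theorem integrable_mul_of_memLp {a b : X → ℝ} (ha : MemLp a 2 m) (hb : MemLp b 2 m) :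
    Integrable (fun x => a x * b x) m := by
  have := ha.integrable_mul hb
  exact this

omit [MetricSpace X] [CompactSpace X] [BorelSpace X] [IsProbabilityMeasure m] in
theorem integrable_sub_sq {a b : X → ℝ} (ha : MemLp a 2 m) (hb : MemLp b 2 m) :
    Integrable (fun x => (a x - b x) ^ 2) m := (ha.sub hb).integrable_sq

omit [MetricSpace X] [CompactSpace X] [BorelSpace X] [IsProbabilityMeasure m] in
theorem tendsto_integral_mul {a b : X → ℝ} {an bn : ℕ → X → ℝ} (ha : MemLp a 2 m)
    (hb : MemLp b 2 m) (han : ∀ n, MemLp (an n) 2 m) (hbn : ∀ n, MemLp (bn n) 2 m)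
    (h1 : Tendsto (fun n => ∫ x, (an n x - a x) ^ 2 ∂m) atTop (𝓝 0))
    (h2 : Tendsto (fun n => ∫ x, (bn n x - b x) ^ 2 ∂m) atTop (𝓝 0)) :
    Tendsto (fun n => ∫ x, an n x * bn n x ∂m) atTop (𝓝 (∫ x, a x * b x ∂m)) := by
  set S := ∫ x, a x ^ 2 ∂m + ∫ x, b x ^ 2 ∂m with hS
  have hS0 : 0 ≤ S := add_nonneg (integral_nonneg fun x => sq_nonneg _)
    (integral_nonneg fun x => sq_nonneg _)
  have key : ∀ l > 0, ∀ n, |∫ x, an n x * bn n x ∂m - ∫ x, a x * b x ∂m| ≤
      (1 / 2 + 1 / (2 * l)) * (∫ x, (an n x - a x) ^ 2 ∂m + ∫ x, (bn n x - b x) ^ 2 ∂m) +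
        l / 2 * S := by
    intro l hl n
    have i1 := integrable_mul_of_memLp (han n) (hbn n)
    have i2 := integrable_mul_of_memLp ha hb
    have i3 := integrable_sub_sq (han n) ha
    have i4 := integrable_sub_sq (hbn n) hb
    have i34 : Integrable (fun x => (an n x - a x) ^ 2 + (bn n x - b x) ^ 2) m := i3.add i4
    have iab : Integrable (fun x => a x ^ 2 + b x ^ 2) m := ha.integrable_sq.add hb.integrable_sq
    rw [← integral_sub i1 i2]
    refine (abs_integral_le_integral_abs).trans ?_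
    have hr : (1 / 2 + 1 / (2 * l)) * (∫ x, (an n x - a x) ^ 2 ∂m + ∫ x, (bn n x - b x) ^ 2 ∂m) +
        l / 2 * S = ∫ x, ((1 / 2 + 1 / (2 * l)) * ((an n x - a x) ^ 2 + (bn n x - b x) ^ 2) +
          l / 2 * (a x ^ 2 + b x ^ 2)) ∂m := by
      rw [integral_add (i34.const_mul _) (iab.const_mul _),
        integral_const_mul, integral_const_mul, integral_add i3 i4,
        integral_add ha.integrable_sq hb.integrable_sq]
    rw [hr]
    refine integral_mono (i1.sub i2).abs ((i34.const_mul _).add (iab.const_mul _)) fun x => ?_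
    simp only
    have e1 : an n x * bn n x - a x * b x = (an n x - a x) * (bn n x - b x) +
      (a x * (bn n x - b x) + b x * (an n x - a x)) := by ring
    rw [e1]
    refine (abs_add_le _ _).trans ?_
    have h5 : |(an n x - a x) * (bn n x - b x)| ≤
        1 / 2 * ((an n x - a x) ^ 2 + (bn n x - b x) ^ 2) := by
      rw [abs_le]; constructor <;> nlinarith [sq_nonneg (an n x - a x + (bn n x - b x)),
        sq_nonneg (an n x - a x - (bn n x - b x))]
    have h6 : ∀ u v : ℝ, |u * v| ≤ l / 2 * u ^ 2 + 1 / (2 * l) * v ^ 2 := by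
      intro u v
      have hl' : l ≠ 0 := hl.ne'
      have e2 : l / 2 * u ^ 2 + 1 / (2 * l) * v ^ 2 = (l ^ 2 * u ^ 2 + v ^ 2) / (2 * l) := by
        field_simp
      rw [e2, abs_le, neg_le, le_div_iff₀ (by positivity), le_div_iff₀ (by positivity)]
      constructor <;> nlinarith [sq_nonneg (l * u + v), sq_nonneg (l * u - v)]
    have h7 := h6 (a x) (bn n x - b x)
    have h8 := h6 (b x) (an n x - a x)
    have h9 := abs_add_le (a x * (bn n x - b x)) (b x * (an n x - a x))
    nlinarith [h5, h7, h8, h9]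
  rw [Metric.tendsto_atTop]
  intro ε hε
  set l := ε / (S + 1) with hl
  have hl0 : 0 < l := by positivity
  have hlS : l / 2 * S ≤ ε / 2 := by
    rw [hl, div_div, div_mul_eq_mul_div, div_le_div_iff₀ (by positivity) (by positivity)]
    nlinarith
  have h3 : Tendsto (fun n => (1 / 2 + 1 / (2 * l)) *
      (∫ x, (an n x - a x) ^ 2 ∂m + ∫ x, (bn n x - b x) ^ 2 ∂m)) atTop (𝓝 0) := by
    simpa using (h1.add h2).const_mul (1 / 2 + 1 / (2 * l))
  obtain ⟨n0, hn0⟩ := eventually_atTop.mp (h3.eventually_lt_const (half_pos hε))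
  refine ⟨n0, fun n hn => ?_⟩
  rw [Real.dist_eq]
  have := key l hl0 n
  have := hn0 n hn
  linarith

omit [MetricSpace X] [CompactSpace X] [BorelSpace X] in
theorem tendsto_integral_of_L2 {a : X → ℝ} {an : ℕ → X → ℝ} (ha : MemLp a 2 m)
    (han : ∀ n, MemLp (an n) 2 m)
    (h1 : Tendsto (fun n => ∫ x, (an n x - a x) ^ 2 ∂m) atTop (𝓝 0)) :
    Tendsto (fun n => ∫ x, an n x ∂m) atTop (𝓝 (∫ x, a x ∂m)) := by
  have := tendsto_integral_mul ha (memLp_const (1 : ℝ)) han (fun _ => memLp_const (1 : ℝ)) h1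
    (by simp)
  simpa using this

omit [MetricSpace X] [CompactSpace X] [BorelSpace X] [IsProbabilityMeasure m] in
theorem tendsto_integral_sq {a : X → ℝ} {an : ℕ → X → ℝ} (ha : MemLp a 2 m)
    (han : ∀ n, MemLp (an n) 2 m)
    (h1 : Tendsto (fun n => ∫ x, (an n x - a x) ^ 2 ∂m) atTop (𝓝 0)) :
    Tendsto (fun n => ∫ x, an n x ^ 2 ∂m) atTop (𝓝 (∫ x, a x ^ 2 ∂m)) := by
  have := tendsto_integral_mul ha ha han han h1 h1
  simpa [sq] using this

omit [MetricSpace X] [CompactSpace X] [BorelSpace X] [IsProbabilityMeasure m] in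
theorem tendsto_of_le {a b : X → ℝ} {an bn : ℕ → X → ℝ} (ha : MemLp a 2 m)
    (hb : MemLp b 2 m) (han : ∀ n, MemLp (an n) 2 m) (hbn : ∀ n, MemLp (bn n) 2 m)
    (h1 : Tendsto (fun n => ∫ x, (an n x - a x) ^ 2 ∂m) atTop (𝓝 0))
    (h2 : ∀ n x, |bn n x - b x| ≤ |an n x - a x|) :
    Tendsto (fun n => ∫ x, (bn n x - b x) ^ 2 ∂m) atTop (𝓝 0) := by
  refine squeeze_zero (fun n => integral_nonneg fun x => sq_nonneg _) (fun n => ?_) h1
  exact integral_mono (integrable_sub_sq (hbn n) hb) (integrable_sub_sq (han n) ha)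
    fun x => sq_le_sq.mpr (h2 n x)

/-- Lipschitz functions on a compact space are in `L²` -/
theorem memLp_lipschitz {g : X → ℝ} {K : ℝ≥0} (hg : LipschitzWith K g) : MemLp g 2 m := by
  obtain ⟨C, hC⟩ := (isCompact_univ (X := X)).exists_bound_of_continuousOn hg.continuous.continuousOn
  exact MemLp.of_bound hg.continuous.aestronglyMeasurable C (Eventually.of_forall fun x => hC x (mem_univ _))

theorem memLp_lip {g : X → ℝ} {K : ℝ≥0} (hg : LipschitzWith K g) : MemLp (lip g) 2 m := by
  refine MemLp.of_bound (measurable_lip hg).aestronglyMeasurable K (Eventually.of_forall fun x => ?_)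
  rw [Real.norm_eq_abs, abs_of_nonneg (lip_nonneg g x)]
  exact lip_le_const hg x

end Ex2

theorem PreExt.g0_memLp {N : ℝ} {f g0 : X → ℝ} (h : PreExt m N f g0) : MemLp g0 2 m :=
  (memLp_two_iff_integrable_sq h.gmeas.aestronglyMeasurable).mpr h.gL2

theorem PreExt.neg {N : ℝ} {f g0 : X → ℝ} (h : PreExt m N f g0) :
    PreExt m N (fun x => - f x) g0 where
  meas := h.meas.neg
  memL2 := h.memL2.neg
  gmeas := h.gmeas
  gnonneg := h.gnonneg
  gL2 := h.gL2
  energy := h.energy
  mean := by rw [integral_neg, h.mean, neg_zero]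
  var := by simpa using h.var
  approx := by
    obtain ⟨fn, h1, h2, h3⟩ := h.approx
    refine ⟨fun n x => - fn n x, fun n => ?_, ?_, ?_⟩
    · obtain ⟨K, hK⟩ := h1 n
      exact ⟨K, hK.neg⟩
    · refine h2.congr fun n => integral_congr_ae (Eventually.of_forall fun x => ?_)
      simp only; ring
    · simpa only [lip_neg] using h3
  el1 := by
    intro g hg
    obtain ⟨K, hK⟩ := hg
    have h1 := h.el1 (fun x => - g x) ⟨K, hK.neg⟩
    simp only [lip_neg] at h1
    simpa [mul_neg, neg_mul] using h1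
  el2 := by
    intro Φ Φ' hΦ hc hL
    obtain ⟨L, hL⟩ := hL
    have h1 := h.el2 (fun t => - Φ (-t)) (fun t => Φ' (-t)) (fun t => ?_)
      (hc.comp continuous_neg) ⟨L, fun t => hL _⟩
    · simp only [mul_neg] at h1
      rw [← h1]
      congr 1
      refine integral_congr_ae (Eventually.of_forall fun x => ?_)
      simp only; ring
    · have h2 := ((hΦ (-t)).comp t (hasDerivAt_neg t)).neg
      have h3 : - (Φ' (-t) * -1) = Φ' (-t) := by ring
      rw [h3] at h2
      exact h2

theorem Extremal.neg {N B : ℝ} {f g0 : X → ℝ} (h : Extremal m N B f g0) :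
    Extremal m N B (fun x => - f x) g0 where
  lim := {
    meas := h.lim.meas.neg
    bound := fun x => by rw [abs_neg]; exact h.lim.bound x
    gmeas := h.lim.gmeas
    gnonneg := h.lim.gnonneg
    gL2 := h.lim.gL2
    approx := by
      obtain ⟨fn, h1, h4, h2, h3⟩ := h.lim.approx
      refine ⟨fun n x => - fn n x, fun n => ?_, fun n x => ?_, ?_, ?_⟩
      · obtain ⟨K, hK⟩ := h1 n
        exact ⟨K, hK.neg⟩
      · rw [abs_neg]; exact h4 n x
      · refine h2.congr fun n => integral_congr_ae (Eventually.of_forall fun x => ?_)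
        simp only; ring
      · simpa only [lip_neg] using h3 }
  mean := by rw [integral_neg, h.mean, neg_zero]
  var := by simpa using h.var
  el1 := by
    intro g hg
    obtain ⟨K, hK⟩ := hg
    have h1 := h.el1 (fun x => - g x) ⟨K, hK.neg⟩
    simp only [lip_neg] at h1
    simpa [mul_neg, neg_mul] using h1
  el2 := by
    intro Φ Φ' hΦ hc
    have h1 := h.el2 (fun t => - Φ (-t)) (fun t => Φ' (-t)) (fun t => ?_)
      (hc.comp continuous_neg)
    · simp only [mul_neg] at h1
      rw [← h1]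
      congr 1
      refine integral_congr_ae (Eventually.of_forall fun x => ?_)
      simp only; ring
    · have h2 := ((hΦ (-t)).comp t (hasDerivAt_neg t)).neg
      have h3 : - (Φ' (-t) * -1) = Φ' (-t) := by ring
      rw [h3] at h2
      exact h2

/-! ### truncation -/

namespace Ex2

theorem trunc_lip (B : ℝ) : LipschitzWith 1 (fun t : ℝ => max (-B) (min t B)) := by
  have h1 : LipschitzWith 1 (fun t : ℝ => min t B) := LipschitzWith.id.min_const B
  exact h1.const_max (-B)

theorem trunc_abs {B : ℝ} (hB : 0 < B) (t : ℝ) : |max (-B) (min t B)| ≤ B := by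
  rw [abs_le]
  refine ⟨le_max_left _ _, max_le (by linarith) (min_le_right _ _)⟩

theorem trunc_eq {B t : ℝ} (h : |t| ≤ B) : max (-B) (min t B) = t := by
  rw [abs_le] at h
  rw [min_eq_left h.2, max_eq_right h.1]

end Ex2

theorem PreExt.extremal {N : ℝ} (hN : 1 < N) (hcd : CDr m N) {f g0 : X → ℝ}
    (h : PreExt m N f g0) {B : ℝ} (hB : 0 < B) (hb : ∀ᵐ x ∂m, |f x| ≤ B) :
    Extremal m N B (fun x => max (-B) (min (f x) B)) g0 := by
  have hae : ∀ᵐ x ∂m, max (-B) (min (f x) B) = f x := by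
    filter_upwards [hb] with x hx using Ex2.trunc_eq hx
  have hTf2 : MemLp (fun x => max (-B) (min (f x) B)) 2 m :=
    (memLp_congr_ae hae).mpr h.memL2
  have hmeas : Measurable (fun x => max (-B) (min (f x) B)) :=
    (Ex2.trunc_lip B).continuous.measurable.comp h.meas
  have hmean : ∫ x, max (-B) (min (f x) B) ∂m = 0 := by
    rw [integral_congr_ae hae, h.mean]
  have hvar : ∫ x, (max (-B) (min (f x) B)) ^ 2 ∂m = 1 := by
    rw [← h.var]
    refine integral_congr_ae ?_
    filter_upwards [hae] with x hx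
    rw [hx]
  refine ⟨⟨hmeas, fun x => Ex2.trunc_abs hB _, h.gmeas, h.gnonneg, h.gL2, ?_⟩, hmean, hvar, ?_, ?_⟩
  · obtain ⟨fn, hK, h2, h3⟩ := h.approx
    choose K hK using hK
    have hTK : ∀ n, LipschitzWith (K n) (fun x => max (-B) (min (fn n x) B)) := by
      intro n
      have := (Ex2.trunc_lip B).comp (hK n)
      simpa [Function.comp_def] using this
    have hf2 : ∀ n, MemLp (fn n) 2 m := fun n => Ex2.memLp_lipschitz (hK n)
    have hTf2' : ∀ n, MemLp (fun x => max (-B) (min (fn n x) B)) 2 m :=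
      fun n => Ex2.memLp_lipschitz (hTK n)
    have hconv : Tendsto (fun n => ∫ x, (max (-B) (min (fn n x) B) - max (-B) (min (f x) B)) ^ 2 ∂m)
        atTop (𝓝 0) :=
      Ex2.tendsto_of_le h.memL2 hTf2 hf2 hTf2' h2 fun n x => by
        have := (Ex2.trunc_lip B).dist_le_mul (fn n x) (f x)
        simpa [Real.dist_eq] using this
    refine ⟨fun n x => max (-B) (min (fn n x) B), fun n => ⟨K n, hTK n⟩,
      fun n x => Ex2.trunc_abs hB _, hconv, ?_⟩
    -- energies
    have hl2 : ∀ n, MemLp (lip (fn n)) 2 m := fun n => Ex2.memLp_lip (hK n)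
    have hTl2 : ∀ n, MemLp (lip (fun x => max (-B) (min (fn n x) B))) 2 m :=
      fun n => Ex2.memLp_lip (hTK n)
    have hle : ∀ n x, lip (fun x => max (-B) (min (fn n x) B)) x ≤ lip (fn n) x :=
      fun n x => lip_comp_one (hK n) (Ex2.trunc_lip B) x
    have e1 : Tendsto (fun n => ∫ x, lip (fn n) x ^ 2 ∂m) atTop (𝓝 N) := by
      have := Ex2.tendsto_integral_sq h.g0_memLp hl2 h3
      rwa [h.energy] at this
    have e2 : Tendsto (fun n => N * (∫ x, (max (-B) (min (fn n x) B)) ^ 2 ∂m -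
        (∫ x, max (-B) (min (fn n x) B) ∂m) ^ 2)) atTop (𝓝 N) := by
      have t1 := Ex2.tendsto_integral_sq hTf2 hTf2' hconv
      have t2 := Ex2.tendsto_integral_of_L2 hTf2 hTf2' hconv
      have := (t1.sub (t2.pow 2)).const_mul N
      rw [hvar, hmean] at this
      simpa using this
    have e3 : ∀ n, N * (∫ x, (max (-B) (min (fn n x) B)) ^ 2 ∂m -
        (∫ x, max (-B) (min (fn n x) B) ∂m) ^ 2) ≤
        ∫ x, lip (fun x => max (-B) (min (fn n x) B)) x ^ 2 ∂m := by
      intro n
      set F : X → ℝ := fun x => max (-B) (min (fn n x) B) with hF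
      set c := ∫ x, F x ∂m with hc
      have hFi : Integrable F m := (hTf2' n).integrable one_le_two
      have hL : LipschitzWith (K n) (fun x => F x + -c) := by
        have := (hTK n).add (LipschitzWith.const (-c))
        simpa using this
      have h0 : ∫ x, (F x + -c) ∂m = 0 := by
        rw [integral_add hFi (integrable_const _)]
        simp [hc]
      have h4 := lichnerowicz hN hcd hL h0
      have h5 : ∫ x, (F x + -c) ^ 2 ∂m = ∫ x, F x ^ 2 ∂m - c ^ 2 := by
        have h6 : ∀ x, (F x + -c) ^ 2 = F x ^ 2 - (2 * c) * F x + c ^ 2 := fun x => by ring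
        have i1 : Integrable (fun x => F x ^ 2) m := (hTf2' n).integrable_sq
        have i2 : Integrable (fun x => 2 * c * F x) m := hFi.const_mul _
        have i3 : Integrable (fun x => F x ^ 2 - 2 * c * F x) m := i1.sub i2
        simp only [h6]
        rw [integral_add i3 (integrable_const _), integral_sub i1 i2, integral_const_mul, ← hc]
        simp
        ring
      rw [h5] at h4
      simpa only [lip_add_const] using h4
    have e4 : ∀ n, ∫ x, (lip (fun x => max (-B) (min (fn n x) B)) x - lip (fn n) x) ^ 2 ∂m ≤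
        ∫ x, lip (fn n) x ^ 2 ∂m - ∫ x, lip (fun x => max (-B) (min (fn n x) B)) x ^ 2 ∂m := by
      intro n
      rw [← integral_sub (hl2 n).integrable_sq (hTl2 n).integrable_sq]
      refine integral_mono (Ex2.integrable_sub_sq (hTl2 n) (hl2 n))
        ((hl2 n).integrable_sq.sub (hTl2 n).integrable_sq) fun x => ?_
      have h5 := hle n x
      have h6 := lip_nonneg (fun x => max (-B) (min (fn n x) B)) x
      simp only
      nlinarith
    have e5 : Tendsto (fun n => ∫ x, (lip (fun x => max (-B) (min (fn n x) B)) x -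
        lip (fn n) x) ^ 2 ∂m) atTop (𝓝 0) := by
      have h7 : Tendsto (fun n => ∫ x, lip (fn n) x ^ 2 ∂m -
          N * (∫ x, (max (-B) (min (fn n x) B)) ^ 2 ∂m -
          (∫ x, max (-B) (min (fn n x) B) ∂m) ^ 2)) atTop (𝓝 0) := by
        simpa using e1.sub e2
      refine squeeze_zero (fun n => integral_nonneg fun x => sq_nonneg _) (fun n => ?_) h7
      have := e4 n
      have := e3 n
      linarith
    have e6 : Tendsto (fun n => 2 * ∫ x, (lip (fun x => max (-B) (min (fn n x) B)) x -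
        lip (fn n) x) ^ 2 ∂m + 2 * ∫ x, (lip (fn n) x - g0 x) ^ 2 ∂m) atTop (𝓝 0) := by
      simpa using (e5.const_mul 2).add (h3.const_mul 2)
    refine squeeze_zero (fun n => integral_nonneg fun x => sq_nonneg _) (fun n => ?_) e6
    have i1 := Ex2.integrable_sub_sq (hTl2 n) (hl2 n)
    have i2 := Ex2.integrable_sub_sq (hl2 n) h.g0_memLp
    rw [← integral_const_mul, ← integral_const_mul, ← integral_add (i1.const_mul _) (i2.const_mul _)]
    refine integral_mono (Ex2.integrable_sub_sq (hTl2 n) h.g0_memLp)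
      ((i1.const_mul _).add (i2.const_mul _)) fun x => ?_
    simp only
    nlinarith [sq_nonneg (lip (fun x => max (-B) (min (fn n x) B)) x - lip (fn n) x -
      (lip (fn n) x - g0 x))]
  · intro g hg
    have h1 := h.el1 g hg
    have h2 : ∫ x, max (-B) (min (f x) B) * g x ∂m = ∫ x, f x * g x ∂m := by
      refine integral_congr_ae ?_
      filter_upwards [hae] with x hx
      rw [hx]
    rw [h2]
    exact h1
  · intro Φ Φ' hΦ hc
    -- bounded modification of `Φ`
    set T : ℝ → ℝ := fun t => max (-B) (min t B) with hT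
    have hTc : Continuous T := (Ex2.trunc_lip B).continuous
    have hc2 : Continuous (fun t => Φ' (T t)) := hc.comp hTc
    obtain ⟨L, hL⟩ := (isCompact_Icc (a := -B) (b := B)).exists_bound_of_continuousOn hc.continuousOn
    have hL' : ∀ t, |Φ' (T t)| ≤ L := fun t => by
      have h1 := Ex2.trunc_abs hB t
      rw [abs_le] at h1
      exact hL _ h1
    set Φ2 : ℝ → ℝ := fun t => Φ 0 + ∫ s in (0 : ℝ)..t, Φ' (T s) with hΦ2
    have hd : ∀ t, HasDerivAt Φ2 (Φ' (T t)) t := fun t => by
      have h1 := intervalIntegral.integral_hasDerivAt_right (hc2.intervalIntegrable 0 t)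
        (hc2.stronglyMeasurableAtFilter _ _) hc2.continuousAt
      exact h1.const_add _
    have h1 := h.el2 Φ2 (fun t => Φ' (T t)) hd hc2 ⟨L, hL'⟩
    have heq : ∀ t, |t| ≤ B → Φ2 t = Φ t := by
      intro t ht
      have h2 : ∫ s in (0 : ℝ)..t, Φ' s = Φ t - Φ 0 :=
        intervalIntegral.integral_eq_sub_of_hasDerivAt (fun s _ => hΦ s)
          (hc.intervalIntegrable _ _)
      have h3 : ∫ s in (0 : ℝ)..t, Φ' (T s) = ∫ s in (0 : ℝ)..t, Φ' s := by
        refine intervalIntegral.integral_congr fun s hs => ?_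
        have h4 : |s| ≤ B := by
          have := abs_sub_left_of_mem_uIcc hs
          simp only [sub_zero] at this
          exact this.trans ht
        simp only [hT]
        rw [Ex2.trunc_eq h4]
      simp only [hΦ2]
      rw [h3, h2]; ring
    have h2 : ∫ x, T (f x) * Φ (T (f x)) ∂m = ∫ x, f x * Φ2 (f x) ∂m := by
      refine integral_congr_ae ?_
      filter_upwards [hb] with x hx
      simp only [hT]
      rw [Ex2.trunc_eq hx, heq _ hx]
    have h3 : ∫ x, g0 x ^ 2 * Φ' (T (f x)) ∂m = ∫ x, g0 x ^ 2 * Φ' (T (f x)) ∂m := rfl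
    simp only [hT] at h2
    rw [h2, h1]

/-! ### boundedness -/

namespace Ex2

theorem pos_lip (k : ℝ) : LipschitzWith 1 (fun t : ℝ => max (t - k) 0) := by
  have h1 : LipschitzWith 1 (fun t : ℝ => t - k) := by
    simpa using LipschitzWith.id.sub (LipschitzWith.const k)
  exact h1.max_const 0

theorem sob_holder {N : ℝ} (hN : 1 < N) (hcd : CDr m N) {g : X → ℝ} {K : ℝ≥0}
    (hg : LipschitzWith K g) (k : ℝ) {D : ℝ} (hD : ∀ x y : X, dist x y ≤ D) {A : Set X}
    (hA : MeasurableSet A) :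
    ∫ x in A, (max (g x - k) 0) ^ 2 ∂m ≤ (m.real A) ^ (1 / N) *
      (∫ x, (max (g x - k) 0) ^ 2 ∂m + 2 * D / N * ∫ x, max (g x - k) 0 * lip g x ∂m) := by
  have hne : Nonempty X := nonempty_of_isProbabilityMeasure m
  have hD0 : 0 ≤ D := by
    obtain ⟨x⟩ := hne
    simpa using hD x x
  have hN0 : 0 < N := by linarith
  set V : X → ℝ := fun x => max (g x - k) 0 with hVdef
  have hV : LipschitzWith K V := by
    have := (pos_lip k).comp hg
    simpa [Function.comp_def] using this
  have hV0 : ∀ x, 0 ≤ V x := fun x => le_max_right _ _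
  have hVlip : ∀ x, lip V x ≤ lip g x := fun x => lip_comp_one hg (pos_lip k) x
  obtain ⟨C, hC⟩ := (isCompact_univ (X := X)).exists_bound_of_continuousOn
    hV.continuous.continuousOn
  have hC' : ∀ x, |V x| ≤ C := fun x => hC x (mem_univ x)
  have hC0 : 0 ≤ C := by
    obtain ⟨x⟩ := hne
    exact (abs_nonneg _).trans (hC' x)
  have hV2 : LipschitzWith (Real.toNNReal (2 * C * K)) (fun x => V x ^ 2) := by
    refine LipschitzWith.of_dist_le_mul fun x y => ?_
    have h1 := hV.dist_le_mul x y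
    rw [Real.dist_eq] at h1 ⊢
    rw [Real.coe_toNNReal _ (by positivity)]
    have h2 : V x ^ 2 - V y ^ 2 = (V x - V y) * (V x + V y) := by ring
    rw [h2, abs_mul]
    have h3 : |V x + V y| ≤ 2 * C := by
      have := abs_add_le (V x) (V y)
      have := hC' x
      have := hC' y
      linarith
    calc |V x - V y| * |V x + V y| ≤ (K * dist x y) * (2 * C) := by gcongr
      _ = 2 * C * K * dist x y := by ring
  have hS := sobolev hN hcd hV2 (fun x => sq_nonneg _) hD
  have hVg : Integrable (fun x => V x * lip g x) m :=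
    integrable_mul_of_memLp (memLp_lipschitz hV) (memLp_lip hg)
  have hlip : ∫ x, lip (fun x => V x ^ 2) x ∂m ≤ 2 * ∫ x, V x * lip g x ∂m := by
    rw [← integral_const_mul]
    refine integral_mono ((memLp_lip hV2).integrable one_le_two) (hVg.const_mul _) fun x => ?_
    have h1 := lip_mul_le hV hV x
    have h2 : (fun x => V x ^ 2) = fun x => V x * V x := by funext x; ring
    simp only [h2]
    rw [abs_of_nonneg (hV0 x)] at h1
    have h3 := mul_le_mul_of_nonneg_left (hVlip x) (hV0 x)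
    linarith
  set q := N / (N - 1) with hq
  have hpq : N.HolderConjugate q := (Real.holderConjugate_iff_eq_conjExponent hN).mpr rfl
  have hVb : ∀ x, ‖V x ^ 2‖ ≤ C ^ 2 := fun x => by
    rw [Real.norm_eq_abs, abs_of_nonneg (sq_nonneg _)]
    have := hC' x
    rw [abs_of_nonneg (hV0 x)] at this
    exact pow_le_pow_left₀ (hV0 x) this 2
  have hH := integral_mul_le_Lp_mul_Lq_of_nonneg (μ := m) hpq (f := A.indicator fun _ => (1 : ℝ))
    (g := fun x => V x ^ 2)
    (Eventually.of_forall fun x => indicator_nonneg (fun _ _ => zero_le_one) x)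
    (Eventually.of_forall fun x => sq_nonneg _)
    ((memLp_const (1 : ℝ)).indicator hA)
    (MemLp.of_bound hV2.continuous.aestronglyMeasurable (C ^ 2) (Eventually.of_forall hVb))
  have e1 : ∫ x, A.indicator (fun _ => (1 : ℝ)) x * V x ^ 2 ∂m = ∫ x in A, V x ^ 2 ∂m := by
    rw [← integral_indicator hA]
    refine integral_congr_ae (Eventually.of_forall fun x => ?_)
    by_cases hx : x ∈ A <;> simp [hx]
  have e2 : ∫ x, (A.indicator (fun _ => (1 : ℝ)) x) ^ N ∂m = m.real A := by
    have : ∀ x, (A.indicator (fun _ => (1 : ℝ)) x) ^ N = A.indicator (fun _ => (1 : ℝ)) x := by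
      intro x
      by_cases hx : x ∈ A
      · simp [hx]
      · simp [hx, Real.zero_rpow hN0.ne']
    simp only [this]
    rw [integral_indicator hA]
    simp
  have e3 : 1 / q = 1 - 1 / N := by
    rw [hq]
    have : N - 1 ≠ 0 := by linarith
    field_simp
  rw [e1, e2, e3] at hH
  refine hH.trans ?_
  refine mul_le_mul_of_nonneg_left ?_ (Real.rpow_nonneg measureReal_nonneg _)
  refine hS.trans ?_
  have h4 : D / N * ∫ x, lip (fun x => V x ^ 2) x ∂m ≤ D / N * (2 * ∫ x, V x * lip g x ∂m) :=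
    mul_le_mul_of_nonneg_left hlip (by positivity)
  have h5 : D / N * (2 * ∫ x, V x * lip g x ∂m) = 2 * D / N * ∫ x, V x * lip g x ∂m := by ring
  linarith

theorem memLp_pos {f : X → ℝ} (hf : MemLp f 2 m) (k : ℝ) :
    MemLp (fun x => max (f x - k) 0) 2 m := by
  have h1 : MemLp (fun x => f x - k) 2 m := hf.sub (memLp_const k)
  exact h1.pos_part

theorem lim_ineq {N : ℝ} (hN : 1 < N) (hcd : CDr m N) {f g0 : X → ℝ} (h : PreExt m N f g0)
    (k : ℝ) {D : ℝ} (hD : ∀ x y : X, dist x y ≤ D) :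
    ∫ x, (max (f x - k) 0) ^ 2 ∂m ≤ (m.real {x | k < f x}) ^ (1 / N) *
      (∫ x, (max (f x - k) 0) ^ 2 ∂m + 2 * D / N * ∫ x, max (f x - k) 0 * g0 x ∂m) := by
  have hA : MeasurableSet {x | k < f x} := measurableSet_lt measurable_const h.meas
  obtain ⟨fn, hK, h2, h3⟩ := h.approx
  choose K hK using hK
  have hv := memLp_pos h.memL2 k
  have hfn : ∀ n, MemLp (fn n) 2 m := fun n => memLp_lipschitz (hK n)
  have hvn : ∀ n, MemLp (fun x => max (fn n x - k) 0) 2 m := fun n => memLp_pos (hfn n) k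
  have hconv : Tendsto (fun n => ∫ x, (max (fn n x - k) 0 - max (f x - k) 0) ^ 2 ∂m) atTop (𝓝 0) :=
    tendsto_of_le h.memL2 hv hfn hvn h2 fun n x => by
      have := (pos_lip k).dist_le_mul (fn n x) (f x)
      simpa [Real.dist_eq] using this
  have hconvA : Tendsto (fun n => ∫ x in {x | k < f x},
      (max (fn n x - k) 0 - max (f x - k) 0) ^ 2 ∂m) atTop (𝓝 0) := by
    refine squeeze_zero (fun n => integral_nonneg fun x => sq_nonneg _) (fun n => ?_) hconv
    exact setIntegral_le_integral (integrable_sub_sq (hvn n) hv)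
      (Eventually.of_forall fun x => sq_nonneg _)
  have t1 : Tendsto (fun n => ∫ x in {x | k < f x}, (max (fn n x - k) 0) ^ 2 ∂m) atTop
      (𝓝 (∫ x in {x | k < f x}, (max (f x - k) 0) ^ 2 ∂m)) :=
    tendsto_integral_sq (hv.restrict _) (fun n => (hvn n).restrict _) hconvA
  have t2 := tendsto_integral_sq hv hvn hconv
  have t3 := tendsto_integral_mul hv h.g0_memLp hvn (fun n => memLp_lip (hK n)) hconv h3
  have t4 : ∫ x in {x | k < f x}, (max (f x - k) 0) ^ 2 ∂m = ∫ x, (max (f x - k) 0) ^ 2 ∂m := by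
    refine setIntegral_eq_integral_of_forall_compl_eq_zero fun x hx => ?_
    have hx' : f x ≤ k := not_lt.mp hx
    rw [max_eq_right (by linarith)]
    simp
  rw [t4] at t1
  refine le_of_tendsto_of_tendsto' t1 ((t2.add (t3.const_mul (2 * D / N))).const_mul
    ((m.real {x | k < f x}) ^ (1 / N))) fun n => ?_
  exact sob_holder hN hcd (hK n) k hD hA

theorem energy_level {N : ℝ} (hN : 1 < N) {f g0 : X → ℝ} (h : PreExt m N f g0)
    {k : ℝ} (hk : 0 ≤ k) :
    ∫ x in {x | k < f x}, g0 x ^ 2 ∂m ≤ N * ∫ x, f x * max (f x - k) 0 ∂m := by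
  have hA : MeasurableSet {x | k < f x} := measurableSet_lt measurable_const h.meas
  have hN0 : 0 < N := by linarith
  set c : ℕ → ℝ → ℝ := fun j t => min 1 (j * max (t - k) 0) with hc
  have hcc : ∀ j, Continuous (c j) := fun j => by
    simp only [hc]; fun_prop
  have hc0 : ∀ j t, 0 ≤ c j t := fun j t =>
    le_min zero_le_one (mul_nonneg (Nat.cast_nonneg _) (le_max_right _ _))
  have hc1 : ∀ j t, c j t ≤ 1 := fun j t => min_le_left _ _
  have hcz : ∀ j t, t ≤ k → c j t = 0 := fun j t ht => by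
    simp only [hc]
    rw [max_eq_right (by linarith)]; simp
  set Φ : ℕ → ℝ → ℝ := fun j t => ∫ s in k..t, c j s with hΦ
  have hd : ∀ j t, HasDerivAt (Φ j) (c j t) t := fun j t =>
    intervalIntegral.integral_hasDerivAt_right ((hcc j).intervalIntegrable k t)
        ((hcc j).stronglyMeasurableAtFilter _ _) (hcc j).continuousAt
  have hΦc : ∀ j, Continuous (Φ j) := fun j =>
    continuous_iff_continuousAt.mpr fun t => (hd j t).continuousAt
  have hΦb : ∀ j t, |Φ j t| ≤ |t - k| := fun j t => by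
    have := intervalIntegral.norm_integral_le_of_norm_le_const (a := k) (b := t) (f := c j)
      (C := 1) fun s _ => by
        rw [Real.norm_eq_abs, abs_of_nonneg (hc0 j s)]; exact hc1 j s
    simpa using this
  have hΦz : ∀ j t, t ≤ k → Φ j t = 0 := fun j t ht => by
    simp only [hΦ]
    rw [intervalIntegral.integral_symm, neg_eq_zero]
    refine intervalIntegral.integral_zero_ae ?_
    refine Eventually.of_forall fun s hs => ?_
    rw [uIoc_of_le ht] at hs
    exact hcz j s hs.2
  have hineq : ∀ j, ∫ x, g0 x ^ 2 * c j (f x) ∂m ≤ N * ∫ x, f x * max (f x - k) 0 ∂m := by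
    intro j
    have h1 := h.el2 (Φ j) (c j) (hd j) (hcc j) ⟨1, fun t => by
      rw [abs_of_nonneg (hc0 j t)]; exact hc1 j t⟩
    rw [← h1]
    refine mul_le_mul_of_nonneg_left ?_ hN0.le
    have hm1 : MemLp (fun x => Φ j (f x)) 2 m := by
      have h2 : MemLp (fun x => f x - k) 2 m := h.memL2.sub (memLp_const k)
      refine h2.of_le ((hΦc j).measurable.comp h.meas).aestronglyMeasurable
        (Eventually.of_forall fun x => ?_)
      simp only [Real.norm_eq_abs]
      exact hΦb j (f x)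
    refine integral_mono (integrable_mul_of_memLp h.memL2 hm1)
      (integrable_mul_of_memLp h.memL2 (memLp_pos h.memL2 k)) fun x => ?_
    simp only
    rcases le_or_gt (f x) k with hx | hx
    · rw [hΦz j _ hx, max_eq_right (by linarith)]
    · refine mul_le_mul_of_nonneg_left ?_ (by linarith)
      have := hΦb j (f x)
      rw [abs_of_pos (show 0 < f x - k by linarith)] at this
      rw [max_eq_left (by linarith)]
      exact (le_abs_self _).trans this
  have ht : Tendsto (fun j => ∫ x, g0 x ^ 2 * c j (f x) ∂m) atTop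
      (𝓝 (∫ x, ({x | k < f x}.indicator (fun x => g0 x ^ 2)) x ∂m)) := by
    refine tendsto_integral_of_dominated_convergence (fun x => g0 x ^ 2)
      (fun j => ((h.gmeas.pow_const 2).mul ((hcc j).measurable.comp h.meas)).aestronglyMeasurable)
      h.gL2 (fun j => Eventually.of_forall fun x => ?_) (Eventually.of_forall fun x => ?_)
    · rw [Real.norm_eq_abs, abs_of_nonneg (mul_nonneg (sq_nonneg _) (hc0 _ _))]
      exact mul_le_of_le_one_right (sq_nonneg _) (hc1 _ _)
    · rcases le_or_gt (f x) k with hx | hx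
      · have hx' : x ∉ {x | k < f x} := by simp [hx]
        rw [indicator_of_notMem hx']
        refine tendsto_const_nhds.congr fun j => ?_
        rw [hcz j _ hx, mul_zero]
      · have hx' : x ∈ {x | k < f x} := hx
        rw [indicator_of_mem hx']
        refine tendsto_const_nhds.congr' ?_
        obtain ⟨n0, hn0⟩ := exists_nat_gt (1 / (f x - k))
        filter_upwards [eventually_ge_atTop n0] with j hj
        have h1 : 1 ≤ (j : ℝ) * max (f x - k) 0 := by
          rw [max_eq_left (by linarith)]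
          have h2 : 0 < f x - k := by linarith
          have h3 : (n0 : ℝ) ≤ j := by exact_mod_cast hj
          rw [div_lt_iff₀ h2] at hn0
          nlinarith
        simp only [hc]
        rw [min_eq_left h1, mul_one]
  rw [integral_indicator hA] at ht
  exact le_of_tendsto' ht hineq

theorem level_ineq {N : ℝ} (hN : 1 < N) (hcd : CDr m N) {f g0 : X → ℝ} (h : PreExt m N f g0)
    {k : ℝ} (hk : 0 ≤ k) {D : ℝ} (hD : ∀ x y : X, dist x y ≤ D)
    (hs1 : (m.real {x | k < f x}) ^ (1 / N) ≤ 1 / 2)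
    (hs2 : 16 * D ^ 2 / N * ((m.real {x | k < f x}) ^ (1 / N)) ^ 2 ≤ 1 / 2) :
    ∫ x, max (f x - k) 0 ∂m ≤ 32 * D ^ 2 / N * k * (m.real {x | k < f x}) ^ (1 + 2 / N) := by
  have hA : MeasurableSet {x | k < f x} := measurableSet_lt measurable_const h.meas
  have hN0 : 0 < N := by linarith
  have hB := lim_ineq hN hcd h k hD
  have hC := energy_level hN h hk
  have hv := memLp_pos h.memL2 k
  have hv1 : Integrable (fun x => max (f x - k) 0) m := hv.integrable one_le_two
  have hv2 : Integrable (fun x => (max (f x - k) 0) ^ 2) m := hv.integrable_sq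
  have hE : ∫ x, f x * max (f x - k) 0 ∂m = ∫ x, (max (f x - k) 0) ^ 2 ∂m +
      k * ∫ x, max (f x - k) 0 ∂m := by
    rw [← integral_const_mul, ← integral_add hv2 (hv1.const_mul k)]
    refine integral_congr_ae (Eventually.of_forall fun x => ?_)
    simp only
    rcases le_or_gt (f x) k with hx | hx
    · rw [max_eq_right (by linarith)]; ring
    · rw [max_eq_left (by linarith)]; ring
  rw [hE] at hC
  set μ := m.real {x | k < f x} with hμ
  have hμ0 : 0 ≤ μ := measureReal_nonneg
  set s := μ ^ (1 / N) with hs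
  have hs0 : 0 ≤ s := Real.rpow_nonneg hμ0 _
  set y := ∫ x, (max (f x - k) 0) ^ 2 ∂m with hy
  set w := ∫ x, max (f x - k) 0 ∂m with hw
  set J := ∫ x, max (f x - k) 0 * g0 x ∂m with hJ
  set I := ∫ x in {x | k < f x}, g0 x ^ 2 ∂m with hI
  have hy0 : 0 ≤ y := integral_nonneg fun x => sq_nonneg _
  have hw0 : 0 ≤ w := integral_nonneg fun x => le_max_right _ _
  have hI0 : 0 ≤ I := integral_nonneg fun x => sq_nonneg _
  -- Young
  have hY : 2 * D / N * s * J ≤ y / 4 + (2 * D / N * s) ^ 2 * I := by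
    have i1 : Integrable (fun x => max (f x - k) 0 * g0 x) m :=
      integrable_mul_of_memLp hv h.g0_memLp
    have i2 : Integrable ({x | k < f x}.indicator fun x => g0 x ^ 2) m := h.gL2.indicator hA
    rw [hI, ← integral_indicator hA, hy, hJ, ← integral_const_mul, ← integral_const_mul,
      ← integral_div, ← integral_add (hv2.div_const 4) (i2.const_mul _)]
    refine integral_mono (i1.const_mul _) ((hv2.div_const 4).add (i2.const_mul _)) fun x => ?_
    simp only
    rcases le_or_gt (f x) k with hx | hx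
    · have hx' : x ∉ {x | k < f x} := fun hx' => absurd hx' (not_lt.mpr hx)
      rw [indicator_of_notMem hx', max_eq_right (by linarith)]
      simp
    · have hx' : x ∈ {x | k < f x} := hx
      rw [indicator_of_mem hx']
      nlinarith [sq_nonneg (max (f x - k) 0 / 2 - 2 * D / N * s * g0 x)]
  -- Cauchy-Schwarz
  have hCS : w ^ 2 ≤ μ * y := by
    have h1 : ∀ t : ℝ, 0 ≤ μ * (t * t) + (-2 * w) * t + y := by
      intro t
      have i3 : Integrable ({x | k < f x}.indicator fun _ => (1 : ℝ)) m :=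
        (integrable_const _).indicator hA
      have h2 : μ * (t * t) + (-2 * w) * t + y =
          ∫ x, (t * {x | k < f x}.indicator (fun _ => (1 : ℝ)) x - max (f x - k) 0) ^ 2 ∂m := by
        have h3 : ∀ x, (t * {x | k < f x}.indicator (fun _ => (1 : ℝ)) x - max (f x - k) 0) ^ 2 =
            t * t * {x | k < f x}.indicator (fun _ => (1 : ℝ)) x +
              (-2 * t) * max (f x - k) 0 + (max (f x - k) 0) ^ 2 := by
          intro x
          rcases le_or_gt (f x) k with hx | hx
          · have hx' : x ∉ {x | k < f x} := fun hx' => absurd hx' (not_lt.mpr hx)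
            rw [indicator_of_notMem hx', max_eq_right (by linarith)]
            ring
          · have hx' : x ∈ {x | k < f x} := hx
            rw [indicator_of_mem hx']
            ring
        simp only [h3]
        have i4 : Integrable (fun x => t * t * {x | k < f x}.indicator (fun _ => (1 : ℝ)) x +
              (-2 * t) * max (f x - k) 0) m := (i3.const_mul _).add (hv1.const_mul _)
        rw [integral_add i4 hv2, integral_add (i3.const_mul _) (hv1.const_mul _),
          integral_const_mul, integral_const_mul, integral_indicator hA]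
        simp only [integral_const, MeasurableSet.univ, measureReal_restrict_apply, univ_inter,
          smul_eq_mul, mul_one]
        rw [← hμ, ← hw, ← hy]
        ring
      rw [h2]
      exact integral_nonneg fun x => sq_nonneg _
    have h2 := discrim_le_zero h1
    unfold discrim at h2
    nlinarith
  -- algebra
  have hyk : y ≤ 32 * D ^ 2 / N * s ^ 2 * (k * w) := by
    have h1 : s * y ≤ y / 2 := by nlinarith
    have h2 : (2 * D / N * s) ^ 2 * I ≤ (2 * D / N * s) ^ 2 * (N * (y + k * w)) :=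
      mul_le_mul_of_nonneg_left hC (sq_nonneg _)
    have h3 : (2 * D / N * s) ^ 2 * (N * (y + k * w)) = 4 * D ^ 2 / N * s ^ 2 * (y + k * w) := by
      field_simp
      ring
    have h4 : s * (y + 2 * D / N * J) = s * y + 2 * D / N * s * J := by ring
    have h5 : y / 4 ≤ 4 * D ^ 2 / N * s ^ 2 * (y + k * w) := by linarith
    have h6 : 16 * D ^ 2 / N * s ^ 2 * y ≤ 1 / 2 * y := mul_le_mul_of_nonneg_right hs2 hy0
    have h7 : 4 * D ^ 2 / N * s ^ 2 * (y + k * w) =
        (16 * D ^ 2 / N * s ^ 2 * y) / 4 + (32 * D ^ 2 / N * s ^ 2 * (k * w)) / 8 := by ring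
    linarith
  have hfin : w ^ 2 ≤ 32 * D ^ 2 / N * k * (μ * s ^ 2) * w := by
    have h1 : μ * y ≤ μ * (32 * D ^ 2 / N * s ^ 2 * (k * w)) := mul_le_mul_of_nonneg_left hyk hμ0
    have h2 : μ * (32 * D ^ 2 / N * s ^ 2 * (k * w)) = 32 * D ^ 2 / N * k * (μ * s ^ 2) * w := by
      ring
    linarith
  have hpow : μ ^ (1 + 2 / N) = μ * s ^ 2 := by
    have h1 : (1 : ℝ) + 2 / N ≠ 0 := by positivity
    rw [Real.rpow_add' hμ0 h1, Real.rpow_one, hs, ← Real.rpow_natCast, ← Real.rpow_mul hμ0]
    congr 2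
    push_cast
    ring
  rw [hpow]
  rcases hw0.eq_or_lt with h0 | h0
  · rw [← h0]
    positivity
  · nlinarith

/-- fast geometric convergence -/
theorem fast_conv {Y : ℕ → ℝ} (hY : ∀ j, 0 ≤ Y j) {A b θ α : ℝ} (hA : 0 ≤ A) (hb : 0 < b)
    (hθ : 0 < θ) (hα : 0 < α) (hbθ : b * θ ^ α = 1)
    (hrec : ∀ j, Y (j + 1) ≤ A * b ^ j * Y j ^ (1 + α)) (h0 : A * Y 0 ^ α ≤ θ) (j : ℕ) :
    Y j ≤ Y 0 * θ ^ j := by
  induction j with
  | zero => simp
  | succ j ih =>
    have h1 : Y j ^ (1 + α) ≤ (Y 0 * θ ^ j) ^ (1 + α) :=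
      Real.rpow_le_rpow (hY j) ih (by positivity)
    have h2 : (Y 0 * θ ^ j) ^ (1 + α) = (Y 0 * θ ^ j) * (Y 0 ^ α * (θ ^ α) ^ j) := by
      have h3 : 0 ≤ Y 0 * θ ^ j := mul_nonneg (hY 0) (by positivity)
      rw [Real.rpow_add' h3 (by positivity), Real.rpow_one, Real.mul_rpow (hY 0) (by positivity),
        ← Real.rpow_natCast, ← Real.rpow_natCast, ← Real.rpow_mul hθ.le, ← Real.rpow_mul hθ.le,
        mul_comm (j : ℝ) α]
    calc Y (j + 1) ≤ A * b ^ j * Y j ^ (1 + α) := hrec j
      _ ≤ A * b ^ j * ((Y 0 * θ ^ j) * (Y 0 ^ α * (θ ^ α) ^ j)) := by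
          rw [← h2]; gcongr
      _ = (A * Y 0 ^ α) * (Y 0 * θ ^ j) * (b * θ ^ α) ^ j := by rw [mul_pow]; ring
      _ = (A * Y 0 ^ α) * (Y 0 * θ ^ j) := by rw [hbθ, one_pow, mul_one]
      _ ≤ θ * (Y 0 * θ ^ j) :=
          mul_le_mul_of_nonneg_right h0 (mul_nonneg (hY 0) (by positivity))
      _ = Y 0 * θ ^ (j + 1) := by ring

theorem upper_bound {N : ℝ} (hN : 1 < N) (hcd : CDr m N) {f g0 : X → ℝ}
    (h : PreExt m N f g0) : ∃ B : ℝ, 0 < B ∧ ∀ᵐ x ∂m, f x ≤ B := by
  have hN0 : 0 < N := by linarith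
  set D := Metric.diam (univ : Set X) with hDdef
  have hD : ∀ x y : X, dist x y ≤ D := fun x y =>
    Metric.dist_le_diam_of_mem isCompact_univ.isBounded (mem_univ x) (mem_univ y)
  set C1 := 32 * D ^ 2 / N with hC1
  have hC10 : 0 ≤ C1 := by positivity
  set α := 2 / N with hα
  have hα0 : 0 < α := by positivity
  set b : ℝ := 2 ^ (1 + α) with hb
  have hb1 : 1 < b := Real.one_lt_rpow one_lt_two (by positivity)
  have hb0 : 0 < b := by linarith
  set θ : ℝ := b ^ (-1 / α) with hθ
  have hθ0 : 0 < θ := Real.rpow_pos_of_pos hb0 _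
  have hθ1 : θ < 1 := Real.rpow_lt_one_of_one_lt_of_neg hb1 (by
    rw [neg_div]; exact neg_neg_of_pos (by positivity))
  have hbθ : b * θ ^ α = 1 := by
    rw [hθ, ← Real.rpow_mul hb0.le, div_mul_cancel₀ _ hα0.ne', Real.rpow_neg_one,
      mul_inv_cancel₀ hb0.ne']
  set A := 2 * C1 * b with hAdef
  have hA0 : 0 ≤ A := by positivity
  set W : ℝ → ℝ := fun k => ∫ x, max (f x - k) 0 ∂m with hW
  set μ : ℝ → ℝ := fun k => m.real {x | k < f x} with hμ
  have hvi : ∀ k, Integrable (fun x => max (f x - k) 0) m :=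
    fun k => (memLp_pos h.memL2 k).integrable one_le_two
  have hAm : ∀ k, MeasurableSet {x | k < f x} := fun k => measurableSet_lt measurable_const h.meas
  have hW0 : ∀ k, 0 ≤ W k := fun k => integral_nonneg fun x => le_max_right _ _
  have hWm : ∀ k l, k ≤ l → W l ≤ W k := fun k l hkl =>
    integral_mono (hvi l) (hvi k) fun x => max_le_max (by linarith) le_rfl
  have hμ0 : ∀ k, 0 ≤ μ k := fun k => measureReal_nonneg
  -- Chebyshev
  have hcheb : ∀ k, 0 < k → μ k ≤ 1 / k ^ 2 := by
    intro k hk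
    rw [le_div_iff₀ (by positivity), ← h.var]
    have e1 : μ k * k ^ 2 = ∫ x, {x | k < f x}.indicator (fun _ => k ^ 2) x ∂m := by
      rw [integral_indicator (hAm k)]
      simp [hμ]
    rw [e1]
    refine integral_mono ((integrable_const _).indicator (hAm k)) h.memL2.integrable_sq fun x => ?_
    rcases le_or_gt (f x) k with hx | hx
    · have hx' : x ∉ {x | k < f x} := fun hx' => absurd hx' (not_lt.mpr hx)
      rw [indicator_of_notMem hx']
      exact sq_nonneg _
    · have hx' : x ∈ {x | k < f x} := hx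
      rw [indicator_of_mem hx']
      exact pow_le_pow_left₀ hk.le hx.le 2
  -- Markov
  have hmarkov : ∀ k l, k < l → μ l * (l - k) ≤ W k := by
    intro k l hkl
    have e1 : μ l * (l - k) = ∫ x, {x | l < f x}.indicator (fun _ => l - k) x ∂m := by
      rw [integral_indicator (hAm l)]
      simp [hμ]
    rw [e1]
    refine integral_mono ((integrable_const _).indicator (hAm l)) (hvi k) fun x => ?_
    rcases le_or_gt (f x) l with hx | hx
    · have hx' : x ∉ {x | l < f x} := fun hx' => absurd hx' (not_lt.mpr hx)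
      rw [indicator_of_notMem hx']
      exact le_max_right _ _
    · have hx' : x ∈ {x | l < f x} := hx
      rw [indicator_of_mem hx']
      exact le_max_of_le_left (by linarith)
  -- choice of `κ`
  have t1 : Tendsto (fun κ : ℝ => 1 / κ ^ 2) atTop (𝓝 0) := by
    have h1 : Tendsto (fun κ : ℝ => (κ ^ 2)⁻¹) atTop (𝓝 0) :=
      (tendsto_pow_atTop (α := ℝ) two_ne_zero).inv_tendsto_atTop
    simpa using h1
  have t2 : Tendsto (fun κ : ℝ => (1 / κ ^ 2) ^ (1 / N)) atTop (𝓝 0) := by
    have := t1.rpow_const (p := 1 / N) (Or.inr (by positivity))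
    rwa [Real.zero_rpow (by positivity)] at this
  have t3 : Tendsto (fun κ : ℝ => 16 * D ^ 2 / N * ((1 / κ ^ 2) ^ (1 / N)) ^ 2) atTop (𝓝 0) := by
    simpa using (t2.pow 2).const_mul (16 * D ^ 2 / N)
  have t4 : Tendsto (fun κ : ℝ => A * (1 / κ) ^ α) atTop (𝓝 0) := by
    have t5 : Tendsto (fun κ : ℝ => 1 / κ) atTop (𝓝 0) := by
      simpa using tendsto_inv_atTop_zero (𝕜 := ℝ)
    have := (t5.rpow_const (p := α) (Or.inr hα0.le)).const_mul A
    rwa [Real.zero_rpow hα0.ne', mul_zero] at this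
  obtain ⟨κ, ⟨hκ1, hκ2⟩, hκ3, hκ4⟩ := (((t2.eventually_le_const (show (0 : ℝ) < 1 / 2 by norm_num)).and
    (t3.eventually_le_const (show (0 : ℝ) < 1 / 2 by norm_num))).and
    ((t4.eventually_le_const hθ0).and (eventually_ge_atTop (1 : ℝ)))).exists
  have hκ0 : 0 < κ := by linarith
  have hlevel : ∀ k, κ ≤ k → W k ≤ C1 * k * μ k ^ (1 + α) := by
    intro k hk
    have hk0 : 0 < k := by linarith
    have h1 : μ k ≤ 1 / κ ^ 2 := (hcheb k hk0).trans (by gcongr)
    have h2 : μ k ^ (1 / N) ≤ (1 / κ ^ 2) ^ (1 / N) :=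
      Real.rpow_le_rpow (hμ0 k) h1 (by positivity)
    have h3 : 0 ≤ μ k ^ (1 / N) := Real.rpow_nonneg (hμ0 k) _
    refine level_ineq hN hcd h hk0.le hD (h2.trans hκ1) (le_trans ?_ hκ2)
    gcongr
  -- iteration
  set kj : ℕ → ℝ := fun j => κ * (2 - (1 / 2) ^ j) with hkj
  have hkj0 : kj 0 = κ := by simp [hkj]; ring
  have hhalf : ∀ j : ℕ, 0 < ((1 : ℝ) / 2) ^ j ∧ ((1 : ℝ) / 2) ^ j ≤ 1 := fun j =>
    ⟨by positivity, pow_le_one₀ (by norm_num) (by norm_num)⟩
  have hkjκ : ∀ j, κ ≤ kj j ∧ kj j ≤ 2 * κ := fun j => by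
    have := hhalf j
    simp only [hkj]
    constructor <;> nlinarith
  have hstep : ∀ j, kj (j + 1) - kj j = κ * (1 / 2) ^ (j + 1) := fun j => by
    simp only [hkj, pow_succ]; ring
  set Y : ℕ → ℝ := fun j => W (kj j) / κ with hY
  have hY0 : ∀ j, 0 ≤ Y j := fun j => div_nonneg (hW0 _) hκ0.le
  have hrec : ∀ j, Y (j + 1) ≤ A * b ^ j * Y j ^ (1 + α) := by
    intro j
    have h1 := hlevel (kj (j + 1)) (hkjκ _).1
    have h2 := hmarkov (kj j) (kj (j + 1)) (by
      have := hstep j
      have : 0 < κ * (1 / 2) ^ (j + 1) := by positivity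
      linarith)
    have h3 : μ (kj (j + 1)) ≤ Y j * 2 ^ (j + 1) := by
      rw [hstep j] at h2
      have h4 : Y j * 2 ^ (j + 1) = W (kj j) / (κ * (1 / 2) ^ (j + 1)) := by
        simp only [hY, one_div, inv_pow]
        field_simp
      rw [h4, le_div_iff₀ (by positivity)]
      exact h2
    have h5 : μ (kj (j + 1)) ^ (1 + α) ≤ (Y j * 2 ^ (j + 1)) ^ (1 + α) :=
      Real.rpow_le_rpow (hμ0 _) h3 (by positivity)
    have h6 : (Y j * 2 ^ (j + 1)) ^ (1 + α) = Y j ^ (1 + α) * b ^ (j + 1) := by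
      rw [Real.mul_rpow (hY0 j) (by positivity), hb, ← Real.rpow_natCast, ← Real.rpow_natCast,
        ← Real.rpow_mul (by norm_num), ← Real.rpow_mul (by norm_num), mul_comm (1 + α)]
    have h7 : W (kj (j + 1)) ≤ C1 * (2 * κ) * (Y j ^ (1 + α) * b ^ (j + 1)) := by
      refine h1.trans ?_
      rw [← h6]
      have h8 : 0 ≤ μ (kj (j + 1)) ^ (1 + α) := Real.rpow_nonneg (hμ0 _) _
      have h9 := (hkjκ (j + 1)).2
      gcongr
    have h8 : Y (j + 1) = W (kj (j + 1)) / κ := rfl
    rw [h8, div_le_iff₀ hκ0]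
    refine h7.trans (le_of_eq ?_)
    rw [hAdef]; ring
  have hinit : A * Y 0 ^ α ≤ θ := by
    refine le_trans ?_ hκ3
    have h1 : Y 0 ≤ 1 / κ := by
      have h2 : W κ ≤ 1 := by
        rw [← h.var]
        refine integral_mono (hvi κ) h.memL2.integrable_sq fun x => ?_
        refine max_le ?_ (sq_nonneg _)
        simp only
        rcases le_or_gt (f x) κ with hx | hx
        · nlinarith [sq_nonneg (f x)]
        · nlinarith
      simp only [hY, hkj0]
      gcongr
    gcongr
  have hconv := fast_conv hY0 hA0 hb0 hθ0 hα0 hbθ hrec hinit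
  have hW2 : W (2 * κ) ≤ 0 := by
    have h1 : Tendsto (fun j : ℕ => κ * (Y 0 * θ ^ j)) atTop (𝓝 0) := by
      simpa using ((tendsto_pow_atTop_nhds_zero_of_lt_one hθ0.le hθ1).const_mul (Y 0)).const_mul κ
    refine ge_of_tendsto' h1 fun j => ?_
    have h2 := hWm (kj j) (2 * κ) (hkjκ j).2
    have h3 : W (kj j) = κ * Y j := by
      simp only [hY]; field_simp
    rw [h3] at h2
    exact h2.trans (mul_le_mul_of_nonneg_left (hconv j) hκ0.le)
  have hW3 : ∫ x, max (f x - 2 * κ) 0 ∂m = 0 := le_antisymm hW2 (hW0 _)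
  have hae := (integral_eq_zero_iff_of_nonneg (fun x => le_max_right _ _) (hvi (2 * κ))).mp hW3
  refine ⟨2 * κ, by positivity, ?_⟩
  filter_upwards [hae] with x hx
  have h1 : max (f x - 2 * κ) 0 = 0 := hx
  have h2 := le_max_left (f x - 2 * κ) 0
  linarith

end Ex2

theorem PreExt.bounded {N : ℝ} (hN : 1 < N) (hcd : CDr m N) {f g0 : X → ℝ}
    (h : PreExt m N f g0) : ∃ B : ℝ, 0 < B ∧ ∀ᵐ x ∂m, |f x| ≤ B := by
  obtain ⟨B1, hB1, h1⟩ := Ex2.upper_bound hN hcd h
  obtain ⟨B2, hB2, h2⟩ := Ex2.upper_bound hN hcd h.neg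
  refine ⟨max B1 B2, lt_max_of_lt_left hB1, ?_⟩
  filter_upwards [h1, h2] with x hx1 hx2
  rw [abs_le]
  have := le_max_left B1 B2
  have := le_max_right B1 B2
  constructor <;> linarith

end H13CD
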