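import Pool.Agent.Helper13.CD.FluxPlan
import Pool.Agent.Helper13.CD.Aux13

/-!
# Module O3c: step (6) of the flux limit; see the docstring of `FluxLim.lean`
-/

open MeasureTheory Set Filter Topology
open scoped ENNReal NNReal

namespace H13CD

/-- `t ^ (-1/N)` on `[c,∞)` -/
theorem fq_rpow_sq_le {N c : ℝ} (hN : 1 < N) (hc : 0 < c) :
    ∃ L : ℝ, 0 ≤ L ∧ ∀ s t : ℝ, c ≤ s → c ≤ t →
      (s ^ (-(1 / N)) - t ^ (-(1 / N))) ^ 2 ≤ L * |s - t| := by
  have hN0 : 0 < N := by linarith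
  have hq : -(1 / N) ≤ 0 := by
    have : 0 < 1 / N := by positivity
    linarith
  set L1 : ℝ := 1 / N * c ^ (-(1 / N) - 1) with hL1
  have hL1' : 0 ≤ L1 := by positivity
  have hlip : ∀ s t : ℝ, c ≤ s → c ≤ t → |s ^ (-(1 / N)) - t ^ (-(1 / N))| ≤ L1 * |s - t| := by
    intro s t hs ht
    have := Convex.norm_image_sub_le_of_norm_hasDerivWithin_le (s := Ici c)
      (f := fun x : ℝ => x ^ (-(1 / N))) (f' := fun x : ℝ => (-(1 / N)) * x ^ (-(1 / N) - 1))
      (C := L1) (x := t) (y := s)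
      (fun x hx => (Real.hasDerivAt_rpow_const (Or.inl (ne_of_gt (lt_of_lt_of_le hc hx)))).hasDerivWithinAt)
      (fun x hx => by
        have hx0 : 0 < x := lt_of_lt_of_le hc hx
        rw [Real.norm_eq_abs, abs_mul, abs_neg, abs_of_pos (show 0 < 1 / N by positivity),
          abs_of_pos (Real.rpow_pos_of_pos hx0 _), hL1]
        refine mul_le_mul_of_nonneg_left ?_ (by positivity)
        exact Real.rpow_le_rpow_of_nonpos hc hx (by linarith))
      (convex_Ici c) ht hs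
    simpa [Real.norm_eq_abs] using this
  have hbd : ∀ s t : ℝ, c ≤ s → c ≤ t → |s ^ (-(1 / N)) - t ^ (-(1 / N))| ≤ c ^ (-(1 / N)) := by
    intro s t hs ht
    have h1 : 0 ≤ s ^ (-(1 / N)) := (Real.rpow_pos_of_pos (lt_of_lt_of_le hc hs) _).le
    have h2 : 0 ≤ t ^ (-(1 / N)) := (Real.rpow_pos_of_pos (lt_of_lt_of_le hc ht) _).le
    have h3 := Real.rpow_le_rpow_of_nonpos hc hs hq
    have h4 := Real.rpow_le_rpow_of_nonpos hc ht hq
    rw [abs_le]
    constructor <;> linarith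
  refine ⟨c ^ (-(1 / N)) * L1, by positivity, fun s t hs ht => ?_⟩
  rw [← sq_abs, sq, mul_assoc]
  exact mul_le_mul (hbd s t hs ht) (hlip s t hs ht) (abs_nonneg _) (by positivity)

variable {X : Type*} [MetricSpace X] [CompactSpace X] [MeasurableSpace X] [BorelSpace X]
  {m : Measure X} [IsProbabilityMeasure m]

/-- Cauchy-Schwarz for a plan with bounded marginals -/
theorem fq_cs {P : Measure (X × X)} {C0 C1 : ℝ} (hC0 : 0 ≤ C0) (hC1 : 0 ≤ C1)
    (h0 : P.map Prod.fst ≤ ENNReal.ofReal C0 • m) (h1 : P.map Prod.snd ≤ ENNReal.ofReal C1 • m)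
    {G w : X → ℝ} (hG : Measurable G) (hw : Measurable w)
    (hG2 : Integrable (fun x => G x ^ 2) m) (hw2 : Integrable (fun x => w x ^ 2) m) :
    Integrable (fun z : X × X => G z.1 * w z.2) P ∧
    |∫ z, G z.1 * w z.2 ∂P| ≤ √(C0 * ∫ x, G x ^ 2 ∂m) * √(C1 * ∫ x, w x ^ 2 ∂m) := by
  obtain ⟨i1, j1⟩ := integral_fst_le hC0 h0 hG2 (fun x => sq_nonneg _)
  obtain ⟨i2, j2⟩ := integral_snd_le hC1 h1 hw2 (fun x => sq_nonneg _)
  have m1 : AEStronglyMeasurable (fun z : X × X => G z.1) P :=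
    (hG.comp measurable_fst).aestronglyMeasurable
  have m2 : AEStronglyMeasurable (fun z : X × X => w z.2) P :=
    (hw.comp measurable_snd).aestronglyMeasurable
  refine ⟨integrable_mul_of_sq m1 m2 i1 i2, ?_⟩
  refine (cauchy_schwarz m1 m2 i1 i2).trans ?_
  exact mul_le_mul (Real.sqrt_le_sqrt j1) (Real.sqrt_le_sqrt j2) (Real.sqrt_nonneg _)
    (Real.sqrt_nonneg _)

omit [MetricSpace X] [CompactSpace X] [BorelSpace X] in
/-- `L²` closeness of `e g` and `e⁻¹ b` gives `L¹` closeness of `b²` and `e⁴ g²` -/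
theorem fq_sq_close {e g b : X → ℝ} {M Db κ : ℝ} (he : Measurable e) (hg : Measurable g)
    (hb : Measurable b) (he0 : ∀ x, 0 < e x) (heM : ∀ x, e x ≤ M) (heM' : ∀ x, (e x)⁻¹ ≤ M)
    (hbD : ∀ x, |b x| ≤ Db) (hg2 : Integrable (fun x => g x ^ 2) m)
    (hκ : ∫ x, (e x * g x - (e x)⁻¹ * b x) ^ 2 ∂m ≤ κ) :
    Integrable (fun x => b x ^ 2) m ∧ Integrable (fun x => e x ^ 4 * g x ^ 2) m ∧
    ∫ x, |b x ^ 2 - e x ^ 4 * g x ^ 2| ∂m ≤
      M ^ 2 * (κ + 2 * (√κ * √(∫ x, (e x * g x) ^ 2 ∂m))) := by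
  have hA : Integrable (fun x => (e x * g x) ^ 2) m := by
    have : (fun x => (e x * g x) ^ 2) = fun x => g x ^ 2 * e x ^ 2 := by
      funext x; ring
    rw [this]
    refine hg2.mul_bdd (c := M ^ 2) (he.pow_const 2).aestronglyMeasurable (ae_of_all _ fun x => ?_)
    rw [Real.norm_eq_abs, abs_of_nonneg (sq_nonneg _)]
    exact pow_le_pow_left₀ (he0 x).le (heM x) 2
  have hb2 : Integrable (fun x => b x ^ 2) m := by
    refine Integrable.of_bound (hb.pow_const 2).aestronglyMeasurable (Db ^ 2) (ae_of_all _ fun x => ?_)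
    rw [Real.norm_eq_abs, abs_of_nonneg (sq_nonneg _), ← sq_abs]
    exact pow_le_pow_left₀ (abs_nonneg _) (hbD x) 2
  have hM0 : 0 ≤ M ∨ IsEmpty X := by
    rcases isEmpty_or_nonempty X with hX | ⟨⟨x⟩⟩
    · exact Or.inr hX
    · exact Or.inl ((he0 x).le.trans (heM x))
  have hBb : Integrable (fun x => ((e x)⁻¹ * b x) ^ 2) m := by
    have : (fun x => ((e x)⁻¹ * b x) ^ 2) = fun x => b x ^ 2 * ((e x)⁻¹) ^ 2 := by
      funext x; ring
    rw [this]
    refine hb2.mul_bdd (c := M ^ 2) (he.inv.pow_const 2).aestronglyMeasurable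
      (ae_of_all _ fun x => ?_)
    rw [Real.norm_eq_abs, abs_of_nonneg (sq_nonneg _)]
    exact pow_le_pow_left₀ (inv_nonneg.mpr (he0 x).le) (heM' x) 2
  have mA : AEStronglyMeasurable (fun x => e x * g x) m := (he.mul hg).aestronglyMeasurable
  have mB : AEStronglyMeasurable (fun x => (e x)⁻¹ * b x) m := (he.inv.mul hb).aestronglyMeasurable
  have lA := memLp_two_of_sq mA hA
  have lB := memLp_two_of_sq mB hBb
  have hD : Integrable (fun x => (e x * g x - (e x)⁻¹ * b x) ^ 2) m := (lA.sub lB).integrable_sq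
  have hcs : ∫ x, |(e x * g x - (e x)⁻¹ * b x) * (e x * g x)| ∂m ≤
      √(∫ x, (e x * g x - (e x)⁻¹ * b x) ^ 2 ∂m) * √(∫ x, (e x * g x) ^ 2 ∂m) :=
    cauchy_schwarz_abs (lA.sub lB).aestronglyMeasurable mA hD hA
  have hprod : Integrable (fun x => (e x * g x - (e x)⁻¹ * b x) * (e x * g x)) m :=
    (lA.sub lB).integrable_mul lA
  have hG : Integrable (fun x => e x ^ 4 * g x ^ 2) m := by
    have : (fun x => e x ^ 4 * g x ^ 2) = fun x => g x ^ 2 * e x ^ 4 := by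
      funext x; ring
    rw [this]
    refine hg2.mul_bdd (c := M ^ 4) (he.pow_const 4).aestronglyMeasurable (ae_of_all _ fun x => ?_)
    rw [Real.norm_eq_abs, abs_of_nonneg (by positivity)]
    exact pow_le_pow_left₀ (he0 x).le (heM x) 4
  refine ⟨hb2, hG, ?_⟩
  have hκ0 : 0 ≤ κ := le_trans (integral_nonneg fun x => sq_nonneg _) hκ
  have hi : Integrable (fun x => M ^ 2 * ((e x * g x - (e x)⁻¹ * b x) ^ 2 +
      2 * |(e x * g x - (e x)⁻¹ * b x) * (e x * g x)|)) m :=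
    ((hD.add (hprod.abs.const_mul 2))).const_mul (M ^ 2)
  calc ∫ x, |b x ^ 2 - e x ^ 4 * g x ^ 2| ∂m
      ≤ ∫ x, M ^ 2 * ((e x * g x - (e x)⁻¹ * b x) ^ 2 +
          2 * |(e x * g x - (e x)⁻¹ * b x) * (e x * g x)|) ∂m := by
        refine integral_mono_of_nonneg (ae_of_all _ fun x => abs_nonneg _) hi
          (ae_of_all _ fun x => ?_)
        simp only []
        have hex := he0 x
        have e1 : b x ^ 2 - e x ^ 4 * g x ^ 2 = e x ^ 2 *
            ((e x * g x - (e x)⁻¹ * b x) ^ 2 -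
              2 * ((e x * g x - (e x)⁻¹ * b x) * (e x * g x))) := by
          field_simp
          ring
        rw [e1, abs_mul, abs_of_nonneg (sq_nonneg (e x))]
        have h1 : e x ^ 2 ≤ M ^ 2 := pow_le_pow_left₀ hex.le (heM x) 2
        have h2 : |(e x * g x - (e x)⁻¹ * b x) ^ 2 -
              2 * ((e x * g x - (e x)⁻¹ * b x) * (e x * g x))| ≤
            (e x * g x - (e x)⁻¹ * b x) ^ 2 +
              2 * |(e x * g x - (e x)⁻¹ * b x) * (e x * g x)| := by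
          refine (abs_sub _ _).trans ?_
          rw [abs_of_nonneg (sq_nonneg (e x * g x - (e x)⁻¹ * b x)), abs_mul 2, abs_two]
        exact mul_le_mul h1 h2 (abs_nonneg _) (sq_nonneg _)
    _ = M ^ 2 * (∫ x, (e x * g x - (e x)⁻¹ * b x) ^ 2 ∂m +
          2 * ∫ x, |(e x * g x - (e x)⁻¹ * b x) * (e x * g x)| ∂m) := by
        rw [integral_const_mul, integral_add hD (hprod.abs.const_mul 2), integral_const_mul]
    _ ≤ M ^ 2 * (κ + 2 * (√κ * √(∫ x, (e x * g x) ^ 2 ∂m))) := by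
        refine mul_le_mul_of_nonneg_left ?_ (sq_nonneg _)
        have h3 : √(∫ x, (e x * g x - (e x)⁻¹ * b x) ^ 2 ∂m) ≤ √κ := Real.sqrt_le_sqrt hκ
        have h4 := hcs.trans (mul_le_mul_of_nonneg_right h3 (Real.sqrt_nonneg _))
        linarith

/-- step (6) -/
theorem flux_quad {N B c δ : ℝ} {f g0 : X → ℝ} (h : Extremal m N B f g0)
    (hp : FluxPar N B c δ) (h4 : Integrable (fun x => g0 x ^ 4) m)
    {c1 C1 : ℝ} (hc1 : 0 < c1) (hC1 : 0 < C1) {C : ℝ} (hC : 0 < C) {η : ℝ} (hη : 0 < η) :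
    ∃ ε0 > 0, ∀ ε ∈ Ioo (0 : ℝ) ε0, ∀ (π P' : Measure (X × X)) (α ρ1 : X → ℝ),
      FluxData m N c δ ε c1 C1 f g0 π P' α ρ1 →
      ∫ x, (Real.exp (δ * f x / 4) * g0 x - Real.exp (-(δ * f x / 4)) * (α x / ε)) ^ 2 ∂m
        ≤ C * ε →
      ∫ x, |ρ1 x - fP N c (f x) ^ (N / (N - 1))| ∂m ≤ C * ε →
      (1 - 1 / N) / 2 * ∫ x, g0 x ^ 2 * Real.exp (δ * f x) * fP N c (f x) ∂m - η ≤
        ((1 - 1 / N) / 6 * ∫ z, α z.1 ^ 2 * ρ1 z.2 ^ (-(1 / N)) ∂P' +
        (1 - 1 / N) / 3 * ∫ x, α x ^ 2 * fP N c (f x) ∂m) / ε ^ 2 := by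
  classical
  have hN := hp.hN
  have hN0 : 0 < N := by linarith
  have hN1 : 0 < N - 1 := by linarith
  have hB := hp.hB
  have hδ := hp.hδ
  have hp0 : 0 < 1 - 1 / N := by
    have : 1 / N < 1 := by rw [div_lt_one hN0]; exact hN
    linarith
  have hp1 : 1 - 1 / N ≤ 1 := by
    have : 0 < 1 / N := by positivity
    linarith
  have hfI : ∀ x, f x ∈ Icc (-B) B := fun x => abs_le.mp (h.lim.bound x)
  have hfm := h.lim.meas
  have hgm := h.lim.gmeas
  have hg2 := h.lim.gL2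
  have hPb : ∀ x, 1 / 2 ≤ fP N c (f x) ∧ fP N c (f x) ≤ 3 / 2 := fun x => fP_bounds hp (hfI x)
  have hPm : Measurable fun x => fP N c (f x) := by unfold fP; fun_prop
  -- the weight `e`
  set e : X → ℝ := fun x => Real.exp (δ * f x / 4) with he
  set M : ℝ := Real.exp (δ * B / 4) with hM
  have hem : Measurable e := by simp only [he]; fun_prop
  have he0 : ∀ x, 0 < e x := fun x => Real.exp_pos _
  have heM : ∀ x, e x ≤ M := fun x => by
    simp only [he, hM]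
    apply Real.exp_le_exp.mpr
    have := mul_le_mul_of_nonneg_left (hfI x).2 hδ.le
    linarith
  have heinv : ∀ x, (e x)⁻¹ = Real.exp (-(δ * f x / 4)) := fun x => by
    simp only [he]; rw [Real.exp_neg]
  have heM' : ∀ x, (e x)⁻¹ ≤ M := fun x => by
    rw [heinv]
    simp only [hM]
    apply Real.exp_le_exp.mpr
    have := mul_le_mul_of_nonneg_left (hfI x).1 hδ.le
    linarith
  have hM0 : 0 < M := Real.exp_pos _
  have he4 : ∀ x, e x ^ 4 = Real.exp (δ * f x) := fun x => by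
    simp only [he]
    rw [← Real.exp_nat_mul]
    congr 1
    push_cast
    ring
  -- `ρ0` and `u0`
  set q : ℝ := N / (N - 1) with hq
  have hq0 : 0 < q := by positivity
  set ρ0 : X → ℝ := fun x => fP N c (f x) ^ q with hρ0
  have hρ0m : Measurable ρ0 := hPm.pow_const q
  set C0 : ℝ := (3 / 2 : ℝ) ^ q with hC0
  set c0 : ℝ := (1 / 2 : ℝ) ^ q with hc0
  have hC0p : 0 < C0 := by positivity
  have hc0p : 0 < c0 := by positivity
  have hρ0C : ∀ x, ρ0 x ≤ C0 := fun x =>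
    Real.rpow_le_rpow (by linarith [(hPb x).1]) (hPb x).2 hq0.le
  have hρ0c : ∀ x, c0 ≤ ρ0 x := fun x =>
    Real.rpow_le_rpow (by norm_num) (hPb x).1 hq0.le
  have hρ0p : ∀ x, 0 < ρ0 x := fun x => lt_of_lt_of_le hc0p (hρ0c x)
  set u0 : X → ℝ := fun x => ρ0 x ^ (-(1 / N)) with hu0
  have hu0m : Measurable u0 := hρ0m.pow_const _
  have hu0p : ∀ x, 0 < u0 x := fun x => Real.rpow_pos_of_pos (hρ0p x) _
  have hnq : -(1 / N) ≤ 0 := by
    have : 0 < 1 / N := by positivity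
    linarith
  have hu0b : ∀ x, u0 x ≤ c0 ^ (-(1 / N)) := fun x =>
    Real.rpow_le_rpow_of_nonpos hc0p (hρ0c x) hnq
  have huρ : ∀ x, ρ0 x * u0 x = fP N c (f x) := fun x => by
    simp only [hu0, hρ0]
    have hPx : 0 < fP N c (f x) := by linarith [(hPb x).1]
    rw [← Real.rpow_mul hPx.le, ← Real.rpow_add hPx]
    have : q + q * -(1 / N) = 1 := by
      rw [hq]; field_simp; ring
    rw [this, Real.rpow_one]
  have hu0L2 : MemLp u0 2 m := by
    refine MemLp.of_bound hu0m.aestronglyMeasurable (c0 ^ (-(1 / N))) (ae_of_all _ fun x => ?_)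
    rw [Real.norm_eq_abs, abs_of_pos (hu0p x)]
    exact hu0b x
  -- `G`
  set G : X → ℝ := fun x => e x ^ 4 * g0 x ^ 2 with hG
  have hGm : Measurable G := (hem.pow_const 4).mul (hgm.pow_const 2)
  have hG0 : ∀ x, 0 ≤ G x := fun x => by simp only [hG]; positivity
  have hG2 : Integrable (fun x => G x ^ 2) m := by
    have : (fun x => G x ^ 2) = fun x => g0 x ^ 4 * e x ^ 8 := by
      funext x; simp only [hG]; ring
    rw [this]
    refine h4.mul_bdd (c := M ^ 8) (hem.pow_const 8).aestronglyMeasurable (ae_of_all _ fun x => ?_)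
    rw [Real.norm_eq_abs, abs_of_nonneg (by positivity)]
    exact pow_le_pow_left₀ (he0 x).le (heM x) 8
  have hGi : Integrable G m := by
    have : G = fun x => g0 x ^ 2 * e x ^ 4 := by
      funext x; simp only [hG]; ring
    rw [this]
    refine hg2.mul_bdd (c := M ^ 4) (hem.pow_const 4).aestronglyMeasurable (ae_of_all _ fun x => ?_)
    rw [Real.norm_eq_abs, abs_of_nonneg (by positivity)]
    exact pow_le_pow_left₀ (he0 x).le (heM x) 4
  set IG : ℝ := ∫ x, G x ∂m with hIG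
  set IG2 : ℝ := ∫ x, G x ^ 2 ∂m with hIG2
  set IA : ℝ := ∫ x, (e x * g0 x) ^ 2 ∂m with hIA
  have hIG0 : 0 ≤ IG := integral_nonneg hG0
  have hIG20 : 0 ≤ IG2 := integral_nonneg fun x => sq_nonneg _
  have hIA0 : 0 ≤ IA := integral_nonneg fun x => sq_nonneg _
  set IP : ℝ := ∫ x, g0 x ^ 2 * Real.exp (δ * f x) * fP N c (f x) ∂m with hIP
  -- Lipschitz constant
  obtain ⟨L, hL0, hL⟩ := fq_rpow_sq_le hN (show 0 < min c1 c0 from lt_min hc1 hc0p)
  -- near diagonal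
  set κ : ℝ := (η / (√(C0 * IG2) + 1)) ^ 2 with hκ
  have hκ0 : 0 < κ := by positivity
  obtain ⟨C', hC'0, hnd⟩ := near_diag hu0L2 (C := max C0 C1) (hC0p.le.trans (le_max_left _ _)) hκ0
  -- error function
  set δ1 : ℝ → ℝ := fun ε => M ^ 2 * (C * ε + 2 * (√(C * ε) * √IA)) with hδ1
  set err : ℝ → ℝ := fun ε =>
    (1 - 1 / N) / 3 * (3 / 2 * δ1 ε) + (1 - 1 / N) / 6 * (c1 ^ (-(1 / N)) * (C0 * δ1 ε) +
      √(C0 * IG2) * √(C1 * (L * (C * ε))) +
      √(C0 * IG2) * √(κ + C' * (C0 * (ε ^ 2 * (δ1 ε + IG))))) with herr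
  have hδ1c : Continuous δ1 := by simp only [hδ1]; fun_prop
  have herrc : Continuous err := by simp only [herr]; fun_prop
  have hδ10 : δ1 0 = 0 := by simp [hδ1]
  have herr0 : err 0 < η := by
    simp only [herr, hδ10]
    simp only [mul_zero, Real.sqrt_zero, zero_add, ne_eq, OfNat.ofNat_ne_zero, not_false_eq_true,
      zero_pow, zero_mul, add_zero]
    rw [hκ, Real.sqrt_sq (by positivity)]
    have h1 : √(C0 * IG2) * (η / (√(C0 * IG2) + 1)) ≤ η := by
      rw [mul_div_assoc', div_le_iff₀ (by positivity)]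
      nlinarith [Real.sqrt_nonneg (C0 * IG2)]
    have h2 : (1 - 1 / N) / 6 * (√(C0 * IG2) * (η / (√(C0 * IG2) + 1))) ≤
      (1 - 1 / N) / 6 * η := mul_le_mul_of_nonneg_left h1 (by positivity)
    have h3 : (1 - 1 / N) / 6 * η ≤ 1 / 6 * η := mul_le_mul_of_nonneg_right (by linarith) hη.le
    linarith
  obtain ⟨ε0, hε0, hε⟩ := Metric.continuousAt_iff.mp (herrc.continuousAt (x := 0)) (η - err 0)
    (by linarith)
  refine ⟨ε0, hε0, ?_⟩
  intro ε hεI π P' α ρ1 hd hA hρ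
  have hεpos : 0 < ε := hεI.1
  have herrε : err ε < η := by
    have h1 : dist ε 0 < ε0 := by
      rw [Real.dist_eq, sub_zero, abs_of_pos hεpos]; exact hεI.2
    have h2 := hε h1
    rw [Real.dist_eq] at h2
    linarith [(abs_lt.mp h2).2]
  -- `β`
  set β : X → ℝ := fun x => α x / ε with hβ
  have hβm : Measurable β := hd.αmeas.div_const ε
  obtain ⟨D, hD⟩ := hd.αbdd
  have hβb : ∀ x, |β x| ≤ D / ε := fun x => by
    simp only [hβ]
    rw [abs_div, abs_of_nonneg (hd.αnonneg x), abs_of_pos hεpos]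
    exact div_le_div_of_nonneg_right (hD x) hεpos.le
  have hA' : ∫ x, (e x * g0 x - (e x)⁻¹ * β x) ^ 2 ∂m ≤ C * ε := by
    refine le_trans (le_of_eq ?_) hA
    refine integral_congr_ae (ae_of_all _ fun x => ?_)
    simp only [heinv]
    rfl
  obtain ⟨hβ2, -, hclose⟩ := fq_sq_close hem hgm hβm he0 heM heM' hβb hg2 hA'
  have hclose' : ∫ x, |β x ^ 2 - G x| ∂m ≤ δ1 ε := hclose
  have hδ1ε : 0 ≤ δ1 ε := le_trans (integral_nonneg fun x => abs_nonneg _) hclose'
  have hdi : Integrable (fun x => |β x ^ 2 - G x|) m := (hβ2.sub hGi).abs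
  -- marginals of P'
  have hfst : P'.map Prod.fst ≤ ENNReal.ofReal C0 • m := by
    rw [hd.cplP.1]; exact dens_le hρ0C
  have hsnd : P'.map Prod.snd ≤ ENNReal.ofReal C1 • m := by
    rw [hd.cplP.2]; exact dens_le fun x => (hd.ρbd x).2
  have hfst' : P'.map Prod.fst ≤ ENNReal.ofReal (max C0 C1) • m :=
    hfst.trans (by
      intro s
      simp only [Measure.smul_apply, smul_eq_mul]
      exact mul_le_mul_left (ENNReal.ofReal_le_ofReal (le_max_left _ _)) _)
  have hsnd' : P'.map Prod.snd ≤ ENNReal.ofReal (max C0 C1) • m :=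
    hsnd.trans (by
      intro s
      simp only [Measure.smul_apply, smul_eq_mul]
      exact mul_le_mul_left (ENNReal.ofReal_le_ofReal (le_max_right _ _)) _)
  -- `r = ρ1 ^ (-1/N)`
  set r : X → ℝ := fun x => ρ1 x ^ (-(1 / N)) with hr
  have hrm : Measurable r := hd.ρmeas.pow_const _
  have hρ1p : ∀ x, 0 < ρ1 x := fun x => lt_of_lt_of_le hc1 (hd.ρbd x).1
  have hrp : ∀ x, 0 < r x := fun x => Real.rpow_pos_of_pos (hρ1p x) _
  have hrb : ∀ x, r x ≤ c1 ^ (-(1 / N)) := fun x =>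
    Real.rpow_le_rpow_of_nonpos hc1 (hd.ρbd x).1 hnq
  have hc1r : 0 < c1 ^ (-(1 / N)) := Real.rpow_pos_of_pos hc1 _
  have hrL2 : Integrable (fun x => (r x - u0 x) ^ 2) m := by
    refine ((MemLp.of_bound hrm.aestronglyMeasurable (c1 ^ (-(1 / N)))
      (ae_of_all _ fun x => ?_)).sub hu0L2).integrable_sq
    rw [Real.norm_eq_abs, abs_of_pos (hrp x)]
    exact hrb x
  -- integrability under `P'`
  have hβP : Integrable (fun z : X × X => β z.1 ^ 2) P' :=
    (integral_fst_le hC0p.le hfst hβ2 (fun x => sq_nonneg _)).1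
  have hGP : Integrable (fun z : X × X => G z.1) P' :=
    (integral_fst_le hC0p.le hfst hGi hG0).1
  have hrP : AEStronglyMeasurable (fun z : X × X => r z.2) P' :=
    (hrm.comp measurable_snd).aestronglyMeasurable
  have huP : AEStronglyMeasurable (fun z : X × X => u0 z.2) P' :=
    (hu0m.comp measurable_snd).aestronglyMeasurable
  have huP1 : AEStronglyMeasurable (fun z : X × X => u0 z.1) P' :=
    (hu0m.comp measurable_fst).aestronglyMeasurable
  have hβrP : Integrable (fun z : X × X => β z.1 ^ 2 * r z.2) P' := by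
    refine hβP.mul_bdd (c := c1 ^ (-(1 / N))) hrP (ae_of_all _ fun z => ?_)
    rw [Real.norm_eq_abs, abs_of_pos (hrp _)]
    exact hrb _
  have hGrP : Integrable (fun z : X × X => G z.1 * r z.2) P' := by
    refine hGP.mul_bdd (c := c1 ^ (-(1 / N))) hrP (ae_of_all _ fun z => ?_)
    rw [Real.norm_eq_abs, abs_of_pos (hrp _)]
    exact hrb _
  have hGuP : Integrable (fun z : X × X => G z.1 * u0 z.2) P' := by
    refine hGP.mul_bdd (c := c0 ^ (-(1 / N))) huP (ae_of_all _ fun z => ?_)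
    rw [Real.norm_eq_abs, abs_of_pos (hu0p _)]
    exact hu0b _
  have hGuP1 : Integrable (fun z : X × X => G z.1 * u0 z.1) P' := by
    refine hGP.mul_bdd (c := c0 ^ (-(1 / N))) huP1 (ae_of_all _ fun z => ?_)
    rw [Real.norm_eq_abs, abs_of_pos (hu0p _)]
    exact hu0b _
  -- (b1)
  have b1 : ∫ z, G z.1 * r z.2 ∂P' - c1 ^ (-(1 / N)) * (C0 * δ1 ε) ≤
      ∫ z, β z.1 ^ 2 * r z.2 ∂P' := by
    obtain ⟨i1, j1⟩ := integral_fst_le hC0p.le hfst hdi (fun x => abs_nonneg _)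
    have k1 : ∫ z, (G z.1 * r z.2 - β z.1 ^ 2 * r z.2) ∂P' ≤
        ∫ z : X × X, c1 ^ (-(1 / N)) * |β z.1 ^ 2 - G z.1| ∂P' := by
      refine integral_mono (hGrP.sub hβrP) (i1.const_mul _) fun z => ?_
      simp only []
      have e1 : G z.1 * r z.2 - β z.1 ^ 2 * r z.2 = (G z.1 - β z.1 ^ 2) * r z.2 := by ring
      rw [e1, mul_comm (c1 ^ (-(1 / N)))]
      have e2 : G z.1 - β z.1 ^ 2 ≤ |β z.1 ^ 2 - G z.1| := by
        rw [abs_sub_comm]; exact le_abs_self _
      exact mul_le_mul e2 (hrb _) (hrp _).le (abs_nonneg _)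
    rw [integral_sub hGrP hβrP, integral_const_mul] at k1
    have k2 : c1 ^ (-(1 / N)) * ∫ z : X × X, |β z.1 ^ 2 - G z.1| ∂P' ≤
        c1 ^ (-(1 / N)) * (C0 * δ1 ε) :=
      mul_le_mul_of_nonneg_left (j1.trans (mul_le_mul_of_nonneg_left hclose' hC0p.le)) hc1r.le
    linarith
  -- (b2)
  have b2 : ∫ z, G z.1 * u0 z.2 ∂P' - √(C0 * IG2) * √(C1 * (L * (C * ε))) ≤
      ∫ z, G z.1 * r z.2 ∂P' := by
    obtain ⟨-, j2⟩ := fq_cs hC0p.le hC1.le hfst hsnd hGm (hrm.sub hu0m) hG2 hrL2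
    have j2' : |∫ z, G z.1 * (r z.2 - u0 z.2) ∂P'| ≤ √(C0 * IG2) *
        √(C1 * ∫ x, (r x - u0 x) ^ 2 ∂m) := j2
    have k1 : ∫ z, G z.1 * (r z.2 - u0 z.2) ∂P' =
        ∫ z, G z.1 * r z.2 ∂P' - ∫ z, G z.1 * u0 z.2 ∂P' := by
      rw [← integral_sub hGrP hGuP]
      refine integral_congr_ae (ae_of_all _ fun z => ?_)
      simp only []
      ring
    have hρi : Integrable (fun x => L * |ρ1 x - ρ0 x|) m := by
      refine Integrable.const_mul (Integrable.abs ?_) L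
      refine Integrable.of_bound (hd.ρmeas.sub hρ0m).aestronglyMeasurable (C1 + C0)
        (ae_of_all _ fun x => ?_)
      rw [Real.norm_eq_abs, abs_le]
      have h1 := hρ1p x
      have h2 := hρ0p x
      have h3 := (hd.ρbd x).2
      have h4 := hρ0C x
      constructor <;> linarith
    have k2 : ∫ x, (r x - u0 x) ^ 2 ∂m ≤ L * (C * ε) := by
      calc ∫ x, (r x - u0 x) ^ 2 ∂m ≤ ∫ x, L * |ρ1 x - ρ0 x| ∂m := by
            refine integral_mono hrL2 hρi fun x => ?_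
            exact hL _ _ ((min_le_left _ _).trans (hd.ρbd x).1)
              ((min_le_right _ _).trans (hρ0c x))
        _ = L * ∫ x, |ρ1 x - ρ0 x| ∂m := integral_const_mul _ _
        _ ≤ L * (C * ε) := mul_le_mul_of_nonneg_left hρ hL0
    have k3 : √(C0 * IG2) * √(C1 * ∫ x, (r x - u0 x) ^ 2 ∂m) ≤
        √(C0 * IG2) * √(C1 * (L * (C * ε))) :=
      mul_le_mul_of_nonneg_left (Real.sqrt_le_sqrt (mul_le_mul_of_nonneg_left k2 hC1.le))
        (Real.sqrt_nonneg _)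
    rw [k1] at j2'
    linarith [(abs_le.mp j2').1]
  -- cost
  have hcost : cost P' ≤ C0 * (ε ^ 2 * (δ1 ε + IG)) := by
    have e1 : cost P' = ∫ z, ε ^ 2 * β z.1 ^ 2 ∂P' := by
      unfold cost
      refine integral_congr_ae ?_
      filter_upwards [hd.dP] with z hz
      rw [hz]
      simp only [hβ]
      field_simp
    rw [e1, integral_const_mul]
    have e2 := (integral_fst_le hC0p.le hfst hβ2 (fun x => sq_nonneg _)).2
    have e3 : ∫ x, β x ^ 2 ∂m ≤ δ1 ε + IG := by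
      have e4 : ∫ x, β x ^ 2 ∂m ≤ ∫ x, (|β x ^ 2 - G x| + G x) ∂m := by
        refine integral_mono hβ2 (hdi.add hGi) fun x => ?_
        simp only []
        linarith [le_abs_self (β x ^ 2 - G x)]
      rw [integral_add hdi hGi] at e4
      linarith
    have e5 : ε ^ 2 * ∫ z, β z.1 ^ 2 ∂P' ≤ ε ^ 2 * (C0 * (δ1 ε + IG)) :=
      mul_le_mul_of_nonneg_left (e2.trans (mul_le_mul_of_nonneg_left e3 hC0p.le)) (sq_nonneg _)
    linarith
  -- (b3)
  have b3 : IP - √(C0 * IG2) * √(κ + C' * (C0 * (ε ^ 2 * (δ1 ε + IG)))) ≤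
      ∫ z, G z.1 * u0 z.2 ∂P' := by
    have e1 : ∫ z, G z.1 * u0 z.1 ∂P' = IP := by
      have k1 := hd.cplP.integral_fst (g := fun x => G x * u0 x)
        (hGm.mul hu0m).aestronglyMeasurable
      have k2 : ∫ z, G z.1 * u0 z.1 ∂P' = ∫ x, G x * u0 x ∂(dens m ρ0) := k1
      rw [k2, integral_dens hρ0m (fun x => (hρ0p x).le), hIP]
      refine integral_congr_ae (ae_of_all _ fun x => ?_)
      simp only []
      have k3 : ρ0 x * (G x * u0 x) = G x * (ρ0 x * u0 x) := by ring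
      rw [k3, huρ]
      simp only [hG]
      rw [he4]
      ring
    obtain ⟨i1, j1⟩ := integral_fst_le hC0p.le hfst hG2 (fun x => sq_nonneg _)
    have hu2 : Integrable (fun x => u0 x ^ 2) m := hu0L2.integrable_sq
    have i2 := (integral_fst_le hC0p.le hfst hu2 (fun x => sq_nonneg _)).1
    have i3 := (integral_snd_le hC1.le hsnd hu2 (fun x => sq_nonneg _)).1
    have l1 : MemLp (fun z : X × X => u0 z.1) 2 P' := memLp_two_of_sq huP1 i2
    have l2 : MemLp (fun z : X × X => u0 z.2) 2 P' := memLp_two_of_sq huP i3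
    have i4 : Integrable (fun z : X × X => (u0 z.1 - u0 z.2) ^ 2) P' := (l1.sub l2).integrable_sq
    have m1 : AEStronglyMeasurable (fun z : X × X => G z.1) P' :=
      (hGm.comp measurable_fst).aestronglyMeasurable
    have j2 := cauchy_schwarz m1 (g := fun z : X × X => u0 z.1 - u0 z.2) (huP1.sub huP) i1 i4
    have j3 : ∫ z, (u0 z.1 - u0 z.2) ^ 2 ∂P' ≤ κ + C' * (C0 * (ε ^ 2 * (δ1 ε + IG))) :=
      (hnd P' hfst' hsnd').trans (by
        have := mul_le_mul_of_nonneg_left hcost hC'0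
        linarith)
    have j4 : √(∫ z, G z.1 ^ 2 ∂P') * √(∫ z, (u0 z.1 - u0 z.2) ^ 2 ∂P') ≤
        √(C0 * IG2) * √(κ + C' * (C0 * (ε ^ 2 * (δ1 ε + IG)))) :=
      mul_le_mul (Real.sqrt_le_sqrt j1) (Real.sqrt_le_sqrt j3) (Real.sqrt_nonneg _)
        (Real.sqrt_nonneg _)
    have k4 : ∫ z, G z.1 * (u0 z.1 - u0 z.2) ∂P' =
        ∫ z, G z.1 * u0 z.1 ∂P' - ∫ z, G z.1 * u0 z.2 ∂P' := by
      rw [← integral_sub hGuP1 hGuP]
      refine integral_congr_ae (ae_of_all _ fun z => ?_)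
      simp only []
      ring
    rw [k4, e1] at j2
    linarith [(abs_le.mp j2).2]
  -- (a)
  have a1 : IP - 3 / 2 * δ1 ε ≤ ∫ x, β x ^ 2 * fP N c (f x) ∂m := by
    have bP : ∀ x, |fP N c (f x)| ≤ 3 / 2 := fun x => by
      rw [abs_of_nonneg (by linarith [(hPb x).1])]; exact (hPb x).2
    have i1 : Integrable (fun x => β x ^ 2 * fP N c (f x)) m := by
      refine hβ2.mul_bdd (c := 3 / 2) hPm.aestronglyMeasurable (ae_of_all _ fun x => ?_)
      rw [Real.norm_eq_abs]; exact bP x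
    have i2 : Integrable (fun x => G x * fP N c (f x)) m := by
      refine hGi.mul_bdd (c := 3 / 2) hPm.aestronglyMeasurable (ae_of_all _ fun x => ?_)
      rw [Real.norm_eq_abs]; exact bP x
    have e1 : IP = ∫ x, G x * fP N c (f x) ∂m := by
      rw [hIP]
      refine integral_congr_ae (ae_of_all _ fun x => ?_)
      simp only [hG]
      rw [he4]
      ring
    have e2 : ∫ x, (G x * fP N c (f x) - β x ^ 2 * fP N c (f x)) ∂m ≤
        ∫ x, 3 / 2 * |β x ^ 2 - G x| ∂m := by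
      refine integral_mono (i2.sub i1) (hdi.const_mul _) fun x => ?_
      simp only []
      have k1 : G x * fP N c (f x) - β x ^ 2 * fP N c (f x) =
        (G x - β x ^ 2) * fP N c (f x) := by ring
      rw [k1, mul_comm (3 / 2 : ℝ)]
      have k2 : G x - β x ^ 2 ≤ |β x ^ 2 - G x| := by
        rw [abs_sub_comm]; exact le_abs_self _
      exact mul_le_mul k2 (hPb x).2 (by linarith [(hPb x).1]) (abs_nonneg _)
    rw [integral_sub i2 i1, integral_const_mul, ← e1] at e2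
    linarith
  -- final
  have s1 : ∫ z, α z.1 ^ 2 * ρ1 z.2 ^ (-(1 / N)) ∂P' = ε ^ 2 * ∫ z, β z.1 ^ 2 * r z.2 ∂P' := by
    rw [← integral_const_mul]
    refine integral_congr_ae (ae_of_all _ fun z => ?_)
    simp only [hβ, hr]
    field_simp
  have s2 : ∫ x, α x ^ 2 * fP N c (f x) ∂m = ε ^ 2 * ∫ x, β x ^ 2 * fP N c (f x) ∂m := by
    rw [← integral_const_mul]
    refine integral_congr_ae (ae_of_all _ fun z => ?_)
    simp only [hβ]
    field_simp
  have s3 : ((1 - 1 / N) / 6 * ∫ z, α z.1 ^ 2 * ρ1 z.2 ^ (-(1 / N)) ∂P' +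
        (1 - 1 / N) / 3 * ∫ x, α x ^ 2 * fP N c (f x) ∂m) / ε ^ 2 =
      (1 - 1 / N) / 6 * ∫ z, β z.1 ^ 2 * r z.2 ∂P' +
        (1 - 1 / N) / 3 * ∫ x, β x ^ 2 * fP N c (f x) ∂m := by
    rw [s1, s2]
    field_simp
  rw [s3]
  have t1 : (1 - 1 / N) / 6 * (IP - (c1 ^ (-(1 / N)) * (C0 * δ1 ε) +
      √(C0 * IG2) * √(C1 * (L * (C * ε))) +
      √(C0 * IG2) * √(κ + C' * (C0 * (ε ^ 2 * (δ1 ε + IG)))))) ≤
      (1 - 1 / N) / 6 * ∫ z, β z.1 ^ 2 * r z.2 ∂P' :=
    mul_le_mul_of_nonneg_left (by linarith) (by positivity)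
  have t2 : (1 - 1 / N) / 3 * (IP - 3 / 2 * δ1 ε) ≤
      (1 - 1 / N) / 3 * ∫ x, β x ^ 2 * fP N c (f x) ∂m :=
    mul_le_mul_of_nonneg_left a1 (by positivity)
  have t3 : err ε = (1 - 1 / N) / 3 * (3 / 2 * δ1 ε) + (1 - 1 / N) / 6 * (c1 ^ (-(1 / N)) *
      (C0 * δ1 ε) + √(C0 * IG2) * √(C1 * (L * (C * ε))) +
      √(C0 * IG2) * √(κ + C' * (C0 * (ε ^ 2 * (δ1 ε + IG))))) := rfl
  have t4 : (1 - 1 / N) / 2 * IP - err ε = (1 - 1 / N) / 6 * (IP - (c1 ^ (-(1 / N)) *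
      (C0 * δ1 ε) + √(C0 * IG2) * √(C1 * (L * (C * ε))) +
      √(C0 * IG2) * √(κ + C' * (C0 * (ε ^ 2 * (δ1 ε + IG)))))) +
      (1 - 1 / N) / 3 * (IP - 3 / 2 * δ1 ε) := by
    rw [t3]; ring
  linarith

end H13CD
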