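import Pool.Agent.Helper13.CD.FluxPlan
import Pool.Agent.Helper13.CD.Aux13
import Pool.Agent.Helper13.CD.Util

/-!
# Module O3b: step (7) of the flux limit; see the docstring of `FluxLim.lean`
-/

open MeasureTheory Set Filter Topology
open scoped ENNReal NNReal

namespace H13CD

theorem fw_point {X : Type*} [MetricSpace X] {φ : X → ℝ} {L : ℝ≥0} (hφ : LipschitzWith L φ)
    {r : ℝ} (hr : 0 < r) (x y : X) :
    φ y - φ x ≤ Sr r φ x * dist x y + L / r * dist x y ^ 2 := by
  rw [dist_comm x y]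
  by_cases h : dist y x < r
  · have h1 := (le_abs_self _).trans (abs_sub_le_Sr hφ h)
    have : 0 ≤ (L : ℝ) / r * dist y x ^ 2 := by positivity
    linarith
  · push Not at h
    have h1 : φ y - φ x ≤ L * dist y x :=
      (le_abs_self _).trans (by simpa [Real.dist_eq] using hφ.dist_le_mul y x)
    have h2 : L * dist y x ≤ L / r * dist y x ^ 2 := by
      rw [div_mul_eq_mul_div, le_div_iff₀ hr]
      have h4 : (L : ℝ) * dist y x * r ≤ L * dist y x * dist y x :=
        mul_le_mul_of_nonneg_left h (by positivity)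
      nlinarith [h4]
    have h3 := mul_nonneg (Sr_nonneg r φ x) (dist_nonneg (x := y) (y := x))
    linarith

variable {X : Type*} [MetricSpace X] [CompactSpace X] [MeasurableSpace X] [BorelSpace X]
  {m : Measure X} [IsProbabilityMeasure m]

theorem fw_est {N B c δ : ℝ} {f g0 : X → ℝ} (h : Extremal m N B f g0)
    (hp : FluxPar N B c δ) {c1 C1 : ℝ} {k : X → ℝ} {K : ℝ≥0} (hk : LipschitzWith K k)
    (hk0 : ∀ x, 0 ≤ k x) {Ck : ℝ} (hCk : ∀ x, k x ≤ Ck) {φ : X → ℝ} {L : ℝ≥0}
    (hφ : LipschitzWith L φ) (hφB : ∀ x, |φ x| ≤ B) {r : ℝ} (hr : 0 < r) {ε : ℝ} (hε : 0 < ε)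
    (hε' : ε * N * B ≤ Real.exp (-(δ * B / 2))) {π P' : Measure (X × X)} {α ρ1 : X → ℝ}
    (hD : FluxData m N c δ ε c1 C1 f g0 π P' α ρ1) {s : ℝ}
    (hs : ∫ x, (Real.exp (δ * f x / 4) * g0 x - Real.exp (-(δ * f x / 4)) * (α x / ε)) ^ 2 ∂m
      ≤ s) :
    (∫ z, k z.1 * (f z.2 - f z.1) ∂π) / ε ≤ ∫ x, k x * Sr r φ x * g0 x ∂m +
      Ck * L * Real.exp (δ * B / 2) * √s +
      L / r * ε * Ck * (2 * s + 2 * Real.exp (δ * B / 2) * ∫ x, g0 x ^ 2 ∂m) +
      (N * B * Ck + K * √(2 * s + 2 * Real.exp (δ * B / 2) * ∫ x, g0 x ^ 2 ∂m) *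
        √(2 * Real.exp (δ * B / 2))) * √(∫ x, (φ x - f x) ^ 2 ∂m) := by
  obtain ⟨x0⟩ : Nonempty X := nonempty_of_isProbabilityMeasure m
  have hN0 : 0 < N := one_pos.trans hp.hN
  have hB0 : 0 < B := hp.hB
  have hδ0 : 0 < δ := hp.hδ
  have hCk0 : 0 ≤ Ck := (hk0 x0).trans (hCk x0)
  set E := Real.exp (δ * B / 2) with hE
  have hE0 : 0 < E := Real.exp_pos _
  have hfm : Measurable f := h.lim.meas
  have hgm : Measurable g0 := h.lim.gmeas
  have hfb : ∀ x, |f x| ≤ B := h.lim.bound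
  have hαm : Measurable α := hD.αmeas
  have hα0 := hD.αnonneg
  obtain ⟨D, hDα⟩ := hD.αbdd
  have hkm : Measurable k := hk.continuous.measurable
  have hφm : Measurable φ := hφ.continuous.measurable
  have hSm : Measurable (Sr r φ) := measurable_Sr hφ r
  have hS0 : ∀ x, 0 ≤ Sr r φ x := fun x => Sr_nonneg _ _ _
  have hSL : ∀ x, Sr r φ x ≤ L := fun x => Sr_le hφ r x
  -- exponential bounds
  have hexp : ∀ x, ∀ q : ℝ, |q| ≤ 1 / 2 → Real.exp (δ * f x * q) ≤ E := by
    intro x q hq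
    rw [hE]
    apply Real.exp_le_exp.mpr
    have : |δ * f x * q| ≤ δ * B * (1 / 2) := by
      rw [abs_mul, abs_mul, abs_of_pos hδ0]
      exact mul_le_mul (mul_le_mul_of_nonneg_left (hfb x) hδ0.le) hq (abs_nonneg _) (by positivity)
    have := (le_abs_self _).trans this
    linarith
  have he2 : ∀ x, Real.exp (-(δ * f x / 2)) ≤ E := fun x => by
    have := hexp x (-(1 / 2)) (by rw [abs_neg, abs_of_pos] <;> norm_num)
    rwa [show δ * f x * (-(1 / 2)) = -(δ * f x / 2) by ring] at this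
  have he2' : ∀ x, Real.exp (δ * f x / 2) ≤ E := fun x => by
    have := hexp x (1 / 2) (by rw [abs_of_pos] <;> norm_num)
    rwa [show δ * f x * (1 / 2) = δ * f x / 2 by ring] at this
  have he4 : ∀ x, Real.exp (-(δ * f x / 4)) ≤ E := fun x => by
    have := hexp x (-(1 / 4)) (by rw [abs_neg, abs_of_pos] <;> norm_num)
    rwa [show δ * f x * (-(1 / 4)) = -(δ * f x / 4) by ring] at this
  -- densities
  set ν0 : X → ℝ := fun x => Real.exp (-(δ * f x / 2)) with hν0
  set ν1 : X → ℝ := fun x => fnu N δ ε (f x) with hν1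
  have hν0m : Measurable ν0 := by rw [hν0]; fun_prop
  have hν1m : Measurable ν1 := by rw [hν1]; unfold fnu; fun_prop
  have hν00 : ∀ x, 0 ≤ ν0 x := fun x => (Real.exp_pos _).le
  have hfn : ∀ x, |ε * N * f x| ≤ Real.exp (-(δ * B / 2)) := by
    intro x
    rw [abs_mul, abs_of_pos (mul_pos hε hN0)]
    exact (mul_le_mul_of_nonneg_left (hfb x) (mul_pos hε hN0).le).trans hε'
  have hEinv : Real.exp (-(δ * B / 2)) ≤ E := by
    rw [hE]; apply Real.exp_le_exp.mpr; nlinarith [mul_pos hδ0 hB0]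
  have hlow : ∀ x, Real.exp (-(δ * B / 2)) ≤ Real.exp (-(δ * f x / 2)) := by
    intro x
    apply Real.exp_le_exp.mpr
    have := mul_le_mul_of_nonneg_left (le_of_abs_le (hfb x)) hδ0.le
    linarith
  have hν10 : ∀ x, 0 ≤ ν1 x := by
    intro x
    have h1 := (abs_le.mp (hfn x)).1
    have h2 := hlow x
    simp only [hν1, fnu]
    linarith
  have hν1E : ∀ x, ν1 x ≤ 2 * E := by
    intro x
    have h1 := (abs_le.mp (hfn x)).2
    have h2 := he2 x
    simp only [hν1, fnu]
    linarith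
  have bddint : ∀ {u : X → ℝ}, Measurable u → (∃ C, ∀ x, |u x| ≤ C) → Integrable u m := by
    intro u hu ⟨C, hC⟩
    exact Integrable.of_bound hu.aestronglyMeasurable C (Eventually.of_forall hC)
  have hν0i : Integrable ν0 m := bddint hν0m ⟨E, fun x => by
    rw [abs_of_nonneg (hν00 x)]; exact he2 x⟩
  have : IsFiniteMeasure (dens m ν0) := isFiniteMeasure_dens hν0i
  have : IsFiniteMeasure π := hD.cplπ.isFiniteMeasure
  -- a and b
  set a : X → ℝ := fun x => Real.exp (-(δ * f x / 4)) * (α x / ε) with ha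
  set b : X → ℝ := fun x => Real.exp (δ * f x / 4) * g0 x with hb
  have ham : Measurable a := by rw [ha]; fun_prop
  have hbm : Measurable b := by rw [hb]; fun_prop
  have haD : ∀ x, |a x| ≤ E * (D / ε) := by
    intro x
    rw [ha]
    simp only
    rw [abs_mul, abs_of_pos (Real.exp_pos _), abs_of_nonneg (div_nonneg (hα0 x) hε.le)]
    exact mul_le_mul (he4 x) (div_le_div_of_nonneg_right (hDα x) hε.le)
      (div_nonneg (hα0 x) hε.le) hE0.le
  have haD2 : ∀ x, |a x ^ 2| ≤ (E * (D / ε)) ^ 2 := fun x => by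
    rw [abs_pow]; exact pow_le_pow_left₀ (abs_nonneg _) (haD x) 2
  have ha2i : Integrable (fun x => a x ^ 2) m := bddint (ham.pow_const 2) ⟨_, haD2⟩
  have hgL := h.lim.gL2
  have hb2 : ∀ x, b x ^ 2 = Real.exp (δ * f x / 2) * g0 x ^ 2 := by
    intro x
    rw [hb]
    simp only
    rw [mul_pow, ← Real.exp_nat_mul]
    congr 2
    push_cast; ring
  have hb2i : Integrable (fun x => b x ^ 2) m := by
    have : Integrable (fun x => g0 x ^ 2 * Real.exp (δ * f x / 2)) m :=
      hgL.mul_bdd (c := E) (by fun_prop) (Eventually.of_forall fun x => by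
        rw [Real.norm_eq_abs, abs_of_pos (Real.exp_pos _)]; exact he2' x)
    refine this.congr (Eventually.of_forall fun x => ?_)
    simp only
    rw [hb2 x]; ring
  have hb2E : ∫ x, b x ^ 2 ∂m ≤ E * ∫ x, g0 x ^ 2 ∂m := by
    rw [← integral_const_mul]
    refine integral_mono hb2i (hgL.const_mul _) fun x => ?_
    simp only
    rw [hb2 x]
    exact mul_le_mul_of_nonneg_right (he2' x) (sq_nonneg _)
  have haL : MemLp a 2 m := memLp_two_of_sq ham.aestronglyMeasurable ha2i
  have hbL : MemLp b 2 m := memLp_two_of_sq hbm.aestronglyMeasurable hb2i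
  have hbaL : MemLp (fun x => b x - a x) 2 m := hbL.sub haL
  have hba2i : Integrable (fun x => (b x - a x) ^ 2) m := hbaL.integrable_sq
  have hs' : ∫ x, (b x - a x) ^ 2 ∂m ≤ s := hs
  have hs0 : 0 ≤ s := (integral_nonneg fun x => sq_nonneg _).trans hs'
  have hba1i : Integrable (fun x => b x - a x) m := hbaL.integrable one_le_two
  have hba1 : ∫ x, |b x - a x| ∂m ≤ √s :=
    (integral_abs_le_sqrt (hbm.sub ham).aestronglyMeasurable hba2i).trans (Real.sqrt_le_sqrt hs')
  set A := 2 * s + 2 * E * ∫ x, g0 x ^ 2 ∂m with hA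
  have haA : ∫ x, a x ^ 2 ∂m ≤ A := by
    have h1 : ∫ x, a x ^ 2 ∂m ≤ ∫ x, (2 * (b x - a x) ^ 2 + 2 * b x ^ 2) ∂m := by
      refine integral_mono ha2i ((hba2i.const_mul 2).add (hb2i.const_mul 2)) fun x => ?_
      simp only
      nlinarith [sq_nonneg (a x - 2 * b x)]
    have h2 : ∫ x, (2 * (b x - a x) ^ 2 + 2 * b x ^ 2) ∂m =
        2 * ∫ x, (b x - a x) ^ 2 ∂m + 2 * ∫ x, b x ^ 2 ∂m := by
      rw [integral_add (hba2i.const_mul 2) (hb2i.const_mul 2), integral_const_mul,
        integral_const_mul]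
    rw [hA]
    linarith
  have hA0 : 0 ≤ A := (integral_nonneg fun x => sq_nonneg _).trans haA
  have hasq : ∀ x, a x ^ 2 = ν0 x * α x ^ 2 / ε ^ 2 := by
    intro x
    rw [ha, hν0]
    simp only
    rw [mul_pow, ← Real.exp_nat_mul, div_pow]
    rw [show ((2 : ℕ) : ℝ) * -(δ * f x / 4) = -(δ * f x / 2) by push_cast; ring]
    ring
  -- term 1
  have int1 : Integrable (fun z : X × X => k z.1 * (φ z.2 - φ z.1)) π := by
    refine Integrable.of_bound (C := Ck * (2 * B)) ((hkm.comp measurable_fst).mul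
      ((hφm.comp measurable_snd).sub (hφm.comp measurable_fst))).aestronglyMeasurable
      (Eventually.of_forall fun z => ?_)
    rw [norm_mul]
    refine mul_le_mul ?_ ?_ (norm_nonneg _) hCk0
    · rw [Real.norm_eq_abs, abs_of_nonneg (hk0 _)]; exact hCk _
    · rw [Real.norm_eq_abs]
      calc |φ z.2 - φ z.1| ≤ |φ z.2| + |φ z.1| := abs_sub _ _
        _ ≤ 2 * B := by linarith [hφB z.1, hφB z.2]
  set G : X → ℝ := fun x => k x * (Sr r φ x * α x + L / r * α x ^ 2) with hG
  have hGm : Measurable G := by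
    rw [hG]
    exact hkm.mul ((hSm.mul hαm).add (measurable_const.mul (hαm.pow_const 2)))
  have hD0 : 0 ≤ D := (hα0 x0).trans (hDα x0)
  have hGb : ∀ x, |G x| ≤ Ck * (L * D + L / r * D ^ 2) := by
    intro x
    rw [hG]
    simp only
    have e1 : 0 ≤ Sr r φ x * α x + L / r * α x ^ 2 := by
      have := mul_nonneg (hS0 x) (hα0 x)
      positivity
    rw [abs_of_nonneg (mul_nonneg (hk0 x) e1)]
    refine mul_le_mul (hCk x) (add_le_add ?_ ?_) e1 hCk0
    · exact mul_le_mul (hSL x) (hDα x) (hα0 x) L.2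
    · exact mul_le_mul_of_nonneg_left (pow_le_pow_left₀ (hα0 x) (hDα x) 2) (by positivity)
  have int2 : Integrable (fun z : X × X => G z.1) π :=
    Integrable.of_bound (hGm.comp measurable_fst).aestronglyMeasurable _
      (Eventually.of_forall fun z => hGb z.1)
  have t1a : ∫ z, k z.1 * (φ z.2 - φ z.1) ∂π ≤ ∫ z, G z.1 ∂π := by
    refine integral_mono_ae int1 int2 ?_
    filter_upwards [hD.dπ] with z hz
    simp only [hG]
    refine mul_le_mul_of_nonneg_left ?_ (hk0 _)
    have := fw_point hφ hr z.1 z.2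
    rwa [hz] at this
  have t1b : ∫ z, G z.1 ∂π = ∫ x, ν0 x * G x ∂m := by
    rw [hD.cplπ.integral_fst hGm.aestronglyMeasurable, integral_dens hν0m hν00]
  have iA : Integrable (fun x => k x * Sr r φ x * g0 x) m := by
    have hg1 : Integrable g0 m :=
      (memLp_two_of_sq hgm.aestronglyMeasurable hgL).integrable one_le_two
    have : Integrable (fun x => g0 x * (k x * Sr r φ x)) m :=
      hg1.mul_bdd (c := Ck * L) (hkm.mul hSm).aestronglyMeasurable
        (Eventually.of_forall fun x => by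
          rw [Real.norm_eq_abs, abs_of_nonneg (mul_nonneg (hk0 x) (hS0 x))]
          exact mul_le_mul (hCk x) (hSL x) (hS0 x) hCk0)
    refine this.congr (Eventually.of_forall fun x => ?_)
    simp only; ring
  have t1c : (∫ x, ν0 x * G x ∂m) / ε ≤ ∫ x, k x * Sr r φ x * g0 x ∂m +
      Ck * L * E * ∫ x, |b x - a x| ∂m + L / r * ε * Ck * ∫ x, a x ^ 2 ∂m := by
    have k1 : Integrable (fun x => Ck * L * E * |b x - a x|) m := hba1i.abs.const_mul _
    have k2 : Integrable (fun x => k x * Sr r φ x * g0 x + Ck * L * E * |b x - a x|) m := iA.add k1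
    have k3 : Integrable (fun x => L / r * ε * Ck * a x ^ 2) m := ha2i.const_mul _
    rw [← integral_const_mul, ← integral_const_mul, ← integral_add iA k1,
      ← integral_add k2 k3, ← integral_div]
    refine integral_mono_of_nonneg ?_ ?_ ?_
    · refine Eventually.of_forall fun x => ?_
      have e1 : 0 ≤ Sr r φ x * α x + L / r * α x ^ 2 := by
        have := mul_nonneg (hS0 x) (hα0 x)
        positivity
      exact div_nonneg (mul_nonneg (hν00 x) (mul_nonneg (hk0 x) e1)) hε.le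
    · exact k2.add k3
    · refine Eventually.of_forall fun x => ?_
      simp only
      have e0 : Real.exp (-(δ * f x / 4)) * b x = g0 x := by
        rw [hb]
        simp only
        rw [← mul_assoc, ← Real.exp_add]
        simp
      have e00 : Real.exp (-(δ * f x / 4)) * Real.exp (-(δ * f x / 4)) = ν0 x := by
        rw [hν0]
        simp only
        rw [← Real.exp_add]
        congr 1; ring
      have e1 : ν0 x * G x / ε = k x * Sr r φ x * (Real.exp (-(δ * f x / 4)) * a x) +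
          L / r * ε * k x * a x ^ 2 := by
        rw [hasq x, hG, ha, ← e00]
        simp only
        field_simp
      have e2 : Real.exp (-(δ * f x / 4)) * a x = g0 x +
          Real.exp (-(δ * f x / 4)) * (a x - b x) := by
        rw [mul_sub, e0]; ring
      have e3 : k x * Sr r φ x * (Real.exp (-(δ * f x / 4)) * (a x - b x)) ≤
          Ck * L * E * |b x - a x| := by
        have e4 : Real.exp (-(δ * f x / 4)) * (a x - b x) ≤ E * |b x - a x| := by
          rw [abs_sub_comm]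
          exact (mul_le_mul_of_nonneg_left (le_abs_self _) (Real.exp_pos _).le).trans
            (mul_le_mul_of_nonneg_right (he4 x) (abs_nonneg _))
        have e5 : k x * Sr r φ x ≤ Ck * L := mul_le_mul (hCk x) (hSL x) (hS0 x) hCk0
        calc k x * Sr r φ x * (Real.exp (-(δ * f x / 4)) * (a x - b x))
            ≤ k x * Sr r φ x * (E * |b x - a x|) :=
              mul_le_mul_of_nonneg_left e4 (mul_nonneg (hk0 x) (hS0 x))
          _ ≤ Ck * L * (E * |b x - a x|) := mul_le_mul_of_nonneg_right e5 (by positivity)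
          _ = _ := by ring
      have e6 : L / r * ε * k x * a x ^ 2 ≤ L / r * ε * Ck * a x ^ 2 := by
        refine mul_le_mul_of_nonneg_right ?_ (sq_nonneg _)
        exact mul_le_mul_of_nonneg_left (hCk x) (by positivity)
      rw [e1, e2, mul_add]
      linarith
  -- term 2
  set w : X → ℝ := fun x => φ x - f x with hw
  have hwm : Measurable w := hφm.sub hfm
  have hwb : ∀ x, |w x| ≤ 2 * B := fun x => by
    rw [hw]
    calc |φ x - f x| ≤ |φ x| + |f x| := abs_sub _ _
      _ ≤ 2 * B := by linarith [hφB x, hfb x]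
  have hw2i : Integrable (fun x => w x ^ 2) m := bddint (hwm.pow_const 2) ⟨(2 * B) ^ 2, fun x => by
    rw [abs_pow]; exact pow_le_pow_left₀ (abs_nonneg _) (hwb x) 2⟩
  have hwi : Integrable w m := bddint hwm ⟨_, hwb⟩
  have hpb : ∀ {u : X × X → ℝ}, Measurable u → (∃ C, ∀ z, |u z| ≤ C) → Integrable u π := by
    intro u hu ⟨C, hC⟩
    exact Integrable.of_bound hu.aestronglyMeasurable C (Eventually.of_forall hC)
  have hkb : ∀ x, |k x| ≤ Ck := fun x => by rw [abs_of_nonneg (hk0 x)]; exact hCk x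
  have j1 : Integrable (fun z : X × X => k z.2 * w z.2) π := by
    refine hpb ((hkm.mul hwm).comp measurable_snd) ⟨Ck * (2 * B), fun z => ?_⟩
    rw [abs_mul]
    exact mul_le_mul (hkb _) (hwb _) (abs_nonneg _) hCk0
  have j2 : Integrable (fun z : X × X => k z.1 * w z.1) π := by
    refine hpb ((hkm.mul hwm).comp measurable_fst) ⟨Ck * (2 * B), fun z => ?_⟩
    rw [abs_mul]
    exact mul_le_mul (hkb _) (hwb _) (abs_nonneg _) hCk0
  have j3 : Integrable (fun z : X × X => (k z.2 - k z.1) * w z.2) π := by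
    refine hpb (((hkm.comp measurable_snd).sub (hkm.comp measurable_fst)).mul
      (hwm.comp measurable_snd)) ⟨(2 * Ck) * (2 * B), fun z => ?_⟩
    rw [abs_mul]
    refine mul_le_mul ?_ (hwb _) (abs_nonneg _) (by positivity)
    calc |k z.2 - k z.1| ≤ |k z.2| + |k z.1| := abs_sub _ _
      _ ≤ 2 * Ck := by linarith [hkb z.1, hkb z.2]
  have hsplit : ∫ z, k z.1 * (f z.2 - f z.1) ∂π = ∫ z, k z.1 * (φ z.2 - φ z.1) ∂π -
      (∫ z, k z.2 * w z.2 ∂π - ∫ z, k z.1 * w z.1 ∂π - ∫ z, (k z.2 - k z.1) * w z.2 ∂π) := by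
    have j4 : Integrable (fun z : X × X => k z.2 * w z.2 - k z.1 * w z.1) π := j1.sub j2
    have j5 : Integrable (fun z : X × X => k z.2 * w z.2 - k z.1 * w z.1 -
        (k z.2 - k z.1) * w z.2) π := j4.sub j3
    rw [← integral_sub j1 j2, ← integral_sub j4 j3, ← integral_sub int1 j5]
    congr 1
    funext z
    simp only [hw]
    ring
  have hkwm : Measurable fun x => k x * w x := hkm.mul hwm
  have s1 : ∫ z, k z.2 * w z.2 ∂π - ∫ z, k z.1 * w z.1 ∂π = ε * N * ∫ x, f x * (k x * w x) ∂m := by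
    have q1 : ∫ z, k z.2 * w z.2 ∂π = ∫ x, ν1 x * (k x * w x) ∂m := by
      rw [hD.cplπ.integral_snd (g := fun x => k x * w x) hkwm.aestronglyMeasurable,
        integral_dens hν1m hν10]
    have q2 : ∫ z, k z.1 * w z.1 ∂π = ∫ x, ν0 x * (k x * w x) ∂m := by
      rw [hD.cplπ.integral_fst (g := fun x => k x * w x) hkwm.aestronglyMeasurable,
        integral_dens hν0m hν00]
    have bkw : ∀ x, |k x * w x| ≤ Ck * (2 * B) := fun x => by
      rw [abs_mul]
      exact mul_le_mul (hkb _) (hwb _) (abs_nonneg _) hCk0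
    have i1 : Integrable (fun x => ν1 x * (k x * w x)) m :=
      bddint (hν1m.mul hkwm) ⟨2 * E * (Ck * (2 * B)), fun x => by
        rw [abs_mul, abs_of_nonneg (hν10 x)]
        exact mul_le_mul (hν1E x) (bkw x) (abs_nonneg _) (by positivity)⟩
    have i0 : Integrable (fun x => ν0 x * (k x * w x)) m :=
      bddint (hν0m.mul hkwm) ⟨E * (Ck * (2 * B)), fun x => by
        rw [abs_mul, abs_of_nonneg (hν00 x)]
        exact mul_le_mul (he2 x) (bkw x) (abs_nonneg _) (by positivity)⟩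
    rw [q1, q2, ← integral_sub i1 i0, ← integral_const_mul]
    congr 1
    funext x
    simp only [hν1, hν0, fnu]
    ring
  have s2 : |∫ x, f x * (k x * w x) ∂m| ≤ B * Ck * √(∫ x, w x ^ 2 ∂m) := by
    refine (abs_integral_le_integral_abs).trans ?_
    calc ∫ x, |f x * (k x * w x)| ∂m ≤ ∫ x, B * Ck * |w x| ∂m := by
          refine integral_mono_of_nonneg (Eventually.of_forall fun x => abs_nonneg _)
            (hwi.abs.const_mul _) (Eventually.of_forall fun x => ?_)
          simp only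
          rw [abs_mul, abs_mul, ← mul_assoc]
          refine mul_le_mul_of_nonneg_right ?_ (abs_nonneg _)
          exact mul_le_mul (hfb x) (hkb x) (abs_nonneg _) hB0.le
      _ = B * Ck * ∫ x, |w x| ∂m := integral_const_mul _ _
      _ ≤ B * Ck * √(∫ x, w x ^ 2 ∂m) :=
          mul_le_mul_of_nonneg_left (integral_abs_le_sqrt hwm.aestronglyMeasurable hw2i)
            (by positivity)
  have s3 : ∫ z, (k z.2 - k z.1) * w z.2 ∂π ≤
      K * (ε * √A * (√(2 * E) * √(∫ x, w x ^ 2 ∂m))) := by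
    have a1 : Integrable (fun z : X × X => α z.1 ^ 2) π :=
      hpb ((hαm.comp measurable_fst).pow_const 2) ⟨D ^ 2, fun z => by
        rw [abs_pow, abs_of_nonneg (hα0 _)]; exact pow_le_pow_left₀ (hα0 _) (hDα _) 2⟩
    have a2 : Integrable (fun z : X × X => w z.2 ^ 2) π :=
      hpb ((hwm.comp measurable_snd).pow_const 2) ⟨(2 * B) ^ 2, fun z => by
        rw [abs_pow]; exact pow_le_pow_left₀ (abs_nonneg _) (hwb _) 2⟩
    have a3 : Integrable (fun z : X × X => |α z.1 * w z.2|) π :=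
      (integrable_mul_of_sq (hαm.comp measurable_fst).aestronglyMeasurable
        (hwm.comp measurable_snd).aestronglyMeasurable a1 a2).abs
    have b1 : ∫ z, (k z.2 - k z.1) * w z.2 ∂π ≤ ∫ z, K * |α z.1 * w z.2| ∂π := by
      refine integral_mono_ae j3 (a3.const_mul _) ?_
      filter_upwards [hD.dπ] with z hz
      refine (le_abs_self _).trans ?_
      rw [abs_mul, abs_mul, abs_of_nonneg (hα0 _), ← mul_assoc]
      refine mul_le_mul_of_nonneg_right ?_ (abs_nonneg _)
      rw [← hz]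
      have := hk.dist_le_mul z.2 z.1
      rwa [Real.dist_eq, dist_comm] at this
    have b2 := cauchy_schwarz_abs (μ := π) (hαm.comp measurable_fst).aestronglyMeasurable
      (hwm.comp measurable_snd).aestronglyMeasurable a1 a2
    have b3 : ∫ z, α z.1 ^ 2 ∂π ≤ ε ^ 2 * A := by
      rw [hD.cplπ.integral_fst (g := fun x => α x ^ 2) (hαm.pow_const 2).aestronglyMeasurable,
        integral_dens hν0m hν00]
      calc ∫ x, ν0 x * α x ^ 2 ∂m = ε ^ 2 * ∫ x, a x ^ 2 ∂m := by
            rw [← integral_const_mul]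
            congr 1
            funext x
            rw [hasq x]
            field_simp
        _ ≤ _ := mul_le_mul_of_nonneg_left haA (sq_nonneg _)
    have b4 : ∫ z, w z.2 ^ 2 ∂π ≤ 2 * E * ∫ x, w x ^ 2 ∂m := by
      rw [hD.cplπ.integral_snd (g := fun x => w x ^ 2) (hwm.pow_const 2).aestronglyMeasurable,
        integral_dens hν1m hν10, ← integral_const_mul]
      refine integral_mono_of_nonneg (Eventually.of_forall fun x =>
        mul_nonneg (hν10 x) (sq_nonneg _)) (hw2i.const_mul _) (Eventually.of_forall fun x => ?_)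
      exact mul_le_mul_of_nonneg_right (hν1E x) (sq_nonneg _)
    have b5 : √(∫ z, α z.1 ^ 2 ∂π) ≤ ε * √A := by
      refine (Real.sqrt_le_sqrt b3).trans (le_of_eq ?_)
      rw [Real.sqrt_mul (sq_nonneg _), Real.sqrt_sq hε.le]
    have b6 : √(∫ z, w z.2 ^ 2 ∂π) ≤ √(2 * E) * √(∫ x, w x ^ 2 ∂m) := by
      refine (Real.sqrt_le_sqrt b4).trans (le_of_eq ?_)
      rw [Real.sqrt_mul (by positivity)]
    refine b1.trans ?_
    rw [integral_const_mul]
    refine mul_le_mul_of_nonneg_left (b2.trans ?_) K.2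
    exact mul_le_mul b5 b6 (Real.sqrt_nonneg _) (by positivity)
  -- conclusion
  have hr1 : 0 ≤ (L : ℝ) / r := by positivity
  have T1 : (∫ z, k z.1 * (φ z.2 - φ z.1) ∂π) / ε ≤ ∫ x, k x * Sr r φ x * g0 x ∂m +
      Ck * L * E * √s + L / r * ε * Ck * A := by
    have u1 : (∫ z, k z.1 * (φ z.2 - φ z.1) ∂π) / ε ≤ (∫ x, ν0 x * G x ∂m) / ε :=
      div_le_div_of_nonneg_right (t1a.trans t1b.le) hε.le
    have u2 : Ck * L * E * ∫ x, |b x - a x| ∂m ≤ Ck * L * E * √s :=
      mul_le_mul_of_nonneg_left hba1 (by positivity)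
    have u3 : L / r * ε * Ck * ∫ x, a x ^ 2 ∂m ≤ L / r * ε * Ck * A :=
      mul_le_mul_of_nonneg_left haA (by positivity)
    linarith
  have T2 : -(∫ z, k z.2 * w z.2 ∂π - ∫ z, k z.1 * w z.1 ∂π -
      ∫ z, (k z.2 - k z.1) * w z.2 ∂π) ≤
      ε * ((N * B * Ck + K * √A * √(2 * E)) * √(∫ x, w x ^ 2 ∂m)) := by
    rw [s1]
    have u1 : -(ε * N * ∫ x, f x * (k x * w x) ∂m) ≤
        ε * N * (B * Ck * √(∫ x, w x ^ 2 ∂m)) := by
      rw [← mul_neg]
      exact mul_le_mul_of_nonneg_left ((neg_le_abs _).trans s2) (by positivity)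
    calc -(ε * N * ∫ x, f x * (k x * w x) ∂m - ∫ z, (k z.2 - k z.1) * w z.2 ∂π)
        = -(ε * N * ∫ x, f x * (k x * w x) ∂m) + ∫ z, (k z.2 - k z.1) * w z.2 ∂π := by ring
      _ ≤ ε * N * (B * Ck * √(∫ x, w x ^ 2 ∂m)) +
          K * (ε * √A * (√(2 * E) * √(∫ x, w x ^ 2 ∂m))) := add_le_add u1 s3
      _ = _ := by ring
  rw [hsplit, sub_div, sub_eq_add_neg, ← neg_div]
  refine add_le_add T1 ?_
  rw [div_le_iff₀ hε]
  calc _ ≤ _ := T2
    _ = _ := by ring

/-- dominated convergence for the slopes at scale `r` -/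
theorem fw_slope {B : ℝ} {f g0 : X → ℝ} (h : Lim m B f g0) {k : X → ℝ} {K : ℝ≥0}
    (hk : LipschitzWith K k) (hk0 : ∀ x, 0 ≤ k x) {Ck : ℝ} (hCk : ∀ x, k x ≤ Ck) {φ : X → ℝ}
    {L : ℝ≥0} (hφ : LipschitzWith L φ) {η : ℝ} (hη : 0 < η) :
    ∃ r > 0, ∫ x, k x * Sr r φ x * g0 x ∂m < ∫ x, k x * lip φ x * g0 x ∂m + η := by
  have hkm : Measurable k := hk.continuous.measurable
  have hg1 : Integrable g0 m :=
    (memLp_two_of_sq h.gmeas.aestronglyMeasurable h.gL2).integrable one_le_two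
  have ht : Tendsto (fun n : ℕ => ∫ x, k x * Sr (1 / ((n : ℝ) + 1)) φ x * g0 x ∂m) atTop
      (𝓝 (∫ x, k x * lip φ x * g0 x ∂m)) := by
    refine tendsto_integral_of_dominated_convergence (fun x => Ck * L * g0 x) (fun n => ?_)
      (hg1.const_mul _) (fun n => ?_) ?_
    · exact ((hkm.mul (measurable_Sr hφ _)).mul h.gmeas).aestronglyMeasurable
    · refine Eventually.of_forall fun x => ?_
      rw [Real.norm_eq_abs, abs_of_nonneg (mul_nonneg (mul_nonneg (hk0 x) (Sr_nonneg _ _ _))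
        (h.gnonneg x))]
      exact mul_le_mul_of_nonneg_right (mul_le_mul (hCk x) (Sr_le hφ _ x) (Sr_nonneg _ _ _)
        ((hk0 x).trans (hCk x))) (h.gnonneg x)
    · refine Eventually.of_forall fun x => ?_
      exact ((tendsto_Sr hφ (fun n => by positivity) tendsto_one_div_add_atTop_nhds_zero_nat
        x).const_mul _).mul_const _
  have h1 := ht.eventually_lt_const (lt_add_of_pos_right (∫ x, k x * lip φ x * g0 x ∂m) hη)
  obtain ⟨n, hn⟩ := h1.exists
  exact ⟨1 / ((n : ℝ) + 1), by positivity, hn⟩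

/-- the limsup bound -/
theorem fw_upper {N B c δ : ℝ} {f g0 : X → ℝ} (h : Extremal m N B f g0)
    (hp : FluxPar N B c δ) {c1 C1 : ℝ} {C : ℝ} (hC : 0 < C)
    {k : X → ℝ} {K : ℝ≥0} (hk : LipschitzWith K k) (hk0 : ∀ x, 0 ≤ k x) {η : ℝ} (hη : 0 < η) :
    ∃ ε0 > 0, ∀ ε ∈ Ioo (0 : ℝ) ε0, ∀ (π P' : Measure (X × X)) (α ρ1 : X → ℝ),
      FluxData m N c δ ε c1 C1 f g0 π P' α ρ1 →
      ∫ x, (Real.exp (δ * f x / 4) * g0 x - Real.exp (-(δ * f x / 4)) * (α x / ε)) ^ 2 ∂m
        ≤ C * ε →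
      (∫ z, k z.1 * (f z.2 - f z.1) ∂π) / ε ≤ ∫ x, k x * g0 x ^ 2 ∂m + η := by
  obtain ⟨x0⟩ : Nonempty X := nonempty_of_isProbabilityMeasure m
  have hN0 : 0 < N := one_pos.trans hp.hN
  have hB0 : 0 < B := hp.hB
  have hδ0 : 0 < δ := hp.hδ
  obtain ⟨Ck, hCk'⟩ := isCompact_univ.exists_bound_of_continuousOn (hk.continuous.continuousOn)
  have hCk : ∀ x, k x ≤ Ck := fun x => (le_abs_self _).trans (hCk' x (mem_univ _))
  have hCk0 : 0 ≤ Ck := (hk0 x0).trans (hCk x0)
  have hkm : Measurable k := hk.continuous.measurable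
  have hgm := h.lim.gmeas
  have hgL := h.lim.gL2
  have hgM : MemLp g0 2 m := memLp_two_of_sq hgm.aestronglyMeasurable hgL
  obtain ⟨fn, hfnL, hfnB, hfn1, hfn2⟩ := h.lim.approx
  set E := Real.exp (δ * B / 2) with hE
  set A0 := 2 * C + 2 * E * ∫ x, g0 x ^ 2 ∂m with hA0
  have hG0 : 0 ≤ ∫ x, g0 x ^ 2 ∂m := integral_nonneg fun x => sq_nonneg _
  have hE0 : 0 < E := Real.exp_pos _
  -- choose n
  have t1 : Tendsto (fun n => (N * B * Ck + K * √A0 * √(2 * E)) *
      √(∫ x, (fn n x - f x) ^ 2 ∂m)) atTop (𝓝 0) := by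
    simpa using hfn1.sqrt.const_mul (N * B * Ck + K * √A0 * √(2 * E))
  have t2 : Tendsto (fun n => Ck * (√(∫ x, (lip (fn n) x - g0 x) ^ 2 ∂m) *
      √(∫ x, g0 x ^ 2 ∂m))) atTop (𝓝 0) := by
    simpa using (hfn2.sqrt.mul_const (√(∫ x, g0 x ^ 2 ∂m))).const_mul Ck
  have q : (0 : ℝ) < η / 4 := by positivity
  obtain ⟨n, hn1, hn2⟩ := ((t1.eventually_lt_const q).and (t2.eventually_lt_const q)).exists
  obtain ⟨L, hL⟩ := hfnL n
  obtain ⟨r, hr, hr'⟩ := fw_slope h.lim hk hk0 hCk hL q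
  -- comparison with `g0 ^ 2`
  have hlm : Measurable (lip (fn n)) := measurable_lip hL
  have hlM : MemLp (lip (fn n)) 2 m := by
    refine MemLp.of_bound hlm.aestronglyMeasurable L (Eventually.of_forall fun x => ?_)
    rw [Real.norm_eq_abs, abs_of_nonneg (lip_nonneg _ _)]
    exact lip_le_const hL x
  have hdM : MemLp (fun x => lip (fn n) x - g0 x) 2 m := hlM.sub hgM
  have c1' : ∫ x, k x * lip (fn n) x * g0 x ∂m ≤ ∫ x, k x * g0 x ^ 2 ∂m + η / 4 := by
    have i1 : Integrable (fun x => k x * lip (fn n) x * g0 x) m := by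
      have : Integrable (fun x => lip (fn n) x * g0 x * k x) m :=
        (hlM.integrable_mul hgM).mul_bdd (c := Ck) hkm.aestronglyMeasurable
          (Eventually.of_forall fun x => hCk' x (mem_univ _))
      refine this.congr (Eventually.of_forall fun x => ?_)
      simp only; ring
    have i2 : Integrable (fun x => k x * g0 x ^ 2) m := by
      have : Integrable (fun x => g0 x ^ 2 * k x) m :=
        hgL.mul_bdd (c := Ck) hkm.aestronglyMeasurable
          (Eventually.of_forall fun x => hCk' x (mem_univ _))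
      refine this.congr (Eventually.of_forall fun x => ?_)
      simp only; ring
    have i3 : Integrable (fun x => |(lip (fn n) x - g0 x) * g0 x|) m :=
      (hdM.integrable_mul hgM).abs
    have i4 := cauchy_schwarz_abs (hdM.aestronglyMeasurable) hgm.aestronglyMeasurable
      hdM.integrable_sq hgL
    have i5 : ∫ x, k x * lip (fn n) x * g0 x ∂m - ∫ x, k x * g0 x ^ 2 ∂m ≤
        Ck * ∫ x, |(lip (fn n) x - g0 x) * g0 x| ∂m := by
      rw [← integral_sub i1 i2, ← integral_const_mul]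
      refine integral_mono (i1.sub i2) (i3.const_mul _) fun x => ?_
      simp only
      calc k x * lip (fn n) x * g0 x - k x * g0 x ^ 2
          = k x * ((lip (fn n) x - g0 x) * g0 x) := by ring
        _ ≤ k x * |(lip (fn n) x - g0 x) * g0 x| :=
            mul_le_mul_of_nonneg_left (le_abs_self _) (hk0 x)
        _ ≤ Ck * |(lip (fn n) x - g0 x) * g0 x| :=
            mul_le_mul_of_nonneg_right (hCk x) (abs_nonneg _)
    have i6 := mul_le_mul_of_nonneg_left i4 hCk0
    linarith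
  -- choose ε
  have t3 : Tendsto (fun ε : ℝ => Ck * L * E * √(C * ε) + L / r * ε * Ck * A0) (𝓝 0)
      (𝓝 (Ck * L * E * √(C * 0) + L / r * 0 * Ck * A0)) := by
    apply Continuous.tendsto
    fun_prop
  have t3' : Tendsto (fun ε : ℝ => Ck * L * E * √(C * ε) + L / r * ε * Ck * A0) (𝓝 0)
      (𝓝 0) := by simpa using t3
  have t4 : Tendsto (fun ε : ℝ => ε * N * B) (𝓝 0) (𝓝 0) := by
    have : Tendsto (fun ε : ℝ => ε * N * B) (𝓝 0) (𝓝 (0 * N * B)) := by
      apply Continuous.tendsto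
      fun_prop
    simpa using this
  have hall := ((t3'.eventually_lt_const q).and (t4.eventually_lt_const
    (Real.exp_pos (-(δ * B / 2))))).and (eventually_lt_nhds (one_pos (α := ℝ)))
  obtain ⟨ε0, hε0, hball⟩ := Metric.eventually_nhds_iff.mp hall
  refine ⟨ε0, hε0, fun ε hε π P' α ρ1 hD hs => ?_⟩
  obtain ⟨⟨g1, g2⟩, g3⟩ := hball (y := ε) (by
    rw [Real.dist_eq, sub_zero, abs_of_pos hε.1]; exact hε.2)
  have hest := fw_est h hp hk hk0 hCk hL (hfnB n) hr hε.1 g2.le hD hs
  have hAle : 2 * (C * ε) + 2 * E * ∫ x, g0 x ^ 2 ∂m ≤ A0 := by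
    rw [hA0]
    nlinarith [mul_le_mul_of_nonneg_left g3.le hC.le]
  have u1 : L / r * ε * Ck * (2 * (C * ε) + 2 * E * ∫ x, g0 x ^ 2 ∂m) ≤ L / r * ε * Ck * A0 :=
    mul_le_mul_of_nonneg_left hAle (mul_nonneg (mul_nonneg (by positivity) hε.1.le) hCk0)
  have u2 : (N * B * Ck + K * √(2 * (C * ε) + 2 * E * ∫ x, g0 x ^ 2 ∂m) * √(2 * E)) *
      √(∫ x, (fn n x - f x) ^ 2 ∂m) ≤ (N * B * Ck + K * √A0 * √(2 * E)) *
      √(∫ x, (fn n x - f x) ^ 2 ∂m) := by
    refine mul_le_mul_of_nonneg_right ?_ (Real.sqrt_nonneg _)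
    refine add_le_add le_rfl (mul_le_mul_of_nonneg_right ?_ (Real.sqrt_nonneg _))
    exact mul_le_mul_of_nonneg_left (Real.sqrt_le_sqrt hAle) K.2
  linarith

/-- step (7) -/
theorem flux_weak {N B c δ : ℝ} {f g0 : X → ℝ} (h : Extremal m N B f g0)
    (hp : FluxPar N B c δ) {c1 C1 : ℝ} (hc1 : 0 < c1) (hC1 : 0 < C1) {C : ℝ} (hC : 0 < C)
    {k : X → ℝ} {K : ℝ≥0} (hk : LipschitzWith K k) (hk0 : ∀ x, 0 ≤ k x) {η : ℝ} (hη : 0 < η) :
    ∃ ε0 > 0, ∀ ε ∈ Ioo (0 : ℝ) ε0, ∀ (π P' : Measure (X × X)) (α ρ1 : X → ℝ),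
      FluxData m N c δ ε c1 C1 f g0 π P' α ρ1 →
      ∫ x, (Real.exp (δ * f x / 4) * g0 x - Real.exp (-(δ * f x / 4)) * (α x / ε)) ^ 2 ∂m
        ≤ C * ε →
      ∫ x, k x * g0 x ^ 2 ∂m - η ≤ (∫ z, k z.1 * (f z.2 - f z.1) ∂π) / ε := by
  obtain ⟨x0⟩ : Nonempty X := nonempty_of_isProbabilityMeasure m
  have hN0 : 0 < N := one_pos.trans hp.hN
  have hB0 : 0 < B := hp.hB
  have hδ0 : 0 < δ := hp.hδ
  obtain ⟨Ck, hCk'⟩ := isCompact_univ.exists_bound_of_continuousOn (hk.continuous.continuousOn)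
  have hCk : ∀ x, k x ≤ Ck := fun x => (le_abs_self _).trans (hCk' x (mem_univ _))
  have hkm : Measurable k := hk.continuous.measurable
  have hfm : Measurable f := h.lim.meas
  have hfb : ∀ x, |f x| ≤ B := h.lim.bound
  have hgL := h.lim.gL2
  set k' : X → ℝ := fun x => Ck - k x with hk'
  have hk'L : LipschitzWith K k' := by
    refine LipschitzWith.of_dist_le_mul fun x y => ?_
    have := hk.dist_le_mul x y
    rw [Real.dist_eq] at this ⊢
    rwa [show k' x - k' y = -(k x - k y) by simp only [hk']; ring, abs_neg]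
  have hk'0 : ∀ x, 0 ≤ k' x := fun x => sub_nonneg.mpr (hCk x)
  obtain ⟨ε1, hε1, hup⟩ := fw_upper (c1 := c1) (C1 := C1) h hp hC hk'L hk'0 hη
  have t4 : Tendsto (fun ε : ℝ => ε * N * B) (𝓝 0) (𝓝 0) := by
    have : Tendsto (fun ε : ℝ => ε * N * B) (𝓝 0) (𝓝 (0 * N * B)) := by
      apply Continuous.tendsto
      fun_prop
    simpa using this
  obtain ⟨ε2, hε2, hball⟩ := Metric.eventually_nhds_iff.mp (t4.eventually_lt_const
    (Real.exp_pos (-(δ * B / 2))))
  refine ⟨min ε1 ε2, lt_min hε1 hε2, fun ε hε π P' α ρ1 hD hs => ?_⟩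
  have hεpos := hε.1
  have g2 := hball (y := ε) (by
    rw [Real.dist_eq, sub_zero, abs_of_pos hε.1]; exact hε.2.trans_le (min_le_right _ _))
  have hu := hup ε ⟨hε.1, hε.2.trans_le (min_le_left _ _)⟩ π P' α ρ1 hD hs
  -- measure theory
  set ν0 : X → ℝ := fun x => Real.exp (-(δ * f x / 2)) with hν0
  set ν1 : X → ℝ := fun x => fnu N δ ε (f x) with hν1
  have hν0m : Measurable ν0 := by rw [hν0]; fun_prop
  have hν1m : Measurable ν1 := by rw [hν1]; unfold fnu; fun_prop
  have hν00 : ∀ x, 0 ≤ ν0 x := fun x => (Real.exp_pos _).le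
  have hfn : ∀ x, |ε * N * f x| ≤ Real.exp (-(δ * B / 2)) := by
    intro x
    rw [abs_mul, abs_of_pos (mul_pos hεpos hN0)]
    exact (mul_le_mul_of_nonneg_left (hfb x) (mul_pos hεpos hN0).le).trans g2.le
  have hlow : ∀ x, Real.exp (-(δ * B / 2)) ≤ Real.exp (-(δ * f x / 2)) := by
    intro x
    apply Real.exp_le_exp.mpr
    have := mul_le_mul_of_nonneg_left (le_of_abs_le (hfb x)) hδ0.le
    linarith
  have hup0 : ∀ x, Real.exp (-(δ * f x / 2)) ≤ Real.exp (δ * B / 2) := by
    intro x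
    apply Real.exp_le_exp.mpr
    have := mul_le_mul_of_nonneg_left (neg_le_of_abs_le (hfb x)) hδ0.le
    linarith
  have hν10 : ∀ x, 0 ≤ ν1 x := by
    intro x
    have h1 := (abs_le.mp (hfn x)).1
    have h2 := hlow x
    simp only [hν1, fnu]
    linarith
  have bddint : ∀ {u : X → ℝ}, Measurable u → (∃ C, ∀ x, |u x| ≤ C) → Integrable u m := by
    intro u hu ⟨C, hC⟩
    exact Integrable.of_bound hu.aestronglyMeasurable C (Eventually.of_forall hC)
  have hν0b : ∀ x, |ν0 x| ≤ Real.exp (δ * B / 2) := fun x => by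
    rw [abs_of_nonneg (hν00 x)]; exact hup0 x
  have hν0i : Integrable ν0 m := bddint hν0m ⟨_, hν0b⟩
  have : IsFiniteMeasure (dens m ν0) := isFiniteMeasure_dens hν0i
  have : IsFiniteMeasure π := hD.cplπ.isFiniteMeasure
  have hpb : ∀ {u : X × X → ℝ}, Measurable u → (∃ C, ∀ z, |u z| ≤ C) → Integrable u π := by
    intro u hu ⟨C, hC⟩
    exact Integrable.of_bound hu.aestronglyMeasurable C (Eventually.of_forall hC)
  have hf2i : Integrable (fun z : X × X => f z.2) π :=
    hpb (hfm.comp measurable_snd) ⟨B, fun z => hfb _⟩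
  have hf1i : Integrable (fun z : X × X => f z.1) π :=
    hpb (hfm.comp measurable_fst) ⟨B, fun z => hfb _⟩
  have hi : Integrable (fun z : X × X => f z.2 - f z.1) π := hf2i.sub hf1i
  have hik : Integrable (fun z : X × X => k z.1 * (f z.2 - f z.1)) π := by
    have : Integrable (fun z : X × X => (f z.2 - f z.1) * k z.1) π :=
      hi.mul_bdd (c := Ck) (hkm.comp measurable_fst).aestronglyMeasurable
        (Eventually.of_forall fun x => hCk' _ (mem_univ _))
    refine this.congr (Eventually.of_forall fun x => ?_)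
    simp only; ring
  have hmass : ∫ z, (f z.2 - f z.1) ∂π = ε * ∫ x, g0 x ^ 2 ∂m := by
    have i1 : Integrable (fun x => ν1 x * f x) m := by
      refine bddint (hν1m.mul hfm) ⟨(Real.exp (δ * B / 2) + Real.exp (-(δ * B / 2))) * B,
        fun x => ?_⟩
      rw [abs_mul]
      refine mul_le_mul ?_ (hfb x) (abs_nonneg _) (by positivity)
      simp only [hν1, fnu]
      exact (abs_add_le _ _).trans (add_le_add (hν0b x) (hfn x))
    have i0 : Integrable (fun x => ν0 x * f x) m := by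
      refine bddint (hν0m.mul hfm) ⟨Real.exp (δ * B / 2) * B, fun x => ?_⟩
      rw [abs_mul]
      exact mul_le_mul (hν0b x) (hfb x) (abs_nonneg _) (by positivity)
    rw [integral_sub hf2i hf1i, hD.cplπ.integral_snd hfm.aestronglyMeasurable,
      hD.cplπ.integral_fst hfm.aestronglyMeasurable, integral_dens hν1m hν10,
      integral_dens hν0m hν00, ← integral_sub i1 i0]
    have e1 : ∀ x, ν1 x * f x - ν0 x * f x = ε * (N * (f x * f x)) := by
      intro x
      simp only [hν1, hν0, fnu]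
      ring
    simp only [e1]
    rw [integral_const_mul, integral_const_mul]
    have e2 := h.el2 (fun t => t) (fun _ => 1) (fun t => hasDerivAt_id t) continuous_const
    simp only [mul_one] at e2
    rw [e2]
  have hsplit : ∫ z, k' z.1 * (f z.2 - f z.1) ∂π =
      Ck * ∫ z, (f z.2 - f z.1) ∂π - ∫ z, k z.1 * (f z.2 - f z.1) ∂π := by
    rw [← integral_const_mul, ← integral_sub (hi.const_mul _) hik]
    congr 1
    funext z
    simp only [hk']
    ring
  have hsplit2 : ∫ x, k' x * g0 x ^ 2 ∂m = Ck * ∫ x, g0 x ^ 2 ∂m - ∫ x, k x * g0 x ^ 2 ∂m := by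
    have hkg : Integrable (fun x => k x * g0 x ^ 2) m := by
      have : Integrable (fun x => g0 x ^ 2 * k x) m :=
        hgL.mul_bdd (c := Ck) hkm.aestronglyMeasurable
          (Eventually.of_forall fun x => hCk' x (mem_univ _))
      refine this.congr (Eventually.of_forall fun x => ?_)
      simp only; ring
    rw [← integral_const_mul, ← integral_sub (hgL.const_mul _) hkg]
    congr 1
    funext z
    simp only [hk']
    ring
  rw [hsplit, hsplit2, hmass, sub_div, show Ck * (ε * ∫ x, g0 x ^ 2 ∂m) / ε =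
    Ck * ∫ x, g0 x ^ 2 ∂m by field_simp] at hu
  linarith

end H13CD
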