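import Pool.Agent.Helper13.CD.FluxEst
import Pool.Agent.Helper13.CD.FluxWeak
import Pool.Agent.Helper13.CD.FluxQuad
import Pool.Agent.Helper13.CD.Aux13

/-!
# Module O3: the limit `ε → 0` in the flux argument

Notation: `G = g0²`, `Δ = f(y)-f(x)`, `I1 = ∫ G e^(δf/2)`, `p = 1-1/N`.

(1) integrate `flux_pointwise` against `π` (first marginal `e^(-δf/2) m`, second `ν1 m`):
`∫(H(f y)-H(f x))dπ = εN∫fH(f) = ε∫GH'(f)` (`el2`), `∫ΘM(f x)dπ = ∫ f e^(δf/2) P(f)`,
`∫(Ψ(f y)-Ψ(f x))dπ = ε∫Gψ(f)`, `∫ΘR(f x) dπ = ∫ f² e^(δf) P(f)`.  So `∫Θ(ν1^(-1/N)-L)dπ ≥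
 ∫Bf dπ + ε(∫GH'(f)-∫fe^(δf/2)P) - ε²∫Gψ(f)+½(N+1)ε²∫f²e^(δf)P - Cε∫Δ²-Cε²∫|Δ|-Cε³`, and
`∫GH'(f)-∫fe^(δf/2)P = p c I1` (`el2` with `Φ = e^(δt/2)P`).
(2) with `di`: `∫Bf dπ + p c ε I1 - ε²(...) + K ≤ p c ∫g0 α + errors`, `K` the two `α²` terms.
(3) `kuw`, `1/ν1 ≤ e^(δf/2) - εNf e^(δf) + Cε²` and Young `g0α ≤ ½(εe^(δf/2)G+ε⁻¹e^(-δf/2)α²)`:
`p c∫g0α ≤ p c ε I1 - p c (N/4) ε² ∫Gfe^(δf) + Cε³`.
(4) hence `∫Δ²dπ ≤ Cε²` (`fB_ge`), `∫|Δ| ≤ C ε`.
(5) strong convergence: `½∫(e^(δf/4)g0-e^(-δf/4)α/ε)² dm = ½I1+½ε⁻²∫e^(-δf/2)α²-ε⁻¹∫g0α ≤ Cε`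
(using (2) divided by `ε` as a lower bound of `ε⁻¹∫g0α`).  So `α/ε → e^(δf/2) g0` in `L²(m)`.
(6) `K/ε² → (p/2)∫ G e^(δf) P(f) dm` (liminf ≥): second term clear.  First: replace `α²/ε²` by
`e^(δf) G` (error → 0 since `ρ1^(-1/N)` bounded), then `ρ1^(-1/N)(y)` by `u0(y) = P(f y)^(-1/(N-1))`:
`∫|ρ1-ρ0|dm ≤ C(∫|Δ|dπ+ε)` (test `marg` with the sign of `ρ1-ρ0`), so `∫|ρ1^(-1/N)-u0|²dm → 0`,
and `e^(δf)G ∈ L²`; then `u0(y)` by `u0(x)` (`near_diag`, `cost P' = ∫α²ρ0 → 0`).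
(7) for Lipschitz `h ≥ 0`: `ε⁻¹∫h(x)Δdπ → ∫hG`.  limsup ≤: write `f = fn + w`;
`∫h(x)(fn y-fn x)dπ ≤ ∫h(x)(Sr r fn)(x) α(x) dπ + C Lip(fn) r⁻¹∫α²dπ`, divided by `ε` tends to
`∫h (Sr r fn) g0 dm`, `r → 0`: `∫h lip(fn) g0`; and
`∫h(x)(w y-w x)dπ = ∫hw(ν1-ν0)dm - ∫(h y-h x)w(y)dπ ≤ C_h ε ‖w‖₂`.  Then `n → ∞`.  For the lower
bound use `h ≤ Ch`: apply the limsup to `Ch - h` and `ε⁻¹∫Δdπ = N∫f² = ∫G`.
(8) `liminf ε⁻²∫Bf dπ ≥ ∫hG - (1/(2(1-η)))∫h²e^(-δf/2)/k(f)` (`fB_young`), for all Lipschitz `h ≥ 0`,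
then let `h → k(f)e^(δf/2)G` in `L²` (`exists_lipschitz_approx_nonneg`), `η → 0`:
`liminf ε⁻²∫Bf ≥ ½∫k(f)e^(δf/2)G²`.
(9) Sum: `½∫k(f)e^(δf/2)G² + (p/2)∫Ge^(δf)P ≤ ∫Gψ(f) - ½(N+1)∫f²e^(δf)P - p c (N/4)∫Gfe^(δf)`.
`el2` with `Φ = te^(δt)P`: `∫f²e^(δf)P = (1/N)∫Ge^(δf)[P+δfP-(N-1)cf]`.  All `P`-terms cancel:
`½∫k(f)e^(δf/2)G² ≤ p c ((N+2)/4) ∫Gfe^(δf)`, which is the claim.
-/

open MeasureTheory Set Filter Topology
open scoped ENNReal NNReal

namespace H13CD

variable {X : Type*} [MetricSpace X] [CompactSpace X] [MeasurableSpace X] [BorelSpace X]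
  {m : Measure X} [IsProbabilityMeasure m]

theorem continuous_fk (N c δ : ℝ) : Continuous (fk N c δ) := by
  unfold fk fP; fun_prop

/-- continuous functions of a bounded measurable function are bounded -/
theorem Lim.bdd_comp {B : ℝ} {f g0 : X → ℝ} (h : Lim m B f g0) {φ : ℝ → ℝ} (hφ : Continuous φ) :
    ∃ C, ∀ x, |φ (f x)| ≤ C := by
  obtain ⟨C, hC⟩ := isCompact_Icc.exists_bound_of_continuousOn (s := Icc (-B) B) hφ.continuousOn
  exact ⟨C, fun x => hC _ (abs_le.mp (h.bound x))⟩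

theorem Lim.meas_comp {B : ℝ} {f g0 : X → ℝ} (h : Lim m B f g0) {φ : ℝ → ℝ} (hφ : Continuous φ) :
    Measurable fun x => φ (f x) := hφ.measurable.comp h.meas

/-- `∫ φ(f) u` integrable if `u` is -/
theorem Lim.integrable_mul {B : ℝ} {f g0 : X → ℝ} (h : Lim m B f g0) {φ : ℝ → ℝ}
    (hφ : Continuous φ) {u : X → ℝ} (hu : Integrable u m) :
    Integrable (fun x => u x * φ (f x)) m := by
  obtain ⟨C, hC⟩ := h.bdd_comp hφ
  exact hu.mul_bdd (c := C) (h.meas_comp hφ).aestronglyMeasurable (Eventually.of_forall hC)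

theorem Lim.integrable_comp {B : ℝ} {f g0 : X → ℝ} (h : Lim m B f g0) {φ : ℝ → ℝ}
    (hφ : Continuous φ) : Integrable (fun x => φ (f x)) m := by
  obtain ⟨C, hC⟩ := h.bdd_comp hφ
  exact Integrable.of_bound (h.meas_comp hφ).aestronglyMeasurable C (Eventually.of_forall hC)

/-- claim 1 -/
theorem flux_claim1 {N B c δ : ℝ} (hcd : CDr m N) {f g0 : X → ℝ} (h : Extremal m N B f g0)
    (hp : FluxPar N B c δ) (h4 : Integrable (fun x => g0 x ^ 4) m)
    {k : X → ℝ} {K : ℝ≥0} (hk : LipschitzWith K k) (hk0 : ∀ x, 0 ≤ k x) {η : ℝ}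
    (hη : η ∈ Ioo (0 : ℝ) 1) :
    ∫ x, k x * g0 x ^ 2 ∂m -
      1 / (2 * (1 - η)) * ∫ x, k x ^ 2 * (Real.exp (-(δ * f x / 2)) / fk N c δ (f x)) ∂m +
      (1 - 1 / N) / 2 * ∫ x, g0 x ^ 2 * Real.exp (δ * f x) * fP N c (f x) ∂m ≤
    ∫ x, g0 x ^ 2 * fpsi N c δ (f x) ∂m -
          (N + 1) / 2 * ∫ x, f x ^ 2 * Real.exp (δ * f x) * fP N c (f x) ∂m -
          (1 - 1 / N) * c * (N / 4) * ∫ x, g0 x ^ 2 * f x * Real.exp (δ * f x) ∂m := by
  obtain ⟨εa, hεa, c1, hc1, C1, hC1, hdata⟩ := flux_plan hcd h hp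
  obtain ⟨C, hC, εb, hεb, hest⟩ := flux_est h hp hc1 hC1
  -- bound of k
  obtain ⟨x0⟩ : Nonempty X := nonempty_of_isProbabilityMeasure m
  obtain ⟨Ch, hCh⟩ := isCompact_univ.exists_bound_of_continuousOn (hk.continuous.continuousOn)
  have hCh' : ∀ x, |k x| ≤ Ch := fun x => hCh x (mem_univ _)
  have hCh0 : 0 ≤ Ch := (abs_nonneg _).trans (hCh' x0)
  obtain ⟨εc, hεc, hyoung⟩ := fB_young hp hη hCh0
  obtain ⟨k0, hk0', hfk⟩ := fk_ge hp
  have hfI : ∀ x, f x ∈ Icc (-B) B := fun x => abs_le.mp (h.lim.bound x)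
  have hfkpos : ∀ x, 0 < fk N c δ (f x) := fun x => hk0'.trans_le (hfk _ (hfI x))
  set J := ∫ x, g0 x ^ 2 * fpsi N c δ (f x) ∂m -
          (N + 1) / 2 * ∫ x, f x ^ 2 * Real.exp (δ * f x) * fP N c (f x) ∂m -
          (1 - 1 / N) * c * (N / 4) * ∫ x, g0 x ^ 2 * f x * Real.exp (δ * f x) ∂m with hJ
  set Kq := (1 - 1 / N) / 2 * ∫ x, g0 x ^ 2 * Real.exp (δ * f x) * fP N c (f x) ∂m with hKq
  set W := ∫ x, k x ^ 2 * (Real.exp (-(δ * f x / 2)) / fk N c δ (f x)) ∂m with hW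
  refine le_of_forall_pos_le_add fun η' hη' => ?_
  obtain ⟨εd, hεd, hweak⟩ := flux_weak h hp hc1 hC1 hC hk hk0 (η := η' / 3) (by positivity)
  obtain ⟨εe, hεe, hquad⟩ := flux_quad h hp h4 hc1 hC1 hC (η := η' / 3) (by positivity)
  -- choose ε
  set ε := min (min (min (εa / 2) (εb / 2)) (min (εc / 2) (εd / 2))) (min (εe / 2) (η' / (3 * C)))
    with hε
  have hεpos : 0 < ε := by positivity
  have ha : ε < εa := ((min_le_left _ _).trans ((min_le_left _ _).trans (min_le_left _ _))).trans_lt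
    (half_lt_self hεa)
  have hb : ε < εb := ((min_le_left _ _).trans ((min_le_left _ _).trans (min_le_right _ _))).trans_lt
    (half_lt_self hεb)
  have hc' : ε < εc := ((min_le_left _ _).trans ((min_le_right _ _).trans (min_le_left _ _))).trans_lt
    (half_lt_self hεc)
  have hd : ε < εd := ((min_le_left _ _).trans ((min_le_right _ _).trans (min_le_right _ _))).trans_lt
    (half_lt_self hεd)
  have he : ε < εe := ((min_le_right _ _).trans (min_le_left _ _)).trans_lt (half_lt_self hεe)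
  have hf' : ε ≤ η' / (3 * C) := (min_le_right _ _).trans (min_le_right _ _)
  obtain ⟨π, P', α, ρ1, hD⟩ := hdata ε ⟨hεpos, ha⟩
  obtain ⟨e1, e2, e3, e4⟩ := hest ε ⟨hεpos, hb⟩ π P' α ρ1 hD
  have e5 := hweak ε ⟨hεpos, hd⟩ π P' α ρ1 hD e2
  have e6 := hquad ε ⟨hεpos, he⟩ π P' α ρ1 hD e2 e3
  -- integrate the Young inequality
  have hexpc : Continuous fun t : ℝ => Real.exp (-(δ * t / 2)) := by fun_prop
  have hν0i : Integrable (fun x => Real.exp (-(δ * f x / 2))) m := h.lim.integrable_comp hexpc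
  have hν0m : Measurable (fun x => Real.exp (-(δ * f x / 2))) := h.lim.meas_comp hexpc
  haveI : IsFiniteMeasure (dens m fun x => Real.exp (-(δ * f x / 2))) := isFiniteMeasure_dens hν0i
  haveI : IsFiniteMeasure π := hD.cplπ.isFiniteMeasure
  have hkm : Measurable k := hk.continuous.measurable
  have hfkm : Measurable fun x => fk N c δ (f x) := h.lim.meas_comp (continuous_fk N c δ)
  have i1 : Integrable (fun z : X × X => k z.1 * (f z.2 - f z.1)) π := by
    refine Integrable.of_bound (C := Ch * (2 * B)) ((hkm.comp measurable_fst).mul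
      ((h.lim.meas.comp measurable_snd).sub (h.lim.meas.comp measurable_fst))).aestronglyMeasurable
      (Eventually.of_forall fun z => ?_)
    rw [norm_mul]
    refine mul_le_mul (hCh' _) ?_ (norm_nonneg _) hCh0
    rw [Real.norm_eq_abs]
    calc |f z.2 - f z.1| ≤ |f z.2| + |f z.1| := abs_sub _ _
      _ ≤ 2 * B := by linarith [h.lim.bound z.1, h.lim.bound z.2]
  have i2 : Integrable (fun z : X × X => k z.1 ^ 2 / fk N c δ (f z.1)) π := by
    refine Integrable.of_bound (C := Ch ^ 2 / k0) (((hkm.comp measurable_fst).pow_const 2).div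
      (hfkm.comp measurable_fst)).aestronglyMeasurable (Eventually.of_forall fun z => ?_)
    rw [norm_div, norm_pow, Real.norm_eq_abs, Real.norm_eq_abs, abs_of_pos (hfkpos _)]
    exact div_le_div₀ (by positivity) (pow_le_pow_left₀ (abs_nonneg _) (hCh' _) 2) hk0'
      (hfk _ (hfI _))
  have hfBm : Measurable fun z : X × X => fB N c δ (f z.1) (f z.2) := by
    have : Continuous fun q : ℝ × ℝ => fB N c δ q.1 q.2 := by
      unfold fB fTh fL fH fP; fun_prop
    exact this.measurable.comp ((h.lim.meas.comp measurable_fst).prodMk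
      (h.lim.meas.comp measurable_snd))
  have i3 : Integrable (fun z : X × X => fB N c δ (f z.1) (f z.2)) π := by
    have hc2 : Continuous fun q : ℝ × ℝ => fB N c δ q.1 q.2 := by
      unfold fB fTh fL fH fP; fun_prop
    obtain ⟨C2, hC2⟩ := (isCompact_Icc.prod isCompact_Icc).exists_bound_of_continuousOn
      (s := Icc (-B) B ×ˢ Icc (-B) B) hc2.continuousOn
    exact Integrable.of_bound hfBm.aestronglyMeasurable C2
      (Eventually.of_forall fun z => hC2 (f z.1, f z.2) ⟨hfI _, hfI _⟩)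
  have hY : ε * ∫ z, k z.1 * (f z.2 - f z.1) ∂π -
      ε ^ 2 * (1 / (2 * (1 - η))) * ∫ z, k z.1 ^ 2 / fk N c δ (f z.1) ∂π ≤
      ∫ z, fB N c δ (f z.1) (f z.2) ∂π := by
    rw [← integral_const_mul, ← integral_const_mul,
      ← integral_sub (i1.const_mul _) (i2.const_mul _)]
    refine integral_mono ((i1.const_mul _).sub (i2.const_mul _)) i3 fun z => ?_
    have := hyoung ε ⟨hεpos, hc'⟩ (f z.1) (hfI _) (f z.2) (hfI _) (k z.1) (hCh' _)
    simp only
    have hne : fk N c δ (f z.1) ≠ 0 := (hfkpos _).ne'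
    have hne2 : (1 - η) ≠ 0 := by linarith [hη.2]
    calc ε * (k z.1 * (f z.2 - f z.1)) -
          ε ^ 2 * (1 / (2 * (1 - η))) * (k z.1 ^ 2 / fk N c δ (f z.1))
        = ε * k z.1 * (f z.2 - f z.1) - ε ^ 2 * k z.1 ^ 2 / (2 * (1 - η) * fk N c δ (f z.1)) := by
          field_simp
      _ ≤ _ := this
  have hWeq : ∫ z, k z.1 ^ 2 / fk N c δ (f z.1) ∂π = W := by
    rw [hD.cplπ.integral_fst (g := fun x => k x ^ 2 / fk N c δ (f x))
      ((hkm.pow_const 2).div hfkm).aestronglyMeasurable,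
      integral_dens hν0m (fun x => (Real.exp_pos _).le)]
    rw [hW]
    congr 1
    funext x
    ring
  rw [hWeq] at hY
  -- combine
  have e5' : ε * (∫ x, k x * g0 x ^ 2 ∂m - η' / 3) ≤ ∫ z, k z.1 * (f z.2 - f z.1) ∂π := by
    rw [le_div_iff₀ hεpos] at e5
    linarith
  have e6' : ε ^ 2 * (Kq - η' / 3) ≤ (1 - 1 / N) / 6 * ∫ z, α z.1 ^ 2 * ρ1 z.2 ^ (-(1 / N)) ∂P' +
        (1 - 1 / N) / 3 * ∫ x, α x ^ 2 * fP N c (f x) ∂m := by
    rw [← hKq, le_div_iff₀ (by positivity)] at e6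
    linarith
  have e7 : ε ^ 2 * (∫ x, k x * g0 x ^ 2 ∂m - η' / 3 - 1 / (2 * (1 - η)) * W + (Kq - η' / 3)) ≤
      ε ^ 2 * (J + C * ε) := by
    have t1 := mul_le_mul_of_nonneg_left e5' hεpos.le
    nlinarith
  have e8 := le_of_mul_le_mul_left e7 (by positivity)
  have e9 : C * ε ≤ η' / 3 := by
    calc C * ε ≤ C * (η' / (3 * C)) := mul_le_mul_of_nonneg_left hf' hC.le
      _ = η' / 3 := by field_simp
  linarith


/-- claims 2 and 3 -/
theorem flux_claim3 {N B c δ : ℝ} (hcd : CDr m N) {f g0 : X → ℝ} (h : Extremal m N B f g0)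
    (hp : FluxPar N B c δ) (h4 : Integrable (fun x => g0 x ^ 4) m) :
    1 / 2 * ∫ x, fk N c δ (f x) * Real.exp (δ * f x / 2) * g0 x ^ 4 ∂m +
      (1 - 1 / N) / 2 * ∫ x, g0 x ^ 2 * Real.exp (δ * f x) * fP N c (f x) ∂m ≤
    ∫ x, g0 x ^ 2 * fpsi N c δ (f x) ∂m -
          (N + 1) / 2 * ∫ x, f x ^ 2 * Real.exp (δ * f x) * fP N c (f x) ∂m -
          (1 - 1 / N) * c * (N / 4) * ∫ x, g0 x ^ 2 * f x * Real.exp (δ * f x) ∂m := by
  set J := ∫ x, g0 x ^ 2 * fpsi N c δ (f x) ∂m -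
          (N + 1) / 2 * ∫ x, f x ^ 2 * Real.exp (δ * f x) * fP N c (f x) ∂m -
          (1 - 1 / N) * c * (N / 4) * ∫ x, g0 x ^ 2 * f x * Real.exp (δ * f x) ∂m with hJ
  set Kq := (1 - 1 / N) / 2 * ∫ x, g0 x ^ 2 * Real.exp (δ * f x) * fP N c (f x) ∂m with hKq
  obtain ⟨k0, hk0', hfk⟩ := fk_ge hp
  have hfI : ∀ x, f x ∈ Icc (-B) B := fun x => abs_le.mp (h.lim.bound x)
  have hfkpos : ∀ x, 0 < fk N c δ (f x) := fun x => hk0'.trans_le (hfk _ (hfI x))
  have hfkm : Measurable fun x => fk N c δ (f x) := h.lim.meas_comp (continuous_fk N c δ)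
  have hexpc : Continuous fun t : ℝ => Real.exp (-(δ * t / 2)) := by fun_prop
  set w : X → ℝ := fun x => Real.exp (-(δ * f x / 2)) / fk N c δ (f x) with hw
  have hwm : Measurable w := (h.lim.meas_comp hexpc).div hfkm
  have hwpos : ∀ x, 0 < w x := fun x => div_pos (Real.exp_pos _) (hfkpos x)
  obtain ⟨Ce, hCe⟩ := h.lim.bdd_comp hexpc
  have hwb : ∀ x, |w x| ≤ Ce / k0 := by
    intro x
    rw [hw]; simp only
    rw [abs_div, abs_of_pos (hfkpos x)]
    exact div_le_div₀ ((abs_nonneg _).trans (hCe x)) (hCe x) hk0' (hfk _ (hfI x))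
  -- claim 2
  have claim2 : ∀ (k : X → ℝ) (K : ℝ≥0), LipschitzWith K k → (∀ x, 0 ≤ k x) →
      ∫ x, k x * g0 x ^ 2 ∂m - 1 / 2 * ∫ x, k x ^ 2 * w x ∂m + Kq ≤ J := by
    intro k K hk hk0
    have hc : ContinuousAt (fun η : ℝ => ∫ x, k x * g0 x ^ 2 ∂m -
        1 / (2 * (1 - η)) * ∫ x, k x ^ 2 * w x ∂m + Kq) 0 := by
      refine ContinuousAt.add (ContinuousAt.sub continuousAt_const
        (ContinuousAt.mul (ContinuousAt.div continuousAt_const (by fun_prop) (by norm_num))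
          continuousAt_const)) continuousAt_const
    have ht := hc.tendsto.mono_left (nhdsWithin_le_nhds (s := Ioi (0 : ℝ)))
    have e : (1 : ℝ) / (2 * (1 - 0)) = 1 / 2 := by norm_num
    simp only [e] at ht
    refine le_of_tendsto ht ?_
    filter_upwards [Ioo_mem_nhdsGT (one_pos (α := ℝ))] with η hη
    exact flux_claim1 hcd h hp h4 hk hk0 hη
  -- the optimal test function
  set ks : X → ℝ := fun x => fk N c δ (f x) * Real.exp (δ * f x / 2) * g0 x ^ 2 with hks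
  have hexpc2 : Continuous fun t : ℝ => fk N c δ t * Real.exp (δ * t / 2) :=
    (continuous_fk N c δ).mul (by fun_prop)
  have hGm : Measurable fun x => g0 x ^ 2 := h.lim.gmeas.pow_const 2
  have hG2 : MemLp (fun x => g0 x ^ 2) 2 m := by
    refine memLp_two_of_sq hGm.aestronglyMeasurable ?_
    convert h4 using 2
    ring
  have hksm : Measurable ks := (h.lim.meas_comp hexpc2).mul hGm
  have hks2 : MemLp ks 2 m := by
    obtain ⟨C, hC⟩ := h.lim.bdd_comp hexpc2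
    refine memLp_two_of_sq hksm.aestronglyMeasurable ?_
    have : ∀ x, ks x ^ 2 = g0 x ^ 4 * (fk N c δ (f x) * Real.exp (δ * f x / 2)) ^ 2 := by
      intro x; rw [hks]; ring
    simp only [this]
    exact h.lim.integrable_mul (φ := fun t => (fk N c δ t * Real.exp (δ * t / 2)) ^ 2)
      (hexpc2.pow 2) h4
  have hks0 : ∀ x, 0 ≤ ks x := fun x =>
    mul_nonneg (mul_nonneg (hfkpos x).le (Real.exp_pos _).le) (sq_nonneg _)
  -- approximating sequence
  have happ : ∀ n : ℕ, ∃ (g : X → ℝ) (K : ℝ≥0), LipschitzWith K g ∧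
      ∫ x, (ks x - g x) ^ 2 ∂m ≤ 1 / ((n : ℝ) + 1) ∧ ∀ x, 0 ≤ g x := fun n =>
    exists_lipschitz_approx_nonneg hks2 hks0 (by positivity)
  choose kn Kn hknL hkn2 hkn0 using happ
  have hkn2m : ∀ n, MemLp (kn n) 2 m := by
    intro n
    obtain ⟨C, hC⟩ := isCompact_univ.exists_bound_of_continuousOn ((hknL n).continuous.continuousOn)
    exact MemLp.of_bound (hknL n).continuous.aestronglyMeasurable C
      (Eventually.of_forall fun x => hC x (mem_univ _))
  have hconv : Tendsto (fun n => ∫ x, (kn n x - ks x) ^ 2 ∂m) atTop (𝓝 0) := by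
    refine squeeze_zero (fun n => integral_nonneg fun x => sq_nonneg _) (fun n => ?_)
      tendsto_one_div_add_atTop_nhds_zero_nat
    have : ∀ x, (kn n x - ks x) ^ 2 = (ks x - kn n x) ^ 2 := fun x => by ring
    simp only [this]
    exact hkn2 n
  have hzero : Tendsto (fun _ : ℕ => ∫ x, (g0 x ^ 2 - g0 x ^ 2) ^ 2 ∂m) atTop (𝓝 0) := by simp
  have t1 := tendsto_mul_mul_of_sq hkn2m (fun _ => hG2) hks2 hG2 hconv hzero
  have t2 := tendsto_mul_mul_of_sq hkn2m hkn2m hks2 hks2 hconv hconv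
  have l1 : Tendsto (fun n => ∫ x, kn n x * g0 x ^ 2 ∂m) atTop (𝓝 (∫ x, ks x * g0 x ^ 2 ∂m)) := by
    rw [tendsto_iff_norm_sub_tendsto_zero]
    refine squeeze_zero (fun n => norm_nonneg _) (fun n => ?_) t1
    have jj1 : Integrable (fun x => kn n x * g0 x ^ 2) m := (hkn2m n).integrable_mul hG2
    have jj2 : Integrable (fun x => ks x * g0 x ^ 2) m := hks2.integrable_mul hG2
    rw [← integral_sub jj1 jj2]
    exact norm_integral_le_integral_norm _
  have l2 : Tendsto (fun n => ∫ x, kn n x ^ 2 * w x ∂m) atTop (𝓝 (∫ x, ks x ^ 2 * w x ∂m)) := by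
    rw [tendsto_iff_norm_sub_tendsto_zero]
    have t3 : Tendsto (fun n => (Ce / k0) * ∫ x, |kn n x * kn n x - ks x * ks x| ∂m) atTop
        (𝓝 0) := by simpa using t2.const_mul (Ce / k0)
    have j1 : ∀ n, Integrable (fun x => kn n x ^ 2 * w x) m := fun n =>
      (hkn2m n).integrable_sq.mul_bdd (c := Ce / k0) hwm.aestronglyMeasurable
        (Eventually.of_forall hwb)
    have j2 : Integrable (fun x => ks x ^ 2 * w x) m :=
      hks2.integrable_sq.mul_bdd (c := Ce / k0) hwm.aestronglyMeasurable (Eventually.of_forall hwb)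
    refine squeeze_zero (fun n => norm_nonneg _) (fun n => ?_) t3
    rw [← integral_sub (j1 n) j2, ← integral_const_mul]
    refine (norm_integral_le_integral_norm _).trans ?_
    refine integral_mono_of_nonneg (Eventually.of_forall fun x => norm_nonneg _) ?_
      (Eventually.of_forall fun x => ?_)
    · exact ((((hkn2m n).integrable_mul (hkn2m n)).sub (hks2.integrable_mul hks2)).abs).const_mul _
    · simp only
      have : kn n x ^ 2 * w x - ks x ^ 2 * w x = w x * (kn n x * kn n x - ks x * ks x) := by ring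
      rw [this, norm_mul]
      exact mul_le_mul_of_nonneg_right (hwb x) (norm_nonneg _)
  have hfin : ∫ x, ks x * g0 x ^ 2 ∂m - 1 / 2 * ∫ x, ks x ^ 2 * w x ∂m + Kq ≤ J :=
    le_of_tendsto' ((l1.sub (l2.const_mul (1 / 2))).add_const Kq) fun n =>
      claim2 (kn n) (Kn n) (hknL n) (hkn0 n)
  have q1 : ∫ x, ks x * g0 x ^ 2 ∂m =
      ∫ x, fk N c δ (f x) * Real.exp (δ * f x / 2) * g0 x ^ 4 ∂m := by
    congr 1; funext x; rw [hks]; ring
  have q2 : ∫ x, ks x ^ 2 * w x ∂m =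
      ∫ x, fk N c δ (f x) * Real.exp (δ * f x / 2) * g0 x ^ 4 ∂m := by
    congr 1; funext x
    rw [hks, hw]
    simp only
    have hne := (hfkpos x).ne'
    have he : Real.exp (-(δ * f x / 2)) = (Real.exp (δ * f x / 2))⁻¹ := Real.exp_neg _
    rw [he]
    have he2 : Real.exp (δ * f x / 2) ≠ 0 := (Real.exp_pos _).ne'
    field_simp
  rw [q1, q2] at hfin
  linarith

/-- steps (8), (9) -/
theorem flux_lim {N B c δ : ℝ} (hcd : CDr m N) {f g0 : X → ℝ} (h : Extremal m N B f g0)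
    (hp : FluxPar N B c δ) (h4 : Integrable (fun x => g0 x ^ 4) m) :
    δ * ∫ x, Real.exp (δ * f x) * (1 - δ / (2 * N * c) * fP N c (f x)) * g0 x ^ 4 ∂m ≤
      (N + 2) * ∫ x, g0 x ^ 2 * f x * Real.exp (δ * f x) ∂m := by
  have h3 := flux_claim3 hcd h hp h4
  have hN := hp.hN
  have hc := hp.hc
  have hN0 : 0 < N := by linarith
  have hN1 : 0 < N - 1 := by linarith
  -- el2 for `t e^{δt} P t`
  have hel := h.el2 (fun t => t * Real.exp (δ * t) * fP N c t)
    (fun t => Real.exp (δ * t) * fP N c t + δ * t * Real.exp (δ * t) * fP N c t -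
      (N - 1) * c * t * Real.exp (δ * t)) (fun t => by
      have h1 : HasDerivAt (fun t => Real.exp (δ * t)) (Real.exp (δ * t) * (δ * 1)) t :=
        ((hasDerivAt_id' t).const_mul δ).exp
      have h2 : HasDerivAt (fP N c) (-((N - 1) * c * 1)) t :=
        ((hasDerivAt_id' t).const_mul ((N - 1) * c)).const_sub 1
      refine (((hasDerivAt_id' t).mul h1).mul h2).congr_deriv ?_
      simp only [Pi.mul_apply]
      ring) (by unfold fP; fun_prop)
  have hGi := h.lim.gL2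
  -- integrability
  have k1 : Integrable (fun x => g0 x ^ 2 * (Real.exp (δ * f x) * fP N c (f x))) m :=
    h.lim.integrable_mul (φ := fun t => Real.exp (δ * t) * fP N c t) (by unfold fP; fun_prop) hGi
  have k2 : Integrable (fun x => g0 x ^ 2 * (f x * Real.exp (δ * f x) * fP N c (f x))) m :=
    h.lim.integrable_mul (φ := fun t => t * Real.exp (δ * t) * fP N c t)
      (by unfold fP; fun_prop) hGi
  have k3 : Integrable (fun x => g0 x ^ 2 * (f x * Real.exp (δ * f x))) m :=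
    h.lim.integrable_mul (φ := fun t => t * Real.exp (δ * t)) (by fun_prop) hGi
  set I1 := ∫ x, g0 x ^ 2 * (Real.exp (δ * f x) * fP N c (f x)) ∂m with hI1
  set I2 := ∫ x, g0 x ^ 2 * (f x * Real.exp (δ * f x) * fP N c (f x)) ∂m with hI2
  set I3 := ∫ x, g0 x ^ 2 * (f x * Real.exp (δ * f x)) ∂m with hI3
  have a1 : ∫ x, f x * (f x * Real.exp (δ * f x) * fP N c (f x)) ∂m =
      ∫ x, f x ^ 2 * Real.exp (δ * f x) * fP N c (f x) ∂m := by
    congr 1; funext x; ring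
  have a2 : ∫ x, g0 x ^ 2 * (Real.exp (δ * f x) * fP N c (f x) +
      δ * f x * Real.exp (δ * f x) * fP N c (f x) - (N - 1) * c * f x * Real.exp (δ * f x)) ∂m =
      I1 + δ * I2 - (N - 1) * c * I3 := by
    have : ∀ x, g0 x ^ 2 * (Real.exp (δ * f x) * fP N c (f x) +
      δ * f x * Real.exp (δ * f x) * fP N c (f x) - (N - 1) * c * f x * Real.exp (δ * f x)) =
      g0 x ^ 2 * (Real.exp (δ * f x) * fP N c (f x)) +
      δ * (g0 x ^ 2 * (f x * Real.exp (δ * f x) * fP N c (f x))) -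
      (N - 1) * c * (g0 x ^ 2 * (f x * Real.exp (δ * f x))) := fun x => by ring
    simp only [this]
    have k12 : Integrable (fun x => g0 x ^ 2 * (Real.exp (δ * f x) * fP N c (f x)) +
      δ * (g0 x ^ 2 * (f x * Real.exp (δ * f x) * fP N c (f x)))) m := k1.add (k2.const_mul δ)
    rw [integral_sub k12 (k3.const_mul _), integral_add k1 (k2.const_mul δ), integral_const_mul,
      integral_const_mul]
  have a3 : ∫ x, g0 x ^ 2 * Real.exp (δ * f x) * fP N c (f x) ∂m = I1 := by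
    rw [hI1]; congr 1; funext x; ring
  have a4 : ∫ x, g0 x ^ 2 * f x * Real.exp (δ * f x) ∂m = I3 := by
    rw [hI3]; congr 1; funext x; ring
  have a5 : ∫ x, g0 x ^ 2 * fpsi N c δ (f x) ∂m = I1 + δ / 2 * ((N + 1) / N) * I2 := by
    have : ∀ x, g0 x ^ 2 * fpsi N c δ (f x) =
      g0 x ^ 2 * (Real.exp (δ * f x) * fP N c (f x)) +
      δ / 2 * ((N + 1) / N) * (g0 x ^ 2 * (f x * Real.exp (δ * f x) * fP N c (f x))) :=
      fun x => by unfold fpsi; ring
    simp only [this]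
    rw [integral_add k1 (k2.const_mul _), integral_const_mul]
  have a6 : ∫ x, fk N c δ (f x) * Real.exp (δ * f x / 2) * g0 x ^ 4 ∂m =
      (1 - 1 / N) * c * δ / 2 *
        ∫ x, Real.exp (δ * f x) * (1 - δ / (2 * N * c) * fP N c (f x)) * g0 x ^ 4 ∂m := by
    rw [← integral_const_mul]
    congr 1; funext x
    have he : Real.exp (δ * f x) = Real.exp (δ * f x / 2) * Real.exp (δ * f x / 2) := by
      rw [← Real.exp_add]; congr 1; ring
    unfold fk
    rw [he]
    field_simp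
  rw [a1, a2] at hel
  rw [a3, a4, a5, a6] at h3
  rw [a4]
  set A := ∫ x, Real.exp (δ * f x) * (1 - δ / (2 * N * c) * fP N c (f x)) * g0 x ^ 4 ∂m with hA
  set F := ∫ x, f x ^ 2 * Real.exp (δ * f x) * fP N c (f x) ∂m with hF
  have hF' : F = (I1 + δ * I2 - (N - 1) * c * I3) / N := by
    rw [eq_div_iff hN0.ne']; linarith
  rw [hF'] at h3
  have h5 : (1 - 1 / N) * c / 4 * (δ * A) ≤ (1 - 1 / N) * c / 4 * ((N + 2) * I3) := by
    have e1 : I1 + δ / 2 * ((N + 1) / N) * I2 -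
        (N + 1) / 2 * ((I1 + δ * I2 - (N - 1) * c * I3) / N) -
        (1 - 1 / N) * c * (N / 4) * I3 - (1 - 1 / N) / 2 * I1 =
        (1 - 1 / N) * c / 4 * ((N + 2) * I3) := by
      field_simp
      ring
    have e2 : 1 / 2 * ((1 - 1 / N) * c * δ / 2 * A) = (1 - 1 / N) * c / 4 * (δ * A) := by ring
    linarith
  have h6 : 0 < (1 - 1 / N) * c / 4 := by
    have : 0 < 1 - 1 / N := by
      rw [sub_pos, div_lt_one hN0]; exact hN
    positivity
  exact le_of_mul_le_mul_left h5 h6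

/-- `δ → 0` with `c` fixed -/
theorem flux {N B : ℝ} (hN : 1 < N) (hB : 0 < B) (hcd : CDr m N) {f g0 : X → ℝ}
    (h : Extremal m N B f g0) (h3 : ∫ x, f x ^ 3 ∂m = 0)
    (h4 : Integrable (fun x => g0 x ^ 4) m) :
    ∫ x, g0 x ^ 4 ∂m ≤ N * (N + 2) / 3 * ∫ x, f x ^ 4 ∂m := by
  have hN0 : 0 < N := by linarith
  have hN1 : 0 < N - 1 := by linarith
  set c := 1 / (2 * (N - 1) * B) with hc
  have hcpos : 0 < c := by positivity
  have hGi := h.lim.gL2
  -- moments
  have m1 : ∫ x, g0 x ^ 2 * f x ∂m = 0 := by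
    have h1 := h.el2 (fun t => t ^ 2 / 2) (fun t => t) (fun t => by
      refine ((hasDerivAt_pow 2 t).div_const 2).congr_deriv ?_
      push_cast
      ring) continuous_id
    rw [← h1]
    have h2 : ∀ x, f x * (f x ^ 2 / 2) = 1 / 2 * f x ^ 3 := fun x => by ring
    simp only [h2]
    rw [integral_const_mul, h3]
    ring
  have m2 : ∫ x, g0 x ^ 2 * f x ^ 2 ∂m = N / 3 * ∫ x, f x ^ 4 ∂m := by
    have h1 := h.el2 (fun t => t ^ 3 / 3) (fun t => t ^ 2) (fun t => by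
      refine ((hasDerivAt_pow 3 t).div_const 3).congr_deriv ?_
      push_cast
      ring) (by fun_prop)
    rw [← h1]
    have h2 : ∀ x, f x * (f x ^ 3 / 3) = 1 / 3 * f x ^ 4 := fun x => by ring
    simp only [h2]
    rw [integral_const_mul]
    ring
  have i1 : Integrable (fun x => g0 x ^ 2 * f x) m :=
    h.lim.integrable_mul (φ := fun t => t) continuous_id hGi
  have i2 : Integrable (fun x => g0 x ^ 2 * f x ^ 2) m :=
    h.lim.integrable_mul (φ := fun t => t ^ 2) (by fun_prop) hGi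
  set G4 := ∫ x, g0 x ^ 4 ∂m with hG4
  have hG4n : 0 ≤ G4 := integral_nonneg fun x => by positivity
  set E := ∫ x, g0 x ^ 2 ∂m with hE
  set M := ∫ x, g0 x ^ 2 * f x ^ 2 ∂m with hM
  -- key inequality for small δ
  have key : ∀ᶠ δ in 𝓝[>] (0 : ℝ), (1 - δ * (B + 3 / (4 * N * c))) * G4 ≤
      (N + 2) * (M + δ * (B ^ 3 * E)) := by
    have c1 : Ioo (0 : ℝ) (N * c / 2) ∈ 𝓝[>] (0 : ℝ) := Ioo_mem_nhdsGT (by positivity)
    have c2 : Ioo (0 : ℝ) (1 / B) ∈ 𝓝[>] (0 : ℝ) := Ioo_mem_nhdsGT (by positivity)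
    filter_upwards [c1, c2] with δ h1 h2
    have hδ := h1.1
    have hδB : δ * B ≤ 1 := by
      have := h2.2
      rw [lt_div_iff₀ hB] at this
      exact this.le
    have hp : FluxPar N B c δ := ⟨hN, hB, hcpos, hδ, by
      rw [hc]; apply le_of_eq; field_simp, h1.2.le⟩
    have hfl := flux_lim hcd h hp h4
    have hfI : ∀ x, f x ∈ Icc (-B) B := fun x => abs_le.mp (h.lim.bound x)
    -- left lower bound
    have L1 : (1 - δ * (B + 3 / (4 * N * c))) * G4 ≤
        ∫ x, Real.exp (δ * f x) * (1 - δ / (2 * N * c) * fP N c (f x)) * g0 x ^ 4 ∂m := by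
      rw [hG4, ← integral_const_mul]
      refine integral_mono (h4.const_mul _) ?_ fun x => ?_
      · have := h.lim.integrable_mul (φ := fun t => Real.exp (δ * t) *
          (1 - δ / (2 * N * c) * fP N c t)) (by unfold fP; fun_prop) h4
        convert this using 2
        ring
      · refine mul_le_mul_of_nonneg_right ?_ (by positivity)
        have hP := fP_bounds hp (hfI x)
        have hx := h.lim.bound x
        have e1 : 1 - δ * B ≤ Real.exp (δ * f x) := by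
          have t1 := Real.add_one_le_exp (δ * f x)
          have t2 : -(δ * B) ≤ δ * f x := by
            have := (abs_le.mp hx).1
            nlinarith
          linarith
        have e2 : 1 - δ * (3 / (4 * N * c)) ≤ 1 - δ / (2 * N * c) * fP N c (f x) := by
          have t3 : δ / (2 * N * c) * fP N c (f x) ≤ δ / (2 * N * c) * (3 / 2) :=
            mul_le_mul_of_nonneg_left hP.2 (by positivity)
          have t4 : δ / (2 * N * c) * (3 / 2) = δ * (3 / (4 * N * c)) := by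
            field_simp
            ring
          linarith
        have e3 : 0 ≤ 1 - δ * (3 / (4 * N * c)) := by
          have t5 : δ * (3 / (4 * N * c)) ≤ N * c / 2 * (3 / (4 * N * c)) :=
            mul_le_mul_of_nonneg_right h1.2.le (by positivity)
          have t6 : N * c / 2 * (3 / (4 * N * c)) = 3 / 8 := by field_simp; norm_num
          linarith
        have e4 : 0 ≤ 1 - δ * B := by linarith
        calc 1 - δ * (B + 3 / (4 * N * c)) ≤ (1 - δ * B) * (1 - δ * (3 / (4 * N * c))) := by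
              have : 0 ≤ δ * B * (δ * (3 / (4 * N * c))) := by positivity
              nlinarith
          _ ≤ Real.exp (δ * f x) * (1 - δ / (2 * N * c) * fP N c (f x)) :=
              mul_le_mul e1 e2 e3 (Real.exp_pos _).le
    -- right upper bound
    have R1 : ∫ x, g0 x ^ 2 * f x * Real.exp (δ * f x) ∂m ≤ δ * (M + δ * (B ^ 3 * E)) := by
      have e0 : δ * (M + δ * (B ^ 3 * E)) = ∫ x, (g0 x ^ 2 * f x +
          (δ * (g0 x ^ 2 * f x ^ 2) + δ ^ 2 * B ^ 3 * g0 x ^ 2)) ∂m := by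
        have j1 : Integrable (fun x => δ * (g0 x ^ 2 * f x ^ 2) + δ ^ 2 * B ^ 3 * g0 x ^ 2) m :=
          (i2.const_mul δ).add (hGi.const_mul _)
        rw [integral_add i1 j1, integral_add (i2.const_mul δ) (hGi.const_mul _),
          integral_const_mul, integral_const_mul, m1]
        ring
      rw [e0]
      refine integral_mono ?_ (i1.add ((i2.const_mul δ).add (hGi.const_mul _))) fun x => ?_
      · have := h.lim.integrable_mul (φ := fun t => t * Real.exp (δ * t)) (by fun_prop) hGi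
        convert this using 2
        ring
      · have hx := h.lim.bound x
        have t1 : |δ * f x| ≤ 1 := by
          rw [abs_mul, abs_of_pos hδ]
          exact (mul_le_mul_of_nonneg_left hx hδ.le).trans hδB
        have t2 := Real.abs_exp_sub_one_sub_id_le t1
        have t3 : f x * (Real.exp (δ * f x) - 1 - δ * f x) ≤ B * (δ ^ 2 * B ^ 2) := by
          refine (le_abs_self _).trans ?_
          rw [abs_mul]
          refine mul_le_mul hx (t2.trans ?_) (abs_nonneg _) hB.le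
          rw [mul_pow]
          refine mul_le_mul_of_nonneg_left ?_ (sq_nonneg _)
          exact sq_le_sq' (abs_le.mp hx).1 (abs_le.mp hx).2
        have t4 : 0 ≤ g0 x ^ 2 := sq_nonneg _
        simp only
        nlinarith
    have h5 : δ * ((1 - δ * (B + 3 / (4 * N * c))) * G4) ≤
        δ * ((N + 2) * (M + δ * (B ^ 3 * E))) := by
      calc δ * ((1 - δ * (B + 3 / (4 * N * c))) * G4) ≤ δ *
            ∫ x, Real.exp (δ * f x) * (1 - δ / (2 * N * c) * fP N c (f x)) * g0 x ^ 4 ∂m :=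
              mul_le_mul_of_nonneg_left L1 hδ.le
        _ ≤ (N + 2) * ∫ x, g0 x ^ 2 * f x * Real.exp (δ * f x) ∂m := hfl
        _ ≤ (N + 2) * (δ * (M + δ * (B ^ 3 * E))) :=
              mul_le_mul_of_nonneg_left R1 (by linarith)
        _ = _ := by ring
    exact le_of_mul_le_mul_left h5 hδ
  -- limit
  have l1 : Tendsto (fun δ : ℝ => (1 - δ * (B + 3 / (4 * N * c))) * G4) (𝓝[>] 0) (𝓝 G4) := by
    have hc : Continuous fun δ : ℝ => (1 - δ * (B + 3 / (4 * N * c))) * G4 := by fun_prop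
    have := (hc.tendsto 0).mono_left (nhdsWithin_le_nhds (s := Ioi (0 : ℝ)))
    simpa using this
  have l2 : Tendsto (fun δ : ℝ => (N + 2) * (M + δ * (B ^ 3 * E))) (𝓝[>] 0)
      (𝓝 ((N + 2) * M)) := by
    have hc : Continuous fun δ : ℝ => (N + 2) * (M + δ * (B ^ 3 * E)) := by fun_prop
    have := (hc.tendsto 0).mono_left (nhdsWithin_le_nhds (s := Ioi (0 : ℝ)))
    simpa using this
  have := le_of_tendsto_of_tendsto l1 l2 key
  rw [m2] at this
  calc G4 ≤ (N + 2) * (N / 3 * ∫ x, f x ^ 4 ∂m) := this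
    _ = _ := by ring

end H13CD
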