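import Pool.Agent.Helper13.CD.FourthCalc
import Pool.Agent.Helper13.CD.DILim
import Pool.Agent.Helper33.CD.FourthF

/-!
# Module N: third and fourth order information at an extremal function

Let `P, Q, η` as in `FourthCalc`, `U t = P ε t ^(-1/(N-1))`, `ρ0 = U(f)^(-N) = P(f)^q`,
`M0 = ∫ρ0`, `ρ1 = M0 Q(f)` (mass `M0` because `∫f²=1`), `u1 = ρ1^(-1/N)`, `u0 = U(f)`.
`U' ρ0 = V := ε - (3N-1)/3 ε² f` (`> 0` for small `ε`).  `Ent ρ0 = ∫P(f) = 1+ηε²`.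

`DI_lim`: optimal `P'`, `a = d(x,y)`, `G = g0²`, `p = 1-1/N`:
`Ent ρ1 - Ent ρ0 + ∫ [(p/2) a² w + a⁴ (κ1 u1(y) + (p/45) u0(x))] dP' ≤ p ∫ (V/ρ0)(x) g0(x) a dP'`,
`w = (u1(y)+2u0(x))/3`, `κ1 = p/180+p²/72`, `κ = κ1+p/45 = p(p+2)/72 = (N-1)(3N-1)/(72N²)`.
Complete the square: `p (V/ρ0) g0 a - (p/2) a² w = (p/2)[V²G/(ρ0²w) - w (a - V g0/(ρ0 w))²]`:
(2) `E + κ(1-Cε) ∫ a⁴ dP' + (p/2) ∫ w (a - V g0/(ρ0w))² dP' ≤ (p/2) ∫ V²G/(ρ0²w) dP'`,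
`E = Ent ρ1 - Ent ρ0` (`ent_expansion`), and by `w_expansion`, since the first marginal is `ρ0 m`,
right side `= (p/2) ε² [∫G - Nε∫fG + ε²(-(N(3N-2)/6)∫f²G + ((3N+2)/18-1/(18N))∫G
   + (1/(18N)) ∫ (G/ρ0)(x) f(y)² dP')] + O(ε⁵)`.
`el2`: `∫G = N`, `∫fG = N m3/2`, `∫f²G = N m4/3`.
* Order `ε²` cancels.  Order `ε³`: `-m3 (N-1)(N+2)/12 ε³ ≤ O(ε⁴)`, so `m3 ≥ 0`; for `-f`: `m3 ≤ 0`.
  So `m3 = 0`.
* Now `κ(1-Cε)∫a⁴ + (p/2)∫ w (a-Vg0/(ρ0w))² ≤ C ε⁴`; so `∫ (a/ε - g0(x))² dP' → 0`, and for every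
  bounded measurable `T ≥ 0`, `ε⁻⁴∫a⁴ ≥ ∫ (2 (a/ε)² T - T²) dP' → ∫ (2GT-T²) dm`; with
  `T = min(G,n)`: `∫ G² < ∞` and `liminf ε⁻⁴∫a⁴dP' ≥ ∫G²`.
* `∫ (G/ρ0)(x) f(y)² dP' → ∫ G f²` (cost `→ 0`; `near_diag`, truncate `G`).
* Order `ε⁴`: `κ ∫G² + E4 - T4 ≤ 0`, and this is exactly
  `κ [(3N+1) Z - 3N D] ≤ 0`, `Z = ∫G²+(2N/3+1)m4-(N+1)²`, `D = ∫G² - N(N+2)/3 m4`.
-/

open MeasureTheory Set Filter Topology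
open scoped ENNReal NNReal

namespace H13CD

variable {X : Type*} [MetricSpace X] [CompactSpace X] [MeasurableSpace X] [BorelSpace X]
  {m : Measure X} [IsProbabilityMeasure m]

/-- the inequality (2) -/
theorem fourth_ineq {N : ℝ} (hN : 1 < N) (hcd : CDr m N) {B : ℝ} (hB : 0 < B) {f g0 : X → ℝ}
    (h : Extremal m N B f g0) :
    ∃ C > 0, ∃ ε0 > 0, ∀ ε ∈ Ioo (0 : ℝ) ε0, ∃ P : Measure (X × X),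
      Cpl P (dens m fun x => qP N ε (f x) ^ (N / (N - 1)))
        (dens m fun x => (∫ y, qP N ε (f y) ^ (N / (N - 1)) ∂m) * qQ ε (f x)) ∧ IsOpt P ∧
      ((∫ x, qP N ε (f x) ^ (N / (N - 1)) ∂m) ^ (1 - 1 / N) * ∫ x, qQ ε (f x) ^ (1 - 1 / N) ∂m -
          (1 + (N - 1) * (3 * N - 1) / 6 * ε ^ 2)) +
        (1 - 1 / N) * (3 - 1 / N) / 72 * (1 - C * ε) * ∫ z, dist z.1 z.2 ^ 4 ∂P +
        (1 - 1 / N) / 4 * ∫ z, (dist z.1 z.2 -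
          (ε - (3 * N - 1) / 3 * ε ^ 2 * f z.1) * g0 z.1 / (qP N ε (f z.1) ^ (N / (N - 1)) *
            ((((∫ y, qP N ε (f y) ^ (N / (N - 1)) ∂m) * qQ ε (f z.2)) ^ (-(1 / N)) +
              2 * qP N ε (f z.1) ^ (-(1 / (N - 1)))) / 3))) ^ 2 ∂P
      ≤ (1 - 1 / N) / 2 * (ε ^ 2 * ∫ x, g0 x ^ 2 ∂m - N * ε ^ 3 * ∫ x, f x * g0 x ^ 2 ∂m +
          ε ^ 4 * (-(N * (3 * N - 2) / 6) * ∫ x, f x ^ 2 * g0 x ^ 2 ∂m +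
            ((3 * N + 2) / 18 - 1 / (18 * N)) * ∫ x, g0 x ^ 2 ∂m +
            1 / (18 * N) * ∫ z, g0 z.1 ^ 2 / qP N ε (f z.1) ^ (N / (N - 1)) * f z.2 ^ 2 ∂P)) +
        C * ε ^ 5 :=
  h33_fourth_ineq hN hcd hB h

theorem third_moment {N : ℝ} (hN : 1 < N) (hcd : CDr m N) {B : ℝ} (hB : 0 < B) {f g0 : X → ℝ}
    (h : Extremal m N B f g0) : ∫ x, f x ^ 3 ∂m = 0 := by
  refine le_antisymm ?_ (h33_m3_nonneg hN hcd hB h)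
  have h1 := h33_m3_nonneg hN hcd hB (h33_neg h)
  have e1 : ∫ x, (-f x) ^ 3 ∂m = -∫ x, f x ^ 3 ∂m := by
    rw [← integral_neg]
    refine integral_congr_ae (ae_of_all _ fun x => ?_)
    simp only []
    ring
  rw [e1] at h1
  linarith

theorem fourth {N : ℝ} (hN : 1 < N) (hcd : CDr m N) {B : ℝ} (hB : 0 < B) {f g0 : X → ℝ}
    (h : Extremal m N B f g0) :
    Integrable (fun x => g0 x ^ 4) m ∧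
      (3 * N + 1) * (∫ x, g0 x ^ 4 ∂m + (2 * N / 3 + 1) * ∫ x, f x ^ 4 ∂m - (N + 1) ^ 2) ≤
        3 * N * (∫ x, g0 x ^ 4 ∂m - N * (N + 2) / 3 * ∫ x, f x ^ 4 ∂m) :=
  h33_fourth hN hcd hB h

end H13CD
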