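import Pool.Agent.Helper13.CD.Chain
import Pool.Agent.Helper13.CD.Extremal2
import Pool.Agent.Helper13.CD.Fourth
import Pool.Agent.Helper13.CD.FluxLim
import Pool.Agent.Helper13.CD.Aux13

/-!
# Module P: conclusion in the reduced setting

Let `f` be extremal with `g0² = b² - f²` a.e., `b² = N+1`.
* `|f| ≤ b` a.e.; by `PreExt.extremal`-type truncation we may take the approximants bounded by `b`.
* `esssup f = b`: suppose `f ≤ b' < b` a.e.  `el2` with (a `C¹` extension beyond `b'` of)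
  `Φ t = (b+t)(b-t)^(-N/2)`: `(b²-t²)Φ' - NtΦ = (1+N/2)(b+t)(b-t)^(1-N/2) ≥ 0`, so
  `f = -b` a.e., contradicting `∫f=0`.  Same for `-f`: `essinf f = -b`.
* Let `κ ∈ (0,1)`, `Ψ t = arcsin (κt/b)`, `gn = Ψ ∘ fn` (`|fn| ≤ b`), `g = Ψ∘f`.
  `lip gn ≤ (κ/√(b²-κ²fn²)) lip fn → κ√(b²-f²)/√(b²-κ²f²) ≤ κ` in `L²(m)`, so
  `∫ (lip gn - κ)_+ → 0`.
* `η > 0`, `ρ0, ρ1` normalised indicators of `{f>b-η}`, `{f<-b+η}`, `C0` a bound.  `chain` with
  `D = diam X`: `∫gnρ0-∫gnρ1 ≤ D ∫ Sr r gn ρ ≤ D(κ + C0∫(Sr r gn - κ)_+ dm)`; let `r → 0`, then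
  `n → ∞`: `2 arcsin(κ(1-η/b)) ≤ D κ`.  `η → 0`, `κ → 1`: `π ≤ D`.
-/

open MeasureTheory Set Filter Topology
open scoped ENNReal NNReal

namespace H13CD

variable {X : Type*} [MetricSpace X] [CompactSpace X] [MeasurableSpace X] [BorelSpace X]
  {m : Measure X} [IsProbabilityMeasure m]

/-- `C¹` extension of a function beyond a point -/
theorem exists_C1_ext {φ φ' : ℝ → ℝ} {b b' : ℝ} (hb : b' < b)
    (hφ : ∀ t < b, HasDerivAt φ (φ' t) t) (hc : ContinuousOn φ' (Iio b)) :
    ∃ Φ : ℝ → ℝ, (∀ t, HasDerivAt Φ (φ' (min t b')) t) ∧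
      Continuous (fun t => φ' (min t b')) ∧ ∀ t ≤ b', Φ t = φ t := by
  have hcont : Continuous fun t => φ' (min t b') := by
    rw [← continuousOn_univ]
    refine hc.comp (by fun_prop) fun t _ => ?_
    exact (min_le_right t b').trans_lt hb
  refine ⟨fun t => φ b' + ∫ s in b'..t, φ' (min s b'), fun t => ?_, hcont, fun t ht => ?_⟩
  · have := (hcont.integral_hasStrictDerivAt b' t).hasDerivAt
    exact this.const_add _
  · have h1 : ∫ s in b'..t, φ' (min s b') = φ t - φ b' := by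
      have h2 : ∫ s in b'..t, φ' (min s b') = ∫ s in b'..t, φ' s := by
        refine intervalIntegral.integral_congr fun s hs => ?_
        rw [uIcc_of_ge ht] at hs
        rw [min_eq_left hs.2]
      rw [h2]
      refine intervalIntegral.integral_eq_sub_of_hasDerivAt (fun s hs => ?_) ?_
      · rw [uIcc_of_ge ht] at hs
        exact hφ s (hs.2.trans_lt hb)
      · refine ContinuousOn.intervalIntegrable (hc.mono fun s hs => ?_)
        rw [uIcc_of_ge ht] at hs
        exact hs.2.trans_lt hb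
    show φ b' + ∫ s in b'..t, φ' (min s b') = φ t
    rw [h1]; ring

theorem law_reaches {N B : ℝ} (hN : 1 < N) {f g0 : X → ℝ} (h : Extremal m N B f g0)
    (hG : ∀ᵐ x ∂m, g0 x ^ 2 = N + 1 - f x ^ 2) {η : ℝ} (hη : 0 < η) :
    0 < m {x | √(N + 1) - η < f x} := by
  by_contra hcon
  have h0 : m {x | √(N + 1) - η < f x} = 0 := by simpa using hcon
  set b := √(N + 1) with hb
  have hbpos : 0 < b := Real.sqrt_pos.mpr (by linarith)
  have hb2 : b ^ 2 = N + 1 := Real.sq_sqrt (by linarith)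
  have hle : ∀ᵐ x ∂m, f x ≤ b - η := by
    rw [ae_iff]
    convert h0 using 2
    ext x; simp
  set b' := b - η with hb'
  have hb'b : b' < b := by linarith
  -- the test function
  set φ : ℝ → ℝ := fun t => (b + t) * (b - t) ^ (-(N / 2)) with hφ
  set φ' : ℝ → ℝ := fun t => (b - t) ^ (-(N / 2)) + (N / 2) * (b + t) * (b - t) ^ (-(N / 2) - 1)
    with hφ'
  have hder : ∀ t < b, HasDerivAt φ (φ' t) t := by
    intro t ht
    have h1 : HasDerivAt (fun t => b + t) 1 t := by
      simpa using (hasDerivAt_id t).const_add b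
    have h2 : HasDerivAt (fun t => b - t) (-1) t := by
      simpa using (hasDerivAt_id t).const_sub b
    have hne : b - t ≠ 0 := (sub_pos.mpr ht).ne'
    have h3 : HasDerivAt (fun t => (b - t) ^ (-(N / 2)))
        (-1 * (-(N / 2)) * (b - t) ^ (-(N / 2) - 1)) t :=
      h2.rpow_const (Or.inl hne)
    refine (h1.mul h3).congr_deriv ?_
    simp only [hφ']
    ring
  have hcont : ContinuousOn φ' (Iio b) := by
    intro t ht
    have hne : b - t ≠ 0 := (sub_pos.mpr ht).ne'
    refine ContinuousAt.continuousWithinAt ?_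
    refine ContinuousAt.add (ContinuousAt.rpow_const (by fun_prop) (Or.inl hne)) ?_
    exact ContinuousAt.mul (by fun_prop) (ContinuousAt.rpow_const (by fun_prop) (Or.inl hne))
  obtain ⟨Φ, hΦ1, hΦ2, hΦ3⟩ := exists_C1_ext hb'b hder hcont
  have key := h.el2 Φ (fun t => φ' (min t b')) hΦ1 hΦ2
  have hΦc : Continuous Φ := continuous_iff_continuousAt.mpr fun t => (hΦ1 t).continuousAt
  -- bounds for integrability
  obtain ⟨C1, hC1⟩ : ∃ C, ∀ t ∈ Icc (-B) B, ‖Φ t‖ ≤ C :=
    isCompact_Icc.exists_bound_of_continuousOn hΦc.continuousOn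
  obtain ⟨C2, hC2⟩ : ∃ C, ∀ t ∈ Icc (-B) B, ‖φ' (min t b')‖ ≤ C :=
    isCompact_Icc.exists_bound_of_continuousOn hΦ2.continuousOn
  have hfB : ∀ x, f x ∈ Icc (-B) B := fun x => abs_le.mp (h.lim.bound x)
  have i1 : Integrable (fun x => f x * Φ (f x)) m := by
    refine Integrable.of_bound (C := B * C1)
      (h.lim.meas.mul (hΦc.measurable.comp h.lim.meas)).aestronglyMeasurable
      (Eventually.of_forall fun x => ?_)
    rw [norm_mul]
    exact mul_le_mul (h.lim.bound x) (hC1 _ (hfB x)) (norm_nonneg _)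
      ((abs_nonneg _).trans (h.lim.bound x))
  have i2 : Integrable (fun x => g0 x ^ 2 * φ' (min (f x) b')) m :=
    h.lim.gL2.mul_bdd (c := C2) (hΦ2.measurable.comp h.lim.meas).aestronglyMeasurable
      (Eventually.of_forall fun x => hC2 _ (hfB x))
  have h5 : ∫ x, (g0 x ^ 2 * φ' (min (f x) b') - N * (f x * Φ (f x))) ∂m = 0 := by
    rw [integral_sub i2 (i1.const_mul N), integral_const_mul]
    linarith
  have h6 : ∀ᵐ x ∂m, g0 x ^ 2 * φ' (min (f x) b') - N * (f x * Φ (f x)) =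
      (1 + N / 2) * (b + f x) * (b - f x) ^ (1 - N / 2) := by
    filter_upwards [hG, hle] with x hx1 hx2
    have hpos : 0 < b - f x := by linarith
    rw [min_eq_left hx2, hΦ3 _ hx2, hx1]
    simp only [hφ, hφ']
    have e1 : (b - f x) ^ (-(N / 2) - 1) = (b - f x) ^ (-(N / 2)) / (b - f x) := by
      rw [Real.rpow_sub_one hpos.ne']
    have e2 : (b - f x) ^ (1 - N / 2) = (b - f x) ^ (-(N / 2)) * (b - f x) := by
      rw [show 1 - N / 2 = -(N / 2) + 1 by ring, Real.rpow_add_one hpos.ne']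
    rw [e1, e2, ← hb2]
    field_simp
    ring
  have hfb : ∀ᵐ x ∂m, -b ≤ f x := by
    filter_upwards [hG] with x hx
    have : f x ^ 2 ≤ N + 1 := by nlinarith [sq_nonneg (g0 x)]
    exact (abs_le.mp (Real.abs_le_sqrt this)).1
  have h7 : (fun x => g0 x ^ 2 * φ' (min (f x) b') - N * (f x * Φ (f x))) =ᵐ[m] 0 := by
    refine (integral_eq_zero_iff_of_nonneg_ae ?_ (i2.sub (i1.const_mul N))).mp h5
    filter_upwards [h6, hle, hfb] with x hx1 hx2 hx3
    show 0 ≤ g0 x ^ 2 * φ' (min (f x) b') - N * (f x * Φ (f x))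
    rw [hx1]
    have : 0 < b - f x := by linarith
    have h8 : 0 ≤ b + f x := by linarith
    positivity
  have h8 : ∀ᵐ x ∂m, f x = -b := by
    filter_upwards [h6, h7, hle] with x hx1 hx2 hx3
    have hpos : 0 < b - f x := by linarith
    have h9 : (1 + N / 2) * (b + f x) * (b - f x) ^ (1 - N / 2) = 0 := by
      rw [← hx1]; exact hx2
    have h10 : (b - f x) ^ (1 - N / 2) ≠ 0 := (Real.rpow_pos_of_pos hpos _).ne'
    have h11 : (1 + N / 2) ≠ 0 := by positivity
    rcases mul_eq_zero.mp h9 with h12 | h12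
    · rcases mul_eq_zero.mp h12 with h13 | h13
      · exact absurd h13 h11
      · linarith
    · exact absurd h12 h10
  have h9 : ∫ x, f x ∂m = -b := by
    rw [integral_congr_ae h8]
    simp
  rw [h.mean] at h9
  linarith


/-- arcsin is Lipschitz away from the endpoints -/
theorem arcsin_lip {κ : ℝ} (h1 : κ < 1) :
    ∃ L : ℝ, 0 ≤ L ∧ ∀ u ∈ Icc (-κ) κ, ∀ v ∈ Icc (-κ) κ,
      |Real.arcsin u - Real.arcsin v| ≤ L * |u - v| := by
  refine ⟨(√(1 - κ ^ 2))⁻¹, by positivity, fun u hu v hv => ?_⟩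
  have hκ : 0 ≤ κ := by linarith [hu.1, hu.2]
  have hpos : 0 < √(1 - κ ^ 2) := Real.sqrt_pos.mpr (by nlinarith)
  have := Convex.norm_image_sub_le_of_norm_hasDerivWithin_le (f := Real.arcsin)
    (f' := fun x => 1 / √(1 - x ^ 2)) (s := Icc (-κ) κ) (C := (√(1 - κ ^ 2))⁻¹) (x := v) (y := u)
    (fun x hx => ((Real.hasDerivAt_arcsin (by linarith [hx.1]) (by linarith [hx.2])
      ).hasDerivWithinAt)) (fun x hx => ?_) (convex_Icc _ _) hv hu
  · simpa [Real.norm_eq_abs] using this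
  · have h2 : x ^ 2 ≤ κ ^ 2 := sq_le_sq' hx.1 hx.2
    have h3 : √(1 - κ ^ 2) ≤ √(1 - x ^ 2) := Real.sqrt_le_sqrt (by linarith)
    rw [Real.norm_eq_abs, abs_of_nonneg (by positivity), one_div]
    exact inv_anti₀ hpos h3

/-- passing to the limit `r → 0` in `chain` -/
theorem chain_lip {N : ℝ} (hN : 1 < N) (hcd : CDr m N) {C0 : ℝ} {g : X → ℝ} {K : ℝ≥0}
    (hg : LipschitzWith K g) {ρ0 ρ1 : X → ℝ} {κ : ℝ} (hκ : 0 ≤ κ)
    (h0m : Measurable ρ0) (h1m : Measurable ρ1)
    (h0 : ∀ x, 0 ≤ ρ0 x ∧ ρ0 x ≤ C0) (h1 : ∀ x, 0 ≤ ρ1 x ∧ ρ1 x ≤ C0)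
    (hi0 : ∫ x, ρ0 x ∂m = 1) (hi1 : ∫ x, ρ1 x ∂m = 1) :
    ∫ x, g x * ρ0 x ∂m - ∫ x, g x * ρ1 x ∂m ≤
      Metric.diam (univ : Set X) * (κ + C0 * ∫ x, max (lip g x - κ) 0 ∂m) := by
  set D := Metric.diam (univ : Set X) with hD
  have hD0 : 0 ≤ D := Metric.diam_nonneg
  have hdist : ∀ x y : X, dist x y ≤ D := fun x y =>
    Metric.dist_le_diam_of_mem isCompact_univ.isBounded (mem_univ _) (mem_univ _)
  have hC0 : 0 ≤ C0 := by
    obtain ⟨x⟩ : Nonempty X := nonempty_of_isProbabilityMeasure m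
    exact (h0 x).1.trans (h0 x).2
  have step : ∀ r > 0, ∫ x, g x * ρ0 x ∂m - ∫ x, g x * ρ1 x ∂m ≤
      D * (κ + C0 * ∫ x, max (Sr r g x - κ) 0 ∂m) := by
    intro r hr
    obtain ⟨ρ, hρm, hρ, hρ1, hle⟩ := chain hN hcd hg hr h0m h1m h0 h1 hi0 hi1 hD0
      (fun P _ _ => Eventually.of_forall fun z => hdist _ _)
    refine hle.trans (mul_le_mul_of_nonneg_left ?_ hD0)
    have hSm := measurable_Sr hg r
    have iρ : Integrable ρ m := Integrable.of_bound (C := C0) hρm.aestronglyMeasurable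
      (Eventually.of_forall fun x => by
        rw [Real.norm_eq_abs, abs_of_nonneg (hρ x).1]; exact (hρ x).2)
    have iM : Integrable (fun x => max (Sr r g x - κ) 0) m :=
      Integrable.of_bound (C := K) ((hSm.sub_const κ).max measurable_const).aestronglyMeasurable
      (Eventually.of_forall fun x => by
        rw [Real.norm_eq_abs, abs_of_nonneg (le_max_right _ _)]
        exact max_le (by linarith [Sr_le hg r x]) K.2)
    calc ∫ x, Sr r g x * ρ x ∂m ≤ ∫ x, (κ * ρ x + C0 * max (Sr r g x - κ) 0) ∂m := by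
          refine integral_mono_of_nonneg (Eventually.of_forall fun x =>
            mul_nonneg (Sr_nonneg _ _ _) (hρ x).1) ((iρ.const_mul κ).add (iM.const_mul C0))
            (Eventually.of_forall fun x => ?_)
          simp only
          have h2 : Sr r g x - κ ≤ max (Sr r g x - κ) 0 := le_max_left _ _
          have h3 : 0 ≤ max (Sr r g x - κ) 0 := le_max_right _ _
          nlinarith [(hρ x).1, (hρ x).2, mul_le_mul_of_nonneg_right h2 (hρ x).1,
            mul_le_mul_of_nonneg_left (hρ x).2 h3]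
      _ = κ + C0 * ∫ x, max (Sr r g x - κ) 0 ∂m := by
          rw [integral_add (iρ.const_mul κ) (iM.const_mul C0), integral_const_mul,
            integral_const_mul, hρ1, mul_one]
  have hlim : Tendsto (fun n : ℕ => D * (κ + C0 * ∫ x, max (Sr (1 / ((n : ℝ) + 1)) g x - κ) 0 ∂m))
      atTop (𝓝 (D * (κ + C0 * ∫ x, max (lip g x - κ) 0 ∂m))) := by
    refine Tendsto.const_mul _ (Tendsto.const_add _ (Tendsto.const_mul _ ?_))
    refine tendsto_integral_of_dominated_convergence (fun _ => (K : ℝ)) (fun n => ?_)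
      (integrable_const _) (fun n => Eventually.of_forall fun x => ?_)
      (Eventually.of_forall fun x => ?_)
    · exact (((measurable_Sr hg _).sub_const κ).max measurable_const).aestronglyMeasurable
    · rw [Real.norm_eq_abs, abs_of_nonneg (le_max_right _ _)]
      exact max_le (by linarith [Sr_le hg (1 / ((n : ℝ) + 1)) x]) K.2
    · have h2 := tendsto_Sr hg (rn := fun n : ℕ => 1 / ((n : ℝ) + 1)) (fun n => by positivity)
        tendsto_one_div_add_atTop_nhds_zero_nat x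
      exact (h2.sub_const κ).max tendsto_const_nhds
  exact ge_of_tendsto' hlim fun n => step _ (by positivity)


theorem psi_lip {κ b : ℝ} (hκ : κ ∈ Ioo (0 : ℝ) 1) (hb : 0 < b) :
    ∃ L C : ℝ, 0 ≤ L ∧ 0 ≤ C ∧ (∀ s ∈ Icc (-b) b, κ / √(b ^ 2 - κ ^ 2 * s ^ 2) ≤ C) ∧
      ∀ s ∈ Icc (-b) b, ∀ t ∈ Icc (-b) b,
      |κ / √(b ^ 2 - κ ^ 2 * s ^ 2) - κ / √(b ^ 2 - κ ^ 2 * t ^ 2)| ≤ L * |s - t| := by
  obtain ⟨h0, h1⟩ := hκ
  have hκ2 : κ ^ 2 < 1 := by nlinarith
  set β := b * √(1 - κ ^ 2) with hβ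
  have hβpos : 0 < β := mul_pos hb (Real.sqrt_pos.mpr (by linarith))
  have hβ2 : β ^ 2 = b ^ 2 * (1 - κ ^ 2) := by
    rw [hβ, mul_pow, Real.sq_sqrt (by linarith)]
  have hB : ∀ s ∈ Icc (-b) b, β ^ 2 ≤ b ^ 2 - κ ^ 2 * s ^ 2 := by
    intro s hs
    have : s ^ 2 ≤ b ^ 2 := sq_le_sq' hs.1 hs.2
    rw [hβ2]; nlinarith [sq_nonneg κ]
  have hsq : ∀ s ∈ Icc (-b) b, β ≤ √(b ^ 2 - κ ^ 2 * s ^ 2) := fun s hs =>
    Real.le_sqrt_of_sq_le (hB s hs)
  refine ⟨κ * (κ ^ 2 * b / β) / (β * β), κ / β, by positivity, by positivity, fun s hs => ?_,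
    fun s hs t ht => ?_⟩
  · exact div_le_div_of_nonneg_left h0.le hβpos (hsq s hs)
  · set u := √(b ^ 2 - κ ^ 2 * s ^ 2) with hu
    set v := √(b ^ 2 - κ ^ 2 * t ^ 2) with hv
    have hus : β ≤ u := hsq s hs
    have hvs : β ≤ v := hsq t ht
    have hupos : 0 < u := hβpos.trans_le hus
    have hvpos : 0 < v := hβpos.trans_le hvs
    have hu2 : u ^ 2 = b ^ 2 - κ ^ 2 * s ^ 2 := Real.sq_sqrt ((sq_nonneg β).trans (hB s hs))
    have hv2 : v ^ 2 = b ^ 2 - κ ^ 2 * t ^ 2 := Real.sq_sqrt ((sq_nonneg β).trans (hB t ht))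
    have h3 : |v - u| ≤ κ ^ 2 * b / β * |s - t| := by
      have h4 : (v - u) * (v + u) = κ ^ 2 * (s - t) * (s + t) := by nlinarith
      have h5 : |v - u| * (v + u) = κ ^ 2 * |s - t| * |s + t| := by
        have := congrArg abs h4
        rwa [abs_mul, abs_mul, abs_mul, abs_of_pos (by linarith : 0 < v + u),
          abs_of_nonneg (sq_nonneg κ)] at this
      have h6 : |s + t| ≤ 2 * b := by
        rw [abs_le]; constructor <;> linarith [hs.1, hs.2, ht.1, ht.2]
      have h7 : |v - u| * (2 * β) ≤ κ ^ 2 * |s - t| * (2 * b) := by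
        calc |v - u| * (2 * β) ≤ |v - u| * (v + u) :=
              mul_le_mul_of_nonneg_left (by linarith) (abs_nonneg _)
          _ = κ ^ 2 * |s - t| * |s + t| := h5
          _ ≤ _ := mul_le_mul_of_nonneg_left h6 (by positivity)
      rw [div_mul_eq_mul_div, le_div_iff₀ hβpos]
      nlinarith
    have h8 : κ / u - κ / v = κ * (v - u) / (u * v) := by
      field_simp
    rw [h8, abs_div, abs_mul, abs_of_pos h0, abs_of_pos (mul_pos hupos hvpos)]
    calc κ * |v - u| / (u * v) ≤ κ * (κ ^ 2 * b / β * |s - t|) / (β * β) := by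
          refine div_le_div₀ (by positivity) (mul_le_mul_of_nonneg_left h3 h0.le)
            (by positivity) (mul_le_mul hus hvs hβpos.le hupos.le)
      _ = _ := by ring

theorem diam_step {N : ℝ} (hN : 1 < N) (hcd : CDr m N) {f g0 : X → ℝ}
    (h : Extremal m N (√(N + 1)) f g0) (hG : ∀ᵐ x ∂m, g0 x ^ 2 = N + 1 - f x ^ 2)
    {κ : ℝ} (hκ : κ ∈ Ioo (0 : ℝ) 1) :
    2 * Real.arcsin (κ * κ) ≤ Metric.diam (univ : Set X) * κ := by
  obtain ⟨hκ0, hκ1⟩ := hκ
  set b := √(N + 1) with hb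
  have hbpos : 0 < b := Real.sqrt_pos.mpr (by linarith)
  have hb2 : b ^ 2 = N + 1 := Real.sq_sqrt (by linarith)
  obtain ⟨fn, hL, hbd, hf2, hg2⟩ := h.lim.approx
  set D := Metric.diam (univ : Set X) with hD
  have hD0 : 0 ≤ D := Metric.diam_nonneg
  -- sets
  set A0 : Set X := {x | κ * b < f x} with hA0
  set A1 : Set X := {x | κ * b < - f x} with hA1
  have hA0m : MeasurableSet A0 := measurableSet_lt measurable_const h.lim.meas
  have hA1m : MeasurableSet A1 := measurableSet_lt measurable_const h.lim.meas.neg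
  have hp0 : 0 < m A0 := by
    have := law_reaches hN h hG (η := (1 - κ) * b) (mul_pos (by linarith) hbpos)
    have e : √(N + 1) - (1 - κ) * b = κ * b := by rw [← hb]; ring
    rw [e] at this
    exact this
  have hp1 : 0 < m A1 := by
    have := law_reaches hN h.neg (by
      filter_upwards [hG] with x hx
      rw [hx]; ring) (η := (1 - κ) * b) (mul_pos (by linarith) hbpos)
    have e : √(N + 1) - (1 - κ) * b = κ * b := by rw [← hb]; ring
    rw [e] at this
    exact this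
  have hr0 : 0 < m.real A0 := ENNReal.toReal_pos hp0.ne' (measure_ne_top _ _)
  have hr1 : 0 < m.real A1 := ENNReal.toReal_pos hp1.ne' (measure_ne_top _ _)
  set ρ0 : X → ℝ := A0.indicator fun _ => (m.real A0)⁻¹ with hρ0
  set ρ1 : X → ℝ := A1.indicator fun _ => (m.real A1)⁻¹ with hρ1
  set C0 := max (m.real A0)⁻¹ (m.real A1)⁻¹ with hC0
  have h0m : Measurable ρ0 := measurable_const.indicator hA0m
  have h1m : Measurable ρ1 := measurable_const.indicator hA1m
  have hC0pos : 0 < C0 := lt_max_of_lt_left (inv_pos.mpr hr0)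
  have hb0 : ∀ x, 0 ≤ ρ0 x ∧ ρ0 x ≤ C0 := by
    intro x
    by_cases hx : x ∈ A0
    · rw [hρ0, indicator_of_mem hx]; exact ⟨by positivity, le_max_left _ _⟩
    · rw [hρ0, indicator_of_notMem hx]; exact ⟨le_rfl, hC0pos.le⟩
  have hb1 : ∀ x, 0 ≤ ρ1 x ∧ ρ1 x ≤ C0 := by
    intro x
    by_cases hx : x ∈ A1
    · rw [hρ1, indicator_of_mem hx]; exact ⟨by positivity, le_max_right _ _⟩
    · rw [hρ1, indicator_of_notMem hx]; exact ⟨le_rfl, hC0pos.le⟩
  have hi0 : ∫ x, ρ0 x ∂m = 1 := by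
    rw [hρ0, integral_indicator_const _ hA0m, smul_eq_mul, mul_inv_cancel₀ hr0.ne']
  have hi1 : ∫ x, ρ1 x ∂m = 1 := by
    rw [hρ1, integral_indicator_const _ hA1m, smul_eq_mul, mul_inv_cancel₀ hr1.ne']
  -- the functions
  obtain ⟨La, hLa0, hLa⟩ := arcsin_lip hκ1
  obtain ⟨Lp, Cp, hLp0, hCp0, hCp, hLp⟩ := psi_lip ⟨hκ0, hκ1⟩ hbpos
  have hmem : ∀ t, |t| ≤ b → κ / b * t ∈ Icc (-κ) κ := by
    intro t ht
    rw [mem_Icc, ← abs_le, abs_mul, abs_of_pos (by positivity : 0 < κ / b)]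
    calc κ / b * |t| ≤ κ / b * b := mul_le_mul_of_nonneg_left ht (by positivity)
      _ = κ := by field_simp
  have hfb : ∀ x, |f x| ≤ b := h.lim.bound
  have hκb : ∀ s : ℝ, s ^ 2 ≤ b ^ 2 → 0 < b ^ 2 - κ ^ 2 * s ^ 2 := by
    intro s hs
    have t1 : κ ^ 2 * s ^ 2 ≤ κ ^ 2 * b ^ 2 := mul_le_mul_of_nonneg_left hs (sq_nonneg κ)
    have t2 : κ ^ 2 * b ^ 2 < b ^ 2 :=
      mul_lt_of_lt_one_left (pow_pos hbpos 2) (by nlinarith)
    linarith
  set gn : ℕ → X → ℝ := fun n x => Real.arcsin (κ / b * fn n x) with hgn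
  set g : X → ℝ := fun x => Real.arcsin (κ / b * f x) with hg
  have hgd : ∀ n x, |gn n x - g x| ≤ La * (κ / b) * |fn n x - f x| := by
    intro n x
    have := hLa _ (hmem _ (hbd n x)) _ (hmem _ (hfb x))
    rw [← mul_sub, abs_mul, abs_of_pos (by positivity : 0 < κ / b)] at this
    rw [mul_assoc]; exact this
  have hgnL : ∀ n, ∃ K, LipschitzWith K (gn n) := by
    intro n
    obtain ⟨K, hK⟩ := hL n
    refine ⟨Real.toNNReal (La * (κ / b)) * K, LipschitzWith.of_dist_le_mul fun x y => ?_⟩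
    have := hLa _ (hmem _ (hbd n x)) _ (hmem _ (hbd n y))
    rw [← mul_sub, abs_mul, abs_of_pos (by positivity : 0 < κ / b)] at this
    have h2 := hK.dist_le_mul x y
    rw [Real.dist_eq] at h2 ⊢
    rw [NNReal.coe_mul, Real.coe_toNNReal _ (by positivity)]
    calc |gn n x - gn n y| ≤ La * (κ / b * |fn n x - fn n y|) := this
      _ ≤ La * (κ / b * (K * dist x y)) := by gcongr
      _ = _ := by ring
  have hcontn : ∀ n, Continuous (fn n) := fun n => (hL n).choose_spec.continuous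
  have hgnm : ∀ n, Measurable (gn n) := fun n => (hgnL n).choose_spec.continuous.measurable
  have hgm : Measurable g := Real.continuous_arcsin.measurable.comp (h.lim.meas.const_mul _)
  have hlipn : ∀ n, Measurable (lip (fn n)) := fun n => measurable_lip (hL n).choose_spec
  have hlipgn : ∀ n, Measurable (lip (gn n)) := fun n => measurable_lip (hgnL n).choose_spec
  -- square integrability
  have s1 : ∀ n, Integrable (fun x => (fn n x - f x) ^ 2) m := fun n =>
    Integrable.of_bound (C := (2 * b) ^ 2)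
      (((hcontn n).measurable.sub h.lim.meas).pow_const 2).aestronglyMeasurable
      (Eventually.of_forall fun x => by
        rw [Real.norm_eq_abs, abs_pow]
        refine pow_le_pow_left₀ (abs_nonneg _) ?_ 2
        calc |fn n x - f x| ≤ |fn n x| + |f x| := abs_sub _ _
          _ ≤ 2 * b := by linarith [hbd n x, hfb x])
  have s2 : ∀ n, Integrable (fun x => (lip (fn n) x - g0 x) ^ 2) m := by
    intro n
    obtain ⟨K, hK⟩ := hL n
    have : MemLp (fun x => lip (fn n) x - g0 x) 2 m := by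
      refine MemLp.sub ?_ (memLp_two_of_sq h.lim.gmeas.aestronglyMeasurable h.lim.gL2)
      refine MemLp.of_bound (hlipn n).aestronglyMeasurable (K : ℝ) (Eventually.of_forall fun x => ?_)
      rw [Real.norm_eq_abs, abs_of_nonneg (lip_nonneg _ _)]
      exact lip_le_const hK x
    exact this.integrable_sq
  -- L¹ convergences
  have c1 : Tendsto (fun n => ∫ x, |fn n x - f x| ∂m) atTop (𝓝 0) := by
    have := hf2.sqrt
    rw [Real.sqrt_zero] at this
    exact squeeze_zero (fun n => integral_nonneg fun x => abs_nonneg _)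
      (fun n => integral_abs_le_sqrt ((hcontn n).measurable.sub h.lim.meas).aestronglyMeasurable
        (s1 n)) this
  have c2 : Tendsto (fun n => ∫ x, |lip (fn n) x - g0 x| ∂m) atTop (𝓝 0) := by
    have := hg2.sqrt
    rw [Real.sqrt_zero] at this
    exact squeeze_zero (fun n => integral_nonneg fun x => abs_nonneg _)
      (fun n => integral_abs_le_sqrt ((hlipn n).sub h.lim.gmeas).aestronglyMeasurable
        (s2 n)) this
  have c3 : Tendsto (fun n => ∫ x, |(fn n x - f x) * g0 x| ∂m) atTop (𝓝 0) :=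
    tendsto_mul_of_sq (fun n => ((hcontn n).measurable.sub h.lim.meas).aestronglyMeasurable)
      h.lim.gmeas.aestronglyMeasurable s1 h.lim.gL2 hf2
  have j1 : ∀ n, Integrable (fun x => |fn n x - f x|) m := fun n =>
    (memLp_two_of_sq ((hcontn n).measurable.sub h.lim.meas).aestronglyMeasurable (s1 n)
      |>.integrable (by norm_num)).abs
  have j2 : ∀ n, Integrable (fun x => |lip (fn n) x - g0 x|) m := fun n =>
    (memLp_two_of_sq ((hlipn n).sub h.lim.gmeas).aestronglyMeasurable (s2 n)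
      |>.integrable (by norm_num)).abs
  have j3 : ∀ n, Integrable (fun x => |(fn n x - f x) * g0 x|) m := fun n =>
    (integrable_mul_of_sq ((hcontn n).measurable.sub h.lim.meas).aestronglyMeasurable
      h.lim.gmeas.aestronglyMeasurable (s1 n) h.lim.gL2).abs
  -- the slope bound
  have hslope : ∀ n, ∀ᵐ x ∂m, max (lip (gn n) x - κ) 0 ≤
      Cp * |lip (fn n) x - g0 x| + Lp * |(fn n x - f x) * g0 x| := by
    intro n
    obtain ⟨K, hK⟩ := hL n
    filter_upwards [hG] with x hx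
    have ht : |fn n x| ≤ b := hbd n x
    have htI : fn n x ∈ Icc (-b) b := abs_le.mp ht
    have hfI : f x ∈ Icc (-b) b := abs_le.mp (hfb x)
    have hu : κ / b * fn n x ∈ Icc (-κ) κ := hmem _ ht
    -- derivative
    have hder : HasDerivAt (fun t => Real.arcsin (κ / b * t))
        (κ / √(b ^ 2 - κ ^ 2 * fn n x ^ 2)) (fn n x) := by
      have h1 := (Real.hasDerivAt_arcsin (x := κ / b * fn n x) (by linarith [hu.1])
        (by linarith [hu.2])).comp (fn n x) ((hasDerivAt_id (fn n x)).const_mul (κ / b))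
      refine h1.congr_deriv ?_
      have e1 : 1 - (κ / b * fn n x) ^ 2 = (b ^ 2 - κ ^ 2 * fn n x ^ 2) / b ^ 2 := by
        field_simp
      rw [e1, Real.sqrt_div' _ (sq_nonneg b), Real.sqrt_sq hbpos.le]
      have e2 : √(b ^ 2 - κ ^ 2 * fn n x ^ 2) ≠ 0 := by
        exact (Real.sqrt_pos.mpr (hκb _ (sq_le_sq' htI.1 htI.2))).ne'
      field_simp
    have h2 := lip_comp_le hK hder
    rw [abs_of_nonneg (by positivity)] at h2
    have h3 : κ / √(b ^ 2 - κ ^ 2 * f x ^ 2) * g0 x ≤ κ := by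
      have h4 : g0 x ≤ √(b ^ 2 - κ ^ 2 * f x ^ 2) := by
        refine Real.le_sqrt_of_sq_le ?_
        rw [hx, hb2]
        have t3 : κ ^ 2 * f x ^ 2 ≤ 1 * f x ^ 2 :=
          mul_le_mul_of_nonneg_right (by nlinarith) (sq_nonneg _)
        linarith
      have h5 : 0 < √(b ^ 2 - κ ^ 2 * f x ^ 2) := by
        exact Real.sqrt_pos.mpr (hκb _ (sq_le_sq' hfI.1 hfI.2))
      rw [div_mul_eq_mul_div, div_le_iff₀ h5]
      exact mul_le_mul_of_nonneg_left h4 hκ0.le
    have h6 := hLp _ htI _ hfI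
    have h7 := hCp _ htI
    have h8 : 0 ≤ κ / √(b ^ 2 - κ ^ 2 * fn n x ^ 2) := by positivity
    have hg0 := h.lim.gnonneg x
    refine max_le ?_ (by positivity)
    have h9 : lip (gn n) x - κ ≤
        κ / √(b ^ 2 - κ ^ 2 * fn n x ^ 2) * (lip (fn n) x - g0 x) +
        (κ / √(b ^ 2 - κ ^ 2 * fn n x ^ 2) - κ / √(b ^ 2 - κ ^ 2 * f x ^ 2)) * g0 x := by
      have : lip (gn n) x ≤ κ / √(b ^ 2 - κ ^ 2 * fn n x ^ 2) * lip (fn n) x := h2
      linarith
    refine h9.trans (add_le_add ?_ ?_)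
    · calc κ / √(b ^ 2 - κ ^ 2 * fn n x ^ 2) * (lip (fn n) x - g0 x)
          ≤ κ / √(b ^ 2 - κ ^ 2 * fn n x ^ 2) * |lip (fn n) x - g0 x| :=
            mul_le_mul_of_nonneg_left (le_abs_self _) h8
        _ ≤ _ := mul_le_mul_of_nonneg_right h7 (abs_nonneg _)
    · rw [abs_mul, abs_of_nonneg hg0, ← mul_assoc]
      exact mul_le_mul_of_nonneg_right ((le_abs_self _).trans h6) hg0
  have c4 : Tendsto (fun n => ∫ x, max (lip (gn n) x - κ) 0 ∂m) atTop (𝓝 0) := by
    have hlim : Tendsto (fun n => Cp * ∫ x, |lip (fn n) x - g0 x| ∂m +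
        Lp * ∫ x, |(fn n x - f x) * g0 x| ∂m) atTop (𝓝 0) := by
      simpa using (c2.const_mul Cp).add (c3.const_mul Lp)
    refine squeeze_zero (fun n => integral_nonneg fun x => le_max_right _ _) (fun n => ?_) hlim
    rw [← integral_const_mul, ← integral_const_mul,
      ← integral_add ((j2 n).const_mul _) ((j3 n).const_mul _)]
    exact integral_mono_of_nonneg (Eventually.of_forall fun x => le_max_right _ _)
      (((j2 n).const_mul _).add ((j3 n).const_mul _)) (hslope n)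
  -- left side convergence
  have gnb : ∀ n x, |gn n x| ≤ Real.pi / 2 := fun n x =>
    abs_le.mpr ⟨Real.neg_pi_div_two_le_arcsin _, Real.arcsin_le_pi_div_two _⟩
  have gb : ∀ x, |g x| ≤ Real.pi / 2 := fun x =>
    abs_le.mpr ⟨Real.neg_pi_div_two_le_arcsin _, Real.arcsin_le_pi_div_two _⟩
  have conv : ∀ ρ : X → ℝ, Measurable ρ → (∀ x, 0 ≤ ρ x ∧ ρ x ≤ C0) →
      Tendsto (fun n => ∫ x, gn n x * ρ x ∂m) atTop (𝓝 (∫ x, g x * ρ x ∂m)) := by
    intro ρ hρm hρ
    have k1 : ∀ n, Integrable (fun x => gn n x * ρ x) m := fun n =>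
      Integrable.of_bound (C := Real.pi / 2 * C0) ((hgnm n).mul hρm).aestronglyMeasurable
      (Eventually.of_forall fun x => by
        rw [norm_mul]
        exact mul_le_mul (gnb n x) (by
          rw [Real.norm_eq_abs, abs_of_nonneg (hρ x).1]; exact (hρ x).2) (norm_nonneg _)
          (by positivity))
    have k2 : Integrable (fun x => g x * ρ x) m :=
      Integrable.of_bound (C := Real.pi / 2 * C0) (hgm.mul hρm).aestronglyMeasurable
      (Eventually.of_forall fun x => by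
        rw [norm_mul]
        exact mul_le_mul (gb x) (by
          rw [Real.norm_eq_abs, abs_of_nonneg (hρ x).1]; exact (hρ x).2) (norm_nonneg _)
          (by positivity))
    rw [tendsto_iff_norm_sub_tendsto_zero]
    have hlim : Tendsto (fun n => La * (κ / b) * C0 * ∫ x, |fn n x - f x| ∂m) atTop (𝓝 0) := by
      simpa using c1.const_mul (La * (κ / b) * C0)
    refine squeeze_zero (fun n => norm_nonneg _) (fun n => ?_) hlim
    rw [← integral_sub (k1 n) k2, ← integral_const_mul]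
    refine (norm_integral_le_integral_norm _).trans ?_
    refine integral_mono_of_nonneg (Eventually.of_forall fun x => norm_nonneg _)
      ((j1 n).const_mul _) (Eventually.of_forall fun x => ?_)
    simp only
    rw [← sub_mul, norm_mul, Real.norm_eq_abs, Real.norm_eq_abs, abs_of_nonneg (hρ x).1]
    calc |gn n x - g x| * ρ x ≤ (La * (κ / b) * |fn n x - f x|) * C0 :=
          mul_le_mul (hgd n x) (hρ x).2 (hρ x).1 (by positivity)
      _ = _ := by ring
  -- limit inequality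
  have hlimit : ∫ x, g x * ρ0 x ∂m - ∫ x, g x * ρ1 x ∂m ≤ D * κ := by
    have hR : Tendsto (fun n => D * (κ + C0 * ∫ x, max (lip (gn n) x - κ) 0 ∂m)) atTop
        (𝓝 (D * κ)) := by
      have := ((c4.const_mul C0).const_add κ).const_mul D
      simpa using this
    refine le_of_tendsto_of_tendsto' ((conv ρ0 h0m hb0).sub (conv ρ1 h1m hb1)) hR fun n => ?_
    exact chain_lip hN hcd (hgnL n).choose_spec hκ0.le h0m h1m hb0 hb1 hi0 hi1
  -- lower bound of the left side
  have hL0 : Real.arcsin (κ * κ) ≤ ∫ x, g x * ρ0 x ∂m := by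
    have e : ∫ x, Real.arcsin (κ * κ) * ρ0 x ∂m = Real.arcsin (κ * κ) := by
      rw [integral_const_mul, hi0, mul_one]
    rw [← e]
    refine integral_mono ?_ ?_ fun x => ?_
    · exact (Integrable.of_bound (C := C0) h0m.aestronglyMeasurable
        (Eventually.of_forall fun x => by
          rw [Real.norm_eq_abs, abs_of_nonneg (hb0 x).1]; exact (hb0 x).2)).const_mul _
    · exact Integrable.of_bound (C := Real.pi / 2 * C0) (hgm.mul h0m).aestronglyMeasurable
        (Eventually.of_forall fun x => by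
          rw [norm_mul]
          exact mul_le_mul (gb x) (by
            rw [Real.norm_eq_abs, abs_of_nonneg (hb0 x).1]; exact (hb0 x).2) (norm_nonneg _)
            (by positivity))
    · by_cases hx : x ∈ A0
      · refine mul_le_mul_of_nonneg_right ?_ (hb0 x).1
        refine Real.monotone_arcsin ?_
        have hx' : κ * b < f x := hx
        calc κ * κ = κ / b * (κ * b) := by field_simp
          _ ≤ κ / b * f x := mul_le_mul_of_nonneg_left hx'.le (by positivity)
      · simp [hρ0, indicator_of_notMem hx]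
  have hL1 : ∫ x, g x * ρ1 x ∂m ≤ - Real.arcsin (κ * κ) := by
    have e : ∫ x, (- Real.arcsin (κ * κ)) * ρ1 x ∂m = - Real.arcsin (κ * κ) := by
      rw [integral_const_mul, hi1, mul_one]
    rw [← e]
    refine integral_mono ?_ ?_ fun x => ?_
    · exact Integrable.of_bound (C := Real.pi / 2 * C0) (hgm.mul h1m).aestronglyMeasurable
        (Eventually.of_forall fun x => by
          rw [norm_mul]
          exact mul_le_mul (gb x) (by
            rw [Real.norm_eq_abs, abs_of_nonneg (hb1 x).1]; exact (hb1 x).2) (norm_nonneg _)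
            (by positivity))
    · exact (Integrable.of_bound (C := C0) h1m.aestronglyMeasurable
        (Eventually.of_forall fun x => by
          rw [Real.norm_eq_abs, abs_of_nonneg (hb1 x).1]; exact (hb1 x).2)).const_mul _
    · by_cases hx : x ∈ A1
      · refine mul_le_mul_of_nonneg_right ?_ (hb1 x).1
        rw [← Real.arcsin_neg]
        refine Real.monotone_arcsin ?_
        have hx' : κ * b < - f x := hx
        calc κ / b * f x ≤ κ / b * (-(κ * b)) :=
              mul_le_mul_of_nonneg_left (by linarith) (by positivity)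
          _ = _ := by field_simp
      · simp [hρ1, indicator_of_notMem hx]
  linarith

theorem diam_ge {N : ℝ} (hN : 1 < N) (hcd : CDr m N) {f g0 : X → ℝ}
    (h : Extremal m N (√(N + 1)) f g0) (hG : ∀ᵐ x ∂m, g0 x ^ 2 = N + 1 - f x ^ 2) :
    Real.pi ≤ Metric.diam (univ : Set X) := by
  have h1 : Tendsto (fun κ : ℝ => 2 * Real.arcsin (κ * κ)) (𝓝[<] 1) (𝓝 Real.pi) := by
    have hc : Continuous fun κ : ℝ => 2 * Real.arcsin (κ * κ) :=
      continuous_const.mul (Real.continuous_arcsin.comp (continuous_id.mul continuous_id))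
    have := (hc.tendsto 1).mono_left (nhdsWithin_le_nhds (s := Iio 1))
    simp only [mul_one, Real.arcsin_one] at this
    convert this using 2
    ring
  have h2 : Tendsto (fun κ : ℝ => Metric.diam (univ : Set X) * κ) (𝓝[<] 1)
      (𝓝 (Metric.diam (univ : Set X))) := by
    have hc : Continuous fun κ : ℝ => Metric.diam (univ : Set X) * κ := by fun_prop
    have := (hc.tendsto 1).mono_left (nhdsWithin_le_nhds (s := Iio 1))
    simpa using this
  refine le_of_tendsto_of_tendsto h1 h2 ?_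
  have : Ioo (0 : ℝ) 1 ∈ 𝓝[<] (1 : ℝ) := Ioo_mem_nhdsLT one_pos
  filter_upwards [this] with κ hκ
  exact diam_step hN hcd h hG hκ


/-- consequences of `el2` for polynomials -/
theorem Extremal.energy {N B : ℝ} {f g0 : X → ℝ} (h : Extremal m N B f g0) :
    ∫ x, g0 x ^ 2 ∂m = N := by
  have h1 := h.el2 (fun t => t) (fun _ => 1) (fun t => hasDerivAt_id t) continuous_const
  have h2 : ∫ x, f x * f x ∂m = 1 := by
    rw [← h.var]; congr 1; funext x; ring
  rw [h2] at h1
  simpa using h1.symm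

theorem Extremal.energy4 {N B : ℝ} {f g0 : X → ℝ} (h : Extremal m N B f g0) :
    ∫ x, g0 x ^ 2 * f x ^ 2 ∂m = N / 3 * ∫ x, f x ^ 4 ∂m := by
  have h1 := h.el2 (fun t => t ^ 3 / 3) (fun t => t ^ 2) (fun t => by
    refine ((hasDerivAt_pow 3 t).div_const 3).congr_deriv ?_
    push_cast
    ring) (by fun_prop)
  rw [← h1]
  have h2 : ∀ x, f x * (f x ^ 3 / 3) = 1 / 3 * f x ^ 4 := fun x => by ring
  simp only [h2]
  rw [integral_const_mul]
  ring

theorem Extremal.int_pow {N B : ℝ} {f g0 : X → ℝ} (h : Extremal m N B f g0) (k : ℕ) :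
    Integrable (fun x => f x ^ k) m := by
  refine Integrable.of_bound (C := B ^ k) (h.lim.meas.pow_const k).aestronglyMeasurable
    (Eventually.of_forall fun x => ?_)
  rw [Real.norm_eq_abs, abs_pow]
  exact pow_le_pow_left₀ (abs_nonneg _) (h.lim.bound x) k

theorem Extremal.int_g2f {N B : ℝ} {f g0 : X → ℝ} (h : Extremal m N B f g0) (k : ℕ) :
    Integrable (fun x => g0 x ^ 2 * f x ^ k) m := by
  refine (h.lim.gL2).mul_bdd (c := B ^ k) (h.lim.meas.pow_const k).aestronglyMeasurable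
    (Eventually.of_forall fun x => ?_)
  rw [Real.norm_eq_abs, abs_pow]
  exact pow_le_pow_left₀ (abs_nonneg _) (h.lim.bound x) k

/-- `g0² = N+1-f²` almost everywhere -/
theorem Extremal.rigid {N B : ℝ} (hN : 1 < N) (hB : 0 < B) (hcd : CDr m N) {f g0 : X → ℝ}
    (h : Extremal m N B f g0) : ∀ᵐ x ∂m, g0 x ^ 2 = N + 1 - f x ^ 2 := by
  have h3 := third_moment hN hcd hB h
  obtain ⟨h4, h4'⟩ := fourth hN hcd hB h
  have h5 := flux hN hB hcd h h3 h4
  have e1 := h.energy
  have e2 := h.energy4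
  have i1 := h.int_pow 2
  have i2 := h.int_pow 4
  have i3 := h.int_g2f 2
  have i4 := h.lim.gL2
  have hexp : ∀ x, (g0 x ^ 2 + f x ^ 2 - (N + 1)) ^ 2 =
      g0 x ^ 4 + (2 * (g0 x ^ 2 * f x ^ 2) + (f x ^ 4 + (-(2 * (N + 1)) * g0 x ^ 2 +
        (-(2 * (N + 1)) * f x ^ 2 + (N + 1) ^ 2)))) := fun x => by ring
  have hZi : Integrable (fun x => (g0 x ^ 2 + f x ^ 2 - (N + 1)) ^ 2) m := by
    simp only [hexp]
    exact h4.add ((i3.const_mul 2).add (i2.add ((i4.const_mul _).add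
      ((i1.const_mul _).add (integrable_const _)))))
  have hZ : ∫ x, (g0 x ^ 2 + f x ^ 2 - (N + 1)) ^ 2 ∂m =
      ∫ x, g0 x ^ 4 ∂m + (2 * N / 3 + 1) * ∫ x, f x ^ 4 ∂m - (N + 1) ^ 2 := by
    simp only [hexp]
    have j5 : Integrable (fun x => -(2 * (N + 1)) * f x ^ 2 + (N + 1) ^ 2) m :=
      (i1.const_mul _).add (integrable_const _)
    have j4 : Integrable (fun x => -(2 * (N + 1)) * g0 x ^ 2 +
      (-(2 * (N + 1)) * f x ^ 2 + (N + 1) ^ 2)) m := (i4.const_mul _).add j5
    have j3 : Integrable (fun x => f x ^ 4 + (-(2 * (N + 1)) * g0 x ^ 2 +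
      (-(2 * (N + 1)) * f x ^ 2 + (N + 1) ^ 2))) m := i2.add j4
    have j2 : Integrable (fun x => 2 * (g0 x ^ 2 * f x ^ 2) + (f x ^ 4 +
      (-(2 * (N + 1)) * g0 x ^ 2 + (-(2 * (N + 1)) * f x ^ 2 + (N + 1) ^ 2)))) m :=
      (i3.const_mul 2).add j3
    rw [integral_add h4 j2, integral_add (i3.const_mul 2) j3, integral_add i2 j4,
      integral_add (i4.const_mul _) j5, integral_add (i1.const_mul _) (integrable_const _),
      integral_const_mul, integral_const_mul, integral_const_mul, e1, e2, h.var]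
    simp
    ring
  have hZ0 : ∫ x, (g0 x ^ 2 + f x ^ 2 - (N + 1)) ^ 2 ∂m ≤ 0 := by
    rw [hZ]
    have h6 : 3 * N * (∫ x, g0 x ^ 4 ∂m - N * (N + 2) / 3 * ∫ x, f x ^ 4 ∂m) ≤ 0 := by
      apply mul_nonpos_of_nonneg_of_nonpos <;> linarith
    have h7 : (3 * N + 1) * (∫ x, g0 x ^ 4 ∂m + (2 * N / 3 + 1) * ∫ x, f x ^ 4 ∂m -
        (N + 1) ^ 2) ≤ 0 := h4'.trans h6
    by_contra hcon
    push Not at hcon
    have : 0 < (3 * N + 1) * (∫ x, g0 x ^ 4 ∂m + (2 * N / 3 + 1) * ∫ x, f x ^ 4 ∂m -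
        (N + 1) ^ 2) := by positivity
    linarith
  have hZ1 : ∫ x, (g0 x ^ 2 + f x ^ 2 - (N + 1)) ^ 2 ∂m = 0 :=
    le_antisymm hZ0 (integral_nonneg fun x => sq_nonneg _)
  have hZ2 := (integral_eq_zero_iff_of_nonneg (fun x => sq_nonneg _) hZi).mp hZ1
  filter_upwards [hZ2] with x hx
  have hx' : (g0 x ^ 2 + f x ^ 2 - (N + 1)) ^ 2 = 0 := hx
  have := pow_eq_zero_iff (two_ne_zero) |>.mp hx'
  linarith

theorem reduced_main {N : ℝ} (hN : 1 < N) (hcd : CDr m N)
    (hseq : ∀ δ > 0, ∃ (f : X → ℝ) (K : ℝ≥0), LipschitzWith K f ∧ ∫ x, f x ∂m = 0 ∧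
      ∫ x, f x ^ 2 ∂m = 1 ∧ ∫ x, slm f x ^ 2 ∂m ≤ N + δ) :
    Real.pi ≤ Metric.diam (univ : Set X) := by
  obtain ⟨f, g0, h⟩ := exists_preExt hN hcd hseq
  obtain ⟨B, hB, hb⟩ := h.bounded hN hcd
  have hE := h.extremal hN hcd hB hb
  have hr := hE.rigid hN hB hcd
  have hrf : ∀ᵐ x ∂m, g0 x ^ 2 = N + 1 - f x ^ 2 := by
    filter_upwards [hr, hb] with x h1 h2
    rw [abs_le] at h2
    rw [h1, min_eq_left h2.2, max_eq_right h2.1]
  have hb2 : ∀ᵐ x ∂m, |f x| ≤ √(N + 1) := by
    filter_upwards [hrf] with x hx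
    apply Real.abs_le_sqrt
    nlinarith [sq_nonneg (g0 x)]
  have hpos : 0 < √(N + 1) := Real.sqrt_pos.mpr (by linarith)
  have hE2 := h.extremal hN hcd hpos hb2
  refine diam_ge hN hcd hE2 ?_
  filter_upwards [hrf, hb2] with x h1 h2
  rw [abs_le] at h2
  rw [h1, min_eq_left h2.2, max_eq_right h2.1]

end H13CD
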