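import Pool.Agent.Helper13.CD.Defs
import Pool.Agent.Helper84.CD.Expand

/-!
# Module O1: calculus for the flux argument

Parameters `N > 1`, `p = 1-1/N`, `B, c, δ > 0` with `(N-1)cB ≤ 1/2`, `δ ≤ N c/2`.
`P t = 1-(N-1)ct ∈ [1/2,3/2]` on `[-B,B]`,
`Θ t = e^(pδt/2) P t`, `L t = e^(δt/(2N))`, `M t = t e^((δ/2)(1+1/N)t)`,
`R t = t² e^((δ/2)(2+1/N)t)`, `H t = (1/N) e^(δt/2) (P t + 2(N-1)c/δ)` (`H' = Θ L'`),
`Ψ t = ∫_0^t P s e^(δs) (1 + (δ/2)((N+1)/N) s) ds` (`Ψ' = Θ M'`),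
`k t = -Θ' t L' t = (δ/(2N)) e^(δt/2) ((N-1)c - p(δ/2) P t) > 0`,
`Bf t τ = Θ t (L τ - L t) - (H τ - H t) = ∫_t^τ (Θ t - Θ s) L' s ds`.

* `Bf_ge`: `-Θ' ≥ κ' > 0`, `L' ≥ l > 0` on `[-B,B]`, so `Bf t τ ≥ (κ' l/2)(τ-t)²`
  (differentiate in `τ`: `∂_τ Bf = (Θ t - Θ τ) L' τ` has the sign of `τ-t`).
* `Bf_young`: Taylor: `Bf t τ ≥ ½ k t (τ-t)² - C|τ-t|³`.  If `|τ-t| ≤ ω` (`ω` small depending on
  `η`) then `Bf ≥ ½(1-η) k Δ²` and `½(1-η)kΔ² - εhΔ ≥ -ε²h²/(2(1-η)k)`; if `|Δ| > ω` then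
  `Bf - εhΔ ≥ |Δ|(k'ω - ε|h|) ≥ 0` for small `ε`.
* `flux_pointwise`: with `ν1 = e^(-δτ/2)+εNτ = e^(-δτ/2)(1+x)`, `x = εNτe^(δτ/2)`,
  `(1+x)^(-1/N) ≥ 1 - x/N + ½(1/N)(1+1/N)x² - C|x|³`, so
  `ν1^(-1/N) ≥ L τ - ε M τ + ½(N+1)ε² R τ - Cε³`; multiply by `Θ t` and use
  `Θ t M τ ≤ Θ t M t + Ψ τ - Ψ t + C Δ²` and `Θ t R τ ≥ Θ t R t - C|Δ|`.
-/

open Set Filter Topology

namespace H13CD

structure FluxPar (N B c δ : ℝ) : Prop where
  hN : 1 < N
  hB : 0 < B
  hc : 0 < c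
  hδ : 0 < δ
  hcB : (N - 1) * c * B ≤ 1 / 2
  hδc : δ ≤ N * c / 2

noncomputable def fP (N c t : ℝ) : ℝ := 1 - (N - 1) * c * t
noncomputable def fTh (N c δ t : ℝ) : ℝ := Real.exp ((1 - 1 / N) * δ * t / 2) * fP N c t
noncomputable def fL (N δ t : ℝ) : ℝ := Real.exp (δ * t / (2 * N))
noncomputable def fM (N δ t : ℝ) : ℝ := t * Real.exp (δ / 2 * (1 + 1 / N) * t)
noncomputable def fR (N δ t : ℝ) : ℝ := t ^ 2 * Real.exp (δ / 2 * (2 + 1 / N) * t)
noncomputable def fH (N c δ t : ℝ) : ℝ :=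
  1 / N * Real.exp (δ * t / 2) * (fP N c t + 2 * (N - 1) * c / δ)
noncomputable def fpsi (N c δ t : ℝ) : ℝ :=
  fP N c t * Real.exp (δ * t) * (1 + δ / 2 * ((N + 1) / N) * t)
noncomputable def fPsi (N c δ t : ℝ) : ℝ := ∫ s in (0 : ℝ)..t, fpsi N c δ s
noncomputable def fk (N c δ t : ℝ) : ℝ :=
  δ / (2 * N) * Real.exp (δ * t / 2) * ((N - 1) * c - (1 - 1 / N) * (δ / 2) * fP N c t)
noncomputable def fB (N c δ t τ : ℝ) : ℝ :=
  fTh N c δ t * (fL N δ τ - fL N δ t) - (fH N c δ τ - fH N c δ t)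
noncomputable def fnu (N δ ε t : ℝ) : ℝ := Real.exp (-(δ * t / 2)) + ε * N * t

theorem fP_bounds {N B c δ : ℝ} (h : FluxPar N B c δ) {t : ℝ} (ht : t ∈ Icc (-B) B) :
    1 / 2 ≤ fP N c t ∧ fP N c t ≤ 3 / 2 := by
  have hN := h.hN
  have hc := h.hc
  have hcB := h.hcB
  have k : 0 < (N - 1) * c := mul_pos (by linarith) hc
  have h1 : (N - 1) * c * t ≤ (N - 1) * c * B := mul_le_mul_of_nonneg_left ht.2 k.le
  have h2 : (N - 1) * c * (-B) ≤ (N - 1) * c * t := mul_le_mul_of_nonneg_left ht.1 k.le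
  unfold fP
  constructor <;> linarith

lemma hasDerivAt_expmul (a t : ℝ) : HasDerivAt (fun t : ℝ => Real.exp (a * t))
    (a * Real.exp (a * t)) t := by
  have h1 : HasDerivAt (fun t : ℝ => a * t) a t := by
    simpa using (hasDerivAt_id t).const_mul a
  simpa [mul_comm] using h1.exp

lemma hasDerivAt_fP (N c t : ℝ) : HasDerivAt (fP N c) (-((N - 1) * c)) t := by
  have h1 : HasDerivAt (fun t : ℝ => (N - 1) * c * t) ((N - 1) * c) t := by
    simpa using (hasDerivAt_id t).const_mul ((N - 1) * c)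
  exact h1.const_sub 1

theorem hasDerivAt_fH {N B c δ : ℝ} (h : FluxPar N B c δ) (t : ℝ) :
    HasDerivAt (fH N c δ) (δ / (2 * N) * Real.exp (δ * t / 2) * fP N c t) t := by
  have hN0 : N ≠ 0 := by linarith [h.hN]
  have hδ0 : δ ≠ 0 := h.hδ.ne'
  have h1 := ((hasDerivAt_expmul (δ / 2) t).const_mul (1 / N)).mul
    ((hasDerivAt_fP N c t).add_const (2 * (N - 1) * c / δ))
  have e : fH N c δ = fun t => 1 / N * Real.exp (δ / 2 * t) * (fP N c t + 2 * (N - 1) * c / δ) := by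
    funext s
    unfold fH
    rw [show δ * s / 2 = δ / 2 * s by ring]
  rw [e]
  refine h1.congr_deriv ?_
  rw [show δ * t / 2 = δ / 2 * t by ring]
  field_simp
  ring

lemma continuous_fpsi (N c δ : ℝ) : Continuous (fpsi N c δ) := by
  unfold fpsi fP
  fun_prop

theorem hasDerivAt_fPsi (N c δ t : ℝ) : HasDerivAt (fPsi N c δ) (fpsi N c δ t) t := by
  unfold fPsi
  exact intervalIntegral.integral_hasDerivAt_right
    ((continuous_fpsi N c δ).intervalIntegrable _ _)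
    ((continuous_fpsi N c δ).stronglyMeasurableAtFilter _ _) (continuous_fpsi N c δ).continuousAt

/-- `Θ'` -/
noncomputable def fThd (N c δ t : ℝ) : ℝ :=
  Real.exp ((1 - 1 / N) * δ / 2 * t) * ((1 - 1 / N) * δ / 2 * fP N c t - (N - 1) * c)

/-- `L'` -/
noncomputable def fLd (N δ t : ℝ) : ℝ := δ / (2 * N) * Real.exp (δ / (2 * N) * t)

lemma hasDerivAt_fTh (N c δ t : ℝ) : HasDerivAt (fTh N c δ) (fThd N c δ t) t := by
  have h1 := (hasDerivAt_expmul ((1 - 1 / N) * δ / 2) t).mul (hasDerivAt_fP N c t)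
  have e : fTh N c δ = fun t => Real.exp ((1 - 1 / N) * δ / 2 * t) * fP N c t := by
    funext s
    unfold fTh
    rw [show (1 - 1 / N) * δ * s / 2 = (1 - 1 / N) * δ / 2 * s by ring]
  rw [e]
  refine h1.congr_deriv ?_
  unfold fThd
  ring

lemma hasDerivAt_fL (N δ t : ℝ) : HasDerivAt (fL N δ) (fLd N δ t) t := by
  have e : fL N δ = fun t => Real.exp (δ / (2 * N) * t) := by
    funext s
    unfold fL
    rw [show δ * s / (2 * N) = δ / (2 * N) * s by ring]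
  rw [e]
  exact hasDerivAt_expmul (δ / (2 * N)) t

lemma fk_eq {N B c δ : ℝ} (h : FluxPar N B c δ) (t : ℝ) :
    fk N c δ t = - fThd N c δ t * fLd N δ t := by
  have hN0 : N ≠ 0 := by linarith [h.hN]
  have e : Real.exp (δ * t / 2) = Real.exp ((1 - 1 / N) * δ / 2 * t) *
      Real.exp (δ / (2 * N) * t) := by
    rw [← Real.exp_add]
    congr 1
    field_simp
    ring
  unfold fk fThd fLd
  rw [e]
  ring

lemma fHd_eq {N B c δ : ℝ} (h : FluxPar N B c δ) (t : ℝ) :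
    δ / (2 * N) * Real.exp (δ * t / 2) * fP N c t = fTh N c δ t * fLd N δ t := by
  have hN0 : N ≠ 0 := by linarith [h.hN]
  have e : Real.exp (δ * t / 2) = Real.exp ((1 - 1 / N) * δ * t / 2) *
      Real.exp (δ / (2 * N) * t) := by
    rw [← Real.exp_add]
    congr 1
    field_simp
    ring
  unfold fTh fLd
  rw [e]
  ring

lemma neg_fThd_ge {N B c δ : ℝ} (h : FluxPar N B c δ) {t : ℝ} (ht : t ∈ Icc (-B) B) :
    Real.exp ((1 - 1 / N) * δ / 2 * t) * (5 / 8 * ((N - 1) * c)) ≤ - fThd N c δ t := by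
  have hN := h.hN
  have hc := h.hc
  have hδ := h.hδ
  have hδc := h.hδc
  have hP := fP_bounds h ht
  have hN0 : N ≠ 0 := by linarith
  have hp : 0 < 1 - 1 / N := by
    rw [sub_pos, div_lt_one (by linarith)]
    exact hN
  have e : - fThd N c δ t = Real.exp ((1 - 1 / N) * δ / 2 * t) *
      ((N - 1) * c - (1 - 1 / N) * δ / 2 * fP N c t) := by
    unfold fThd
    ring
  rw [e]
  refine mul_le_mul_of_nonneg_left ?_ (Real.exp_pos _).le
  have h1 : (1 - 1 / N) * δ / 2 * fP N c t ≤ (1 - 1 / N) * (N * c / 2) / 2 * (3 / 2) := by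
    refine mul_le_mul ?_ hP.2 (by linarith [hP.1]) (by positivity)
    have := mul_le_mul_of_nonneg_left hδc hp.le
    linarith
  have h2 : (1 - 1 / N) * (N * c / 2) / 2 * (3 / 2) = 3 / 8 * ((N - 1) * c) := by
    field_simp
    ring
  linarith

/-- `k` is bounded below by a positive constant on `[-B,B]` -/
theorem fk_ge {N B c δ : ℝ} (h : FluxPar N B c δ) :
    ∃ k0 > 0, ∀ t ∈ Icc (-B) B, k0 ≤ fk N c δ t := by
  have hN := h.hN
  have hc := h.hc
  have hδ := h.hδ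
  have hN1 : 0 < N - 1 := by linarith
  have hN0 : 0 < N := by linarith
  have hp : 0 < 1 - 1 / N := by
    rw [sub_pos, div_lt_one (by linarith)]
    exact hN
  refine ⟨Real.exp ((1 - 1 / N) * δ / 2 * (-B)) * (5 / 8 * ((N - 1) * c)) *
    (δ / (2 * N) * Real.exp (δ / (2 * N) * (-B))), by positivity, fun t ht => ?_⟩
  rw [fk_eq h]
  have h1 := neg_fThd_ge h ht
  have h2 : Real.exp ((1 - 1 / N) * δ / 2 * (-B)) * (5 / 8 * ((N - 1) * c)) ≤
      Real.exp ((1 - 1 / N) * δ / 2 * t) * (5 / 8 * ((N - 1) * c)) := by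
    refine mul_le_mul_of_nonneg_right ?_ (by positivity)
    rw [Real.exp_le_exp]
    exact mul_le_mul_of_nonneg_left ht.1 (by positivity)
  have h3 : δ / (2 * N) * Real.exp (δ / (2 * N) * (-B)) ≤ fLd N δ t := by
    unfold fLd
    refine mul_le_mul_of_nonneg_left ?_ (by positivity)
    rw [Real.exp_le_exp]
    exact mul_le_mul_of_nonneg_left ht.1 (by positivity)
  refine mul_le_mul (h2.trans h1) h3 (by positivity) (le_trans (by positivity) (h2.trans h1))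

lemma fB_deriv {N B c δ : ℝ} (h : FluxPar N B c δ) (t s : ℝ) :
    HasDerivAt (fun τ => fB N c δ t τ) ((fTh N c δ t - fTh N c δ s) * fLd N δ s) s := by
  have h1 := (((hasDerivAt_fL N δ s).sub_const (fL N δ t)).const_mul (fTh N c δ t)).sub
    ((hasDerivAt_fH h s).sub_const (fH N c δ t))
  rw [fHd_eq h] at h1
  refine h1.congr_deriv ?_
  ring

/-- quadratic lower bound for `fB` -/
lemma fB_quad {N B c δ : ℝ} (h : FluxPar N B c δ) {t τ κ : ℝ}
    (hκ : ∀ ξ ∈ uIcc t τ, ∀ s ∈ uIcc t τ, κ ≤ - fThd N c δ ξ * fLd N δ s) :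
    κ / 2 * (τ - t) ^ 2 ≤ fB N c δ t τ := by
  have hd : ∀ s, HasDerivAt (fun τ => fB N c δ t τ - κ / 2 * (τ - t) ^ 2)
      ((fTh N c δ t - fTh N c δ s) * fLd N δ s - κ * (s - t)) s := by
    intro s
    refine ((fB_deriv h t s).sub ((((hasDerivAt_id s).sub_const t).pow 2).const_mul
      (κ / 2))).congr_deriv ?_
    simp only [id]
    ring
  have h0 : fB N c δ t t - κ / 2 * (t - t) ^ 2 = 0 := by
    unfold fB
    ring
  rcases lt_trichotomy t τ with hlt | heq | hgt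
  · have hm : MonotoneOn (fun τ => fB N c δ t τ - κ / 2 * (τ - t) ^ 2) (Icc t τ) := by
      refine monotoneOn_of_deriv_nonneg (convex_Icc t τ)
        (fun s _ => (hd s).continuousAt.continuousWithinAt)
        (fun s _ => (hd s).differentiableAt.differentiableWithinAt) ?_
      intro s hs
      rw [interior_Icc] at hs
      rw [(hd s).deriv]
      obtain ⟨ξ, hξ, e⟩ := exists_hasDerivAt_eq_slope (fTh N c δ) (fThd N c δ) hs.1
        (fun x _ => (hasDerivAt_fTh N c δ x).continuousAt.continuousWithinAt)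
        (fun x _ => hasDerivAt_fTh N c δ x)
      have hst : 0 < s - t := sub_pos.2 hs.1
      rw [eq_div_iff hst.ne'] at e
      have h1 := hκ ξ (by rw [uIcc_of_le hlt.le]; exact ⟨hξ.1.le, hξ.2.le.trans hs.2.le⟩) s
        (by rw [uIcc_of_le hlt.le]; exact ⟨hs.1.le, hs.2.le⟩)
      have h2 := mul_le_mul_of_nonneg_right h1 hst.le
      have h3 : (fTh N c δ t - fTh N c δ s) * fLd N δ s =
        - fThd N c δ ξ * fLd N δ s * (s - t) := by
        linear_combination (fLd N δ s) * e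
      linarith
    have := hm (left_mem_Icc.2 hlt.le) (right_mem_Icc.2 hlt.le) hlt.le
    simp only at this
    linarith
  · subst heq
    unfold fB
    simp
  · have hm : AntitoneOn (fun τ => fB N c δ t τ - κ / 2 * (τ - t) ^ 2) (Icc τ t) := by
      refine antitoneOn_of_deriv_nonpos (convex_Icc τ t)
        (fun s _ => (hd s).continuousAt.continuousWithinAt)
        (fun s _ => (hd s).differentiableAt.differentiableWithinAt) ?_
      intro s hs
      rw [interior_Icc] at hs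
      rw [(hd s).deriv]
      obtain ⟨ξ, hξ, e⟩ := exists_hasDerivAt_eq_slope (fTh N c δ) (fThd N c δ) hs.2
        (fun x _ => (hasDerivAt_fTh N c δ x).continuousAt.continuousWithinAt)
        (fun x _ => hasDerivAt_fTh N c δ x)
      have hst : 0 < t - s := sub_pos.2 hs.2
      rw [eq_div_iff hst.ne'] at e
      have h1 := hκ ξ (by rw [uIcc_of_ge hgt.le]; exact ⟨hs.1.le.trans hξ.1.le, hξ.2.le⟩) s
        (by rw [uIcc_of_ge hgt.le]; exact ⟨hs.1.le, hs.2.le⟩)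
      have h2 := mul_le_mul_of_nonneg_right h1 hst.le
      have h3 : (fTh N c δ t - fTh N c δ s) * fLd N δ s =
        - (- fThd N c δ ξ * fLd N δ s * (t - s)) := by
        linear_combination (-fLd N δ s) * e
      linarith
    have := hm (left_mem_Icc.2 hgt.le) (right_mem_Icc.2 hgt.le) hgt.le
    simp only at this
    linarith


lemma uIcc_sub_Icc {B t τ : ℝ} (ht : t ∈ Icc (-B) B) (hτ : τ ∈ Icc (-B) B) :
    uIcc t τ ⊆ Icc (-B) B := by
  rw [← uIcc_of_le (show -B ≤ B by linarith [ht.1, ht.2])]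
  refine uIcc_subset_uIcc ?_ ?_
  · rw [uIcc_of_le (by linarith [ht.1, ht.2])]; exact ht
  · rw [uIcc_of_le (by linarith [ht.1, ht.2])]; exact hτ

theorem fB_ge {N B c δ : ℝ} (h : FluxPar N B c δ) :
    ∃ k' > 0, ∀ t ∈ Icc (-B) B, ∀ τ ∈ Icc (-B) B, k' * (τ - t) ^ 2 ≤ fB N c δ t τ := by
  have hN := h.hN
  have hc := h.hc
  have hδ := h.hδ
  have hN1 : 0 < N - 1 := by linarith
  have hN0 : 0 < N := by linarith
  have hp : 0 < 1 - 1 / N := by
    rw [sub_pos, div_lt_one (by linarith)]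
    exact hN
  refine ⟨Real.exp ((1 - 1 / N) * δ / 2 * (-B)) * (5 / 8 * ((N - 1) * c)) *
    (δ / (2 * N) * Real.exp (δ / (2 * N) * (-B))) / 2, by positivity, fun t ht τ hτ => ?_⟩
  refine fB_quad h ?_
  intro ξ hξ s hs
  have hξ' := uIcc_sub_Icc ht hτ hξ
  have hs' := uIcc_sub_Icc ht hτ hs
  have h1 := neg_fThd_ge h hξ'
  have h2 : Real.exp ((1 - 1 / N) * δ / 2 * (-B)) * (5 / 8 * ((N - 1) * c)) ≤
      Real.exp ((1 - 1 / N) * δ / 2 * ξ) * (5 / 8 * ((N - 1) * c)) := by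
    refine mul_le_mul_of_nonneg_right ?_ (by positivity)
    rw [Real.exp_le_exp]
    exact mul_le_mul_of_nonneg_left hξ'.1 (by positivity)
  have h3 : δ / (2 * N) * Real.exp (δ / (2 * N) * (-B)) ≤ fLd N δ s := by
    unfold fLd
    refine mul_le_mul_of_nonneg_left ?_ (by positivity)
    rw [Real.exp_le_exp]
    exact mul_le_mul_of_nonneg_left hs'.1 (by positivity)
  refine mul_le_mul (h2.trans h1) h3 (by positivity) (le_trans (by positivity) (h2.trans h1))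

lemma fB_close {N B c δ : ℝ} (h : FluxPar N B c δ) {η : ℝ} (hη : 0 < η) :
    ∃ ω > 0, ∀ t ∈ Icc (-B) B, ∀ τ ∈ Icc (-B) B, |τ - t| ≤ ω →
      (1 - η) * fk N c δ t / 2 * (τ - t) ^ 2 ≤ fB N c δ t τ := by
  obtain ⟨k0, hk0, hk⟩ := fk_ge h
  have hc : Continuous (fun z : ℝ × ℝ => - fThd N c δ z.1 * fLd N δ z.2) := by
    unfold fThd fLd fP
    fun_prop
  have hu := (isCompact_Icc.prod isCompact_Icc : IsCompact (Icc (-B) B ×ˢ Icc (-B) B)).uniformContinuousOn_of_continuous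
    hc.continuousOn
  rw [Metric.uniformContinuousOn_iff] at hu
  obtain ⟨ω, hω, hu⟩ := hu (η * k0) (by positivity)
  refine ⟨ω / 2, by positivity, fun t ht τ hτ hd => ?_⟩
  refine fB_quad h ?_
  intro ξ hξ s hs
  have hξ' := uIcc_sub_Icc ht hτ hξ
  have hs' := uIcc_sub_Icc ht hτ hs
  have d1 : |ξ - t| ≤ ω / 2 := (abs_sub_left_of_mem_uIcc hξ).trans hd
  have d2 : |s - t| ≤ ω / 2 := (abs_sub_left_of_mem_uIcc hs).trans hd
  have h1 := hu (ξ, s) ⟨hξ', hs'⟩ (t, t) ⟨ht, ht⟩ (by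
    rw [Prod.dist_eq, Real.dist_eq, Real.dist_eq]
    exact max_lt (by simp only; linarith) (by simp only; linarith))
  rw [Real.dist_eq] at h1
  simp only at h1
  rw [← fk_eq h] at h1
  have h2 := (abs_lt.1 h1).1
  have h3 := mul_le_mul_of_nonneg_left (hk t ht) hη.le
  linarith

theorem fB_young {N B c δ : ℝ} (h : FluxPar N B c δ) {η Ch : ℝ} (hη : η ∈ Ioo (0 : ℝ) 1)
    (hCh : 0 ≤ Ch) :
    ∃ ε0 > 0, ∀ ε ∈ Ioo (0 : ℝ) ε0, ∀ t ∈ Icc (-B) B, ∀ τ ∈ Icc (-B) B, ∀ h' : ℝ, |h'| ≤ Ch →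
      ε * h' * (τ - t) - ε ^ 2 * h' ^ 2 / (2 * (1 - η) * fk N c δ t) ≤ fB N c δ t τ := by
  obtain ⟨ω, hω, hcl⟩ := fB_close h hη.1
  obtain ⟨k', hk', hge⟩ := fB_ge h
  obtain ⟨k0, hk0, hk⟩ := fk_ge h
  refine ⟨k' * ω / (Ch + 1), by positivity, fun ε hε t ht τ hτ h' hh' => ?_⟩
  have hkt : 0 < fk N c δ t := lt_of_lt_of_le hk0 (hk t ht)
  have h1η : 0 < 1 - η := sub_pos.2 hη.2
  rcases le_or_gt (|τ - t|) ω with hd | hd
  · refine le_trans ?_ (hcl t ht τ hτ hd)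
    have hD : 0 < 2 * (1 - η) * fk N c δ t := by positivity
    rw [sub_le_iff_le_add, ← sub_le_iff_le_add', le_div_iff₀ hD]
    nlinarith [sq_nonneg (ε * h' - (1 - η) * fk N c δ t * (τ - t))]
  · refine le_trans ?_ (hge t ht τ hτ)
    have h2 : 0 ≤ ε ^ 2 * h' ^ 2 / (2 * (1 - η) * fk N c δ t) := by
      positivity
    have h3 : ε * h' * (τ - t) ≤ ε * Ch * |τ - t| := by
      have e1 : ε * h' * (τ - t) ≤ ε * (|h'| * |τ - t|) := by
        rw [mul_assoc, ← abs_mul]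
        exact mul_le_mul_of_nonneg_left (le_abs_self _) hε.1.le
      have e2 : |h'| * |τ - t| ≤ Ch * |τ - t| := mul_le_mul_of_nonneg_right hh' (abs_nonneg _)
      have e3 := mul_le_mul_of_nonneg_left e2 hε.1.le
      linarith
    have h4 : ε * Ch ≤ k' * ω := by
      have := hε.2
      rw [lt_div_iff₀ (by positivity)] at this
      nlinarith [hε.1]
    have h5 : ε * Ch * |τ - t| ≤ k' * ω * |τ - t| := mul_le_mul_of_nonneg_right h4 (abs_nonneg _)
    have h6 : k' * ω * |τ - t| ≤ k' * (τ - t) ^ 2 := by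
      rw [mul_assoc, ← sq_abs (τ - t), sq]
      exact mul_le_mul_of_nonneg_left (mul_le_mul_of_nonneg_right hd.le (abs_nonneg _)) hk'.le
    linarith

/-- derivative of `M` -/
noncomputable def fMd (N δ t : ℝ) : ℝ :=
  Real.exp (δ / 2 * (1 + 1 / N) * t) * (1 + δ / 2 * (1 + 1 / N) * t)

lemma hasDerivAt_fM (N δ t : ℝ) : HasDerivAt (fM N δ) (fMd N δ t) t := by
  have h1 := (hasDerivAt_id t).mul (hasDerivAt_expmul (δ / 2 * (1 + 1 / N)) t)
  refine h1.congr_deriv ?_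
  unfold fMd
  simp only [id]
  ring

lemma fpsi_eq {N B c δ : ℝ} (h : FluxPar N B c δ) (t : ℝ) :
    fpsi N c δ t = fTh N c δ t * fMd N δ t := by
  have hN0 : N ≠ 0 := by linarith [h.hN]
  have e : Real.exp (δ * t) = Real.exp ((1 - 1 / N) * δ * t / 2) *
      Real.exp (δ / 2 * (1 + 1 / N) * t) := by
    rw [← Real.exp_add]
    congr 1
    field_simp
    ring
  unfold fpsi fTh fMd
  rw [e]
  have e2 : (N + 1) / N = 1 + 1 / N := by field_simp
  rw [e2]
  ring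

lemma fM_quad {N B c δ : ℝ} (h : FluxPar N B c δ) :
    ∃ C > 0, ∀ t ∈ Icc (-B) B, ∀ τ ∈ Icc (-B) B,
      fTh N c δ t * fM N δ τ ≤ fTh N c δ t * fM N δ t + (fPsi N c δ τ - fPsi N c δ t) +
        C * (τ - t) ^ 2 := by
  have c1 : Continuous (fThd N c δ) := by unfold fThd fP; fun_prop
  have c2 : Continuous (fMd N δ) := by unfold fMd; fun_prop
  obtain ⟨K1, hK1⟩ := (isCompact_Icc (a := -B) (b := B)).exists_bound_of_continuousOn
    c1.continuousOn
  obtain ⟨K2, hK2⟩ := (isCompact_Icc (a := -B) (b := B)).exists_bound_of_continuousOn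
    c2.continuousOn
  refine ⟨(|K1| + 1) * (|K2| + 1), by positivity, fun t ht τ hτ => ?_⟩
  have hd : ∀ s ∈ uIcc t τ, HasDerivWithinAt
      (fun s => fTh N c δ t * fM N δ s - fPsi N c δ s)
      ((fTh N c δ t - fTh N c δ s) * fMd N δ s) (uIcc t τ) s := by
    intro s _
    have h1 := ((hasDerivAt_fM N δ s).const_mul (fTh N c δ t)).sub (hasDerivAt_fPsi N c δ s)
    rw [fpsi_eq h] at h1
    refine (h1.congr_deriv ?_).hasDerivWithinAt
    ring
  have hb : ∀ s ∈ uIcc t τ, ‖(fTh N c δ t - fTh N c δ s) * fMd N δ s‖ ≤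
      (|K1| + 1) * (|K2| + 1) * |τ - t| := by
    intro s hs
    have hs' := uIcc_sub_Icc ht hτ hs
    have e1 := (convex_Icc (-B) B).norm_image_sub_le_of_norm_hasDerivWithin_le (C := |K1| + 1)
      (f := fTh N c δ) (f' := fThd N c δ)
      (fun x _ => (hasDerivAt_fTh N c δ x).hasDerivWithinAt)
      (fun x hx => (hK1 x hx).trans ((le_abs_self K1).trans (by linarith))) hs' ht
    have e2 := (hK2 s hs').trans ((le_abs_self K2).trans (by linarith : |K2| ≤ |K2| + 1))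
    have e3 : |t - s| ≤ |τ - t| := by
      rw [abs_sub_comm]
      exact abs_sub_left_of_mem_uIcc hs
    rw [norm_mul]
    rw [Real.norm_eq_abs (t - s)] at e1
    calc ‖fTh N c δ t - fTh N c δ s‖ * ‖fMd N δ s‖ ≤ ((|K1| + 1) * |t - s|) * (|K2| + 1) :=
          mul_le_mul e1 e2 (norm_nonneg _) (by positivity)
      _ = (|K1| + 1) * (|K2| + 1) * |t - s| := by ring
      _ ≤ _ := mul_le_mul_of_nonneg_left e3 (by positivity)
  have := (convex_uIcc t τ).norm_image_sub_le_of_norm_hasDerivWithin_le hd hb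
    left_mem_uIcc right_mem_uIcc
  rw [Real.norm_eq_abs, Real.norm_eq_abs, mul_assoc ((|K1| + 1) * (|K2| + 1)), ← abs_mul,
    ← sq, abs_of_nonneg (sq_nonneg (τ - t))] at this
  have h2 := le_of_abs_le this
  linarith

lemma fR_lip (N B c δ : ℝ) :
    ∃ C > 0, ∀ t ∈ Icc (-B) B, ∀ τ ∈ Icc (-B) B,
      fTh N c δ t * fR N δ t - C * |τ - t| ≤ fTh N c δ t * fR N δ τ := by
  obtain ⟨K1, hK1⟩ := (isCompact_Icc (a := -B) (b := B)).exists_bound_of_continuousOn
    (f := fTh N c δ) (by unfold fTh fP; fun_prop)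
  have hR : ∀ t, HasDerivAt (fR N δ) (2 * t * Real.exp (δ / 2 * (2 + 1 / N) * t) +
      t ^ 2 * (δ / 2 * (2 + 1 / N) * Real.exp (δ / 2 * (2 + 1 / N) * t))) t := by
    intro t
    have h1 := ((hasDerivAt_id t).pow 2).mul (hasDerivAt_expmul (δ / 2 * (2 + 1 / N)) t)
    refine h1.congr_deriv ?_
    simp only [id]
    simp
  obtain ⟨K2, hK2⟩ := (isCompact_Icc (a := -B) (b := B)).exists_bound_of_continuousOn
    (f := fun t : ℝ => 2 * t * Real.exp (δ / 2 * (2 + 1 / N) * t) +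
      t ^ 2 * (δ / 2 * (2 + 1 / N) * Real.exp (δ / 2 * (2 + 1 / N) * t))) (by fun_prop)
  refine ⟨(|K1| + 1) * (|K2| + 1), by positivity, fun t ht τ hτ => ?_⟩
  have e1 := (convex_Icc (-B) B).norm_image_sub_le_of_norm_hasDerivWithin_le (C := |K2| + 1)
      (fun x _ => (hR x).hasDerivWithinAt)
      (fun x hx => (hK2 x hx).trans ((le_abs_self K2).trans (by linarith))) ht hτ
  have e2 := (hK1 t ht).trans ((le_abs_self K1).trans (by linarith : |K1| ≤ |K1| + 1))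
  rw [Real.norm_eq_abs, Real.norm_eq_abs] at e1
  rw [Real.norm_eq_abs] at e2
  have e3 : |fTh N c δ t * (fR N δ τ - fR N δ t)| ≤ (|K1| + 1) * (|K2| + 1) * |τ - t| := by
    rw [abs_mul]
    calc |fTh N c δ t| * |fR N δ τ - fR N δ t| ≤ (|K1| + 1) * ((|K2| + 1) * |τ - t|) :=
          mul_le_mul e2 e1 (abs_nonneg _) (by positivity)
      _ = _ := by ring
  have := (abs_le.1 e3).1
  linarith


lemma fTh_bounds {N B c δ : ℝ} (h : FluxPar N B c δ) :
    ∃ K > 0, ∀ t ∈ Icc (-B) B, 0 < fTh N c δ t ∧ fTh N c δ t ≤ K := by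
  obtain ⟨K1, hK1⟩ := (isCompact_Icc (a := -B) (b := B)).exists_bound_of_continuousOn
    (f := fTh N c δ) (by unfold fTh fP; fun_prop)
  refine ⟨|K1| + 1, by positivity, fun t ht => ⟨?_, ?_⟩⟩
  · unfold fTh
    exact mul_pos (Real.exp_pos _) (by linarith [(fP_bounds h ht).1])
  · have := (le_abs_self _).trans (hK1 t ht)
    linarith [le_abs_self K1]

theorem flux_pointwise {N B c δ : ℝ} (h : FluxPar N B c δ) :
    ∃ C > 0, ∃ ε0 > 0, ∃ c0 > 0, ∀ ε ∈ Ioo (0 : ℝ) ε0, ∀ t ∈ Icc (-B) B, ∀ τ ∈ Icc (-B) B,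
      c0 ≤ fnu N δ ε τ ∧ fnu N δ ε τ ≤ C ∧
      (fH N c δ τ - fH N c δ t) + fB N c δ t τ -
        ε * (fTh N c δ t * fM N δ t + (fPsi N c δ τ - fPsi N c δ t)) +
        (N + 1) / 2 * ε ^ 2 * (fTh N c δ t * fR N δ t) -
        C * (ε * (τ - t) ^ 2 + ε ^ 2 * |τ - t| + ε ^ 3)
      ≤ fTh N c δ t * (fnu N δ ε τ ^ (-(1 / N)) - fL N δ t) := by
  have hN := h.hN
  have hδ := h.hδ
  have hB := h.hB
  have hN0 : 0 < N := by linarith
  obtain ⟨C2, hC2, hM⟩ := fM_quad h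
  obtain ⟨C3, hC3, hR⟩ := fR_lip N B c δ
  obtain ⟨K, hK, hTh⟩ := fTh_bounds h
  obtain ⟨C1, hC1, hT⟩ := (H84FC.rpow_t2 (-(1 / N))).exists_pos
  rw [Asymptotics.isBigOWith_iff] at hT
  obtain ⟨r, hr, hball⟩ := Metric.eventually_nhds_iff_ball.1 hT
  obtain ⟨E, hE⟩ : ∃ E, E = Real.exp (δ * B / 2) := ⟨_, rfl⟩
  have hE0 : 0 < E := by rw [hE]; exact Real.exp_pos _
  obtain ⟨F, hF⟩ : ∃ F, F = Real.exp (δ * B / (2 * N)) := ⟨_, rfl⟩
  have hF0 : 0 < F := by rw [hF]; exact Real.exp_pos _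
  obtain ⟨K2, hK2⟩ : ∃ K2, K2 = N * B * E := ⟨_, rfl⟩
  have hK20 : 0 < K2 := by rw [hK2]; positivity
  refine ⟨C2 + (N + 1) / 2 * C3 + K * F * C1 * K2 ^ 3 + 2 * E, by positivity,
    min (1 / (2 * K2)) (r / (2 * K2)), by positivity, 1 / (2 * E), by positivity, ?_⟩
  intro ε hε t ht τ hτ
  have hε0 := hε.1
  have hε1 : ε * K2 ≤ 1 / 2 := by
    have := hε.2.trans_le (min_le_left _ _)
    rw [lt_div_iff₀ (by positivity)] at this
    linarith
  have hε2 : ε * K2 < r := by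
    have := hε.2.trans_le (min_le_right _ _)
    rw [lt_div_iff₀ (by positivity)] at this
    linarith
  obtain ⟨x, hx⟩ : ∃ x, x = ε * N * τ * Real.exp (δ * τ / 2) := ⟨_, rfl⟩
  have hEτ : Real.exp (δ * τ / 2) ≤ E := by
    rw [hE, Real.exp_le_exp]
    have := mul_le_mul_of_nonneg_left hτ.2 hδ.le
    linarith
  have hτa : |τ| ≤ B := abs_le.2 hτ
  have hxa : |x| ≤ ε * K2 := by
    rw [hx, abs_mul, abs_mul, abs_of_pos (by positivity : 0 < ε * N),
      abs_of_pos (Real.exp_pos _), hK2]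
    calc ε * N * |τ| * Real.exp (δ * τ / 2) ≤ ε * N * B * E :=
          mul_le_mul (mul_le_mul_of_nonneg_left hτa (by positivity)) hEτ (Real.exp_pos _).le
            (by positivity)
      _ = _ := by ring
  have hx1 := abs_le.1 (hxa.trans hε1)
  have hnu : fnu N δ ε τ = Real.exp (-(δ * τ / 2)) * (1 + x) := by
    unfold fnu
    rw [hx, mul_add, mul_one]
    congr 1
    rw [show Real.exp (-(δ * τ / 2)) * (ε * N * τ * Real.exp (δ * τ / 2)) =
      ε * N * τ * (Real.exp (-(δ * τ / 2)) * Real.exp (δ * τ / 2)) by ring, ← Real.exp_add]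
    simp
  have hEm : Real.exp (-(δ * τ / 2)) ≤ E := by
    rw [hE, Real.exp_le_exp]
    have := mul_le_mul_of_nonneg_left hτ.1 hδ.le
    linarith
  have hEm' : 1 / E ≤ Real.exp (-(δ * τ / 2)) := by
    rw [Real.exp_neg, one_div]
    exact inv_anti₀ (Real.exp_pos _) hEτ
  have h1x : 0 < 1 + x := by linarith [hx1.1]
  refine ⟨?_, ?_, ?_⟩
  · rw [hnu]
    have e1 : 1 / (2 * E) = 1 / E * (1 / 2) := by field_simp
    rw [e1]
    exact mul_le_mul hEm' (by linarith [hx1.1]) (by norm_num) (Real.exp_pos _).le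
  · rw [hnu]
    have e1 : Real.exp (-(δ * τ / 2)) * (1 + x) ≤ E * 2 :=
      mul_le_mul hEm (by linarith [hx1.2]) h1x.le hE0.le
    have e2 : 0 ≤ C2 + (N + 1) / 2 * C3 + K * F * C1 * K2 ^ 3 := by positivity
    linarith
  · have hpow : fnu N δ ε τ ^ (-(1 / N)) = fL N δ τ * (1 + x) ^ (-(1 / N)) := by
      rw [hnu, Real.mul_rpow (Real.exp_pos _).le h1x.le, ← Real.exp_mul]
      congr 1
      unfold fL
      congr 1
      field_simp
    have hb := hball x (by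
      rw [Metric.mem_ball, Real.dist_eq, sub_zero]
      exact hxa.trans_lt hε2)
    rw [Real.norm_eq_abs, Real.norm_eq_abs, abs_pow] at hb
    have hb2 : C1 * |x| ^ 3 ≤ C1 * (ε * K2) ^ 3 :=
      mul_le_mul_of_nonneg_left (pow_le_pow_left₀ (abs_nonneg _) hxa 3) hC1.le
    have hb3 := (abs_le.1 (hb.trans hb2)).1
    have hL0 : 0 < fL N δ τ := Real.exp_pos _
    have hLF : fL N δ τ ≤ F := by
      unfold fL
      rw [hF, Real.exp_le_exp]
      exact div_le_div_of_nonneg_right (mul_le_mul_of_nonneg_left hτ.2 hδ.le) (by positivity)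
    -- lower bound for nu^(-1/N)
    have hLx : fL N δ τ * (1 / N * x) = ε * fM N δ τ := by
      have e : Real.exp (δ / 2 * (1 + 1 / N) * τ) = Real.exp (δ * τ / (2 * N)) *
          Real.exp (δ * τ / 2) := by
        rw [← Real.exp_add]
        congr 1
        field_simp
        ring
      unfold fL fM
      rw [hx, e]
      field_simp
    have hLx2 : fL N δ τ * (1 / N * (1 / N + 1) / 2 * x ^ 2) =
        (N + 1) / 2 * ε ^ 2 * fR N δ τ := by
      have e : Real.exp (δ / 2 * (2 + 1 / N) * τ) = Real.exp (δ * τ / (2 * N)) *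
          Real.exp (δ * τ / 2) ^ 2 := by
        rw [← Real.exp_nat_mul, ← Real.exp_add]
        congr 1
        push_cast
        field_simp
        ring
      unfold fL fR
      rw [hx, e]
      field_simp
      ring
    have hlow : fL N δ τ - ε * fM N δ τ + (N + 1) / 2 * ε ^ 2 * fR N δ τ -
        F * (C1 * (ε * K2) ^ 3) ≤ fnu N δ ε τ ^ (-(1 / N)) := by
      rw [hpow, ← hLx, ← hLx2]
      have e1 : 1 + -(1 / N) * x + -(1 / N) * (-(1 / N) - 1) / 2 * x ^ 2 - C1 * (ε * K2) ^ 3 ≤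
          (1 + x) ^ (-(1 / N)) := by linarith
      have e2 := mul_le_mul_of_nonneg_left e1 hL0.le
      have e3 : fL N δ τ * (C1 * (ε * K2) ^ 3) ≤ F * (C1 * (ε * K2) ^ 3) :=
        mul_le_mul_of_nonneg_right hLF (by positivity)
      nlinarith
    obtain ⟨hT0, hTK⟩ := hTh t ht
    have g1 := mul_le_mul_of_nonneg_left hlow hT0.le
    have g2 : fTh N c δ t * (F * (C1 * (ε * K2) ^ 3)) ≤ K * (F * (C1 * (ε * K2) ^ 3)) :=
      mul_le_mul_of_nonneg_right hTK (by positivity)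
    have g3 := mul_le_mul_of_nonneg_left (hM t ht τ hτ) hε0.le
    have g4 := mul_le_mul_of_nonneg_left (hR t ht τ hτ)
      (by positivity : 0 ≤ (N + 1) / 2 * ε ^ 2)
    have g5 : fTh N c δ t * (fL N δ τ - fL N δ t) = fB N c δ t τ +
        (fH N c δ τ - fH N c δ t) := by unfold fB; ring
    have g6 : 0 ≤ C2 * (ε ^ 2 * |τ - t| + ε ^ 3) := by positivity
    have g7 : 0 ≤ (N + 1) / 2 * C3 * (ε * (τ - t) ^ 2 + ε ^ 3) := by positivity
    have g8 : 0 ≤ K * F * C1 * K2 ^ 3 * (ε * (τ - t) ^ 2 + ε ^ 2 * |τ - t|) := by positivity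
    have g9 : 0 ≤ 2 * E * (ε * (τ - t) ^ 2 + ε ^ 2 * |τ - t| + ε ^ 3) := by positivity
    linarith

end H13CD
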