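import Pool.Agent.Helper13.CD.FluxPlan

/-!
# Module O3a: `flux_est`, steps (1)-(5) of the flux argument
-/

open MeasureTheory Set Filter Topology
open scoped ENNReal NNReal

namespace H13CD

section FluxEst

variable {X : Type*} [MetricSpace X] [CompactSpace X] [MeasurableSpace X] [BorelSpace X]
  {m : Measure X} [IsProbabilityMeasure m]

/-! ### pointwise facts -/

theorem fe_inv_nu {N B δ ε c0 t : ℝ} (hN : 0 < N) (hB : 0 < B) (hδ : 0 < δ)
    (ht : t ∈ Icc (-B) B) (hc0 : 0 < c0) (hν : c0 ≤ fnu N δ ε t) :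
    1 / fnu N δ ε t ≤ Real.exp (δ * t / 2) - ε * N * (t * Real.exp (δ * t)) +
      (N * B * Real.exp (δ * B / 2)) ^ 2 / c0 * ε ^ 2 := by
  have hν0 : 0 < fnu N δ ε t := lt_of_lt_of_le hc0 hν
  have hee : Real.exp (δ * t) = Real.exp (δ * t / 2) ^ 2 := by
    rw [sq, ← Real.exp_add]; congr 1; ring
  have hem : Real.exp (-(δ * t / 2)) * Real.exp (δ * t / 2) = 1 := by
    rw [← Real.exp_add]; simp
  set e := Real.exp (δ * t / 2) with he
  have he0 : 0 < e := Real.exp_pos _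
  have heB : e ≤ Real.exp (δ * B / 2) := by
    rw [he]
    apply Real.exp_le_exp.mpr
    have := mul_le_mul_of_nonneg_left ht.2 hδ.le
    linarith
  -- the exact identity
  have hid : 1 / fnu N δ ε t = e - ε * N * (t * e ^ 2) + (ε * N * t * e) ^ 2 / fnu N δ ε t := by
    rw [div_eq_iff hν0.ne', add_mul, div_mul_cancel₀ _ hν0.ne']
    unfold fnu
    linear_combination (-(1 : ℝ) - 0 + ε * N * t * e) * hem
  rw [hid, hee]
  have h1 : (ε * N * t * e) ^ 2 ≤ (N * B * Real.exp (δ * B / 2)) ^ 2 * ε ^ 2 := by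
    have h2 : |t| ≤ B := abs_le.mpr ht
    have h3 : |t * e| ≤ B * Real.exp (δ * B / 2) := by
      rw [abs_mul, abs_of_pos he0]
      exact mul_le_mul h2 heB he0.le hB.le
    have h4 : (t * e) ^ 2 ≤ (B * Real.exp (δ * B / 2)) ^ 2 := by
      rw [← sq_abs]
      exact pow_le_pow_left₀ (abs_nonneg _) h3 2
    have h5 := mul_le_mul_of_nonneg_left h4 (sq_nonneg (ε * N))
    calc (ε * N * t * e) ^ 2 = (ε * N) ^ 2 * (t * e) ^ 2 := by ring
      _ ≤ _ := h5
      _ = _ := by ring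
  have h6 : (ε * N * t * e) ^ 2 / fnu N δ ε t ≤
      (N * B * Real.exp (δ * B / 2)) ^ 2 / c0 * ε ^ 2 := by
    rw [div_mul_eq_mul_div]
    exact div_le_div₀ (by positivity) h1 hc0 hν
  linarith

theorem fe_ThM (N c δ t : ℝ) : Real.exp (-(δ * t / 2)) * (fTh N c δ t * fM N δ t) =
    t * (Real.exp (δ * t / 2) * fP N c t) := by
  unfold fTh fM
  have h : Real.exp (-(δ * t / 2)) * Real.exp ((1 - 1 / N) * δ * t / 2) *
      Real.exp (δ / 2 * (1 + 1 / N) * t) = Real.exp (δ * t / 2) := by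
    rw [← Real.exp_add, ← Real.exp_add]; congr 1; ring
  rw [← h]; ring

theorem fe_ThR (N c δ t : ℝ) : Real.exp (-(δ * t / 2)) * (fTh N c δ t * fR N δ t) =
    t ^ 2 * Real.exp (δ * t) * fP N c t := by
  unfold fTh fR
  have h : Real.exp (-(δ * t / 2)) * Real.exp ((1 - 1 / N) * δ * t / 2) *
      Real.exp (δ / 2 * (2 + 1 / N) * t) = Real.exp (δ * t) := by
    rw [← Real.exp_add, ← Real.exp_add]; congr 1; ring
  rw [← h]; ring

theorem fe_deriv1 (N c δ t : ℝ) : HasDerivAt (fun t => Real.exp (δ * t / 2) * fP N c t)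
    (δ / 2 * Real.exp (δ * t / 2) * fP N c t - (N - 1) * c * Real.exp (δ * t / 2)) t := by
  have h1 : HasDerivAt (fun t : ℝ => δ * t / 2) (δ / 2) t := by
    have := ((hasDerivAt_id t).const_mul δ).div_const 2
    simpa using this
  have h2 : HasDerivAt (fun t : ℝ => fP N c t) (-((N - 1) * c)) t := by
    unfold fP
    have := ((hasDerivAt_id t).const_mul ((N - 1) * c)).const_sub 1
    simpa using this
  exact (h1.exp.mul h2).congr_deriv (by ring)

theorem fe_lip {B : ℝ} {φ φ' : ℝ → ℝ} (hφ : ∀ t ∈ Icc (-B) B, HasDerivAt φ (φ' t) t)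
    (hc : ContinuousOn φ' (Icc (-B) B)) :
    ∃ L, 0 ≤ L ∧ ∀ t ∈ Icc (-B) B, ∀ τ ∈ Icc (-B) B, |φ τ - φ t| ≤ L * |τ - t| := by
  obtain ⟨L, hL⟩ := isCompact_Icc.exists_bound_of_continuousOn hc
  refine ⟨max L 0, le_max_right _ _, fun t ht τ hτ => ?_⟩
  have h := Convex.norm_image_sub_le_of_norm_hasDerivWithin_le (C := max L 0)
    (fun x hx => (hφ x hx).hasDerivWithinAt) (fun x hx => (hL x hx).trans (le_max_left _ _))
    (convex_Icc (-B) B) ht hτ
  simpa [Real.norm_eq_abs] using h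

/-- Lipschitz bound for `θ` -/
theorem fe_theta_lip {N B c δ : ℝ} (hp : FluxPar N B c δ) :
    ∃ L, 0 ≤ L ∧ ∀ t ∈ Icc (-B) B, ∀ τ ∈ Icc (-B) B,
      |Real.exp (δ * τ / 2) * fP N c τ ^ (N / (N - 1)) -
        Real.exp (δ * t / 2) * fP N c t ^ (N / (N - 1))| ≤ L * |τ - t| := by
  have hN := hp.hN
  have hq : 1 ≤ N / (N - 1) := by
    rw [le_div_iff₀ (by linarith)]; linarith
  have hq' : 0 ≤ N / (N - 1) - 1 := by linarith
  refine fe_lip (φ := fun t => Real.exp (δ * t / 2) * fP N c t ^ (N / (N - 1)))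
    (φ' := fun t => δ / 2 * Real.exp (δ * t / 2) * fP N c t ^ (N / (N - 1)) +
      Real.exp (δ * t / 2) * (N / (N - 1) * fP N c t ^ (N / (N - 1) - 1) * (-((N - 1) * c))))
    (fun t _ => ?_) ?_
  · have h1 : HasDerivAt (fun t : ℝ => δ * t / 2) (δ / 2) t := by
      have := ((hasDerivAt_id t).const_mul δ).div_const 2
      simpa using this
    have h2 : HasDerivAt (fun t : ℝ => fP N c t) (-((N - 1) * c)) t := by
      unfold fP
      have := ((hasDerivAt_id t).const_mul ((N - 1) * c)).const_sub 1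
      simpa using this
    have h3 := h2.rpow_const (p := N / (N - 1)) (Or.inr hq)
    exact (h1.exp.mul h3).congr_deriv (by ring)
  · have hP : Continuous (fun t : ℝ => fP N c t) := by unfold fP; fun_prop
    have h5 : Continuous (fun t : ℝ => fP N c t ^ (N / (N - 1))) :=
      hP.rpow_const (fun t => Or.inr (by linarith))
    have h6 : Continuous (fun t : ℝ => fP N c t ^ (N / (N - 1) - 1)) :=
      hP.rpow_const (fun t => Or.inr hq')
    have h7 : Continuous (fun t : ℝ => Real.exp (δ * t / 2)) := by fun_prop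
    exact ((((continuous_const.mul h7).mul h5).add
      (h7.mul ((continuous_const.mul h6).mul continuous_const)))).continuousOn

/-! ### measurability, boundedness -/

theorem fe_mem {N B : ℝ} {f g0 : X → ℝ} (h : Extremal m N B f g0) (x : X) : f x ∈ Icc (-B) B :=
  abs_le.mp (h.lim.bound x)

theorem fe_bdd {N B : ℝ} {f g0 : X → ℝ} (h : Extremal m N B f g0) {φ : ℝ → ℝ}
    (hφ : Continuous φ) : ∃ C, 0 ≤ C ∧ ∀ x, |φ (f x)| ≤ C := by
  obtain ⟨C, hC⟩ := isCompact_Icc.exists_bound_of_continuousOn (hφ.continuousOn (s := Icc (-B) B))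
  exact ⟨max C 0, le_max_right _ _, fun x => (hC _ (fe_mem h x)).trans (le_max_left _ _)⟩

theorem fe_int_bdd {Y : Type*} [MeasurableSpace Y] {Q : Measure Y} [IsFiniteMeasure Q]
    {k : Y → ℝ} (hk : Measurable k) {C : ℝ} (hC : ∀ x, |k x| ≤ C) : Integrable k Q :=
  Integrable.of_bound hk.aestronglyMeasurable C (ae_of_all _ hC)

theorem fe_int_comp {N B : ℝ} {f g0 : X → ℝ} (h : Extremal m N B f g0) {φ : ℝ → ℝ}
    (hφ : Continuous φ) : Integrable (fun x => φ (f x)) m := by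
  obtain ⟨C, -, hC⟩ := fe_bdd h hφ
  exact fe_int_bdd (hφ.measurable.comp h.lim.meas) hC

theorem fe_int_comp1 {N B : ℝ} {f g0 : X → ℝ} (h : Extremal m N B f g0) {φ : ℝ → ℝ}
    (hφ : Continuous φ) {Q : Measure (X × X)} [IsFiniteMeasure Q] :
    Integrable (fun z : X × X => φ (f z.1)) Q := by
  obtain ⟨C, -, hC⟩ := fe_bdd h hφ
  exact fe_int_bdd ((hφ.measurable.comp h.lim.meas).comp measurable_fst) (fun z => hC z.1)

theorem fe_int_comp2 {N B : ℝ} {f g0 : X → ℝ} (h : Extremal m N B f g0) {φ : ℝ → ℝ}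
    (hφ : Continuous φ) {Q : Measure (X × X)} [IsFiniteMeasure Q] :
    Integrable (fun z : X × X => φ (f z.2)) Q := by
  obtain ⟨C, -, hC⟩ := fe_bdd h hφ
  exact fe_int_bdd ((hφ.measurable.comp h.lim.meas).comp measurable_snd) (fun z => hC z.2)

theorem fe_int_G {N B : ℝ} {f g0 : X → ℝ} (h : Extremal m N B f g0) {k : X → ℝ}
    (hk : Measurable k) {C : ℝ} (hC : ∀ x, |k x| ≤ C) :
    Integrable (fun x => g0 x ^ 2 * k x) m := by
  refine h.lim.gL2.mul_bdd (c := C) hk.aestronglyMeasurable (ae_of_all _ fun x => ?_)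
  rw [Real.norm_eq_abs]; exact hC x

theorem fe_int_Gcomp {N B : ℝ} {f g0 : X → ℝ} (h : Extremal m N B f g0) {φ : ℝ → ℝ}
    (hφ : Continuous φ) : Integrable (fun x => g0 x ^ 2 * φ (f x)) m := by
  obtain ⟨C, -, hC⟩ := fe_bdd h hφ
  exact fe_int_G h (hφ.measurable.comp h.lim.meas) hC

theorem fe_int_g0 {N B : ℝ} {f g0 : X → ℝ} (h : Extremal m N B f g0) : Integrable g0 m := by
  refine Integrable.mono' ((integrable_const (1 : ℝ)).add h.lim.gL2)
    h.lim.gmeas.aestronglyMeasurable (ae_of_all _ fun x => ?_)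
  rw [Real.norm_eq_abs, abs_of_nonneg (h.lim.gnonneg x)]
  simp only [Pi.add_apply]
  nlinarith [sq_nonneg (g0 x - 1)]

/-! ### continuity of the auxiliary functions -/

theorem fe_cont_P (N c : ℝ) : Continuous (fP N c) := by unfold fP; fun_prop

theorem fe_cont_Th (N c δ : ℝ) : Continuous (fTh N c δ) := by
  unfold fTh; have := fe_cont_P N c; fun_prop

theorem fe_cont_L (N δ : ℝ) : Continuous (fL N δ) := by unfold fL; fun_prop

theorem fe_cont_M (N δ : ℝ) : Continuous (fM N δ) := by unfold fM; fun_prop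

theorem fe_cont_R (N δ : ℝ) : Continuous (fR N δ) := by unfold fR; fun_prop

theorem fe_cont_H (N c δ : ℝ) : Continuous (fH N c δ) := by
  unfold fH; have := fe_cont_P N c; fun_prop

theorem fe_cont_psi (N c δ : ℝ) : Continuous (fpsi N c δ) := by
  unfold fpsi; have := fe_cont_P N c; fun_prop

theorem fe_cont_Psi (N c δ : ℝ) : Continuous (fPsi N c δ) :=
  continuous_iff_continuousAt.mpr fun t => (hasDerivAt_fPsi N c δ t).continuousAt

theorem fe_cont_nu (N δ ε : ℝ) : Continuous (fnu N δ ε) := by unfold fnu; fun_prop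


/-! ### integrals against the plan -/

theorem fe_finpi {N B c δ ε c1 C1 : ℝ} {f g0 : X → ℝ} {π P' : Measure (X × X)} {α ρ1 : X → ℝ}
    (h : Extremal m N B f g0) (hd : FluxData m N c δ ε c1 C1 f g0 π P' α ρ1) :
    IsFiniteMeasure π := by
  have hc : Continuous (fun t : ℝ => Real.exp (-(δ * t / 2))) := by fun_prop
  have := isFiniteMeasure_dens (m := m) (ρ := fun x => Real.exp (-(δ * f x / 2)))
    (fe_int_comp h hc)
  exact hd.cplπ.isFiniteMeasure

theorem fe_fst {N B c δ ε c1 C1 : ℝ} {f g0 : X → ℝ} {π P' : Measure (X × X)} {α ρ1 : X → ℝ}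
    (h : Extremal m N B f g0) (hd : FluxData m N c δ ε c1 C1 f g0 π P' α ρ1)
    {k : X → ℝ} (hk : Measurable k) :
    ∫ z, k z.1 ∂π = ∫ x, Real.exp (-(δ * f x / 2)) * k x ∂m := by
  have hc : Continuous (fun t : ℝ => Real.exp (-(δ * t / 2))) := by fun_prop
  have hm : Measurable (fun x => Real.exp (-(δ * f x / 2))) := hc.measurable.comp h.lim.meas
  rw [hd.cplπ.integral_fst hk.aestronglyMeasurable,
    integral_dens hm (fun x => (Real.exp_pos _).le)]

theorem fe_snd {N B c δ ε c1 C1 : ℝ} {f g0 : X → ℝ} {π P' : Measure (X × X)} {α ρ1 : X → ℝ}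
    (h : Extremal m N B f g0) (hd : FluxData m N c δ ε c1 C1 f g0 π P' α ρ1)
    (hν : ∀ t ∈ Icc (-B) B, 0 ≤ fnu N δ ε t) {k : X → ℝ} (hk : Measurable k) :
    ∫ z, k z.2 ∂π = ∫ x, fnu N δ ε (f x) * k x ∂m := by
  have hm : Measurable (fun x => fnu N δ ε (f x)) :=
    (fe_cont_nu N δ ε).measurable.comp h.lim.meas
  rw [hd.cplπ.integral_snd hk.aestronglyMeasurable,
    integral_dens hm (fun x => hν _ (fe_mem h x))]

theorem fe_diff {N B c δ ε c1 C1 : ℝ} {f g0 : X → ℝ} {π P' : Measure (X × X)} {α ρ1 : X → ℝ}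
    (h : Extremal m N B f g0) (hd : FluxData m N c δ ε c1 C1 f g0 π P' α ρ1)
    (hν : ∀ t ∈ Icc (-B) B, 0 ≤ fnu N δ ε t) {Φ Φ' : ℝ → ℝ}
    (hΦ : ∀ t, HasDerivAt Φ (Φ' t) t) (hc : Continuous Φ') :
    ∫ z, (Φ (f z.2) - Φ (f z.1)) ∂π = ε * ∫ x, g0 x ^ 2 * Φ' (f x) ∂m := by
  have hΦc : Continuous Φ := continuous_iff_continuousAt.mpr fun t => (hΦ t).continuousAt
  have := fe_finpi h hd
  have hmm : Measurable (fun x => Φ (f x)) := hΦc.measurable.comp h.lim.meas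
  have h1 : Integrable (fun x => fnu N δ ε (f x) * Φ (f x)) m :=
    fe_int_comp h ((fe_cont_nu N δ ε).mul hΦc)
  have h2 : Integrable (fun x => Real.exp (-(δ * f x / 2)) * Φ (f x)) m :=
    fe_int_comp h (φ := fun t => Real.exp (-(δ * t / 2)) * Φ t) (by fun_prop)
  rw [integral_sub (fe_int_comp2 h hΦc) (fe_int_comp1 h hΦc), fe_snd h hd hν hmm,
    fe_fst h hd hmm, ← h.el2 Φ Φ' hΦ hc, ← integral_const_mul, ← integral_const_mul,
    ← integral_sub h1 h2]
  refine integral_congr_ae (ae_of_all _ fun x => ?_)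
  simp only [fnu]
  ring

theorem fe_mass {N B c δ ε c1 C1 : ℝ} {f g0 : X → ℝ} {π P' : Measure (X × X)} {α ρ1 : X → ℝ}
    (h : Extremal m N B f g0) (hd : FluxData m N c δ ε c1 C1 f g0 π P' α ρ1) :
    π.real univ = ∫ x, Real.exp (-(δ * f x / 2)) ∂m := by
  have h1 := fe_fst h hd (k := fun _ => (1 : ℝ)) measurable_const
  rw [integral_const, smul_eq_mul, mul_one] at h1
  rw [h1]
  simp only [mul_one]

theorem fe_int_D2 {N B : ℝ} {f g0 : X → ℝ} (h : Extremal m N B f g0)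
    {Q : Measure (X × X)} [IsFiniteMeasure Q] :
    Integrable (fun z : X × X => (f z.2 - f z.1) ^ 2) Q := by
  have hf := h.lim.meas
  refine fe_int_bdd (C := (2 * B) ^ 2) (by fun_prop) (fun z => ?_)
  rw [abs_of_nonneg (sq_nonneg _)]
  have h1 := fe_mem h z.1
  have h2 := fe_mem h z.2
  rw [← sq_abs]
  refine pow_le_pow_left₀ (abs_nonneg _) ?_ 2
  rw [abs_le]
  constructor <;> linarith [h1.1, h1.2, h2.1, h2.2]

theorem fe_int_D1 {N B : ℝ} {f g0 : X → ℝ} (h : Extremal m N B f g0)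
    {Q : Measure (X × X)} [IsFiniteMeasure Q] :
    Integrable (fun z : X × X => |f z.2 - f z.1|) Q := by
  have hf := h.lim.meas
  refine fe_int_bdd (C := 2 * B) (by fun_prop) (fun z => ?_)
  rw [abs_abs]
  have h1 := fe_mem h z.1
  have h2 := fe_mem h z.2
  rw [abs_le]
  constructor <;> linarith [h1.1, h1.2, h2.1, h2.2]

/-- `p c I1 = ∫ G H'(f) - ∫ f e^(δf/2) P(f)` -/
theorem fe_first {N B c δ : ℝ} {f g0 : X → ℝ} (h : Extremal m N B f g0) (hN : 1 < N) :
    ∫ x, g0 x ^ 2 * (δ / (2 * N) * Real.exp (δ * f x / 2) * fP N c (f x)) ∂m -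
      ∫ x, f x * (Real.exp (δ * f x / 2) * fP N c (f x)) ∂m =
    (1 - 1 / N) * c * ∫ x, g0 x ^ 2 * Real.exp (δ * f x / 2) ∂m := by
  have hN0 : N ≠ 0 := by linarith
  have hcP := fe_cont_P N c
  have h1 := h.el2 (fun t => Real.exp (δ * t / 2) * fP N c t)
    (fun t => δ / 2 * Real.exp (δ * t / 2) * fP N c t - (N - 1) * c * Real.exp (δ * t / 2))
    (fe_deriv1 N c δ) (by fun_prop)
  have h2 : ∫ x, f x * (Real.exp (δ * f x / 2) * fP N c (f x)) ∂m =
      1 / N * ∫ x, g0 x ^ 2 * (δ / 2 * Real.exp (δ * f x / 2) * fP N c (f x) -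
        (N - 1) * c * Real.exp (δ * f x / 2)) ∂m := by
    rw [← h1, ← mul_assoc, one_div, inv_mul_cancel₀ hN0, one_mul]
  rw [h2, ← integral_const_mul, ← integral_const_mul, ← integral_sub]
  · refine integral_congr_ae (ae_of_all _ fun x => ?_)
    simp only []
    field_simp
    ring
  · exact fe_int_Gcomp h (φ := fun t => δ / (2 * N) * Real.exp (δ * t / 2) * fP N c t)
      (by fun_prop)
  · exact (fe_int_Gcomp h (φ := fun t => δ / 2 * Real.exp (δ * t / 2) * fP N c t -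
        (N - 1) * c * Real.exp (δ * t / 2)) (by fun_prop)).const_mul _

/-- step (1), (2) -/
theorem fe_low {N B c δ ε c1 C1 : ℝ} {f g0 : X → ℝ} {π P' : Measure (X × X)} {α ρ1 : X → ℝ}
    (h : Extremal m N B f g0) (hp : FluxPar N B c δ)
    (hd : FluxData m N c δ ε c1 C1 f g0 π P' α ρ1) {c0 C0 : ℝ} (hc0 : 0 < c0)
    (hpw : ∀ t ∈ Icc (-B) B, ∀ τ ∈ Icc (-B) B,
      c0 ≤ fnu N δ ε τ ∧ fnu N δ ε τ ≤ C0 ∧
      (fH N c δ τ - fH N c δ t) + fB N c δ t τ -
        ε * (fTh N c δ t * fM N δ t + (fPsi N c δ τ - fPsi N c δ t)) +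
        (N + 1) / 2 * ε ^ 2 * (fTh N c δ t * fR N δ t) -
        C0 * (ε * (τ - t) ^ 2 + ε ^ 2 * |τ - t| + ε ^ 3)
      ≤ fTh N c δ t * (fnu N δ ε τ ^ (-(1 / N)) - fL N δ t)) :
    ∫ z, fB N c δ (f z.1) (f z.2) ∂π +
      ε * ((1 - 1 / N) * c * ∫ x, g0 x ^ 2 * Real.exp (δ * f x / 2) ∂m) -
      ε ^ 2 * ∫ x, g0 x ^ 2 * fpsi N c δ (f x) ∂m +
      (N + 1) / 2 * ε ^ 2 * ∫ x, f x ^ 2 * Real.exp (δ * f x) * fP N c (f x) ∂m -
      C0 * (ε * ∫ z, (f z.2 - f z.1) ^ 2 ∂π + ε ^ 2 * ∫ z, |f z.2 - f z.1| ∂π +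
        ε ^ 3 * ∫ x, Real.exp (-(δ * f x / 2)) ∂m) +
      ((1 - 1 / N) / 6 * ∫ z, α z.1 ^ 2 * ρ1 z.2 ^ (-(1 / N)) ∂P' +
        (1 - 1 / N) / 3 * ∫ x, α x ^ 2 * fP N c (f x) ∂m) ≤
    (1 - 1 / N) * c * ∫ x, g0 x * α x ∂m := by
  have hN := hp.hN
  have hfin := fe_finpi h hd
  have hf := h.lim.meas
  have hν : ∀ t ∈ Icc (-B) B, 0 ≤ fnu N δ ε t := fun t ht =>
    hc0.le.trans (hpw t ht t ht).1
  have hcP := fe_cont_P N c
  have hcTh := fe_cont_Th N c δ
  have hcL := fe_cont_L N δ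
  have hcM := fe_cont_M N δ
  have hcR := fe_cont_R N δ
  have hcH := fe_cont_H N c δ
  have hcPsi := fe_cont_Psi N c δ
  have hcpsi := fe_cont_psi N c δ
  -- integrability
  have i1 : Integrable (fun z : X × X => fH N c δ (f z.2) - fH N c δ (f z.1)) π :=
    (fe_int_comp2 h hcH).sub (fe_int_comp1 h hcH)
  have i2 : Integrable (fun z : X × X => fB N c δ (f z.1) (f z.2)) π := by
    unfold fB
    refine Integrable.sub ?_ i1
    have a1 : Integrable (fun z : X × X => fL N δ (f z.2) - fL N δ (f z.1)) π :=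
      (fe_int_comp2 h hcL).sub (fe_int_comp1 h hcL)
    obtain ⟨D, -, hD⟩ := fe_bdd h hcTh
    refine a1.bdd_mul (c := D) ?_ (ae_of_all _ fun z => hD z.1)
    exact ((hcTh.measurable.comp hf).comp measurable_fst).aestronglyMeasurable
  have i3a : Integrable (fun z : X × X => fTh N c δ (f z.1) * fM N δ (f z.1)) π :=
    fe_int_comp1 h (φ := fun t => fTh N c δ t * fM N δ t) (by fun_prop)
  have i3b : Integrable (fun z : X × X => fPsi N c δ (f z.2) - fPsi N c δ (f z.1)) π :=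
    (fe_int_comp2 h hcPsi).sub (fe_int_comp1 h hcPsi)
  have i4 : Integrable (fun z : X × X => fTh N c δ (f z.1) * fR N δ (f z.1)) π :=
    fe_int_comp1 h (φ := fun t => fTh N c δ t * fR N δ t) (by fun_prop)
  have i5a : Integrable (fun z : X × X => (f z.2 - f z.1) ^ 2) π := fe_int_D2 h
  have i5b : Integrable (fun z : X × X => |f z.2 - f z.1|) π := fe_int_D1 h
  have i5 : Integrable (fun z : X × X => ε * (f z.2 - f z.1) ^ 2 + ε ^ 2 * |f z.2 - f z.1| +
      ε ^ 3) π := ((i5a.const_mul _).add (i5b.const_mul _)).add (integrable_const _)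
  have i12 : Integrable (fun z : X × X => (fH N c δ (f z.2) - fH N c δ (f z.1)) +
      fB N c δ (f z.1) (f z.2)) π := i1.add i2
  have i3 : Integrable (fun z : X × X => ε * (fTh N c δ (f z.1) * fM N δ (f z.1) +
      (fPsi N c δ (f z.2) - fPsi N c δ (f z.1)))) π := (i3a.add i3b).const_mul _
  have i123 : Integrable (fun z : X × X => (fH N c δ (f z.2) - fH N c δ (f z.1)) +
      fB N c δ (f z.1) (f z.2) - ε * (fTh N c δ (f z.1) * fM N δ (f z.1) +
      (fPsi N c δ (f z.2) - fPsi N c δ (f z.1)))) π := i12.sub i3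
  have i4' : Integrable (fun z : X × X => (N + 1) / 2 * ε ^ 2 *
      (fTh N c δ (f z.1) * fR N δ (f z.1))) π := i4.const_mul _
  have i1234 : Integrable (fun z : X × X => (fH N c δ (f z.2) - fH N c δ (f z.1)) +
      fB N c δ (f z.1) (f z.2) - ε * (fTh N c δ (f z.1) * fM N δ (f z.1) +
      (fPsi N c δ (f z.2) - fPsi N c δ (f z.1))) + (N + 1) / 2 * ε ^ 2 *
      (fTh N c δ (f z.1) * fR N δ (f z.1))) π := i123.add i4'
  have i5' : Integrable (fun z : X × X => C0 * (ε * (f z.2 - f z.1) ^ 2 +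
      ε ^ 2 * |f z.2 - f z.1| + ε ^ 3)) π := i5.const_mul _
  have iR : Integrable (fun z : X × X => fTh N c δ (f z.1) *
      (fnu N δ ε (f z.2) ^ (-(1 / N)) - fL N δ (f z.1))) π := by
    obtain ⟨D, hD0, hD⟩ := fe_bdd h hcTh
    obtain ⟨E, hE0, hE⟩ := fe_bdd h hcL
    have hmν : Measurable (fun z : X × X => fnu N δ ε (f z.2) ^ (-(1 / N))) :=
      (((fe_cont_nu N δ ε).measurable.comp hf).comp measurable_snd).pow_const _
    have hmT : Measurable (fun z : X × X => fTh N c δ (f z.1)) :=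
      (hcTh.measurable.comp hf).comp measurable_fst
    have hmL : Measurable (fun z : X × X => fL N δ (f z.1)) :=
      (hcL.measurable.comp hf).comp measurable_fst
    refine fe_int_bdd (C := D * (c0 ^ (-(1 / N)) + E)) (hmT.mul (hmν.sub hmL)) (fun z => ?_)
    rw [abs_mul]
    refine mul_le_mul (hD z.1) ?_ (abs_nonneg _) hD0
    have hz := (hpw _ (fe_mem h z.2) _ (fe_mem h z.2)).1
    have b1 : fnu N δ ε (f z.2) ^ (-(1 / N)) ≤ c0 ^ (-(1 / N)) :=
      Real.rpow_le_rpow_of_nonpos hc0 hz (by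
        rw [neg_nonpos]; positivity)
    have b2 : 0 ≤ fnu N δ ε (f z.2) ^ (-(1 / N)) := Real.rpow_nonneg (hν _ (fe_mem h z.2)) _
    have b3 := abs_sub (fnu N δ ε (f z.2) ^ (-(1 / N))) (fL N δ (f z.1))
    rw [abs_of_nonneg b2] at b3
    have b4 := hE z.1
    linarith
  -- integrate the pointwise inequality
  have i12345 : Integrable (fun z : X × X => ((fH N c δ (f z.2) - fH N c δ (f z.1)) +
      fB N c δ (f z.1) (f z.2) - ε * (fTh N c δ (f z.1) * fM N δ (f z.1) +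
      (fPsi N c δ (f z.2) - fPsi N c δ (f z.1))) + (N + 1) / 2 * ε ^ 2 *
      (fTh N c δ (f z.1) * fR N δ (f z.1))) - C0 * (ε * (f z.2 - f z.1) ^ 2 +
      ε ^ 2 * |f z.2 - f z.1| + ε ^ 3)) π := i1234.sub i5'
  have hmono := integral_mono i12345 iR (fun z => (hpw _ (fe_mem h z.1) _
    (fe_mem h z.2)).2.2)
  have e1 : ∫ z, (((fH N c δ (f z.2) - fH N c δ (f z.1)) +
      fB N c δ (f z.1) (f z.2) - ε * (fTh N c δ (f z.1) * fM N δ (f z.1) +
      (fPsi N c δ (f z.2) - fPsi N c δ (f z.1))) + (N + 1) / 2 * ε ^ 2 *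
      (fTh N c δ (f z.1) * fR N δ (f z.1))) - C0 * (ε * (f z.2 - f z.1) ^ 2 +
      ε ^ 2 * |f z.2 - f z.1| + ε ^ 3)) ∂π =
      (∫ z, (fH N c δ (f z.2) - fH N c δ (f z.1)) ∂π + ∫ z, fB N c δ (f z.1) (f z.2) ∂π -
      ε * (∫ z, fTh N c δ (f z.1) * fM N δ (f z.1) ∂π +
        ∫ z, (fPsi N c δ (f z.2) - fPsi N c δ (f z.1)) ∂π) +
      (N + 1) / 2 * ε ^ 2 * ∫ z, fTh N c δ (f z.1) * fR N δ (f z.1) ∂π) -
      C0 * (ε * ∫ z, (f z.2 - f z.1) ^ 2 ∂π + ε ^ 2 * ∫ z, |f z.2 - f z.1| ∂π +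
        ε ^ 3 * π.real univ) := by
    have i5c : Integrable (fun z : X × X => ε * (f z.2 - f z.1) ^ 2 +
      ε ^ 2 * |f z.2 - f z.1|) π := (i5a.const_mul _).add (i5b.const_mul _)
    rw [integral_sub i1234 i5', integral_add i123 i4', integral_sub i12 i3, integral_add i1 i2,
      integral_const_mul, integral_add i3a i3b, integral_const_mul, integral_const_mul,
      integral_add i5c (integrable_const _),
      integral_add (i5a.const_mul _) (i5b.const_mul _), integral_const_mul, integral_const_mul,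
      integral_const, smul_eq_mul, mul_comm (π.real univ)]
  rw [e1] at hmono
  have e2 := fe_diff h hd hν (hasDerivAt_fH hp) (by fun_prop)
  have e3 := fe_diff h hd hν (hasDerivAt_fPsi N c δ) hcpsi
  have e4 : ∫ z, fTh N c δ (f z.1) * fM N δ (f z.1) ∂π =
      ∫ x, f x * (Real.exp (δ * f x / 2) * fP N c (f x)) ∂m := by
    rw [fe_fst h hd (k := fun x => fTh N c δ (f x) * fM N δ (f x))
      (((hcTh.mul hcM).measurable).comp hf)]
    exact integral_congr_ae (ae_of_all _ fun x => fe_ThM N c δ (f x))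
  have e5 : ∫ z, fTh N c δ (f z.1) * fR N δ (f z.1) ∂π =
      ∫ x, f x ^ 2 * Real.exp (δ * f x) * fP N c (f x) ∂m := by
    rw [fe_fst h hd (k := fun x => fTh N c δ (f x) * fR N δ (f x))
      (((hcTh.mul hcR).measurable).comp hf)]
    exact integral_congr_ae (ae_of_all _ fun x => fe_ThR N c δ (f x))
  have e6 := fe_mass h hd
  have e7 := fe_first (c := c) (δ := δ) h hN
  have e8 := hd.di
  rw [e2, e3, e4, e5, e6] at hmono
  linear_combination hmono + e8 - ε * e7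

/-- the square of step (5) -/
theorem fe_V {N B c δ ε c1 C1 : ℝ} {f g0 : X → ℝ} {π P' : Measure (X × X)} {α ρ1 : X → ℝ}
    (h : Extremal m N B f g0) (hd : FluxData m N c δ ε c1 C1 f g0 π P' α ρ1) (hε : 0 < ε) :
    ∫ x, (Real.exp (δ * f x / 4) * g0 x - Real.exp (-(δ * f x / 4)) * (α x / ε)) ^ 2 ∂m =
      ∫ x, g0 x ^ 2 * Real.exp (δ * f x / 2) ∂m - 2 / ε * ∫ x, g0 x * α x ∂m +
        (1 / ε ^ 2) * ∫ x, α x ^ 2 * Real.exp (-(δ * f x / 2)) ∂m := by
  have hf := h.lim.meas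
  obtain ⟨D, hD⟩ := hd.αbdd
  have hαm := hd.αmeas
  have hαD : ∀ x, |α x| ≤ D := fun x => by
    rw [abs_of_nonneg (hd.αnonneg x)]; exact hD x
  have i1 : Integrable (fun x => g0 x ^ 2 * Real.exp (δ * f x / 2)) m :=
    fe_int_Gcomp h (φ := fun t => Real.exp (δ * t / 2)) (by fun_prop)
  have i2 : Integrable (fun x => g0 x * α x) m := by
    refine (fe_int_g0 h).mul_bdd (c := D) hαm.aestronglyMeasurable (ae_of_all _ fun x => ?_)
    rw [Real.norm_eq_abs]; exact hαD x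
  have i3 : Integrable (fun x => α x ^ 2 * Real.exp (-(δ * f x / 2))) m := by
    have hce : Continuous (fun t : ℝ => Real.exp (-(δ * t / 2))) := by fun_prop
    obtain ⟨E, hE0, hE⟩ := fe_bdd h hce
    refine fe_int_bdd (C := D ^ 2 * E) ((hαm.pow_const 2).mul (hce.measurable.comp hf))
      (fun x => ?_)
    rw [abs_mul, abs_of_nonneg (sq_nonneg _)]
    refine mul_le_mul ?_ (hE x) (abs_nonneg _) (sq_nonneg _)
    exact pow_le_pow_left₀ (hd.αnonneg x) (hD x) 2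
  rw [← integral_const_mul, ← integral_const_mul, ← integral_sub i1 (i2.const_mul _)]
  have i12 : Integrable (fun x => g0 x ^ 2 * Real.exp (δ * f x / 2) - 2 / ε * (g0 x * α x)) m :=
    i1.sub (i2.const_mul _)
  rw [← integral_add i12 (i3.const_mul _)]
  refine integral_congr_ae (ae_of_all _ fun x => ?_)
  simp only []
  have h1 : Real.exp (δ * f x / 2) = Real.exp (δ * f x / 4) ^ 2 := by
    rw [sq, ← Real.exp_add]; congr 1; ring
  have h2 : Real.exp (-(δ * f x / 2)) = Real.exp (-(δ * f x / 4)) ^ 2 := by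
    rw [sq, ← Real.exp_add]; congr 1; ring
  have h3 : Real.exp (δ * f x / 4) * Real.exp (-(δ * f x / 4)) = 1 := by
    rw [← Real.exp_add]; simp
  rw [h1, h2]
  linear_combination (-(2 / ε) * (g0 x * α x)) * h3

/-- step (3), first half -/
theorem fe_upper {N B c δ ε c1 C1 : ℝ} {f g0 : X → ℝ} {π P' : Measure (X × X)} {α ρ1 : X → ℝ}
    (h : Extremal m N B f g0) (hp : FluxPar N B c δ)
    (hd : FluxData m N c δ ε c1 C1 f g0 π P' α ρ1) {c0 : ℝ} (hc0 : 0 < c0)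
    (hν : ∀ t ∈ Icc (-B) B, c0 ≤ fnu N δ ε t) :
    ∫ x, α x ^ 2 * Real.exp (-(δ * f x / 2)) ∂m ≤
      ε ^ 2 * (∫ x, g0 x ^ 2 * Real.exp (δ * f x / 2) ∂m -
        ε * N / 2 * ∫ x, g0 x ^ 2 * f x * Real.exp (δ * f x) ∂m +
        (N * B * Real.exp (δ * B / 2)) ^ 2 / c0 / 2 * ε ^ 2 * ∫ x, g0 x ^ 2 ∂m) := by
  have hf := h.lim.meas
  have hN0 : 0 < N := by linarith [hp.hN]
  refine hd.kuw.trans (mul_le_mul_of_nonneg_left ?_ (sq_nonneg _))
  have i1 : Integrable (fun x => g0 x ^ 2 * Real.exp (δ * f x / 2)) m :=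
    fe_int_Gcomp h (φ := fun t => Real.exp (δ * t / 2)) (by fun_prop)
  have i2 : Integrable (fun x => g0 x ^ 2 * f x * Real.exp (δ * f x)) m := by
    have := fe_int_Gcomp h (φ := fun t => t * Real.exp (δ * t)) (by fun_prop)
    refine this.congr (ae_of_all _ fun x => ?_)
    simp only []; ring
  have i3 := h.lim.gL2
  have i12 : Integrable (fun x => g0 x ^ 2 * Real.exp (δ * f x / 2) -
      ε * N / 2 * (g0 x ^ 2 * f x * Real.exp (δ * f x))) m := i1.sub (i2.const_mul _)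
  rw [← integral_const_mul, ← integral_const_mul, ← integral_sub i1 (i2.const_mul _),
    ← integral_add i12 (i3.const_mul _)]
  have i123 : Integrable (fun x => g0 x ^ 2 * Real.exp (δ * f x / 2) -
      ε * N / 2 * (g0 x ^ 2 * f x * Real.exp (δ * f x)) +
      (N * B * Real.exp (δ * B / 2)) ^ 2 / c0 / 2 * ε ^ 2 * g0 x ^ 2) m :=
    i12.add (i3.const_mul _)
  refine integral_mono_of_nonneg (ae_of_all _ fun x => ?_) i123 (ae_of_all _ fun x => ?_)
  · have h1 : 0 < fnu N δ ε (f x) := lt_of_lt_of_le hc0 (hν _ (fe_mem h x))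
    simp only [Pi.zero_apply]
    positivity
  · simp only []
    have h1 := fe_inv_nu hN0 hp.hB hp.hδ (fe_mem h x) hc0 (hν _ (fe_mem h x))
    have h2 := mul_le_mul_of_nonneg_left h1 (sq_nonneg (g0 x))
    linear_combination h2 / 2

/-- the bound of `∫ |ρ1 - ρ0|` -/
theorem fe_rho {N B c δ ε c1 C1 : ℝ} {f g0 : X → ℝ} {π P' : Measure (X × X)} {α ρ1 : X → ℝ}
    (h : Extremal m N B f g0) (hp : FluxPar N B c δ)
    (hd : FluxData m N c δ ε c1 C1 f g0 π P' α ρ1) (hε : 0 < ε)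
    (hν : ∀ t ∈ Icc (-B) B, 0 ≤ fnu N δ ε t) {L Mt : ℝ}
    (hL : ∀ t ∈ Icc (-B) B, ∀ τ ∈ Icc (-B) B,
      |Real.exp (δ * τ / 2) * fP N c τ ^ (N / (N - 1)) -
        Real.exp (δ * t / 2) * fP N c t ^ (N / (N - 1))| ≤ L * |τ - t|)
    (hM : ∀ x, |Real.exp (δ * f x / 2) * fP N c (f x) ^ (N / (N - 1))| ≤ Mt) :
    ∫ x, |ρ1 x - fP N c (f x) ^ (N / (N - 1))| ∂m ≤
      L * ∫ z, |f z.2 - f z.1| ∂π + ε * (N * (Mt * B)) := by
  have hf := h.lim.meas
  have hfin := fe_finpi h hd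
  have hN := hp.hN
  have hN0 : 0 < N := by linarith
  have hq0 : 0 ≤ N / (N - 1) := div_nonneg hN0.le (by linarith)
  have hcP := fe_cont_P N c
  set θ : ℝ → ℝ := fun t => Real.exp (δ * t / 2) * fP N c t ^ (N / (N - 1)) with hθ
  have hcq : Continuous (fun t : ℝ => fP N c t ^ (N / (N - 1))) :=
    hcP.rpow_const (fun t => Or.inr hq0)
  have hcθ : Continuous θ := by
    have : Continuous (fun t : ℝ => Real.exp (δ * t / 2)) := by fun_prop
    exact this.mul hcq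
  have hmρ0 : Measurable (fun x => fP N c (f x) ^ (N / (N - 1))) := hcq.measurable.comp hf
  have hmθ : Measurable (fun x => θ (f x)) := hcθ.measurable.comp hf
  set k : X → ℝ := fun x => if fP N c (f x) ^ (N / (N - 1)) ≤ ρ1 x then 1 else -1 with hk
  have hkm : Measurable k :=
    Measurable.ite (measurableSet_le hmρ0 hd.ρmeas) measurable_const measurable_const
  have hk1 : ∀ x, |k x| ≤ 1 := fun x => by
    simp only [hk]; split_ifs <;> simp
  have hkabs : ∀ x, |ρ1 x - fP N c (f x) ^ (N / (N - 1))| =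
      k x * ρ1 x - k x * fP N c (f x) ^ (N / (N - 1)) := fun x => by
    simp only [hk]
    split_ifs with h1
    · rw [abs_of_nonneg (by linarith)]; ring
    · rw [abs_of_neg (by linarith [not_le.mp h1])]; ring
  have j1 : Integrable (fun x => k x * ρ1 x) m := by
    refine fe_int_bdd (C := max |c1| |C1|) (hkm.mul hd.ρmeas) (fun x => ?_)
    rw [abs_mul]
    have h1 : |ρ1 x| ≤ max |c1| |C1| := abs_le_max_abs_abs (hd.ρbd x).1 (hd.ρbd x).2
    calc |k x| * |ρ1 x| ≤ 1 * max |c1| |C1| :=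
          mul_le_mul (hk1 x) h1 (abs_nonneg _) (by norm_num)
      _ = _ := one_mul _
  have bddmul : ∀ φ : ℝ → ℝ, Continuous φ → ∀ (Q : Measure X) [IsFiniteMeasure Q],
      Integrable (fun x => k x * φ (f x)) Q := by
    intro φ hφ Q _
    obtain ⟨E, hE0, hE⟩ := fe_bdd h hφ
    refine fe_int_bdd (C := E) (hkm.mul (hφ.measurable.comp hf)) (fun x => ?_)
    rw [abs_mul]
    calc |k x| * |φ (f x)| ≤ 1 * E := mul_le_mul (hk1 x) (hE x) (abs_nonneg _) (by norm_num)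
      _ = _ := one_mul _
  have j2 : Integrable (fun x => k x * fP N c (f x) ^ (N / (N - 1))) m :=
    bddmul (fun t => fP N c t ^ (N / (N - 1))) hcq m
  have e1 : ∫ x, |ρ1 x - fP N c (f x) ^ (N / (N - 1))| ∂m =
      ∫ x, k x * ρ1 x ∂m - ∫ x, k x * fP N c (f x) ^ (N / (N - 1)) ∂m := by
    rw [← integral_sub j1 j2]
    exact integral_congr_ae (ae_of_all _ fun x => hkabs x)
  have e2 : ∫ x, k x * ρ1 x ∂m = ∫ z, k z.2 * θ (f z.1) ∂π := hd.marg k hkm ⟨1, hk1⟩
  have hcE : Continuous (fun t : ℝ => fnu N δ ε t * θ t) := (fe_cont_nu N δ ε).mul hcθ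
  have hcF : Continuous (fun t : ℝ => t * θ t) := continuous_id.mul hcθ
  have j3 : Integrable (fun x => k x * (fnu N δ ε (f x) * θ (f x))) m :=
    bddmul (fun t => fnu N δ ε t * θ t) hcE m
  have j4 : Integrable (fun x => k x * (f x * θ (f x))) m := bddmul (fun t => t * θ t) hcF m
  have e3 : ∫ x, k x * fP N c (f x) ^ (N / (N - 1)) ∂m =
      ∫ z, k z.2 * θ (f z.2) ∂π - ε * N * ∫ x, k x * (f x * θ (f x)) ∂m := by
    rw [fe_snd h hd hν (k := fun x => k x * θ (f x)) (hkm.mul hmθ), ← integral_const_mul]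
    have j5 : Integrable (fun x => fnu N δ ε (f x) * (k x * θ (f x))) m :=
      j3.congr (ae_of_all _ fun x => by simp only []; ring)
    rw [← integral_sub j5 (j4.const_mul _)]
    refine integral_congr_ae (ae_of_all _ fun x => ?_)
    simp only [hθ, fnu]
    have h3 : Real.exp (-(δ * f x / 2)) * Real.exp (δ * f x / 2) = 1 := by
      rw [← Real.exp_add]; simp
    linear_combination (-(k x * fP N c (f x) ^ (N / (N - 1)))) * h3
  have j6 : Integrable (fun z : X × X => k z.2 * θ (f z.1)) π := by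
    refine fe_int_bdd (C := Mt) ((hkm.comp measurable_snd).mul (hmθ.comp measurable_fst))
      (fun z => ?_)
    rw [abs_mul]
    calc |k z.2| * |θ (f z.1)| ≤ 1 * Mt :=
          mul_le_mul (hk1 _) (hM _) (abs_nonneg _) (by norm_num)
      _ = _ := one_mul _
  have j7 : Integrable (fun z : X × X => k z.2 * θ (f z.2)) π := by
    refine fe_int_bdd (C := Mt) ((hkm.comp measurable_snd).mul (hmθ.comp measurable_snd))
      (fun z => ?_)
    rw [abs_mul]
    calc |k z.2| * |θ (f z.2)| ≤ 1 * Mt :=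
          mul_le_mul (hk1 _) (hM _) (abs_nonneg _) (by norm_num)
      _ = _ := one_mul _
  have e4 : ∫ z, k z.2 * θ (f z.1) ∂π - ∫ z, k z.2 * θ (f z.2) ∂π ≤
      L * ∫ z, |f z.2 - f z.1| ∂π := by
    rw [← integral_sub j6 j7, ← integral_const_mul]
    refine integral_mono (j6.sub j7) ((fe_int_D1 h).const_mul L) (fun z => ?_)
    have h1 := hL _ (fe_mem h z.1) _ (fe_mem h z.2)
    have h2 : k z.2 * θ (f z.1) - k z.2 * θ (f z.2) ≤ |θ (f z.2) - θ (f z.1)| := by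
      rw [← mul_sub]
      refine (le_abs_self _).trans ?_
      rw [abs_mul, abs_sub_comm (θ (f z.1))]
      calc |k z.2| * |θ (f z.2) - θ (f z.1)| ≤ 1 * |θ (f z.2) - θ (f z.1)| :=
            mul_le_mul_of_nonneg_right (hk1 _) (abs_nonneg _)
        _ = _ := one_mul _
    exact h2.trans h1
  have e5 : ∫ x, k x * (f x * θ (f x)) ∂m ≤ Mt * B := by
    have h1 : ∫ x, k x * (f x * θ (f x)) ∂m ≤ ∫ _x, Mt * B ∂m := by
      refine integral_mono j4 (integrable_const _) (fun x => ?_)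
      simp only []
      refine (le_abs_self _).trans ?_
      rw [abs_mul, abs_mul]
      have h2 : |f x| * |θ (f x)| ≤ B * Mt :=
        mul_le_mul (h.lim.bound x) (hM x) (abs_nonneg _) hp.hB.le
      calc |k x| * (|f x| * |θ (f x)|) ≤ 1 * (B * Mt) :=
            mul_le_mul (hk1 _) h2 (by positivity) (by norm_num)
        _ = _ := by ring
    rw [integral_const, smul_eq_mul, probReal_univ, one_mul] at h1
    exact h1
  rw [e1, e2, e3]
  have h6 := mul_le_mul_of_nonneg_left e5 (mul_nonneg hε.le hN0.le)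
  linarith

theorem fe_int_B {N B c δ : ℝ} {f g0 : X → ℝ} (h : Extremal m N B f g0)
    {Q : Measure (X × X)} [IsFiniteMeasure Q] :
    Integrable (fun z : X × X => fB N c δ (f z.1) (f z.2)) Q := by
  have hcTh := fe_cont_Th N c δ
  have hcH := fe_cont_H N c δ
  have hcL := fe_cont_L N δ
  unfold fB
  refine Integrable.sub ?_ ((fe_int_comp2 h hcH).sub (fe_int_comp1 h hcH))
  have a1 : Integrable (fun z : X × X => fL N δ (f z.2) - fL N δ (f z.1)) Q :=
    (fe_int_comp2 h hcL).sub (fe_int_comp1 h hcL)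
  obtain ⟨D, -, hD⟩ := fe_bdd h hcTh
  refine a1.bdd_mul (c := D) ?_ (ae_of_all _ fun z => hD z.1)
  exact ((hcTh.measurable.comp h.lim.meas).comp measurable_fst).aestronglyMeasurable

/-- steps (1)-(5) -/
theorem flux_est {N B c δ : ℝ} {f g0 : X → ℝ} (h : Extremal m N B f g0)
    (hp : FluxPar N B c δ) {c1 C1 : ℝ} (hc1 : 0 < c1) (hC1 : 0 < C1) :
    ∃ C > 0, ∃ ε0 > 0, ∀ ε ∈ Ioo (0 : ℝ) ε0, ∀ (π P' : Measure (X × X)) (α ρ1 : X → ℝ),
      FluxData m N c δ ε c1 C1 f g0 π P' α ρ1 →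
      ∫ z, (f z.2 - f z.1) ^ 2 ∂π ≤ C * ε ^ 2 ∧
      ∫ x, (Real.exp (δ * f x / 4) * g0 x - Real.exp (-(δ * f x / 4)) * (α x / ε)) ^ 2 ∂m
        ≤ C * ε ∧
      ∫ x, |ρ1 x - fP N c (f x) ^ (N / (N - 1))| ∂m ≤ C * ε ∧
      ∫ z, fB N c δ (f z.1) (f z.2) ∂π +
        (1 - 1 / N) / 6 * ∫ z, α z.1 ^ 2 * ρ1 z.2 ^ (-(1 / N)) ∂P' +
        (1 - 1 / N) / 3 * ∫ x, α x ^ 2 * fP N c (f x) ∂m
      ≤ ε ^ 2 * (∫ x, g0 x ^ 2 * fpsi N c δ (f x) ∂m -
          (N + 1) / 2 * ∫ x, f x ^ 2 * Real.exp (δ * f x) * fP N c (f x) ∂m -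
          (1 - 1 / N) * c * (N / 4) * ∫ x, g0 x ^ 2 * f x * Real.exp (δ * f x) ∂m) +
        C * ε ^ 3 := by
  have hN := hp.hN
  have hN0 : 0 < N := by linarith
  have hB := hp.hB
  have hc := hp.hc
  have hδ := hp.hδ
  obtain ⟨C0, hC0, ε1, hε1, c0, hc0, hpw⟩ := flux_pointwise hp
  obtain ⟨k', hk', hkB⟩ := fB_ge hp
  obtain ⟨L, hL0, hL⟩ := fe_theta_lip hp
  have hcq : Continuous (fun t : ℝ => Real.exp (δ * t / 2) * fP N c t ^ (N / (N - 1))) := by
    have h1 : Continuous (fun t : ℝ => Real.exp (δ * t / 2)) := by fun_prop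
    exact h1.mul ((fe_cont_P N c).rpow_const
      (fun t => Or.inr (div_nonneg hN0.le (by linarith))))
  obtain ⟨Mt, hMt0, hMt⟩ := fe_bdd h hcq
  set m0 := ∫ x, Real.exp (-(δ * f x / 2)) ∂m with hm0
  have hm0' : 0 ≤ m0 := integral_nonneg fun x => (Real.exp_pos _).le
  clear_value m0
  set I1 := ∫ x, g0 x ^ 2 * Real.exp (δ * f x / 2) ∂m with hI1
  set J := ∫ x, g0 x ^ 2 * f x * Real.exp (δ * f x) ∂m with hJ
  set IG := ∫ x, g0 x ^ 2 ∂m with hIG
  have hIG0 : 0 ≤ IG := integral_nonneg fun x => sq_nonneg _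
  clear_value I1 J IG
  set Q1 := ∫ x, g0 x ^ 2 * fpsi N c δ (f x) ∂m with hQ1
  set Q2 := ∫ x, f x ^ 2 * Real.exp (δ * f x) * fP N c (f x) ∂m with hQ2
  clear_value Q1 Q2
  obtain ⟨Cx, hCx⟩ : ∃ Cx, Cx = (N * B * Real.exp (δ * B / 2)) ^ 2 / c0 := ⟨_, rfl⟩
  have hCx0 : 0 ≤ Cx := by rw [hCx]; positivity
  have hp0 : 0 < 1 - 1 / N := by
    rw [sub_pos, div_lt_one hN0]; exact hN
  have hpc : 0 < (1 - 1 / N) * c := mul_pos hp0 hc
  set A := Q1 - (N + 1) / 2 * Q2 - (1 - 1 / N) * c * (N / 4) * J with hA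
  clear_value A
  obtain ⟨R, hR⟩ : ∃ v, v = (1 - 1 / N) * c * (Cx / 4 * IG) := ⟨_, rfl⟩
  have hR0 : 0 ≤ R := by rw [hR]; positivity
  obtain ⟨C2, hC2⟩ : ∃ v, v = 2 / k' * (|A| + 2 * C0 * B * m0 + C0 * m0 + R) := ⟨_, rfl⟩
  have hC20 : 0 ≤ C2 := by rw [hC2]; positivity
  obtain ⟨E, hE⟩ : ∃ v, v = C0 * (C2 + (m0 + C2) / 2 + m0) := ⟨_, rfl⟩
  have hE0 : 0 ≤ E := by rw [hE]; positivity
  obtain ⟨C5, hC5⟩ : ∃ v, v = |Q1 - (N + 1) / 2 * Q2| + E := ⟨_, rfl⟩
  have hC50 : 0 ≤ C5 := by rw [hC5]; positivity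
  obtain ⟨CV, hCV⟩ : ∃ v, v = 2 * C5 / ((1 - 1 / N) * c) + N / 2 * |J| + Cx / 2 * IG := ⟨_, rfl⟩
  have hCV0 : 0 ≤ CV := by rw [hCV]; positivity
  obtain ⟨CR, hCR⟩ : ∃ v, v = L * ((m0 + C2) / 2) + N * (Mt * B) := ⟨_, rfl⟩
  have hCR0 : 0 ≤ CR := by rw [hCR]; positivity
  refine ⟨C2 + CV + CR + (E + R) + 1, by positivity, min ε1 (min 1 (k' / (2 * C0))),
    by positivity, ?_⟩
  rintro ε ⟨hε0, hεlt⟩ π P' α ρ1 hd
  have hεε1 : ε < ε1 := lt_of_lt_of_le hεlt (min_le_left _ _)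
  have hε1' : ε < 1 := lt_of_lt_of_le hεlt ((min_le_right _ _).trans (min_le_left _ _))
  have hεk : ε < k' / (2 * C0) :=
    lt_of_lt_of_le hεlt ((min_le_right _ _).trans (min_le_right _ _))
  have hfin := fe_finpi h hd
  have hpw' := hpw ε ⟨hε0, hεε1⟩
  have hν : ∀ t ∈ Icc (-B) B, c0 ≤ fnu N δ ε t := fun t ht => (hpw' t ht t ht).1
  have hν0 : ∀ t ∈ Icc (-B) B, 0 ≤ fnu N δ ε t := fun t ht => hc0.le.trans (hν t ht)
  set S := ∫ z, (f z.2 - f z.1) ^ 2 ∂π with hS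
  set T := ∫ z, |f z.2 - f z.1| ∂π with hT
  set b := ∫ z, fB N c δ (f z.1) (f z.2) ∂π with hb
  set W := ∫ x, g0 x * α x ∂m with hW
  set A2 := ∫ x, α x ^ 2 * Real.exp (-(δ * f x / 2)) ∂m with hA2
  have hS0 : 0 ≤ S := integral_nonneg fun x => sq_nonneg _
  have hT0 : 0 ≤ T := integral_nonneg fun x => abs_nonneg _
  have hlow := fe_low h hp hd hc0 hpw'
  have hup := fe_upper h hp hd hc0 hν
  have hV := fe_V h hd hε0
  have hrho := fe_rho h hp hd hε0 hν0 hL hMt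
  have hmass := fe_mass h hd
  rw [← hI1, ← hQ1, ← hQ2, ← hS, ← hT, ← hm0, ← hb, ← hW] at hlow
  rw [← hI1, ← hJ, ← hCx, ← hIG, ← hA2] at hup
  rw [← hI1, ← hW, ← hA2] at hV
  rw [← hT] at hrho
  rw [← hm0] at hmass
  have hV0 : 0 ≤ ∫ x, (Real.exp (δ * f x / 4) * g0 x -
      Real.exp (-(δ * f x / 4)) * (α x / ε)) ^ 2 ∂m := integral_nonneg fun x => sq_nonneg _
  set V := ∫ x, (Real.exp (δ * f x / 4) * g0 x -
      Real.exp (-(δ * f x / 4)) * (α x / ε)) ^ 2 ∂m with hVdef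
  set K1 := ∫ z, α z.1 ^ 2 * ρ1 z.2 ^ (-(1 / N)) ∂P' with hK1
  set K2 := ∫ x, α x ^ 2 * fP N c (f x) ∂m with hK2
  have hK10 : 0 ≤ K1 := integral_nonneg fun z => mul_nonneg (sq_nonneg _)
    (Real.rpow_nonneg (hc1.le.trans (hd.ρbd z.2).1) _)
  have hK20 : 0 ≤ K2 := integral_nonneg fun x => mul_nonneg (sq_nonneg _)
    (by have := (fP_bounds hp (fe_mem h x)).1; linarith)
  have hK : 0 ≤ (1 - 1 / N) / 6 * K1 + (1 - 1 / N) / 3 * K2 := by positivity
  clear_value S T b W A2 V K1 K2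
  -- lower bound of `b`
  have hbS : k' * S ≤ b := by
    rw [hS, hb, ← integral_const_mul]
    exact integral_mono ((fe_int_D2 h).const_mul k') (fe_int_B h)
      (fun z => hkB _ (fe_mem h z.1) _ (fe_mem h z.2))
  -- crude bound of `T`
  have hTcrude : T ≤ 2 * B * m0 := by
    rw [hT, ← hmass]
    have h1 : ∫ z, |f z.2 - f z.1| ∂π ≤ ∫ _z, 2 * B ∂π := by
      refine integral_mono (fe_int_D1 h) (integrable_const _) (fun z => ?_)
      simp only []
      have h1 := fe_mem h z.1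
      have h2 := fe_mem h z.2
      rw [abs_le]
      constructor <;> linarith [h1.1, h1.2, h2.1, h2.2]
    rw [integral_const, smul_eq_mul, mul_comm] at h1
    exact h1
  -- upper bound of `W`
  have hWup : W ≤ ε * I1 - N / 4 * ε ^ 2 * J + Cx / 4 * ε ^ 3 * IG := by
    have h1 : 0 ≤ I1 - 2 / ε * W + 1 / ε ^ 2 * A2 := by rw [← hV]; exact hV0
    have h2 : 1 / ε ^ 2 * A2 ≤ I1 - ε * N / 2 * J + Cx / 2 * ε ^ 2 * IG := by
      rw [one_div, inv_mul_le_iff₀ (by positivity)]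
      exact hup
    have h3 : 2 / ε * W ≤ 2 * I1 - ε * N / 2 * J + Cx / 2 * ε ^ 2 * IG := by linarith
    rw [div_mul_eq_mul_div, div_le_iff₀ hε0] at h3
    linear_combination h3 / 2
  have hWup' := mul_le_mul_of_nonneg_left hWup hpc.le
  -- main inequality
  have hmain : b + ((1 - 1 / N) / 6 * K1 + (1 - 1 / N) / 3 * K2) ≤
      ε ^ 2 * A + C0 * (ε * S + ε ^ 2 * T + ε ^ 3 * m0) + R * ε ^ 3 := by
    rw [hA, hR]
    linear_combination hlow + hWup'
  -- bound of `S`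
  have hSb : S ≤ C2 * ε ^ 2 := by
    have h1 : C0 * (ε * S) ≤ k' / 2 * S := by
      have h2 : C0 * ε ≤ k' / 2 := by
        rw [lt_div_iff₀ (by positivity)] at hεk
        linarith
      calc C0 * (ε * S) = (C0 * ε) * S := by ring
        _ ≤ _ := mul_le_mul_of_nonneg_right h2 hS0
    have h3 : C0 * (ε ^ 2 * T) ≤ C0 * (ε ^ 2 * (2 * B * m0)) := by gcongr
    have h4 : ε ^ 3 ≤ ε ^ 2 := by
      have : ε ^ 3 = ε ^ 2 * ε := by ring
      rw [this]
      exact mul_le_of_le_one_right (sq_nonneg _) hε1'.le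
    have h5 : C0 * (ε ^ 3 * m0) ≤ C0 * (ε ^ 2 * m0) := by gcongr
    have h6 : R * ε ^ 3 ≤ R * ε ^ 2 := by gcongr
    have h7 : ε ^ 2 * A ≤ ε ^ 2 * |A| := by gcongr; exact le_abs_self _
    have h8 : k' / 2 * S ≤ (|A| + 2 * C0 * B * m0 + C0 * m0 + R) * ε ^ 2 := by
      linear_combination hbS + hmain + hK + h1 + h3 + h5 + h6 + h7
    rw [hC2]
    have h9 : S = 2 / k' * (k' / 2 * S) := by field_simp
    rw [h9, mul_assoc (2 / k')]
    exact mul_le_mul_of_nonneg_left h8 (by positivity)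
  -- bound of `T`
  have hTb : T ≤ ε * ((m0 + C2) / 2) := by
    have h1 : ∫ z, |f z.2 - f z.1| ∂π ≤ ∫ z, (ε / 2 + 1 / (2 * ε) * (f z.2 - f z.1) ^ 2) ∂π := by
      refine integral_mono (fe_int_D1 h)
        ((integrable_const _).add ((fe_int_D2 h).const_mul _)) (fun z => ?_)
      simp only []
      rw [← sq_abs (f z.2 - f z.1)]
      have h2 : 0 ≤ (|f z.2 - f z.1| - ε) ^ 2 / (2 * ε) := by positivity
      have h3 : ε / 2 + 1 / (2 * ε) * |f z.2 - f z.1| ^ 2 - |f z.2 - f z.1| =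
          (|f z.2 - f z.1| - ε) ^ 2 / (2 * ε) := by field_simp; ring
      linarith
    rw [integral_add (integrable_const _) ((fe_int_D2 h).const_mul _), integral_const,
      integral_const_mul, smul_eq_mul, hmass, ← hS, ← hT] at h1
    have h4 : 1 / (2 * ε) * S ≤ ε * (C2 / 2) := by
      rw [one_div, inv_mul_le_iff₀ (by positivity)]
      linear_combination hSb
    linear_combination h1 + h4
  have hEb : C0 * (ε * S + ε ^ 2 * T + ε ^ 3 * m0) ≤ E * ε ^ 3 := by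
    have h1 : ε * S ≤ ε ^ 3 * C2 := by
      calc ε * S ≤ ε * (C2 * ε ^ 2) := mul_le_mul_of_nonneg_left hSb hε0.le
        _ = _ := by ring
    have h2 : ε ^ 2 * T ≤ ε ^ 3 * ((m0 + C2) / 2) := by
      calc ε ^ 2 * T ≤ ε ^ 2 * (ε * ((m0 + C2) / 2)) :=
            mul_le_mul_of_nonneg_left hTb (sq_nonneg _)
        _ = _ := by ring
    rw [hE]
    calc C0 * (ε * S + ε ^ 2 * T + ε ^ 3 * m0) ≤
        C0 * (ε ^ 3 * C2 + ε ^ 3 * ((m0 + C2) / 2) + ε ^ 3 * m0) := by gcongr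
      _ = _ := by ring
  refine ⟨?_, ?_, ?_, ?_⟩
  · exact hSb.trans (mul_le_mul_of_nonneg_right (by linarith) (by positivity))
  · -- `V`
    have h1 : ε * I1 - ε ^ 2 * (C5 / ((1 - 1 / N) * c)) ≤ W := by
      have h2 : ε * ((1 - 1 / N) * c * I1) - ε ^ 2 * C5 ≤ (1 - 1 / N) * c * W := by
        have h3 : ε ^ 2 * (Q1 - (N + 1) / 2 * Q2) ≤ ε ^ 2 * |Q1 - (N + 1) / 2 * Q2| := by
          gcongr; exact le_abs_self _
        have h4 : E * ε ^ 3 ≤ E * ε ^ 2 := by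
          have : ε ^ 3 ≤ ε ^ 2 := by
            have : ε ^ 3 = ε ^ 2 * ε := by ring
            rw [this]
            exact mul_le_of_le_one_right (sq_nonneg _) hε1'.le
          gcongr
        have h5 : 0 ≤ b := le_trans (by positivity) hbS
        rw [hC5]
        linear_combination hlow + h3 + h4 + h5 + hEb + hK
      have h6 : W = ((1 - 1 / N) * c * W) / ((1 - 1 / N) * c) := by
        rw [mul_div_cancel_left₀ _ hpc.ne']
      rw [h6, le_div_iff₀ hpc]
      refine le_trans (le_of_eq ?_) h2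
      rw [sub_mul, mul_assoc (ε ^ 2), div_mul_cancel₀ _ hpc.ne']
      ring
    have h7 : 1 / ε ^ 2 * A2 ≤ I1 - ε * N / 2 * J + Cx / 2 * ε ^ 2 * IG := by
      rw [one_div, inv_mul_le_iff₀ (by positivity)]
      exact hup
    have h8 : 2 * I1 - 2 * ε * (C5 / ((1 - 1 / N) * c)) ≤ 2 / ε * W := by
      rw [div_mul_eq_mul_div, le_div_iff₀ hε0]
      linear_combination 2 * h1
    have h9 : -(ε * N / 2 * J) ≤ ε * (N / 2 * |J|) := by
      have h10 : 0 ≤ ε * N / 2 := by positivity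
      linear_combination mul_le_mul_of_nonneg_left (neg_abs_le J) h10
    have h11 : Cx / 2 * ε ^ 2 * IG ≤ ε * (Cx / 2 * IG) := by
      have h12 : ε ^ 2 ≤ ε := by
        rw [sq]; exact mul_le_of_le_one_left hε0.le hε1'.le
      calc Cx / 2 * ε ^ 2 * IG = (Cx / 2 * IG) * ε ^ 2 := by ring
        _ ≤ (Cx / 2 * IG) * ε := by gcongr
        _ = _ := by ring
    have h13 : V ≤ CV * ε := by
      rw [hV, hCV]
      have h14 : 2 * C5 / ((1 - 1 / N) * c) = 2 * (C5 / ((1 - 1 / N) * c)) := by ring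
      rw [h14]
      linear_combination h7 + h8 + h9 + h11
    exact h13.trans (mul_le_mul_of_nonneg_right (by linarith) hε0.le)
  · refine hrho.trans ?_
    have h1 : L * T + ε * (N * (Mt * B)) ≤ CR * ε := by
      rw [hCR]
      have h2 : L * T ≤ L * (ε * ((m0 + C2) / 2)) := mul_le_mul_of_nonneg_left hTb hL0
      linear_combination h2
    exact h1.trans (mul_le_mul_of_nonneg_right (by linarith) hε0.le)
  · have h1 : (E + R) * ε ^ 3 ≤ (C2 + CV + CR + (E + R) + 1) * ε ^ 3 :=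
      mul_le_mul_of_nonneg_right (by linarith) (by positivity)
    linear_combination hmain + hEb + h1

end FluxEst

end H13CD
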