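import Pool.Agent.Helper13.CD.HopfLax

/-!
# Module G2: Kuwada type bound of the transport cost

* `kuwada`: let `ν0 ν1` be densities between positive constants, equal masses, `F ≥ 0` in `L²`,
  `∫ (ν1-ν0) g ≤ ∫ F lip g` for all Lipschitz `g`.  Then every optimal plan has
  `cost P ≤ ∫ F² (1/ν0+1/ν1)/2 dm`.  Proof: potentials `φ ψ` Lipschitz, `f = -φ`; `ψ ≤ HL 1 f`, so
  `cost/2 = ∫φ ν0+∫ψ ν1 ≤ ∫ HL 1 f ν1 - ∫ f ν0 = Σ_{i<n} [∫ HL_{(i+1)/n} f ν_{(i+1)/n} -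
  ∫ HL_{i/n} f ν_{i/n}]`, `ν_s = (1-s)ν0+sν1` (`HL 0 f := f`).  Term `i ≥ 1`, `s=i/n`, `t=(i+1)/n`:
  `≤ -((t-s)s/(2t)) ∫ (lip HL_s f)² ν_t + (1/n) ∫ F lip (HL_s f) ≤ (1/n)(t/s) ∫ F²/(2ν_t)`; term
  `0`: `≤ (1/n) Lip f ∫ F`.  `1/ν_t ≤ (1-t)/ν0 + t/ν1`.  Sum and let `n → ∞`
  (`(t/s) = 1+1/i`, and `(1/n)Σ 1/i → 0`).
-/

open MeasureTheory Set Filter Topology
open scoped ENNReal NNReal

namespace H13CD

theorem kuw_inv {a b t : ℝ} (ha : 0 < a) (hb : 0 < b) (h0 : 0 ≤ t) (h1 : t ≤ 1) :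
    1 / ((1 - t) * a + t * b) ≤ (1 - t) / a + t / b := by
  have hN : 0 < (1 - t) * a + t * b := by
    rcases eq_or_lt_of_le h0 with h | h
    · rw [← h]; simpa using ha
    · have : 0 ≤ (1 - t) * a := mul_nonneg (by linarith) ha.le
      have : 0 < t * b := mul_pos h hb
      linarith
  rw [div_le_iff₀ hN]
  have e : ((1 - t) / a + t / b) * ((1 - t) * a + t * b) =
      1 + t * (1 - t) * ((a - b) ^ 2 / (a * b)) := by
    field_simp
    ring
  rw [e]
  have : 0 ≤ t * (1 - t) * ((a - b) ^ 2 / (a * b)) :=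
    mul_nonneg (mul_nonneg h0 (by linarith)) (by positivity)
  linarith

theorem kuw_point {F L a b s t : ℝ} (ha : 0 < a) (hb : 0 < b) (hs : 0 < s) (hst : s < t)
    (ht : t ≤ 1) :
    F * L - s / (2 * t) * (((1 - t) * a + t * b) * L ^ 2) ≤
      (t / s) * ((1 - t) * (F ^ 2 / (2 * a)) + t * (F ^ 2 / (2 * b))) := by
  have ht0 : 0 < t := hs.trans hst
  have hN : 0 < (1 - t) * a + t * b := by
    have : 0 ≤ (1 - t) * a := mul_nonneg (by linarith) ha.le
    have : 0 < t * b := mul_pos ht0 hb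
    linarith
  have h1 := kuw_inv ha hb ht0.le ht
  set N := (1 - t) * a + t * b with hNdef
  have h2 : F * L - s / (2 * t) * (N * L ^ 2) ≤ (t / s) * (F ^ 2 / 2 * (1 / N)) := by
    have e : (t / s) * (F ^ 2 / 2 * (1 / N)) - (F * L - s / (2 * t) * (N * L ^ 2)) =
        (s * N / (2 * t)) * (L - t * F / (s * N)) ^ 2 := by
      field_simp
      ring
    have : 0 ≤ (s * N / (2 * t)) * (L - t * F / (s * N)) ^ 2 := by positivity
    linarith
  refine h2.trans ?_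
  refine mul_le_mul_of_nonneg_left ?_ (by positivity)
  have h3 : F ^ 2 / 2 * (1 / N) ≤ F ^ 2 / 2 * ((1 - t) / a + t / b) :=
    mul_le_mul_of_nonneg_left h1 (by positivity)
  refine h3.trans (le_of_eq ?_)
  field_simp

section
variable {X : Type*} [MetricSpace X] [CompactSpace X]

theorem kuw_bdd {g : X → ℝ} {K : ℝ≥0} (hg : LipschitzWith K g) : ∃ B, ∀ x, |g x| ≤ B := by
  obtain ⟨B, hB⟩ := (isCompact_univ (X := X)).exists_bound_of_continuousOn
    hg.continuous.continuousOn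
  exact ⟨B, fun x => hB x (mem_univ _)⟩

theorem kuw_HL_le {f : X → ℝ} {K : ℝ≥0} (hf : LipschitzWith K f) {t : ℝ} (ht : 0 < t) (x y : X) :
    HL t f x ≤ f y + dist x y ^ 2 / (2 * t) := by
  obtain ⟨B, hB⟩ := kuw_bdd hf
  refine ciInf_le ?_ y
  refine ⟨-B, ?_⟩
  rintro _ ⟨z, rfl⟩
  have h1 := (abs_le.mp (hB z)).1
  have h2 : 0 ≤ dist x z ^ 2 / (2 * t) := by positivity
  simp only
  linarith

theorem kuw_HL_le_self {f : X → ℝ} {K : ℝ≥0} (hf : LipschitzWith K f) {t : ℝ} (ht : 0 < t)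
    (x : X) : HL t f x ≤ f x := by
  have := kuw_HL_le hf ht x x
  simpa using this

variable [MeasurableSpace X] [BorelSpace X] {m : Measure X} [IsProbabilityMeasure m]

theorem kuw_int {g : X → ℝ} (hm : Measurable g) {B : ℝ} (hB : ∀ x, |g x| ≤ B) : Integrable g m :=
  Integrable.of_bound hm.aestronglyMeasurable B (ae_of_all _ hB)

theorem kuw_int_mul {g ν : X → ℝ} (hν : Measurable ν) {B : ℝ} (hB : ∀ x, |ν x| ≤ B)
    {K : ℝ≥0} (hg : LipschitzWith K g) : Integrable (fun x => ν x * g x) m := by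
  obtain ⟨B', hB'⟩ := kuw_bdd hg
  refine kuw_int (B := B * B') (hν.mul hg.continuous.measurable) fun x => ?_
  rw [abs_mul]
  exact mul_le_mul (hB x) (hB' x) (abs_nonneg _) ((abs_nonneg _).trans (hB x))

/-- common hypotheses -/
structure KH (m : Measure X) (ν0 ν1 F : X → ℝ) (c C : ℝ) : Prop where
  h0m : Measurable ν0
  h1m : Measurable ν1
  hFm : Measurable F
  hc : 0 < c
  h0 : ∀ x, c ≤ ν0 x ∧ ν0 x ≤ C
  h1 : ∀ x, c ≤ ν1 x ∧ ν1 x ≤ C
  hF0 : ∀ x, 0 ≤ F x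
  hF2 : Integrable (fun x => F x ^ 2) m
  hflux : ∀ g : X → ℝ, (∃ K, LipschitzWith K g) →
      ∫ x, (ν1 x - ν0 x) * g x ∂m ≤ ∫ x, F x * lip g x ∂m

variable {ν0 ν1 F : X → ℝ} {c C : ℝ}

theorem KH.abs0 (H : KH m ν0 ν1 F c C) (x : X) : |ν0 x| ≤ C := by
  rw [abs_of_nonneg (H.hc.le.trans (H.h0 x).1)]; exact (H.h0 x).2

theorem KH.abs1 (H : KH m ν0 ν1 F c C) (x : X) : |ν1 x| ≤ C := by
  rw [abs_of_nonneg (H.hc.le.trans (H.h1 x).1)]; exact (H.h1 x).2

theorem KH.pos0 (H : KH m ν0 ν1 F c C) (x : X) : 0 < ν0 x := H.hc.trans_le (H.h0 x).1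

theorem KH.pos1 (H : KH m ν0 ν1 F c C) (x : X) : 0 < ν1 x := H.hc.trans_le (H.h1 x).1

theorem KH.intF (H : KH m ν0 ν1 F c C) : Integrable F m := by
  refine Integrable.mono' ((integrable_const (1 : ℝ)).add H.hF2) H.hFm.aestronglyMeasurable
    (ae_of_all _ fun x => ?_)
  rw [Real.norm_eq_abs, abs_of_nonneg (H.hF0 x)]
  simp only [Pi.add_apply]
  nlinarith [sq_nonneg (F x - 1), H.hF0 x]

theorem KH.intFl (H : KH m ν0 ν1 F c C) {g : X → ℝ} {K : ℝ≥0} (hg : LipschitzWith K g) :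
    Integrable (fun x => F x * lip g x) m := by
  refine Integrable.mono' (H.intF.mul_const (K : ℝ))
    (H.hFm.mul (measurable_lip hg)).aestronglyMeasurable (ae_of_all _ fun x => ?_)
  rw [Real.norm_eq_abs, abs_of_nonneg (mul_nonneg (H.hF0 x) (lip_nonneg _ _))]
  exact mul_le_mul_of_nonneg_left (lip_le_const hg x) (H.hF0 x)

theorem KH.intA (H : KH m ν0 ν1 F c C) : Integrable (fun x => F x ^ 2 / (2 * ν0 x)) m := by
  refine Integrable.mono' (H.hF2.mul_const (1 / (2 * c)))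
    ((H.hFm.pow_const 2).div (measurable_const.mul H.h0m)).aestronglyMeasurable
    (ae_of_all _ fun x => ?_)
  have h := H.pos0 x
  have hc := H.hc
  rw [Real.norm_eq_abs, abs_of_nonneg (by positivity), div_eq_mul_one_div]
  refine mul_le_mul_of_nonneg_left ?_ (sq_nonneg _)
  exact one_div_le_one_div_of_le (by positivity) (by linarith [(H.h0 x).1])

theorem KH.intB (H : KH m ν0 ν1 F c C) : Integrable (fun x => F x ^ 2 / (2 * ν1 x)) m := by
  refine Integrable.mono' (H.hF2.mul_const (1 / (2 * c)))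
    ((H.hFm.pow_const 2).div (measurable_const.mul H.h1m)).aestronglyMeasurable
    (ae_of_all _ fun x => ?_)
  have h := H.pos1 x
  have hc := H.hc
  rw [Real.norm_eq_abs, abs_of_nonneg (by positivity), div_eq_mul_one_div]
  refine mul_le_mul_of_nonneg_left ?_ (sq_nonneg _)
  exact one_div_le_one_div_of_le (by positivity) (by linarith [(H.h1 x).1])

theorem KH.step [Nonempty X] (H : KH m ν0 ν1 F c C) {f : X → ℝ} {K : ℝ≥0}
    (hf : LipschitzWith K f) {s t : ℝ} (hs : 0 < s) (hst : s < t) (ht : t ≤ 1) :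
    ∫ x, ((1 - t) * ν0 x + t * ν1 x) * HL t f x ∂m -
      ∫ x, ((1 - s) * ν0 x + s * ν1 x) * HL s f x ∂m ≤
    (t - s) * ((t / s) * ((1 - t) * ∫ x, F x ^ 2 / (2 * ν0 x) ∂m +
      t * ∫ x, F x ^ 2 / (2 * ν1 x) ∂m)) := by
  have ht0 : 0 < t := hs.trans hst
  obtain ⟨Ks, hKs⟩ := HL_lipschitz hf hs
  obtain ⟨Kt, hKt⟩ := HL_lipschitz hf ht0
  have hNm : ∀ r : ℝ, Measurable fun x => (1 - r) * ν0 x + r * ν1 x := fun r =>
    (measurable_const.mul H.h0m).add (measurable_const.mul H.h1m)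
  have hNb : ∀ r : ℝ, 0 ≤ r → r ≤ 1 → ∀ x, |(1 - r) * ν0 x + r * ν1 x| ≤ C := by
    intro r h0 h1 x
    have a1 := H.h0 x
    have a2 := H.h1 x
    have a3 := H.hc
    rw [abs_of_nonneg (by
      have : 0 ≤ (1 - r) * ν0 x := mul_nonneg (by linarith) (by linarith)
      have : 0 ≤ r * ν1 x := mul_nonneg h0 (by linarith)
      linarith)]
    nlinarith
  have i1 : Integrable (fun x => ((1 - t) * ν0 x + t * ν1 x) * HL t f x) m :=
    kuw_int_mul (hNm t) (hNb t ht0.le ht) hKt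
  have i2 : Integrable (fun x => ((1 - s) * ν0 x + s * ν1 x) * HL s f x) m :=
    kuw_int_mul (hNm s) (hNb s hs.le (by linarith)) hKs
  have i3 : Integrable (fun x => (ν1 x - ν0 x) * HL s f x) m := by
    refine kuw_int_mul (B := 2 * C) (H.h1m.sub H.h0m) (fun x => ?_) hKs
    refine (abs_sub _ _).trans ?_
    linarith [H.abs0 x, H.abs1 x]
  have i4 : Integrable (fun x => ((1 - t) * ν0 x + t * ν1 x) * lip (HL s f) x ^ 2) m := by
    refine kuw_int (B := C * (Ks : ℝ) ^ 2) ((hNm t).mul ((measurable_lip hKs).pow_const 2))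
      fun x => ?_
    rw [abs_mul]
    refine mul_le_mul (hNb t ht0.le ht x) ?_ (abs_nonneg _) ((abs_nonneg _).trans (H.abs0 x))
    rw [abs_of_nonneg (sq_nonneg _)]
    exact pow_le_pow_left₀ (lip_nonneg _ _) (lip_le_const hKs x) 2
  have i5 := H.intFl hKs
  have iA := H.intA
  have iB := H.intB
  -- first bound
  have e1 : ∫ x, ((1 - t) * ν0 x + t * ν1 x) * HL t f x ∂m -
      ∫ x, ((1 - s) * ν0 x + s * ν1 x) * HL s f x ∂m ≤
      (t - s) * ∫ x, (ν1 x - ν0 x) * HL s f x ∂m -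
        (t - s) * s / (2 * t) * ∫ x, ((1 - t) * ν0 x + t * ν1 x) * lip (HL s f) x ^ 2 ∂m := by
    rw [← integral_sub i1 i2, ← integral_const_mul, ← integral_const_mul,
      ← integral_sub (i3.const_mul _) (i4.const_mul _)]
    refine integral_mono (i1.sub i2) ((i3.const_mul _).sub (i4.const_mul _)) fun x => ?_
    simp only
    have h := HL_ineq hf hs hst x
    have hN : 0 ≤ (1 - t) * ν0 x + t * ν1 x := by
      have : 0 ≤ (1 - t) * ν0 x := mul_nonneg (by linarith) (H.pos0 x).le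
      have : 0 ≤ t * ν1 x := mul_nonneg ht0.le (H.pos1 x).le
      linarith
    have h2 := mul_le_mul_of_nonneg_left h hN
    calc ((1 - t) * ν0 x + t * ν1 x) * HL t f x - ((1 - s) * ν0 x + s * ν1 x) * HL s f x
        ≤ ((1 - t) * ν0 x + t * ν1 x) * (HL s f x - (t - s) * s / (2 * t) * lip (HL s f) x ^ 2)
          - ((1 - s) * ν0 x + s * ν1 x) * HL s f x := by linarith
      _ = _ := by ring
  have e2 := H.hflux (HL s f) ⟨Ks, hKs⟩
  have e3 : (t - s) * ∫ x, (ν1 x - ν0 x) * HL s f x ∂m ≤ (t - s) * ∫ x, F x * lip (HL s f) x ∂m :=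
    mul_le_mul_of_nonneg_left e2 (by linarith)
  refine e1.trans ?_
  have e4 : (t - s) * ∫ x, F x * lip (HL s f) x ∂m -
      (t - s) * s / (2 * t) * ∫ x, ((1 - t) * ν0 x + t * ν1 x) * lip (HL s f) x ^ 2 ∂m =
      (t - s) * ∫ x, (F x * lip (HL s f) x -
        s / (2 * t) * (((1 - t) * ν0 x + t * ν1 x) * lip (HL s f) x ^ 2)) ∂m := by
    rw [integral_sub i5 (i4.const_mul _), integral_const_mul]
    ring
  have e5 : ∫ x, (F x * lip (HL s f) x -
        s / (2 * t) * (((1 - t) * ν0 x + t * ν1 x) * lip (HL s f) x ^ 2)) ∂m ≤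
      ∫ x, (t / s) * ((1 - t) * (F x ^ 2 / (2 * ν0 x)) + t * (F x ^ 2 / (2 * ν1 x))) ∂m := by
    refine integral_mono (i5.sub (i4.const_mul _))
      (((iA.const_mul (1 - t)).add (iB.const_mul t)).const_mul (t / s)) fun x => ?_
    exact kuw_point (H.pos0 x) (H.pos1 x) hs hst ht
  have e6 : ∫ x, (t / s) * ((1 - t) * (F x ^ 2 / (2 * ν0 x)) + t * (F x ^ 2 / (2 * ν1 x))) ∂m =
      (t / s) * ((1 - t) * ∫ x, F x ^ 2 / (2 * ν0 x) ∂m + t * ∫ x, F x ^ 2 / (2 * ν1 x) ∂m) := by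
    rw [integral_const_mul, integral_add (iA.const_mul _) (iB.const_mul _), integral_const_mul,
      integral_const_mul]
  rw [e6] at e5
  have e7 := mul_le_mul_of_nonneg_left e5 (show 0 ≤ t - s by linarith)
  linarith

theorem KH.step0 (H : KH m ν0 ν1 F c C) {f : X → ℝ} {K : ℝ≥0}
    (hf : LipschitzWith K f) {t : ℝ} (ht0 : 0 < t) (ht : t ≤ 1) :
    ∫ x, ((1 - t) * ν0 x + t * ν1 x) * HL t f x ∂m - ∫ x, ν0 x * f x ∂m ≤
      t * (K * ∫ x, F x ∂m) := by
  obtain ⟨Kt, hKt⟩ := HL_lipschitz hf ht0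
  have hNm : Measurable fun x => (1 - t) * ν0 x + t * ν1 x :=
    (measurable_const.mul H.h0m).add (measurable_const.mul H.h1m)
  have hN0 : ∀ x, 0 ≤ (1 - t) * ν0 x + t * ν1 x := by
    intro x
    have : 0 ≤ (1 - t) * ν0 x := mul_nonneg (by linarith) (H.pos0 x).le
    have : 0 ≤ t * ν1 x := mul_nonneg ht0.le (H.pos1 x).le
    linarith
  have hNb : ∀ x, |(1 - t) * ν0 x + t * ν1 x| ≤ C := by
    intro x
    rw [abs_of_nonneg (hN0 x)]
    nlinarith [H.h0 x, H.h1 x]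
  have i1 : Integrable (fun x => ((1 - t) * ν0 x + t * ν1 x) * HL t f x) m :=
    kuw_int_mul hNm hNb hKt
  have i2 : Integrable (fun x => ν0 x * f x) m := kuw_int_mul H.h0m H.abs0 hf
  have i3 : Integrable (fun x => (ν1 x - ν0 x) * f x) m := by
    refine kuw_int_mul (B := 2 * C) (H.h1m.sub H.h0m) (fun x => ?_) hf
    refine (abs_sub _ _).trans ?_
    linarith [H.abs0 x, H.abs1 x]
  have e1 : ∫ x, ((1 - t) * ν0 x + t * ν1 x) * HL t f x ∂m - ∫ x, ν0 x * f x ∂m ≤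
      t * ∫ x, (ν1 x - ν0 x) * f x ∂m := by
    rw [← integral_sub i1 i2, ← integral_const_mul]
    refine integral_mono (i1.sub i2) (i3.const_mul _) fun x => ?_
    simp only
    have h := mul_le_mul_of_nonneg_left (kuw_HL_le_self hf ht0 x) (hN0 x)
    linarith
  have e2 := H.hflux f ⟨K, hf⟩
  have e3 : ∫ x, F x * lip f x ∂m ≤ K * ∫ x, F x ∂m := by
    rw [← integral_const_mul]
    refine integral_mono (H.intFl hf) (H.intF.const_mul _) fun x => ?_
    simp only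
    rw [mul_comm (K : ℝ)]
    exact mul_le_mul_of_nonneg_left (lip_le_const hf x) (H.hF0 x)
  exact e1.trans (mul_le_mul_of_nonneg_left (e2.trans e3) ht0.le)

theorem KH.total [Nonempty X] (H : KH m ν0 ν1 F c C) {f : X → ℝ} {K : ℝ≥0}
    (hf : LipschitzWith K f) (n : ℕ) (hn : 1 ≤ n) :
    ∫ x, ν1 x * HL 1 f x ∂m - ∫ x, ν0 x * f x ∂m ≤
      (∫ x, F x ^ 2 / (2 * ν0 x) ∂m + ∫ x, F x ^ 2 / (2 * ν1 x) ∂m) / 2 +
      (K * ∫ x, F x ∂m + (∫ x, F x ^ 2 / (2 * ν1 x) ∂m) / 2) * (1 / (n : ℝ)) +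
      (∫ x, F x ^ 2 / (2 * ν0 x) ∂m + ∫ x, F x ^ 2 / (2 * ν1 x) ∂m) *
        ((n : ℝ)⁻¹ * ∑ i ∈ Finset.range n, 1 / (i : ℝ)) := by
  set A := ∫ x, F x ^ 2 / (2 * ν0 x) ∂m with hA
  set B := ∫ x, F x ^ 2 / (2 * ν1 x) ∂m with hB
  set D := K * ∫ x, F x ∂m with hD
  have hA0 : 0 ≤ A := integral_nonneg fun x => by
    have := H.pos0 x
    simp only [Pi.zero_apply]
    positivity
  have hB0 : 0 ≤ B := integral_nonneg fun x => by
    have := H.pos1 x
    simp only [Pi.zero_apply]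
    positivity
  have hn0 : (0 : ℝ) < n := by exact_mod_cast hn
  set a : ℕ → ℝ := fun i => if i = 0 then ∫ x, ν0 x * f x ∂m else
    ∫ x, ((1 - (i : ℝ) / n) * ν0 x + (i : ℝ) / n * ν1 x) * HL ((i : ℝ) / n) f x ∂m with ha
  have han : a n = ∫ x, ν1 x * HL 1 f x ∂m := by
    simp only [ha]
    rw [if_neg (by omega), div_self hn0.ne']
    refine integral_congr_ae (ae_of_all _ fun x => ?_)
    simp
  have ha0 : a 0 = ∫ x, ν0 x * f x ∂m := by simp [ha]
  have htel : ∑ i ∈ Finset.range n, (a (i + 1) - a i) = a n - a 0 := Finset.sum_range_sub a n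
  rw [← han, ← ha0, ← htel]
  have hb : ∀ i ∈ Finset.range n, a (i + 1) - a i ≤
      (if i = 0 then D * (1 / (n : ℝ)) else 0) + (1 / (n : ℝ)) * ((1 - ((i : ℝ) + 1) / n) * A +
        ((i : ℝ) + 1) / n * B + (A + B) * (1 / (i : ℝ))) := by
    intro i hi
    have hin : i < n := Finset.mem_range.mp hi
    have hin' : ((i : ℝ) + 1) ≤ n := by exact_mod_cast hin
    have ht1 : ((i : ℝ) + 1) / n ≤ 1 := (div_le_one hn0).mpr hin'
    have ht0 : 0 < ((i : ℝ) + 1) / n := by positivity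
    by_cases h : i = 0
    · subst h
      have h1 := H.step0 hf (t := 1 / (n : ℝ)) (by positivity) (by simpa using ht1)
      have h2 : a (0 + 1) - a 0 = ∫ x, ((1 - 1 / (n : ℝ)) * ν0 x + 1 / (n : ℝ) * ν1 x) *
        HL (1 / (n : ℝ)) f x ∂m - ∫ x, ν0 x * f x ∂m := by
        simp [ha]
      rw [h2, if_pos rfl]
      have h3 : 0 ≤ (1 / (n : ℝ)) * ((1 - (((0 : ℕ) : ℝ) + 1) / n) * A +
        (((0 : ℕ) : ℝ) + 1) / n * B + (A + B) * (1 / ((0 : ℕ) : ℝ))) := by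
        have h4 : 0 ≤ 1 - (((0 : ℕ) : ℝ) + 1) / n := by linarith
        positivity
      linarith
    · have hi0 : (0 : ℝ) < i := by exact_mod_cast Nat.pos_of_ne_zero h
      have h1 := H.step hf (s := (i : ℝ) / n) (t := ((i : ℝ) + 1) / n) (by positivity)
        (by gcongr; linarith) ht1
      have h2 : a (i + 1) - a i =
        ∫ x, ((1 - ((i : ℝ) + 1) / n) * ν0 x + ((i : ℝ) + 1) / n * ν1 x) *
          HL (((i : ℝ) + 1) / n) f x ∂m -
        ∫ x, ((1 - (i : ℝ) / n) * ν0 x + (i : ℝ) / n * ν1 x) * HL ((i : ℝ) / n) f x ∂m := by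
        simp [ha, h]
      rw [h2, if_neg h, zero_add]
      refine h1.trans ?_
      rw [← hA, ← hB]
      have e1 : ((i : ℝ) + 1) / n - (i : ℝ) / n = 1 / n := by ring
      have e2 : ((i : ℝ) + 1) / n / ((i : ℝ) / n) = 1 + 1 / i := by
        field_simp
      rw [e1, e2]
      refine mul_le_mul_of_nonneg_left ?_ (by positivity)
      set t := ((i : ℝ) + 1) / n with htdef
      have h5 : (1 - t) * A + t * B ≤ A + B := by nlinarith
      have h6 : 1 / (i : ℝ) * ((1 - t) * A + t * B) ≤ 1 / (i : ℝ) * (A + B) :=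
        mul_le_mul_of_nonneg_left h5 (by positivity)
      nlinarith
  refine (Finset.sum_le_sum hb).trans ?_
  rw [Finset.sum_add_distrib, ← Finset.mul_sum, Finset.sum_add_distrib, Finset.sum_add_distrib,
    ← Finset.sum_mul, ← Finset.sum_mul, ← Finset.mul_sum]
  have s1 : ∑ i ∈ Finset.range n, (if i = 0 then D * (1 / (n : ℝ)) else 0) = D * (1 / (n : ℝ)) := by
    rw [Finset.sum_ite_eq']
    rw [if_pos (Finset.mem_range.mpr hn)]
  have s0 : ∀ k : ℕ, ∑ i ∈ Finset.range k, ((i : ℝ) + 1) = (k : ℝ) * (k + 1) / 2 := by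
    intro k
    induction k with
    | zero => simp
    | succ k ih =>
      rw [Finset.sum_range_succ, ih]
      push_cast
      ring
  have s2 : ∑ i ∈ Finset.range n, ((i : ℝ) + 1) / n = ((n : ℝ) + 1) / 2 := by
    rw [← Finset.sum_div, s0]
    field_simp
  have s3 : ∑ i ∈ Finset.range n, (1 - ((i : ℝ) + 1) / n) = ((n : ℝ) - 1) / 2 := by
    rw [Finset.sum_sub_distrib, s2]
    simp
    ring
  rw [s1, s2, s3]
  have e : D * (1 / (n : ℝ)) + 1 / (n : ℝ) * (((n : ℝ) - 1) / 2 * A + ((n : ℝ) + 1) / 2 * B +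
      (A + B) * ∑ i ∈ Finset.range n, 1 / (i : ℝ)) =
      (A + B) / 2 + (D + B / 2) * (1 / (n : ℝ)) +
      (A + B) * ((n : ℝ)⁻¹ * ∑ i ∈ Finset.range n, 1 / (i : ℝ)) - A / 2 * (1 / (n : ℝ)) := by
    generalize (∑ i ∈ Finset.range n, 1 / (i : ℝ)) = S
    field_simp
    ring
  rw [e]
  have : 0 ≤ A / 2 * (1 / (n : ℝ)) := by positivity
  linarith

theorem KH.final [Nonempty X] (H : KH m ν0 ν1 F c C) {f : X → ℝ} {K : ℝ≥0}
    (hf : LipschitzWith K f) :
    ∫ x, ν1 x * HL 1 f x ∂m - ∫ x, ν0 x * f x ∂m ≤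
      (∫ x, F x ^ 2 / (2 * ν0 x) ∂m + ∫ x, F x ^ 2 / (2 * ν1 x) ∂m) / 2 := by
  set A := ∫ x, F x ^ 2 / (2 * ν0 x) ∂m with hA
  set B := ∫ x, F x ^ 2 / (2 * ν1 x) ∂m with hB
  set D := K * ∫ x, F x ∂m with hD
  have t1 : Tendsto (fun n : ℕ => 1 / (n : ℝ)) atTop (𝓝 0) := tendsto_one_div_atTop_nhds_zero_nat
  have t2 : Tendsto (fun n : ℕ => (n : ℝ)⁻¹ * ∑ i ∈ Finset.range n, 1 / (i : ℝ)) atTop (𝓝 0) :=
    t1.cesaro
  have t3 : Tendsto (fun n : ℕ => (A + B) / 2 + (D + B / 2) * (1 / (n : ℝ)) +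
      (A + B) * ((n : ℝ)⁻¹ * ∑ i ∈ Finset.range n, 1 / (i : ℝ))) atTop
      (𝓝 ((A + B) / 2 + (D + B / 2) * 0 + (A + B) * 0)) :=
    (tendsto_const_nhds.add (t1.const_mul _)).add (t2.const_mul _)
  have e : (A + B) / 2 + (D + B / 2) * 0 + (A + B) * 0 = (A + B) / 2 := by ring
  rw [e] at t3
  refine ge_of_tendsto t3 ?_
  filter_upwards [eventually_ge_atTop 1] with n hn
  exact H.total hf n hn

end

variable {X : Type*} [MetricSpace X] [CompactSpace X] [MeasurableSpace X] [BorelSpace X]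
  {m : Measure X} [IsProbabilityMeasure m]

theorem kuwada {ν0 ν1 F : X → ℝ} (h0m : Measurable ν0) (h1m : Measurable ν1) (hFm : Measurable F)
    {c C : ℝ} (hc : 0 < c) (h0 : ∀ x, c ≤ ν0 x ∧ ν0 x ≤ C) (h1 : ∀ x, c ≤ ν1 x ∧ ν1 x ≤ C)
    (hF0 : ∀ x, 0 ≤ F x) (hF2 : Integrable (fun x => F x ^ 2) m)
    (hmass : ∫ x, ν0 x ∂m = ∫ x, ν1 x ∂m)
    (hflux : ∀ g : X → ℝ, (∃ K, LipschitzWith K g) →
      ∫ x, (ν1 x - ν0 x) * g x ∂m ≤ ∫ x, F x * lip g x ∂m)
    {P : Measure (X × X)} (hP : Cpl P (dens m ν0) (dens m ν1)) (hPo : IsOpt P) :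
    cost P ≤ ∫ x, F x ^ 2 * ((1 / ν0 x + 1 / ν1 x) / 2) ∂m := by
  have H : KH m ν0 ν1 F c C := ⟨h0m, h1m, hFm, hc, h0, h1, hF0, hF2, hflux⟩
  have hne : Nonempty X := by
    by_contra hne
    rw [not_nonempty_iff] at hne
    have h2 : m univ = 1 := measure_univ
    rw [univ_eq_empty_iff.mpr hne, measure_empty] at h2
    exact zero_ne_one h2
  have hi0 : Integrable ν0 m := kuw_int h0m H.abs0
  have hfin : IsFiniteMeasure (dens m ν0) := isFiniteMeasure_dens hi0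
  have hPfin : IsFiniteMeasure P := hP.isFiniteMeasure
  obtain ⟨φ, ψ, K, hpot, hφ, hψ⟩ := hPo.exists_pot
  obtain ⟨hφc, hψc, hle, hae⟩ := hpot
  set f : X → ℝ := fun x => - φ x with hf
  have hfl : LipschitzWith K f := hφ.neg
  -- cost in terms of the potentials
  have hψHL : ∀ y, ψ y ≤ HL 1 f y := by
    intro y
    refine le_ciInf fun x => ?_
    have := hle x y
    rw [dist_comm x y] at this
    simp only [hf]
    linarith
  have iφP : Integrable (fun z : X × X => φ z.1) P := by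
    obtain ⟨B, hB⟩ := kuw_bdd hφ
    exact Integrable.of_bound (hφc.comp continuous_fst).measurable.aestronglyMeasurable B
      (ae_of_all _ fun z => hB z.1)
  have iψP : Integrable (fun z : X × X => ψ z.2) P := by
    obtain ⟨B, hB⟩ := kuw_bdd hψ
    exact Integrable.of_bound (hψc.comp continuous_snd).measurable.aestronglyMeasurable B
      (ae_of_all _ fun z => hB z.2)
  have c1 : cost P / 2 = ∫ x, ν0 x * φ x ∂m + ∫ x, ν1 x * ψ x ∂m := by
    have e1 : cost P / 2 = ∫ z, (φ z.1 + ψ z.2) ∂P := by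
      unfold cost
      rw [← integral_div]
      refine integral_congr_ae ?_
      filter_upwards [hae] with z hz
      exact hz.symm
    rw [e1, integral_add iφP iψP,
      hP.integral_fst hφc.measurable.aestronglyMeasurable,
      hP.integral_snd hψc.measurable.aestronglyMeasurable,
      integral_dens h0m (fun x => (H.pos0 x).le), integral_dens h1m (fun x => (H.pos1 x).le)]
  have c2 : ∫ x, ν1 x * ψ x ∂m ≤ ∫ x, ν1 x * HL 1 f x ∂m := by
    obtain ⟨K1, hK1⟩ := HL_lipschitz hfl one_pos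
    refine integral_mono (kuw_int_mul h1m H.abs1 hψ) (kuw_int_mul h1m H.abs1 hK1) fun x => ?_
    exact mul_le_mul_of_nonneg_left (hψHL x) (H.pos1 x).le
  have c3 : ∫ x, ν0 x * φ x ∂m = - ∫ x, ν0 x * f x ∂m := by
    rw [← integral_neg]
    refine integral_congr_ae (ae_of_all _ fun x => ?_)
    simp [hf]
  have c4 := H.final hfl
  have c5 : ∫ x, F x ^ 2 * ((1 / ν0 x + 1 / ν1 x) / 2) ∂m =
      ∫ x, F x ^ 2 / (2 * ν0 x) ∂m + ∫ x, F x ^ 2 / (2 * ν1 x) ∂m := by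
    rw [← integral_add H.intA H.intB]
    refine integral_congr_ae (ae_of_all _ fun x => ?_)
    have a1 := (H.pos0 x).ne'
    have a2 := (H.pos1 x).ne'
    simp only
    field_simp
  rw [c5]
  linarith


end H13CD
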