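import Pool.Agent.Helper13.CD.FluxCalc
import Pool.Agent.Helper13.CD.DILim
import Pool.Agent.Helper13.CD.Kuwada

/-!
# Module O2: the plans of the flux argument

`f` extremal, `|f| ≤ B`; `ν0 = e^(-δf/2)`, `ν1 = e^(-δf/2)+εNf` (same mass), `θ t = e^(δt/2)
P(t)^(N/(N-1))` (so `θ^p = Θ`), `ρ0 = θ(f) ν0 = P(f)^(N/(N-1)) = U(f)^(-N)`,
`U t = P(t)^(-1/(N-1))`, `U' = c P^(-N/(N-1))`, so `U' ρ0 = c`.

Proof of `flux_plan`.  Let `π` be an optimal plan of `ν0 m, ν1 m` with potentials (`exists_plan`),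
`π' = θ(f(x)) π` (`withDensity`); by `Pot.of_ac` and `Pot.isOpt` it is optimal; first marginal
`ρ0 m`, second marginal `=: ρ1 m`, `min θ · ν1 ≤ ρ1 ≤ max θ · ν1` (`exists_dens_of_le_le`).
`DI_lim` for `U, ρ1` gives an optimal plan `P'` of `ρ0 m, ρ1 m`; `metric_brenier` gives `α` with
`d = α(x)` a.e. for `P'` and for `π'`, hence for `π` (`θ > 0`).
* (kuwada): `F = ε g0`, `∫(ν1-ν0) g = εN∫fg ≤ ε∫ g0 lip g` (`el1`); so
  `∫ α² e^(-δf/2) dm = cost π ≤ ε² ∫ g0² (e^(δf/2) + 1/ν1)/2 dm`.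
* (DI): `∫[R1 u1(y) + (R2-1) u0(x)] dP' ≤ p ∫ |U'(f)| g0 d dP' = p c ∫ g0 α dm`;
  `R1 ≥ 1+(p/6)a²`, `R2 ≥ (p/3)a²`; `∫u1(y)dP' = Ent ρ1`, `∫u0 dP' = Ent ρ0`,
  `∫ α² u0 ρ0 dm = ∫ α² P(f) dm`.
* `Ent ρ1 ≥ ∫ Θ(f x) ν1(y)^(-1/N) dπ`: for `z > 0`, `θ^p ≤ z^(1-N)/N + p z θ`; take
  `z = (ρ1/ν1)(y)^(-1/N)`, multiply by `ν1(y)^(-1/N)` and integrate against `π`: the right side is
  `(1/N) ∫ρ1^p + p ∫ ρ1^(-1/N)(y) θ(f x) dπ = (1/N+p) Ent ρ1`.
  `Ent ρ0 = ∫ (θν0)^p dm = ∫ Θ(f x) ν0(x)^(-1/N) dπ`, `ν0^(-1/N) = L(f)`.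
-/

open MeasureTheory Set Filter Topology
open scoped ENNReal NNReal

namespace H13CD

section gen
variable {X : Type*} [MeasurableSpace X]

lemma fpx_map_fst {π : Measure (X × X)} {h : X → ℝ≥0∞} (hh : Measurable h) :
    (π.withDensity (fun z => h z.1)).map Prod.fst = (π.map Prod.fst).withDensity h := by
  ext s hs
  rw [Measure.map_apply measurable_fst hs, withDensity_apply _ (measurable_fst hs),
    withDensity_apply _ hs, setLIntegral_map hs hh measurable_fst]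

lemma fpx_young_rpow {N θ z : ℝ} (hN : 1 < N) (hθ : 0 < θ) (hz : 0 < z) :
    θ ^ (1 - 1 / N) ≤ z ^ (1 - N) / N + (1 - 1 / N) * (z * θ) := by
  have hN0 : 0 < N := by linarith
  have hp : 0 < 1 - 1 / N := by
    rw [sub_pos, div_lt_one hN0]
    exact hN
  have h1 := Real.geom_mean_le_arith_mean2_weighted (w₁ := 1 / N) (w₂ := 1 - 1 / N)
    (p₁ := z ^ (1 - N)) (p₂ := z * θ) (by positivity) hp.le (by positivity) (by positivity)
    (by ring)
  have h2 : (z ^ (1 - N)) ^ (1 / N) * (z * θ) ^ (1 - 1 / N) = θ ^ (1 - 1 / N) := by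
    rw [Real.mul_rpow hz.le hθ.le, ← mul_assoc, ← Real.rpow_mul hz.le, ← Real.rpow_add hz]
    have : (1 - N) * (1 / N) + (1 - 1 / N) = 0 := by field_simp; ring
    rw [this, Real.rpow_zero, one_mul]
  rw [h2] at h1
  calc θ ^ (1 - 1 / N) ≤ 1 / N * z ^ (1 - N) + (1 - 1 / N) * (z * θ) := h1
    _ = _ := by ring

/-- `θ^p ν^(-1/N) ≤ (1/N) ρ^p / ν + p ρ^(-1/N) θ` -/
lemma young_flux {N θ ρ ν : ℝ} (hN : 1 < N) (hθ : 0 < θ) (hρ : 0 < ρ) (hν : 0 < ν) :
    θ ^ (1 - 1 / N) * ν ^ (-(1 / N)) ≤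
      1 / N * (ρ ^ (1 - 1 / N) / ν) + (1 - 1 / N) * (ρ ^ (-(1 / N)) * θ) := by
  have hN0 : 0 < N := by linarith
  have hz : 0 < (ρ / ν) ^ (-(1 / N)) := by positivity
  have h1 := mul_le_mul_of_nonneg_right (fpx_young_rpow hN hθ hz)
    (by positivity : 0 ≤ ν ^ (-(1 / N)))
  refine h1.trans (le_of_eq ?_)
  have e1 : ((ρ / ν) ^ (-(1 / N))) ^ (1 - N) = (ρ / ν) ^ (1 - 1 / N) := by
    rw [← Real.rpow_mul (by positivity)]
    congr 1
    field_simp
    ring
  have e2 : (ρ / ν) ^ (-(1 / N)) * ν ^ (-(1 / N)) = ρ ^ (-(1 / N)) := by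
    rw [← Real.mul_rpow (by positivity) hν.le, div_mul_cancel₀ _ hν.ne']
  have e3 : (ρ / ν) ^ (1 - 1 / N) * ν ^ (-(1 / N)) = ρ ^ (1 - 1 / N) / ν := by
    rw [Real.div_rpow hρ.le hν.le, div_mul_eq_mul_div, div_eq_div_iff (by positivity) hν.ne',
      mul_assoc]
    congr 1
    nth_rewrite 2 [← Real.rpow_one ν]
    rw [← Real.rpow_add hν]
    congr 1
    ring
  rw [e1]
  calc ((ρ / ν) ^ (1 - 1 / N) / N + (1 - 1 / N) * ((ρ / ν) ^ (-(1 / N)) * θ)) * ν ^ (-(1 / N))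
      = 1 / N * ((ρ / ν) ^ (1 - 1 / N) * ν ^ (-(1 / N))) +
        (1 - 1 / N) * ((ρ / ν) ^ (-(1 / N)) * ν ^ (-(1 / N)) * θ) := by ring
    _ = _ := by rw [e2, e3]

lemma fpx_dens_wd {m : Measure X} {ν θ : X → ℝ} (hν : Measurable ν) (hθ : Measurable θ)
    (h0 : ∀ x, 0 ≤ ν x) :
    (dens m ν).withDensity (fun x => ENNReal.ofReal (θ x)) = dens m (fun x => ν x * θ x) := by
  unfold dens
  rw [← withDensity_mul _ hν.ennreal_ofReal hθ.ennreal_ofReal]
  congr 1
  funext x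
  simp only [Pi.mul_apply]
  rw [ENNReal.ofReal_mul (h0 x)]

end gen

lemma fpx_pos_bounds {B : ℝ} (hB : 0 < B) {F : ℝ → ℝ} (hF : ContinuousOn F (Icc (-B) B))
    (hp : ∀ t ∈ Icc (-B) B, 0 < F t) :
    ∃ a > 0, ∃ A > 0, ∀ t ∈ Icc (-B) B, a ≤ F t ∧ F t ≤ A := by
  have hne : (Icc (-B) B).Nonempty := ⟨0, by constructor <;> linarith⟩
  obtain ⟨t1, h1, h1'⟩ := isCompact_Icc.exists_isMinOn hne hF
  obtain ⟨t2, h2, h2'⟩ := isCompact_Icc.exists_isMaxOn hne hF
  exact ⟨F t1, hp t1 h1, F t2, hp t2 h2, fun t ht => ⟨h1' ht, h2' ht⟩⟩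

/-- the weight `θ` -/
noncomputable def fth (N c δ t : ℝ) : ℝ := Real.exp (δ * t / 2) * fP N c t ^ (N / (N - 1))

/-- `U` -/
noncomputable def fU (N c t : ℝ) : ℝ := fP N c t ^ (-(1 / (N - 1)))

/-- `U'` -/
noncomputable def fUd (N c t : ℝ) : ℝ := c * fP N c t ^ (-(N / (N - 1)))

section alg
variable {N B c δ : ℝ}

lemma fP_pos (h : FluxPar N B c δ) {t : ℝ} (ht : t ∈ Icc (-B) B) : 0 < fP N c t := by
  linarith [(fP_bounds h ht).1]

lemma continuous_fP (N c : ℝ) : Continuous (fP N c) := by unfold fP; fun_prop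

lemma measurable_fth (N c δ : ℝ) : Measurable (fth N c δ) := by
  unfold fth
  have h1 : Measurable (fP N c) := (continuous_fP N c).measurable
  have h2 : Measurable (fun t : ℝ => Real.exp (δ * t / 2)) := by fun_prop
  exact h2.mul (h1.pow_const _)

lemma measurable_fU (N c : ℝ) : Measurable (fU N c) := by
  unfold fU
  exact (continuous_fP N c).measurable.pow_const _

lemma measurable_fUd (N c : ℝ) : Measurable (fUd N c) := by
  unfold fUd
  exact ((continuous_fP N c).measurable.pow_const _).const_mul _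

lemma continuousOn_fP_rpow (h : FluxPar N B c δ) (r : ℝ) :
    ContinuousOn (fun t => fP N c t ^ r) (Icc (-B) B) := by
  refine ContinuousOn.rpow_const (continuous_fP N c).continuousOn ?_
  intro t ht
  exact Or.inl (fP_pos h ht).ne'

lemma hasDerivAt_fU (h : FluxPar N B c δ) {t : ℝ} (ht : t ∈ Icc (-B) B) :
    HasDerivAt (fU N c) (fUd N c t) t := by
  have hN1 : N - 1 ≠ 0 := by linarith [h.hN]
  have h1 := (hasDerivAt_fP N c t).rpow_const (p := -(1 / (N - 1))) (Or.inl (fP_pos h ht).ne')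
  refine h1.congr_deriv ?_
  unfold fUd
  have e : -(1 / (N - 1)) - 1 = -(N / (N - 1)) := by field_simp; ring
  rw [e]
  field_simp

lemma fU_rpow (h : FluxPar N B c δ) {t : ℝ} (ht : t ∈ Icc (-B) B) :
    fU N c t ^ (-N) = fP N c t ^ (N / (N - 1)) := by
  have hN1 : N - 1 ≠ 0 := by linarith [h.hN]
  unfold fU
  rw [← Real.rpow_mul (fP_pos h ht).le]
  congr 1
  field_simp

lemma fU_mul (h : FluxPar N B c δ) {t : ℝ} (ht : t ∈ Icc (-B) B) :
    fP N c t ^ (N / (N - 1)) * fU N c t = fP N c t := by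
  have hN1 : N - 1 ≠ 0 := by linarith [h.hN]
  unfold fU
  rw [← Real.rpow_add (fP_pos h ht)]
  have : N / (N - 1) + -(1 / (N - 1)) = 1 := by field_simp; ring
  rw [this, Real.rpow_one]

lemma fUd_mul (h : FluxPar N B c δ) {t : ℝ} (ht : t ∈ Icc (-B) B) :
    fP N c t ^ (N / (N - 1)) * |fUd N c t| = c := by
  have hN1 : N - 1 ≠ 0 := by linarith [h.hN]
  have hp := fP_pos h ht
  have hc := h.hc
  unfold fUd
  rw [abs_of_pos (by positivity), mul_comm c, ← mul_assoc, ← Real.rpow_add hp]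
  simp

lemma fth_pos (h : FluxPar N B c δ) {t : ℝ} (ht : t ∈ Icc (-B) B) : 0 < fth N c δ t := by
  have hp := fP_pos h ht
  unfold fth
  positivity

lemma fth_rpow (h : FluxPar N B c δ) {t : ℝ} (ht : t ∈ Icc (-B) B) :
    fth N c δ t ^ (1 - 1 / N) = fTh N c δ t := by
  have hN1 : N - 1 ≠ 0 := by linarith [h.hN]
  have hN0 : N ≠ 0 := by linarith [h.hN]
  have hp := fP_pos h ht
  unfold fth fTh
  rw [Real.mul_rpow (Real.exp_pos _).le (by positivity), ← Real.exp_mul, ← Real.rpow_mul hp.le]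
  have e1 : N / (N - 1) * (1 - 1 / N) = 1 := by field_simp
  rw [e1, Real.rpow_one]
  congr 2
  ring

lemma nu0_mul_fth (N c δ t : ℝ) :
    Real.exp (-(δ * t / 2)) * fth N c δ t = fP N c t ^ (N / (N - 1)) := by
  unfold fth
  rw [← mul_assoc, ← Real.exp_add]
  simp

lemma fTh_fL (h : FluxPar N B c δ) (t : ℝ) :
    Real.exp (-(δ * t / 2)) * (fTh N c δ t * fL N δ t) = fP N c t := by
  have hN0 : N ≠ 0 := by linarith [h.hN]
  unfold fTh fL
  have e : Real.exp (-(δ * t / 2)) * (Real.exp ((1 - 1 / N) * δ * t / 2) * fP N c t *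
      Real.exp (δ * t / (2 * N))) = Real.exp (-(δ * t / 2) + (1 - 1 / N) * δ * t / 2 +
        δ * t / (2 * N)) * fP N c t := by
    rw [Real.exp_add, Real.exp_add]
    ring
  rw [e]
  have e2 : -(δ * t / 2) + (1 - 1 / N) * δ * t / 2 + δ * t / (2 * N) = 0 := by
    field_simp
    ring
  rw [e2, Real.exp_zero, one_mul]

end alg

section main
variable {X : Type*} [MetricSpace X] [CompactSpace X] [MeasurableSpace X] [BorelSpace X]
  {m : Measure X} [IsProbabilityMeasure m]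

lemma fpx_smul_mono {Y : Type*} [MeasurableSpace Y] {μ ν : Measure Y} (h : μ ≤ ν) (a : ℝ≥0∞) :
    a • μ ≤ a • ν := by
  refine Measure.le_iff.2 fun s _ => ?_
  rw [Measure.smul_apply, Measure.smul_apply, smul_eq_mul, smul_eq_mul]
  gcongr

lemma fpx_dens_ge {ρ : X → ℝ} {C : ℝ} (hC : ∀ x, C ≤ ρ x) : ENNReal.ofReal C • m ≤ dens m ρ := by
  unfold dens
  rw [← withDensity_const]
  exact withDensity_mono (ae_of_all _ fun x => ENNReal.ofReal_le_ofReal (hC x))

lemma fpx_intb {Y : Type*} [MeasurableSpace Y] {Q : Measure Y} [IsFiniteMeasure Q] {F : Y → ℝ}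
    (hF : Measurable F) {K : ℝ} (hK : ∀ z, |F z| ≤ K) : Integrable F Q :=
  Integrable.of_bound hF.aestronglyMeasurable K (Eventually.of_forall hK)

/-- the first part of the data: the plan `π`, the reweighted plan and its second marginal -/
lemma flux_first {N B c δ : ℝ} {f g0 : X → ℝ} (h : Extremal m N B f g0)
    (hp : FluxPar N B c δ) {ε c0 C0 θm θM : ℝ} (hc0 : 0 < c0)
    (hν : ∀ t ∈ Icc (-B) B, c0 ≤ fnu N δ ε t ∧ fnu N δ ε t ≤ C0) (hθm : 0 < θm)
    (hθ : ∀ t ∈ Icc (-B) B, θm ≤ fth N c δ t ∧ fth N c δ t ≤ θM) :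
    ∃ (π π' : Measure (X × X)) (ρ1 : X → ℝ),
      Cpl π (dens m fun x => Real.exp (-(δ * f x / 2))) (dens m fun x => fnu N δ ε (f x)) ∧
      IsOpt π ∧ π' = π.withDensity (fun z => ENNReal.ofReal (fth N c δ (f z.1))) ∧
      Measurable ρ1 ∧ (∀ x, θm * c0 ≤ ρ1 x ∧ ρ1 x ≤ θM * C0) ∧
      Cpl π' (dens m fun x => fP N c (f x) ^ (N / (N - 1))) (dens m ρ1) ∧ IsOpt π' := by
  have hfm : Measurable f := h.lim.meas
  have hb : ∀ x, f x ∈ Icc (-B) B := fun x => abs_le.1 (h.lim.bound x)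
  have hν0m : Measurable fun x => Real.exp (-(δ * f x / 2)) := by fun_prop
  have hν1m : Measurable fun x => fnu N δ ε (f x) := by unfold fnu; fun_prop
  have hν0i : Integrable (fun x => Real.exp (-(δ * f x / 2))) m := by
    refine fpx_intb hν0m (K := Real.exp (δ * B / 2)) fun x => ?_
    rw [abs_of_pos (Real.exp_pos _), Real.exp_le_exp]
    have := mul_le_mul_of_nonneg_left (hb x).1 hp.hδ.le
    linarith
  have hfi : Integrable f m := fpx_intb hfm h.lim.bound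
  have hν1i : Integrable (fun x => fnu N δ ε (f x)) m := by
    unfold fnu
    exact hν0i.add (hfi.const_mul (ε * N))
  have hmass : ∫ x, Real.exp (-(δ * f x / 2)) ∂m = ∫ x, fnu N δ ε (f x) ∂m := by
    unfold fnu
    rw [integral_add hν0i (hfi.const_mul (ε * N)), integral_const_mul, h.mean]
    ring
  have hν1p : ∀ x, 0 ≤ fnu N δ ε (f x) := fun x => hc0.le.trans (hν _ (hb x)).1
  have f0 : IsFiniteMeasure (dens m fun x => Real.exp (-(δ * f x / 2))) :=
    isFiniteMeasure_dens hν0i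
  have f1 : IsFiniteMeasure (dens m fun x => fnu N δ ε (f x)) := isFiniteMeasure_dens hν1i
  obtain ⟨π, φ, ψ, K, hcpl, hpot, -, -⟩ := exists_plan (dens m fun x => Real.exp (-(δ * f x / 2)))
    (dens m fun x => fnu N δ ε (f x)) (by
      rw [dens_univ hν0i (fun x => (Real.exp_pos _).le), dens_univ hν1i hν1p, hmass])
  have fπ : IsFiniteMeasure π := hcpl.isFiniteMeasure
  have hopt : IsOpt π := hpot.isOpt
  have hthm : Measurable fun x => fth N c δ (f x) := (measurable_fth N c δ).comp hfm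
  have hfst : (π.withDensity (fun z => ENNReal.ofReal (fth N c δ (f z.1)))).map Prod.fst =
      dens m fun x => fP N c (f x) ^ (N / (N - 1)) := by
    rw [fpx_map_fst (h := fun x => ENNReal.ofReal (fth N c δ (f x)))
      hthm.ennreal_ofReal, hcpl.1, fpx_dens_wd hν0m hthm (fun x => (Real.exp_pos _).le)]
    congr 1
    funext x
    exact nu0_mul_fth N c δ (f x)
  have hup : π.withDensity (fun z => ENNReal.ofReal (fth N c δ (f z.1))) ≤
      ENNReal.ofReal θM • π := by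
    rw [← withDensity_const]
    exact withDensity_mono (ae_of_all _ fun z => ENNReal.ofReal_le_ofReal (hθ _ (hb z.1)).2)
  have hlo : ENNReal.ofReal θm • π ≤
      π.withDensity (fun z => ENNReal.ofReal (fth N c δ (f z.1))) := by
    rw [← withDensity_const]
    exact withDensity_mono (ae_of_all _ fun z => ENNReal.ofReal_le_ofReal (hθ _ (hb z.1)).1)
  have hup2 : (π.withDensity (fun z => ENNReal.ofReal (fth N c δ (f z.1)))).map Prod.snd ≤
      ENNReal.ofReal (θM * C0) • m := by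
    refine (Measure.map_mono hup measurable_snd).trans ?_
    rw [Measure.map_smul, hcpl.2]
    have h1 : dens m (fun x => fnu N δ ε (f x)) ≤ ENNReal.ofReal C0 • m :=
      dens_le fun x => (hν _ (hb x)).2
    have hθM : 0 ≤ θM := by
      have := hθ 0 (by constructor <;> linarith [hp.hB])
      linarith [this.1, this.2]
    rw [ENNReal.ofReal_mul hθM, mul_smul]
    exact fpx_smul_mono h1 _
  have hlo2 : ENNReal.ofReal (θm * c0) • m ≤
      (π.withDensity (fun z => ENNReal.ofReal (fth N c δ (f z.1)))).map Prod.snd := by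
    refine le_trans ?_ (Measure.map_mono hlo measurable_snd)
    rw [Measure.map_smul, hcpl.2]
    have h1 : ENNReal.ofReal c0 • m ≤ dens m (fun x => fnu N δ ε (f x)) :=
      fpx_dens_ge fun x => (hν _ (hb x)).1
    rw [ENNReal.ofReal_mul hθm.le, mul_smul]
    exact fpx_smul_mono h1 _
  have hle : θm * c0 ≤ θM * C0 := by
    have a1 := hθ 0 (by constructor <;> linarith [hp.hB])
    have a2 := hν 0 (by constructor <;> linarith [hp.hB])
    exact mul_le_mul (a1.1.trans a1.2) (a2.1.trans a2.2) hc0.le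
      (hθm.le.trans (a1.1.trans a1.2))
  obtain ⟨ρ1, hρm, hρ1, hρ2, hρe⟩ := exists_dens_of_le_le (by positivity) hle hup2 hlo2
  have hρ0i : Integrable (fun x => fP N c (f x) ^ (N / (N - 1))) m := by
    have hm : Measurable (fun x => fP N c (f x) ^ (N / (N - 1))) :=
      ((continuous_fP N c).measurable.comp hfm).pow_const _
    obtain ⟨a, _, A, _, hA⟩ := fpx_pos_bounds hp.hB (continuousOn_fP_rpow hp (N / (N - 1)))
      (fun t ht => Real.rpow_pos_of_pos (fP_pos hp ht) _)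
    refine fpx_intb hm (K := A) fun x => ?_
    rw [abs_of_pos (Real.rpow_pos_of_pos (fP_pos hp (hb x)) _)]
    exact (hA _ (hb x)).2
  have f2 : IsFiniteMeasure (dens m fun x => fP N c (f x) ^ (N / (N - 1))) :=
    isFiniteMeasure_dens hρ0i
  have hcpl' : Cpl (π.withDensity (fun z => ENNReal.ofReal (fth N c δ (f z.1))))
      (dens m fun x => fP N c (f x) ^ (N / (N - 1))) (dens m ρ1) := ⟨hfst, hρe⟩
  have f3 := hcpl'.isFiniteMeasure
  exact ⟨π, _, ρ1, hcpl, hopt, rfl, hρm, fun x => ⟨hρ1 x, hρ2 x⟩, hcpl',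
    (hpot.of_ac (withDensity_absolutelyContinuous _ _)).isOpt⟩


/-- the data produced for each small `ε` -/
structure FluxData {X : Type*} [MetricSpace X] [MeasurableSpace X] (m : Measure X)
    (N c δ ε c1 C1 : ℝ) (f g0 : X → ℝ) (π P' : Measure (X × X)) (α ρ1 : X → ℝ) : Prop where
  αmeas : Measurable α
  αnonneg : ∀ x, 0 ≤ α x
  αbdd : ∃ D, ∀ x, α x ≤ D
  ρmeas : Measurable ρ1
  ρbd : ∀ x, c1 ≤ ρ1 x ∧ ρ1 x ≤ C1
  cplπ : Cpl π (dens m fun x => Real.exp (-(δ * f x / 2))) (dens m fun x => fnu N δ ε (f x))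
  dπ : ∀ᵐ z ∂π, dist z.1 z.2 = α z.1
  cplP : Cpl P' (dens m fun x => fP N c (f x) ^ (N / (N - 1))) (dens m ρ1)
  dP : ∀ᵐ z ∂P', dist z.1 z.2 = α z.1
  marg : ∀ k : X → ℝ, Measurable k → (∃ C, ∀ x, |k x| ≤ C) →
    ∫ x, k x * ρ1 x ∂m =
      ∫ z, k z.2 * (Real.exp (δ * f z.1 / 2) * fP N c (f z.1) ^ (N / (N - 1))) ∂π
  kuw : ∫ x, α x ^ 2 * Real.exp (-(δ * f x / 2)) ∂m ≤
    ε ^ 2 * ∫ x, g0 x ^ 2 * ((Real.exp (δ * f x / 2) + 1 / fnu N δ ε (f x)) / 2) ∂m
  di : ∫ z, fTh N c δ (f z.1) * (fnu N δ ε (f z.2) ^ (-(1 / N)) - fL N δ (f z.1)) ∂π +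
      (1 - 1 / N) / 6 * ∫ z, α z.1 ^ 2 * ρ1 z.2 ^ (-(1 / N)) ∂P' +
      (1 - 1 / N) / 3 * ∫ x, α x ^ 2 * fP N c (f x) ∂m ≤
    (1 - 1 / N) * c * ∫ x, g0 x * α x ∂m

/-- the marginal identity -/
lemma flux_marg {N B c δ : ℝ} {f : X → ℝ} (hfm : Measurable f) (hb : ∀ x, f x ∈ Icc (-B) B)
    (hp : FluxPar N B c δ) {π π' : Measure (X × X)} {ρ1 : X → ℝ} {μ : Measure X}
    (hπ' : π' = π.withDensity (fun z => ENNReal.ofReal (fth N c δ (f z.1))))
    (hρm : Measurable ρ1) (hρ0 : ∀ x, 0 ≤ ρ1 x) (hcpl : Cpl π' μ (dens m ρ1))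
    (k : X → ℝ) (hk : Measurable k) :
    ∫ x, k x * ρ1 x ∂m =
      ∫ z, k z.2 * (Real.exp (δ * f z.1 / 2) * fP N c (f z.1) ^ (N / (N - 1))) ∂π := by
  have h1 : ∫ z, k z.2 ∂π' = ∫ x, k x ∂(dens m ρ1) :=
    hcpl.integral_snd hk.aestronglyMeasurable
  rw [integral_dens hρm hρ0] at h1
  have hthm : Measurable fun z : X × X => fth N c δ (f z.1) :=
    (measurable_fth N c δ).comp (hfm.comp measurable_fst)
  have h2 : ∫ z, k z.2 ∂π' = ∫ z, fth N c δ (f z.1) * k z.2 ∂π := by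
    rw [hπ', integral_withDensity_eq_integral_toReal_smul hthm.ennreal_ofReal
      (ae_of_all _ fun x => ENNReal.ofReal_lt_top)]
    refine integral_congr_ae (ae_of_all _ fun z => ?_)
    simp only [smul_eq_mul]
    rw [ENNReal.toReal_ofReal (fth_pos hp (hb z.1)).le]
  rw [h2] at h1
  calc ∫ x, k x * ρ1 x ∂m = ∫ x, ρ1 x * k x ∂m := by
        refine integral_congr_ae (ae_of_all _ fun x => ?_)
        simp only []
        ring
    _ = ∫ z, fth N c δ (f z.1) * k z.2 ∂π := h1.symm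
    _ = _ := by
        refine integral_congr_ae (ae_of_all _ fun z => ?_)
        simp only [fth]
        ring

/-- the Kuwada bound -/
lemma flux_kuw {N B c δ ε : ℝ} {f g0 : X → ℝ} (h : Extremal m N B f g0)
    (hp : FluxPar N B c δ) (hε : 0 < ε) {c0 C0 : ℝ} (hc0 : 0 < c0)
    (hν : ∀ t ∈ Icc (-B) B, c0 ≤ fnu N δ ε t ∧ fnu N δ ε t ≤ C0) {π : Measure (X × X)}
    (hcpl : Cpl π (dens m fun x => Real.exp (-(δ * f x / 2))) (dens m fun x => fnu N δ ε (f x)))
    (hopt : IsOpt π) {α : X → ℝ} (hα : Measurable α) (hd : ∀ᵐ z ∂π, dist z.1 z.2 = α z.1) :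
    ∫ x, α x ^ 2 * Real.exp (-(δ * f x / 2)) ∂m ≤
    ε ^ 2 * ∫ x, g0 x ^ 2 * ((Real.exp (δ * f x / 2) + 1 / fnu N δ ε (f x)) / 2) ∂m := by
  have hfm : Measurable f := h.lim.meas
  have hb : ∀ x, f x ∈ Icc (-B) B := fun x => abs_le.1 (h.lim.bound x)
  have hν0m : Measurable fun x => Real.exp (-(δ * f x / 2)) := by fun_prop
  have hν1m : Measurable fun x => fnu N δ ε (f x) := by unfold fnu; fun_prop
  obtain ⟨a, ha, A, hA, haA⟩ := fpx_pos_bounds hp.hB
    (F := fun t : ℝ => Real.exp (-(δ * t / 2))) (by fun_prop) (fun t _ => Real.exp_pos _)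
  have hν0i : Integrable (fun x => Real.exp (-(δ * f x / 2))) m := by
    refine fpx_intb hν0m (K := A) fun x => ?_
    rw [abs_of_pos (Real.exp_pos _)]
    exact (haA _ (hb x)).2
  have hfi : Integrable f m := fpx_intb hfm h.lim.bound
  have hmass : ∫ x, Real.exp (-(δ * f x / 2)) ∂m = ∫ x, fnu N δ ε (f x) ∂m := by
    unfold fnu
    rw [integral_add hν0i (hfi.const_mul (ε * N)), integral_const_mul, h.mean]
    ring
  have hg2 : Integrable (fun x => (ε * g0 x) ^ 2) m := by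
    have := h.lim.gL2.const_mul (ε ^ 2)
    refine this.congr (ae_of_all _ fun x => ?_)
    simp only []
    ring
  have k1 := kuwada (m := m) (ν0 := fun x => Real.exp (-(δ * f x / 2)))
    (ν1 := fun x => fnu N δ ε (f x)) (F := fun x => ε * g0 x) hν0m hν1m
    (h.lim.gmeas.const_mul ε) (c := min a c0) (C := max A C0) (lt_min ha hc0)
    (fun x => ⟨(min_le_left _ _).trans (haA _ (hb x)).1,
      (haA _ (hb x)).2.trans (le_max_left _ _)⟩)
    (fun x => ⟨(min_le_right _ _).trans (hν _ (hb x)).1,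
      (hν _ (hb x)).2.trans (le_max_right _ _)⟩)
    (fun x => mul_nonneg hε.le (h.lim.gnonneg x)) hg2 hmass (by
      intro g hg
      have e1 := h.el1 g hg
      have e2 : ∫ x, (fnu N δ ε (f x) - Real.exp (-(δ * f x / 2))) * g x ∂m =
          ε * (N * ∫ x, f x * g x ∂m) := by
        rw [← integral_const_mul, ← integral_const_mul]
        refine integral_congr_ae (ae_of_all _ fun x => ?_)
        simp only [fnu]
        ring
      have e3 : ∫ x, ε * g0 x * lip g x ∂m = ε * ∫ x, g0 x * lip g x ∂m := by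
        rw [← integral_const_mul]
        refine integral_congr_ae (ae_of_all _ fun x => ?_)
        simp only []
        ring
      rw [e2, e3]
      exact mul_le_mul_of_nonneg_left e1 hε.le) hcpl hopt
  have k2 : cost π = ∫ x, α x ^ 2 * Real.exp (-(δ * f x / 2)) ∂m := by
    unfold cost
    have e1 : ∫ z, dist z.1 z.2 ^ 2 ∂π = ∫ z, α z.1 ^ 2 ∂π := by
      refine integral_congr_ae ?_
      filter_upwards [hd] with z hz
      rw [hz]
    rw [e1, hcpl.integral_fst (g := fun x => α x ^ 2) (hα.pow_const 2).aestronglyMeasurable,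
      integral_dens hν0m (fun x => (Real.exp_pos _).le)]
    refine integral_congr_ae (ae_of_all _ fun x => ?_)
    simp only []
    ring
  rw [← k2]
  refine k1.trans (le_of_eq ?_)
  rw [← integral_const_mul]
  refine integral_congr_ae (ae_of_all _ fun x => ?_)
  simp only []
  have e : 1 / Real.exp (-(δ * f x / 2)) = Real.exp (δ * f x / 2) := by
    rw [Real.exp_neg, one_div, inv_inv]
  rw [e]
  ring


lemma fpx_R1_ge {N a : ℝ} (hN : 1 < N) : 1 + (1 - 1 / N) / 6 * a ^ 2 ≤ R1 N a := by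
  have hp : 0 < 1 - 1 / N := by
    rw [sub_pos, div_lt_one (by linarith)]
    exact hN
  unfold R1
  have : 0 ≤ ((1 - 1 / N) / 180 + (1 - 1 / N) ^ 2 / 72) * a ^ 4 := by positivity
  linarith

lemma fpx_R2_ge {N a : ℝ} (hN : 1 < N) : (1 - 1 / N) / 3 * a ^ 2 ≤ R2 N a := by
  have hp : 0 < 1 - 1 / N := by
    rw [sub_pos, div_lt_one (by linarith)]
    exact hN
  unfold R2
  have : 0 ≤ (1 - 1 / N) * (a ^ 4 / 45) := by positivity
  linarith

/-- entropy comparison -/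
lemma flux_ent {N B c δ ε : ℝ} {f : X → ℝ} (hfm : Measurable f) (hb : ∀ x, f x ∈ Icc (-B) B)
    (hp : FluxPar N B c δ) {c0 C0 : ℝ} (hc0 : 0 < c0)
    (hν : ∀ t ∈ Icc (-B) B, c0 ≤ fnu N δ ε t ∧ fnu N δ ε t ≤ C0) {π : Measure (X × X)}
    (hcpl : Cpl π (dens m fun x => Real.exp (-(δ * f x / 2))) (dens m fun x => fnu N δ ε (f x)))
    {ρ1 : X → ℝ} (hρm : Measurable ρ1) {c1 C1 : ℝ} (hc1 : 0 < c1)
    (hρ : ∀ x, c1 ≤ ρ1 x ∧ ρ1 x ≤ C1)
    (hmarg : ∀ k : X → ℝ, Measurable k →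
    ∫ x, k x * ρ1 x ∂m =
      ∫ z, k z.2 * (Real.exp (δ * f z.1 / 2) * fP N c (f z.1) ^ (N / (N - 1))) ∂π) :
    ∫ z, fTh N c δ (f z.1) * (fnu N δ ε (f z.2) ^ (-(1 / N)) - fL N δ (f z.1)) ∂π ≤
      ∫ x, ρ1 x * ρ1 x ^ (-(1 / N)) ∂m - ∫ x, fP N c (f x) ∂m := by
  have hN := hp.hN
  have hN0 : 0 < N := by linarith
  have hp0 : 0 < 1 - 1 / N := by
    rw [sub_pos, div_lt_one hN0]
    exact hN
  have hν0m : Measurable fun x => Real.exp (-(δ * f x / 2)) := by fun_prop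
  have hν1m : Measurable fun x => fnu N δ ε (f x) := by unfold fnu; fun_prop
  obtain ⟨a, ha, A, hA, haA⟩ := fpx_pos_bounds hp.hB
    (F := fun t : ℝ => Real.exp (-(δ * t / 2))) (by fun_prop) (fun t _ => Real.exp_pos _)
  have hν0i : Integrable (fun x => Real.exp (-(δ * f x / 2))) m := by
    refine fpx_intb hν0m (K := A) fun x => ?_
    rw [abs_of_pos (Real.exp_pos _)]
    exact (haA _ (hb x)).2
  have f0 : IsFiniteMeasure (dens m fun x => Real.exp (-(δ * f x / 2))) :=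
    isFiniteMeasure_dens hν0i
  have fπ : IsFiniteMeasure π := hcpl.isFiniteMeasure
  have hν1p : ∀ x, 0 < fnu N δ ε (f x) := fun x => hc0.trans_le (hν _ (hb x)).1
  have hρp : ∀ x, 0 < ρ1 x := fun x => hc1.trans_le (hρ x).1
  -- measurability
  have mTh : Measurable fun x => fTh N c δ (f x) := by
    have : Continuous (fTh N c δ) := by unfold fTh fP; fun_prop
    exact this.measurable.comp hfm
  have mL : Measurable fun x => fL N δ (f x) := by
    have : Continuous (fL N δ) := by unfold fL; fun_prop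
    exact this.measurable.comp hfm
  have mν : Measurable fun x => fnu N δ ε (f x) ^ (-(1 / N)) := hν1m.pow_const _
  have mρ : Measurable fun x => ρ1 x ^ (-(1 / N)) := hρm.pow_const _
  have mρp : Measurable fun x => ρ1 x ^ (1 - 1 / N) := hρm.pow_const _
  have mth : Measurable fun x => fth N c δ (f x) := (measurable_fth N c δ).comp hfm
  -- bounds
  obtain ⟨K1, hK1, bTh⟩ := fTh_bounds hp
  have bν : ∀ x, fnu N δ ε (f x) ^ (-(1 / N)) ≤ c0 ^ (-(1 / N)) := fun x =>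
    Real.rpow_le_rpow_of_nonpos hc0 (hν _ (hb x)).1 (by
      rw [neg_nonpos]; positivity)
  have bρ : ∀ x, ρ1 x ^ (-(1 / N)) ≤ c1 ^ (-(1 / N)) := fun x =>
    Real.rpow_le_rpow_of_nonpos hc1 (hρ x).1 (by
      rw [neg_nonpos]; positivity)
  have bρp : ∀ x, ρ1 x ^ (1 - 1 / N) ≤ C1 ^ (1 - 1 / N) := fun x =>
    Real.rpow_le_rpow (hρp x).le (hρ x).2 hp0.le
  obtain ⟨aL, haL, AL, hAL, haAL⟩ := fpx_pos_bounds hp.hB
    (F := fL N δ) (by unfold fL; fun_prop) (fun t _ => Real.exp_pos _)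
  obtain ⟨at', hat, At, hAt, haAt⟩ := fpx_pos_bounds hp.hB
    (F := fth N c δ) (by
      unfold fth
      exact ContinuousOn.mul (by fun_prop) (continuousOn_fP_rpow hp _)) (fun t ht => fth_pos hp ht)
  -- integrability
  have i1 : Integrable (fun z : X × X => fTh N c δ (f z.1) * fnu N δ ε (f z.2) ^ (-(1 / N))) π := by
    refine fpx_intb ((mTh.comp measurable_fst).mul (mν.comp measurable_snd))
      (K := K1 * c0 ^ (-(1 / N))) fun z => ?_
    have h1 := bTh _ (hb z.1)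
    have h2 : 0 < fnu N δ ε (f z.2) ^ (-(1 / N)) := Real.rpow_pos_of_pos (hν1p _) _
    rw [abs_of_pos (mul_pos h1.1 h2)]
    exact mul_le_mul h1.2 (bν z.2) h2.le hK1.le
  have i2 : Integrable (fun z : X × X => fTh N c δ (f z.1) * fL N δ (f z.1)) π := by
    refine fpx_intb ((mTh.comp measurable_fst).mul (mL.comp measurable_fst))
      (K := K1 * AL) fun z => ?_
    have h1 := bTh _ (hb z.1)
    have h2 := haAL _ (hb z.1)
    have h3 : 0 < fL N δ (f z.1) := Real.exp_pos _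
    rw [abs_of_pos (mul_pos h1.1 h3)]
    exact mul_le_mul h1.2 h2.2 h3.le hK1.le
  have i3 : Integrable (fun z : X × X => ρ1 z.2 ^ (1 - 1 / N) / fnu N δ ε (f z.2)) π := by
    refine fpx_intb ((mρp.comp measurable_snd).div (hν1m.comp measurable_snd))
      (K := C1 ^ (1 - 1 / N) / c0) fun z => ?_
    have h2 : 0 < ρ1 z.2 ^ (1 - 1 / N) := Real.rpow_pos_of_pos (hρp _) _
    rw [abs_of_pos (div_pos h2 (hν1p _))]
    exact div_le_div₀ (h2.le.trans (bρp z.2)) (bρp z.2) hc0 (hν _ (hb z.2)).1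
  have i4 : Integrable (fun z : X × X => ρ1 z.2 ^ (-(1 / N)) * fth N c δ (f z.1)) π := by
    refine fpx_intb ((mρ.comp measurable_snd).mul (mth.comp measurable_fst))
      (K := c1 ^ (-(1 / N)) * At) fun z => ?_
    have h2 : 0 < ρ1 z.2 ^ (-(1 / N)) := Real.rpow_pos_of_pos (hρp _) _
    have h3 := haAt _ (hb z.1)
    rw [abs_of_pos (mul_pos h2 (fth_pos hp (hb z.1)))]
    exact mul_le_mul (bρ z.2) h3.2 (fth_pos hp (hb z.1)).le (h2.le.trans (bρ z.2))
  -- first term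
  have s1 : ∫ z, fTh N c δ (f z.1) * fnu N δ ε (f z.2) ^ (-(1 / N)) ∂π ≤
      ∫ z, (1 / N * (ρ1 z.2 ^ (1 - 1 / N) / fnu N δ ε (f z.2)) +
        (1 - 1 / N) * (ρ1 z.2 ^ (-(1 / N)) * fth N c δ (f z.1))) ∂π := by
    refine integral_mono i1 ((i3.const_mul _).add (i4.const_mul _)) fun z => ?_
    have := young_flux hN (fth_pos hp (hb z.1)) (hρp z.2) (hν1p z.2)
    rwa [fth_rpow hp (hb z.1)] at this
  have s2 : ∫ z, ρ1 z.2 ^ (1 - 1 / N) / fnu N δ ε (f z.2) ∂π =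
      ∫ x, ρ1 x * ρ1 x ^ (-(1 / N)) ∂m := by
    rw [hcpl.integral_snd (g := fun x => ρ1 x ^ (1 - 1 / N) / fnu N δ ε (f x))
      (mρp.div hν1m).aestronglyMeasurable, integral_dens hν1m (fun x => (hν1p x).le)]
    refine integral_congr_ae (ae_of_all _ fun x => ?_)
    simp only []
    rw [mul_div_cancel₀ _ (hν1p x).ne', sub_eq_add_neg, Real.rpow_add (hρp x), Real.rpow_one]
  have s3 : ∫ z, ρ1 z.2 ^ (-(1 / N)) * fth N c δ (f z.1) ∂π =
      ∫ x, ρ1 x * ρ1 x ^ (-(1 / N)) ∂m := by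
    have := hmarg (fun x => ρ1 x ^ (-(1 / N))) mρ
    calc ∫ z, ρ1 z.2 ^ (-(1 / N)) * fth N c δ (f z.1) ∂π = ∫ x, ρ1 x ^ (-(1 / N)) * ρ1 x ∂m := by
          rw [this]
          rfl
      _ = _ := by
          refine integral_congr_ae (ae_of_all _ fun x => ?_)
          simp only []
          ring
  have s4 : ∫ z, (1 / N * (ρ1 z.2 ^ (1 - 1 / N) / fnu N δ ε (f z.2)) +
        (1 - 1 / N) * (ρ1 z.2 ^ (-(1 / N)) * fth N c δ (f z.1))) ∂π =
        ∫ x, ρ1 x * ρ1 x ^ (-(1 / N)) ∂m := by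
    rw [integral_add (i3.const_mul _) (i4.const_mul _), integral_const_mul, integral_const_mul,
      s2, s3]
    ring
  have s5 : ∫ z, fTh N c δ (f z.1) * fL N δ (f z.1) ∂π = ∫ x, fP N c (f x) ∂m := by
    rw [hcpl.integral_fst (g := fun x => fTh N c δ (f x) * fL N δ (f x))
      (mTh.mul mL).aestronglyMeasurable, integral_dens hν0m (fun x => (Real.exp_pos _).le)]
    refine integral_congr_ae (ae_of_all _ fun x => ?_)
    exact fTh_fL hp (f x)
  have s6 : ∫ z, fTh N c δ (f z.1) * (fnu N δ ε (f z.2) ^ (-(1 / N)) - fL N δ (f z.1)) ∂π =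
      ∫ z, fTh N c δ (f z.1) * fnu N δ ε (f z.2) ^ (-(1 / N)) ∂π -
      ∫ z, fTh N c δ (f z.1) * fL N δ (f z.1) ∂π := by
    rw [← integral_sub i1 i2]
    refine integral_congr_ae (ae_of_all _ fun z => ?_)
    simp only []
    ring
  rw [s6, s5]
  linarith [s1, s4]


/-- lower bound of the left side of `DI_lim` -/
lemma flux_low {N B c δ : ℝ} {f : X → ℝ} (hfm : Measurable f) (hb : ∀ x, f x ∈ Icc (-B) B)
    (hp : FluxPar N B c δ) {P' : Measure (X × X)} {ρ1 : X → ℝ} (hρm : Measurable ρ1)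
    {c1 C1 : ℝ} (hc1 : 0 < c1) (hρ : ∀ x, c1 ≤ ρ1 x ∧ ρ1 x ≤ C1)
    (hcpl : Cpl P' (dens m fun x => fP N c (f x) ^ (N / (N - 1))) (dens m ρ1))
    {α : X → ℝ} (hα : Measurable α) (hα0 : ∀ x, 0 ≤ α x) {D : ℝ} (hαD : ∀ x, α x ≤ D)
    (hd : ∀ᵐ z ∂P', dist z.1 z.2 = α z.1) :
    ∫ x, ρ1 x * ρ1 x ^ (-(1 / N)) ∂m - ∫ x, fP N c (f x) ∂m +
      (1 - 1 / N) / 6 * ∫ z, α z.1 ^ 2 * ρ1 z.2 ^ (-(1 / N)) ∂P' +
      (1 - 1 / N) / 3 * ∫ x, α x ^ 2 * fP N c (f x) ∂m ≤
    ∫ z, (R1 N (dist z.1 z.2) * ρ1 z.2 ^ (-(1 / N)) +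
      (R2 N (dist z.1 z.2) - 1) * fU N c (f z.1)) ∂P' := by
  have hN := hp.hN
  have hN0 : 0 < N := by linarith
  have hp0 : 0 < 1 - 1 / N := by
    rw [sub_pos, div_lt_one hN0]
    exact hN
  have hρp : ∀ x, 0 < ρ1 x := fun x => hc1.trans_le (hρ x).1
  have mR : Measurable fun x => fP N c (f x) ^ (N / (N - 1)) :=
    ((continuous_fP N c).measurable.comp hfm).pow_const _
  have pR : ∀ x, 0 < fP N c (f x) ^ (N / (N - 1)) := fun x =>
    Real.rpow_pos_of_pos (fP_pos hp (hb x)) _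
  obtain ⟨aR, haR, AR, hAR, haAR⟩ := fpx_pos_bounds hp.hB
    (continuousOn_fP_rpow hp (N / (N - 1))) (fun t ht => Real.rpow_pos_of_pos (fP_pos hp ht) _)
  have iR : Integrable (fun x => fP N c (f x) ^ (N / (N - 1))) m := by
    refine fpx_intb mR (K := AR) fun x => ?_
    rw [abs_of_pos (pR x)]
    exact (haAR _ (hb x)).2
  have f0 : IsFiniteMeasure (dens m fun x => fP N c (f x) ^ (N / (N - 1))) :=
    isFiniteMeasure_dens iR
  have fP' : IsFiniteMeasure P' := hcpl.isFiniteMeasure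
  have mρ : Measurable fun x => ρ1 x ^ (-(1 / N)) := hρm.pow_const _
  have pρ : ∀ x, 0 < ρ1 x ^ (-(1 / N)) := fun x => Real.rpow_pos_of_pos (hρp _) _
  have bρ : ∀ x, ρ1 x ^ (-(1 / N)) ≤ c1 ^ (-(1 / N)) := fun x =>
    Real.rpow_le_rpow_of_nonpos hc1 (hρ x).1 (by
      rw [neg_nonpos]; positivity)
  have mU : Measurable fun x => fU N c (f x) := (measurable_fU N c).comp hfm
  obtain ⟨aU, haU, AU, hAU, haAU⟩ := fpx_pos_bounds hp.hB (F := fU N c)
    (continuousOn_fP_rpow hp (-(1 / (N - 1))))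
    (fun t ht => Real.rpow_pos_of_pos (fP_pos hp ht) _)
  have pU : ∀ x, 0 < fU N c (f x) := fun x => haU.trans_le (haAU _ (hb x)).1
  have ρb0 : 0 ≤ c1 ^ (-(1 / N)) := by positivity
  rcases isEmpty_or_nonempty X with hX | hX
  · have e1 : m = 0 := Measure.eq_zero_of_isEmpty m
    have := IsProbabilityMeasure.ne_zero m
    exact absurd e1 this
  obtain ⟨x0⟩ := hX
  have hD0 : 0 ≤ D := (hα0 x0).trans (hαD x0)
  -- integrability
  have j1 : Integrable (fun z : X × X => ρ1 z.2 ^ (-(1 / N))) P' := by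
    refine fpx_intb (mρ.comp measurable_snd) (K := c1 ^ (-(1 / N))) fun z => ?_
    rw [abs_of_pos (pρ _)]
    exact bρ _
  have j2 : Integrable (fun z : X × X => α z.1 ^ 2 * ρ1 z.2 ^ (-(1 / N))) P' := by
    refine fpx_intb (((hα.comp measurable_fst).pow_const 2).mul (mρ.comp measurable_snd))
      (K := D ^ 2 * c1 ^ (-(1 / N))) fun z => ?_
    rw [abs_of_nonneg (mul_nonneg (sq_nonneg _) (pρ _).le)]
    exact mul_le_mul (pow_le_pow_left₀ (hα0 _) (hαD _) 2) (bρ _) (pρ _).le (by positivity)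
  have j3 : Integrable (fun z : X × X => α z.1 ^ 2 * fU N c (f z.1)) P' := by
    refine fpx_intb (((hα.comp measurable_fst).pow_const 2).mul (mU.comp measurable_fst))
      (K := D ^ 2 * AU) fun z => ?_
    rw [abs_of_nonneg (mul_nonneg (sq_nonneg _) (pU _).le)]
    exact mul_le_mul (pow_le_pow_left₀ (hα0 _) (hαD _) 2) (haAU _ (hb _)).2 (pU _).le
      (by positivity)
  have j4 : Integrable (fun z : X × X => fU N c (f z.1)) P' := by
    refine fpx_intb (mU.comp measurable_fst) (K := AU) fun z => ?_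
    rw [abs_of_pos (pU _)]
    exact (haAU _ (hb _)).2
  have mR1 : Measurable (fun z : X × X => R1 N (dist z.1 z.2)) := by
    have : Continuous (R1 N) := by unfold R1; fun_prop
    exact this.measurable.comp measurable_dist
  have mR2 : Measurable (fun z : X × X => R2 N (dist z.1 z.2)) := by
    have : Continuous (R2 N) := by unfold R2; fun_prop
    exact this.measurable.comp measurable_dist
  obtain ⟨KR1, hKR1⟩ := (isCompact_univ (X := X × X)).exists_bound_of_continuousOn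
    (f := fun z : X × X => R1 N (dist z.1 z.2)) (by unfold R1; fun_prop)
  obtain ⟨KR2, hKR2⟩ := (isCompact_univ (X := X × X)).exists_bound_of_continuousOn
    (f := fun z : X × X => R2 N (dist z.1 z.2) - 1) (by unfold R2; fun_prop)
  have j5 : Integrable (fun z : X × X => R1 N (dist z.1 z.2) * ρ1 z.2 ^ (-(1 / N))) P' := by
    refine fpx_intb (mR1.mul (mρ.comp measurable_snd)) (K := KR1 * c1 ^ (-(1 / N))) fun z => ?_
    rw [abs_mul, abs_of_pos (pρ _)]
    have h1 := hKR1 z (mem_univ _)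
    rw [Real.norm_eq_abs] at h1
    exact mul_le_mul h1 (bρ _) (pρ _).le ((abs_nonneg _).trans h1)
  have j6 : Integrable (fun z : X × X => (R2 N (dist z.1 z.2) - 1) * fU N c (f z.1)) P' := by
    refine fpx_intb ((mR2.sub_const 1).mul (mU.comp measurable_fst)) (K := KR2 * AU) fun z => ?_
    rw [abs_mul, abs_of_pos (pU _)]
    have h1 := hKR2 z (mem_univ _)
    rw [Real.norm_eq_abs] at h1
    exact mul_le_mul h1 (haAU _ (hb _)).2 (pU _).le ((abs_nonneg _).trans h1)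
  -- the integrals
  have e1 : ∫ z, ρ1 z.2 ^ (-(1 / N)) ∂P' = ∫ x, ρ1 x * ρ1 x ^ (-(1 / N)) ∂m := by
    rw [hcpl.integral_snd (g := fun x => ρ1 x ^ (-(1 / N))) mρ.aestronglyMeasurable,
      integral_dens hρm (fun x => (hρp x).le)]
  have e2 : ∫ z, α z.1 ^ 2 * fU N c (f z.1) ∂P' = ∫ x, α x ^ 2 * fP N c (f x) ∂m := by
    rw [hcpl.integral_fst (g := fun x => α x ^ 2 * fU N c (f x))
      ((hα.pow_const 2).mul mU).aestronglyMeasurable, integral_dens mR (fun x => (pR x).le)]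
    refine integral_congr_ae (ae_of_all _ fun x => ?_)
    simp only []
    linear_combination (α x) ^ 2 * fU_mul hp (hb x)
  have e3 : ∫ z, fU N c (f z.1) ∂P' = ∫ x, fP N c (f x) ∂m := by
    rw [hcpl.integral_fst (g := fun x => fU N c (f x))
      mU.aestronglyMeasurable, integral_dens mR (fun x => (pR x).le)]
    refine integral_congr_ae (ae_of_all _ fun x => ?_)
    exact fU_mul hp (hb x)
  have e4 : ∫ z, (ρ1 z.2 ^ (-(1 / N)) + (1 - 1 / N) / 6 * (α z.1 ^ 2 * ρ1 z.2 ^ (-(1 / N))) +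
      (1 - 1 / N) / 3 * (α z.1 ^ 2 * fU N c (f z.1)) - fU N c (f z.1)) ∂P' =
      ∫ x, ρ1 x * ρ1 x ^ (-(1 / N)) ∂m +
      (1 - 1 / N) / 6 * ∫ z, α z.1 ^ 2 * ρ1 z.2 ^ (-(1 / N)) ∂P' +
      (1 - 1 / N) / 3 * ∫ x, α x ^ 2 * fP N c (f x) ∂m - ∫ x, fP N c (f x) ∂m := by
    have k1 : Integrable (fun z : X × X => ρ1 z.2 ^ (-(1 / N)) +
      (1 - 1 / N) / 6 * (α z.1 ^ 2 * ρ1 z.2 ^ (-(1 / N)))) P' := j1.add (j2.const_mul _)
    have k2 : Integrable (fun z : X × X => ρ1 z.2 ^ (-(1 / N)) +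
      (1 - 1 / N) / 6 * (α z.1 ^ 2 * ρ1 z.2 ^ (-(1 / N))) +
      (1 - 1 / N) / 3 * (α z.1 ^ 2 * fU N c (f z.1))) P' := k1.add (j3.const_mul _)
    rw [integral_sub k2 j4, integral_add k1 (j3.const_mul _), integral_add j1 (j2.const_mul _),
      integral_const_mul, integral_const_mul, e1, e2, e3]
  have e5 : ∫ z, (ρ1 z.2 ^ (-(1 / N)) + (1 - 1 / N) / 6 * (α z.1 ^ 2 * ρ1 z.2 ^ (-(1 / N))) +
      (1 - 1 / N) / 3 * (α z.1 ^ 2 * fU N c (f z.1)) - fU N c (f z.1)) ∂P' ≤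
      ∫ z, (R1 N (dist z.1 z.2) * ρ1 z.2 ^ (-(1 / N)) +
      (R2 N (dist z.1 z.2) - 1) * fU N c (f z.1)) ∂P' := by
    refine integral_mono_ae (((j1.add (j2.const_mul _)).add (j3.const_mul _)).sub j4)
      (j5.add j6) ?_
    filter_upwards [hd] with z hz
    have h1 := mul_le_mul_of_nonneg_right (fpx_R1_ge (N := N) (a := dist z.1 z.2) hN) (pρ z.2).le
    have h2 := mul_le_mul_of_nonneg_right (fpx_R2_ge (N := N) (a := dist z.1 z.2) hN) (pU z.1).le
    rw [hz] at h1 h2 ⊢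
    linarith
  linarith


lemma flux_rhs {N B c δ : ℝ} {f g0 : X → ℝ} (hfm : Measurable f) (hb : ∀ x, f x ∈ Icc (-B) B)
    (hp : FluxPar N B c δ) (hg : Measurable g0) {P' : Measure (X × X)} {ν : Measure X}
    (hcpl : Cpl P' (dens m fun x => fP N c (f x) ^ (N / (N - 1))) ν)
    {α : X → ℝ} (hα : Measurable α) (hd : ∀ᵐ z ∂P', dist z.1 z.2 = α z.1) :
    ∫ z, |fUd N c (f z.1)| * g0 z.1 * dist z.1 z.2 ∂P' = c * ∫ x, g0 x * α x ∂m := by
  have mR : Measurable fun x => fP N c (f x) ^ (N / (N - 1)) :=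
    ((continuous_fP N c).measurable.comp hfm).pow_const _
  have pR : ∀ x, 0 < fP N c (f x) ^ (N / (N - 1)) := fun x =>
    Real.rpow_pos_of_pos (fP_pos hp (hb x)) _
  have mU : Measurable fun x => |fUd N c (f x)| :=
    ((measurable_fUd N c).comp hfm).norm
  have e1 : ∫ z, |fUd N c (f z.1)| * g0 z.1 * dist z.1 z.2 ∂P' =
      ∫ z, |fUd N c (f z.1)| * g0 z.1 * α z.1 ∂P' := by
    refine integral_congr_ae ?_
    filter_upwards [hd] with z hz
    rw [hz]
  rw [e1, hcpl.integral_fst (g := fun x => |fUd N c (f x)| * g0 x * α x)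
      ((mU.mul hg).mul hα).aestronglyMeasurable, integral_dens mR (fun x => (pR x).le),
      ← integral_const_mul]
  refine integral_congr_ae (ae_of_all _ fun x => ?_)
  simp only []
  linear_combination (g0 x * α x) * fUd_mul hp (hb x)

theorem flux_plan {N B c δ : ℝ} (hcd : CDr m N) {f g0 : X → ℝ} (h : Extremal m N B f g0)
    (hp : FluxPar N B c δ) :
    ∃ ε0 > 0, ∃ c1 > 0, ∃ C1 > 0, ∀ ε ∈ Ioo (0 : ℝ) ε0,
      ∃ (π P' : Measure (X × X)) (α ρ1 : X → ℝ), FluxData m N c δ ε c1 C1 f g0 π P' α ρ1 := by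
  have hfm : Measurable f := h.lim.meas
  have hb : ∀ x, f x ∈ Icc (-B) B := fun x => abs_le.1 (h.lim.bound x)
  have hN := hp.hN
  have hN1 : 0 < N - 1 := by linarith
  have hp0 : 0 < 1 - 1 / N := by
    rw [sub_pos, div_lt_one (by linarith)]
    exact hN
  have h0m : (0 : ℝ) ∈ Icc (-B) B := by constructor <;> linarith [hp.hB]
  obtain ⟨C0, hC0, ε0, hε0, c0, hc0, hfl⟩ := flux_pointwise hp
  obtain ⟨θm, hθm, θM, hθM, hθ⟩ := fpx_pos_bounds hp.hB
    (F := fth N c δ) (by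
      unfold fth
      exact ContinuousOn.mul (by fun_prop) (continuousOn_fP_rpow hp _)) (fun t ht => fth_pos hp ht)
  obtain ⟨aR, haR, AR, hAR, haAR⟩ := fpx_pos_bounds hp.hB
    (continuousOn_fP_rpow hp (N / (N - 1))) (fun t ht => Real.rpow_pos_of_pos (fP_pos hp ht) _)
  refine ⟨ε0, hε0, θm * c0, by positivity, θM * C0, by positivity, fun ε hε => ?_⟩
  have hν : ∀ t ∈ Icc (-B) B, c0 ≤ fnu N δ ε t ∧ fnu N δ ε t ≤ C0 := by
    intro t ht
    have := hfl ε hε 0 h0m t ht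
    exact ⟨this.1, this.2.1⟩
  obtain ⟨π, π', ρ1, hcpl, hopt, hπ', hρm, hρ, hcpl', hopt'⟩ := flux_first h hp hc0 hν hθm hθ
  have hc1 : 0 < θm * c0 := by positivity
  have mR : Measurable fun x => fP N c (f x) ^ (N / (N - 1)) :=
    ((continuous_fP N c).measurable.comp hfm).pow_const _
  have pR : ∀ x, 0 < fP N c (f x) ^ (N / (N - 1)) := fun x =>
    Real.rpow_pos_of_pos (fP_pos hp (hb x)) _
  have iR : Integrable (fun x => fP N c (f x) ^ (N / (N - 1))) m := by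
    refine fpx_intb mR (K := AR) fun x => ?_
    rw [abs_of_pos (pR x)]
    exact (haAR _ (hb x)).2
  have iρ : Integrable ρ1 m := by
    refine fpx_intb hρm (K := θM * C0) fun x => ?_
    rw [abs_of_pos (hc1.trans_le (hρ x).1)]
    exact (hρ x).2
  have hρ0 : ∀ x, 0 ≤ ρ1 x := fun x => hc1.le.trans (hρ x).1
  -- masses
  have hmass : ∫ x, fP N c (f x) ^ (N / (N - 1)) ∂m = ∫ x, ρ1 x ∂m := by
    have e1 : dens m (fun x => fP N c (f x) ^ (N / (N - 1))) univ = π' univ := by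
      rw [← hcpl'.1, Measure.map_apply measurable_fst MeasurableSet.univ, preimage_univ]
    have e2 : dens m ρ1 univ = π' univ := by
      rw [← hcpl'.2, Measure.map_apply measurable_snd MeasurableSet.univ, preimage_univ]
    rw [← e2, dens_univ iR (fun x => (pR x).le), dens_univ iρ hρ0] at e1
    exact (ENNReal.ofReal_eq_ofReal_iff (integral_nonneg fun x => (pR x).le)
      (integral_nonneg hρ0)).1 e1
  have eU : (fun x => fU N c (f x) ^ (-N)) = fun x => fP N c (f x) ^ (N / (N - 1)) := by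
    funext x
    exact fU_rpow hp (hb x)
  obtain ⟨P', hPc, hPo, hDI⟩ := DI_lim hN hcd h.lim (U := fU N c) (U' := fUd N c)
    (fun t ht => hasDerivAt_fU hp ht) (by
      unfold fUd
      exact continuousOn_const.mul (continuousOn_fP_rpow hp _))
    (fun t ht => Real.rpow_pos_of_pos (fP_pos hp ht) _) hρm hc1 hρ (by
      rw [eU]; exact hmass)
  rw [eU] at hPc
  obtain ⟨α, hα, hα0, ⟨D, hαD⟩, hbr⟩ := metric_brenier hN hcd mR hρm
    (c := aR) (C := max AR (θM * C0)) haR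
    (fun x => ⟨(haAR _ (hb x)).1, (haAR _ (hb x)).2.trans (le_max_left _ _)⟩)
    (fun x => ⟨hρ0 x, (hρ x).2.trans (le_max_right _ _)⟩) hmass
  have hdP := hbr P' hPc hPo
  have hdπ' := hbr π' hcpl' hopt'
  have hdπ : ∀ᵐ z ∂π, dist z.1 z.2 = α z.1 := by
    have hthm : Measurable fun z : X × X => ENNReal.ofReal (fth N c δ (f z.1)) :=
      ((measurable_fth N c δ).comp (hfm.comp measurable_fst)).ennreal_ofReal
    have hac : π ≪ π.withDensity (fun z => ENNReal.ofReal (fth N c δ (f z.1))) :=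
      withDensity_absolutelyContinuous' hthm.aemeasurable (ae_of_all _ fun z => by
        have := fth_pos hp (hb z.1)
        simpa using this)
    rw [← hπ'] at hac
    exact hac.ae_le hdπ'
  have hmarg : ∀ k : X → ℝ, Measurable k → ∫ x, k x * ρ1 x ∂m =
      ∫ z, k z.2 * (Real.exp (δ * f z.1 / 2) * fP N c (f z.1) ^ (N / (N - 1))) ∂π :=
    fun k hk => flux_marg hfm hb hp hπ' hρm hρ0 hcpl' k hk
  refine ⟨π, P', α, ρ1, hα, hα0, ⟨D, hαD⟩, hρm, hρ, hcpl, hdπ, hPc, hdP,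
    fun k hk _ => hmarg k hk, flux_kuw h hp hε.1 hc0 hν hcpl hopt hα hdπ, ?_⟩
  have s1 := flux_ent hfm hb hp hc0 hν hcpl hρm hc1 hρ hmarg
  have s2 := flux_low hfm hb hp hρm hc1 hρ hPc hα hα0 hαD hdP
  have s3 := flux_rhs hfm hb hp h.lim.gmeas hPc hα hdP
  rw [s3] at hDI
  linarith

end main

end H13CD
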