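import Pool.Agent.Helper13.CD.Util
import Pool.Agent.Helper84.CD.Expand

/-!
# Module N1: fourth order expansions (calculus)

Notation: `q = N/(N-1)`, `p = 1-1/N`, `η = (N-1)(3N-1)/6`,
`P ε t = 1 - (N-1) ε t + η ε² t²`, `Q ε t = 1 + ε² (t²-1)/6`.

* `ent_expansion`.  `M0 = ∫ P(f)^q = 1 + A2 ε² + A3 ε³ + A4 ε⁴ + O(ε⁵)` with
  `A2 = N(3N+2)/6`, `A3 = -N(2N+1)/6 m3`, `A4 = N(-3N²+15N+7)/72 m4` (binomial expansion of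
  `(1+y)^q` to order four, `y = -(N-1)εf+ηε²f²`, `∫f=0`, `∫f²=1`);
  `∫ Q(f)^p = 1 - (p(1-p)/72) ε⁴ (m4-1) + O(ε⁶)`; then
  `M0^p ∫Q^p = 1 + pA2 ε² + pA3 ε³ + (pA4 + p(p-1)/2 A2² - p(1-p)/72 (m4-1)) ε⁴ + O(ε⁵)`.
* `w_expansion`.  `u1 = M0^(-1/N) Q(τ)^(-1/N) = 1 - (3N+2)/6 ε² - (τ²-1)/(6N) ε² + O(ε³)`,
  `u0 = P(t)^(-1/(N-1)) = 1+εt+ε²t²/6+O(ε³)`, `w = (u1+2u0)/3`,
  `1/ρ0 = P(t)^(-q) = 1+Nεt+N(3N-2)/6 ε²t²+O(ε³)`, `V = ε-(3N-1)/3 ε² t`: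
  `V²/(ρ0 w) = ε²(1 - Nεt + ε²(-N(3N-2)/6 t² + τ²/(18N) + (3N+2)/18 - 1/(18N))) + O(ε⁵)`.
-/

open MeasureTheory Set Filter Topology
open scoped ENNReal NNReal

namespace H13CD

/-- `P ε t` -/
noncomputable def qP (N ε t : ℝ) : ℝ :=
  1 - (N - 1) * ε * t + (N - 1) * (3 * N - 1) / 6 * ε ^ 2 * t ^ 2

/-- `Q ε t` -/
noncomputable def qQ (ε t : ℝ) : ℝ := 1 + ε ^ 2 * (t ^ 2 - 1) / 6

lemma qP_eq84 (N ε t : ℝ) : qP N ε t = H84FC.qP N ε t := rfl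

lemma qQ_eq84 (ε t : ℝ) : qQ ε t = H84FC.qQ ε t := rfl

theorem qP_bounds {N B : ℝ} (hN : 1 < N) (hB : 0 < B) :
    ∃ ε0 > 0, ∀ ε ∈ Ioo (0 : ℝ) ε0, ∀ t ∈ Icc (-B) B,
      1 / 2 ≤ qP N ε t ∧ qP N ε t ≤ 2 ∧ 1 / 2 ≤ qQ ε t ∧ qQ ε t ≤ 2 := by
  obtain ⟨C1, hC1, a1, ha1, h1⟩ := H84FC.bigO_iff.1 (H84FC.qP_sub_one N
    (isCompact_Icc (a := -B) (b := B)) (f := fun t : ℝ => t) continuous_id)
  obtain ⟨C2, hC2, a2, ha2, h2⟩ := H84FC.bigO_iff.1 (H84FC.bigO_mono (H84FC.qQ_sub_one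
    (isCompact_Icc (a := -B) (b := B)) (f := fun t : ℝ => t) continuous_id)
    (show 1 ≤ 2 by norm_num))
  refine ⟨min (min a1 a2) (min (1 / (2 * C1)) (1 / (2 * C2))), by positivity,
    fun ε hε t ht => ?_⟩
  have hε0 := hε.1
  have hε1 : ε < a1 := hε.2.trans_le ((min_le_left _ _).trans (min_le_left _ _))
  have hε2 : ε < a2 := hε.2.trans_le ((min_le_left _ _).trans (min_le_right _ _))
  have hε3 : ε < 1 / (2 * C1) := hε.2.trans_le ((min_le_right _ _).trans (min_le_left _ _))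
  have hε4 : ε < 1 / (2 * C2) := hε.2.trans_le ((min_le_right _ _).trans (min_le_right _ _))
  have b1 := abs_le.1 (h1 ε ⟨hε0, hε1⟩ t ht)
  have b2 := abs_le.1 (h2 ε ⟨hε0, hε2⟩ t ht)
  have c1 : C1 * ε ^ 1 ≤ 1 / 2 := by
    rw [lt_div_iff₀ (by positivity)] at hε3
    nlinarith
  have c2 : C2 * ε ^ 1 ≤ 1 / 2 := by
    rw [lt_div_iff₀ (by positivity)] at hε4
    nlinarith
  have e1 : qP N ε t = 1 + (- (N - 1) * (ε * t) + (N - 1) * (3 * N - 1) / 6 * (ε * t) ^ 2) :=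
    H84FC.qP_eq N ε t
  have e2 : qQ ε t = 1 + ε ^ 2 * (t ^ 2 - 1) / 6 := rfl
  simp only at b1 b2
  rw [e1, e2]
  refine ⟨?_, ?_, ?_, ?_⟩ <;> linarith [b1.1, b1.2, b2.1, b2.2]

theorem ent_expansion {X : Type*} [MeasurableSpace X] {m : Measure X} [IsProbabilityMeasure m]
    {N B : ℝ} (hN : 1 < N) (hB : 0 < B) {f : X → ℝ} (hf : Measurable f) (hb : ∀ x, |f x| ≤ B)
    (h1 : ∫ x, f x ∂m = 0) (h2 : ∫ x, f x ^ 2 ∂m = 1) :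
    ∃ C > 0, ∃ ε0 > 0, ∀ ε ∈ Ioo (0 : ℝ) ε0,
      |∫ x, qP N ε (f x) ^ (N / (N - 1)) ∂m - (1 + N * (3 * N + 2) / 6 * ε ^ 2)| ≤ C * ε ^ 3 ∧
      |(∫ x, qP N ε (f x) ^ (N / (N - 1)) ∂m) ^ (1 - 1 / N) *
          ∫ x, qQ ε (f x) ^ (1 - 1 / N) ∂m -
        (1 + (N - 1) * (3 * N - 1) / 6 * ε ^ 2) -
        ((N - 1) / 2 * ε ^ 2 - (N - 1) * (2 * N + 1) / 6 * (∫ x, f x ^ 3 ∂m) * ε ^ 3 +
          (N - 1) / 72 * ((-3 * N ^ 2 + 15 * N + 7) * (∫ x, f x ^ 4 ∂m) - (3 * N + 2) ^ 2 -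
            ((∫ x, f x ^ 4 ∂m) - 1) / N ^ 2) * ε ^ 4)| ≤ C * ε ^ 5 := by
  have hM : (fun x : ℝ × Unit => ∫ y, H84FC.qP N x.1 (f y) ^ (N / (N - 1)) ∂m -
      (1 + N * (3 * N + 2) / 6 * x.1 ^ 2)) =O[H84FC.lf (univ : Set Unit)] (fun x => x.1 ^ 3) := by
    have h0 := H84FC.bigO_cont (α := Unit) isCompact_univ (k := 3) (R := fun x : ℝ × Unit =>
      - (N * (2 * N + 1) / 6 * (∫ y, f y ^ 3 ∂m)) +
        N * (-3 * N ^ 2 + 15 * N + 7) / 72 * (∫ y, f y ^ 4 ∂m) * x.1) (by fun_prop)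
    refine ((H84FC.bigO_mono (H84FC.M0_exp hN hf hb h1 h2) (show 3 ≤ 5 by norm_num)).add
      h0).congr_left ?_
    intro x
    ring
  obtain ⟨C1, hC1, a1, ha1, k1⟩ := H84FC.bigO_iff.1 hM
  obtain ⟨C2, hC2, a2, ha2, k2⟩ := H84FC.bigO_iff.1 (H84FC.ent_exp hN hf hb h1 h2)
  refine ⟨max C1 C2, by positivity, min a1 a2, by positivity, fun ε hε => ⟨?_, ?_⟩⟩
  · refine (k1 ε ⟨hε.1, hε.2.trans_le (min_le_left _ _)⟩ () (mem_univ _)).trans ?_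
    exact mul_le_mul_of_nonneg_right (le_max_left _ _) (pow_nonneg hε.1.le _)
  · refine (k2 ε ⟨hε.1, hε.2.trans_le (min_le_right _ _)⟩ () (mem_univ _)).trans ?_
    exact mul_le_mul_of_nonneg_right (le_max_right _ _) (pow_nonneg hε.1.le _)

theorem w_expansion {N B : ℝ} (hN : 1 < N) (hB : 0 < B) {C0 : ℝ} (hC0 : 0 ≤ C0) :
    ∃ C > 0, ∃ ε0 > 0, ∀ ε ∈ Ioo (0 : ℝ) ε0, ∀ t ∈ Icc (-B) B, ∀ τ ∈ Icc (-B) B, ∀ M0 : ℝ,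
      |M0 - (1 + N * (3 * N + 2) / 6 * ε ^ 2)| ≤ C0 * ε ^ 3 →
      (1 - C * ε ≤ ((M0 * qQ ε τ) ^ (-(1 / N)) + 2 * qP N ε t ^ (-(1 / (N - 1)))) / 3 ∧
        1 - C * ε ≤ (M0 * qQ ε τ) ^ (-(1 / N)) ∧ 1 - C * ε ≤ qP N ε t ^ (-(1 / (N - 1)))) ∧
      |(ε - (3 * N - 1) / 3 * ε ^ 2 * t) ^ 2 /
          (qP N ε t ^ (N / (N - 1)) *
            (((M0 * qQ ε τ) ^ (-(1 / N)) + 2 * qP N ε t ^ (-(1 / (N - 1)))) / 3)) -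
        ε ^ 2 * (1 - N * ε * t + ε ^ 2 * (-(N * (3 * N - 2) / 6) * t ^ 2 + τ ^ 2 / (18 * N) +
          (3 * N + 2) / 18 - 1 / (18 * N)))| ≤ C * ε ^ 5 := by
  have hS : IsCompact (Icc (-B) B ×ˢ (Icc (-B) B ×ˢ Icc (-C0) C0)) :=
    isCompact_Icc.prod (isCompact_Icc.prod isCompact_Icc)
  have c1 : Continuous (fun a : ℝ × ℝ × ℝ => a.1) := continuous_fst
  have c2 : Continuous (fun a : ℝ × ℝ × ℝ => a.2.1) := by fun_prop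
  have c3 : Continuous (fun a : ℝ × ℝ × ℝ => a.2.2) := by fun_prop
  have hu0 : (fun x : ℝ × (ℝ × ℝ × ℝ) => H84FC.qP N x.1 x.2.1 ^ (-(1 / (N - 1))) - 1)
      =O[H84FC.lf (Icc (-B) B ×ˢ (Icc (-B) B ×ˢ Icc (-C0) C0))] (fun x => x.1 ^ 1) := by
    have h0 := H84FC.bigO_cont hS (k := 1) (R := fun x : ℝ × (ℝ × ℝ × ℝ) =>
      x.2.1 + x.1 * x.2.1 ^ 2 / 6) (by fun_prop)
    refine ((H84FC.bigO_mono (H84FC.u0_exp hN hS c1) (show 1 ≤ 3 by norm_num)).add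
      h0).congr_left ?_
    intro x
    ring
  have hu1 : (fun x : ℝ × (ℝ × ℝ × ℝ) => ((1 + N * (3 * N + 2) / 6 * x.1 ^ 2 +
      x.2.2.2 * x.1 ^ 3) * H84FC.qQ x.1 x.2.2.1) ^ (-(1 / N)) - 1)
      =O[H84FC.lf (Icc (-B) B ×ˢ (Icc (-B) B ×ˢ Icc (-C0) C0))] (fun x => x.1 ^ 1) := by
    have h0 := H84FC.bigO_cont hS (k := 1) (R := fun x : ℝ × (ℝ × ℝ × ℝ) =>
      - (3 * N + 2) / 6 * x.1 - (x.2.2.1 ^ 2 - 1) / (6 * N) * x.1) (by fun_prop)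
    refine ((H84FC.bigO_mono (H84FC.u1_exp hN hS c2 c3) (show 1 ≤ 3 by norm_num)).add
      h0).congr_left ?_
    intro x
    ring
  have hw : (fun x : ℝ × (ℝ × ℝ × ℝ) => (((1 + N * (3 * N + 2) / 6 * x.1 ^ 2 +
      x.2.2.2 * x.1 ^ 3) * H84FC.qQ x.1 x.2.2.1) ^ (-(1 / N)) +
      2 * H84FC.qP N x.1 x.2.1 ^ (-(1 / (N - 1)))) / 3 - 1)
      =O[H84FC.lf (Icc (-B) B ×ˢ (Icc (-B) B ×ˢ Icc (-C0) C0))] (fun x => x.1 ^ 1) := by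
    refine ((hu1.const_mul_left (1 / 3)).add (hu0.const_mul_left (2 / 3))).congr_left ?_
    intro x
    ring
  have hV := H84FC.V_exp hN hS c1 c2 c3
  obtain ⟨C1, hC1, a1, ha1, k1⟩ := H84FC.bigO_iff.1 hw
  obtain ⟨C2, hC2, a2, ha2, k2⟩ := H84FC.bigO_iff.1 hu1
  obtain ⟨C3, hC3, a3, ha3, k3⟩ := H84FC.bigO_iff.1 hu0
  obtain ⟨C4, hC4, a4, ha4, k4⟩ := H84FC.bigO_iff.1 hV
  refine ⟨max (max C1 C2) (max C3 C4), by positivity, min (min a1 a2) (min a3 a4), by positivity,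
    fun ε hε t ht τ hτ M0 hM0 => ?_⟩
  have hε0 := hε.1
  have hε1 : ε < a1 := hε.2.trans_le ((min_le_left _ _).trans (min_le_left _ _))
  have hε2 : ε < a2 := hε.2.trans_le ((min_le_left _ _).trans (min_le_right _ _))
  have hε3 : ε < a3 := hε.2.trans_le ((min_le_right _ _).trans (min_le_left _ _))
  have hε4 : ε < a4 := hε.2.trans_le ((min_le_right _ _).trans (min_le_right _ _))
  have m1 : C1 ≤ max (max C1 C2) (max C3 C4) := (le_max_left _ _).trans (le_max_left _ _)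
  have m2 : C2 ≤ max (max C1 C2) (max C3 C4) := (le_max_right _ _).trans (le_max_left _ _)
  have m3 : C3 ≤ max (max C1 C2) (max C3 C4) := (le_max_left _ _).trans (le_max_right _ _)
  have m4 : C4 ≤ max (max C1 C2) (max C3 C4) := (le_max_right _ _).trans (le_max_right _ _)
  generalize max (max C1 C2) (max C3 C4) = C at *
  obtain ⟨θ, hθ⟩ : ∃ θ, θ = (M0 - (1 + N * (3 * N + 2) / 6 * ε ^ 2)) / ε ^ 3 := ⟨_, rfl⟩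
  have hε3p : 0 < ε ^ 3 := by positivity
  have hθm : θ ∈ Icc (-C0) C0 := by
    rw [mem_Icc, ← abs_le, hθ, abs_div, abs_of_pos hε3p, div_le_iff₀ hε3p]
    exact hM0
  have eM : M0 = 1 + N * (3 * N + 2) / 6 * ε ^ 2 + θ * ε ^ 3 := by
    rw [hθ]; field_simp; ring
  have hmem : ((t, τ, θ) : ℝ × ℝ × ℝ) ∈ Icc (-B) B ×ˢ (Icc (-B) B ×ˢ Icc (-C0) C0) :=
    ⟨ht, hτ, hθm⟩
  have b1 := abs_le.1 (k1 ε ⟨hε0, hε1⟩ _ hmem)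
  have b2 := abs_le.1 (k2 ε ⟨hε0, hε2⟩ _ hmem)
  have b3 := abs_le.1 (k3 ε ⟨hε0, hε3⟩ _ hmem)
  have b4 := k4 ε ⟨hε0, hε4⟩ _ hmem
  simp only [pow_one] at b1 b2 b3
  simp only at b4
  rw [eM, qP_eq84, qQ_eq84]
  have n1 : C1 * ε ≤ C * ε := mul_le_mul_of_nonneg_right m1 hε0.le
  have n2 : C2 * ε ≤ C * ε := mul_le_mul_of_nonneg_right m2 hε0.le
  have n3 : C3 * ε ≤ C * ε := mul_le_mul_of_nonneg_right m3 hε0.le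
  refine ⟨⟨by linarith [b1.1], by linarith [b2.1], by linarith [b3.1]⟩, ?_⟩
  refine b4.trans ?_
  exact mul_le_mul_of_nonneg_right m4 (pow_nonneg hε0.le _)

end H13CD
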