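import Pool.Agent.Helper13.CD.GenGeom

/-!
# Module Q4: absolute continuity; see the docstring of `GenTransfer.lean`
-/

open MeasureTheory Set Filter Topology
open scoped ENNReal NNReal

namespace H13CD

universe u

variable {X : Type*} [MetricSpace X] [CompleteSpace X] [TopologicalSpace.SeparableSpace X] [MeasurableSpace X]
  [BorelSpace X] {m : Measure X}

theorem ac_of_CD {K N : ℝ} (hK : 0 < K) (hN : 1 < N) [IsFiniteMeasure m] {ρ0 ρ1 : X → ℝ≥0∞}
    {C : ℝ≥0∞} (hC : C ≠ ⊤) (h0m : Measurable ρ0) (h1m : Measurable ρ1)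
    (h0 : ∀ x, ρ0 x ≤ C) (h1 : ∀ x, ρ1 x ≤ C) {P : Measure (X × X)} {μt : Measure X}
    [IsProbabilityMeasure μt] (hP : IsCoupling P (m.withDensity ρ0) (m.withDensity ρ1))
    (hi0 : ∫⁻ x, ρ0 x ∂m = 1) (hi1 : ∫⁻ x, ρ1 x ∂m = 1) {t : ℝ} (ht : t ∈ Ioo (0 : ℝ) 1)
    (h : ∀ N' ≥ N, ∫⁻ z, (tauKN K N' (1 - t) (dist z.1 z.2) * ρ0 z.1 ^ (-(1 / N')) +
            tauKN K N' t (dist z.1 z.2) * ρ1 z.2 ^ (-(1 / N'))) ∂P
          ≤ ∫⁻ x, μt.rnDeriv m x ^ (1 - 1 / N') ∂m) : μt ≪ m := by
  have hC0 : C ≠ 0 := by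
    rintro rfl
    have : ∫⁻ x, ρ0 x ∂m = 0 := by
      rw [lintegral_eq_zero_iff h0m]
      exact Eventually.of_forall fun x => le_antisymm (h0 x) bot_le
    rw [hi0] at this
    exact one_ne_zero this
  have hPu : P univ = 1 := by
    have h1 := hP.1
    have h2 : (P.map Prod.fst) univ = 1 := by
      rw [h1, withDensity_apply _ MeasurableSet.univ, Measure.restrict_univ, hi0]
    rwa [Measure.map_apply measurable_fst MeasurableSet.univ, preimage_univ] at h2
  set r : X → ℝ≥0∞ := μt.rnDeriv m with hr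
  have hrm : Measurable r := Measure.measurable_rnDeriv μt m
  have hr1 : ∫⁻ x, r x ∂m ≤ 1 := (Measure.lintegral_rnDeriv_le).trans_eq measure_univ
  have hrfin : ∀ᵐ x ∂m, r x < ⊤ := ae_lt_top hrm (hr1.trans_lt ENNReal.one_lt_top).ne
  -- the sequence of exponents
  set NN : ℕ → ℝ := fun n => N + n with hNN
  have hNNpos : ∀ n, 0 < NN n := fun n => by
    have : (0 : ℝ) ≤ n := Nat.cast_nonneg n
    simp only [hNN]
    linarith
  have hinv : Tendsto (fun n => 1 / NN n) atTop (𝓝 0) := by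
    have h1 : Tendsto NN atTop atTop := tendsto_atTop_add_const_left _ _ tendsto_natCast_atTop_atTop
    simp only [one_div]
    exact tendsto_inv_atTop_zero.comp h1
  have hinv1 : ∀ n, 1 / NN n < 1 := by
    intro n
    have : (0 : ℝ) ≤ n := Nat.cast_nonneg n
    rw [div_lt_one (hNNpos n)]
    simp only [hNN]
    linarith
  have hlow : ∀ n, C ^ (-(1 / NN n)) ≤ ∫⁻ x, r x ^ (1 - 1 / NN n) ∂m := by
    intro n
    have hn : N ≤ NN n := by
      have : (0 : ℝ) ≤ n := Nat.cast_nonneg n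
      simp only [hNN]
      linarith
    refine le_trans ?_ (h (NN n) hn)
    have hN1 : 1 < NN n := lt_of_lt_of_le hN hn
    have hpw : ∀ z : X × X, C ^ (-(1 / NN n)) ≤ tauKN K (NN n) (1 - t) (dist z.1 z.2) * ρ0 z.1 ^ (-(1 / NN n)) +
        tauKN K (NN n) t (dist z.1 z.2) * ρ1 z.2 ^ (-(1 / NN n)) := by
      intro z
      have e0 : C ^ (-(1 / NN n)) ≤ ρ0 z.1 ^ (-(1 / NN n)) := by
        rw [ENNReal.rpow_neg, ENNReal.rpow_neg]
        exact ENNReal.inv_le_inv.2 (ENNReal.rpow_le_rpow (h0 _) (one_div_pos.2 (hNNpos n)).le)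
      have e1 : C ^ (-(1 / NN n)) ≤ ρ1 z.2 ^ (-(1 / NN n)) := by
        rw [ENNReal.rpow_neg, ENNReal.rpow_neg]
        exact ENNReal.inv_le_inv.2 (ENNReal.rpow_le_rpow (h1 _) (one_div_pos.2 (hNNpos n)).le)
      have t1 := tau_ge_t (K := K) (N := NN n) (t := t) (θ := dist z.1 z.2) hK hN1 ht dist_nonneg
      have t0 := tau_ge_t (K := K) (N := NN n) (t := 1 - t) (θ := dist z.1 z.2) hK hN1
        ⟨by linarith [ht.2], by linarith [ht.1]⟩ dist_nonneg
      calc C ^ (-(1 / NN n)) = (ENNReal.ofReal (1 - t) + ENNReal.ofReal t) * C ^ (-(1 / NN n)) := by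
            rw [← ENNReal.ofReal_add (by linarith [ht.2]) ht.1.le]
            simp
        _ = ENNReal.ofReal (1 - t) * C ^ (-(1 / NN n)) + ENNReal.ofReal t * C ^ (-(1 / NN n)) := by
            rw [add_mul]
        _ ≤ _ := add_le_add (mul_le_mul' t0 e0) (mul_le_mul' t1 e1)
    calc C ^ (-(1 / NN n)) = ∫⁻ _z, C ^ (-(1 / NN n)) ∂P := by
          rw [lintegral_const, hPu, mul_one]
      _ ≤ _ := lintegral_mono hpw
  have hlim : Tendsto (fun n => ∫⁻ x, r x ^ (1 - 1 / NN n) ∂m) atTop (𝓝 (∫⁻ x, r x ∂m)) := by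
    refine tendsto_lintegral_of_dominated_convergence (fun x => 1 + r x) ?_ ?_ ?_ ?_
    · intro n
      exact hrm.pow_const _
    · intro n
      refine Eventually.of_forall fun x => ?_
      have hpos : 0 < 1 - 1 / NN n := by linarith [hinv1 n]
      have hle1 : 1 - 1 / NN n ≤ 1 := by
        have := one_div_pos.2 (hNNpos n)
        linarith
      rcases le_total (r x) 1 with hx | hx
      · calc r x ^ (1 - 1 / NN n) ≤ 1 := ENNReal.rpow_le_one hx hpos.le
          _ ≤ 1 + r x := le_self_add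
      · calc r x ^ (1 - 1 / NN n) ≤ r x ^ (1 : ℝ) := ENNReal.rpow_le_rpow_of_exponent_le hx hle1
          _ = r x := ENNReal.rpow_one _
          _ ≤ 1 + r x := le_add_self
    · rw [lintegral_add_left measurable_const, lintegral_const, one_mul]
      exact ENNReal.add_ne_top.2 ⟨measure_ne_top m univ, (hr1.trans_lt ENNReal.one_lt_top).ne⟩
    · filter_upwards [hrfin] with x hx
      have h1 : Tendsto (fun n => 1 - 1 / NN n) atTop (𝓝 1) := by
        simpa using tendsto_const_nhds.sub hinv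
      have h2 : Tendsto (fun n => r x ^ (1 - 1 / NN n)) atTop (𝓝 (r x ^ (1 : ℝ))) := by
        rcases eq_or_ne (r x) 0 with h0' | h0'
        · rw [h0']
          have : ∀ n, (0 : ℝ≥0∞) ^ (1 - 1 / NN n) = (0 : ℝ≥0∞) ^ (1 : ℝ) := by
            intro n
            rw [ENNReal.zero_rpow_of_pos (by linarith [hinv1 n]), ENNReal.zero_rpow_of_pos one_pos]
          simp only [this]
          exact tendsto_const_nhds
        · have hxt := hx.ne
          lift r x to ℝ≥0 using hxt with y hy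
          have hy0 : y ≠ 0 := by
            intro h3
            apply h0'
            rw [h3]
            rfl
          have h4 : ∀ s : ℝ, (y : ℝ≥0∞) ^ s = ((y ^ s : ℝ≥0) : ℝ≥0∞) := fun s =>
            (ENNReal.coe_rpow_of_ne_zero hy0 s).symm
          simp only [h4]
          rw [ENNReal.tendsto_coe]
          exact Filter.Tendsto.nnrpow tendsto_const_nhds h1 (Or.inl hy0)
      rwa [ENNReal.rpow_one] at h2
  have hlowlim : Tendsto (fun n => C ^ (-(1 / NN n))) atTop (𝓝 1) := by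
    lift C to ℝ≥0 using hC
    have hy0 : C ≠ 0 := fun h3 => hC0 (by rw [h3]; rfl)
    have h4 : ∀ s : ℝ, (C : ℝ≥0∞) ^ s = ((C ^ s : ℝ≥0) : ℝ≥0∞) := fun s =>
      (ENNReal.coe_rpow_of_ne_zero hy0 s).symm
    simp only [h4]
    rw [← ENNReal.coe_one, ENNReal.tendsto_coe]
    have h5 : Tendsto (fun n => -(1 / NN n)) atTop (𝓝 0) := by simpa using hinv.neg
    have h6 := Filter.Tendsto.nnrpow (tendsto_const_nhds (x := C)) h5 (Or.inl hy0)
    rwa [NNReal.rpow_zero] at h6
  have hge : 1 ≤ ∫⁻ x, r x ∂m := le_of_tendsto_of_tendsto' hlowlim hlim hlow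
  have hsum := congrArg (fun ν : Measure X => ν univ) (μt.haveLebesgueDecomposition_add m)
  simp only [Measure.add_apply, measure_univ] at hsum
  rw [withDensity_apply _ MeasurableSet.univ, Measure.restrict_univ] at hsum
  have hsing : μt.singularPart m univ = 0 := by
    have h1 : (∫⁻ x, r x ∂m) = 1 := le_antisymm hr1 hge
    rw [← hr, h1] at hsum
    have h2 : (0 : ℝ≥0∞) + 1 = μt.singularPart m univ + 1 := by rw [zero_add]; exact hsum
    exact ((ENNReal.add_left_inj ENNReal.one_ne_top).1 h2).symm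
  have hs0 : μt.singularPart m = 0 := Measure.measure_univ_eq_zero.1 hsing
  have hdec := μt.haveLebesgueDecomposition_add m
  rw [hs0, zero_add] at hdec
  rw [hdec]
  exact withDensity_absolutelyContinuous _ _

end H13CD
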