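import Pool.Agent.Helper13.CD.Statement
import Pool.Agent.Helper13.CD.Glue

/-!
# Module Q1-Q3: the support of a `CD(K,N)` space, `K > 0`, is compact with diameter `≤ π√((N-1)/K)`

* `geod_local`: localisation of `μ_t` without existence of optimal plans.  Let `P0, P1` be couplings
  of `(μ0,μt)`, `(μt,μ1)` of cost `≤ t²W+ε'`, `≤ (1-t)²W+ε'`; glue (`glue`, `X` is standard Borel);
  `A = d(x0,xt)`, `B = d(xt,x1)`, `d = d(x0,x1)`; `∫(A²/t+B²/(1-t)-d²)dσ ≤ ε'' → 0` (as
  `∫d² ≥ W`), and the integrand is `[(1-t)A-tB]²/(t(1-t)) + ((A+B)²-d²) ≥ 0`.  Since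
  `A - td = t(A+B-d)+[(1-t)A-tB]`, `A > td+η` forces the integrand `≥ c_η > 0`
  (`(A+B)²-d² ≥ (A+B-d)²`).  So `σ{A > td+η} ≤ ε''/c_η`, and `d ≤ ε+R` a.e.; let `ε'' → 0`.
* `tau_ge_t`: `τ^{(t)}(θ) ≥ t`.
* `dist_le`: if `x, y ∈ supp m` have `d(x,y) > π√((N-1)/K)`, take `ρ0, ρ1` normalised indicators of
  small balls; `τ = ∞` a.e., so `∫ (dμt/dm)^(1-1/N) dm = ∞`; but `μt` lives in a bounded set (by
  `geod_local`) of finite `m`-measure, so the integral is `≤ m(bounded)^(1/N)` (Hölder).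
* `volume`: `x ∈ supp m`, `Rm = π√((N-1)/K)`, `supp m ⊆ closedBall x Rm`, `m(X) < ∞`.  For
  `s ∈ (0,1)`: `ρ0` = normalised indicator of `closedBall x ε`, `ρ1 = 1/m(X)`; at time `s`:
  `s (m X)^(1/N) ≤ ∫ (dμs/dm)^(1-1/N) dm ≤ m(closedBall x (ε+s(Rm+ε)+ε))^(1/N)`; `ε → 0`.
* `isCompact_support`: closed, complete, totally bounded (an `r`-separated subset of `supp m` has at
  most `m(X)/inf m(ball r/2)` elements, the infimum is positive by `volume`).
-/

open MeasureTheory Set Filter Topology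
open scoped ENNReal NNReal

namespace H13CD

variable {X : Type*} [MetricSpace X] [CompleteSpace X] [TopologicalSpace.SeparableSpace X] [MeasurableSpace X]
  [BorelSpace X]

theorem gg_alg {A B d t : ℝ} (ht : t ∈ Ioo (0 : ℝ) 1) (hA : 0 ≤ A) (hB : 0 ≤ B) (hd : 0 ≤ d)
    (h : d ≤ A + B) : (A - t * d) ^ 2 ≤ t * (A ^ 2 / t + B ^ 2 / (1 - t) - d ^ 2) := by
  obtain ⟨h0, h1⟩ := ht
  have h1' : 0 < 1 - t := by linarith
  have e1 : t * (A ^ 2 / t + B ^ 2 / (1 - t) - d ^ 2) =
      A ^ 2 + t * (B ^ 2 / (1 - t)) - t * d ^ 2 := by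
    field_simp
  rw [e1]
  have key : (1 + t) * d ^ 2 - 2 * A * d ≤ B ^ 2 / (1 - t) := by
    rw [le_div_iff₀ h1']
    rcases le_total d A with hc | hc
    · have : (1 + t) * d ^ 2 - 2 * A * d ≤ 0 := by nlinarith
      have : ((1 + t) * d ^ 2 - 2 * A * d) * (1 - t) ≤ 0 := mul_nonpos_of_nonpos_of_nonneg this h1'.le
      nlinarith [sq_nonneg B]
    · have hB2 : (d - A) ^ 2 ≤ B ^ 2 := by
        apply pow_le_pow_left₀ (by linarith) (by linarith)
      nlinarith [sq_nonneg (A - t * d)]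
  nlinarith [mul_le_mul_of_nonneg_left key h0.le]

theorem gg_exists {μ ν : Measure X} {W : ℝ≥0∞} (h : W2sq μ ν = W) (hW : W ≠ ⊤) {e : ℝ≥0∞}
    (he : e ≠ 0) : ∃ P : Measure (X × X), IsCoupling P μ ν ∧ tcost P ≤ W + e := by
  have h1 : W2sq μ ν < W + e := by
    rw [h]; exact ENNReal.lt_add_right hW he
  unfold W2sq at h1
  obtain ⟨P, hP⟩ := iInf_lt_iff.1 h1
  obtain ⟨hc, hP⟩ := iInf_lt_iff.1 hP
  exact ⟨P, hc, hP.le⟩

theorem gg_prob {P : Measure (X × X)} {μ ν : Measure X} [IsProbabilityMeasure μ]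
    (h : IsCoupling P μ ν) : IsProbabilityMeasure P := by
  constructor
  have h1 : (P.map Prod.fst) univ = 1 := by rw [h.1]; simp
  rwa [Measure.map_apply measurable_fst MeasurableSet.univ, preimage_univ] at h1

theorem W2sq_lt_top {μ0 μ1 : Measure X} [IsProbabilityMeasure μ0] [IsProbabilityMeasure μ1] {x : X}
    {ε R : ℝ} (hs0 : μ0 (Metric.closedBall x ε)ᶜ = 0) (hs1 : μ1 (Metric.closedBall x R)ᶜ = 0) :
    W2sq μ0 μ1 < ⊤ := by
  haveI : SecondCountableTopology X := UniformSpace.secondCountable_of_separable X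
  have hc : IsCoupling (μ0.prod μ1) μ0 μ1 := by
    refine ⟨?_, ?_⟩
    · rw [Measure.map_fst_prod]; simp
    · rw [Measure.map_snd_prod]; simp
  have h1 : W2sq μ0 μ1 ≤ tcost (μ0.prod μ1) :=
    iInf₂_le (f := fun (P : Measure (X × X)) (_ : IsCoupling P μ0 μ1) => tcost P) (μ0.prod μ1) hc
  refine h1.trans_lt ?_
  have h2 : tcost (μ0.prod μ1) ≤ ∫⁻ z, ENNReal.ofReal (ε + R) ^ 2 ∂(μ0.prod μ1) := by
    unfold tcost
    apply lintegral_mono_ae
    have a0 : ∀ᵐ z ∂(μ0.prod μ1), z.1 ∈ Metric.closedBall x ε := by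
      have : ∀ᵐ y ∂((μ0.prod μ1).map Prod.fst), y ∈ Metric.closedBall x ε := by
        rw [hc.1]; exact hs0
      exact ae_of_ae_map measurable_fst.aemeasurable this
    have a1 : ∀ᵐ z ∂(μ0.prod μ1), z.2 ∈ Metric.closedBall x R := by
      have : ∀ᵐ y ∂((μ0.prod μ1).map Prod.snd), y ∈ Metric.closedBall x R := by
        rw [hc.2]; exact hs1
      exact ae_of_ae_map measurable_snd.aemeasurable this
    filter_upwards [a0, a1] with z h0 h1
    apply pow_le_pow_left₀ (by positivity)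
    rw [edist_dist]
    apply ENNReal.ofReal_le_ofReal
    have := dist_triangle z.1 x z.2
    rw [dist_comm x z.2] at this
    exact this.trans (add_le_add h0 h1)
  refine h2.trans_lt ?_
  rw [lintegral_const]
  simp [ENNReal.pow_lt_top]


theorem gg_step {μ0 μt μ1 : Measure X} [IsProbabilityMeasure μ0] [IsProbabilityMeasure μt]
    [IsProbabilityMeasure μ1] {t : ℝ} (ht : t ∈ Ioo (0 : ℝ) 1)
    (h0 : W2sq μ0 μt = ENNReal.ofReal (t ^ 2) * W2sq μ0 μ1)
    (h1 : W2sq μt μ1 = ENNReal.ofReal ((1 - t) ^ 2) * W2sq μ0 μ1) {x : X} {ε R : ℝ}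
    (hε : 0 ≤ ε) (hR : 0 ≤ R)
    (hs0 : μ0 (Metric.closedBall x ε)ᶜ = 0) (hs1 : μ1 (Metric.closedBall x R)ᶜ = 0)
    {η : ℝ} (hη : 0 < η) {e : ℝ≥0∞} (he : e ≠ 0) :
    ENNReal.ofReal (η ^ 2 / t) * μt (Metric.closedBall x (ε + t * (R + ε) + η))ᶜ ≤
      ENNReal.ofReal (1 / t) * e + ENNReal.ofReal (1 / (1 - t)) * e := by
  haveI : SecondCountableTopology X := UniformSpace.secondCountable_of_separable X
  haveI : PolishSpace X := inferInstance
  obtain ⟨ht0, ht1⟩ := ht
  have ht1' : 0 < 1 - t := by linarith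
  set W := W2sq μ0 μ1 with hW
  have hWt : W < ⊤ := W2sq_lt_top hs0 hs1
  obtain ⟨P0, hP0, hc0⟩ := gg_exists h0 (ENNReal.mul_ne_top ENNReal.ofReal_ne_top hWt.ne) he
  obtain ⟨P1, hP1, hc1⟩ := gg_exists h1 (ENNReal.mul_ne_top ENNReal.ofReal_ne_top hWt.ne) he
  haveI := gg_prob hP0
  haveI := gg_prob hP1
  obtain ⟨σ, hσ0, hσ1⟩ := glue P0 P1 (by rw [hP0.2, hP1.1])
  have m0 : Measurable (fun z : X × X × X => (z.1, z.2.1)) := by fun_prop
  have m1 : Measurable (fun z : X × X × X => z.2) := by fun_prop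
  have m2 : Measurable (fun z : X × X × X => (z.1, z.2.2)) := by fun_prop
  -- costs
  have c0 : ∫⁻ z, edist z.1 z.2.1 ^ 2 ∂σ = tcost P0 := by
    unfold tcost
    rw [← hσ0, lintegral_map (by fun_prop) m0]
  have c1 : ∫⁻ z, edist z.2.1 z.2.2 ^ 2 ∂σ = tcost P1 := by
    unfold tcost
    rw [← hσ1, lintegral_map (by fun_prop) m1]
  have e0 : σ.map (fun z => z.1) = μ0 := by
    rw [← hP0.1, ← hσ0, Measure.map_map measurable_fst m0]; rfl
  have et : σ.map (fun z => z.2.1) = μt := by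
    rw [← hP1.1, ← hσ1, Measure.map_map measurable_fst m1]; rfl
  have e1 : σ.map (fun z => z.2.2) = μ1 := by
    rw [← hP1.2, ← hσ1, Measure.map_map measurable_snd m1]; rfl
  have hcp : IsCoupling (σ.map (fun z => (z.1, z.2.2))) μ0 μ1 := by
    refine ⟨?_, ?_⟩
    · rw [Measure.map_map measurable_fst m2, ← e0]; rfl
    · rw [Measure.map_map measurable_snd m2, ← e1]; rfl
  have cW : W ≤ ∫⁻ z, edist z.1 z.2.2 ^ 2 ∂σ := by
    have : W ≤ tcost (σ.map (fun z => (z.1, z.2.2))) :=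
      iInf₂_le (f := fun (P : Measure (X × X)) (_ : IsCoupling P μ0 μ1) => tcost P) _ hcp
    refine this.trans_eq ?_
    unfold tcost
    rw [lintegral_map (by fun_prop) m2]
  -- the bad set
  set S : Set (X × X × X) := {z | t * dist z.1 z.2.2 + η ≤ dist z.1 z.2.1} with hS
  have hSm : MeasurableSet S := measurableSet_le (by fun_prop) (by fun_prop)
  have point : ∀ z : X × X × X, edist z.1 z.2.2 ^ 2 + S.indicator (fun _ => ENNReal.ofReal (η ^ 2 / t)) z
      ≤ ENNReal.ofReal (1 / t) * edist z.1 z.2.1 ^ 2 +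
        ENNReal.ofReal (1 / (1 - t)) * edist z.2.1 z.2.2 ^ 2 := by
    intro z
    have hA : 0 ≤ dist z.1 z.2.1 := dist_nonneg
    have hB : 0 ≤ dist z.2.1 z.2.2 := dist_nonneg
    have hd : 0 ≤ dist z.1 z.2.2 := dist_nonneg
    have al := gg_alg ⟨ht0, ht1⟩ hA hB hd (dist_triangle _ _ _)
    have al2 : (dist z.1 z.2.1 - t * dist z.1 z.2.2) ^ 2 / t ≤
        dist z.1 z.2.1 ^ 2 / t + dist z.2.1 z.2.2 ^ 2 / (1 - t) - dist z.1 z.2.2 ^ 2 := by
      rw [div_le_iff₀ ht0]; linarith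
    rw [edist_dist, edist_dist, edist_dist, ← ENNReal.ofReal_pow hd, ← ENNReal.ofReal_pow hA,
      ← ENNReal.ofReal_pow hB, ← ENNReal.ofReal_mul (by positivity),
      ← ENNReal.ofReal_mul (by positivity), ← ENNReal.ofReal_add (by positivity) (by positivity)]
    by_cases hz : z ∈ S
    · rw [indicator_of_mem hz, ← ENNReal.ofReal_add (by positivity) (by positivity)]
      apply ENNReal.ofReal_le_ofReal
      have : η ^ 2 / t ≤ (dist z.1 z.2.1 - t * dist z.1 z.2.2) ^ 2 / t := by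
        apply div_le_div_of_nonneg_right _ ht0.le
        apply pow_le_pow_left₀ hη.le
        have := hz
        simp only [hS, mem_setOf_eq] at this
        linarith
      have q1 : 1 / t * dist z.1 z.2.1 ^ 2 = dist z.1 z.2.1 ^ 2 / t := by ring
      have q2 : 1 / (1 - t) * dist z.2.1 z.2.2 ^ 2 = dist z.2.1 z.2.2 ^ 2 / (1 - t) := by ring
      rw [q1, q2]; linarith
    · rw [indicator_of_notMem hz, add_zero]
      apply ENNReal.ofReal_le_ofReal
      have : 0 ≤ (dist z.1 z.2.1 - t * dist z.1 z.2.2) ^ 2 / t := by positivity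
      have q1 : 1 / t * dist z.1 z.2.1 ^ 2 = dist z.1 z.2.1 ^ 2 / t := by ring
      have q2 : 1 / (1 - t) * dist z.2.1 z.2.2 ^ 2 = dist z.2.1 z.2.2 ^ 2 / (1 - t) := by ring
      rw [q1, q2]; linarith
  have big := lintegral_mono (μ := σ) point
  rw [lintegral_add_left (by fun_prop), lintegral_add_left (by fun_prop),
    lintegral_const_mul _ (by fun_prop), lintegral_const_mul _ (by fun_prop),
    lintegral_indicator_const hSm, c0, c1] at big
  have r1 : ENNReal.ofReal (1 / t) * tcost P0 + ENNReal.ofReal (1 / (1 - t)) * tcost P1 ≤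
      W + (ENNReal.ofReal (1 / t) * e + ENNReal.ofReal (1 / (1 - t)) * e) := by
    calc _ ≤ ENNReal.ofReal (1 / t) * (ENNReal.ofReal (t ^ 2) * W + e) +
        ENNReal.ofReal (1 / (1 - t)) * (ENNReal.ofReal ((1 - t) ^ 2) * W + e) := by gcongr
      _ = (ENNReal.ofReal (1 / t) * ENNReal.ofReal (t ^ 2) +
          ENNReal.ofReal (1 / (1 - t)) * ENNReal.ofReal ((1 - t) ^ 2)) * W +
          (ENNReal.ofReal (1 / t) * e + ENNReal.ofReal (1 / (1 - t)) * e) := by ring
      _ = _ := by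
        rw [← ENNReal.ofReal_mul (by positivity), ← ENNReal.ofReal_mul (by positivity),
          ← ENNReal.ofReal_add (by positivity) (by positivity)]
        have : 1 / t * t ^ 2 + 1 / (1 - t) * (1 - t) ^ 2 = 1 := by
          have := ht1'.ne'
          field_simp
          ring
        rw [this, ENNReal.ofReal_one, one_mul]
  have r2 : W + ENNReal.ofReal (η ^ 2 / t) * σ S ≤
      W + (ENNReal.ofReal (1 / t) * e + ENNReal.ofReal (1 / (1 - t)) * e) :=
    (add_le_add_left cW _).trans (big.trans r1)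
  have r3 := (ENNReal.add_le_add_iff_left hWt.ne).1 r2
  refine le_trans ?_ r3
  gcongr
  -- the set
  have mb : MeasurableSet (Metric.closedBall x (ε + t * (R + ε) + η))ᶜ :=
    Metric.isClosed_closedBall.measurableSet.compl
  rw [← et, Measure.map_apply (by fun_prop) mb]
  apply measure_mono_ae
  have a0 : ∀ᵐ z ∂σ, z.1 ∈ Metric.closedBall x ε := by
    have : ∀ᵐ y ∂(σ.map (fun z => z.1)), y ∈ Metric.closedBall x ε := by
      rw [e0]; exact hs0
    exact ae_of_ae_map (by fun_prop) this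
  have a1 : ∀ᵐ z ∂σ, z.2.2 ∈ Metric.closedBall x R := by
    have : ∀ᵐ y ∂(σ.map (fun z => z.2.2)), y ∈ Metric.closedBall x R := by
      rw [e1]; exact hs1
    exact ae_of_ae_map (by fun_prop) this
  filter_upwards [a0, a1] with z hz0 hz1 hz
  show z ∈ S
  simp only [hS, mem_setOf_eq]
  have hz' : ¬ dist z.2.1 x ≤ ε + t * (R + ε) + η := hz
  simp only [Metric.mem_closedBall] at hz0 hz1
  have t1 := dist_triangle z.2.1 z.1 x
  have t2 := dist_triangle z.1 x z.2.2
  rw [dist_comm z.2.1 z.1] at t1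
  rw [dist_comm x z.2.2] at t2
  have t3 : t * dist z.1 z.2.2 ≤ t * (R + ε) := by
    apply mul_le_mul_of_nonneg_left _ ht0.le
    linarith
  linarith [not_le.1 hz']

theorem geod_local {μ0 μt μ1 : Measure X} [IsProbabilityMeasure μ0] [IsProbabilityMeasure μt]
    [IsProbabilityMeasure μ1] {t : ℝ} (ht : t ∈ Ioo (0 : ℝ) 1)
    (h0 : W2sq μ0 μt = ENNReal.ofReal (t ^ 2) * W2sq μ0 μ1)
    (h1 : W2sq μt μ1 = ENNReal.ofReal ((1 - t) ^ 2) * W2sq μ0 μ1) {x : X} {ε R : ℝ}
    (hε : 0 ≤ ε) (hR : 0 ≤ R)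
    (hs0 : μ0 (Metric.closedBall x ε)ᶜ = 0) (hs1 : μ1 (Metric.closedBall x R)ᶜ = 0)
    {η : ℝ} (hη : 0 < η) : μt (Metric.closedBall x (ε + t * (R + ε) + η))ᶜ = 0 := by
  by_contra hne
  have key := fun (e : ℝ≥0∞) (he : e ≠ 0) => gg_step ht h0 h1 hε hR hs0 hs1 hη he
  set c := ENNReal.ofReal (η ^ 2 / t) * μt (Metric.closedBall x (ε + t * (R + ε) + η))ᶜ with hc
  have hc0 : c ≠ 0 := by
    apply mul_ne_zero _ hne
    simp only [ne_eq, ENNReal.ofReal_eq_zero, not_le]
    have := ht.1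
    positivity
  set L := ENNReal.ofReal (1 / t) + ENNReal.ofReal (1 / (1 - t)) with hL
  have hLt : L ≠ ⊤ := by simp [hL]
  have hLp : L ≠ 0 := by
    have := ht.1
    simp only [hL, ne_eq, add_eq_zero, ENNReal.ofReal_eq_zero, not_and_or, not_le]
    left; positivity
  have hcT : c ≠ ⊤ := ENNReal.mul_ne_top ENNReal.ofReal_ne_top (measure_ne_top _ _)
  have h2 := key (c / (2 * L)) (by
    apply (ENNReal.div_pos hc0 (ENNReal.mul_ne_top (by simp) hLt)).ne')
  rw [← add_mul, ← hL] at h2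
  have h3 : L * (c / (2 * L)) = c / 2 := by
    rw [div_eq_mul_inv, ENNReal.mul_inv (Or.inl (by simp)) (Or.inl (by simp)), div_eq_mul_inv]
    calc L * (c * (2⁻¹ * L⁻¹)) = c * 2⁻¹ * (L * L⁻¹) := by ring
      _ = c * 2⁻¹ := by rw [ENNReal.mul_inv_cancel hLp hLt, mul_one]
  rw [h3] at h2
  exact absurd (ENNReal.half_lt_self hc0 hcT) (not_lt.2 h2)

theorem tau_ge_t {K N t θ : ℝ} (hK : 0 < K) (hN : 1 < N) (ht : t ∈ Ioo (0 : ℝ) 1) (hθ : 0 ≤ θ) :
    ENNReal.ofReal t ≤ tauKN K N t θ := by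
  obtain ⟨ht0, ht1⟩ := ht
  unfold tauKN
  split_ifs with h0 h1
  · exact le_rfl
  · apply ENNReal.ofReal_le_ofReal
    have hN1 : 0 < N - 1 := by linarith
    have hθ' : 0 < θ := lt_of_le_of_ne hθ (Ne.symm h0)
    set a := θ * √(K / (N - 1)) with ha
    have hs : 0 < √(K / (N - 1)) := Real.sqrt_pos.2 (by positivity)
    have ha0 : 0 < a := by positivity
    have hinv : √((N - 1) / K) * √(K / (N - 1)) = 1 := by
      rw [← Real.sqrt_mul (by positivity)]
      have : (N - 1) / K * (K / (N - 1)) = 1 := by field_simp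
      rw [this, Real.sqrt_one]
    have haπ : a < Real.pi := by
      calc a < Real.pi * √((N - 1) / K) * √(K / (N - 1)) := by
            rw [ha]; exact mul_lt_mul_of_pos_right h1 hs
        _ = Real.pi := by rw [mul_assoc, hinv, mul_one]
    have hsin : 0 < Real.sin a := Real.sin_pos_of_pos_of_lt_pi ha0 haπ
    have hconc := strictConcaveOn_sin_Icc.concaveOn.2 (left_mem_Icc.2 Real.pi_pos.le)
      (⟨ha0.le, haπ.le⟩ : a ∈ Icc (0 : ℝ) Real.pi) (sub_nonneg.2 ht1.le) ht0.le (by ring)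
    simp only [Real.sin_zero, smul_eq_mul, mul_zero, zero_add] at hconc
    have e1 : t * θ * √(K / (N - 1)) = t * a := by rw [ha]; ring
    rw [e1]
    have h2 : t ≤ Real.sin (t * a) / Real.sin a := by
      rw [le_div_iff₀ hsin]; exact hconc
    have hp : 0 ≤ 1 - 1 / N := by
      have : 1 / N ≤ 1 := by rw [div_le_one (by linarith)]; exact hN.le
      linarith
    calc t = t ^ (1 / N) * t ^ (1 - 1 / N) := by
          rw [← Real.rpow_add ht0]; simp
      _ ≤ t ^ (1 / N) * (Real.sin (t * a) / Real.sin a) ^ (1 - 1 / N) := by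
          apply mul_le_mul_of_nonneg_left _ (Real.rpow_nonneg ht0.le _)
          exact Real.rpow_le_rpow ht0.le h2 hp
  · exact le_top

theorem gg_holder {m : Measure X} {N : ℝ} (hN : 1 < N) {ν : Measure X} [IsProbabilityMeasure ν]
    {B : Set X} (hB : MeasurableSet B) (hν : ν Bᶜ = 0) :
    ∫⁻ x, ν.rnDeriv m x ^ (1 - 1 / N) ∂m ≤ m B ^ (1 / N) := by
  have hN0 : 0 < N := by linarith
  have hp : 0 < 1 - 1 / N := by
    have : 1 / N < 1 := by rw [div_lt_one hN0]; exact hN
    linarith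
  have h1 : ∫⁻ x in Bᶜ, ν.rnDeriv m x ∂m = 0 :=
    le_antisymm ((Measure.setLIntegral_rnDeriv_le _).trans_eq hν) bot_le
  have h2 : ∀ᵐ x ∂(m.restrict Bᶜ), ν.rnDeriv m x = 0 := by
    have := (lintegral_eq_zero_iff (Measure.measurable_rnDeriv ν m)).1 h1
    exact this
  have h3 : ∫⁻ x in Bᶜ, ν.rnDeriv m x ^ (1 - 1 / N) ∂m = 0 := by
    rw [lintegral_eq_zero_iff ((Measure.measurable_rnDeriv ν m).pow_const _)]
    filter_upwards [h2] with x hx
    rw [hx]; exact ENNReal.zero_rpow_of_pos hp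
  rw [← lintegral_add_compl _ hB, h3, add_zero]
  have hc : (1 / (1 - 1 / N)).HolderConjugate N := by
    rw [Real.holderConjugate_iff]
    constructor
    · rw [lt_div_iff₀ hp]
      have : 0 < 1 / N := by positivity
      linarith
    · simp only [one_div, inv_inv]
      ring
  have h4 := ENNReal.lintegral_mul_le_Lp_mul_Lq (m.restrict B) hc
    (f := fun x => ν.rnDeriv m x ^ (1 - 1 / N)) (g := fun _ => 1)
    ((Measure.measurable_rnDeriv ν m).pow_const _).aemeasurable aemeasurable_const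
  simp only [Pi.mul_apply, mul_one, ENNReal.one_rpow, lintegral_const, Measure.restrict_apply
    MeasurableSet.univ, univ_inter, one_mul] at h4
  refine h4.trans ?_
  have h5 : ∫⁻ x in B, (ν.rnDeriv m x ^ (1 - 1 / N)) ^ (1 / (1 - 1 / N)) ∂m ≤ 1 := by
    calc _ = ∫⁻ x in B, ν.rnDeriv m x ∂m := by
          congr 1; ext x
          rw [← ENNReal.rpow_mul, mul_one_div_cancel hp.ne', ENNReal.rpow_one]
      _ ≤ ν B := Measure.setLIntegral_rnDeriv_le _
      _ ≤ 1 := prob_le_one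
  calc _ ≤ (1 : ℝ≥0∞) ^ (1 / (1 / (1 - 1 / N))) * m B ^ (1 / N) := by gcongr
    _ = m B ^ (1 / N) := by rw [ENNReal.one_rpow, one_mul]

theorem cd_core {m : Measure X} {K N : ℝ} (hN : 1 < N) (hCD : CD K N m) {U0 U1 : Set X}
    (hU0 : MeasurableSet U0) (hU1 : MeasurableSet U1) (h0 : m U0 ≠ 0) (h0' : m U0 ≠ ⊤)
    (h1 : m U1 ≠ 0) (h1' : m U1 ≠ ⊤) {x : X} {ε R : ℝ} (hε : 0 ≤ ε) (hR : 0 ≤ R)
    (hs0 : U0 ⊆ Metric.closedBall x ε) (hs1 : U1 ⊆ Metric.closedBall x R) {t : ℝ}
    (ht : t ∈ Ioo (0 : ℝ) 1) {η : ℝ} (hη : 0 < η) :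
    ∃ P : Measure (X × X), IsProbabilityMeasure P ∧ (∀ᵐ z ∂P, z.1 ∈ U0 ∧ z.2 ∈ U1) ∧
      ∫⁻ z, (tauKN K N (1 - t) (dist z.1 z.2) * m U0 ^ (1 / N) +
        tauKN K N t (dist z.1 z.2) * m U1 ^ (1 / N)) ∂P ≤
        m (Metric.closedBall x (ε + t * (R + ε) + η)) ^ (1 / N) := by
  set ρ0 : X → ℝ≥0∞ := U0.indicator (fun _ => (m U0)⁻¹) with hρ0
  set ρ1 : X → ℝ≥0∞ := U1.indicator (fun _ => (m U1)⁻¹) with hρ1
  have i0 : ∫⁻ x, ρ0 x ∂m = 1 := by
    rw [hρ0, lintegral_indicator_const hU0]; exact ENNReal.inv_mul_cancel h0 h0'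
  have i1 : ∫⁻ x, ρ1 x ∂m = 1 := by
    rw [hρ1, lintegral_indicator_const hU1]; exact ENNReal.inv_mul_cancel h1 h1'
  have z0 : ∀ A : Set X, MeasurableSet A → Disjoint A U0 → m.withDensity ρ0 A = 0 := by
    intro A hA hd
    rw [withDensity_apply _ hA, hρ0, setLIntegral_indicator hU0]
    have : U0 ∩ A = ∅ := by rw [inter_comm]; exact hd.inter_eq
    rw [this]; simp
  have z1 : ∀ A : Set X, MeasurableSet A → Disjoint A U1 → m.withDensity ρ1 A = 0 := by
    intro A hA hd
    rw [withDensity_apply _ hA, hρ1, setLIntegral_indicator hU1]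
    have : U1 ∩ A = ∅ := by rw [inter_comm]; exact hd.inter_eq
    rw [this]; simp
  have cb0 : m.withDensity ρ0 (Metric.closedBall x ε)ᶜ = 0 :=
    z0 _ Metric.isClosed_closedBall.measurableSet.compl
      (disjoint_compl_left.mono_right hs0)
  have cb1 : m.withDensity ρ1 (Metric.closedBall x R)ᶜ = 0 :=
    z1 _ Metric.isClosed_closedBall.measurableSet.compl
      (disjoint_compl_left.mono_right hs1)
  obtain ⟨P, μ, hP, hμ, hμ0, hμ1, hineq⟩ := hCD ρ0 ρ1 (measurable_const.indicator hU0)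
    (measurable_const.indicator hU1) i0 i1
    ⟨Metric.closedBall x ε ∪ Metric.closedBall x R,
      Metric.isBounded_closedBall.union Metric.isBounded_closedBall, by
        exact measure_mono_null (compl_subset_compl.2 subset_union_left) cb0, by
        exact measure_mono_null (compl_subset_compl.2 subset_union_right) cb1⟩
  haveI q0 : IsProbabilityMeasure (m.withDensity ρ0) := ⟨by
    rw [withDensity_apply _ MeasurableSet.univ, setLIntegral_univ]; exact i0⟩
  haveI q1 : IsProbabilityMeasure (m.withDensity ρ1) := ⟨by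
    rw [withDensity_apply _ MeasurableSet.univ, setLIntegral_univ]; exact i1⟩
  haveI qP : IsProbabilityMeasure P := gg_prob hP.1
  haveI qt : IsProbabilityMeasure (μ t) := hμ.1 t ⟨ht.1.le, ht.2.le⟩
  have a0 : ∀ᵐ z ∂P, z.1 ∈ U0 := by
    have : ∀ᵐ y ∂(P.map Prod.fst), y ∈ U0 := by
      rw [hP.1.1]; exact z0 _ hU0.compl disjoint_compl_left
    exact ae_of_ae_map measurable_fst.aemeasurable this
  have a1 : ∀ᵐ z ∂P, z.2 ∈ U1 := by
    have : ∀ᵐ y ∂(P.map Prod.snd), y ∈ U1 := by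
      rw [hP.1.2]; exact z1 _ hU1.compl disjoint_compl_left
    exact ae_of_ae_map measurable_snd.aemeasurable this
  have gl : μ t (Metric.closedBall x (ε + t * (R + ε) + η))ᶜ = 0 := by
    have g0 := hμ.2 0 (by simp) t ⟨ht.1.le, ht.2.le⟩
    have g1 := hμ.2 t ⟨ht.1.le, ht.2.le⟩ 1 (by simp)
    rw [hμ0] at g0
    rw [hμ1] at g0 g1
    rw [hμ0] at g1
    have e0 : (0 - t) ^ 2 = t ^ 2 := by ring
    have e1 : (t - 1) ^ 2 = (1 - t) ^ 2 := by ring
    rw [e0] at g0
    rw [e1] at g1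
    exact geod_local ht g0 g1 hε hR cb0 cb1 hη
  refine ⟨P, qP, by filter_upwards [a0, a1] with z h h' using ⟨h, h'⟩, ?_⟩
  refine le_trans (le_of_eq ?_) ((hineq t ht N le_rfl).trans
    (gg_holder hN Metric.isClosed_closedBall.measurableSet gl))
  apply lintegral_congr_ae
  filter_upwards [a0, a1] with z hz0 hz1
  have r0 : ρ0 z.1 ^ (-(1 / N)) = m U0 ^ (1 / N) := by
    rw [hρ0, indicator_of_mem hz0, ENNReal.rpow_neg, ENNReal.inv_rpow, inv_inv]
  have r1 : ρ1 z.2 ^ (-(1 / N)) = m U1 ^ (1 / N) := by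
    rw [hρ1, indicator_of_mem hz1, ENNReal.rpow_neg, ENNReal.inv_rpow, inv_inv]
  rw [r0, r1]

variable {m : Measure X}

theorem rpow_ne_zero_aux {a : ℝ≥0∞} (h0 : a ≠ 0) (h1 : a ≠ ⊤) (y : ℝ) : a ^ y ≠ 0 := by
  simp [ENNReal.rpow_eq_zero_iff, h0, h1]

theorem dist_le {K N : ℝ} (hK : 0 < K) (hN : 1 < N)
    (hb : ∀ s : Set X, Bornology.IsBounded s → m s < ⊤) (hCD : CD K N m) {x y : X}
    (hx : x ∈ m.support) (hy : y ∈ m.support) : dist x y ≤ Real.pi * √((N - 1) / K) := by
  by_contra hlt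
  push Not at hlt
  set D := Real.pi * √((N - 1) / K) with hD
  have hD0 : 0 ≤ D := by positivity
  obtain ⟨r, hr0, hr⟩ : ∃ r : ℝ, 0 < r ∧ D + 2 * r < dist x y := by
    refine ⟨(dist x y - D) / 4, by linarith, by linarith⟩
  have p0 : 0 < m (Metric.ball x r) :=
    (Measure.mem_support_iff_forall x).1 hx _ (Metric.ball_mem_nhds x hr0)
  have p1 : 0 < m (Metric.ball y r) :=
    (Measure.mem_support_iff_forall y).1 hy _ (Metric.ball_mem_nhds y hr0)
  have f0 : m (Metric.ball x r) ≠ ⊤ := (hb _ Metric.isBounded_ball).ne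
  have f1 : m (Metric.ball y r) ≠ ⊤ := (hb _ Metric.isBounded_ball).ne
  obtain ⟨P, hP, hae, hin⟩ := cd_core hN hCD Metric.isOpen_ball.measurableSet
    Metric.isOpen_ball.measurableSet p0.ne' f0 p1.ne' f1 (x := x) (ε := r) (R := dist x y + r)
    hr0.le (by positivity) Metric.ball_subset_closedBall
    (by
      intro z hz
      have h1 := dist_triangle z y x
      rw [Metric.mem_ball] at hz
      rw [Metric.mem_closedBall, dist_comm x y]
      linarith) (t := 1 / 2) (by norm_num) (η := 1) one_pos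
  have hRfin : m (Metric.closedBall x (r + 1 / 2 * (dist x y + r + r) + 1)) ^ (1 / N) < ⊤ :=
    ENNReal.rpow_lt_top_of_nonneg (by positivity) (hb _ Metric.isBounded_closedBall).ne
  refine absurd (hin.trans_lt hRfin) (not_lt.2 ?_)
  have htop : ∀ᵐ z ∂P, tauKN K N (1 - 1 / 2) (dist z.1 z.2) * m (Metric.ball x r) ^ (1 / N) +
        tauKN K N (1 / 2) (dist z.1 z.2) * m (Metric.ball y r) ^ (1 / N) = ⊤ := by
    filter_upwards [hae] with z hz
    have hz0 := hz.1
    have hz1 := hz.2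
    rw [Metric.mem_ball] at hz0 hz1
    have d1 : D < dist z.1 z.2 := by
      have h1 := dist_triangle4 x z.1 z.2 y
      rw [dist_comm x z.1] at h1
      linarith
    have t1 : tauKN K N (1 / 2) (dist z.1 z.2) = ⊤ := by
      unfold tauKN
      rw [if_neg (by linarith), if_neg (by rw [← hD]; linarith)]
    rw [t1, ENNReal.top_mul (rpow_ne_zero_aux p1.ne' f1 _), add_top]
  rw [lintegral_congr_ae htop, lintegral_const, measure_univ, mul_one]

theorem measure_univ_lt_top {K N : ℝ} (hK : 0 < K) (hN : 1 < N)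
    (hb : ∀ s : Set X, Bornology.IsBounded s → m s < ⊤) (hCD : CD K N m) : m univ < ⊤ := by
  haveI : SecondCountableTopology X := UniformSpace.secondCountable_of_separable X
  rcases eq_or_ne m 0 with rfl | hm
  · simp
  obtain ⟨x, hx⟩ := Measure.nonempty_support hm
  have hsub : m.support ⊆ Metric.closedBall x (Real.pi * √((N - 1) / K)) := fun y hy =>
    dist_le hK hN hb hCD hy hx
  have h1 : m univ ≤ m (Metric.closedBall x (Real.pi * √((N - 1) / K))) := by
    rw [← union_compl_self m.support]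
    refine (measure_union_le _ _).trans ?_
    rw [Measure.measure_compl_support, add_zero]
    exact measure_mono hsub
  exact h1.trans_lt (hb _ Metric.isBounded_closedBall)

theorem volume_eps {K N : ℝ} (hK : 0 < K) (hN : 1 < N) (hm : m ≠ 0)
    (hb : ∀ s : Set X, Bornology.IsBounded s → m s < ⊤) (hCD : CD K N m) {x : X}
    (hx : x ∈ m.support) {s : ℝ} (hs : s ∈ Ioo (0 : ℝ) 1) {ε : ℝ} (hε : 0 < ε) :
    ENNReal.ofReal (s ^ N) * m univ ≤
      m (Metric.closedBall x (s * (Real.pi * √((N - 1) / K)) + 3 * ε)) := by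
  haveI : SecondCountableTopology X := UniformSpace.secondCountable_of_separable X
  set D := Real.pi * √((N - 1) / K) with hD
  have hD0 : 0 ≤ D := by positivity
  have hN0 : 0 < N := by linarith
  have hfin := measure_univ_lt_top hK hN hb hCD
  have hsub : m.support ⊆ Metric.closedBall x D := fun y hy => dist_le hK hN hb hCD hy hx
  have p0 : 0 < m (Metric.ball x ε) :=
    (Measure.mem_support_iff_forall x).1 hx _ (Metric.ball_mem_nhds x hε)
  have f0 : m (Metric.ball x ε) ≠ ⊤ := (hb _ Metric.isBounded_ball).ne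
  have hsm : m m.support = m univ := by
    apply le_antisymm (measure_mono (subset_univ _))
    rw [← union_compl_self m.support]
    refine (measure_union_le _ _).trans ?_
    rw [Measure.measure_compl_support, add_zero]
  have hu0 : m univ ≠ 0 := by simpa using hm
  obtain ⟨P, hP, hae, hin⟩ := cd_core hN hCD Metric.isOpen_ball.measurableSet
    Measure.isClosed_support.measurableSet p0.ne' f0 (by rw [hsm]; exact hu0)
    (by rw [hsm]; exact hfin.ne) (x := x) (ε := ε) (R := D)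
    hε.le hD0 Metric.ball_subset_closedBall hsub hs (η := ε) hε
  rw [hsm] at hin
  have low : ENNReal.ofReal s * m univ ^ (1 / N) ≤
      m (Metric.closedBall x (ε + s * (D + ε) + ε)) ^ (1 / N) := by
    refine le_trans ?_ hin
    calc ENNReal.ofReal s * m univ ^ (1 / N)
        = ∫⁻ _, ENNReal.ofReal s * m univ ^ (1 / N) ∂P := by
          rw [lintegral_const, (measure_univ : P univ = 1), mul_one]
      _ ≤ _ := by
          apply lintegral_mono
          intro z
          refine le_trans ?_ le_add_self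
          exact mul_le_mul_left (tau_ge_t hK hN hs dist_nonneg) _
  have low2 := ENNReal.rpow_le_rpow low hN0.le
  rw [ENNReal.mul_rpow_of_nonneg _ _ hN0.le, ← ENNReal.rpow_mul, ← ENNReal.rpow_mul,
    one_div_mul_cancel hN0.ne', ENNReal.rpow_one, ENNReal.rpow_one,
    ENNReal.ofReal_rpow_of_nonneg hs.1.le hN0.le] at low2
  refine low2.trans (measure_mono (Metric.closedBall_subset_closedBall ?_))
  nlinarith [hs.2, hε]

theorem volume {K N : ℝ} (hK : 0 < K) (hN : 1 < N) (hm : m ≠ 0)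
    (hb : ∀ s : Set X, Bornology.IsBounded s → m s < ⊤) (hCD : CD K N m) {x : X}
    (hx : x ∈ m.support) {s : ℝ} (hs : s ∈ Ioo (0 : ℝ) 1) :
    ENNReal.ofReal (s ^ N) * m univ ≤ m (Metric.closedBall x (s * (Real.pi * √((N - 1) / K)))) := by
  set r := s * (Real.pi * √((N - 1) / K)) with hr
  have hI : (⋂ n : ℕ, Metric.closedBall x (r + 3 * (1 / ((n : ℝ) + 1)))) =
      Metric.closedBall x r := by
    ext y
    simp only [mem_iInter, Metric.mem_closedBall]
    constructor
    · intro h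
      have hl : Tendsto (fun n : ℕ => r + 3 * (1 / ((n : ℝ) + 1))) atTop (𝓝 (r + 3 * 0)) :=
        (tendsto_one_div_add_atTop_nhds_zero_nat.const_mul 3).const_add r
      rw [mul_zero, add_zero] at hl
      exact ge_of_tendsto' hl h
    · intro h n
      have : 0 < 3 * (1 / ((n : ℝ) + 1)) := by positivity
      linarith
  have hanti : Antitone (fun n : ℕ => Metric.closedBall x (r + 3 * (1 / ((n : ℝ) + 1)))) := by
    intro a b hab
    apply Metric.closedBall_subset_closedBall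
    have : 1 / ((b : ℝ) + 1) ≤ 1 / ((a : ℝ) + 1) := by
      apply one_div_le_one_div_of_le (by positivity)
      have : (a : ℝ) ≤ b := by exact_mod_cast hab
      linarith
    linarith
  have hlim := tendsto_measure_iInter_atTop (μ := m)
    (s := fun n : ℕ => Metric.closedBall x (r + 3 * (1 / ((n : ℝ) + 1))))
    (fun n => Metric.isClosed_closedBall.measurableSet.nullMeasurableSet) hanti
    ⟨0, (hb _ Metric.isBounded_closedBall).ne⟩
  rw [hI] at hlim
  exact ge_of_tendsto' hlim (fun n => volume_eps hK hN hm hb hCD hx hs (by positivity))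

theorem isCompact_support {K N : ℝ} (hK : 0 < K) (hN : 1 < N) (hm : m ≠ 0)
    (hb : ∀ s : Set X, Bornology.IsBounded s → m s < ⊤) (hCD : CD K N m) :
    IsCompact m.support := by
  have hfin := measure_univ_lt_top hK hN hb hCD
  set D := Real.pi * √((N - 1) / K) with hD
  have hD0 : 0 < D := by
    have : 0 < (N - 1) / K := div_pos (by linarith) hK
    have := Real.sqrt_pos.2 this
    positivity
  have hN0 : 0 < N := by linarith
  apply TotallyBounded.isCompact_of_isClosed _ Measure.isClosed_support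
  rw [Metric.totallyBounded_iff]
  by_contra hcon
  push Not at hcon
  obtain ⟨ε, hε, hno⟩ := hcon
  obtain ⟨f, hf, hsep⟩ := exists_seq_of_forall_finset_exists (fun x => x ∈ m.support)
    (fun a b => ε ≤ dist b a) (by
      intro F hF
      have := hno (F : Set X) F.finite_toSet
      rw [not_subset] at this
      obtain ⟨y, hy, hny⟩ := this
      refine ⟨y, hy, fun a ha => ?_⟩
      by_contra hlt
      push Not at hlt
      exact hny (mem_iUnion₂.2 ⟨a, ha, hlt⟩))
  -- radius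
  obtain ⟨s, hs, hsr⟩ : ∃ s ∈ Ioo (0 : ℝ) 1, s * D < ε / 2 := by
    refine ⟨min (1 / 2) (ε / (4 * D)), ⟨by positivity, ?_⟩, ?_⟩
    · exact (min_le_left _ _).trans_lt (by norm_num)
    · calc min (1 / 2) (ε / (4 * D)) * D ≤ ε / (4 * D) * D := by
            apply mul_le_mul_of_nonneg_right (min_le_right _ _) hD0.le
        _ = ε / 4 := by field_simp
        _ < ε / 2 := by linarith
  have hdisj : Pairwise (Function.onFun Disjoint fun n => Metric.closedBall (f n) (s * D)) := by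
    have key : ∀ a b : ℕ, a < b → Disjoint (Metric.closedBall (f a) (s * D))
        (Metric.closedBall (f b) (s * D)) := by
      intro a b hab
      rw [Set.disjoint_left]
      intro z hza hzb
      rw [Metric.mem_closedBall] at hza hzb
      have h1 := hsep a b hab
      have h2 := dist_triangle (f b) z (f a)
      rw [dist_comm (f b) z] at h2
      linarith
    intro a b hab
    rcases lt_or_gt_of_ne hab with h | h
    · exact key a b h
    · exact (key b a h).symm
  have hU := measure_iUnion (μ := m) hdisj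
    (fun n => Metric.isClosed_closedBall.measurableSet)
  have hc : ENNReal.ofReal (s ^ N) * m univ ≠ 0 := by
    apply mul_ne_zero
    · simp only [ne_eq, ENNReal.ofReal_eq_zero, not_le]
      exact Real.rpow_pos_of_pos hs.1 _
    · simpa using hm
  have hsum : ∑' n : ℕ, (ENNReal.ofReal (s ^ N) * m univ) ≤
      ∑' n, m (Metric.closedBall (f n) (s * D)) :=
    ENNReal.tsum_le_tsum fun n => volume hK hN hm hb hCD (hf n) hs
  rw [ENNReal.tsum_const_eq_top_of_ne_zero hc, ← hU] at hsum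
  exact absurd ((measure_mono (subset_univ _)).trans_lt hfin) (not_lt.2 hsum)

end H13CD
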