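import Pool.Agent.Helper13.CD.GenGeom
import Pool.Agent.Helper13.CD.OT
import Pool.Agent.Helper13.CD.Util
import Pool.Agent.Helper13.CD.Trig

/-!
# Module Q6: transfer of the best constant, existence of the model; see the docstring of
`GenTransfer.lean`
-/

open MeasureTheory Set Filter Topology
open scoped ENNReal NNReal

namespace H13CD

universe u

section model

variable {X : Type u} [MetricSpace X]

/-- the set `S` with the metric multiplied by `κ` -/
structure Resc (S : Set X) (κ : {r : ℝ // 0 < r}) where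
  /-- the underlying point -/
  pt : S

namespace Resc

variable {S : Set X} {κ : {r : ℝ // 0 < r}}

noncomputable instance : MetricSpace (Resc S κ) where
  dist a b := κ.1 * dist a.pt b.pt
  dist_self a := by simp
  dist_comm a b := by rw [dist_comm]
  dist_triangle a b c := by
    have h := mul_le_mul_of_nonneg_left (dist_triangle a.pt b.pt c.pt) κ.2.le
    rw [mul_add] at h
    exact h
  eq_of_dist_eq_zero := by
    intro a b h
    have h1 : dist a.pt b.pt = 0 := (mul_eq_zero.mp h).resolve_left κ.2.ne'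
    have h2 : a.pt = b.pt := dist_eq_zero.mp h1
    cases a; cases b; simp_all

theorem dist_def (a b : Resc S κ) : dist a b = κ.1 * dist (a.pt : X) (b.pt : X) := rfl

theorem compact (hS : IsCompact S) : CompactSpace (Resc S κ) := by
  have : CompactSpace S := isCompact_iff_compactSpace.mp hS
  have hf : LipschitzWith ⟨κ.1, κ.2.le⟩ (fun s : S => (⟨s⟩ : Resc S κ)) := by
    apply LipschitzWith.of_dist_le_mul
    intro a b
    exact le_refl _
  have hs : Function.Surjective (fun s : S => (⟨s⟩ : Resc S κ)) := fun a => ⟨a.pt, rfl⟩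
  exact hs.compactSpace hf.continuous

end Resc

/-- existence of the rescaled compact model of the support -/
theorem exists_model {X : Type u} [MetricSpace X] {κ : ℝ} (hκ : 0 < κ) {S : Set X}
    (hS : IsCompact S) :
    ∃ (Y : Type u) (_ : MetricSpace Y) (_ : CompactSpace Y) (_ : MeasurableSpace Y)
      (_ : BorelSpace Y) (ι : Y → X), (∀ a b, dist a b = κ * dist (ι a) (ι b)) ∧ range ι = S := by
  refine ⟨Resc S ⟨κ, hκ⟩, inferInstance, Resc.compact hS, borel _, @BorelSpace.mk _ _ (borel _) rfl,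
    fun a => (a.pt : X), fun a b => rfl, ?_⟩
  ext x
  constructor
  · rintro ⟨a, rfl⟩
    exact a.pt.2
  · intro hx
    exact ⟨⟨⟨x, hx⟩⟩, rfl⟩

end model

section seq

variable {X : Type*} [MetricSpace X]

/-- comparison of the slopes of `f` and of `c * f ∘ ι` -/
theorem slm_comp_le {Y : Type*} [MetricSpace Y] {κ : ℝ} (hκ : 0 < κ) {ι : Y → X}
    (hι : ∀ a b, dist a b = κ * dist (ι a) (ι b)) {f : X → ℝ} {c : ℝ} (hc : 0 < c) (y : Y) :
    ENNReal.ofReal (slm (fun z => c * f (ι z)) y) ≤
      ENNReal.ofReal (c * κ⁻¹) * slopeMinus f (ι y) := by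
  have hcκ : 0 < c * κ⁻¹ := by positivity
  rcases eq_or_ne (slopeMinus f (ι y)) ⊤ with htop | htop
  · rw [htop, ENNReal.mul_top (by simpa using hcκ)]
    exact le_top
  -- it suffices to bound by every larger real number
  have key : ∀ s : ℝ, 0 < s → slopeMinus f (ι y) < ENNReal.ofReal s →
      slm (fun z => c * f (ι z)) y ≤ c * κ⁻¹ * s := by
    intro s hs hlt
    have hev := eventually_lt_of_limsup_lt hlt
    rw [eventually_nhdsWithin_iff, Metric.eventually_nhds_iff] at hev
    obtain ⟨ε, hε, hev⟩ := hev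
    have hr : 0 < κ * ε := by positivity
    obtain ⟨n, hn⟩ := exists_nat_one_div_lt hr
    have h1 : slm (fun z => c * f (ι z)) y ≤
        Sp (1 / ((n : ℝ) + 1)) (fun y => - (c * f (ι y))) y := by
      apply ciInf_le (f := fun n : ℕ => Sp (1 / ((n : ℝ) + 1)) (fun y => - (c * f (ι y))) y)
      refine ⟨0, ?_⟩
      rintro _ ⟨n, rfl⟩
      exact Sp_nonneg _ _ _
    refine h1.trans ?_
    apply Sp_le_of (by positivity)
    intro z hz hzr
    have hd : dist (ι z) (ι y) < ε := by
      have h2 : κ * dist (ι z) (ι y) < κ * ε := by rw [← hι]; exact hzr.trans hn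
      exact lt_of_mul_lt_mul_left h2 hκ.le
    have hne : ι z ≠ ι y := by
      intro h
      apply hz
      rw [← dist_eq_zero, hι, h, dist_self, mul_zero]
    have hpos : 0 < dist (ι y) (ι z) := dist_pos.mpr hne.symm
    have h3 := hev hd hne
    have hed : edist (ι y) (ι z) = ENNReal.ofReal (dist (ι y) (ι z)) := edist_dist _ _
    rw [hed, ENNReal.div_lt_iff (Or.inl (by simpa using hpos)) (Or.inl ENNReal.ofReal_ne_top),
      ← ENNReal.ofReal_mul hs.le, ENNReal.ofReal_lt_ofReal_iff (by positivity)] at h3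
    have h4 : dist z y = κ * dist (ι y) (ι z) := by rw [hι, dist_comm (ι z)]
    have h5 : c * κ⁻¹ * s * dist z y = c * (s * dist (ι y) (ι z)) := by
      rw [h4]
      field_simp
    rw [h5]
    nlinarith [mul_le_mul_of_nonneg_left h3.le hc.le]
  -- conclude
  set a := (slopeMinus f (ι y)).toReal with ha
  have hsa : slopeMinus f (ι y) = ENNReal.ofReal a := (ENNReal.ofReal_toReal htop).symm
  have ha0 : 0 ≤ a := ENNReal.toReal_nonneg
  rw [hsa, ← ENNReal.ofReal_mul hcκ.le]
  apply ENNReal.ofReal_le_ofReal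
  apply le_of_forall_pos_le_add
  intro ε hε
  have h := key (a + ε / (c * κ⁻¹)) (by positivity) (by
    rw [hsa]
    apply (ENNReal.ofReal_lt_ofReal_iff (by positivity)).mpr
    have : 0 < ε / (c * κ⁻¹) := by positivity
    linarith)
  calc slm (fun z => c * f (ι z)) y ≤ c * κ⁻¹ * (a + ε / (c * κ⁻¹)) := h
    _ = c * κ⁻¹ * a + ε := by field_simp

end seq

variable {X : Type*} [MetricSpace X] [CompleteSpace X] [TopologicalSpace.SeparableSpace X] [MeasurableSpace X]
  [BorelSpace X] {m : Measure X}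

variable {Y : Type*} [MetricSpace Y] [CompactSpace Y] [MeasurableSpace Y] [BorelSpace Y]

theorem transfer_seq {K N : ℝ} (hK : 0 < K) (hN : 1 < N) (hm : m ≠ 0) [IsFiniteMeasure m]
    (hC : ENNReal.ofReal ((N - 1) / (K * N)) ≤ bestConst m) (ι : Y → X)
    (hι : ∀ a b, dist a b = √(K / (N - 1)) * dist (ι a) (ι b)) (hr : range ι = m.support)
    {δ : ℝ} (hδ : 0 < δ) :
    ∃ (f : Y → ℝ) (L : ℝ≥0), LipschitzWith L f ∧ ∫ x, f x ∂((m univ)⁻¹ • m.comap ι) = 0 ∧
      ∫ x, f x ^ 2 ∂((m univ)⁻¹ • m.comap ι) = 1 ∧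
      ∫ x, slm f x ^ 2 ∂((m univ)⁻¹ • m.comap ι) ≤ N + δ := by
  have hN1 : 0 < N - 1 := by linarith
  set κ := √(K / (N - 1)) with hκdef
  have hκ : 0 < κ := Real.sqrt_pos.mpr (by positivity)
  have hκ2 : κ ^ 2 = K / (N - 1) := Real.sq_sqrt (by positivity)
  have : SecondCountableTopology X := UniformSpace.secondCountable_of_separable X
  -- ι is a closed embedding
  have hιlip : LipschitzWith (Real.toNNReal κ⁻¹) ι := by
    apply LipschitzWith.of_dist_le_mul
    intro a b
    rw [Real.coe_toNNReal _ (inv_pos.mpr hκ).le, hι, ← mul_assoc, inv_mul_cancel₀ hκ.ne', one_mul]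
  have hιinj : Function.Injective ι := by
    intro a b h
    rw [← dist_eq_zero, hι, h, dist_self, mul_zero]
  have hιce : Topology.IsClosedEmbedding ι := hιlip.continuous.isClosedEmbedding hιinj
  have hme : MeasurableEmbedding ι := hιce.measurableEmbedding
  have hmap : (m.comap ι).map ι = m := by
    rw [hme.map_comap, hr]
    exact Measure.restrict_eq_self_of_ae_mem Measure.support_mem_ae
  have hlint : ∀ F : X → ℝ≥0∞, ∫⁻ y, F (ι y) ∂(m.comap ι) = ∫⁻ x, F x ∂m := by
    intro F
    rw [← hme.lintegral_map, hmap]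
  have hint : ∀ F : X → ℝ, ∫ y, F (ι y) ∂(m.comap ι) = ∫ x, F x ∂m := by
    intro F
    rw [← hme.integral_map, hmap]
  have hM0 : m univ ≠ 0 := fun h => hm (Measure.measure_univ_eq_zero.mp h)
  have hMt : m univ ≠ ⊤ := measure_ne_top m univ
  set μ : Measure Y := (m univ)⁻¹ • m.comap ι with hμ
  have hcomapuniv : (m.comap ι) univ = m univ := by
    have h1 := hlint (fun _ => 1)
    simpa using h1
  have hμprob : IsProbabilityMeasure μ := by
    constructor
    rw [hμ, Measure.smul_apply, hcomapuniv, smul_eq_mul, ENNReal.inv_mul_cancel hM0 hMt]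
  -- the constant
  set C1 : ℝ := (N - 1) / (K * (N + δ)) with hC1
  have hC1pos : 0 < C1 := by positivity
  have hC1lt : ENNReal.ofReal C1 < bestConst m := by
    refine lt_of_lt_of_le ?_ hC
    rw [ENNReal.ofReal_lt_ofReal_iff (by positivity)]
    apply div_lt_div_of_pos_left hN1 (by positivity)
    nlinarith
  unfold bestConst at hC1lt
  simp only [lt_iSup_iff] at hC1lt
  obtain ⟨f, ⟨L, hL⟩, hfi, hf0, hfne, hlt⟩ := hC1lt
  set A := ∫⁻ x, ENNReal.ofReal (f x ^ 2) ∂m with hA
  set B := ∫⁻ x, slopeMinus f x ^ 2 ∂m with hB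
  -- bounds on A
  have hfmeas : Measurable f := hL.continuous.measurable
  have hgc : Continuous (fun y => f (ι y)) := hL.continuous.comp hιlip.continuous
  have hAt : A ≠ ⊤ := by
    rw [hA, ← hlint]
    have hbdd : ∃ D : ℝ, ∀ y, ‖f (ι y) ^ 2‖ ≤ D := by
      obtain ⟨D, hD⟩ := isCompact_univ.exists_bound_of_continuousOn (hgc.pow 2).continuousOn
      exact ⟨D, fun y => hD y (mem_univ y)⟩
    obtain ⟨D, hD⟩ := hbdd
    have h1 : ∫⁻ y, ENNReal.ofReal (f (ι y) ^ 2) ∂(m.comap ι) ≤
        ∫⁻ _y, ENNReal.ofReal D ∂(m.comap ι) := by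
      apply lintegral_mono
      intro y
      apply ENNReal.ofReal_le_ofReal
      exact (le_abs_self _).trans (hD y)
    refine ne_top_of_le_ne_top ?_ h1
    rw [lintegral_const, hcomapuniv]
    exact ENNReal.mul_ne_top ENNReal.ofReal_ne_top hMt
  have hA0 : A ≠ 0 := by
    intro h
    apply hfne
    rw [hA, lintegral_eq_zero_iff (by fun_prop)] at h
    filter_upwards [h] with x hx
    have h1 : f x ^ 2 ≤ 0 := by simpa using hx
    have h2 : f x ^ 2 = 0 := le_antisymm h1 (sq_nonneg _)
    simpa using h2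
  -- B ≤ A / C1
  have hBA : ENNReal.ofReal C1 * B ≤ A := ENNReal.mul_le_of_le_div hlt.le
  -- normalisation
  set a : ℝ := A.toReal / (m univ).toReal with hadef
  have hMr : 0 < (m univ).toReal := ENNReal.toReal_pos hM0 hMt
  have hAr : 0 < A.toReal := ENNReal.toReal_pos hA0 hAt
  have ha : 0 < a := by positivity
  set c : ℝ := (√a)⁻¹ with hcdef
  have hc : 0 < c := by
    have := Real.sqrt_pos.mpr ha
    positivity
  have hc2 : c ^ 2 * a = 1 := by
    rw [hcdef, inv_pow, Real.sq_sqrt ha.le, inv_mul_cancel₀ ha.ne']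
  obtain ⟨L', hglip⟩ : ∃ L' : ℝ≥0, LipschitzWith L' (fun y => c * f (ι y)) := by
    have h1 := hL.comp hιlip
    refine ⟨Real.toNNReal c * (L * Real.toNNReal κ⁻¹), ?_⟩
    apply LipschitzWith.of_dist_le_mul
    intro y z
    have h2 := h1.dist_le_mul y z
    rw [Real.dist_eq] at h2 ⊢
    have h3 : c * f (ι y) - c * f (ι z) = c * (f (ι y) - f (ι z)) := by ring
    rw [h3, abs_mul, abs_of_pos hc, NNReal.coe_mul, mul_assoc, Real.coe_toNNReal _ hc.le]
    exact mul_le_mul_of_nonneg_left h2 hc.le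
  have hintf2 : ∫ y, f (ι y) ^ 2 ∂(m.comap ι) = A.toReal := by
    rw [hint (fun x => f x ^ 2), integral_eq_lintegral_of_nonneg_ae (Eventually.of_forall
      (fun x => sq_nonneg _)) (by fun_prop)]
  refine ⟨fun y => c * f (ι y), _, hglip, ?_, ?_, ?_⟩
  · rw [integral_smul_measure, integral_const_mul, hint f, hf0, mul_zero, smul_zero]
  · have h1 : ∀ y, (c * f (ι y)) ^ 2 = c ^ 2 * f (ι y) ^ 2 := fun y => by ring
    simp_rw [h1]
    rw [integral_smul_measure, integral_const_mul, hintf2, ENNReal.toReal_inv, smul_eq_mul]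
    rw [← hc2, hadef]
    ring
  · have hslm0 : ∀ y, 0 ≤ slm (fun z => c * f (ι z)) y := by
      intro y
      exact Real.iInf_nonneg fun _ => Sp_nonneg _ _ _
    have hsm : Measurable (slm (fun z => c * f (ι z))) := measurable_slm hglip
    rw [integral_eq_lintegral_of_nonneg_ae (Eventually.of_forall (fun y => sq_nonneg _))
      (hsm.pow_const 2).aestronglyMeasurable]
    apply ENNReal.toReal_le_of_le_ofReal (by positivity)
    have h1 : ∫⁻ y, ENNReal.ofReal (slm (fun z => c * f (ι z)) y ^ 2) ∂μ ≤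
        ∫⁻ y, ENNReal.ofReal (c * κ⁻¹) ^ 2 * slopeMinus f (ι y) ^ 2 ∂μ := by
      apply lintegral_mono
      intro y
      show ENNReal.ofReal (slm (fun z => c * f (ι z)) y ^ 2) ≤
        ENNReal.ofReal (c * κ⁻¹) ^ 2 * slopeMinus f (ι y) ^ 2
      rw [ENNReal.ofReal_pow (hslm0 y), ← mul_pow]
      exact pow_le_pow_left' (slm_comp_le hκ hι hc y) 2
    refine h1.trans ?_
    rw [hμ, lintegral_smul_measure,
      hlint (fun x => ENNReal.ofReal (c * κ⁻¹) ^ 2 * slopeMinus f x ^ 2),
      lintegral_const_mul' _ _ (by simp), smul_eq_mul]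
    -- (m univ)⁻¹ * ((cκ⁻¹)² * B) ≤ N + δ
    have h2 : ENNReal.ofReal (c * κ⁻¹) ^ 2 = ENNReal.ofReal ((c * κ⁻¹) ^ 2) := by
      rw [ENNReal.ofReal_pow (by positivity)]
    have hB2 : B ≤ ENNReal.ofReal (A.toReal / C1) := by
      have h3 : ENNReal.ofReal C1 * B ≤ ENNReal.ofReal A.toReal := by
        rw [ENNReal.ofReal_toReal hAt]
        exact hBA
      rw [ENNReal.ofReal_div_of_pos hC1pos, ENNReal.le_div_iff_mul_le
        (Or.inl (by simpa using hC1pos)) (Or.inl ENNReal.ofReal_ne_top), mul_comm]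
      exact h3
    have h4 : (m univ)⁻¹ = ENNReal.ofReal ((m univ).toReal⁻¹) := by
      rw [ENNReal.ofReal_inv_of_pos hMr, ENNReal.ofReal_toReal hMt]
    rw [h2, h4]
    calc ENNReal.ofReal ((m univ).toReal⁻¹) * (ENNReal.ofReal ((c * κ⁻¹) ^ 2) * B)
        ≤ ENNReal.ofReal ((m univ).toReal⁻¹) *
          (ENNReal.ofReal ((c * κ⁻¹) ^ 2) * ENNReal.ofReal (A.toReal / C1)) := by gcongr
      _ = ENNReal.ofReal ((m univ).toReal⁻¹ * ((c * κ⁻¹) ^ 2 * (A.toReal / C1))) := by
          rw [← ENNReal.ofReal_mul (by positivity), ← ENNReal.ofReal_mul (by positivity)]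
      _ ≤ ENNReal.ofReal (N + δ) := by
          apply ENNReal.ofReal_le_ofReal
          apply le_of_eq
          have h5 : (m univ).toReal⁻¹ * ((c * κ⁻¹) ^ 2 * (A.toReal / C1)) =
              (c ^ 2 * a) * ((κ ^ 2)⁻¹ / C1) := by
            rw [hadef]
            field_simp
          rw [h5, hc2, hκ2, hC1]
          field_simp

end H13CD
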