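import Pool.Agent.Helper13.CD.GenAc
import Pool.Agent.Helper13.CD.OT
import Pool.Agent.Helper13.CD.Util
import Pool.Agent.Helper13.CD.Trig

/-!
# Module Q4-Q6: transfer to the compact support with rescaled metric

`Y` is a compact metric space with `ι : Y → X`, `dist a b = κ dist (ι a) (ι b)`,
`κ = √(K/(N-1))`, `range ι = supp m`; `m' = (m univ)⁻¹ • m.comap ι`.

* `ac_of_CD`: for bounded densities, `μ t ≪ m` (`0<t<1`): for `N' → ∞` the left side of the `CD`
  inequality is `≥ C^(-1/N')` (`tau_ge_t`, `ρ ≤ C`) and the right side tends to `∫ (dμt/dm) dm`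
  (dominated by `1 + dμt/dm`, `m` finite; use Fatou/reverse or `lintegral` dominated convergence),
  so `∫ (dμt/dm) dm ≥ 1`.
* `transfer_CD`: given bounded densities `ρ0 ρ1` on `Y` with `∫ dm' = 1`, push to `X`
  (`ρ̃ = ρ∘ι⁻¹/m(X)` on `supp m`, zero elsewhere), apply `CD`, pull back plan and interpolating
  measures to `Y` (all measures are `≪ m`, hence concentrated on `supp m = range ι`, `ι` is a closed
  embedding, so a measurable embedding).  `tcost` on `Y` is `κ²` times `tcost` on `X`, `W2sq`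
  likewise; `exists_plan` provides optimal plans on `Y`, whose cost is `W2sq`; so the geodesic
  relations become the cost relations of `CDr`.  `tauKN K N t (dist (ι a) (ι b)) =
  ofReal (tau N t (dist a b))` for `dist a b < π` and `= ∞` otherwise; finiteness of the right side
  gives `dist < π` a.e. and integrability.
* `transfer_seq`: from `ofReal((N-1)/(KN)) ≤ bestConst m`: for `δ > 0` there is a Lipschitz `f` on
  `X`, `∫f = 0`, with `∫f² dm > (1-δ')(N-1)/(KN) ∫ slopeMinus² dm`; `f∘ι` on `Y`: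
  `slm (f∘ι) y ≤ κ⁻¹ slopeMinus f (ι y)`; normalise.  (If `∫ slopeMinus² = 0` the ratio is `∞`; then
  `∫ slm² = 0`; still fine.)
-/

open MeasureTheory Set Filter Topology
open scoped ENNReal NNReal

namespace H13CD

set_option linter.unusedSectionVars false

universe u

variable {X : Type*} [MetricSpace X] [CompleteSpace X] [TopologicalSpace.SeparableSpace X] [MeasurableSpace X]
  [BorelSpace X] {m : Measure X}

variable {Y : Type*} [MetricSpace Y] [CompactSpace Y] [MeasurableSpace Y] [BorelSpace Y]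

theorem tr_emb {κ : ℝ} (hκ : 0 < κ) {ι : Y → X} (hι : ∀ a b, dist a b = κ * dist (ι a) (ι b)) :
    MeasurableEmbedding ι := by
  have h1 : LipschitzWith (Real.toNNReal κ⁻¹) ι := by
    refine LipschitzWith.of_dist_le_mul fun a b => ?_
    rw [hι a b, Real.coe_toNNReal _ (by positivity), ← mul_assoc, inv_mul_cancel₀ hκ.ne', one_mul]
  have hinj : Function.Injective ι := by
    intro a b hab
    have := hι a b
    rw [hab, dist_self, mul_zero] at this
    exact dist_eq_zero.mp this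
  exact (h1.continuous.isClosedEmbedding hinj).measurableEmbedding

section general

variable {A B : Type*} [MeasurableSpace A] [MeasurableSpace B] {ι : A → B}

theorem tr_map_inj (he : MeasurableEmbedding ι) {μ ν : Measure A} (h : μ.map ι = ν.map ι) :
    μ = ν := by
  rw [← he.comap_map μ, h, he.comap_map]

/-- a coupling of image measures is an image -/
theorem tr_pull (he : MeasurableEmbedding ι) {P : Measure (B × B)} {ν0 ν1 : Measure A}
    (h : IsCoupling P (ν0.map ι) (ν1.map ι)) :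
    (P.comap (Prod.map ι ι)).map (Prod.map ι ι) = P ∧ Cpl (P.comap (Prod.map ι ι)) ν0 ν1 := by
  have hj := he.prodMap he
  have hr : MeasurableSet (range ι) := he.measurableSet_range
  have hnull : ∀ ν : Measure A, ν.map ι (range ι)ᶜ = 0 := by
    intro ν
    rw [he.map_apply]
    have : ι ⁻¹' (range ι)ᶜ = ∅ := by
      ext x; simp
    rw [this, measure_empty]
  have h1 : ∀ᵐ z ∂P, z.1 ∈ range ι := by
    have h2 : ∀ᵐ x ∂(P.map Prod.fst), x ∈ range ι := by
      rw [h.1, ae_iff]
      exact hnull ν0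
    exact ae_of_ae_map measurable_fst.aemeasurable h2
  have h1' : ∀ᵐ z ∂P, z.2 ∈ range ι := by
    have h2 : ∀ᵐ x ∂(P.map Prod.snd), x ∈ range ι := by
      rw [h.2, ae_iff]
      exact hnull ν1
    exact ae_of_ae_map measurable_snd.aemeasurable h2
  have hmap : (P.comap (Prod.map ι ι)).map (Prod.map ι ι) = P := by
    rw [hj.map_comap]
    apply Measure.restrict_eq_self_of_ae_mem
    filter_upwards [h1, h1'] with z hz hz'
    rw [Set.range_prodMap]
    exact ⟨hz, hz'⟩
  refine ⟨hmap, ?_, ?_⟩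
  · apply tr_map_inj he
    rw [Measure.map_map he.measurable measurable_fst, ← h.1, ← hmap,
      Measure.map_map measurable_fst hj.measurable, hmap]
    rfl
  · apply tr_map_inj he
    rw [Measure.map_map he.measurable measurable_snd, ← h.2, ← hmap,
      Measure.map_map measurable_snd hj.measurable, hmap]
    rfl

theorem tr_push (he : MeasurableEmbedding ι) {P : Measure (A × A)} {ν0 ν1 : Measure A}
    (h : Cpl P ν0 ν1) : IsCoupling (P.map (Prod.map ι ι)) (ν0.map ι) (ν1.map ι) := by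
  have hj := he.prodMap he
  constructor
  · rw [Measure.map_map measurable_fst hj.measurable, ← h.1,
      Measure.map_map he.measurable measurable_fst]
    rfl
  · rw [Measure.map_map measurable_snd hj.measurable, ← h.2,
      Measure.map_map he.measurable measurable_snd]
    rfl

theorem tr_wd (he : MeasurableEmbedding ι) {mY : Measure A} {g : B → ℝ≥0∞} (hg : Measurable g) :
    (mY.map ι).withDensity g = (mY.withDensity (fun y => g (ι y))).map ι := by
  ext E hE
  rw [withDensity_apply _ hE, setLIntegral_map hE hg he.measurable,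
    Measure.map_apply he.measurable hE, withDensity_apply _ (he.measurable hE)]

end general

variable {κ : ℝ} {ι : Y → X}

theorem tr_cost (hκ : 0 < κ) (hι : ∀ a b, dist a b = κ * dist (ι a) (ι b))
    (Q : Measure (Y × Y)) [IsFiniteMeasure Q] :
    ENNReal.ofReal (cost Q) = ENNReal.ofReal (κ ^ 2) * tcost (Q.map (Prod.map ι ι)) := by
  have he := tr_emb hκ hι
  have hj := he.prodMap he
  have hcont : Continuous fun z : Y × Y => dist z.1 z.2 ^ 2 :=
    (continuous_fst.dist continuous_snd).pow 2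
  have hint : Integrable (fun z : Y × Y => dist z.1 z.2 ^ 2) Q :=
    (BoundedContinuousFunction.mkOfCompact ⟨_, hcont⟩).integrable Q
  unfold cost tcost
  rw [ofReal_integral_eq_lintegral_ofReal hint (Eventually.of_forall fun z => sq_nonneg _),
    hj.lintegral_map, ← lintegral_const_mul' _ _ ENNReal.ofReal_ne_top]
  apply lintegral_congr
  intro z
  rw [hι z.1 z.2, mul_pow, ENNReal.ofReal_mul (sq_nonneg _), edist_dist,
    ← ENNReal.ofReal_pow dist_nonneg]
  rfl

theorem tr_W2 (hκ : 0 < κ) (hι : ∀ a b, dist a b = κ * dist (ι a) (ι b)) {ν0 ν1 : Measure Y}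
    [IsFiniteMeasure ν0] {P : Measure (Y × Y)} (hP : Cpl P ν0 ν1) (ho : IsOpt P) :
    ENNReal.ofReal (cost P) = ENNReal.ofReal (κ ^ 2) * W2sq (ν0.map ι) (ν1.map ι) := by
  have he := tr_emb hκ hι
  have hfin : ∀ Q : Measure (Y × Y), Cpl Q ν0 ν1 → IsFiniteMeasure Q := fun Q hQ =>
    hQ.isFiniteMeasure
  have := hfin P hP
  have hk0 : ENNReal.ofReal (κ ^ 2) ≠ 0 := by simp [hκ.ne']
  apply le_antisymm
  · have h1 : ENNReal.ofReal (cost P) / ENNReal.ofReal (κ ^ 2) ≤ W2sq (ν0.map ι) (ν1.map ι) := by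
      apply le_iInf₂
      intro Q hQ
      obtain ⟨e1, e2⟩ := tr_pull he hQ
      have := hfin _ e2
      have h2 : cost P ≤ cost (Q.comap (Prod.map ι ι)) :=
        ho _ (by rw [e2.1, hP.1]) (by rw [e2.2, hP.2])
      have h3 := tr_cost hκ hι (Q.comap (Prod.map ι ι))
      rw [e1] at h3
      apply ENNReal.div_le_of_le_mul'
      rw [← h3]
      exact ENNReal.ofReal_le_ofReal h2
    have h4 := mul_le_mul_right h1 (ENNReal.ofReal (κ ^ 2))
    rwa [ENNReal.mul_div_cancel hk0 ENNReal.ofReal_ne_top] at h4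
  · rw [tr_cost hκ hι P]
    refine mul_le_mul_right ?_ _
    unfold W2sq
    exact iInf₂_le (P.map (Prod.map ι ι)) (tr_push he hP)

/-- the distortion coefficients agree -/
theorem tr_tau {K N t : ℝ} (hK : 0 < K) (hN : 1 < N) {θ : ℝ}
    (hlt : √(K / (N - 1)) * θ < Real.pi) :
    tauKN K N t θ = ENNReal.ofReal (tau N t (√(K / (N - 1)) * θ)) := by
  have hN1 : 0 < N - 1 := by linarith
  have hκ : 0 < √(K / (N - 1)) := Real.sqrt_pos.mpr (by positivity)
  unfold tauKN tau
  by_cases h : θ = 0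
  · rw [if_pos h, if_pos (by rw [h, mul_zero])]
  · have h3 : √((N - 1) / K) = (√(K / (N - 1)))⁻¹ := by rw [← Real.sqrt_inv, inv_div]
    have h4 : θ < Real.pi * √((N - 1) / K) := by
      rw [h3, ← div_eq_mul_inv, lt_div_iff₀ hκ, mul_comm]; exact hlt
    rw [if_neg h, if_pos h4, if_neg (mul_ne_zero hκ.ne' h)]
    have e1 : t * θ * √(K / (N - 1)) = t * (√(K / (N - 1)) * θ) := by ring
    have e2 : θ * √(K / (N - 1)) = √(K / (N - 1)) * θ := by ring
    rw [e1, e2]

theorem tr_tau_top {K N t : ℝ} (hK : 0 < K) (hN : 1 < N) {θ : ℝ}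
    (hlt : ¬ √(K / (N - 1)) * θ < Real.pi) : tauKN K N t θ = ⊤ := by
  have hN1 : 0 < N - 1 := by linarith
  have hκ : 0 < √(K / (N - 1)) := Real.sqrt_pos.mpr (by positivity)
  have h3 : √((N - 1) / K) = (√(K / (N - 1)))⁻¹ := by rw [← Real.sqrt_inv, inv_div]
  have h0 : θ ≠ 0 := by
    rintro rfl
    apply hlt
    rw [mul_zero]
    exact Real.pi_pos
  have h4 : ¬ θ < Real.pi * √((N - 1) / K) := by
    rw [h3, ← div_eq_mul_inv, lt_div_iff₀ hκ, mul_comm]; exact hlt
  unfold tauKN
  rw [if_neg h0, if_neg h4]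

theorem tr_tau_meas (N t : ℝ) : Measurable (tau N t) := by
  unfold tau
  refine Measurable.ite (measurableSet_singleton (0 : ℝ)) measurable_const ?_
  fun_prop

theorem transfer_CD {K N : ℝ} (hK : 0 < K) (hN : 1 < N) (hm : m ≠ 0) [IsFiniteMeasure m]
    (hCD : CD K N m) (ι : Y → X)
    (hι : ∀ a b, dist a b = √(K / (N - 1)) * dist (ι a) (ι b)) (hr : range ι = m.support) :
    CDr ((m univ)⁻¹ • m.comap ι) N := by
  have hN1 : 0 < N - 1 := by linarith
  have hκ : 0 < √(K / (N - 1)) := Real.sqrt_pos.mpr (by positivity)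
  have hp0 : 0 < 1 - 1 / N := by
    have : 1 / N < 1 := by rw [div_lt_one (by linarith)]; exact hN
    linarith
  have hq0 : 0 < 1 / N := by positivity
  have : SecondCountableTopology X := UniformSpace.secondCountable_of_separable X
  have he := tr_emb hκ hι
  have hj := he.prodMap he
  have hinj := he.injective
  have hM0 : m univ ≠ 0 := by simpa using hm
  have hMt : m univ ≠ ⊤ := measure_ne_top m univ
  set Mr := (m univ).toReal with hMr
  have hMrp : 0 < Mr := ENNReal.toReal_pos hM0 hMt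
  have hMo : m univ = ENNReal.ofReal Mr := (ENNReal.ofReal_toReal hMt).symm
  set mY := m.comap ι with hmYd
  have hmY : mY.map ι = m := by
    rw [hmYd, he.map_comap]
    apply Measure.restrict_eq_self_of_ae_mem
    rw [hr, ae_iff]
    exact Measure.measure_compl_support
  have hmYu : mY univ = m univ := by
    have h := congrArg (fun μ : Measure X => μ univ) hmY
    simp only [he.map_apply, preimage_univ] at h
    exact h
  have ifY : IsFiniteMeasure mY := ⟨by rw [hmYu]; exact hMt.lt_top⟩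
  set m' := (m univ)⁻¹ • mY with hm'
  have ifY' : IsProbabilityMeasure m' := by
    constructor
    rw [hm', Measure.smul_apply, hmYu, smul_eq_mul, ENNReal.inv_mul_cancel hM0 hMt]
  have hmm : mY = m univ • m' := by
    rw [hm', smul_smul, ENNReal.mul_inv_cancel hM0 hMt, one_smul]
  have hdens : ∀ ρ : Y → ℝ, Measurable ρ →
      dens m' ρ = mY.withDensity (fun y => (m univ)⁻¹ * ENNReal.ofReal (ρ y)) := by
    intro ρ hρ
    unfold dens
    rw [hm', withDensity_smul_measure, ← withDensity_smul _ (by fun_prop)]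
    rfl
  refine ⟨fun ρ0 ρ1 m0 m1 n0 n1 b0 b1 i0 i1 => ?_⟩
  obtain ⟨C0, hC0⟩ := b0
  obtain ⟨C1, hC1⟩ := b1
  -- probability measures on `Y`
  have bint : ∀ (ρ : Y → ℝ) (C : ℝ), Measurable ρ → (∀ x, 0 ≤ ρ x) → (∀ x, ρ x ≤ C) →
      Integrable ρ m' := by
    intro ρ C hm h0 h1
    refine Integrable.of_bound hm.aestronglyMeasurable C (Eventually.of_forall fun x => ?_)
    rw [Real.norm_eq_abs, abs_of_nonneg (h0 x)]
    exact h1 x
  have pr0 : IsProbabilityMeasure (dens m' ρ0) := by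
    constructor
    rw [dens_univ (bint ρ0 C0 m0 n0 hC0) n0, i0]; simp
  have pr1 : IsProbabilityMeasure (dens m' ρ1) := by
    constructor
    rw [dens_univ (bint ρ1 C1 m1 n1 hC1) n1, i1]; simp
  -- densities on `X`
  set r : (Y → ℝ) → X → ℝ≥0∞ := fun ρ =>
    Function.extend ι (fun y => (m univ)⁻¹ * ENNReal.ofReal (ρ y)) (fun _ => 0) with hrd
  have hrm : ∀ ρ : Y → ℝ, Measurable ρ → Measurable (r ρ) := fun ρ hρ =>
    he.measurable_extend (by fun_prop) measurable_const
  have hri : ∀ (ρ : Y → ℝ) (y : Y), r ρ (ι y) = (m univ)⁻¹ * ENNReal.ofReal (ρ y) := fun ρ y =>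
    hinj.extend_apply _ _ y
  have hrw : ∀ ρ : Y → ℝ, Measurable ρ → m.withDensity (r ρ) = (dens m' ρ).map ι := by
    intro ρ hρ
    conv_lhs => rw [← hmY]
    rw [tr_wd he (hrm ρ hρ), hdens ρ hρ]
    congr 2
    ext y
    exact hri ρ y
  have hru : ∀ ρ : Y → ℝ, Measurable ρ → IsProbabilityMeasure (dens m' ρ) →
      ∫⁻ x, r ρ x ∂m = 1 := by
    intro ρ hρ hpr
    rw [← setLIntegral_univ, ← withDensity_apply _ MeasurableSet.univ, hrw ρ hρ, he.map_apply,
      preimage_univ, measure_univ]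
  have hrange : ∀ ν : Measure Y, ν.map ι (range ι)ᶜ = 0 := by
    intro ν
    rw [he.map_apply]
    have : ι ⁻¹' (range ι)ᶜ = ∅ := by ext x; simp
    rw [this, measure_empty]
  have hrbd : ∀ (ρ : Y → ℝ) (C : ℝ), (∀ x, ρ x ≤ C) → ∀ x,
      r ρ x ≤ (m univ)⁻¹ * ENNReal.ofReal C := by
    intro ρ C h x
    by_cases hx : ∃ y, ι y = x
    · obtain ⟨y, rfl⟩ := hx
      rw [hri]
      exact mul_le_mul_right (ENNReal.ofReal_le_ofReal (h y)) _
    · rw [hrd]
      simp only
      rw [Function.extend_apply' _ _ _ hx]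
      exact bot_le
  have hbdd : Bornology.IsBounded (range ι) := by
    refine Metric.isBounded_range_iff.2 ⟨(√(K / (N - 1)))⁻¹ * Metric.diam (univ : Set Y),
      fun a b => ?_⟩
    have h1 : dist a b ≤ Metric.diam (univ : Set Y) :=
      Metric.dist_le_diam_of_mem isCompact_univ.isBounded (mem_univ a) (mem_univ b)
    rw [hι a b] at h1
    rw [← div_eq_inv_mul, le_div_iff₀ hκ, mul_comm]
    exact h1
  obtain ⟨PX, μ, hPX, hgeo, hμ0, hμ1, hineq⟩ := hCD (r ρ0) (r ρ1) (hrm ρ0 m0) (hrm ρ1 m1)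
    (hru ρ0 m0 pr0) (hru ρ1 m1 pr1)
    ⟨range ι, hbdd, by rw [hrw ρ0 m0]; exact hrange _, by rw [hrw ρ1 m1]; exact hrange _⟩
  -- pull back of the plan
  have hPXc : IsCoupling PX ((dens m' ρ0).map ι) ((dens m' ρ1).map ι) := by
    rw [← hrw ρ0 m0, ← hrw ρ1 m1]; exact hPX.1
  obtain ⟨hPj, hPc⟩ := tr_pull he hPXc
  set P := PX.comap (Prod.map ι ι) with hPd
  have prP : IsProbabilityMeasure P := by
    constructor
    have h1 : P.map Prod.fst univ = 1 := by rw [hPc.1]; exact measure_univ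
    rwa [Measure.map_apply measurable_fst MeasurableSet.univ, preimage_univ] at h1
  have hPo : IsOpt P := by
    intro Q hQ0 hQ1
    have hQc : Cpl Q (dens m' ρ0) (dens m' ρ1) := ⟨hQ0.trans hPc.1, hQ1.trans hPc.2⟩
    have fQ : IsFiniteMeasure Q := hQc.isFiniteMeasure
    have h1 := tr_cost hκ hι P
    have h2 := tr_cost hκ hι Q
    have h3 : tcost (P.map (Prod.map ι ι)) ≤ tcost (Q.map (Prod.map ι ι)) := by
      rw [hPj, hPX.2, hrw ρ0 m0, hrw ρ1 m1]
      unfold W2sq
      exact iInf₂_le (Q.map (Prod.map ι ι)) (tr_push he hQc)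
    have h4 : ENNReal.ofReal (cost P) ≤ ENNReal.ofReal (cost Q) := by
      rw [h1, h2]
      exact mul_le_mul_right h3 _
    exact (ENNReal.ofReal_le_ofReal_iff (integral_nonneg fun z => sq_nonneg _)).1 h4
  -- the curvature inequality on `Y`
  have hpos0 : ∀ᵐ z ∂P, 0 < ρ0 z.1 := by
    have h : ∀ᵐ x ∂(P.map Prod.fst), 0 < ρ0 x := by
      rw [hPc.1]; unfold dens
      rw [ae_withDensity_iff (by fun_prop)]
      exact Eventually.of_forall fun x hx => by simpa using hx
    exact ae_of_ae_map measurable_fst.aemeasurable h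
  have hpos1 : ∀ᵐ z ∂P, 0 < ρ1 z.2 := by
    have h : ∀ᵐ x ∂(P.map Prod.snd), 0 < ρ1 x := by
      rw [hPc.2]; unfold dens
      rw [ae_withDensity_iff (by fun_prop)]
      exact Eventually.of_forall fun x hx => by simpa using hx
    exact ae_of_ae_map measurable_snd.aemeasurable h
  have hrp : ∀ (ρ : Y → ℝ) (y : Y), 0 < ρ y →
      r ρ (ι y) ^ (-(1 / N)) = ENNReal.ofReal (Mr ^ (1 / N)) * ENNReal.ofReal (ρ y ^ (-(1 / N))) := by
    intro ρ y hy
    rw [hri, hMo, ← ENNReal.ofReal_inv_of_pos hMrp, ← ENNReal.ofReal_mul (by positivity),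
      ENNReal.ofReal_rpow_of_pos (by positivity), Real.mul_rpow (by positivity) hy.le,
      ENNReal.ofReal_mul (by positivity), Real.inv_rpow hMrp.le, Real.rpow_neg hMrp.le, inv_inv]
  -- main computation
  have hkey : ∀ t ∈ Ioo (0 : ℝ) 1, ∃ ρt : Y → ℝ, Measurable ρt ∧ (∀ x, 0 ≤ ρt x) ∧
      Integrable ρt m' ∧ ∫ x, ρt x ∂m' = 1 ∧ μ t = (dens m' ρt).map ι ∧
      ∫⁻ z, (tauKN K N (1 - t) (dist (ι z.1) (ι z.2)) * ENNReal.ofReal (ρ0 z.1 ^ (-(1 / N))) +
        tauKN K N t (dist (ι z.1) (ι z.2)) * ENNReal.ofReal (ρ1 z.2 ^ (-(1 / N)))) ∂P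
      ≤ ENNReal.ofReal (Ent N m' ρt) := by
    intro t ht
    have prt : IsProbabilityMeasure (μ t) := hgeo.1 t ⟨ht.1.le, ht.2.le⟩
    have hac : μ t ≪ m := by
      refine ac_of_CD (C := max ((m univ)⁻¹ * ENNReal.ofReal C0) ((m univ)⁻¹ * ENNReal.ofReal C1))
        hK hN ?_ (hrm ρ0 m0) (hrm ρ1 m1) (fun x => le_trans (hrbd ρ0 C0 hC0 x) (le_max_left _ _))
        (fun x => le_trans (hrbd ρ1 C1 hC1 x) (le_max_right _ _)) hPX.1 (hru ρ0 m0 pr0)
        (hru ρ1 m1 pr1) ht (hineq t ht)
      have : (m univ)⁻¹ ≠ ⊤ := ENNReal.inv_ne_top.2 hM0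
      exact (max_lt (ENNReal.mul_lt_top this.lt_top ENNReal.ofReal_lt_top)
        (ENNReal.mul_lt_top this.lt_top ENNReal.ofReal_lt_top)).ne
    set f := (μ t).rnDeriv m with hf
    have hfm : Measurable f := Measure.measurable_rnDeriv _ _
    have hft : ∀ᵐ y ∂mY, f (ι y) < ⊤ := by
      have h : ∀ᵐ x ∂(mY.map ι), f x < ⊤ := by rw [hmY]; exact Measure.rnDeriv_lt_top _ _
      exact ae_of_ae_map he.measurable.aemeasurable h
    set ρt : Y → ℝ := fun y => Mr * (f (ι y)).toReal with hρt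
    have hρm : Measurable ρt := (hfm.comp he.measurable).ennreal_toReal.const_mul Mr
    have hρ0 : ∀ y, 0 ≤ ρt y := fun y => mul_nonneg hMrp.le ENNReal.toReal_nonneg
    have hfρ : ∀ᵐ y ∂mY, f (ι y) = (m univ)⁻¹ * ENNReal.ofReal (ρt y) := by
      filter_upwards [hft] with y hy
      rw [hρt]
      simp only
      rw [ENNReal.ofReal_mul hMrp.le, ← hMo, ← mul_assoc, ENNReal.inv_mul_cancel hM0 hMt, one_mul,
        ENNReal.ofReal_toReal hy.ne]
    have hμt : μ t = (dens m' ρt).map ι := by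
      have h1 : m.withDensity f = μ t := Measure.withDensity_rnDeriv_eq _ _ hac
      rw [← h1]
      conv_lhs => rw [← hmY]
      rw [tr_wd he hfm, hdens ρt hρm]
      congr 1
      exact withDensity_congr_ae hfρ
    have prd : dens m' ρt univ = 1 := by
      have h1 : μ t univ = 1 := measure_univ
      rwa [hμt, he.map_apply, preimage_univ] at h1
    have hl1 : ∫⁻ y, ENNReal.ofReal (ρt y) ∂m' = 1 := by
      rw [← setLIntegral_univ, ← withDensity_apply _ MeasurableSet.univ]
      exact prd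
    have hρi : Integrable ρt m' := by
      refine ⟨hρm.aestronglyMeasurable, ?_⟩
      rw [hasFiniteIntegral_iff_ofReal (Eventually.of_forall hρ0), hl1]
      exact ENNReal.one_lt_top
    have hρ1 : ∫ y, ρt y ∂m' = 1 := by
      rw [integral_eq_lintegral_of_nonneg_ae (Eventually.of_forall hρ0) hρm.aestronglyMeasurable,
        hl1]
      simp
    have hpi : Integrable (fun y => ρt y ^ (1 - 1 / N)) m' := by
      refine Integrable.mono' (hρi.add (integrable_const (1 : ℝ)))
        (hρm.pow_const _).aestronglyMeasurable (Eventually.of_forall fun y => ?_)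
      rw [Real.norm_eq_abs, abs_of_nonneg (Real.rpow_nonneg (hρ0 y) _)]
      simp only [Pi.add_apply]
      have h := Real.geom_mean_le_arith_mean2_weighted hp0.le hq0.le (hρ0 y) zero_le_one (by ring)
      rw [Real.one_rpow, mul_one] at h
      have h2 : 0 ≤ 1 / N * ρt y := mul_nonneg hq0.le (hρ0 y)
      have h3 : 0 ≤ 1 - 1 / N := hp0.le
      nlinarith [hρ0 y]
    refine ⟨ρt, hρm, hρ0, hρi, hρ1, hμt, ?_⟩
    have hN' := hineq t ht N le_rfl
    -- left side
    have hL : ∫⁻ z, (tauKN K N (1 - t) (dist z.1 z.2) * r ρ0 z.1 ^ (-(1 / N)) +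
            tauKN K N t (dist z.1 z.2) * r ρ1 z.2 ^ (-(1 / N))) ∂PX =
        ENNReal.ofReal (Mr ^ (1 / N)) * ∫⁻ z, (tauKN K N (1 - t) (dist (ι z.1) (ι z.2)) *
          ENNReal.ofReal (ρ0 z.1 ^ (-(1 / N))) +
        tauKN K N t (dist (ι z.1) (ι z.2)) * ENNReal.ofReal (ρ1 z.2 ^ (-(1 / N)))) ∂P := by
      conv_lhs => rw [← hPj]
      rw [hj.lintegral_map, ← lintegral_const_mul' _ _ ENNReal.ofReal_ne_top]
      apply lintegral_congr_ae
      filter_upwards [hpos0, hpos1] with z hz0 hz1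
      simp only [Prod.map_fst, Prod.map_snd]
      rw [hrp ρ0 z.1 hz0, hrp ρ1 z.2 hz1]
      ring
    have hR : ∫⁻ x, f x ^ (1 - 1 / N) ∂m =
        ENNReal.ofReal (Mr ^ (1 / N)) * ENNReal.ofReal (Ent N m' ρt) := by
      conv_lhs => rw [← hmY]
      rw [he.lintegral_map]
      have h1 : ∫⁻ y, f (ι y) ^ (1 - 1 / N) ∂mY =
          ∫⁻ y, ENNReal.ofReal (Mr ^ (-(1 - 1 / N))) * ENNReal.ofReal (ρt y ^ (1 - 1 / N)) ∂mY := by
        apply lintegral_congr_ae
        filter_upwards [hfρ] with y hy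
        rw [hy, hMo, ← ENNReal.ofReal_inv_of_pos hMrp, ← ENNReal.ofReal_mul (by positivity),
          ENNReal.ofReal_rpow_of_nonneg (mul_nonneg (by positivity) (hρ0 y)) hp0.le,
          Real.mul_rpow (by positivity) (hρ0 y), ENNReal.ofReal_mul (by positivity),
          Real.inv_rpow hMrp.le, Real.rpow_neg hMrp.le]
      rw [h1, lintegral_const_mul' _ _ ENNReal.ofReal_ne_top, hmm, lintegral_smul_measure,
        ← ofReal_integral_eq_lintegral_ofReal hpi
          (Eventually.of_forall fun y => Real.rpow_nonneg (hρ0 y) _), smul_eq_mul, hMo,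
        ← mul_assoc, ← ENNReal.ofReal_mul (by positivity)]
      congr 2
      have : Mr ^ (-(1 - 1 / N)) * Mr = Mr ^ (-(1 - 1 / N)) * Mr ^ (1 : ℝ) := by
        rw [Real.rpow_one]
      rw [this, ← Real.rpow_add hMrp]
      congr 1
      ring
    rw [hL, hR] at hN'
    have hc0 : ENNReal.ofReal (Mr ^ (1 / N)) ≠ 0 := by
      have : 0 < Mr ^ (1 / N) := Real.rpow_pos_of_pos hMrp _
      simpa using this
    exact (ENNReal.mul_le_mul_iff_right hc0 ENNReal.ofReal_ne_top).1 hN'
  -- distances below `π`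
  have hdist : ∀ᵐ z ∂P, dist z.1 z.2 < Real.pi := by
    obtain ⟨ρt, -, -, -, -, -, hle⟩ := hkey (1 / 2) ⟨by norm_num, by norm_num⟩
    have hfin : ∫⁻ z, tauKN K N (1 / 2) (dist (ι z.1) (ι z.2)) *
        ENNReal.ofReal (ρ1 z.2 ^ (-(1 / N))) ∂P ≠ ⊤ := by
      refine ne_top_of_le_ne_top ENNReal.ofReal_ne_top (le_trans ?_ hle)
      exact lintegral_mono fun z => le_add_self
    have htm : Measurable (fun z : Y × Y => tauKN K N (1 / 2) (dist (ι z.1) (ι z.2)) *
        ENNReal.ofReal (ρ1 z.2 ^ (-(1 / N)))) := by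
      have h1 : Measurable (tauKN K N (1 / 2)) := by
        unfold tauKN
        refine Measurable.ite (measurableSet_singleton (0 : ℝ)) measurable_const ?_
        refine Measurable.ite measurableSet_Iio ?_ measurable_const
        fun_prop
      have h2 : Measurable (fun z : Y × Y => dist (ι z.1) (ι z.2)) :=
        (he.measurable.comp measurable_fst).dist (he.measurable.comp measurable_snd)
      exact (h1.comp h2).mul ((m1.comp measurable_snd).pow_const _).ennreal_ofReal
    filter_upwards [ae_lt_top htm hfin, hpos1] with z hz hz1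
    by_contra hc
    rw [hι] at hc
    rw [tr_tau_top hK hN hc, ENNReal.top_mul] at hz
    · exact absurd hz (lt_irrefl _)
    · have : 0 < ρ1 z.2 ^ (-(1 / N)) := Real.rpow_pos_of_pos hz1 _
      simpa using this
  refine ⟨P, hPc, hPo, hdist, fun t ht => ?_⟩
  obtain ⟨ρt, hρm, hρ0, hρi, hρ1, hμt, hle⟩ := hkey t ht
  have prt : IsProbabilityMeasure (dens m' ρt) := by
    constructor
    rw [dens_univ hρi hρ0, hρ1]; simp
  refine ⟨ρt, hρm, hρ0, hρi, hρ1, ?_, ?_⟩
  · -- couplings
    obtain ⟨P0, φ0, ψ0, L0, c0, p0, -, -⟩ := exists_plan (dens m' ρ0) (dens m' ρt)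
      (by rw [measure_univ, measure_univ])
    obtain ⟨P1, φ1, ψ1, L1, c1, p1, -, -⟩ := exists_plan (dens m' ρt) (dens m' ρ1)
      (by rw [measure_univ, measure_univ])
    have f0 : IsFiniteMeasure P0 := c0.isFiniteMeasure
    have f1 : IsFiniteMeasure P1 := c1.isFiniteMeasure
    have hW : W2sq (μ 0) (μ 1) = W2sq ((dens m' ρ0).map ι) ((dens m' ρ1).map ι) := by
      rw [hμ0, hμ1, hrw ρ0 m0, hrw ρ1 m1]
    have w := tr_W2 hκ hι hPc hPo
    have w0 := tr_W2 hκ hι c0 p0.isOpt
    have w1 := tr_W2 hκ hι c1 p1.isOpt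
    have cn : ∀ Q : Measure (Y × Y), 0 ≤ cost Q := fun Q => integral_nonneg fun z => sq_nonneg _
    refine ⟨P0, P1, c0, c1, ?_, ?_⟩
    · have h1 := hgeo.2 0 ⟨le_rfl, zero_le_one⟩ t ⟨ht.1.le, ht.2.le⟩
      have e1 : (0 - t) ^ 2 = t ^ 2 := by ring
      rw [e1, hW, hμt, hμ0, hrw ρ0 m0] at h1
      have h2 : ENNReal.ofReal (cost P0) = ENNReal.ofReal (t ^ 2 * cost P) := by
        rw [w0, h1, ENNReal.ofReal_mul (by positivity), w]
        ring
      exact (ENNReal.ofReal_eq_ofReal_iff (cn P0) (mul_nonneg (by positivity) (cn P))).1 h2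
    · have h1 := hgeo.2 t ⟨ht.1.le, ht.2.le⟩ 1 ⟨zero_le_one, le_rfl⟩
      have e1 : (t - 1) ^ 2 = (1 - t) ^ 2 := by ring
      rw [e1, hW, hμt, hμ1, hrw ρ1 m1] at h1
      have h2 : ENNReal.ofReal (cost P1) = ENNReal.ofReal ((1 - t) ^ 2 * cost P) := by
        rw [w1, h1, ENNReal.ofReal_mul (by positivity), w]
        ring
      exact (ENNReal.ofReal_eq_ofReal_iff (cn P1) (mul_nonneg (by positivity) (cn P))).1 h2
  · -- the inequality
    set g : Y × Y → ℝ := fun z => tau N (1 - t) (dist z.1 z.2) * ρ0 z.1 ^ (-(1 / N)) +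
          tau N t (dist z.1 z.2) * ρ1 z.2 ^ (-(1 / N)) with hg
    have hdm : Measurable (fun z : Y × Y => dist z.1 z.2) := measurable_fst.dist measurable_snd
    have hgm : Measurable g := by
      refine Measurable.add ?_ ?_
      · exact ((tr_tau_meas N (1 - t)).comp hdm).mul ((m0.comp measurable_fst).pow_const _)
      · exact ((tr_tau_meas N t).comp hdm).mul ((m1.comp measurable_snd).pow_const _)
    have hτ : ∀ᵐ z ∂P, 0 ≤ tau N (1 - t) (dist z.1 z.2) ∧ 0 ≤ tau N t (dist z.1 z.2) := by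
      filter_upwards [hdist] with z hz
      have h1 := le_tau (N := N) (t := 1 - t) hN ⟨by linarith [ht.2], by linarith [ht.1]⟩
        dist_nonneg hz
      have h2 := le_tau (N := N) (t := t) hN ht dist_nonneg hz
      exact ⟨by linarith [ht.2], by linarith [ht.1]⟩
    have hg0 : 0 ≤ᵐ[P] g := by
      filter_upwards [hτ] with z hz
      exact add_nonneg (mul_nonneg hz.1 (Real.rpow_nonneg (n0 _) _))
        (mul_nonneg hz.2 (Real.rpow_nonneg (n1 _) _))
    have hgl : ∫⁻ z, ENNReal.ofReal (g z) ∂P ≤ ENNReal.ofReal (Ent N m' ρt) := by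
      refine le_trans (le_of_eq ?_) hle
      apply lintegral_congr_ae
      filter_upwards [hdist, hτ] with z hz hz'
      have hz2 : √(K / (N - 1)) * dist (ι z.1) (ι z.2) < Real.pi := by rw [← hι]; exact hz
      rw [hg]
      simp only
      rw [ENNReal.ofReal_add (mul_nonneg hz'.1 (Real.rpow_nonneg (n0 _) _))
        (mul_nonneg hz'.2 (Real.rpow_nonneg (n1 _) _)), ENNReal.ofReal_mul hz'.1,
        ENNReal.ofReal_mul hz'.2, tr_tau hK hN hz2, tr_tau hK hN hz2, ← hι]
    have hgi : Integrable g P := by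
      refine ⟨hgm.aestronglyMeasurable, ?_⟩
      rw [hasFiniteIntegral_iff_ofReal hg0]
      exact lt_of_le_of_lt hgl ENNReal.ofReal_lt_top
    refine ⟨hgi, ?_⟩
    rw [integral_eq_lintegral_of_nonneg_ae hg0 hgm.aestronglyMeasurable]
    have hE : 0 ≤ Ent N m' ρt := integral_nonneg fun y => Real.rpow_nonneg (hρ0 y) _
    calc (∫⁻ z, ENNReal.ofReal (g z) ∂P).toReal ≤ (ENNReal.ofReal (Ent N m' ρt)).toReal :=
          ENNReal.toReal_mono ENNReal.ofReal_ne_top hgl
      _ = Ent N m' ρt := ENNReal.toReal_ofReal hE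

end H13CD
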