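import Pool.Agent.Helper13.CD.Final
import Pool.Agent.Helper13.CD.GenTransfer
import Pool.Agent.Helper13.CD.GenSeq

open MeasureTheory Set Filter Topology
open scoped ENNReal NNReal

namespace H13CD

theorem main {X : Type*} [MetricSpace X] [CompleteSpace X] [TopologicalSpace.SeparableSpace X]
    [MeasurableSpace X] [BorelSpace X] (m : Measure X) (hm : m ≠ 0)
    (hb : ∀ s : Set X, Bornology.IsBounded s → m s < ⊤) (K N : ℝ) (hK : 0 < K) (hN : 1 < N)
    (hCD : CD K N m) (hC : bestConst m = ENNReal.ofReal ((N - 1) / (K * N))) :
    Metric.diam m.support = Real.pi * √((N - 1) / K) := by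
  have hN1 : 0 < N - 1 := by linarith
  refine le_antisymm ?_ ?_
  · refine Metric.diam_le_of_forall_dist_le (by positivity) fun x hx y hy => ?_
    exact dist_le hK hN hb hCD hx hy
  · haveI : IsFiniteMeasure m := ⟨measure_univ_lt_top hK hN hb hCD⟩
    have hcomp := isCompact_support hK hN hm hb hCD
    have hκ : 0 < √(K / (N - 1)) := Real.sqrt_pos.mpr (by positivity)
    obtain ⟨Y, _, _, _, _, ι, hι, hr⟩ := exists_model hκ hcomp
    have hcdr := transfer_CD hK hN hm hCD ι hι hr
    have hmeas : MeasurableEmbedding ι := by
      have h1 : LipschitzWith (Real.toNNReal (√(K / (N - 1)))⁻¹) ι := by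
        refine LipschitzWith.of_dist_le_mul fun a b => ?_
        rw [hι a b, Real.coe_toNNReal _ (by positivity)]
        rw [← mul_assoc, inv_mul_cancel₀ hκ.ne', one_mul]
      have hinj : Function.Injective ι := by
        intro a b hab
        have := hι a b
        rw [hab, dist_self, mul_zero] at this
        exact dist_eq_zero.mp this
      exact (h1.continuous.isClosedEmbedding hinj).measurableEmbedding
    haveI : IsProbabilityMeasure ((m univ)⁻¹ • m.comap ι) := by
      refine ⟨?_⟩
      rw [Measure.smul_apply, hmeas.comap_apply, image_univ, hr, smul_eq_mul]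
      have h1 : m m.support = m univ := by
        rw [← measure_add_measure_compl (μ := m) (Measure.isClosed_support).measurableSet (s := m.support),
          Measure.measure_compl_support, add_zero]
      rw [h1]
      exact ENNReal.inv_mul_cancel (by simpa using hm) (measure_ne_top m univ)
    have key := reduced_main (m := (m univ)⁻¹ • m.comap ι) hN hcdr fun δ hδ =>
      transfer_seq hK hN hm hC.ge ι hι hr hδ
    have h2 : Metric.diam (univ : Set Y) ≤ √(K / (N - 1)) * Metric.diam m.support := by
      refine Metric.diam_le_of_forall_dist_le (by positivity) fun a _ b _ => ?_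
      rw [hι a b]
      refine mul_le_mul_of_nonneg_left ?_ hκ.le
      exact Metric.dist_le_diam_of_mem hcomp.isBounded (hr ▸ mem_range_self a)
        (hr ▸ mem_range_self b)
    have h3 : √((N - 1) / K) = (√(K / (N - 1)))⁻¹ := by
      rw [← Real.sqrt_inv, inv_div]
    rw [h3, ← div_eq_mul_inv, div_le_iff₀ hκ]
    linarith [key.trans h2]

end H13CD
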