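import Pool.Agent.Helper13.CD.Slope

/-!
# Module A0: base facts on optimal transport on a compact metric space (quadratic cost)

Arzela-Ascoli for equi-Lipschitz sequences, the `c`-transform, normalisation of potentials,
optimality criterion.
-/

open MeasureTheory Set Filter Topology
open scoped ENNReal NNReal

namespace H13CD

section general
variable {Y : Type*} [TopologicalSpace Y] [CompactSpace Y] [MeasurableSpace Y]
  [OpensMeasurableSpace Y]

theorem ot_integrable (P : Measure Y) [IsFiniteMeasure P] {F : Y → ℝ} (hF : Continuous F) :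
    Integrable F P := by
  obtain ⟨B, hB⟩ := (isCompact_univ (X := Y)).exists_bound_of_continuousOn hF.continuousOn
  exact Integrable.of_bound hF.aestronglyMeasurable B (ae_of_all _ fun z => hB z (mem_univ _))

/-- joint convergence: weak convergence of measures, uniform convergence of functions -/
theorem ot_int_unif {μn : ℕ → ProbabilityMeasure Y} {μ : ProbabilityMeasure Y}
    (ht : Tendsto μn atTop (𝓝 μ)) {fn : ℕ → Y → ℝ} {f : Y → ℝ} (hfn : ∀ n, Continuous (fn n))
    (hf : Continuous f) (hu : TendstoUniformly fn f atTop) :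
    Tendsto (fun n => ∫ y, fn n y ∂(μn n : Measure Y)) atTop (𝓝 (∫ y, f y ∂(μ : Measure Y))) := by
  have h1 := (ProbabilityMeasure.tendsto_iff_forall_integral_tendsto.mp ht)
    (BoundedContinuousFunction.mkOfCompact ⟨_, hf⟩)
  simp only [BoundedContinuousFunction.mkOfCompact_apply, ContinuousMap.coe_mk] at h1
  have h2 : Tendsto (fun n => ∫ y, fn n y ∂(μn n : Measure Y) - ∫ y, f y ∂(μn n : Measure Y))
      atTop (𝓝 0) := by
    rw [Metric.tendsto_atTop]
    intro ε hε
    have h3 := Metric.tendstoUniformly_iff.mp hu (ε / 2) (half_pos hε)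
    obtain ⟨n0, hn0⟩ := eventually_atTop.mp h3
    refine ⟨n0, fun n hn => ?_⟩
    rw [← integral_sub (ot_integrable _ (hfn n)) (ot_integrable _ hf), dist_zero_right]
    have h4 : ‖∫ y, (fn n y - f y) ∂(μn n : Measure Y)‖ ≤
        ε / 2 * (μn n : Measure Y).real univ := by
      refine norm_integral_le_of_norm_le_const (ae_of_all _ fun y => ?_)
      have := hn0 n hn y
      rw [Real.dist_eq, abs_sub_comm] at this
      rw [Real.norm_eq_abs]
      exact this.le
    rw [probReal_univ, mul_one] at h4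
    linarith
  have h3 := h2.add h1
  simpa using h3

end general

section ascoli
variable {Y : Type*} [MetricSpace Y] [CompactSpace Y]

/-- Arzela-Ascoli for equi-Lipschitz sequences -/
theorem ot_subseq {K : ℝ≥0} {B : ℝ} {φn : ℕ → Y → ℝ} (hL : ∀ n, LipschitzWith K (φn n))
    (hB : ∀ n x, |φn n x| ≤ B) :
    ∃ (φ : Y → ℝ) (k : ℕ → ℕ), StrictMono k ∧ Continuous φ ∧
      TendstoUniformly (fun n => φn (k n)) φ atTop := by
  let F : ℕ → BoundedContinuousFunction Y ℝ := fun n =>
    BoundedContinuousFunction.mkOfCompact ⟨φn n, (hL n).continuous⟩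
  have hA : IsCompact (closure (range F)) := by
    refine BoundedContinuousFunction.arzela_ascoli (Icc (-B) B) isCompact_Icc (range F) ?_ ?_
    · rintro _ x ⟨n, rfl⟩
      exact abs_le.mp (hB n x)
    · have h1 : UniformEquicontinuous (fun f : range F => (f : Y → ℝ)) := by
        refine LipschitzWith.uniformEquicontinuous _ K ?_
        rintro ⟨_, n, rfl⟩
        exact hL n
      exact h1.equicontinuous
  obtain ⟨a, -, k, hk, ha⟩ := hA.isSeqCompact (fun n => subset_closure (mem_range_self (f := F) n))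
  refine ⟨a, k, hk, a.continuous, ?_⟩
  exact BoundedContinuousFunction.tendsto_iff_tendstoUniformly.mp ha

end ascoli

section ctransform
variable {X : Type*} [MetricSpace X]

/-- the transform `inf_y (d(x,y)^2/2 - ψ y)` -/
noncomputable def otCtr (ψ : X → ℝ) (x : X) : ℝ := ⨅ y, (dist x y ^ 2 / 2 - ψ y)

theorem otCtr_bdd {ψ : X → ℝ} {b : ℝ} (hb : ∀ y, ψ y ≤ b) (x : X) :
    BddBelow (range fun y => dist x y ^ 2 / 2 - ψ y) := by
  refine ⟨-b, ?_⟩
  rintro _ ⟨y, rfl⟩
  have h1 := hb y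
  have h2 : 0 ≤ dist x y ^ 2 / 2 := by positivity
  simp only
  linarith

theorem otCtr_add_le {ψ : X → ℝ} {b : ℝ} (hb : ∀ y, ψ y ≤ b) (x y : X) :
    otCtr ψ x + ψ y ≤ dist x y ^ 2 / 2 := by
  have := ciInf_le (otCtr_bdd hb x) y
  unfold otCtr
  linarith

theorem le_otCtr [Nonempty X] {ψ : X → ℝ} {x : X} {a : ℝ} (h : ∀ y, a + ψ y ≤ dist x y ^ 2 / 2) :
    a ≤ otCtr ψ x := by
  unfold otCtr
  refine le_ciInf fun y => ?_
  have := h y
  linarith

theorem lipschitz_otCtr [Nonempty X] {ψ : X → ℝ} {b : ℝ} (hb : ∀ y, ψ y ≤ b) {D : ℝ≥0}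
    (hD : ∀ x y : X, dist x y ≤ D) : LipschitzWith D (otCtr ψ) := by
  refine LipschitzWith.of_le_add_mul D fun x y => ?_
  rw [← sub_le_iff_le_add]
  refine le_otCtr fun w => ?_
  have h1 := otCtr_add_le hb x w
  have h2 : dist x w ≤ dist x y + dist y w := dist_triangle _ _ _
  have h3 := hD x w
  have h4 := hD y w
  have h5 : (0 : ℝ) ≤ dist x y := dist_nonneg
  have h6 : (0 : ℝ) ≤ dist x w := dist_nonneg
  have h7 : (0 : ℝ) ≤ dist y w := dist_nonneg
  have h8 : dist x w ^ 2 / 2 ≤ dist y w ^ 2 / 2 + D * dist x y := by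
    rcases le_total (dist x w) (dist y w) with h | h
    · have : dist x w ^ 2 ≤ dist y w ^ 2 := by gcongr
      have h9 : 0 ≤ (D : ℝ) * dist x y := mul_nonneg D.2 h5
      linarith
    · have h9 : (dist x w - dist y w) * (dist x w + dist y w) ≤ dist x y * (2 * D) := by
        refine mul_le_mul (by linarith) (by linarith) (by linarith) h5
      nlinarith
  linarith

end ctransform

variable {X : Type*} [MetricSpace X] [CompactSpace X] [MeasurableSpace X] [BorelSpace X]

theorem ot_continuous_cost : Continuous fun z : X × X => dist z.1 z.2 ^ 2 / 2 :=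
  ((continuous_fst.dist continuous_snd).pow 2).div_const 2

theorem ot_cost_eq_half (P : Measure (X × X)) :
    cost P = 2 * ∫ z, dist z.1 z.2 ^ 2 / 2 ∂P := by
  unfold cost
  rw [← integral_const_mul]
  refine integral_congr_ae (ae_of_all _ fun z => ?_)
  simp only
  ring

theorem ot_split (P : Measure (X × X)) [IsFiniteMeasure P] {φ ψ : X → ℝ} (hφ : Continuous φ)
    (hψ : Continuous ψ) :
    ∫ z, (φ z.1 + ψ z.2) ∂P = ∫ x, φ x ∂(P.map Prod.fst) + ∫ y, ψ y ∂(P.map Prod.snd) := by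
  have i1 : Integrable (fun z : X × X => φ z.1) P := ot_integrable P (hφ.comp continuous_fst)
  have i2 : Integrable (fun z : X × X => ψ z.2) P := ot_integrable P (hψ.comp continuous_snd)
  rw [integral_add i1 i2,
    integral_map measurable_fst.aemeasurable hφ.aestronglyMeasurable,
    integral_map measurable_snd.aemeasurable hψ.aestronglyMeasurable]

theorem ot_le (P : Measure (X × X)) [IsFiniteMeasure P] {φ ψ : X → ℝ} (hφ : Continuous φ)
    (hψ : Continuous ψ) (h : ∀ x y, φ x + ψ y ≤ dist x y ^ 2 / 2) :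
    2 * (∫ x, φ x ∂(P.map Prod.fst) + ∫ y, ψ y ∂(P.map Prod.snd)) ≤ cost P := by
  rw [ot_cost_eq_half, ← ot_split P hφ hψ]
  refine mul_le_mul_of_nonneg_left ?_ (by norm_num)
  exact integral_mono (ot_integrable P ((hφ.comp continuous_fst).add (hψ.comp continuous_snd)))
    (ot_integrable P ot_continuous_cost) fun z => h z.1 z.2

theorem Pot.cost_eq {P : Measure (X × X)} [IsFiniteMeasure P] {φ ψ : X → ℝ} (h : Pot φ ψ P) :
    cost P = 2 * (∫ x, φ x ∂(P.map Prod.fst) + ∫ y, ψ y ∂(P.map Prod.snd)) := by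
  rw [ot_cost_eq_half, ← ot_split P h.1 h.2.1]
  congr 1
  refine integral_congr_ae ?_
  filter_upwards [h.2.2.2] with z hz
  exact hz.symm

/-- equality of the integrals gives equality a.e. -/
theorem ot_ae_of_eq {P : Measure (X × X)} [IsFiniteMeasure P] {φ ψ : X → ℝ} (hφ : Continuous φ)
    (hψ : Continuous ψ) (h : ∀ x y, φ x + ψ y ≤ dist x y ^ 2 / 2)
    (he : ∫ z, dist z.1 z.2 ^ 2 / 2 ∂P ≤ ∫ z, (φ z.1 + ψ z.2) ∂P) : Pot φ ψ P := by
  refine ⟨hφ, hψ, h, ?_⟩
  have hc1 : Continuous fun z : X × X => φ z.1 + ψ z.2 :=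
    (hφ.comp continuous_fst).add (hψ.comp continuous_snd)
  have i1 : Integrable (fun z : X × X => φ z.1 + ψ z.2) P := ot_integrable P hc1
  have i2 : Integrable (fun z : X × X => dist z.1 z.2 ^ 2 / 2) P :=
    ot_integrable P ot_continuous_cost
  have hnn : ∀ z : X × X, 0 ≤ dist z.1 z.2 ^ 2 / 2 - (φ z.1 + ψ z.2) := fun z =>
    sub_nonneg.mpr (h z.1 z.2)
  have i3 : Integrable (fun z : X × X => dist z.1 z.2 ^ 2 / 2 - (φ z.1 + ψ z.2)) P := i2.sub i1
  have h0 : ∫ z, (dist z.1 z.2 ^ 2 / 2 - (φ z.1 + ψ z.2)) ∂P = 0 := by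
    refine le_antisymm ?_ (integral_nonneg hnn)
    rw [integral_sub i2 i1]
    linarith
  have h1 := (integral_eq_zero_iff_of_nonneg (μ := P) hnn i3).mp h0
  filter_upwards [h1] with z hz
  have hz' : dist z.1 z.2 ^ 2 / 2 - (φ z.1 + ψ z.2) = 0 := hz
  linarith

theorem Pot.isOpt {P : Measure (X × X)} [IsFiniteMeasure P] {φ ψ : X → ℝ} (h : Pot φ ψ P) :
    IsOpt P := by
  intro Q h1 h2
  have hQ : IsFiniteMeasure Q := by
    constructor
    have e1 : Q.map Prod.fst univ = Q univ := by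
      rw [Measure.map_apply measurable_fst MeasurableSet.univ, preimage_univ]
    have e2 : P.map Prod.fst univ = P univ := by
      rw [Measure.map_apply measurable_fst MeasurableSet.univ, preimage_univ]
    rw [← e1, h1, e2]
    exact measure_lt_top _ _
  rw [h.cost_eq, ← h1, ← h2]
  exact ot_le Q h.1 h.2.1 h.2.2.1

/-- any cheaper (hence optimal) plan with the same marginals has the same potentials -/
theorem Pot.of_le {P Q : Measure (X × X)} [IsFiniteMeasure P] {φ ψ : X → ℝ} (h : Pot φ ψ P)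
    (h1 : Q.map Prod.fst = P.map Prod.fst) (h2 : Q.map Prod.snd = P.map Prod.snd)
    (hc : cost Q ≤ cost P) : Pot φ ψ Q := by
  have hQ : IsFiniteMeasure Q := by
    constructor
    have e1 : Q.map Prod.fst univ = Q univ := by
      rw [Measure.map_apply measurable_fst MeasurableSet.univ, preimage_univ]
    have e2 : P.map Prod.fst univ = P univ := by
      rw [Measure.map_apply measurable_fst MeasurableSet.univ, preimage_univ]
    rw [← e1, h1, e2]
    exact measure_lt_top _ _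
  refine ot_ae_of_eq h.1 h.2.1 h.2.2.1 ?_
  rw [h.cost_eq, ← h1, ← h2, ← ot_split Q h.1 h.2.1, ot_cost_eq_half] at hc
  linarith

/-- potentials survive absolutely continuous changes (restriction, weighting) -/
theorem Pot.of_ac {P Q : Measure (X × X)} {φ ψ : X → ℝ} (h : Pot φ ψ P) (hQ : Q ≪ P) :
    Pot φ ψ Q :=
  ⟨h.1, h.2.1, h.2.2.1, hQ.ae_le h.2.2.2⟩

/-- normalised potentials with Lipschitz constant and bound depending only on the diameter
(function version) -/
theorem ot_normalise [Nonempty X] {φ ψ : X → ℝ} (hψ : Continuous ψ)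
    (h : ∀ x y, φ x + ψ y ≤ dist x y ^ 2 / 2) {D : ℝ≥0} (hD : ∀ x y : X, dist x y ≤ D) :
    ∃ (φ' ψ' : X → ℝ) (a : ℝ), LipschitzWith D φ' ∧ LipschitzWith D ψ' ∧
      (∀ x y, φ' x + ψ' y ≤ dist x y ^ 2 / 2) ∧ (∀ x, φ x ≤ φ' x + a) ∧ (∀ y, ψ y ≤ ψ' y - a) ∧
      (∀ x, |φ' x| ≤ (D : ℝ) ^ 2) ∧ ∀ x, |ψ' x| ≤ (D : ℝ) ^ 2 := by
  obtain ⟨b, hb⟩ := (isCompact_univ (X := X)).exists_bound_of_continuousOn hψ.continuousOn
  have hb' : ∀ y, ψ y ≤ b := fun y => (le_abs_self _).trans (hb y (mem_univ _))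
  have x0 : X := Classical.arbitrary X
  set φ1 := otCtr ψ with hφ1
  have l1 : LipschitzWith D φ1 := lipschitz_otCtr hb' hD
  have hφ1b : ∀ x, φ1 x ≤ φ1 x0 + (D : ℝ) ^ 2 := fun x => by
    have h1 := l1.dist_le_mul x x0
    rw [Real.dist_eq] at h1
    have h2 := (le_abs_self _).trans h1
    have h3 : (D : ℝ) * dist x x0 ≤ D * D := mul_le_mul_of_nonneg_left (hD _ _) D.2
    nlinarith
  set ψ1 := otCtr φ1 with hψ1
  have l2 : LipschitzWith D ψ1 := lipschitz_otCtr hφ1b hD
  have a1 : ∀ x, φ x ≤ φ1 x := fun x => le_otCtr fun y => h x y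
  have a2 : ∀ x y, φ1 x + ψ y ≤ dist x y ^ 2 / 2 := fun x y => otCtr_add_le hb' x y
  have a3 : ∀ y, ψ y ≤ ψ1 y := fun y => le_otCtr fun x => by
    have := a2 x y
    rw [dist_comm] at this
    linarith
  have a4 : ∀ x y, φ1 x + ψ1 y ≤ dist x y ^ 2 / 2 := fun x y => by
    have := otCtr_add_le hφ1b y x
    rw [dist_comm] at this
    linarith
  refine ⟨fun x => φ1 x - φ1 x0, fun y => ψ1 y + φ1 x0, φ1 x0, ?_, ?_, fun x y => ?_,
    fun x => ?_, fun y => ?_, fun x => ?_, fun y => ?_⟩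
  · refine LipschitzWith.of_dist_le_mul fun x y => ?_
    have := l1.dist_le_mul x y
    rw [Real.dist_eq] at this ⊢
    have e : φ1 x - φ1 x0 - (φ1 y - φ1 x0) = φ1 x - φ1 y := by ring
    rw [e]
    exact this
  · refine LipschitzWith.of_dist_le_mul fun x y => ?_
    have := l2.dist_le_mul x y
    rw [Real.dist_eq] at this ⊢
    have e : ψ1 x + φ1 x0 - (ψ1 y + φ1 x0) = ψ1 x - ψ1 y := by ring
    rw [e]
    exact this
  · have := a4 x y
    linarith
  · have := a1 x
    linarith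
  · have := a3 y
    linarith
  · have h1 := l1.dist_le_mul x x0
    rw [Real.dist_eq] at h1
    have h3 : (D : ℝ) * dist x x0 ≤ D * D := mul_le_mul_of_nonneg_left (hD _ _) D.2
    simp only
    nlinarith
  · have c1 := a4 x0 y
    have c2 : dist x0 y ^ 2 ≤ (D : ℝ) ^ 2 := by
      have := hD x0 y
      gcongr
    have c3 : -(φ1 x0 + (D : ℝ) ^ 2) ≤ ψ1 y := le_otCtr fun x => by
      have d1 := hφ1b x
      have d2 : 0 ≤ dist y x ^ 2 / 2 := by positivity
      linarith
    rw [abs_le]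
    constructor
    · simp only
      linarith
    · simp only
      nlinarith [sq_nonneg (D : ℝ)]

/-- normalised potentials with Lipschitz constant and bound depending only on the diameter -/
theorem Pot.normalise [Nonempty X] {P : Measure (X × X)} {φ ψ : X → ℝ} (h : Pot φ ψ P) {D : ℝ≥0}
    (hD : ∀ x y : X, dist x y ≤ D) :
    ∃ φ' ψ' : X → ℝ, Pot φ' ψ' P ∧ LipschitzWith D φ' ∧ LipschitzWith D ψ' ∧
      (∀ x, |φ' x| ≤ (D : ℝ) ^ 2) ∧ ∀ x, |ψ' x| ≤ (D : ℝ) ^ 2 := by
  obtain ⟨φ', ψ', a, l1, l2, h1, h2, h3, h4, h5⟩ := ot_normalise h.2.1 h.2.2.1 hD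
  refine ⟨φ', ψ', ⟨l1.continuous, l2.continuous, h1, ?_⟩, l1, l2, h4, h5⟩
  filter_upwards [h.2.2.2] with z hz
  have b1 := h2 z.1
  have b2 := h3 z.2
  have b3 := h1 z.1 z.2
  linarith

theorem ot_exists_diam : ∃ D : ℝ≥0, ∀ x y : X, dist x y ≤ D := by
  obtain ⟨D, hD⟩ := Metric.isBounded_iff.mp (isCompact_univ (X := X)).isBounded
  exact ⟨⟨max D 0, le_max_right _ _⟩,
    fun x y => (hD (mem_univ x) (mem_univ y)).trans (le_max_left _ _)⟩

end H13CD
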