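import Pool.Agent.Helper13.CD.OTbase

/-!
# Module A2: Kantorovich duality with attained potentials (compact metric space)

* A2 `exists_plan` (Kantorovich duality with attained potentials).  Proof: Let `c(x,y)=d^2/2`,
  `p h = inf { ∫φ dμ + ∫ψ dν : φ x + ψ y ≥ h (x,y) }` for `h ∈ C(X×X)`.  `p` is sublinear
  (bounded below by `-‖h‖ M`, `M = μ univ`).  Hahn-Banach (`exists_extension_of_le_sublinear`)
  gives a linear `Λ ≤ p` with `Λ(-c) = p(-c)`.  `Λ h ≤ p h ≤ 0` for `h ≤ 0`, so `Λ` is positive;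
  `Λ (φ⊕ψ) = ∫φ+∫ψ`.  Riesz (`RealRMK`) gives `P`.  `∫ c dP = -p(-c)
  = sup {∫φ dμ+∫ψ dν : φ⊕ψ ≤ c}`.  The sup is attained: replace `φ` by
  `φ' x = inf_y (c(x,y) - ψ y)`, `ψ' y = inf_x (c(x,y) - φ' x)`, both `D`-Lipschitz, normalise
  `φ' x₀ = 0` by shifting, Arzela-Ascoli.  For the attained pair `∫ (c - φ⊕ψ) dP = 0`, hence
  equality a.e.
-/

open MeasureTheory Set Filter Topology
open scoped ENNReal NNReal CompactlySupported

namespace H13CD

/-- Hahn-Banach: a linear functional below a sublinear one, touching it at a given point -/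
theorem od_hahn {E : Type*} [AddCommGroup E] [Module ℝ E] (p : E → ℝ)
    (p_hom : ∀ c : ℝ, 0 < c → ∀ x, p (c • x) = c * p x) (p_add : ∀ x y, p (x + y) ≤ p x + p y)
    (x0 : E) : ∃ g : E →ₗ[ℝ] ℝ, g x0 = p x0 ∧ ∀ x, g x ≤ p x := by
  have p0 : p 0 = 0 := by
    have h := p_hom 2 (by norm_num) 0
    rw [smul_zero] at h
    linarith
  by_cases hx : x0 = 0
  · subst hx
    obtain ⟨g, -, hg⟩ := exists_extension_of_le_sublinear (⊥ : E →ₗ.[ℝ] ℝ) p p_hom p_add (by
      intro x
      have hx0 : (x : E) = 0 := (Submodule.mem_bot ℝ).mp x.2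
      have e1 : x = 0 := Subtype.ext hx0
      rw [e1]
      simp [p0])
    exact ⟨g, by rw [map_zero, p0], hg⟩
  · obtain ⟨g, hg1, hg⟩ := exists_extension_of_le_sublinear
      (LinearPMap.mkSpanSingleton x0 (p x0) hx : E →ₗ.[ℝ] ℝ) p p_hom p_add (by
      rintro ⟨x, hxm⟩
      obtain ⟨t, rfl⟩ := Submodule.mem_span_singleton.mp hxm
      rw [LinearPMap.mkSpanSingleton'_apply]
      simp only [smul_eq_mul, RingHom.id_apply]
      rcases lt_trichotomy t 0 with ht | ht | ht
      · have h1 := p_add (t • x0) ((-t) • x0)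
        rw [← add_smul, add_neg_cancel, zero_smul, p0, p_hom (-t) (by linarith)] at h1
        linarith
      · subst ht
        simp [p0]
      · rw [p_hom t ht])
    refine ⟨g, ?_, hg⟩
    have h1 := hg1 ⟨x0, Submodule.mem_span_singleton_self x0⟩
    simp only at h1
    rw [h1]
    exact LinearPMap.mkSpanSingleton'_apply_self x0 (p x0) _ _

variable {X : Type*} [MetricSpace X] [CompactSpace X] [MeasurableSpace X] [BorelSpace X]

/-- the values `∫φ dμ + ∫ψ dν` over pairs with `h ≤ φ⊕ψ` -/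
def odS (μ ν : Measure X) (h : C(X × X, ℝ)) : Set ℝ :=
  {r | ∃ φ ψ : C(X, ℝ), (∀ x y, h (x, y) ≤ φ x + ψ y) ∧ r = ∫ x, φ x ∂μ + ∫ y, ψ y ∂ν}

theorem od_low (μ ν : Measure X) [IsFiniteMeasure μ] [IsFiniteMeasure ν] [Nonempty X]
    (hm : μ univ = ν univ) {φ ψ : X → ℝ} (hφ : Continuous φ) (hψ : Continuous ψ) {b : ℝ}
    (h : ∀ x y, b ≤ φ x + ψ y) : b * μ.real univ ≤ ∫ x, φ x ∂μ + ∫ y, ψ y ∂ν := by
  obtain ⟨x0, -, hx0⟩ := (isCompact_univ (X := X)).exists_isMinOn univ_nonempty hφ.continuousOn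
  have h1 : ∀ x, φ x0 ≤ φ x := fun x => hx0 (mem_univ x)
  have h2 : ∀ y, b - φ x0 ≤ ψ y := fun y => by linarith [h x0 y]
  have h3 := integral_mono (μ := μ) (integrable_const (φ x0)) (ot_integrable μ hφ) h1
  have h4 := integral_mono (μ := ν) (integrable_const (b - φ x0)) (ot_integrable ν hψ) h2
  rw [integral_const, smul_eq_mul] at h3 h4
  have h5 : ν.real univ = μ.real univ := by
    unfold Measure.real
    rw [hm]
  rw [h5] at h4
  nlinarith

theorem odS_bdd (μ ν : Measure X) [IsFiniteMeasure μ] [IsFiniteMeasure ν] [Nonempty X]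
    (hm : μ univ = ν univ) (h : C(X × X, ℝ)) : BddBelow (odS μ ν h) := by
  refine ⟨-‖h‖ * μ.real univ, ?_⟩
  rintro r ⟨φ, ψ, h1, rfl⟩
  refine od_low μ ν hm φ.continuous ψ.continuous fun x y => ?_
  have := h.norm_coe_le_norm (x, y)
  rw [Real.norm_eq_abs] at this
  linarith [(abs_le.mp this).1, h1 x y]

theorem odS_nonempty (μ ν : Measure X) (h : C(X × X, ℝ)) : (odS μ ν h).Nonempty := by
  refine ⟨_, ContinuousMap.const X ‖h‖, 0, fun x y => ?_, rfl⟩
  have := h.norm_coe_le_norm (x, y)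
  rw [Real.norm_eq_abs] at this
  simp only [ContinuousMap.const_apply, ContinuousMap.zero_apply, add_zero]
  linarith [(abs_le.mp this).2]

theorem odS_smul (μ ν : Measure X) (h : C(X × X, ℝ)) {c : ℝ} (hc : 0 < c) {r : ℝ}
    (hr : r ∈ odS μ ν h) : c * r ∈ odS μ ν (c • h) := by
  obtain ⟨φ, ψ, h1, rfl⟩ := hr
  refine ⟨c • φ, c • ψ, fun x y => ?_, ?_⟩
  · simp only [ContinuousMap.smul_apply, smul_eq_mul]
    rw [← mul_add]
    exact mul_le_mul_of_nonneg_left (h1 x y) hc.le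
  · simp only [ContinuousMap.smul_apply, smul_eq_mul]
    rw [integral_const_mul, integral_const_mul]
    ring

theorem odS_add (μ ν : Measure X) [IsFiniteMeasure μ] [IsFiniteMeasure ν] (h k : C(X × X, ℝ))
    {r s : ℝ} (hr : r ∈ odS μ ν h) (hs : s ∈ odS μ ν k) : r + s ∈ odS μ ν (h + k) := by
  obtain ⟨φ, ψ, h1, rfl⟩ := hr
  obtain ⟨φ', ψ', h2, rfl⟩ := hs
  refine ⟨φ + φ', ψ + ψ', fun x y => ?_, ?_⟩
  · simp only [ContinuousMap.add_apply]
    linarith [h1 x y, h2 x y]
  · simp only [ContinuousMap.add_apply]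
    rw [integral_add (ot_integrable μ φ.continuous) (ot_integrable μ φ'.continuous),
      integral_add (ot_integrable ν ψ.continuous) (ot_integrable ν ψ'.continuous)]
    ring

/-- Kantorovich duality: a coupling whose cost is the dual value -/
theorem od_dual (μ ν : Measure X) [IsFiniteMeasure μ] [IsFiniteMeasure ν] [Nonempty X]
    (hm : μ univ = ν univ) :
    ∃ P : Measure (X × X), IsFiniteMeasure P ∧ Cpl P μ ν ∧
      ∀ r : ℝ, (∀ φ ψ : X → ℝ, Continuous φ → Continuous ψ →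
        (∀ x y, φ x + ψ y ≤ dist x y ^ 2 / 2) → ∫ x, φ x ∂μ + ∫ y, ψ y ∂ν ≤ r) →
        ∫ z, dist z.1 z.2 ^ 2 / 2 ∂P ≤ r := by
  set p : C(X × X, ℝ) → ℝ := fun h => sInf (odS μ ν h) with hp
  have p_le_smul : ∀ c : ℝ, 0 < c → ∀ h, p (c • h) ≤ c * p h := by
    intro c hc h
    rw [← div_le_iff₀' hc]
    refine le_csInf (odS_nonempty μ ν h) fun r hr => ?_
    rw [div_le_iff₀' hc]
    exact csInf_le (odS_bdd μ ν hm _) (odS_smul μ ν h hc hr)
  have p_hom : ∀ c : ℝ, 0 < c → ∀ h, p (c • h) = c * p h := by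
    intro c hc h
    refine le_antisymm (p_le_smul c hc h) ?_
    have h1 := p_le_smul c⁻¹ (by positivity) (c • h)
    rw [smul_smul, inv_mul_cancel₀ hc.ne', one_smul] at h1
    have h2 := mul_le_mul_of_nonneg_left h1 hc.le
    rw [← mul_assoc, mul_inv_cancel₀ hc.ne', one_mul] at h2
    exact h2
  have p_add : ∀ h k, p (h + k) ≤ p h + p k := by
    intro h k
    refine le_of_forall_pos_le_add fun ε hε => ?_
    obtain ⟨r, hr, hr1⟩ := exists_lt_of_csInf_lt (odS_nonempty μ ν h)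
      (lt_add_of_pos_right (sInf (odS μ ν h)) (half_pos hε))
    obtain ⟨s, hs, hs1⟩ := exists_lt_of_csInf_lt (odS_nonempty μ ν k)
      (lt_add_of_pos_right (sInf (odS μ ν k)) (half_pos hε))
    have h1 := csInf_le (odS_bdd μ ν hm (h + k)) (odS_add μ ν h k hr hs)
    simp only [hp]
    linarith
  set c0 : C(X × X, ℝ) := ⟨fun z => dist z.1 z.2 ^ 2 / 2, ot_continuous_cost⟩ with hc0
  obtain ⟨g, hg0, hg⟩ := od_hahn p p_hom p_add (-c0)
  -- upper bounds
  have hgle : ∀ (h : C(X × X, ℝ)) (φ ψ : C(X, ℝ)), (∀ x y, h (x, y) ≤ φ x + ψ y) →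
      g h ≤ ∫ x, φ x ∂μ + ∫ y, ψ y ∂ν := fun h φ ψ h1 =>
    (hg h).trans (csInf_le (odS_bdd μ ν hm h) ⟨φ, ψ, h1, rfl⟩)
  have hgpos : ∀ h : C(X × X, ℝ), 0 ≤ h → 0 ≤ g h := by
    intro h hh
    have h1 := hgle (-h) 0 0 (fun x y => by
      have := hh (x, y)
      simp only [ContinuousMap.neg_apply, ContinuousMap.zero_apply, add_zero]
      have h2 : (0 : ℝ) ≤ h (x, y) := this
      linarith)
    rw [map_neg] at h1
    simp only [ContinuousMap.zero_apply, integral_zero, add_zero] at h1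
    linarith
  have hgmono : ∀ h k : C(X × X, ℝ), h ≤ k → g h ≤ g k := by
    intro h k hhk
    have := hgpos (k - h) (sub_nonneg.mpr hhk)
    rw [map_sub] at this
    linarith
  let Λ : C_c(X × X, ℝ) →ₚ[ℝ] ℝ :=
  { toFun f := g f.toContinuousMap
    map_add' f f' := by
      rw [← map_add]
      rfl
    map_smul' c f := by
      simp only [RingHom.id_apply]
      rw [← map_smul]
      rfl
    monotone' f f' hff' := hgmono _ _ hff' }
  have hΛ : ∀ h : C(X × X, ℝ), ∫ z, h z ∂(RealRMK.rieszMeasure Λ) = g h := by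
    intro h
    let h' : C_c(X × X, ℝ) :=
    { toFun := h
      hasCompactSupport' := HasCompactSupport.of_compactSpace _ }
    exact RealRMK.integral_rieszMeasure Λ h'
  have hfin : IsFiniteMeasure (RealRMK.rieszMeasure Λ) := by infer_instance
  refine ⟨RealRMK.rieszMeasure Λ, hfin, ⟨?_, ?_⟩, ?_⟩
  · -- first marginal
    refine ext_of_forall_integral_eq_of_IsFiniteMeasure fun f => ?_
    rw [integral_map measurable_fst.aemeasurable f.continuous.aestronglyMeasurable]
    set f' : C(X × X, ℝ) := ⟨fun z => f z.1, f.continuous.comp continuous_fst⟩ with hf'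
    have e1 : ∫ z, f z.1 ∂(RealRMK.rieszMeasure Λ) = g f' := hΛ f'
    rw [e1]
    refine le_antisymm ?_ ?_
    · have h1 := hgle f' f.toContinuousMap 0 (fun x y => by simp [hf'])
      simpa using h1
    · have h1 := hgle (-f') (-f.toContinuousMap) 0 (fun x y => by simp [hf'])
      rw [map_neg] at h1
      simp only [ContinuousMap.neg_apply, ContinuousMap.zero_apply, integral_zero, add_zero,
        integral_neg] at h1
      have h2 : ∫ x, f.toContinuousMap x ∂μ = ∫ x, f x ∂μ := rfl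
      linarith
  · -- second marginal
    refine ext_of_forall_integral_eq_of_IsFiniteMeasure fun f => ?_
    rw [integral_map measurable_snd.aemeasurable f.continuous.aestronglyMeasurable]
    set f' : C(X × X, ℝ) := ⟨fun z => f z.2, f.continuous.comp continuous_snd⟩ with hf'
    have e1 : ∫ z, f z.2 ∂(RealRMK.rieszMeasure Λ) = g f' := hΛ f'
    rw [e1]
    refine le_antisymm ?_ ?_
    · have h1 := hgle f' 0 f.toContinuousMap (fun x y => by simp [hf'])
      simpa using h1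
    · have h1 := hgle (-f') 0 (-f.toContinuousMap) (fun x y => by simp [hf'])
      rw [map_neg] at h1
      simp only [ContinuousMap.neg_apply, ContinuousMap.zero_apply, integral_zero, zero_add,
        integral_neg] at h1
      have h2 : ∫ x, f.toContinuousMap x ∂ν = ∫ x, f x ∂ν := rfl
      linarith
  · intro r hr
    have e1 : ∫ z, dist z.1 z.2 ^ 2 / 2 ∂(RealRMK.rieszMeasure Λ) = g c0 := hΛ c0
    rw [e1]
    have h1 : -r ≤ p (-c0) := by
      refine le_csInf (odS_nonempty μ ν _) ?_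
      rintro s ⟨φ, ψ, h2, rfl⟩
      have h3 := hr (fun x => -φ x) (fun y => -ψ y) φ.continuous.neg ψ.continuous.neg
        (fun x y => by
          have := h2 x y
          simp only [ContinuousMap.neg_apply, hc0, ContinuousMap.coe_mk] at this
          linarith)
      rw [integral_neg, integral_neg] at h3
      linarith
    rw [← hg0, map_neg] at h1
    linarith

theorem exists_plan (μ ν : Measure X) [IsFiniteMeasure μ] [IsFiniteMeasure ν]
    (h : μ univ = ν univ) :
    ∃ (P : Measure (X × X)) (φ ψ : X → ℝ) (K : ℝ≥0), Cpl P μ ν ∧ Pot φ ψ P ∧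
      LipschitzWith K φ ∧ LipschitzWith K ψ := by
  rcases isEmpty_or_nonempty X with hX | hX
  · refine ⟨0, 0, 0, 0, ⟨?_, ?_⟩, ⟨continuous_const, continuous_const, fun x => hX.elim x, by simp⟩,
      LipschitzWith.const _, LipschitzWith.const _⟩
    · rw [Measure.map_zero, Measure.eq_zero_of_isEmpty μ]
    · rw [Measure.map_zero, Measure.eq_zero_of_isEmpty ν]
  obtain ⟨D, hD⟩ := ot_exists_diam (X := X)
  obtain ⟨P, hPfin, hP, hdual⟩ := od_dual μ ν h
  set S := ∫ z, dist z.1 z.2 ^ 2 / 2 ∂P with hS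
  -- a maximising sequence
  have hex : ∀ n : ℕ, ∃ φ ψ : X → ℝ, LipschitzWith D φ ∧ LipschitzWith D ψ ∧
      (∀ x y, φ x + ψ y ≤ dist x y ^ 2 / 2) ∧ (∀ x, |φ x| ≤ (D : ℝ) ^ 2) ∧
      (∀ x, |ψ x| ≤ (D : ℝ) ^ 2) ∧ S - 1 / ((n : ℝ) + 1) ≤ ∫ x, φ x ∂μ + ∫ y, ψ y ∂ν := by
    intro n
    by_contra hcon
    push Not at hcon
    have h1 : S ≤ S - 1 / ((n : ℝ) + 1) := by
      refine hdual _ fun φ ψ hφ hψ hle => ?_
      obtain ⟨φ', ψ', a, l1, l2, b1, b2, b3, b4, b5⟩ := ot_normalise hψ hle hD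
      have h2 := hcon φ' ψ' l1 l2 b1 b4 b5
      have i1 := ot_integrable μ l1.continuous
      have i2 := ot_integrable ν l2.continuous
      have h3 := integral_mono (μ := μ) (ot_integrable μ hφ) (i1.add (integrable_const a)) b2
      have h4 := integral_mono (μ := ν) (ot_integrable ν hψ) (i2.sub (integrable_const a)) b3
      have e3 : ∫ x, (φ' x + a) ∂μ = ∫ x, φ' x ∂μ + a * μ.real univ := by
        rw [integral_add i1 (integrable_const _), integral_const, smul_eq_mul, mul_comm]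
      have e4 : ∫ x, (ψ' x - a) ∂ν = ∫ x, ψ' x ∂ν - a * μ.real univ := by
        rw [integral_sub i2 (integrable_const _), integral_const, smul_eq_mul, mul_comm]
        unfold Measure.real
        rw [h]
      have h5 : ∫ x, φ x ∂μ ≤ ∫ x, (φ' x + a) ∂μ := h3
      have h6 : ∫ x, ψ x ∂ν ≤ ∫ x, (ψ' x - a) ∂ν := h4
      linarith
    have h2 : 0 < 1 / ((n : ℝ) + 1) := by positivity
    linarith
  choose φn ψn l1 l2 b1 b4 b5 b6 using hex
  obtain ⟨φ, k1, hk1, hφ, hu1⟩ := ot_subseq l1 b4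
  obtain ⟨ψ, k2, hk2, hψ, hu2⟩ := ot_subseq (fun n => l2 (k1 n)) (fun n => b5 (k1 n))
  have hu1' : TendstoUniformly (fun n => φn (k1 (k2 n))) φ atTop := fun u hu =>
    hk2.tendsto_atTop.eventually (hu1 u hu)
  have hle : ∀ x y, φ x + ψ y ≤ dist x y ^ 2 / 2 := fun x y => by
    refine le_of_tendsto' ((hu1'.tendsto_at x).add (hu2.tendsto_at y)) fun n => ?_
    exact b1 _ x y
  have hLφ : LipschitzWith D φ := by
    refine LipschitzWith.of_dist_le_mul fun x y => ?_
    refine le_of_tendsto' ((hu1'.tendsto_at x).dist (hu1'.tendsto_at y)) fun n => ?_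
    exact (l1 _).dist_le_mul x y
  have hLψ : LipschitzWith D ψ := by
    refine LipschitzWith.of_dist_le_mul fun x y => ?_
    refine le_of_tendsto' ((hu2.tendsto_at x).dist (hu2.tendsto_at y)) fun n => ?_
    exact (l2 _).dist_le_mul x y
  -- convergence of the integrals
  have hint : ∀ (κ : Measure X) [IsFiniteMeasure κ] (χn : ℕ → X → ℝ) (χ : X → ℝ),
      (∀ n, Continuous (χn n)) → (∀ n x, |χn n x| ≤ (D : ℝ) ^ 2) →
      TendstoUniformly χn χ atTop →
      Tendsto (fun n => ∫ x, χn n x ∂κ) atTop (𝓝 (∫ x, χ x ∂κ)) := by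
    intro κ _ χn χ hc hb hu
    refine tendsto_integral_of_dominated_convergence (fun _ => (D : ℝ) ^ 2)
      (fun n => (hc n).aestronglyMeasurable) (integrable_const _)
      (fun n => ae_of_all _ fun x => by rw [Real.norm_eq_abs]; exact hb n x)
      (ae_of_all _ fun x => hu.tendsto_at x)
  have t1 := hint μ _ _ (fun n => (l1 (k1 (k2 n))).continuous) (fun n => b4 _) hu1'
  have t2 := hint ν _ _ (fun n => (l2 (k1 (k2 n))).continuous) (fun n => b5 _) hu2
  have t3 : Tendsto (fun n : ℕ => S - 1 / (((k1 (k2 n) : ℕ) : ℝ) + 1)) atTop (𝓝 S) := by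
    have h1 : Tendsto (fun n : ℕ => 1 / (((k1 (k2 n) : ℕ) : ℝ) + 1)) atTop (𝓝 0) :=
      tendsto_one_div_add_atTop_nhds_zero_nat.comp (hk1.comp hk2).tendsto_atTop
    simpa using h1.const_sub S
  have hS2 : S ≤ ∫ x, φ x ∂μ + ∫ y, ψ y ∂ν :=
    le_of_tendsto_of_tendsto' t3 (t1.add t2) fun n => b6 _
  refine ⟨P, φ, ψ, D, hP, ?_, hLφ, hLψ⟩
  refine ot_ae_of_eq hφ hψ hle ?_
  rw [ot_split P hφ hψ, hP.1, hP.2]
  exact hS2

end H13CD
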