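import Pool.Agent.Helper13.CD.OT
import Pool.Agent.Helper13.CD.Glue
import Pool.Agent.Helper13.CD.Util
import Pool.Agent.Helper13.CD.Trig

/-!
# Module J: midpoints with bounded density (Rajala)

`μ0 = ρ0 m`, `μ1 = ρ1 m` probability measures with densities `≤ C0`, `P` optimal.  Then there is a
midpoint with density `≤ C0` (`rajala`).

Proof.  For a finite measure `ν` let `T` be the set `{dν/dm > C0} ∪ (singular part)`
(`RjGood`): it maximises `ν E - C0 m E`, and it is exhausted by sets on which the density is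
`≥ C0 + η`.  The excess `F ν = ν T - C0 m T` is lower semicontinuous on the compact set `RjMid` of
midpoint measures, let `V` be its minimum (`rj_min`) and suppose `V > 0`.
`rj_step`: let `ν` be a minimiser, `A ⊆ T` with `ν A ≥ ν T - V/2` and density `≥ C0+η` on `A`,
`b = ν A`.  `CDr` for the (normalised) end points of the transport which passes through `A` gives a
midpoint density `ρ` with `m {ρ > 0} ≥ b/C0` (`rj_sub`: entropy on both sides).  For
`l = η/(C0+η)` the measure `ν' = ν|_{Aᶜ} + (1-l) ν|_A + l b ρ m` is a midpoint again, and for every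
`E`: `ν' E - C0 m E ≤ V - l b (1 - (ρ m) E)`.  With `E = T'` (the set of `ν'`) minimality gives
`(ρ m) T' = 1`, so `m T' ≥ m {ρ > 0} ≥ b/C0 ≥ (V/2 + C0 m T)/C0 = m T + V/(2 C0)`.
Iteration contradicts `m T ≤ 1`.  So `V = 0`, i.e. the minimiser is `≤ C0 m`.
-/

open MeasureTheory Set Filter Topology
open scoped ENNReal NNReal

namespace H13CD

/-- `T` maximises `ν E - C m E` and is exhausted by sets on which `ν` has density `> C`. -/
structure RjGood {X : Type*} [MeasurableSpace X] (m ν : Measure X) (C : ℝ) (T : Set X) : Prop where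
  meas : MeasurableSet T
  max : ∀ E, MeasurableSet E → ν.real E - C * m.real E ≤ ν.real T - C * m.real T
  exh : ∀ δ > 0, ∃ η > 0, ∃ A, MeasurableSet A ∧ A ⊆ T ∧ ν.real T - δ ≤ ν.real A ∧
    ∀ E, MeasurableSet E → E ⊆ A → (C + η) * m.real E ≤ ν.real E

theorem rj_good {X : Type*} [MeasurableSpace X] (m ν : Measure X) [IsFiniteMeasure m]
    [IsFiniteMeasure ν] {C : ℝ} (hC : 0 ≤ C) : ∃ T, RjGood m ν C T := by
  obtain ⟨S, hSm, hS0, hS1⟩ := Measure.mutuallySingular_singularPart ν m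
  set f := ν.rnDeriv m with hf
  have hfm : Measurable f := Measure.measurable_rnDeriv ν m
  have hdec : ∀ E, MeasurableSet E → ν E = ν.singularPart m E + ∫⁻ x in E, f x ∂m := by
    intro E hE
    conv_lhs => rw [Measure.haveLebesgueDecomposition_add ν m]
    rw [Measure.add_apply, withDensity_apply _ hE]
  set A : ℕ → Set X := fun n => {x | ENNReal.ofReal (C + 1 / ((n : ℝ) + 1)) < f x} ∪ Sᶜ with hA
  set T : Set X := {x | ENNReal.ofReal C < f x} ∪ Sᶜ with hT
  have hAm : ∀ n, MeasurableSet (A n) := fun n =>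
    (measurableSet_lt measurable_const hfm).union hSm.compl
  have hTm : MeasurableSet T := (measurableSet_lt measurable_const hfm).union hSm.compl
  have hmono : Monotone A := by
    intro n k hnk x hx
    rcases hx with hx | hx
    · left
      refine lt_of_le_of_lt (ENNReal.ofReal_le_ofReal ?_) hx
      have : 1 / ((k : ℝ) + 1) ≤ 1 / ((n : ℝ) + 1) := by
        apply one_div_le_one_div_of_le (by positivity)
        exact_mod_cast Nat.succ_le_succ hnk
      linarith
    · right; exact hx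
  have hAT : ∀ n, A n ⊆ T := by
    intro n x hx
    rcases hx with hx | hx
    · left
      refine lt_of_le_of_lt (ENNReal.ofReal_le_ofReal ?_) hx
      have : 0 ≤ 1 / ((n : ℝ) + 1) := by positivity
      linarith
    · right; exact hx
  have hU : ⋃ n, A n = T := by
    apply subset_antisymm (iUnion_subset hAT)
    rintro x (hx | hx)
    · simp only [mem_iUnion]
      have hx' : ENNReal.ofReal C < f x := hx
      have hlim : Tendsto (fun n : ℕ => ENNReal.ofReal (C + 1 / ((n : ℝ) + 1))) atTop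
          (𝓝 (ENNReal.ofReal (C + 0))) :=
        (ENNReal.continuous_ofReal.tendsto _).comp
          (tendsto_const_nhds.add tendsto_one_div_add_atTop_nhds_zero_nat)
      rw [add_zero] at hlim
      obtain ⟨n, hn⟩ := (hlim.eventually_lt_const hx').exists
      exact ⟨n, Or.inl hn⟩
    · simp only [mem_iUnion]
      exact ⟨0, Or.inr hx⟩
  -- density bound on `A n`
  have hlow : ∀ n E, MeasurableSet E → E ⊆ A n →
      (C + 1 / ((n : ℝ) + 1)) * m.real E ≤ ν.real E := by
    intro n E hE hEA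
    have hpos : (0 : ℝ) ≤ C + 1 / ((n : ℝ) + 1) := by positivity
    have h1 : ENNReal.ofReal (C + 1 / ((n : ℝ) + 1)) * m E ≤ ν E := by
      rw [hdec E hE]
      refine le_trans ?_ le_add_self
      have h2 : ∫⁻ x in E, ENNReal.ofReal (C + 1 / ((n : ℝ) + 1)) ∂m ≤ ∫⁻ x in E, f x ∂m := by
        apply lintegral_mono_ae
        rw [ae_restrict_iff' hE]
        have : ∀ᵐ x ∂m, x ∉ Sᶜ := measure_eq_zero_iff_ae_notMem.1 hS1
        filter_upwards [this] with x hx hxE
        rcases hEA hxE with h | h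
        · exact le_of_lt h
        · exact absurd h hx
      rwa [setLIntegral_const] at h2
    have h3 := ENNReal.toReal_mono (measure_ne_top ν E) h1
    rwa [ENNReal.toReal_mul, ENNReal.toReal_ofReal hpos] at h3
  have hup : ∀ E, MeasurableSet E → Disjoint E T → ν.real E ≤ C * m.real E := by
    intro E hE hET
    have h1 : ν E ≤ ENNReal.ofReal C * m E := by
      rw [hdec E hE]
      have h0 : ν.singularPart m E = 0 := by
        apply measure_mono_null (t := S) _ hS0
        intro x hx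
        by_contra h
        exact (Set.disjoint_left.1 hET hx) (Or.inr h)
      rw [h0, zero_add]
      have h2 : ∫⁻ x in E, f x ∂m ≤ ∫⁻ x in E, ENNReal.ofReal C ∂m := by
        apply setLIntegral_mono measurable_const
        intro x hx
        by_contra h
        exact (Set.disjoint_left.1 hET hx) (Or.inl (not_le.1 h))
      rwa [setLIntegral_const] at h2
    have h3 := ENNReal.toReal_mono (ENNReal.mul_ne_top ENNReal.ofReal_ne_top (measure_ne_top m E)) h1
    rwa [ENNReal.toReal_mul, ENNReal.toReal_ofReal hC] at h3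
  have hνlim : Tendsto (fun n => ν.real (A n)) atTop (𝓝 (ν.real T)) := by
    have h := tendsto_measure_iUnion_atTop (μ := ν) hmono
    rw [hU] at h
    exact (ENNReal.tendsto_toReal (measure_ne_top ν T)).comp h
  have hTlow : ∀ E, MeasurableSet E → E ⊆ T → C * m.real E ≤ ν.real E := by
    intro E hE hET
    have hmE : Monotone (fun n => E ∩ A n) := fun n k hnk => inter_subset_inter_right _ (hmono hnk)
    have hUE : ⋃ n, E ∩ A n = E := by
      rw [← inter_iUnion, hU]; exact inter_eq_left.2 hET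
    have h1 : Tendsto (fun n => ν.real (E ∩ A n)) atTop (𝓝 (ν.real E)) := by
      have h := tendsto_measure_iUnion_atTop (μ := ν) hmE
      rw [hUE] at h
      exact (ENNReal.tendsto_toReal (measure_ne_top ν E)).comp h
    have h2 : Tendsto (fun n => C * m.real (E ∩ A n)) atTop (𝓝 (C * m.real E)) := by
      have h := tendsto_measure_iUnion_atTop (μ := m) hmE
      rw [hUE] at h
      exact ((ENNReal.tendsto_toReal (measure_ne_top m E)).comp h).const_mul C
    refine le_of_tendsto_of_tendsto' h2 h1 fun n => ?_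
    refine le_trans ?_ (hlow n _ (hE.inter (hAm n)) inter_subset_right)
    apply mul_le_mul_of_nonneg_right _ measureReal_nonneg
    have : 0 ≤ 1 / ((n : ℝ) + 1) := by positivity
    linarith
  refine ⟨T, hTm, ?_, ?_⟩
  · intro E hE
    have e1 : ν.real E = ν.real (E ∩ T) + ν.real (E \ T) := (measureReal_inter_add_sdiff hTm).symm
    have e2 : m.real E = m.real (E ∩ T) + m.real (E \ T) := (measureReal_inter_add_sdiff hTm).symm
    have e3 : ν.real T = ν.real (T ∩ E) + ν.real (T \ E) := (measureReal_inter_add_sdiff hE).symm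
    have e4 : m.real T = m.real (T ∩ E) + m.real (T \ E) := (measureReal_inter_add_sdiff hE).symm
    rw [inter_comm] at e3 e4
    have h1 := hup (E \ T) (hE.diff hTm) disjoint_sdiff_left
    have h2 := hTlow (T \ E) (hTm.diff hE) sdiff_subset
    rw [e1, e2, e3, e4]
    nlinarith
  · intro δ hδ
    obtain ⟨n, hn⟩ := (hνlim.eventually_const_lt (show ν.real T - δ < ν.real T by linarith)).exists
    exact ⟨1 / ((n : ℝ) + 1), by positivity, A n, hAm n, hAT n, hn.le, fun E hE hEA => hlow n E hE hEA⟩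


set_option linter.unusedSectionVars false

variable {X : Type*} [MetricSpace X] [CompactSpace X] [MeasurableSpace X] [BorelSpace X]

theorem rj_cont : Continuous fun z : X × X => dist z.1 z.2 ^ 2 :=
  (continuous_fst.dist continuous_snd).pow 2

theorem rj_int_of_cont {Y : Type*} [TopologicalSpace Y] [CompactSpace Y] [MeasurableSpace Y]
    [OpensMeasurableSpace Y] {P : Measure Y} [IsFiniteMeasure P] {g : Y → ℝ} (hg : Continuous g) :
    Integrable g P :=
  (BoundedContinuousFunction.mkOfCompact ⟨g, hg⟩).integrable P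

/-- midpoint measures -/
def RjMid (μ0 μ1 : Measure X) (W : ℝ) (ν : Measure X) : Prop :=
  ∃ P0 P1 : Measure (X × X), Cpl P0 μ0 ν ∧ Cpl P1 ν μ1 ∧ cost P0 ≤ W ∧ cost P1 ≤ W

theorem Cpl.rj_prob_left {P : Measure (X × X)} {μ ν : Measure X} (h : Cpl P μ ν)
    [IsProbabilityMeasure μ] : IsProbabilityMeasure P := by
  constructor
  have h1 : P.map Prod.fst univ = 1 := by rw [h.1]; exact measure_univ
  rwa [Measure.map_apply measurable_fst MeasurableSet.univ, preimage_univ] at h1

theorem Cpl.rj_prob_snd {P : Measure (X × X)} {μ ν : Measure X} (h : Cpl P μ ν)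
    [IsProbabilityMeasure P] : IsProbabilityMeasure ν := by
  rw [← h.2]
  exact Measure.isProbabilityMeasure_map measurable_snd.aemeasurable

theorem Cpl.rj_prob_right {P : Measure (X × X)} {μ ν : Measure X} (h : Cpl P μ ν)
    [IsProbabilityMeasure ν] : IsProbabilityMeasure P := by
  constructor
  have h1 : P.map Prod.snd univ = 1 := by rw [h.2]; exact measure_univ
  rwa [Measure.map_apply measurable_snd MeasurableSet.univ, preimage_univ] at h1

theorem rj_cost_tendsto {Pn : ℕ → ProbabilityMeasure (X × X)} {P : ProbabilityMeasure (X × X)}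
    (h : Tendsto Pn atTop (𝓝 P)) :
    Tendsto (fun n => cost (Pn n : Measure (X × X))) atTop (𝓝 (cost (P : Measure (X × X)))) := by
  have h1 := (ProbabilityMeasure.tendsto_iff_forall_integral_tendsto.1 h)
    (BoundedContinuousFunction.mkOfCompact ⟨fun z : X × X => dist z.1 z.2 ^ 2, rj_cont⟩)
  exact h1

theorem rj_compact {μ0 μ1 : Measure X} [IsProbabilityMeasure μ0] [IsProbabilityMeasure μ1] {W : ℝ}
    {νn : ℕ → Measure X} (h : ∀ n, RjMid μ0 μ1 W (νn n)) :
    ∃ (φ : ℕ → ℕ) (ν : ProbabilityMeasure X) (νs : ℕ → ProbabilityMeasure X), StrictMono φ ∧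
      (∀ n, (νs n : Measure X) = νn n) ∧ RjMid μ0 μ1 W (ν : Measure X) ∧
      Tendsto (fun n => νs (φ n)) atTop (𝓝 ν) := by
  choose P0 P1 h0 h1 c0 c1 using h
  have i0 : ∀ n, IsProbabilityMeasure (P0 n) := fun n => (h0 n).rj_prob_left
  have i1 : ∀ n, IsProbabilityMeasure (P1 n) := fun n => (h1 n).rj_prob_right
  have iν : ∀ n, IsProbabilityMeasure (νn n) := fun n => (h0 n).rj_prob_snd
  let Q0 : ℕ → ProbabilityMeasure (X × X) := fun n => ⟨P0 n, i0 n⟩
  let Q1 : ℕ → ProbabilityMeasure (X × X) := fun n => ⟨P1 n, i1 n⟩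
  obtain ⟨R0, -, φ0, hφ0, hR0⟩ := isCompact_univ.tendsto_subseq (x := Q0) (fun n => mem_univ _)
  obtain ⟨R1, -, φ1, hφ1, hR1⟩ := isCompact_univ.tendsto_subseq (x := fun n => Q1 (φ0 n))
    (fun n => mem_univ _)
  have hR0' : Tendsto (fun n => Q0 (φ0 (φ1 n))) atTop (𝓝 R0) := hR0.comp hφ1.tendsto_atTop
  have hR1' : Tendsto (fun n => Q1 (φ0 (φ1 n))) atTop (𝓝 R1) := hR1
  have m0 := ProbabilityMeasure.tendsto_map_of_tendsto_of_continuous _ _ hR0'
    (continuous_snd : Continuous (Prod.snd : X × X → X))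
  have m0' := ProbabilityMeasure.tendsto_map_of_tendsto_of_continuous _ _ hR0'
    (continuous_fst : Continuous (Prod.fst : X × X → X))
  have m1 := ProbabilityMeasure.tendsto_map_of_tendsto_of_continuous _ _ hR1'
    (continuous_fst : Continuous (Prod.fst : X × X → X))
  have m1' := ProbabilityMeasure.tendsto_map_of_tendsto_of_continuous _ _ hR1'
    (continuous_snd : Continuous (Prod.snd : X × X → X))
  refine ⟨fun n => φ0 (φ1 n), R0.map measurable_snd.aemeasurable, fun n => ⟨νn n, iν n⟩,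
    hφ0.comp hφ1, fun n => rfl, ⟨R0, R1, ⟨?_, rfl⟩, ⟨?_, ?_⟩, ?_, ?_⟩, ?_⟩
  · let z0 : ProbabilityMeasure X := ⟨μ0, inferInstance⟩
    have e : ∀ n, (Q0 (φ0 (φ1 n))).map (f := Prod.fst) measurable_fst.aemeasurable = z0 := by
      intro n
      apply Subtype.ext
      exact (h0 (φ0 (φ1 n))).1
    have : Tendsto (fun _ : ℕ => z0) atTop
        (𝓝 (R0.map (f := Prod.fst) measurable_fst.aemeasurable)) := by
      refine m0'.congr fun n => ?_
      exact e n
    have h2 := tendsto_nhds_unique this tendsto_const_nhds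
    exact congrArg Subtype.val h2
  · have e : ∀ n, (Q0 (φ0 (φ1 n))).map (f := Prod.snd) measurable_snd.aemeasurable
        = (Q1 (φ0 (φ1 n))).map (f := Prod.fst) measurable_fst.aemeasurable := by
      intro n
      apply Subtype.ext
      exact (h0 (φ0 (φ1 n))).2.trans (h1 (φ0 (φ1 n))).1.symm
    have : Tendsto (fun n => (Q1 (φ0 (φ1 n))).map (f := Prod.fst) measurable_fst.aemeasurable) atTop
        (𝓝 (R0.map (f := Prod.snd) measurable_snd.aemeasurable)) := by
      refine m0.congr fun n => ?_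
      exact e n
    have h2 := tendsto_nhds_unique m1 this
    exact congrArg Subtype.val h2
  · let z1 : ProbabilityMeasure X := ⟨μ1, inferInstance⟩
    have e : ∀ n, (Q1 (φ0 (φ1 n))).map (f := Prod.snd) measurable_snd.aemeasurable = z1 := by
      intro n
      apply Subtype.ext
      exact (h1 (φ0 (φ1 n))).2
    have : Tendsto (fun _ : ℕ => z1) atTop
        (𝓝 (R1.map (f := Prod.snd) measurable_snd.aemeasurable)) := by
      refine m1'.congr fun n => ?_
      exact e n
    have h2 := tendsto_nhds_unique this tendsto_const_nhds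
    exact congrArg Subtype.val h2
  · exact le_of_tendsto' (rj_cost_tendsto hR0') fun n => c0 _
  · exact le_of_tendsto' (rj_cost_tendsto hR1') fun n => c1 _
  · refine m0.congr fun n => ?_
    apply Subtype.ext
    exact (h0 (φ0 (φ1 n))).2

/-- existence of a minimiser of the excess -/
theorem rj_min {m : Measure X} [IsProbabilityMeasure m] {μ0 μ1 : Measure X}
    [IsProbabilityMeasure μ0] [IsProbabilityMeasure μ1] {W C : ℝ} (hC : 0 ≤ C)
    (hne : ∃ ν, RjMid μ0 μ1 W ν) :
    ∃ (ν : Measure X) (T : Set X), RjMid μ0 μ1 W ν ∧ RjGood m ν C T ∧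
      ∀ ν' T', RjMid μ0 μ1 W ν' → RjGood m ν' C T' →
        ν.real T - C * m.real T ≤ ν'.real T' - C * m.real T' := by
  have ifin : ∀ ν, RjMid μ0 μ1 W ν → IsProbabilityMeasure ν := by
    rintro ν ⟨P0, P1, h0, h1, -, -⟩
    have := h0.rj_prob_left
    exact h0.rj_prob_snd
  set Vs : Set ℝ := {v | ∃ (ν : Measure X) (T : Set X), RjMid μ0 μ1 W ν ∧ RjGood m ν C T ∧
    v = ν.real T - C * m.real T} with hVs
  have hbdd : BddBelow Vs := by
    refine ⟨0, ?_⟩
    rintro v ⟨ν, T, hν, hT, rfl⟩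
    have := hT.max ∅ MeasurableSet.empty
    simpa using this
  have hnon : Vs.Nonempty := by
    obtain ⟨ν, hν⟩ := hne
    have := ifin ν hν
    obtain ⟨T, hT⟩ := rj_good m ν hC
    exact ⟨_, ν, T, hν, hT, rfl⟩
  obtain ⟨u, -, hu, huV⟩ := exists_seq_tendsto_sInf hnon hbdd
  choose νn Tn hνn hTn hun using huV
  obtain ⟨φ, ν, νs, hφ, hνs, hν, hlim⟩ := rj_compact hνn
  obtain ⟨T, hT⟩ := rj_good m (ν : Measure X) hC
  refine ⟨ν, T, hν, hT, fun ν' T' hν' hT' => ?_⟩
  refine le_trans ?_ (csInf_le hbdd ⟨ν', T', hν', hT', rfl⟩)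
  apply le_of_forall_pos_le_add
  intro ε hε
  -- open set around T
  obtain ⟨U, hTU, hUo, hU⟩ := Set.exists_isOpen_lt_add (μ := m) T (measure_ne_top m T)
    (ε := ENNReal.ofReal (ε / (C + 1))) (by simp; positivity)
  have hUr : m.real U ≤ m.real T + ε / (C + 1) := by
    have h1 := ENNReal.toReal_mono (by simp [measure_ne_top]) hU.le
    rwa [ENNReal.toReal_add (measure_ne_top m T) ENNReal.ofReal_ne_top,
      ENNReal.toReal_ofReal (by positivity)] at h1
  have hport := ProbabilityMeasure.le_liminf_measure_open_of_tendsto hlim hUo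
  have hTUr : (ν : Measure X).real T ≤ (ν : Measure X).real U := measureReal_mono hTU
  have hCU : C * m.real U ≤ C * m.real T + ε := by
    have : C * (ε / (C + 1)) ≤ ε := by
      rw [mul_div_assoc', div_le_iff₀ (by positivity)]
      nlinarith
    nlinarith
  -- `ν U ≤ C m U + sInf Vs`
  have key : (ν : Measure X).real U ≤ C * m.real U + sInf Vs := by
    apply le_of_forall_pos_le_add
    intro δ hδ
    have hev : ∀ᶠ n in atTop, u (φ n) < sInf Vs + δ / 2 :=
      (hu.comp hφ.tendsto_atTop).eventually_lt_const (by linarith)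
    by_cases hz : (ν : Measure X).real U ≤ δ
    · have h0 : 0 ≤ sInf Vs := by
        apply le_csInf hnon
        rintro v ⟨ν', T', hν', hT', rfl⟩
        have := hT'.max ∅ MeasurableSet.empty
        simpa using this
      have : 0 ≤ C * m.real U := by positivity
      linarith
    push Not at hz
    have hnn : ENNReal.ofReal ((ν : Measure X).real U - δ / 2) < (ν : Measure X) U := by
      rw [← ofReal_measureReal (measure_ne_top (ν : Measure X) U)]
      exact (ENNReal.ofReal_lt_ofReal_iff (by linarith)).2 (by linarith)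
    have hev2 := eventually_lt_of_lt_liminf (lt_of_lt_of_le hnn hport)
    obtain ⟨n, hn1, hn2⟩ := (hev.and hev2).exists
    have e1 : (νn (φ n)).real U - C * m.real U ≤ u (φ n) := by
      rw [hun (φ n)]
      exact (hTn (φ n)).max U hUo.measurableSet
    have e2 : (ν : Measure X).real U - δ / 2 < (νn (φ n)).real U := by
      have := ifin _ (hνn (φ n))
      rw [hνs (φ n)] at hn2
      exact (ENNReal.ofReal_lt_iff_lt_toReal (by linarith) (measure_ne_top _ _)).1 hn2
    linarith
  linarith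

theorem rj_ent {Y : Type*} [MeasurableSpace Y] {m : Measure Y} [IsFiniteMeasure m] {N : ℝ}
    (hN : 1 < N) {ρ : Y → ℝ} (hm : Measurable ρ) (h0 : ∀ x, 0 ≤ ρ x) (hi : Integrable ρ m)
    (h1 : ∫ x, ρ x ∂m = 1) : Ent N m ρ ≤ (m.real {x | 0 < ρ x}) ^ (1 / N) := by
  set M := m.real {x | 0 < ρ x} with hM
  have hms : MeasurableSet {x | 0 < ρ x} := measurableSet_lt measurable_const hm
  have hMpos : 0 < M := by
    rcases (measureReal_nonneg (μ := m) (s := {x | 0 < ρ x})).eq_or_lt with h | h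
    · exfalso
      have h2 : m {x | 0 < ρ x} = 0 := (measureReal_eq_zero_iff (measure_ne_top _ _)).1 h.symm
      have h3 : ρ =ᵐ[m] 0 := by
        have := measure_eq_zero_iff_ae_notMem.1 h2
        filter_upwards [this] with x hx
        exact le_antisymm (not_lt.1 hx) (h0 x)
      rw [integral_congr_ae h3] at h1
      simp at h1
    · exact h
  have hp0 : 0 < 1 - 1 / N := by
    have : 1 / N < 1 := by rw [div_lt_one (by linarith)]; exact hN
    linarith
  have hq0 : 0 < 1 / N := by positivity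
  have key : ∫ x, ρ x ^ (1 - 1 / N) * (1 / M) ^ (1 / N) ∂m ≤
      ∫ x, ((1 - 1 / N) * ρ x + {x | 0 < ρ x}.indicator (fun _ => 1 / N * (1 / M)) x) ∂m := by
    apply integral_mono_of_nonneg
    · exact Eventually.of_forall fun x => mul_nonneg (Real.rpow_nonneg (h0 x) _)
        (Real.rpow_nonneg (by positivity) _)
    · exact (hi.const_mul _).add ((integrable_const _).indicator hms)
    · refine Eventually.of_forall fun x => ?_
      simp only
      rcases (h0 x).eq_or_lt with h | h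
      · rw [← h, Real.zero_rpow hp0.ne']
        simp only [zero_mul, mul_zero, zero_add]
        exact Set.indicator_nonneg (fun _ _ => by positivity) x
      · rw [Set.indicator_of_mem (show x ∈ {x | 0 < ρ x} from h)]
        exact Real.geom_mean_le_arith_mean2_weighted hp0.le hq0.le (h0 x) (by positivity) (by ring)
  rw [integral_mul_const, integral_add (hi.const_mul _) ((integrable_const _).indicator hms),
    integral_const_mul, h1, integral_indicator_const _ hms, ← hM, smul_eq_mul] at key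
  have e1 : M * (1 / N * (1 / M)) = 1 / N := by field_simp
  rw [e1] at key
  have e2 : (1 - 1 / N) * 1 + 1 / N = 1 := by ring
  rw [e2] at key
  have e3 : (1 / M) ^ (1 / N) = (M ^ (1 / N))⁻¹ := by
    rw [one_div M, Real.inv_rpow hMpos.le]
  rw [e3] at key
  have hMp : 0 < M ^ (1 / N) := Real.rpow_pos_of_pos hMpos _
  unfold Ent
  calc ∫ x, ρ x ^ (1 - 1 / N) ∂m
      = (∫ x, ρ x ^ (1 - 1 / N) ∂m) * (M ^ (1 / N))⁻¹ * M ^ (1 / N) := by
        field_simp
    _ ≤ 1 * M ^ (1 / N) := mul_le_mul_of_nonneg_right key hMp.le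
    _ = M ^ (1 / N) := one_mul _

theorem rj_ae_pos {Y : Type*} [MeasurableSpace Y] {m : Measure Y} {ρ : Y → ℝ}
    (hm : Measurable ρ) : ∀ᵐ x ∂(dens m ρ), 0 < ρ x := by
  unfold dens
  rw [ae_withDensity_iff (by fun_prop)]
  refine Eventually.of_forall fun x hx => ?_
  simpa using hx

theorem rj_lower {m : Measure X} {N D : ℝ} (hN : 1 < N) (hD : 0 < D)
    {ρ0 ρ1 : X → ℝ} (h0m : Measurable ρ0) (h1m : Measurable ρ1)
    (h0 : ∀ x, ρ0 x ≤ D) (h1 : ∀ x, ρ1 x ≤ D)
    {P : Measure (X × X)} [IsProbabilityMeasure P] (hP : Cpl P (dens m ρ0) (dens m ρ1))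
    (hd : ∀ᵐ z ∂P, dist z.1 z.2 < Real.pi)
    (hi : Integrable (fun z => tau N (1 - 1 / 2) (dist z.1 z.2) * ρ0 z.1 ^ (-(1 / N)) +
          tau N (1 / 2) (dist z.1 z.2) * ρ1 z.2 ^ (-(1 / N))) P) :
    D ^ (-(1 / N)) ≤ ∫ z, (tau N (1 - 1 / 2) (dist z.1 z.2) * ρ0 z.1 ^ (-(1 / N)) +
          tau N (1 / 2) (dist z.1 z.2) * ρ1 z.2 ^ (-(1 / N))) ∂P := by
  have hq0 : 0 < 1 / N := by positivity
  have p0 : ∀ᵐ z ∂P, 0 < ρ0 z.1 := by
    have h := rj_ae_pos (m := m) h0m
    rw [← hP.1] at h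
    exact ae_of_ae_map measurable_fst.aemeasurable h
  have p1 : ∀ᵐ z ∂P, 0 < ρ1 z.2 := by
    have h := rj_ae_pos (m := m) h1m
    rw [← hP.2] at h
    exact ae_of_ae_map measurable_snd.aemeasurable h
  have hc : D ^ (-(1 / N)) = ∫ _z : X × X, D ^ (-(1 / N)) ∂P := by
    rw [integral_const]; simp
  rw [hc]
  apply integral_mono_ae (integrable_const _) hi
  filter_upwards [p0, p1, hd] with z hz0 hz1 hzd
  have t0 : (1 / 2 : ℝ) ≤ tau N (1 - 1 / 2) (dist z.1 z.2) := by
    have := le_tau (N := N) (t := 1 - 1 / 2) hN ⟨by norm_num, by norm_num⟩ dist_nonneg hzd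
    linarith
  have t1 : (1 / 2 : ℝ) ≤ tau N (1 / 2) (dist z.1 z.2) :=
    le_tau (N := N) (t := 1 / 2) hN ⟨by norm_num, by norm_num⟩ dist_nonneg hzd
  have r0 : D ^ (-(1 / N)) ≤ ρ0 z.1 ^ (-(1 / N)) :=
    Real.rpow_le_rpow_of_nonpos hz0 (h0 z.1) (by linarith)
  have r1 : D ^ (-(1 / N)) ≤ ρ1 z.2 ^ (-(1 / N)) :=
    Real.rpow_le_rpow_of_nonpos hz1 (h1 z.2) (by linarith)
  have hDp : 0 < D ^ (-(1 / N)) := Real.rpow_pos_of_pos hD _
  have a0 : 1 / 2 * D ^ (-(1 / N)) ≤ tau N (1 - 1 / 2) (dist z.1 z.2) * ρ0 z.1 ^ (-(1 / N)) :=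
    mul_le_mul t0 r0 hDp.le (by linarith)
  have a1 : 1 / 2 * D ^ (-(1 / N)) ≤ tau N (1 / 2) (dist z.1 z.2) * ρ1 z.2 ^ (-(1 / N)) :=
    mul_le_mul t1 r1 hDp.le (by linarith)
  linarith

/-- cost of sums, multiples and images -/
theorem rj_cost_add {P Q : Measure (X × X)} [IsFiniteMeasure P] [IsFiniteMeasure Q] :
    cost (P + Q) = cost P + cost Q :=
  integral_add_measure (rj_int_of_cont rj_cont) (rj_int_of_cont rj_cont)

theorem rj_cost_smul {P : Measure (X × X)} (c : ℝ≥0∞) : cost (c • P) = c.toReal * cost P :=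
  integral_smul_measure _ _

theorem rj_cost_map {Y : Type*} [MeasurableSpace Y] {P : Measure Y} {g : Y → X × X}
    (hg : Measurable g) : cost (P.map g) = ∫ y, dist (g y).1 (g y).2 ^ 2 ∂P := by
  unfold cost
  rw [integral_map hg.aemeasurable]
  exact rj_cont.measurable.aestronglyMeasurable

/-- the conditional midpoint: CD applied to the restriction of a midpoint plan -/
theorem rj_sub {m : Measure X} [IsProbabilityMeasure m] {N : ℝ} (hN : 1 < N) (hcd : CDr m N)
    {C0 : ℝ} (hC0 : 0 < C0) {τ0 τ1 : Measure X} {b : ℝ} (hb : 0 < b)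
    (h0 : τ0 ≤ ENNReal.ofReal C0 • m) (h1 : τ1 ≤ ENNReal.ofReal C0 • m)
    {Q : Measure (X × X)} (hQ : Cpl Q τ0 τ1) (hu : τ0 univ = ENNReal.ofReal b) :
    ∃ (ρ : X → ℝ) (P0 P1 : Measure (X × X)), Measurable ρ ∧ (∀ x, 0 ≤ ρ x) ∧
      Integrable ρ m ∧ ∫ x, ρ x ∂m = 1 ∧ b / C0 ≤ m.real {x | 0 < ρ x} ∧
      Cpl P0 ((ENNReal.ofReal b)⁻¹ • τ0) (dens m ρ) ∧
      Cpl P1 (dens m ρ) ((ENNReal.ofReal b)⁻¹ • τ1) ∧
      b * cost P0 ≤ (1 / 2) ^ 2 * cost Q ∧ b * cost P1 ≤ (1 / 2) ^ 2 * cost Q := by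
  have hbE : ENNReal.ofReal b ≠ 0 := by simpa using hb
  have hbT : ENNReal.ofReal b ≠ ∞ := ENNReal.ofReal_ne_top
  have hb' : (ENNReal.ofReal b)⁻¹ = ENNReal.ofReal (b⁻¹) := (ENNReal.ofReal_inv_of_pos hb).symm
  have hdom : ∀ τ : Measure X, τ ≤ ENNReal.ofReal C0 • m →
      (ENNReal.ofReal b)⁻¹ • τ ≤ ENNReal.ofReal (C0 / b) • m := by
    intro τ h
    rw [div_eq_inv_mul, ENNReal.ofReal_mul (by positivity), ← hb', ← smul_smul]
    intro E
    simp only [Measure.smul_apply, smul_eq_mul]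
    exact mul_le_mul_right (by simpa using h E) _
  obtain ⟨ρ0, m0, n0, l0, e0⟩ := exists_dens_of_le (m := m) (by positivity : 0 ≤ C0 / b) (hdom τ0 h0)
  obtain ⟨ρ1, m1, n1, l1, e1⟩ := exists_dens_of_le (m := m) (by positivity : 0 ≤ C0 / b) (hdom τ1 h1)
  have hQ' : Cpl ((ENNReal.ofReal b)⁻¹ • Q) (dens m ρ0) (dens m ρ1) := by
    constructor
    · rw [Measure.map_smul, hQ.1, e0]
    · rw [Measure.map_smul, hQ.2, e1]
  have hτ0 : IsProbabilityMeasure (dens m ρ0) := by
    constructor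
    rw [← e0, Measure.smul_apply, hu, smul_eq_mul, ENNReal.inv_mul_cancel hbE hbT]
  have hQp : IsProbabilityMeasure ((ENNReal.ofReal b)⁻¹ • Q) := hQ'.rj_prob_left
  have hτ1 : IsProbabilityMeasure (dens m ρ1) := hQ'.rj_prob_snd
  have bint : ∀ ρ : X → ℝ, Measurable ρ → (∀ x, 0 ≤ ρ x) → (∀ x, ρ x ≤ C0 / b) →
      Integrable ρ m := by
    intro ρ hm h0 h1
    refine Integrable.of_bound hm.aestronglyMeasurable (C0 / b) (Eventually.of_forall fun x => ?_)
    rw [Real.norm_eq_abs, abs_of_nonneg (h0 x)]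
    exact h1 x
  have hint : ∀ ρ : X → ℝ, Measurable ρ → (∀ x, 0 ≤ ρ x) → (∀ x, ρ x ≤ C0 / b) →
      IsProbabilityMeasure (dens m ρ) → ∫ x, ρ x ∂m = 1 := by
    intro ρ hm h0 h1 hp
    have h2 := dens_univ (m := m) (bint ρ hm h0 h1) h0
    rw [measure_univ] at h2
    have h3 := congrArg ENNReal.toReal h2
    rw [ENNReal.toReal_ofReal (integral_nonneg h0)] at h3
    simpa using h3.symm
  obtain ⟨P, hP, hPo, hPd, hPt⟩ := hcd.cd ρ0 ρ1 m0 m1 n0 n1 ⟨_, l0⟩ ⟨_, l1⟩
    (hint ρ0 m0 n0 l0 hτ0) (hint ρ1 m1 n1 l1 hτ1)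
  obtain ⟨ρ, hρm, hρ0, hρi, hρ1, ⟨P0, P1, c0, c1, k0, k1⟩, hint1, hle⟩ :=
    hPt (1 / 2) ⟨by norm_num, by norm_num⟩
  have hPp : IsProbabilityMeasure P := hP.rj_prob_left
  have hlow := rj_lower (m := m) hN (by positivity : 0 < C0 / b) m0 m1 l0 l1 hP hPd hint1
  have hup := rj_ent (m := m) hN hρm hρ0 hρi hρ1
  have hfin : (b / C0) ^ (1 / N) ≤ (m.real {x | 0 < ρ x}) ^ (1 / N) := by
    refine le_trans (le_of_eq ?_) (hlow.trans (hle.trans hup))
    rw [Real.rpow_neg (by positivity), ← Real.inv_rpow (by positivity), inv_div]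
  have hcost : b * cost P ≤ cost Q := by
    have h2 : cost P ≤ cost ((ENNReal.ofReal b)⁻¹ • Q) := by
      apply hPo
      · rw [hQ'.1, hP.1]
      · rw [hQ'.2, hP.2]
    rw [rj_cost_smul, hb', ENNReal.toReal_ofReal (by positivity)] at h2
    calc b * cost P ≤ b * (b⁻¹ * cost Q) := mul_le_mul_of_nonneg_left h2 hb.le
      _ = cost Q := by field_simp
  refine ⟨ρ, P0, P1, hρm, hρ0, hρi, hρ1, ?_, ?_, ?_, ?_, ?_⟩
  · exact (Real.rpow_le_rpow_iff (by positivity) measureReal_nonneg (by positivity)).1 hfin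
  · rwa [e0]
  · rwa [e1]
  · rw [k0]
    nlinarith
  · rw [k1]
    nlinarith

theorem rj_step {m : Measure X} [IsProbabilityMeasure m] {N : ℝ} (hN : 1 < N) (hcd : CDr m N)
    {C0 : ℝ} (hC0 : 0 < C0) {μ0 μ1 : Measure X} [IsProbabilityMeasure μ0] [IsProbabilityMeasure μ1]
    (h0 : μ0 ≤ ENNReal.ofReal C0 • m) (h1 : μ1 ≤ ENNReal.ofReal C0 • m)
    {P : Measure (X × X)} (hP : Cpl P μ0 μ1) (hPo : IsOpt P) {V : ℝ} (hV : 0 < V)
    (hmin : ∀ ν' T', RjMid μ0 μ1 ((1 / 2) ^ 2 * cost P) ν' → RjGood m ν' C0 T' →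
        V ≤ ν'.real T' - C0 * m.real T')
    {ν : Measure X} {T : Set X} (hν : RjMid μ0 μ1 ((1 / 2) ^ 2 * cost P) ν)
    (hT : RjGood m ν C0 T) (hle : ν.real T - C0 * m.real T ≤ V) :
    ∃ (ν' : Measure X) (T' : Set X), RjMid μ0 μ1 ((1 / 2) ^ 2 * cost P) ν' ∧
      RjGood m ν' C0 T' ∧ ν'.real T' - C0 * m.real T' ≤ V ∧
      V / (2 * C0) + m.real T ≤ m.real T' := by
  have hVT := hmin ν T hν hT
  obtain ⟨P0, P1, c0, c1, k0, k1⟩ := hν
  have iP0 : IsProbabilityMeasure P0 := c0.rj_prob_left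
  have iP1 : IsProbabilityMeasure P1 := c1.rj_prob_right
  have iν : IsProbabilityMeasure ν := c0.rj_prob_snd
  have k1' : cost P1 ≤ (1 - 1 / 2) ^ 2 * cost P := by
    have : (1 - 1 / 2 : ℝ) = 1 / 2 := by norm_num
    rw [this]; exact k1
  obtain ⟨σ, s0, s1, -, -, -, hgeo⟩ := glue_geod (t := 1 / 2) ⟨by norm_num, by norm_num⟩ hP hPo
    c0 c1 k0 k1'
  have g01 : Measurable (fun z : X × X × X => (z.1, z.2.1)) := by fun_prop
  have g02 : Measurable (fun z : X × X × X => (z.1, z.2.2)) := by fun_prop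
  have g12 : Measurable (fun z : X × X × X => z.2) := measurable_snd
  have g0 : Measurable (fun z : X × X × X => z.1) := measurable_fst
  have g1 : Measurable (fun z : X × X × X => z.2.1) := by fun_prop
  have g2 : Measurable (fun z : X × X × X => z.2.2) := by fun_prop
  have iσ : IsProbabilityMeasure σ := by
    constructor
    have h := congrArg (fun μ : Measure (X × X) => μ univ) s0
    simp only [Measure.map_apply g01 MeasurableSet.univ, preimage_univ, measure_univ] at h
    exact h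
  have hσ0 : σ.map (fun z => z.1) = μ0 := by
    rw [← c0.1, ← s0, Measure.map_map measurable_fst g01]; rfl
  have hσ1 : σ.map (fun z => z.2.1) = ν := by
    rw [← c0.2, ← s0, Measure.map_map measurable_snd g01]; rfl
  have hσ2 : σ.map (fun z => z.2.2) = μ1 := by
    rw [← c1.2, ← s1, Measure.map_map measurable_snd g12]; rfl
  obtain ⟨η, hη, A, hA, hAT, hAν, hAd⟩ := hT.exh (V / 2) (by linarith)
  set b := ν.real A with hb
  have hbpos : 0 < b := by
    have : 0 ≤ C0 * m.real T := by positivity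
    linarith
  set sA : Set (X × X × X) := (fun z : X × X × X => z.2.1) ⁻¹' A with hsA
  have hsAm : MeasurableSet sA := g1 hA
  set σA := σ.restrict sA with hσA
  set σB := σ.restrict sAᶜ with hσB
  have hsum : σA + σB = σ := Measure.restrict_add_restrict_compl hsAm
  have hτ0 : σA.map (fun z => z.1) ≤ ENNReal.ofReal C0 • m := by
    refine le_trans ?_ h0
    rw [← hσ0]
    exact Measure.map_mono Measure.restrict_le_self g0
  have hτ1 : σA.map (fun z => z.2.2) ≤ ENNReal.ofReal C0 • m := by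
    refine le_trans ?_ h1
    rw [← hσ2]
    exact Measure.map_mono Measure.restrict_le_self g2
  have hQ : Cpl (σA.map (fun z => (z.1, z.2.2))) (σA.map (fun z => z.1))
      (σA.map (fun z => z.2.2)) :=
    ⟨Measure.map_map measurable_fst g02, Measure.map_map measurable_snd g02⟩
  have hu : σA.map (fun z => z.1) univ = ENNReal.ofReal b := by
    rw [Measure.map_apply g0 MeasurableSet.univ, preimage_univ, hσA, Measure.restrict_apply_univ,
      hb, ofReal_measureReal (measure_ne_top ν A), ← hσ1, Measure.map_apply g1 hA]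
  obtain ⟨ρ, Q0, Q1, hρm, hρ0, hρi, hρ1, hρb, d0, d1, e0, e1⟩ :=
    rj_sub hN hcd hC0 hbpos hτ0 hτ1 hQ hu
  have iρ : IsProbabilityMeasure (dens m ρ) := by
    constructor
    rw [dens_univ hρi hρ0, hρ1]; simp
  have iQ0 : IsProbabilityMeasure Q0 := d0.rj_prob_right
  have iQ1 : IsProbabilityMeasure Q1 := d1.rj_prob_left
  -- the parameter
  set l : ℝ := η / (C0 + η) with hl
  have hl0 : 0 < l := by positivity
  have hl1 : l < 1 := by rw [hl, div_lt_one (by positivity)]; linarith
  have hl2 : (1 - l) * (C0 + η) = C0 := by rw [hl]; field_simp; ring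
  have hk : ENNReal.ofReal (l * b) * (ENNReal.ofReal b)⁻¹ = ENNReal.ofReal l := by
    rw [ENNReal.ofReal_mul hl0.le, mul_assoc,
      ENNReal.mul_inv_cancel (by simpa using hbpos) ENNReal.ofReal_ne_top, mul_one]
  have hll : ENNReal.ofReal (1 - l) + ENNReal.ofReal l = 1 := by
    rw [← ENNReal.ofReal_add (by linarith) hl0.le]; simp
  set κ := σB + ENNReal.ofReal (1 - l) • σA with hκ
  have iκ : IsFiniteMeasure κ := by
    rw [hκ]
    have : IsFiniteMeasure (ENNReal.ofReal (1 - l) • σA) :=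
      Measure.smul_finite σA ENNReal.ofReal_ne_top
    infer_instance
  have hκmap : ∀ {Z : Type _} [MeasurableSpace Z] {g : X × X × X → Z}, Measurable g →
      κ.map g + ENNReal.ofReal (l * b) • ((ENNReal.ofReal b)⁻¹ • σA.map g) = σ.map g := by
    intro Z _ g hg
    rw [hκ, Measure.map_add _ _ hg, Measure.map_smul, smul_smul, hk, add_assoc, ← add_smul, hll,
      one_smul, add_comm, ← Measure.map_add _ _ hg, hsum]
  set νn := κ.map (fun z => z.2.1) + ENNReal.ofReal (l * b) • dens m ρ with hνn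
  have hmid : RjMid μ0 μ1 ((1 / 2) ^ 2 * cost P) νn := by
    -- cost bookkeeping
    have i01 : Continuous (fun z : X × X × X => dist z.1 z.2.1 ^ 2) := by fun_prop
    have i12 : Continuous (fun z : X × X × X => dist z.2.1 z.2.2 ^ 2) := by fun_prop
    have hcst : ∀ {g : X × X × X → ℝ}, Continuous g →
        ∫ z, g z ∂κ = ∫ z, g z ∂σB + (1 - l) * ∫ z, g z ∂σA := by
      intro g hg
      rw [hκ, integral_add_measure (rj_int_of_cont hg)
        ((rj_int_of_cont hg).smul_measure ENNReal.ofReal_ne_top), integral_smul_measure,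
        ENNReal.toReal_ofReal (by linarith), smul_eq_mul]
    have hσs : ∀ {g : X × X × X → ℝ}, Continuous g →
        ∫ z, g z ∂σ = ∫ z, g z ∂σA + ∫ z, g z ∂σB := by
      intro g hg
      rw [← integral_add_measure (rj_int_of_cont hg) (rj_int_of_cont hg), hsum]
    have hgA : ∀ᵐ z ∂σA, dist z.1 z.2.1 = 1 / 2 * dist z.1 z.2.2 ∧
        dist z.2.1 z.2.2 = (1 - 1 / 2) * dist z.1 z.2.2 := ae_restrict_of_ae hgeo
    have hQc : cost (σA.map (fun z => (z.1, z.2.2))) = ∫ z, dist z.1 z.2.2 ^ 2 ∂σA :=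
      rj_cost_map g02
    have hA01 : ∫ z, dist z.1 z.2.1 ^ 2 ∂σA = (1 / 2) ^ 2 * ∫ z, dist z.1 z.2.2 ^ 2 ∂σA := by
      rw [← integral_const_mul]
      refine integral_congr_ae ?_
      filter_upwards [hgA] with z hz
      rw [hz.1, mul_pow]
    have hA12 : ∫ z, dist z.2.1 z.2.2 ^ 2 ∂σA = (1 / 2) ^ 2 * ∫ z, dist z.1 z.2.2 ^ 2 ∂σA := by
      rw [← integral_const_mul]
      refine integral_congr_ae ?_
      filter_upwards [hgA] with z hz
      rw [hz.2, mul_pow]
      norm_num
    have hlb : (ENNReal.ofReal (l * b)).toReal = l * b := ENNReal.toReal_ofReal (by positivity)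
    have iR0 : IsFiniteMeasure (ENNReal.ofReal (l * b) • Q0) :=
      Measure.smul_finite Q0 ENNReal.ofReal_ne_top
    have iR1 : IsFiniteMeasure (ENNReal.ofReal (l * b) • Q1) :=
      Measure.smul_finite Q1 ENNReal.ofReal_ne_top
    refine ⟨κ.map (fun z => (z.1, z.2.1)) + ENNReal.ofReal (l * b) • Q0,
      κ.map (fun z => z.2) + ENNReal.ofReal (l * b) • Q1, ⟨?_, ?_⟩, ⟨?_, ?_⟩, ?_, ?_⟩
    · rw [Measure.map_add _ _ measurable_fst, Measure.map_smul, d0.1,
        Measure.map_map measurable_fst g01]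
      exact (hκmap g0).trans hσ0
    · rw [Measure.map_add _ _ measurable_snd, Measure.map_smul, d0.2,
        Measure.map_map measurable_snd g01]
      rfl
    · rw [Measure.map_add _ _ measurable_fst, Measure.map_smul, d1.1,
        Measure.map_map measurable_fst g12]
      rfl
    · rw [Measure.map_add _ _ measurable_snd, Measure.map_smul, d1.2,
        Measure.map_map measurable_snd g12]
      exact (hκmap g2).trans hσ2
    · rw [rj_cost_add, rj_cost_smul, hlb, rj_cost_map g01, hcst i01]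
      have h2 : cost P0 = ∫ z, dist z.1 z.2.1 ^ 2 ∂σ := by rw [← s0, rj_cost_map g01]
      rw [hσs i01] at h2
      rw [hQc, ← hA01] at e0
      have h3 : l * b * cost Q0 ≤ l * ∫ z, dist z.1 z.2.1 ^ 2 ∂σA := by
        rw [mul_assoc]
        exact mul_le_mul_of_nonneg_left e0 hl0.le
      linarith
    · rw [rj_cost_add, rj_cost_smul, hlb, rj_cost_map g12, hcst i12]
      have h2 : cost P1 = ∫ z, dist z.2.1 z.2.2 ^ 2 ∂σ := by rw [← s1, rj_cost_map g12]
      rw [hσs i12] at h2
      rw [hQc, ← hA12] at e1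
      have h3 : l * b * cost Q1 ≤ l * ∫ z, dist z.2.1 z.2.2 ^ 2 ∂σA := by
        rw [mul_assoc]
        exact mul_le_mul_of_nonneg_left e1 hl0.le
      linarith
  have iνn : IsProbabilityMeasure νn := by
    obtain ⟨R0, R1, r0, r1, -, -⟩ := hmid
    have := r0.rj_prob_left
    exact r0.rj_prob_snd
  obtain ⟨T', hT'⟩ := rj_good m νn hC0.le
  have hexc := hmin νn T' hmid hT'
  -- the value of `νn`
  have hreal : ∀ E, MeasurableSet E → νn.real E =
      ν.real (E \ A) + (1 - l) * ν.real (E ∩ A) + l * b * (dens m ρ).real E := by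
    intro E hE
    have h2 : νn = ν.restrict Aᶜ + ENNReal.ofReal (1 - l) • ν.restrict A +
        ENNReal.ofReal (l * b) • dens m ρ := by
      rw [hνn, hκ, Measure.map_add _ _ g1, Measure.map_smul, hσA, hσB, hsA, ← preimage_compl,
        ← Measure.restrict_map g1 hA.compl, ← Measure.restrict_map g1 hA, hσ1]
    have h3 : νn E = ν (E \ A) + ENNReal.ofReal (1 - l) * ν (E ∩ A) +
        ENNReal.ofReal (l * b) * dens m ρ E := by
      rw [h2]
      simp only [Measure.add_apply, Measure.smul_apply, smul_eq_mul, Measure.restrict_apply hE]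
      rfl
    unfold Measure.real
    rw [h3, ENNReal.toReal_add, ENNReal.toReal_add, ENNReal.toReal_mul, ENNReal.toReal_mul,
      ENNReal.toReal_ofReal (by linarith), ENNReal.toReal_ofReal (by positivity)]
    · exact measure_ne_top _ _
    · exact ENNReal.mul_ne_top ENNReal.ofReal_ne_top (measure_ne_top _ _)
    · exact ENNReal.add_ne_top.2 ⟨measure_ne_top _ _,
        ENNReal.mul_ne_top ENNReal.ofReal_ne_top (measure_ne_top _ _)⟩
    · exact ENNReal.mul_ne_top ENNReal.ofReal_ne_top (measure_ne_top _ _)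
  have hT'm := hT'.meas
  have hTm := hT.meas
  -- decomposition of the excess
  have q1 : ν.real ((T' \ A) ∪ A) = ν.real (T' \ A) + ν.real A :=
    measureReal_union disjoint_sdiff_left hA
  have q2 : m.real ((T' \ A) ∪ A) = m.real (T' \ A) + m.real A :=
    measureReal_union disjoint_sdiff_left hA
  have q3 := hT.max ((T' \ A) ∪ A) ((hT'm.diff hA).union hA)
  have q4 : m.real T' = m.real (T' ∩ A) + m.real (T' \ A) := (measureReal_inter_add_sdiff hA).symm
  have q5 : ν.real A = ν.real (A ∩ T') + ν.real (A \ T') := (measureReal_inter_add_sdiff hT'm).symm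
  have q6 : m.real A = m.real (A ∩ T') + m.real (A \ T') := (measureReal_inter_add_sdiff hT'm).symm
  have q7 := hAd (A \ T') (hA.diff hT'm) sdiff_subset
  have q8 : C0 * m.real (A \ T') ≤ (1 - l) * ν.real (A \ T') := by
    have := mul_le_mul_of_nonneg_left q7 (by linarith : 0 ≤ 1 - l)
    rw [← mul_assoc, hl2] at this
    exact this
  have q9 := hreal T' hT'm
  have q10 : (dens m ρ).real T' ≤ 1 := measureReal_le_one
  rw [inter_comm A T'] at q5 q6
  have main : νn.real T' - C0 * m.real T' ≤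
      (ν.real T - C0 * m.real T) - l * b * (1 - (dens m ρ).real T') := by
    rw [q9, q4]
    rw [q1, q2] at q3
    have q5' : b = ν.real (T' ∩ A) + ν.real (A \ T') := q5
    have e3 : l * b = l * ν.real (T' ∩ A) + l * ν.real (A \ T') := by rw [q5']; ring
    have e4 : l * b * (1 - (dens m ρ).real T') = l * b - l * b * (dens m ρ).real T' := by ring
    rw [e4]
    nlinarith
  have hlbpos : 0 < l * b := mul_pos hl0 hbpos
  have hfull : (dens m ρ).real T' = 1 := by
    apply le_antisymm q10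
    by_contra h
    push Not at h
    have : 0 < l * b * (1 - (dens m ρ).real T') := mul_pos hlbpos (by linarith)
    linarith
  have hsupp : m.real {x | 0 < ρ x} ≤ m.real T' := by
    have h2 : dens m ρ T'ᶜ = 0 := by
      have h3 : dens m ρ T' = 1 := by
        have := ofReal_measureReal (measure_ne_top (dens m ρ) T')
        rw [← this, hfull]; simp
      rw [measure_compl hT'm (measure_ne_top _ _), h3]
      simp
    have h4 : ∀ᵐ x ∂m, x ∈ T'ᶜ → ¬ (0 < ρ x) := by
      have h5 : ∀ᵐ x ∂(dens m ρ), x ∉ T'ᶜ := measure_eq_zero_iff_ae_notMem.1 h2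
      unfold dens at h5
      rw [ae_withDensity_iff (by fun_prop)] at h5
      filter_upwards [h5] with x hx hxT hpos
      exact hx (by simpa using hpos) hxT
    have h6 : m {x | 0 < ρ x} ≤ m T' := by
      apply measure_mono_ae
      filter_upwards [h4] with x hx hpos
      by_contra hc
      exact hx hc hpos
    exact ENNReal.toReal_mono (measure_ne_top _ _) h6
  refine ⟨νn, T', hmid, hT', by nlinarith, ?_⟩
  refine le_trans ?_ (hρb.trans hsupp)
  rw [le_div_iff₀ hC0, add_mul]
  have : V / (2 * C0) * C0 = V / 2 := by field_simp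
  rw [this]
  linarith

theorem rajala {m : Measure X} [IsProbabilityMeasure m] {N : ℝ} (hN : 1 < N) (hcd : CDr m N)
    {C0 : ℝ} {ρ0 ρ1 : X → ℝ}
    (h0m : Measurable ρ0) (h1m : Measurable ρ1)
    (h0 : ∀ x, 0 ≤ ρ0 x ∧ ρ0 x ≤ C0) (h1 : ∀ x, 0 ≤ ρ1 x ∧ ρ1 x ≤ C0)
    (hi0 : ∫ x, ρ0 x ∂m = 1) (hi1 : ∫ x, ρ1 x ∂m = 1)
    {P : Measure (X × X)} (hP : Cpl P (dens m ρ0) (dens m ρ1)) (hPo : IsOpt P) :
    ∃ ρ : X → ℝ, Measurable ρ ∧ (∀ x, 0 ≤ ρ x ∧ ρ x ≤ C0) ∧ ∫ x, ρ x ∂m = 1 ∧
      ∃ P0 P1 : Measure (X × X), Cpl P0 (dens m ρ0) (dens m ρ) ∧ Cpl P1 (dens m ρ) (dens m ρ1) ∧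
        cost P0 = (1 / 2) ^ 2 * cost P ∧ cost P1 = (1 / 2) ^ 2 * cost P := by
  have bint : ∀ ρ : X → ℝ, Measurable ρ → (∀ x, 0 ≤ ρ x ∧ ρ x ≤ C0) → Integrable ρ m := by
    intro ρ hm h
    refine Integrable.of_bound hm.aestronglyMeasurable C0 (Eventually.of_forall fun x => ?_)
    rw [Real.norm_eq_abs, abs_of_nonneg (h x).1]
    exact (h x).2
  have hC1 : 1 ≤ C0 := by
    have h2 : ∫ x, ρ0 x ∂m ≤ ∫ _x, C0 ∂m :=
      integral_mono (bint ρ0 h0m h0) (integrable_const _) fun x => (h0 x).2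
    rw [hi0, integral_const] at h2
    simpa using h2
  have hC0 : 0 < C0 := by linarith
  have i0 : IsProbabilityMeasure (dens m ρ0) := by
    constructor
    rw [dens_univ (bint ρ0 h0m h0) fun x => (h0 x).1, hi0]; simp
  have i1 : IsProbabilityMeasure (dens m ρ1) := by
    constructor
    rw [dens_univ (bint ρ1 h1m h1) fun x => (h1 x).1, hi1]; simp
  -- a midpoint exists
  have hne : ∃ ν, RjMid (dens m ρ0) (dens m ρ1) ((1 / 2) ^ 2 * cost P) ν := by
    obtain ⟨P', hP', hPo', -, hPt⟩ := hcd.cd ρ0 ρ1 h0m h1m (fun x => (h0 x).1) (fun x => (h1 x).1)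
      ⟨C0, fun x => (h0 x).2⟩ ⟨C0, fun x => (h1 x).2⟩ hi0 hi1
    obtain ⟨ρ, -, -, -, -, ⟨P0, P1, c0, c1, k0, k1⟩, -, -⟩ :=
      hPt (1 / 2) ⟨by norm_num, by norm_num⟩
    have hc : cost P' ≤ cost P := hPo' P (by rw [hP.1, hP'.1]) (by rw [hP.2, hP'.2])
    refine ⟨_, P0, P1, c0, c1, ?_, ?_⟩
    · rw [k0]; nlinarith
    · rw [k1]; nlinarith
  obtain ⟨ν, T, hν, hT, hmin⟩ := rj_min (m := m) hC0.le hne
  set V := ν.real T - C0 * m.real T with hV
  have hV0 : 0 ≤ V := by
    have h2 := hT.max ∅ MeasurableSet.empty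
    rw [measureReal_empty, measureReal_empty] at h2
    rw [hV]
    linarith
  have hVz : V = 0 := by
    by_contra hne'
    have hVpos : 0 < V := lt_of_le_of_ne hV0 (Ne.symm hne')
    have hiter : ∀ k : ℕ, ∃ (ν' : Measure X) (T' : Set X),
        RjMid (dens m ρ0) (dens m ρ1) ((1 / 2) ^ 2 * cost P) ν' ∧
        RjGood m ν' C0 T' ∧ ν'.real T' - C0 * m.real T' ≤ V ∧
        (k : ℝ) * (V / (2 * C0)) ≤ m.real T' := by
      intro k
      induction k with
      | zero => exact ⟨ν, T, hν, hT, le_rfl, by simp⟩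
      | succ k ih =>
        obtain ⟨ν', T', a1, a2, a3, a4⟩ := ih
        obtain ⟨ν'', T'', b1, b2, b3, b4⟩ := rj_step hN hcd hC0 (dens_le fun x => (h0 x).2)
          (dens_le fun x => (h1 x).2) hP hPo hVpos hmin a1 a2 a3
        refine ⟨ν'', T'', b1, b2, b3, ?_⟩
        push_cast
        linarith
    obtain ⟨k, hk⟩ := exists_nat_gt (1 / (V / (2 * C0)))
    obtain ⟨ν', T', -, -, -, a4⟩ := hiter k
    have h2 : m.real T' ≤ 1 := measureReal_le_one
    have h3 : 0 < V / (2 * C0) := by positivity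
    rw [div_lt_iff₀ h3] at hk
    linarith
  have hνle : ν ≤ ENNReal.ofReal C0 • m := by
    obtain ⟨P0, P1, c0, c1, -, -⟩ := hν
    have iP0 : IsProbabilityMeasure P0 := c0.rj_prob_left
    have iν : IsProbabilityMeasure ν := c0.rj_prob_snd
    refine Measure.le_iff.2 fun E hE => ?_
    have h2 := hT.max E hE
    rw [← hV, hVz] at h2
    rw [Measure.smul_apply, smul_eq_mul, ← ofReal_measureReal (measure_ne_top ν E),
      ← ofReal_measureReal (measure_ne_top m E), ← ENNReal.ofReal_mul hC0.le]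
    exact ENNReal.ofReal_le_ofReal (by linarith)
  obtain ⟨ρ, hρm, hρ0, hρC, hρe⟩ := exists_dens_of_le hC0.le hνle
  subst hρe
  obtain ⟨P0, P1, c0, c1, k0, k1⟩ := hν
  have iP0 : IsProbabilityMeasure P0 := c0.rj_prob_left
  have iν : IsProbabilityMeasure (dens m ρ) := c0.rj_prob_snd
  have hρi := bint ρ hρm fun x => ⟨hρ0 x, hρC x⟩
  refine ⟨ρ, hρm, fun x => ⟨hρ0 x, hρC x⟩, ?_, P0, P1, c0, c1, ?_, ?_⟩
  · have h2 := dens_univ (m := m) hρi hρ0
    rw [measure_univ] at h2
    have h3 := congrArg ENNReal.toReal h2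
    rw [ENNReal.toReal_ofReal (integral_nonneg hρ0)] at h3
    simpa using h3.symm
  all_goals
    have k1' : cost P1 ≤ (1 - 1 / 2) ^ 2 * cost P := by
      have : (1 - 1 / 2 : ℝ) = 1 / 2 := by norm_num
      rw [this]; exact k1
    obtain ⟨σ, s0, s1, -, -, hc, hgeo⟩ := glue_geod (t := 1 / 2) ⟨by norm_num, by norm_num⟩ hP hPo
      c0 c1 k0 k1'
    have g01 : Measurable (fun z : X × X × X => (z.1, z.2.1)) := by fun_prop
    have g02 : Measurable (fun z : X × X × X => (z.1, z.2.2)) := by fun_prop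
    rw [← hc, rj_cost_map g02]
  · rw [← s0, rj_cost_map g01, ← integral_const_mul]
    refine integral_congr_ae ?_
    filter_upwards [hgeo] with z hz
    rw [hz.1, mul_pow]
  · rw [← s1, rj_cost_map measurable_snd, ← integral_const_mul]
    refine integral_congr_ae ?_
    filter_upwards [hgeo] with z hz
    rw [hz.2, mul_pow]
    norm_num

end H13CD
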