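import Pool.Agent.Helper13.CD.Defs

open MeasureTheory Set Filter Topology
open scoped ENNReal NNReal

namespace H13CD

variable {X : Type*} [MetricSpace X]

theorem supq_nonneg {h : X → X → ℝ} (hh : ∀ z x, 0 ≤ h z x) (r : ℝ) (x : X) : 0 ≤ supq r h x :=
  Real.iSup_nonneg fun z => div_nonneg (hh _ _) dist_nonneg

theorem habs_nonneg (g : X → ℝ) (z x : X) : 0 ≤ habs g z x := abs_nonneg _

theorem hpos_nonneg (g : X → ℝ) (z x : X) : 0 ≤ hpos g z x := le_max_right _ _

theorem Sr_nonneg (r : ℝ) (g : X → ℝ) (x : X) : 0 ≤ Sr r g x := supq_nonneg (habs_nonneg g) r x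

theorem Sp_nonneg (r : ℝ) (g : X → ℝ) (x : X) : 0 ≤ Sp r g x := supq_nonneg (hpos_nonneg g) r x

theorem supq_le_of {h : X → X → ℝ} {r c : ℝ} {x : X} (hc : 0 ≤ c)
    (hh : ∀ z, z ≠ x → dist z x < r → h z x ≤ c * dist z x) : supq r h x ≤ c := by
  refine Real.iSup_le (fun z => ?_) hc
  rw [div_le_iff₀ (dist_pos.mpr z.2.1)]
  exact hh _ z.2.1 z.2.2

theorem bddAbove_supq {h : X → X → ℝ} {K : ℝ} (hK : ∀ z x, h z x ≤ K * dist z x) (r : ℝ) (x : X) :
    BddAbove (range fun z : {z : X // z ≠ x ∧ dist z x < r} => h z x / dist (z : X) x) := by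
  refine ⟨K, ?_⟩
  rintro _ ⟨z, rfl⟩
  simp only
  rw [div_le_iff₀ (dist_pos.mpr z.2.1)]
  exact hK _ _

theorem le_supq {h : X → X → ℝ} {K : ℝ} (hK : ∀ z x, h z x ≤ K * dist z x) {r : ℝ} {z x : X}
    (hr : dist z x < r) : h z x ≤ supq r h x * dist z x := by
  by_cases hzx : z = x
  · have := hK z x
    rw [hzx, dist_self, mul_zero] at *
    simpa using this
  · have h1 := le_ciSup (bddAbove_supq hK r x) ⟨z, hzx, hr⟩
    simp only at h1
    rwa [div_le_iff₀ (dist_pos.mpr hzx)] at h1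

theorem habs_le {g : X → ℝ} {K : ℝ≥0} (hg : LipschitzWith K g) (z x : X) :
    habs g z x ≤ K * dist z x := by
  have := hg.dist_le_mul z x
  rwa [Real.dist_eq] at this

theorem hpos_le {g : X → ℝ} {K : ℝ≥0} (hg : LipschitzWith K g) (z x : X) :
    hpos g z x ≤ K * dist z x := by
  have := habs_le hg z x
  exact max_le ((le_abs_self _).trans this) (mul_nonneg K.2 dist_nonneg)

theorem Sr_le {g : X → ℝ} {K : ℝ≥0} (hg : LipschitzWith K g) (r : ℝ) (x : X) : Sr r g x ≤ K :=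
  supq_le_of K.2 fun z _ _ => habs_le hg z x

theorem Sp_le {g : X → ℝ} {K : ℝ≥0} (hg : LipschitzWith K g) (r : ℝ) (x : X) : Sp r g x ≤ K :=
  supq_le_of K.2 fun z _ _ => hpos_le hg z x

theorem Sr_le_of {g : X → ℝ} {r c : ℝ} {x : X} (hc : 0 ≤ c)
    (h : ∀ z, z ≠ x → dist z x < r → |g z - g x| ≤ c * dist z x) : Sr r g x ≤ c :=
  supq_le_of hc h

theorem Sp_le_of {g : X → ℝ} {r c : ℝ} {x : X} (hc : 0 ≤ c)
    (h : ∀ z, z ≠ x → dist z x < r → g z - g x ≤ c * dist z x) : Sp r g x ≤ c :=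
  supq_le_of hc fun z hz hr => max_le (h z hz hr) (mul_nonneg hc dist_nonneg)

theorem abs_sub_le_Sr {g : X → ℝ} {K : ℝ≥0} (hg : LipschitzWith K g) {r : ℝ} {z x : X}
    (hr : dist z x < r) : |g z - g x| ≤ Sr r g x * dist z x :=
  le_supq (habs_le hg) hr

theorem sub_le_Sp {g : X → ℝ} {K : ℝ≥0} (hg : LipschitzWith K g) {r : ℝ} {z x : X}
    (hr : dist z x < r) : g z - g x ≤ Sp r g x * dist z x :=
  (le_max_left _ _).trans (le_supq (hpos_le hg) hr)

theorem Sr_mono {g : X → ℝ} {K : ℝ≥0} (hg : LipschitzWith K g) {r s : ℝ} (hrs : r ≤ s) (x : X) :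
    Sr r g x ≤ Sr s g x :=
  Sr_le_of (Sr_nonneg _ _ _) fun _ _ hz => abs_sub_le_Sr hg (hz.trans_le hrs)

theorem Sp_mono {g : X → ℝ} {K : ℝ≥0} (hg : LipschitzWith K g) {r s : ℝ} (hrs : r ≤ s) (x : X) :
    Sp r g x ≤ Sp s g x :=
  Sp_le_of (Sp_nonneg _ _ _) fun _ _ hz => sub_le_Sp hg (hz.trans_le hrs)

theorem Sp_le_Sr {g : X → ℝ} {K : ℝ≥0} (hg : LipschitzWith K g) (r : ℝ) (x : X) :
    Sp r g x ≤ Sr r g x :=
  Sp_le_of (Sr_nonneg _ _ _) fun _ _ hz => (le_abs_self _).trans (abs_sub_le_Sr hg hz)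

theorem lip_nonneg (g : X → ℝ) (x : X) : 0 ≤ lip g x :=
  Real.iInf_nonneg fun _ => Sr_nonneg _ _ _

theorem bddBelow_Sr (g : X → ℝ) (x : X) :
    BddBelow (range fun n : ℕ => Sr (1 / ((n : ℝ) + 1)) g x) :=
  ⟨0, by rintro _ ⟨n, rfl⟩; exact Sr_nonneg _ _ _⟩

theorem lip_le_Sr {g : X → ℝ} {K : ℝ≥0} (hg : LipschitzWith K g) {r : ℝ} (hr : 0 < r) (x : X) :
    lip g x ≤ Sr r g x := by
  obtain ⟨n, hn⟩ := exists_nat_one_div_lt hr
  exact (ciInf_le (bddBelow_Sr g x) n).trans (Sr_mono hg hn.le x)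

theorem lip_le_const {g : X → ℝ} {K : ℝ≥0} (hg : LipschitzWith K g) (x : X) : lip g x ≤ K :=
  (lip_le_Sr hg one_pos x).trans (Sr_le hg _ _)

theorem exists_lip {g : X → ℝ} {K : ℝ≥0} (hg : LipschitzWith K g) {ε : ℝ} (hε : 0 < ε) (x : X) :
    ∃ r > 0, ∀ z, dist z x < r → |g z - g x| ≤ (lip g x + ε) * dist z x := by
  obtain ⟨n, hn⟩ := exists_lt_of_ciInf_lt (lt_add_of_pos_right (lip g x) hε)
  refine ⟨1 / ((n : ℝ) + 1), by positivity, fun z hz => ?_⟩
  exact (abs_sub_le_Sr hg hz).trans (mul_le_mul_of_nonneg_right hn.le dist_nonneg)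

theorem lip_le_of {g : X → ℝ} {c : ℝ} {x : X} (hc : 0 ≤ c)
    (h : ∀ ε > 0, ∃ r > 0, ∀ z, dist z x < r → |g z - g x| ≤ (c + ε) * dist z x) :
    lip g x ≤ c := by
  refine le_of_forall_pos_le_add fun ε hε => ?_
  obtain ⟨r, hr, hz⟩ := h ε hε
  obtain ⟨n, hn⟩ := exists_nat_one_div_lt hr
  refine (ciInf_le (bddBelow_Sr g x) n).trans ?_
  exact Sr_le_of (by positivity) fun z _ hzr => hz z (hzr.trans hn)

theorem tendsto_Sr {g : X → ℝ} {K : ℝ≥0} (hg : LipschitzWith K g) {rn : ℕ → ℝ}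
    (h0 : ∀ n, 0 < rn n) (hr : Tendsto rn atTop (𝓝 0)) (x : X) :
    Tendsto (fun n => Sr (rn n) g x) atTop (𝓝 (lip g x)) := by
  rw [Metric.tendsto_atTop]
  intro ε hε
  obtain ⟨r, hr0, hz⟩ := exists_lip hg (half_pos hε) x
  have h1 : ∀ᶠ n in atTop, rn n < r := hr.eventually_lt_const hr0
  obtain ⟨n0, hn0⟩ := eventually_atTop.mp h1
  refine ⟨n0, fun n hn => ?_⟩
  have h2 : Sr (rn n) g x ≤ lip g x + ε / 2 :=
    Sr_le_of (by have := lip_nonneg g x; positivity) fun z _ hzr => hz z (hzr.trans (hn0 n hn))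
  have h3 := lip_le_Sr hg (h0 n) x
  rw [Real.dist_eq, abs_lt]
  constructor <;> linarith

theorem lip_le_lip_of_le {g h : X → ℝ} {K : ℝ≥0} (hg : LipschitzWith K g) {x : X}
    (hh : ∀ z, |h z - h x| ≤ |g z - g x|) : lip h x ≤ lip g x :=
  lip_le_of (lip_nonneg _ _) fun ε hε => by
    obtain ⟨r, hr, hz⟩ := exists_lip hg hε x
    exact ⟨r, hr, fun z hzr => (hh z).trans (hz z hzr)⟩

/-- composition with a `1`-Lipschitz function -/
theorem lip_comp_one {g : X → ℝ} {K : ℝ≥0} (hg : LipschitzWith K g) {Ψ : ℝ → ℝ}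
    (hΨ : LipschitzWith 1 Ψ) (x : X) : lip (fun y => Ψ (g y)) x ≤ lip g x :=
  lip_le_lip_of_le hg fun z => by
    have := hΨ.dist_le_mul (g z) (g x)
    simpa [Real.dist_eq] using this

/-- chain rule inequality -/
theorem lip_comp_le {g : X → ℝ} {K : ℝ≥0} (hg : LipschitzWith K g) {Ψ : ℝ → ℝ} {d : ℝ} {x : X}
    (hΨ : HasDerivAt Ψ d (g x)) : lip (fun y => Ψ (g y)) x ≤ |d| * lip g x := by
  have hL := lip_nonneg g x
  refine lip_le_of (by positivity) fun ε hε => ?_
  set L := lip g x with hLdef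
  -- choose a small parameter
  obtain ⟨η, hη, hη2⟩ : ∃ η > 0, (|d| + η) * (L + η) ≤ |d| * L + ε := by
    have hc : Tendsto (fun η : ℝ => (|d| + η) * (L + η)) (𝓝[>] 0) (𝓝 ((|d| + 0) * (L + 0))) := by
      refine Tendsto.mono_left ?_ nhdsWithin_le_nhds
      exact ((continuous_const.add continuous_id).mul (continuous_const.add continuous_id)).tendsto 0
    have h1 : ∀ᶠ η in 𝓝[>] (0 : ℝ), (|d| + η) * (L + η) < |d| * L + ε :=
      hc.eventually_lt_const (by simpa using hε)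
    have h2 : ∀ᶠ η in 𝓝[>] (0 : ℝ), 0 < η := self_mem_nhdsWithin
    obtain ⟨η, h3, h4⟩ := (h1.and h2).exists
    exact ⟨η, h4, h3.le⟩
  obtain ⟨r1, hr1, hz1⟩ := exists_lip hg hη x
  have h3 : ∀ᶠ t in 𝓝 (g x), |Ψ t - Ψ (g x)| ≤ (|d| + η) * |t - g x| := by
    have h4 := (hasDerivAt_iff_isLittleO.mp hΨ).def hη
    filter_upwards [h4] with t ht
    have h5 : Ψ t - Ψ (g x) = (Ψ t - Ψ (g x) - (t - g x) • d) + (t - g x) * d := by
      simp [smul_eq_mul]
    rw [h5]
    refine (abs_add_le _ _).trans ?_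
    rw [abs_mul]
    have h6 : |Ψ t - Ψ (g x) - (t - g x) • d| ≤ η * |t - g x| := by simpa using ht
    nlinarith [abs_nonneg (t - g x), abs_nonneg d]
  have h4 : ∀ᶠ z in 𝓝 x, |Ψ (g z) - Ψ (g x)| ≤ (|d| + η) * |g z - g x| :=
    hg.continuous.continuousAt.eventually h3
  obtain ⟨r2, hr2, hz2⟩ := Metric.eventually_nhds_iff.mp h4
  refine ⟨min r1 r2, lt_min hr1 hr2, fun z hz => ?_⟩
  have h5 := hz1 z (hz.trans_le (min_le_left _ _))
  have h6 := hz2 (hz.trans_le (min_le_right _ _))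
  calc |Ψ (g z) - Ψ (g x)| ≤ (|d| + η) * |g z - g x| := h6
    _ ≤ (|d| + η) * ((L + η) * dist z x) := by gcongr
    _ = ((|d| + η) * (L + η)) * dist z x := by ring
    _ ≤ (|d| * L + ε) * dist z x := by gcongr

theorem lip_add_le {g h : X → ℝ} {K K' : ℝ≥0} (hg : LipschitzWith K g) (hh : LipschitzWith K' h)
    (x : X) : lip (fun y => g y + h y) x ≤ lip g x + lip h x := by
  have h1 := lip_nonneg g x
  have h2 := lip_nonneg h x
  refine lip_le_of (by positivity) fun ε hε => ?_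
  obtain ⟨r1, hr1, hz1⟩ := exists_lip hg (half_pos hε) x
  obtain ⟨r2, hr2, hz2⟩ := exists_lip hh (half_pos hε) x
  refine ⟨min r1 r2, lt_min hr1 hr2, fun z hz => ?_⟩
  have h5 := hz1 z (hz.trans_le (min_le_left _ _))
  have h6 := hz2 z (hz.trans_le (min_le_right _ _))
  calc |g z + h z - (g x + h x)| = |(g z - g x) + (h z - h x)| := by ring_nf
    _ ≤ |g z - g x| + |h z - h x| := abs_add_le _ _
    _ ≤ _ := by linarith

theorem lip_const_mul_le {g : X → ℝ} {K : ℝ≥0} (hg : LipschitzWith K g) (c : ℝ) (x : X) :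
    lip (fun y => c * g y) x ≤ |c| * lip g x := by
  have h : HasDerivAt (fun t : ℝ => c * t) c (g x) := by
    simpa using (hasDerivAt_id (g x)).const_mul c
  exact lip_comp_le hg h

theorem lip_const_mul {g : X → ℝ} {K : ℝ≥0} (hg : LipschitzWith K g) (c : ℝ) (x : X) :
    lip (fun y => c * g y) x = |c| * lip g x := by
  refine le_antisymm (lip_const_mul_le hg c x) ?_
  by_cases hc : c = 0
  · simp [hc, lip_nonneg]
  · have h1 : LipschitzWith (‖c‖₊ * K) fun y => c * g y := by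
      have := (lipschitzWith_smul c).comp hg
      simpa [Function.comp_def, smul_eq_mul] using this
    have h2 := lip_const_mul_le h1 c⁻¹ x
    have h3 : (fun y => c⁻¹ * (c * g y)) = g := by
      funext y; field_simp
    rw [h3, abs_inv] at h2
    have h4 : 0 < |c| := abs_pos.mpr hc
    rw [inv_mul_eq_div, le_div_iff₀ h4] at h2
    linarith

theorem lip_neg {g : X → ℝ} (x : X) : lip (fun y => - g y) x = lip g x := by
  unfold lip Sr
  congr 1
  funext n
  congr 1
  funext z y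
  simp only [habs]
  rw [← abs_neg]
  congr 1
  ring

theorem lip_add_const {g : X → ℝ} (c : ℝ) (x : X) : lip (fun y => g y + c) x = lip g x := by
  unfold lip Sr
  congr 1
  funext n
  congr 1
  funext z y
  simp [habs]

/-- product rule inequality -/
theorem lip_mul_le {g h : X → ℝ} {K K' : ℝ≥0} (hg : LipschitzWith K g) (hh : LipschitzWith K' h)
    (x : X) : lip (fun y => g y * h y) x ≤ |g x| * lip h x + |h x| * lip g x := by
  have h1 := lip_nonneg g x
  have h2 := lip_nonneg h x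
  refine lip_le_of (by positivity) fun ε hε => ?_
  obtain ⟨η, hη, hη2⟩ : ∃ η > 0, |g x| * (lip h x + η) + (|h x| + η) * (lip g x + η) ≤
      |g x| * lip h x + |h x| * lip g x + ε := by
    have hc : Tendsto (fun η : ℝ => |g x| * (lip h x + η) + (|h x| + η) * (lip g x + η)) (𝓝[>] 0)
        (𝓝 (|g x| * (lip h x + 0) + (|h x| + 0) * (lip g x + 0))) := by
      refine Tendsto.mono_left ?_ nhdsWithin_le_nhds
      have : Continuous (fun η : ℝ => |g x| * (lip h x + η) + (|h x| + η) * (lip g x + η)) := by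
        fun_prop
      exact this.tendsto 0
    have h3 : ∀ᶠ η in 𝓝[>] (0 : ℝ), |g x| * (lip h x + η) + (|h x| + η) * (lip g x + η) <
        |g x| * lip h x + |h x| * lip g x + ε :=
      hc.eventually_lt_const (by simpa using hε)
    have h4 : ∀ᶠ η in 𝓝[>] (0 : ℝ), 0 < η := self_mem_nhdsWithin
    obtain ⟨η, h5, h6⟩ := (h3.and h4).exists
    exact ⟨η, h6, h5.le⟩
  obtain ⟨r1, hr1, hz1⟩ := exists_lip hg hη x
  obtain ⟨r2, hr2, hz2⟩ := exists_lip hh hη x
  have h7 : ∀ᶠ z in 𝓝 x, |h z| < |h x| + η := by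
    have : Tendsto (fun z => |h z|) (𝓝 x) (𝓝 |h x|) := (hh.continuous.abs).continuousAt
    exact this.eventually_lt_const (by linarith)
  obtain ⟨r3, hr3, hz3⟩ := Metric.eventually_nhds_iff.mp h7
  refine ⟨min r1 (min r2 r3), by positivity, fun z hz => ?_⟩
  have h5 := hz1 z (hz.trans_le (min_le_left _ _))
  have h6 := hz2 z (hz.trans_le ((min_le_right _ _).trans (min_le_left _ _)))
  have h8 := (hz3 (hz.trans_le ((min_le_right _ _).trans (min_le_right _ _)))).le
  have hd : 0 ≤ dist z x := dist_nonneg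
  calc |g z * h z - g x * h x| = |g x * (h z - h x) + h z * (g z - g x)| := by ring_nf
    _ ≤ |g x| * |h z - h x| + |h z| * |g z - g x| := by
        refine (abs_add_le _ _).trans ?_
        rw [abs_mul, abs_mul]
    _ ≤ |g x| * ((lip h x + η) * dist z x) + (|h x| + η) * ((lip g x + η) * dist z x) := by
        gcongr
    _ = (|g x| * (lip h x + η) + (|h x| + η) * (lip g x + η)) * dist z x := by ring
    _ ≤ _ := by gcongr

/-! ### measurability -/

section meas
variable [MeasurableSpace X] [OpensMeasurableSpace X]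

theorem lowerSemicontinuous_supq {h : X → X → ℝ} {K : ℝ} (hh : ∀ z x, 0 ≤ h z x)
    (hK : ∀ z x, h z x ≤ K * dist z x) (hc : ∀ z, Continuous fun x => h z x) (r : ℝ) :
    LowerSemicontinuous (supq r h) := by
  intro x c hcx
  by_cases hc0 : c < 0
  · exact Eventually.of_forall fun y => hc0.trans_le (supq_nonneg hh r y)
  push Not at hc0
  have hne : Nonempty {z : X // z ≠ x ∧ dist z x < r} := by
    by_contra hne
    rw [not_nonempty_iff] at hne
    unfold supq at hcx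
    rw [Real.iSup_of_isEmpty] at hcx
    linarith
  obtain ⟨⟨z, hz1, hz2⟩, hz⟩ := exists_lt_of_lt_ciSup hcx
  simp only at hz
  have e1 : ∀ᶠ y in 𝓝 x, dist z y < r := by
    have : Tendsto (fun y => dist z y) (𝓝 x) (𝓝 (dist z x)) :=
      (continuous_const.dist continuous_id).continuousAt
    exact this.eventually_lt_const hz2
  have e2 : ∀ᶠ y in 𝓝 x, z ≠ y := by
    have : IsOpen ({z}ᶜ : Set X) := isOpen_compl_singleton
    filter_upwards [this.mem_nhds (show x ∈ ({z}ᶜ : Set X) from fun h => hz1 h.symm)] with y hy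
    exact fun h => hy h.symm
  have e3 : ∀ᶠ y in 𝓝 x, c < h z y / dist z y := by
    have h1 : Tendsto (fun y => h z y / dist z y) (𝓝 x) (𝓝 (h z x / dist z x)) := by
      refine Tendsto.div (hc z).continuousAt (continuous_const.dist continuous_id).continuousAt ?_
      exact (dist_pos.mpr hz1).ne'
    exact h1.eventually_const_lt hz
  filter_upwards [e1, e2, e3] with y h1 h2 h3
  exact h3.trans_le (le_ciSup (bddAbove_supq hK r y) ⟨z, h2, h1⟩)

theorem measurable_Sr {g : X → ℝ} {K : ℝ≥0} (hg : LipschitzWith K g) (r : ℝ) :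
    Measurable (Sr r g) := by
  refine (lowerSemicontinuous_supq (habs_nonneg g) (habs_le hg) (fun z => ?_) r).measurable
  exact (continuous_const.sub hg.continuous).abs

theorem measurable_Sp {g : X → ℝ} {K : ℝ≥0} (hg : LipschitzWith K g) (r : ℝ) :
    Measurable (Sp r g) := by
  refine (lowerSemicontinuous_supq (hpos_nonneg g) (hpos_le hg) (fun z => ?_) r).measurable
  exact (continuous_const.sub hg.continuous).max continuous_const

theorem measurable_lip {g : X → ℝ} {K : ℝ≥0} (hg : LipschitzWith K g) : Measurable (lip g) :=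
  Measurable.iInf fun _ => measurable_Sr hg _

theorem measurable_slm {g : X → ℝ} {K : ℝ≥0} (hg : LipschitzWith K g) : Measurable (slm g) :=
  Measurable.iInf fun _ => measurable_Sp hg.neg _

end meas

end H13CD
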