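import Pool.Agent.Helper13.CD.DI

/-!
# Module S1: L¹-Sobolev inequality and the Lichnerowicz inequality from `DI`

* `sobolev`: for Lipschitz `v ≥ 0`, `q = N/(N-1)`:
  `(∫ v^q)^(1/q) ≤ ∫ v + (D/N) ∫ lip v`.  Proof for `v ≥ η > 0`: `Z = ∫ v^q`,
  `u0 = v^(-1/(N-1))` (so `u0^(-N) = v^q`), `ρ1 = Z` constant (equal masses `Z`).  `DI_crude`:
  `Ent ρ1 - Ent ρ0 ≤ p ∫ lip u0 d dP`, `Ent ρ1 = Z^(1-1/N)`, `Ent ρ0 = ∫ (v^q)^(1-1/N) = ∫ v`,
  `lip u0 ≤ (1/(N-1)) v^(-N/(N-1)) lip v`, so the right side is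
  `≤ p D ∫ lip u0 · v^q dm ≤ (p D/(N-1)) ∫ lip v = (D/N) ∫ lip v`.
  For `v ≥ 0` apply to `v + η`, let `η → 0`.
* `lichnerowicz` is in `Lich.lean`.
-/

open MeasureTheory Set Filter Topology
open scoped ENNReal NNReal

namespace H13CD

variable {X : Type*} [MetricSpace X] [CompactSpace X] [MeasurableSpace X] [BorelSpace X]
  {m : Measure X} [IsProbabilityMeasure m]

/-- negative powers are Lipschitz away from zero -/
theorem sobolev_lip_rpow {v : X → ℝ} {K : ℝ≥0} (hv : LipschitzWith K v) {η e : ℝ} (hη : 0 < η)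
    (he : 0 ≤ e) (h0 : ∀ x, η ≤ v x) : ∃ K' : ℝ≥0, LipschitzWith K' fun x => v x ^ (-e) := by
  have hC : 0 ≤ e * η ^ (-e - 1) := by positivity
  have h1 : LipschitzOnWith ⟨e * η ^ (-e - 1), hC⟩ (fun t : ℝ => t ^ (-e)) (Ici η) := by
    refine Convex.lipschitzOnWith_of_nnnorm_hasDerivWithin_le (convex_Ici η)
      (f' := fun t => -e * t ^ (-e - 1)) ?_ ?_
    · intro t ht
      have ht' : 0 < t := hη.trans_le ht
      exact (Real.hasDerivAt_rpow_const (Or.inl ht'.ne')).hasDerivWithinAt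
    · intro t ht
      have ht' : 0 < t := hη.trans_le ht
      rw [← NNReal.coe_le_coe, coe_nnnorm, norm_mul, norm_neg, Real.norm_of_nonneg he,
        Real.norm_of_nonneg (by positivity)]
      show e * t ^ (-e - 1) ≤ e * η ^ (-e - 1)
      refine mul_le_mul_of_nonneg_left ?_ he
      exact Real.rpow_le_rpow_of_nonpos hη ht (by linarith)
  refine ⟨⟨e * η ^ (-e - 1), hC⟩ * K, ?_⟩
  have h2 := h1.comp (s := univ) (lipschitzOnWith_univ.mpr hv) (fun x _ => h0 x)
  rw [lipschitzOnWith_univ] at h2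
  exact h2

theorem sobolev_pos {N : ℝ} (hN : 1 < N) (hcd : CDr m N) {v : X → ℝ} {K : ℝ≥0}
    (hv : LipschitzWith K v) {η : ℝ} (hη : 0 < η) (h0 : ∀ x, η ≤ v x) {D : ℝ}
    (hD : ∀ x y : X, dist x y ≤ D) :
    (∫ x, v x ^ (N / (N - 1)) ∂m) ^ (1 - 1 / N) ≤ ∫ x, v x ∂m + D / N * ∫ x, lip v x ∂m := by
  have hN1 : 0 < N - 1 := by linarith
  have hN0 : 0 < N := by linarith
  obtain ⟨e, he⟩ : ∃ e, e = 1 / (N - 1) := ⟨_, rfl⟩
  have he0 : 0 < e := by rw [he]; positivity
  have hne : Nonempty X := by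
    by_contra h
    rw [not_nonempty_iff] at h
    have h1 : m univ = 1 := measure_univ
    rw [univ_eq_empty_iff.mpr h, measure_empty] at h1
    exact zero_ne_one h1
  obtain ⟨x0⟩ := hne
  have hD0 : 0 ≤ D := by simpa using hD x0 x0
  obtain ⟨B, hB⟩ : ∃ B, B = v x0 + K * D := ⟨_, rfl⟩
  have hvB : ∀ x, v x ≤ B := by
    intro x
    have h1 := hv.dist_le_mul x x0
    rw [Real.dist_eq] at h1
    have h2 := le_abs_self (v x - v x0)
    have h3 : (K : ℝ) * dist x x0 ≤ K * D := mul_le_mul_of_nonneg_left (hD x x0) K.2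
    linarith
  have hvpos : ∀ x, 0 < v x := fun x => hη.trans_le (h0 x)
  have hB0 : 0 < B := (hvpos x0).trans_le (hvB x0)
  have hq : N / (N - 1) = e + 1 := by rw [he]; field_simp; ring
  have hq0 : 0 < N / (N - 1) := by positivity
  have hpow : ∀ x, (v x ^ (-e)) ^ (-N) = v x ^ (N / (N - 1)) := by
    intro x
    rw [← Real.rpow_mul (hvpos x).le]
    congr 1
    rw [he]
    field_simp
  obtain ⟨Z, hZ⟩ : ∃ Z, Z = ∫ x, v x ^ (N / (N - 1)) ∂m := ⟨_, rfl⟩
  have hvcont : Continuous fun x => v x ^ (N / (N - 1)) :=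
    hv.continuous.rpow_const fun x => Or.inl (hvpos x).ne'
  have hvint : Integrable (fun x => v x ^ (N / (N - 1))) m :=
    hvcont.integrable_of_hasCompactSupport (HasCompactSupport.of_compactSpace _)
  have hZpos : 0 < Z := by
    rw [hZ]
    have h1 : ∫ _x : X, η ^ (N / (N - 1)) ∂m ≤ ∫ x, v x ^ (N / (N - 1)) ∂m := by
      refine integral_mono (integrable_const _) hvint fun x => ?_
      exact Real.rpow_le_rpow hη.le (h0 x) hq0.le
    rw [integral_const] at h1
    simp only [probReal_univ, smul_eq_mul, one_mul] at h1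
    exact (Real.rpow_pos_of_pos hη _).trans_le h1
  obtain ⟨K', hK'⟩ := sobolev_lip_rpow hv hη he0.le h0
  obtain ⟨c, hc⟩ : ∃ c, c = min (B ^ (-e)) Z := ⟨_, rfl⟩
  have hc0 : 0 < c := by rw [hc]; exact lt_min (Real.rpow_pos_of_pos hB0 _) hZpos
  obtain ⟨P, hP, -, hle⟩ := DI_crude hN hcd (ρ1 := fun _ => Z) hK' measurable_const (c := c)
    (C := Z) hc0
    (fun x => by
      rw [hc]
      exact (min_le_left _ _).trans
        (Real.rpow_le_rpow_of_nonpos (hvpos x) (hvB x) (by linarith)))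
    (fun x => ⟨by rw [hc]; exact min_le_right _ _, le_rfl⟩)
    (by
      simp only [hpow]
      rw [integral_const, ← hZ]
      simp)
  have hE1 : Ent N m (fun _ : X => Z) = Z ^ (1 - 1 / N) := by
    unfold Ent
    rw [integral_const]
    simp
  have hE0 : Ent N m (fun x => (v x ^ (-e)) ^ (-N)) = ∫ x, v x ∂m := by
    unfold Ent
    congr 1
    funext x
    show ((v x ^ (-e)) ^ (-N)) ^ (1 - 1 / N) = v x
    rw [hpow, ← Real.rpow_mul (hvpos x).le]
    have : N / (N - 1) * (1 - 1 / N) = 1 := by field_simp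
    rw [this, Real.rpow_one]
  rw [hE1, hE0] at hle
  -- the right side
  have hdm : Measurable fun x => (v x ^ (-e)) ^ (-N) := by
    simp only [hpow]
    exact hvcont.measurable
  have hdi : Integrable (fun x => (v x ^ (-e)) ^ (-N)) m := by
    simp only [hpow]
    exact hvint
  have hd0 : ∀ x, 0 ≤ (v x ^ (-e)) ^ (-N) := fun x => by
    rw [hpow]
    exact (Real.rpow_pos_of_pos (hvpos x) _).le
  have : IsFiniteMeasure (dens m fun x => (v x ^ (-e)) ^ (-N)) := isFiniteMeasure_dens hdi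
  have : IsFiniteMeasure P := hP.isFiniteMeasure
  have hml : Measurable (lip fun x => v x ^ (-e)) := measurable_lip hK'
  have hR1 : ∫ z, lip (fun x => v x ^ (-e)) z.1 * dist z.1 z.2 ∂P ≤
      ∫ z, lip (fun x => v x ^ (-e)) z.1 * D ∂P := by
    refine integral_mono ?_ ?_ fun z => ?_
    · refine Integrable.of_bound (C := K' * D) ?_ (ae_of_all _ fun z => ?_)
      · exact ((hml.comp measurable_fst).mul
          (continuous_dist.measurable)).aestronglyMeasurable
      · rw [norm_mul, Real.norm_of_nonneg (lip_nonneg _ _), Real.norm_of_nonneg dist_nonneg]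
        exact mul_le_mul (lip_le_const hK' _) (hD _ _) dist_nonneg K'.2
    · refine Integrable.of_bound (C := K' * D) ?_ (ae_of_all _ fun z => ?_)
      · exact ((hml.comp measurable_fst).mul measurable_const).aestronglyMeasurable
      · rw [norm_mul, Real.norm_of_nonneg (lip_nonneg _ _), Real.norm_of_nonneg hD0]
        exact mul_le_mul_of_nonneg_right (lip_le_const hK' _) hD0
    · exact mul_le_mul_of_nonneg_left (hD _ _) (lip_nonneg _ _)
  have hR2 : ∫ z, lip (fun x => v x ^ (-e)) z.1 * D ∂P =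
      D * ∫ x, (v x ^ (-e)) ^ (-N) * lip (fun x => v x ^ (-e)) x ∂m := by
    rw [integral_mul_const, mul_comm]
    congr 1
    rw [hP.integral_fst (g := fun x => lip (fun x => v x ^ (-e)) x) hml.aestronglyMeasurable,
      integral_dens hdm hd0]
  have hR3 : ∫ x, (v x ^ (-e)) ^ (-N) * lip (fun x => v x ^ (-e)) x ∂m ≤
      ∫ x, e * lip v x ∂m := by
    have hml' := measurable_lip hv
    refine integral_mono ?_ ?_ fun x => ?_
    · refine Integrable.mul_bdd (c := K') hdi hml.aestronglyMeasurable (ae_of_all _ fun x => ?_)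
      rw [Real.norm_of_nonneg (lip_nonneg _ _)]
      exact lip_le_const hK' x
    · refine Integrable.const_mul ?_ _
      refine Integrable.of_bound (C := K) hml'.aestronglyMeasurable (ae_of_all _ fun x => ?_)
      rw [Real.norm_of_nonneg (lip_nonneg _ _)]
      exact lip_le_const hv x
    · show (v x ^ (-e)) ^ (-N) * lip (fun x => v x ^ (-e)) x ≤ e * lip v x
      have hd : HasDerivAt (fun t : ℝ => t ^ (-e)) ((-e) * v x ^ (-e - 1)) (v x) :=
        Real.hasDerivAt_rpow_const (Or.inl (hvpos x).ne')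
      have h1 := lip_comp_le (x := x) hv hd
      have h2 : |(-e) * v x ^ (-e - 1)| = e * v x ^ (-e - 1) := by
        rw [abs_mul, abs_neg, abs_of_pos he0, abs_of_pos (Real.rpow_pos_of_pos (hvpos x) _)]
      rw [h2] at h1
      rw [hpow]
      calc v x ^ (N / (N - 1)) * lip (fun x => v x ^ (-e)) x
          ≤ v x ^ (N / (N - 1)) * (e * v x ^ (-e - 1) * lip v x) := by
            refine mul_le_mul_of_nonneg_left h1 ?_
            exact (Real.rpow_pos_of_pos (hvpos x) _).le
        _ = e * (v x ^ (N / (N - 1)) * v x ^ (-e - 1)) * lip v x := by ring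
        _ = e * lip v x := by
            rw [← Real.rpow_add (hvpos x), hq]
            have : e + 1 + (-e - 1) = 0 := by ring
            rw [this, Real.rpow_zero, mul_one]
  rw [integral_const_mul] at hR3
  have hI0 : 0 ≤ ∫ x, lip v x ∂m := integral_nonneg fun x => lip_nonneg _ _
  have hp0 : 0 ≤ 1 - 1 / N := by
    have : 1 / N ≤ 1 := by rw [div_le_one hN0]; exact hN.le
    linarith
  have hfin : (1 - 1 / N) * ∫ z, lip (fun x => v x ^ (-e)) z.1 * dist z.1 z.2 ∂P ≤
      D / N * ∫ x, lip v x ∂m := by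
    calc (1 - 1 / N) * ∫ z, lip (fun x => v x ^ (-e)) z.1 * dist z.1 z.2 ∂P
        ≤ (1 - 1 / N) * (D * (e * ∫ x, lip v x ∂m)) := by
          refine mul_le_mul_of_nonneg_left ?_ hp0
          rw [hR2] at hR1
          exact hR1.trans (mul_le_mul_of_nonneg_left hR3 hD0)
      _ = D / N * ∫ x, lip v x ∂m := by
          rw [he]
          field_simp
  rw [← hZ]
  linarith

theorem sobolev {N : ℝ} (hN : 1 < N) (hcd : CDr m N) {v : X → ℝ} {K : ℝ≥0}
    (hv : LipschitzWith K v) (h0 : ∀ x, 0 ≤ v x) {D : ℝ} (hD : ∀ x y : X, dist x y ≤ D) :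
    (∫ x, v x ^ (N / (N - 1)) ∂m) ^ (1 - 1 / N) ≤ ∫ x, v x ∂m + D / N * ∫ x, lip v x ∂m := by
  have hN1 : 0 < N - 1 := by linarith
  have hN0 : 0 < N := by linarith
  have hp0 : 0 ≤ 1 - 1 / N := by
    have : 1 / N ≤ 1 := by rw [div_le_one hN0]; exact hN.le
    linarith
  have hq0 : 0 ≤ N / (N - 1) := by positivity
  refine le_of_forall_pos_le_add fun η hη => ?_
  have hv' : LipschitzWith K fun x => v x + η := by
    intro x y
    rw [edist_add_right]
    exact hv x y
  have h1 := sobolev_pos hN hcd hv' hη (fun x => by have := h0 x; linarith) hD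
  have hvi : Integrable v m :=
    hv.continuous.integrable_of_hasCompactSupport (HasCompactSupport.of_compactSpace _)
  have h2 : ∫ x, (v x + η) ∂m = ∫ x, v x ∂m + η := by
    rw [integral_add hvi (integrable_const _), integral_const]
    simp
  have h3 : ∀ x, lip (fun x => v x + η) x = lip v x := fun x => lip_add_const η x
  simp only [h3] at h1
  rw [h2] at h1
  have h4 : (∫ x, v x ^ (N / (N - 1)) ∂m) ^ (1 - 1 / N) ≤
      (∫ x, (v x + η) ^ (N / (N - 1)) ∂m) ^ (1 - 1 / N) := by
    refine Real.rpow_le_rpow (integral_nonneg fun x => Real.rpow_nonneg (h0 x) _) ?_ hp0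
    refine integral_mono ?_ ?_ fun x => ?_
    · exact (hv.continuous.rpow_const fun x => Or.inr hq0).integrable_of_hasCompactSupport
        (HasCompactSupport.of_compactSpace _)
    · exact (hv'.continuous.rpow_const fun x => Or.inr hq0).integrable_of_hasCompactSupport
        (HasCompactSupport.of_compactSpace _)
    · exact Real.rpow_le_rpow (h0 x) (by linarith) hq0
  linarith

end H13CD
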