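import Mathlib

/-!
# Definitions for the final statement (general metric measure spaces)
-/

open MeasureTheory Set Filter Topology
open scoped ENNReal NNReal

namespace H13CD

variable {X : Type*} [MetricSpace X] [MeasurableSpace X]

/-- `P` is a coupling of `μ` and `ν` -/
def IsCoupling (P : Measure (X × X)) (μ ν : Measure X) : Prop :=
  P.map Prod.fst = μ ∧ P.map Prod.snd = ν

/-- quadratic transport cost -/
noncomputable def tcost (P : Measure (X × X)) : ℝ≥0∞ := ∫⁻ z, edist z.1 z.2 ^ 2 ∂P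

/-- the square of the Wasserstein distance `W₂` -/
noncomputable def W2sq (μ ν : Measure X) : ℝ≥0∞ :=
  ⨅ (P : Measure (X × X)) (_ : IsCoupling P μ ν), tcost P

/-- `P` is an optimal coupling of `μ` and `ν` -/
def IsOptimal (P : Measure (X × X)) (μ ν : Measure X) : Prop :=
  IsCoupling P μ ν ∧ tcost P = W2sq μ ν

/-- `μ : [0,1] → P(X)` is a `W₂`-geodesic: `W₂(μ s, μ t) = |s-t| W₂(μ 0, μ 1)` -/
def IsGeodesic (μ : ℝ → Measure X) : Prop :=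
  (∀ t ∈ Icc (0 : ℝ) 1, IsProbabilityMeasure (μ t)) ∧
    ∀ s ∈ Icc (0 : ℝ) 1, ∀ t ∈ Icc (0 : ℝ) 1,
      W2sq (μ s) (μ t) = ENNReal.ofReal ((s - t) ^ 2) * W2sq (μ 0) (μ 1)

/-- the distortion coefficients `τ^{(t)}_{K,N}(θ)` -/
noncomputable def tauKN (K N t θ : ℝ) : ℝ≥0∞ :=
  if θ = 0 then ENNReal.ofReal t
  else if θ < Real.pi * √((N - 1) / K) then
    ENNReal.ofReal (t ^ (1 / N) *
      (Real.sin (t * θ * √(K / (N - 1))) / Real.sin (θ * √(K / (N - 1)))) ^ (1 - 1 / N))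
  else ⊤

/-- the curvature-dimension condition `CD(K,N)` of Lott-Villani and Sturm -/
def CD (K N : ℝ) (m : Measure X) : Prop :=
  ∀ ρ0 ρ1 : X → ℝ≥0∞, Measurable ρ0 → Measurable ρ1 →
    ∫⁻ x, ρ0 x ∂m = 1 → ∫⁻ x, ρ1 x ∂m = 1 →
    (∃ A : Set X, Bornology.IsBounded A ∧ m.withDensity ρ0 Aᶜ = 0 ∧ m.withDensity ρ1 Aᶜ = 0) →
    ∃ (P : Measure (X × X)) (μ : ℝ → Measure X),
      IsOptimal P (m.withDensity ρ0) (m.withDensity ρ1) ∧ IsGeodesic μ ∧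
      μ 0 = m.withDensity ρ0 ∧ μ 1 = m.withDensity ρ1 ∧
      ∀ t ∈ Ioo (0 : ℝ) 1, ∀ N' ≥ N,
        ∫⁻ z, (tauKN K N' (1 - t) (dist z.1 z.2) * ρ0 z.1 ^ (-(1 / N')) +
            tauKN K N' t (dist z.1 z.2) * ρ1 z.2 ^ (-(1 / N'))) ∂P
          ≤ ∫⁻ x, (μ t).rnDeriv m x ^ (1 - 1 / N') ∂m

/-- the descending slope `|∇⁻f|(x)` -/
noncomputable def slopeMinus (f : X → ℝ) (x : X) : ℝ≥0∞ :=
  limsup (fun y => ENNReal.ofReal (f x - f y) / edist x y) (𝓝[≠] x)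

/-- the best constant `C_X` -/
noncomputable def bestConst (m : Measure X) : ℝ≥0∞ :=
  ⨆ (f : X → ℝ) (_ : ∃ L, LipschitzWith L f) (_ : Integrable f m) (_ : ∫ x, f x ∂m = 0)
    (_ : ¬ f =ᵐ[m] 0), (∫⁻ x, ENNReal.ofReal (f x ^ 2) ∂m) / (∫⁻ x, slopeMinus f x ^ 2 ∂m)

end H13CD
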